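import Pool.Agent.Zk6.JD10

set_option autoImplicit false

/-!
# Jensen polynomials, step 11: from the counting of the non-real zeros to the proportion
-/

namespace Pool.Agent.Zk6.JD

open Complex Polynomial Filter Topology
open Pool.Agent.TH99.RJ (nonreal nonreal_eq)
open Pool.Agent.H24R2.JP (FF gam jensen)

theorem nonreal_le (d n : ℕ) : nonreal (jensen d n) ≤ d := by
  have h1 := nonreal_eq (jensen d n)
  have h2 : (jensen d n).natDegree ≤ d := by
    unfold jensen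
    refine natDegree_sum_le_of_forall_le _ _ fun j hj => ?_
    refine (natDegree_C_mul_X_pow_le _ _).trans ?_
    have := Finset.mem_range.1 hj
    omega
  omega

/-- `log d ≤ d ^ ε / ε` -/
theorem log_le_eps {ε x : ℝ} (hε : 0 < ε) (hx : 1 ≤ x) : Real.log x ≤ x ^ ε / ε :=
  Real.log_le_rpow_div (by linarith) hε

theorem logs_bound (H δ : ℝ) (hH : 0 < H) (hδ : 0 < δ) : ∃ C : ℝ, 0 < C ∧ ∀ d : ℕ, 1 ≤ d →
    (2 + 4 * Real.log (1 + H * d ^ 2)) ^ 2 * (Real.log (√(2 * d) + 2)) ^ 4 ≤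
      C * (d : ℝ) ^ (δ / 25) := by
  set ε := δ / 150 with hε
  have hε0 : 0 < ε := by positivity
  set A := 2 + 4 * Real.log (1 + H) + 8 / ε with hA
  set B := Real.log 4 + 1 / ε with hB
  have hl4 : 0 < Real.log 4 := Real.log_pos (by norm_num)
  have hlH : 0 < Real.log (1 + H) := Real.log_pos (by linarith)
  have hA0 : 0 < A := by positivity
  have hB0 : 0 < B := by positivity
  refine ⟨A ^ 2 * B ^ 4, by positivity, fun d hd => ?_⟩
  have hd1 : (1 : ℝ) ≤ d := by exact_mod_cast hd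
  have hd0 : (0 : ℝ) < d := by linarith
  set x := (d : ℝ) ^ ε with hx
  have hx1 : 1 ≤ x := Real.one_le_rpow hd1 hε0.le
  have hlogd := log_le_eps hε0 hd1
  have h1 : 2 + 4 * Real.log (1 + H * d ^ 2) ≤ A * x := by
    have e1 : Real.log (1 + H * (d : ℝ) ^ 2) ≤ Real.log ((1 + H) * (d : ℝ) ^ 2) := by
      refine Real.log_le_log (by positivity) ?_
      nlinarith [one_le_pow₀ hd1 (n := 2)]
    rw [Real.log_mul (by positivity) (by positivity), Real.log_pow] at e1
    push_cast at e1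
    have e2 : 2 + 4 * Real.log (1 + H * (d : ℝ) ^ 2) ≤ 2 + 4 * Real.log (1 + H) + 8 * (x / ε) := by
      linarith
    refine e2.trans ?_
    have e3 : 8 * (x / ε) = 8 / ε * x := by ring
    rw [e3, hA]
    nlinarith
  have h2 : Real.log (√(2 * d) + 2) ≤ B * x := by
    have e0 : √(2 * (d : ℝ)) ≤ 2 * d := by
      rw [Real.sqrt_le_left (by positivity)]
      nlinarith
    have e1 : Real.log (√(2 * (d : ℝ)) + 2) ≤ Real.log (4 * d) := by
      refine Real.log_le_log (by positivity) ?_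
      linarith
    rw [Real.log_mul (by norm_num) (by positivity)] at e1
    have e3 : x / ε = 1 / ε * x := by ring
    rw [e3] at hlogd
    rw [hB]
    nlinarith
  have h3 : 0 ≤ Real.log (1 + H * (d : ℝ) ^ 2) := by
    apply Real.log_nonneg
    have : 0 ≤ H * (d : ℝ) ^ 2 := by positivity
    linarith
  have h4 : 0 ≤ Real.log (√(2 * (d : ℝ)) + 2) := by
    apply Real.log_nonneg
    have := Real.sqrt_nonneg (2 * (d : ℝ))
    linarith
  calc (2 + 4 * Real.log (1 + H * d ^ 2)) ^ 2 * (Real.log (√(2 * d) + 2)) ^ 4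
      ≤ (A * x) ^ 2 * (B * x) ^ 4 := by gcongr
    _ = A ^ 2 * B ^ 4 * x ^ 6 := by ring
    _ = A ^ 2 * B ^ 4 * (d : ℝ) ^ (δ / 25) := by
        congr 1
        rw [hx, ← Real.rpow_natCast, ← Real.rpow_mul hd0.le]
        congr 1
        rw [hε]
        push_cast
        ring

/-- **The proportion of the non-real zeros of the Jensen polynomials**, from the sum over the
non-real zeros of the derivatives. -/
theorem jd (h : S_SUM) : S_JD := by
  intro κ0 hκ0
  obtain ⟨κ, hκ4, hκ8, hκκ⟩ : ∃ κ : ℝ, 4 ≤ κ ∧ κ < 8 ∧ κ0 ≤ κ :=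
    ⟨max κ0 4, le_max_right _ _, max_lt hκ0 (by norm_num), le_max_left _ _⟩
  obtain ⟨k, hk⟩ : ∃ k : ℝ, k = (κ + 8) / 4 := ⟨_, rfl⟩
  obtain ⟨δ, hδ⟩ : ∃ δ : ℝ, δ = (8 - κ) / 2 := ⟨_, rfl⟩
  have hδ0 : 0 < δ := by rw [hδ]; linarith
  have h2k : 2 * k = κ + δ := by rw [hk, hδ]; ring
  obtain ⟨C1, hC1, h1⟩ := h k (1 / 25) (by rw [hk]; linarith) (by rw [hk]; linarith) (by norm_num)
  obtain ⟨C0, hC0, h0⟩ := base_bound
  obtain ⟨N0', H, hH, hloss⟩ := loss_FF
  obtain ⟨N0, hN0⟩ : ∃ N0 : ℕ, N0 = max N0' 1 := ⟨_, rfl⟩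
  obtain ⟨C3, hC3, h3⟩ := logs_bound H δ hH hδ0
  set Ca := Real.exp (8 * N0) with hCa
  set Cb := C0 * 150 with hCb
  set Cc := 80000 * C1 ^ 2 * C3 with hCc
  refine ⟨Ca + Cb + Cc, by positivity, fun d n hd => ?_⟩
  have hd1 : (1 : ℝ) ≤ d := by exact_mod_cast hd
  have hd0 : (0 : ℝ) < d := by linarith
  have hCa0 : 0 < Ca := Real.exp_pos _
  have hCb0 : 0 < Cb := by positivity
  have hCc0 : 0 < Cc := by positivity
  have hn0 : (0 : ℝ) ≤ n := Nat.cast_nonneg _
  have hexp : Real.exp (-(κ * n)) ≤ Real.exp (-(κ0 * n)) :=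
    Real.exp_le_exp.2 (by nlinarith)
  suffices hsuf : ∃ C, 0 < C ∧ C ≤ Ca + Cb + Cc ∧
      (nonreal (jensen d n) : ℝ) ≤ C * d * Real.exp (-(κ * n)) by
    obtain ⟨C, hC, hC2, hC3⟩ := hsuf
    refine hC3.trans ?_
    gcongr
  by_cases hnN : n < N0
  · refine ⟨Ca, hCa0, by linarith, ?_⟩
    have e1 : (nonreal (jensen d n) : ℝ) ≤ d := by exact_mod_cast nonreal_le d n
    refine e1.trans ?_
    have e2 : 1 ≤ Ca * Real.exp (-(κ * n)) := by
      rw [hCa, ← Real.exp_add]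
      apply Real.one_le_exp
      have e3 : (n : ℝ) ≤ N0 := by exact_mod_cast hnN.le
      nlinarith
    calc (d : ℝ) = d * 1 := (mul_one _).symm
      _ ≤ d * (Ca * Real.exp (-(κ * n))) := mul_le_mul_of_nonneg_left e2 hd0.le
      _ = _ := by ring
  push Not at hnN
  have hn1 : 1 ≤ n := by
    have : 1 ≤ N0 := by rw [hN0]; exact le_max_right _ _
    omega
  have hnN' : N0' ≤ n := by
    have : N0' ≤ N0 := by rw [hN0]; exact le_max_left _ _
    omega
  have hn1' : (1 : ℝ) ≤ n := by exact_mod_cast hn1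
  by_cases hcase : (n : ℝ) < Real.log d / 25
  · refine ⟨Cb, hCb0, by linarith, ?_⟩
    refine (h0 d n).trans ?_
    have e1 : Real.log (d + 1) ≤ 150 * (d : ℝ) ^ (1 / 75 : ℝ) := by
      have e2 := log_le_eps (ε := 1 / 75) (by norm_num) (show (1 : ℝ) ≤ d + 1 by linarith)
      have e3 : ((d : ℝ) + 1) ^ (1 / 75 : ℝ) ≤ (2 * (d : ℝ)) ^ (1 / 75 : ℝ) :=
        Real.rpow_le_rpow (by positivity) (by linarith) (by norm_num)
      have e4 : (2 * (d : ℝ)) ^ (1 / 75 : ℝ) = (2 : ℝ) ^ (1 / 75 : ℝ) * (d : ℝ) ^ (1 / 75 : ℝ) :=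
        Real.mul_rpow (by norm_num) hd0.le
      have e5 : (2 : ℝ) ^ (1 / 75 : ℝ) ≤ 2 := by
        have := Real.rpow_le_rpow_of_exponent_le (x := 2) (by norm_num)
          (show (1 / 75 : ℝ) ≤ 1 by norm_num)
        rwa [Real.rpow_one] at this
      have e6 : (0 : ℝ) < (d : ℝ) ^ (1 / 75 : ℝ) := by positivity
      calc Real.log (d + 1) ≤ ((d : ℝ) + 1) ^ (1 / 75 : ℝ) / (1 / 75) := e2
        _ = 75 * ((d : ℝ) + 1) ^ (1 / 75 : ℝ) := by ring
        _ ≤ 75 * ((2 : ℝ) ^ (1 / 75 : ℝ) * (d : ℝ) ^ (1 / 75 : ℝ)) := by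
            rw [← e4]
            linarith
        _ ≤ 75 * (2 * (d : ℝ) ^ (1 / 75 : ℝ)) := by gcongr
        _ = _ := by ring
    have e2 : (d : ℝ) ^ (-(24 / 75) : ℝ) ≤ Real.exp (-(κ * n)) := by
      rw [Real.rpow_def_of_pos hd0]
      apply Real.exp_le_exp.2
      nlinarith
    calc C0 * ((d : ℝ) ^ (2 / 3 : ℝ) * Real.log (d + 1))
        ≤ C0 * ((d : ℝ) ^ (2 / 3 : ℝ) * (150 * (d : ℝ) ^ (1 / 75 : ℝ))) := by gcongr
      _ = C0 * 150 * ((d : ℝ) ^ (2 / 3 : ℝ) * (d : ℝ) ^ (1 / 75 : ℝ)) := by ring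
      _ = C0 * 150 * ((d : ℝ) ^ (1 : ℝ) * (d : ℝ) ^ (-(24 / 75) : ℝ)) := by
          rw [← Real.rpow_add hd0, ← Real.rpow_add hd0]
          congr 2
          norm_num
      _ ≤ C0 * 150 * ((d : ℝ) ^ (1 : ℝ) * Real.exp (-(κ * n))) := by gcongr
      _ = Cb * d * Real.exp (-(κ * n)) := by
          rw [Real.rpow_one, hCb]
          ring
  · push Not at hcase
    refine ⟨Cc, hCc0, by linarith, ?_⟩
    set T := √(2 * (d : ℝ)) with hT
    have hT2 : T ^ 2 = 2 * d := Real.sq_sqrt (by positivity)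
    have hT1 : 1 ≤ T := by
      rw [hT, Real.one_le_sqrt]
      linarith
    have hlogT : 1 / 25 * Real.log T ≤ n := by
      have e1 : Real.log T = (Real.log 2 + Real.log d) / 2 := by
        rw [hT, Real.log_sqrt (by positivity), Real.log_mul (by norm_num) hd0.ne']
      have e2 : Real.log 2 ≤ 1 := by
        have := Real.log_le_sub_one_of_pos (by norm_num : (0 : ℝ) < 2)
        linarith
      rw [e1]
      linarith
    have hV := hloss n d hnN' hd (C1 * (Real.log (T + 2)) ^ 2 * Real.exp (-(k * n))) (by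
      intro S hS
      refine h1 n T hT1 hlogT S fun x hx => ?_
      rw [hT2]
      exact hS x hx)
    refine hV.trans ?_
    have e1 := h3 d hd
    rw [← hT] at e1
    have e2 : (d : ℝ) ^ (δ / 25) ≤ Real.exp (δ * n) := by
      rw [Real.rpow_def_of_pos hd0]
      apply Real.exp_le_exp.2
      nlinarith
    have e3 : Real.exp (-(k * n)) ^ 2 = Real.exp (-(κ * n)) * Real.exp (-(δ * n)) := by
      rw [← Real.exp_nat_mul, ← Real.exp_add]
      congr 1
      push_cast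
      nlinarith
    have e4 : Real.exp (δ * n) * Real.exp (-(δ * n)) = 1 := by
      rw [← Real.exp_add]
      simp
    calc 80000 * (d : ℝ) * (2 + 4 * Real.log (1 + H * d ^ 2)) ^ 2 *
          (C1 * (Real.log (T + 2)) ^ 2 * Real.exp (-(k * n))) ^ 2
        = 80000 * C1 ^ 2 * d * ((2 + 4 * Real.log (1 + H * d ^ 2)) ^ 2 *
          (Real.log (T + 2)) ^ 4) * Real.exp (-(k * n)) ^ 2 := by ring
      _ ≤ 80000 * C1 ^ 2 * d * (C3 * Real.exp (δ * n)) *
          (Real.exp (-(κ * n)) * Real.exp (-(δ * n))) := by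
          rw [e3]
          exact mul_le_mul_of_nonneg_right (mul_le_mul_of_nonneg_left
            (e1.trans (mul_le_mul_of_nonneg_left e2 hC3.le)) (by positivity)) (by positivity)
      _ = 80000 * C1 ^ 2 * d * C3 * Real.exp (-(κ * n)) *
          (Real.exp (δ * n) * Real.exp (-(δ * n))) := by ring
      _ = Cc * d * Real.exp (-(κ * n)) := by
          rw [e4, hCc]
          ring

end Pool.Agent.Zk6.JD
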