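import Pool.Agent.Zk19.B5
import Pool.Agent.H442R2.EHI.Fourier

set_option autoImplicit false

/-!
# The major arcs in the Siegel-Walfisz range
-/

open Finset Filter Topology
open scoped Real
open scoped ArithmeticFunction.vonMangoldt

namespace Pool.Agent.Zk6

open Pool.Agent.Helper112 Pool.Agent.TH823.PS Pool.Agent.Zk19
open Pool.Agent.H469R2.NK (e norm_e)

lemma msw_ee (x : ℝ) : ee x = e x := by
  unfold ee e
  congr 1
  push_cast
  ring

/-- the two forms of the model -/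
lemma msw_model (P n : ℕ) : (starRingEnd ℂ) (FS P n) = Pool.Agent.H442R2.EHI.gg P n := by
  rw [conj_FS]
  unfold QA Pool.Agent.H442R2.EHI.gg Pool.Agent.H442R2.EHI.cq
  rw [sum_sigma]
  apply sum_congr rfl
  intro q hq
  rw [mul_sum]
  unfold rr
  apply sum_congr rfl
  intro a ha
  unfold kap'
  simp only
  rw [msw_ee]
  congr 2
  ring

/-- summation by parts against the logarithm -/
lemma msw_abel (a : ℕ → ℂ) (M : ℝ) (Y : ℕ) (h : ∀ u : ℕ, u ≤ Y → ‖∑ n ∈ Icc 1 u, a n‖ ≤ M) :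
    ‖∑ n ∈ Icc 1 Y, ((Real.log n : ℝ) : ℂ) * a n‖ ≤ 2 * Real.log Y * M := by
  have key : ∀ u : ℕ, u ≤ Y → ‖∑ n ∈ Icc 1 u, ((Real.log n : ℝ) : ℂ) * a n -
      ((Real.log u : ℝ) : ℂ) * ∑ n ∈ Icc 1 u, a n‖ ≤ M * Real.log u := by
    intro u
    induction u with
    | zero => intro _; simp
    | succ u ih =>
      intro hu
      have h1 := ih (by omega)
      rw [sum_Icc_succ_top (by omega), sum_Icc_succ_top (by omega)]
      have h2 : (∑ n ∈ Icc 1 u, ((Real.log n : ℝ) : ℂ) * a n +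
          ((Real.log ((u + 1 : ℕ) : ℝ) : ℝ) : ℂ) * a (u + 1)) -
          ((Real.log ((u + 1 : ℕ) : ℝ) : ℝ) : ℂ) * (∑ n ∈ Icc 1 u, a n + a (u + 1)) =
          (∑ n ∈ Icc 1 u, ((Real.log n : ℝ) : ℂ) * a n - ((Real.log u : ℝ) : ℂ) * ∑ n ∈ Icc 1 u, a n) +
          (((Real.log u - Real.log ((u + 1 : ℕ) : ℝ) : ℝ)) : ℂ) * ∑ n ∈ Icc 1 u, a n := by
        push_cast
        ring
      rw [h2]
      refine (norm_add_le _ _).trans ?_
      have hmono : Real.log u ≤ Real.log ((u + 1 : ℕ) : ℝ) := by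
        rcases Nat.eq_zero_or_pos u with h0 | h0
        · rw [h0]; simp
        · apply Real.log_le_log (by exact_mod_cast h0)
          push_cast
          linarith
      have h3 : ‖(((Real.log u - Real.log ((u + 1 : ℕ) : ℝ) : ℝ)) : ℂ) * ∑ n ∈ Icc 1 u, a n‖ ≤
          (Real.log ((u + 1 : ℕ) : ℝ) - Real.log u) * M := by
        rw [norm_mul, Complex.norm_real, Real.norm_eq_abs, abs_sub_comm, abs_of_nonneg (by linarith)]
        exact mul_le_mul_of_nonneg_left (h u (by omega)) (by linarith)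
      linarith
  have h1 := key Y le_rfl
  have h2 : ∑ n ∈ Icc 1 Y, ((Real.log n : ℝ) : ℂ) * a n = (∑ n ∈ Icc 1 Y, ((Real.log n : ℝ) : ℂ) * a n -
      ((Real.log Y : ℝ) : ℂ) * ∑ n ∈ Icc 1 Y, a n) + ((Real.log Y : ℝ) : ℂ) * ∑ n ∈ Icc 1 Y, a n := by ring
  rw [h2]
  refine (norm_add_le _ _).trans ?_
  have h0 : 0 ≤ Real.log (Y : ℝ) := Real.log_natCast_nonneg Y
  have h3 : ‖((Real.log Y : ℝ) : ℂ) * ∑ n ∈ Icc 1 Y, a n‖ ≤ Real.log Y * M := by
    rw [norm_mul, Complex.norm_real, Real.norm_of_nonneg h0]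
    exact mul_le_mul_of_nonneg_left (h Y le_rfl) h0
  linarith

/-- the remainder of the decomposition -/
lemma msw_rem {Y P n : ℕ} (hn : n ∈ Icc 1 Y) :
    ‖LC n - Pool.Agent.H442R2.EHI.gg P n - ((Real.log n : ℝ) : ℂ) * Pool.Agent.H442R2.EHI.ff Y P n‖ ≤
      (if n = 1 then (P : ℝ) else 0) + (Λ n - if n.Prime then Real.log n else 0) := by
  rw [mem_Icc] at hn
  by_cases h1 : n = 1
  · subst h1
    have h2 : ‖Pool.Agent.H442R2.EHI.gg P 1‖ ≤ P := by
      rw [← msw_model, RCLike.norm_conj]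
      exact norm_FS P 1
    have h3 : LC 1 = 0 := by
      unfold LC
      simp
    rw [h3]
    simp only [Nat.cast_one, Real.log_one, Complex.ofReal_zero, zero_mul, sub_zero, zero_sub,
      norm_neg, if_true, Nat.not_prime_one, if_false, ArithmeticFunction.vonMangoldt_apply_one, add_zero]
    exact h2
  · have h2 : 2 ≤ n := by omega
    have hl : 0 < Real.log n := Real.log_pos (by exact_mod_cast h2)
    rw [if_neg h1, zero_add]
    unfold LC Pool.Agent.H442R2.EHI.ff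
    rw [if_pos ⟨h2, hn.2⟩]
    have hlc : ((Real.log n : ℝ) : ℂ) ≠ 0 := by exact_mod_cast hl.ne'
    have e1 : ((Λ n : ℝ) : ℂ) - Pool.Agent.H442R2.EHI.gg P n - ((Real.log n : ℝ) : ℂ) *
        ((if n.Prime then (1 : ℂ) else 0) - Pool.Agent.H442R2.EHI.gg P n / ((Real.log n : ℝ) : ℂ)) =
        ((Λ n - (if n.Prime then Real.log n else 0) : ℝ) : ℂ) := by
      rw [mul_sub, mul_div_cancel₀ _ hlc]
      split_ifs with hp
      · push_cast; ring
      · push_cast; ring
    rw [e1, Complex.norm_real, Real.norm_of_nonneg]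
    split_ifs with hp
    · rw [ArithmeticFunction.vonMangoldt_apply_prime hp]
      simp
    · rw [sub_zero]
      exact ArithmeticFunction.vonMangoldt_nonneg

lemma msw_rem_sum {Y P : ℕ} (hY : 1 ≤ Y) :
    ∑ n ∈ Icc 1 Y, ((if n = 1 then (P : ℝ) else 0) + (Λ n - if n.Prime then Real.log n else 0)) ≤
      P + 2 * √(Y : ℝ) * Real.log Y := by
  rw [sum_add_distrib, sum_sub_distrib]
  have h1 : ∑ n ∈ Icc 1 Y, (if n = 1 then (P : ℝ) else 0) ≤ P := by
    rw [sum_ite_eq' (Icc 1 Y) 1 (fun _ => (P : ℝ))]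
    rw [if_pos (mem_Icc.2 ⟨le_rfl, hY⟩)]
  have h2 := Chebyshev.abs_psi_sub_theta_le_sqrt_mul_log (x := (Y : ℝ)) (by exact_mod_cast hY)
  have h3 : Chebyshev.psi (Y : ℝ) = ∑ n ∈ Icc 1 Y, Λ n := by
    unfold Chebyshev.psi
    rw [Nat.floor_natCast]
    rfl
  have h4 : Chebyshev.theta (Y : ℝ) = ∑ n ∈ Icc 1 Y, if n.Prime then Real.log n else 0 := by
    unfold Chebyshev.theta
    rw [Nat.floor_natCast, sum_filter]
    rfl
  rw [h3, h4] at h2
  have h5 := (le_abs_self _).trans h2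
  linarith

/-- one frequency -/
lemma msw_hat {Y P X k : ℕ} (hY : 1 ≤ Y) {M : ℝ}
    (hM : ∀ u : ℕ, u ≤ Y → ‖∑ n ∈ Icc 1 u, Pool.Agent.H442R2.EHI.ff Y P n * e (n * (-((k : ℝ) / X)))‖ ≤ M) :
    ‖hat (Pool.Agent.Zk19.gg P) Y X k‖ ≤ 2 * Real.log Y * M + (P + 2 * √(Y : ℝ) * Real.log Y) := by
  have h1 : (starRingEnd ℂ) (hat (Pool.Agent.Zk19.gg P) Y X k) =
      ∑ n ∈ Icc 1 Y, ((Real.log n : ℝ) : ℂ) * (Pool.Agent.H442R2.EHI.ff Y P n * e (n * (-((k : ℝ) / X)))) +
      ∑ n ∈ Icc 1 Y, (LC n - Pool.Agent.H442R2.EHI.gg P n - ((Real.log n : ℝ) : ℂ) *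
        Pool.Agent.H442R2.EHI.ff Y P n) * e (n * (-((k : ℝ) / X))) := by
    unfold hat
    rw [map_sum, ← sum_add_distrib]
    apply sum_congr rfl
    intro n hn
    rw [map_mul]
    unfold Pool.Agent.Zk19.gg
    rw [map_sub, msw_model]
    have h2 : (starRingEnd ℂ) (LC n) = LC n := by
      unfold LC
      exact Complex.conj_ofReal _
    have h3 : (starRingEnd ℂ) (ee (n * ((k : ℝ) / X))) = e (n * (-((k : ℝ) / X))) := by
      rw [conj_ee, msw_ee]
      congr 1
      ring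
    rw [h2, h3]
    ring
  rw [← RCLike.norm_conj, h1]
  refine (norm_add_le _ _).trans (add_le_add (msw_abel _ M Y hM) ?_)
  refine (norm_sum_le _ _).trans ?_
  refine (sum_le_sum fun n hn => ?_).trans (msw_rem_sum (P := P) hY)
  rw [norm_mul, norm_e, mul_one]
  exact msw_rem hn

/-- **the major arcs in mean square, in the range of Siegel and Walfisz** -/
theorem major_sw (A D : ℕ) : ∃ Y0 : ℕ, ∀ Y : ℕ, Y0 ≤ Y → ∀ P : ℕ, 1 ≤ P → (P : ℝ) ≤ Real.log Y ^ D →
    ∑ k ∈ KM P (P ^ 4) Y (2 * Y), ‖hat (Pool.Agent.Zk19.gg P) Y (2 * Y) k‖ ^ 2 ≤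
      (Y : ℝ) ^ 2 / Real.log Y ^ A := by
  set E : ℕ := 8 * D + A + 3 with hE
  obtain ⟨x0, hff⟩ := Pool.Agent.H442R2.EHI.ff_fourier (D + 1) E
  obtain ⟨x1, hx1⟩ := Pool.Agent.H442R2.EHI.Four8.ev_log (2 * D + 2 * E) 3
  obtain ⟨x2, hx2⟩ := Pool.Agent.H442R2.EHI.Four8.ev_L (10 * 2 ^ (4 * E + 4) + 2 * 2 ^ (D + 1) + 4)
  refine ⟨max (max (x0 ^ 2) x1) (max x2 4), ?_⟩
  intro Y hY P hP hPD
  have hY0 : x0 ^ 2 ≤ Y := le_trans (le_trans (le_max_left _ _) (le_max_left _ _)) hY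
  have hY1 : x1 ≤ Y := le_trans (le_trans (le_max_right _ _) (le_max_left _ _)) hY
  have hY2 : x2 ≤ Y := le_trans (le_trans (le_max_left _ _) (le_max_right _ _)) hY
  have hY3 : 4 ≤ Y := le_trans (le_trans (le_max_right _ _) (le_max_right _ _)) hY
  have hYR : (4 : ℝ) ≤ Y := by exact_mod_cast hY3
  have hYp : (0 : ℝ) < Y := by linarith
  have hA1 := hx1 Y hY1
  have hW := hx2 Y hY2
  set W : ℝ := Real.log Y with hWd
  have h2E : (0 : ℝ) < 2 ^ (4 * E + 4) := by positivity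
  have h2D : (0 : ℝ) < 2 ^ (D + 1) := by positivity
  have hW4 : 4 ≤ W := by linarith
  have hW0 : 0 < W := by linarith
  have hW1 : 1 ≤ W := by linarith
  have hWE : 10 * 2 ^ (4 * E + 4) ≤ W := by linarith
  have hWD : 2 ^ (D + 1) ≤ W / 2 := by linarith
  have hPR : (1 : ℝ) ≤ P := by exact_mod_cast hP
  have hs0 : 0 < √(Y : ℝ) := Real.sqrt_pos.2 hYp
  have hss : √(Y : ℝ) * √(Y : ℝ) = Y := Real.mul_self_sqrt hYp.le
  have hs1 : 1 ≤ √(Y : ℝ) := by rw [Real.one_le_sqrt]; linarith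
  set M : ℝ := 2 ^ (2 * E) * (Y / W ^ (2 * E)) with hM
  have hM0 : 0 ≤ M := by positivity
  -- one frequency
  have hone : ∀ k ∈ KM P (P ^ 4) Y (2 * Y), ‖hat (Pool.Agent.Zk19.gg P) Y (2 * Y) k‖ ≤
      2 ^ (2 * E + 2) * (Y * W / W ^ (2 * E)) := by
    intro k hk
    rw [mem_KM] at hk
    obtain ⟨hk1, q, c, hq1, hqP, hcq, hkq⟩ := hk
    have hq1R : (1 : ℝ) ≤ q := by exact_mod_cast hq1
    have hmain := msw_hat (Y := Y) (P := P) (X := 2 * Y) (k := k) (by omega) (M := M) (by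
      intro u hu
      rcases lt_or_ge (u : ℝ) (√(Y : ℝ)) with hlt | hge
      · -- trivial bound
        have h1 : ‖∑ n ∈ Icc 1 u, Pool.Agent.H442R2.EHI.ff Y P n * e (n * (-((k : ℝ) / (2 * Y : ℕ))))‖ ≤
            u * (1 + 2 * (P : ℝ) ^ 2) := by
          refine (norm_sum_le _ _).trans ?_
          have h2 : ∀ n ∈ Icc 1 u, ‖Pool.Agent.H442R2.EHI.ff Y P n * e (n * (-((k : ℝ) / (2 * Y : ℕ))))‖ ≤
              1 + 2 * (P : ℝ) ^ 2 := by
            intro n _
            rw [norm_mul, norm_e, mul_one]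
            exact Pool.Agent.H442R2.EHI.ff_bound Y P n
          refine (sum_le_sum h2).trans ?_
          rw [sum_const, Nat.card_Icc, nsmul_eq_mul, Nat.add_sub_cancel]
        refine h1.trans ?_
        have h2 : 1 + 2 * (P : ℝ) ^ 2 ≤ 3 * W ^ (2 * D) := by
          have h3 : (P : ℝ) ^ 2 ≤ W ^ (2 * D) := by
            rw [pow_mul']
            gcongr
          nlinarith
        have h3 : (u : ℝ) * (1 + 2 * (P : ℝ) ^ 2) ≤ √(Y : ℝ) * (3 * W ^ (2 * D)) := by
          gcongr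
        refine h3.trans ?_
        have h4 : √(Y : ℝ) * (3 * W ^ (2 * D)) ≤ Y / W ^ (2 * E) := by
          rw [le_div_iff₀ (by positivity)]
          calc √(Y : ℝ) * (3 * W ^ (2 * D)) * W ^ (2 * E) = √(Y : ℝ) * (3 * W ^ (2 * D + 2 * E)) := by
                rw [pow_add]; ring
            _ ≤ √(Y : ℝ) * √(Y : ℝ) := by gcongr
            _ = Y := hss
        refine h4.trans ?_
        rw [hM]
        have h5 : (1 : ℝ) ≤ 2 ^ (2 * E) := one_le_pow₀ (by norm_num)
        have h6 : 0 ≤ (Y : ℝ) / W ^ (2 * E) := by positivity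
        exact le_mul_of_one_le_left h6 h5
      · -- Siegel-Walfisz
        have hux0 : x0 ≤ u := by
          have h1 : (x0 : ℝ) ≤ √(Y : ℝ) := by
            apply Real.le_sqrt_of_sq_le
            exact_mod_cast hY0
          exact_mod_cast h1.trans hge
        have hu0 : (0 : ℝ) < u := by linarith
        have hlu : W / 2 ≤ Real.log u := by
          have h1 := Real.log_le_log hs0 hge
          rw [Real.log_sqrt hYp.le] at h1
          exact h1
        have hlu0 : 0 < Real.log u := by linarith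
        have huY : (u : ℝ) ≤ Y := by exact_mod_cast hu
        have hWu : W ≤ 2 * Real.log u := by linarith
        have h2Du : 2 ^ (D + 1) ≤ Real.log u := by linarith
        have hPu : (P : ℝ) ≤ Real.log u ^ (D + 1) := by
          calc (P : ℝ) ≤ W ^ D := hPD
            _ ≤ (2 * Real.log u) ^ D := by gcongr
            _ = 2 ^ D * Real.log u ^ D := mul_pow _ _ _
            _ ≤ Real.log u * Real.log u ^ D := by
                apply mul_le_mul_of_nonneg_right _ (by positivity)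
                have : (2 : ℝ) ^ (D + 1) = 2 * 2 ^ D := by ring
                have h3 : (0 : ℝ) < 2 ^ D := by positivity
                linarith
            _ = Real.log u ^ (D + 1) := by ring
        have hbeta : |(-((k : ℝ) / (2 * Y : ℕ))) - ((-c : ℤ) : ℝ) / (q : ℝ)| ≤ Real.log u ^ E / u := by
          have h1 : |(-((k : ℝ) / (2 * Y : ℕ))) - ((-c : ℤ) : ℝ) / (q : ℝ)| =
              |(k : ℝ) / (2 * Y : ℕ) - c / q| := by
            rw [← abs_neg]
            congr 1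
            push_cast
            ring
          rw [h1]
          have h2 : (Y : ℝ) * |(k : ℝ) / (2 * Y : ℕ) - c / q| ≤ (P : ℝ) ^ 4 := by
            have h3 : 0 ≤ (Y : ℝ) * |(k : ℝ) / (2 * Y : ℕ) - c / q| := by positivity
            have h4 : (Y : ℝ) * |(k : ℝ) / (2 * Y : ℕ) - c / q| ≤
                q * ((Y : ℝ) * |(k : ℝ) / (2 * Y : ℕ) - c / q|) := le_mul_of_one_le_left h3 hq1R
            refine h4.trans (hkq.trans ?_)
            push_cast
            exact le_rfl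
          have h3 : (P : ℝ) ^ 4 ≤ Real.log u ^ E := by
            calc (P : ℝ) ^ 4 ≤ (W ^ D) ^ 4 := by gcongr
              _ = W ^ (4 * D) := by rw [← pow_mul]; ring_nf
              _ ≤ (2 * Real.log u) ^ (4 * D) := by gcongr
              _ ≤ (Real.log u ^ 2) ^ (4 * D) := by
                  gcongr
                  have : (2 : ℝ) ≤ Real.log u := by
                    have h5 : (1 : ℝ) ≤ 2 ^ D := one_le_pow₀ (by norm_num)
                    have h6 : (2 : ℝ) ^ (D + 1) = 2 * 2 ^ D := by ring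
                    linarith
                  nlinarith
              _ = Real.log u ^ (8 * D) := by rw [← pow_mul]; ring_nf
              _ ≤ Real.log u ^ E := by
                  apply pow_le_pow_right₀
                  · have h5 : (1 : ℝ) ≤ 2 ^ D := one_le_pow₀ (by norm_num)
                    have h6 : (2 : ℝ) ^ (D + 1) = 2 * 2 ^ D := by ring
                    linarith
                  · omega
          rw [le_div_iff₀ hu0]
          calc |(k : ℝ) / (2 * Y : ℕ) - c / q| * u ≤ |(k : ℝ) / (2 * Y : ℕ) - c / q| * Y := by gcongr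
            _ = Y * |(k : ℝ) / (2 * Y : ℕ) - c / q| := by ring
            _ ≤ (P : ℝ) ^ 4 := h2
            _ ≤ _ := h3
        have hfu := hff u hux0 P hP hPu q (mem_Icc.2 ⟨hq1, hqP⟩) (-c) (IsCoprime.neg_left hcq) _ hbeta
        have hcongr : ∑ n ∈ Icc 1 u, Pool.Agent.H442R2.EHI.ff Y P n * e (n * (-((k : ℝ) / (2 * Y : ℕ)))) =
            ∑ n ∈ Icc 1 u, Pool.Agent.H442R2.EHI.ff u P n * e (n * (-((k : ℝ) / (2 * Y : ℕ)))) := by
          apply sum_congr rfl
          intro n hn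
          rw [mem_Icc] at hn
          congr 1
          unfold Pool.Agent.H442R2.EHI.ff
          by_cases h2 : 2 ≤ n
          · rw [if_pos (⟨h2, hn.2.trans hu⟩ : 2 ≤ n ∧ n ≤ Y), if_pos (⟨h2, hn.2⟩ : 2 ≤ n ∧ n ≤ u)]
          · rw [if_neg (fun h : 2 ≤ n ∧ n ≤ Y => h2 h.1), if_neg (fun h : 2 ≤ n ∧ n ≤ u => h2 h.1)]
        rw [hcongr]
        refine hfu.trans ?_
        calc (u : ℝ) / Real.log u ^ (2 * E) ≤ Y / (W / 2) ^ (2 * E) := by
              apply div_le_div₀ hYp.le huY (by positivity)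
              gcongr
          _ = M := by
              rw [hM, div_pow]
              field_simp)
    refine hmain.trans ?_
    have h1 : (P : ℝ) + 2 * √(Y : ℝ) * W ≤ Y * W / W ^ (2 * E) := by
      have h2 : (P : ℝ) + 2 * √(Y : ℝ) * W ≤ 3 * W ^ (2 * D) * W * √(Y : ℝ) := by
        have h3 : (P : ℝ) ≤ W ^ (2 * D) * W * √(Y : ℝ) := by
          have h4 : W ^ D ≤ W ^ (2 * D) := pow_le_pow_right₀ hW1 (by omega)
          have h5 : (0 : ℝ) < W ^ (2 * D) := by positivity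
          have h6 : 1 ≤ W * √(Y : ℝ) := by nlinarith
          calc (P : ℝ) ≤ W ^ (2 * D) := hPD.trans h4
            _ = W ^ (2 * D) * 1 := by ring
            _ ≤ W ^ (2 * D) * (W * √(Y : ℝ)) := by gcongr
            _ = _ := by ring
        have h4 : 2 * √(Y : ℝ) * W ≤ 2 * (W ^ (2 * D) * W * √(Y : ℝ)) := by
          have h5 : 1 ≤ W ^ (2 * D) := one_le_pow₀ hW1
          have h6 : 0 ≤ 2 * √(Y : ℝ) * W := by positivity
          calc 2 * √(Y : ℝ) * W ≤ W ^ (2 * D) * (2 * √(Y : ℝ) * W) := le_mul_of_one_le_left h6 h5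
            _ = _ := by ring
        linarith
      refine h2.trans ?_
      rw [le_div_iff₀ (by positivity)]
      calc 3 * W ^ (2 * D) * W * √(Y : ℝ) * W ^ (2 * E) = (3 * W ^ (2 * D + 2 * E)) * √(Y : ℝ) * W := by
            rw [pow_add]; ring
        _ ≤ √(Y : ℝ) * √(Y : ℝ) * W := by gcongr
        _ = Y * W := by rw [hss]
    have h3 : 2 * W * M = 2 ^ (2 * E + 1) * (Y * W / W ^ (2 * E)) := by
      rw [hM]
      ring
    have h4 : (1 : ℝ) ≤ 2 ^ (2 * E + 1) := one_le_pow₀ (by norm_num)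
    have h5 : 0 ≤ (Y : ℝ) * W / W ^ (2 * E) := by positivity
    have h6 : (2 : ℝ) ^ (2 * E + 2) = 2 ^ (2 * E + 1) + 2 ^ (2 * E + 1) := by ring
    rw [h3, h6, add_mul]
    have h7 : (Y : ℝ) * W / W ^ (2 * E) ≤ 2 ^ (2 * E + 1) * (Y * W / W ^ (2 * E)) :=
      le_mul_of_one_le_left h5 h4
    linarith
  -- the number of frequencies
  have hcard := card_KM (P := P) (V := P ^ 4) (Y := Y) hP (Nat.one_le_pow _ _ (by omega)) (by
    have h1 : ((P ^ 4 : ℕ) : ℝ) < Y := by
      push_cast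
      calc (P : ℝ) ^ 4 ≤ (W ^ D) ^ 4 := by gcongr
        _ = W ^ (4 * D) := by rw [← pow_mul]; ring_nf
        _ ≤ W ^ (2 * D + 2 * E) := pow_le_pow_right₀ hW1 (by omega)
        _ < 3 * W ^ (2 * D + 2 * E) := by
            have : 0 < W ^ (2 * D + 2 * E) := by positivity
            linarith
        _ ≤ √(Y : ℝ) := hA1
        _ = √(Y : ℝ) * 1 := by ring
        _ ≤ √(Y : ℝ) * √(Y : ℝ) := by gcongr
        _ = Y := hss
    exact_mod_cast h1)
  push_cast at hcard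
  have hsum : ∑ k ∈ KM P (P ^ 4) Y (2 * Y), ‖hat (Pool.Agent.Zk19.gg P) Y (2 * Y) k‖ ^ 2 ≤
      ((KM P (P ^ 4) Y (2 * Y)).card : ℝ) * (2 ^ (2 * E + 2) * (Y * W / W ^ (2 * E))) ^ 2 := by
    rw [← nsmul_eq_mul, ← sum_const]
    apply sum_le_sum
    intro k hk
    exact pow_le_pow_left₀ (norm_nonneg _) (hone k hk) 2
  refine hsum.trans ?_
  have hP6 : 10 * (P : ℝ) ^ 2 * (P : ℝ) ^ 4 ≤ 10 * W ^ (6 * D) := by
    have h1 : (P : ℝ) ^ 6 ≤ (W ^ D) ^ 6 := by gcongr
    rw [← pow_mul, mul_comm D 6] at h1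
    calc 10 * (P : ℝ) ^ 2 * (P : ℝ) ^ 4 = 10 * (P : ℝ) ^ 6 := by ring
      _ ≤ _ := by linarith
  calc ((KM P (P ^ 4) Y (2 * Y)).card : ℝ) * (2 ^ (2 * E + 2) * (Y * W / W ^ (2 * E))) ^ 2
      ≤ (10 * W ^ (6 * D)) * (2 ^ (2 * E + 2) * (Y * W / W ^ (2 * E))) ^ 2 := by
        apply mul_le_mul_of_nonneg_right (hcard.trans hP6) (by positivity)
    _ = (10 * 2 ^ (4 * E + 4)) * (W ^ (6 * D + 2) * (Y ^ 2 / W ^ (4 * E))) := by
        have e1 : (W ^ (2 * E)) ^ 2 = W ^ (4 * E) := by rw [← pow_mul]; ring_nf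
        have e2 : ((2 : ℝ) ^ (2 * E + 2)) ^ 2 = 2 ^ (4 * E + 4) := by rw [← pow_mul]; ring_nf
        rw [mul_pow, div_pow, e1, e2, pow_add W (6 * D) 2]
        ring
    _ ≤ W * (W ^ (6 * D + 2) * (Y ^ 2 / W ^ (4 * E))) := by
        apply mul_le_mul_of_nonneg_right hWE (by positivity)
    _ = Y ^ 2 * (W ^ (6 * D + 3) / W ^ (4 * E)) := by ring
    _ ≤ Y ^ 2 * (1 / W ^ A) := by
        apply mul_le_mul_of_nonneg_left _ (by positivity)
        rw [div_le_div_iff₀ (by positivity) (by positivity), ← pow_add, one_mul]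
        apply pow_le_pow_right₀ hW1
        omega
    _ = Y ^ 2 / W ^ A := by ring

end Pool.Agent.Zk6
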