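import Mathlib

set_option autoImplicit false

/-!
# Boole's identity for sums of simple fractions
-/

namespace Pool.Agent.Zk6.JD

open Polynomial Set MeasureTheory

/-- the sum of simple fractions -/
noncomputable def RR (T : Finset ℝ) (w : ℝ → ℝ) (x : ℝ) : ℝ := ∑ t ∈ T, w t / (x - t)

theorem RR_anti (T : Finset ℝ) (w : ℝ → ℝ) (hw : ∀ t ∈ T, 0 < w t) (hT : T.Nonempty) {x y : ℝ}
    (hxy : x < y) (h : ∀ t ∈ T, t < x ∨ y < t) : RR T w y < RR T w x := by
  unfold RR
  refine Finset.sum_lt_sum_of_nonempty hT fun t ht => ?_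
  have h1 : w t / (x - t) - w t / (y - t) = w t * (y - x) / ((x - t) * (y - t)) := by
    have h2 : x - t ≠ 0 := by
      rcases h t ht with h | h
      · exact (sub_pos.2 h).ne'
      · exact (sub_neg.2 (hxy.trans h)).ne
    have h3 : y - t ≠ 0 := by
      rcases h t ht with h | h
      · exact (sub_pos.2 (h.trans hxy)).ne'
      · exact (sub_neg.2 h).ne
    field_simp
    ring
  have h4 : 0 < (x - t) * (y - t) := by
    rcases h t ht with h | h
    · exact mul_pos (by linarith) (by linarith)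
    · exact mul_pos_of_neg_of_neg (by linarith) (by linarith)
  have h5 : 0 < w t * (y - x) / ((x - t) * (y - t)) :=
    div_pos (mul_pos (hw t ht) (by linarith)) h4
  linarith

theorem contOn_sum (T : Finset ℝ) (w : ℝ → ℝ) (a b : ℝ) (h : ∀ t ∈ T, t < a ∨ b < t) :
    ContinuousOn (fun x => ∑ t ∈ T, w t / (x - t)) (Icc a b) := by
  refine continuousOn_finsetSum _ fun t ht => ?_
  refine ContinuousOn.div continuousOn_const (continuousOn_id.sub continuousOn_const) ?_
  intro x hx
  rcases h t ht with h | h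
  · exact (sub_pos.2 (h.trans_le hx.1)).ne'
  · exact (sub_neg.2 (hx.2.trans_lt h)).ne

/-- the level point to the left of each pole -/
theorem boole_pt (T : Finset ℝ) (w : ℝ → ℝ) (hw : ∀ t ∈ T, 0 < w t) (l : ℝ) (hl : 0 < l) (t : ℝ)
    (ht : t ∈ T) : ∃ ξ, ξ < t ∧ (∀ u ∈ T, u < t → u < ξ) ∧ RR T w ξ = -l := by
  classical
  by_cases hex : ∃ u ∈ T, u < t
  · set F := T.filter fun u => u < t with hF
    have hne : F.Nonempty := by
      obtain ⟨u, h1, h2⟩ := hex
      exact ⟨u, Finset.mem_filter.2 ⟨h1, h2⟩⟩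
    obtain ⟨u, hu⟩ : ∃ u, u = F.max' hne := ⟨_, rfl⟩
    have hmem := Finset.mem_filter.1 (F.max'_mem hne)
    rw [← hu] at hmem
    obtain ⟨huT, hut⟩ := hmem
    have hmax : ∀ v ∈ T, v < t → v ≤ u := by
      intro v h1 h2
      rw [hu]
      exact F.le_max' v (Finset.mem_filter.2 ⟨h1, h2⟩)
    set T' := (T.erase t).erase u with hT'
    have huT' : u ∈ T.erase t := Finset.mem_erase.2 ⟨hut.ne, huT⟩
    have hpole : ∀ v ∈ T', v < u ∨ t < v := by
      intro v hv
      rw [hT', Finset.mem_erase, Finset.mem_erase] at hv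
      rcases lt_trichotomy v t with h | h | h
      · exact Or.inl (lt_of_le_of_ne (hmax v hv.2.2 h) hv.1)
      · exact absurd h hv.2.1
      · exact Or.inr h
    set h : ℝ → ℝ := fun x => w t * (x - u) + w u * (x - t) +
      (x - t) * (x - u) * (l + ∑ v ∈ T', w v / (x - v)) with hh
    have hc : ContinuousOn h (Icc u t) := by
      have := contOn_sum T' w u t hpole
      fun_prop
    have h1 : h u < 0 := by
      simp only [hh, sub_self, mul_zero, zero_mul, add_zero, zero_add]
      exact mul_neg_of_pos_of_neg (hw u huT) (by linarith)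
    have h2 : 0 < h t := by
      simp only [hh, sub_self, mul_zero, zero_mul, add_zero]
      exact mul_pos (hw t ht) (by linarith)
    obtain ⟨ξ, hξ, hξ0⟩ := intermediate_value_Icc hut.le hc ⟨h1.le, h2.le⟩
    have hξu : u < ξ := by
      refine lt_of_le_of_ne hξ.1 ?_
      rintro rfl
      rw [hξ0] at h1
      exact lt_irrefl _ h1
    have hξt : ξ < t := by
      refine lt_of_le_of_ne hξ.2 ?_
      rintro rfl
      rw [hξ0] at h2
      exact lt_irrefl _ h2
    refine ⟨ξ, hξt, fun v hv hvt => (hmax v hv hvt).trans_lt hξu, ?_⟩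
    have e1 : RR T w ξ = w t / (ξ - t) + (w u / (ξ - u) + ∑ v ∈ T', w v / (ξ - v)) := by
      unfold RR
      rw [← Finset.add_sum_erase _ _ ht, ← Finset.add_sum_erase _ _ huT']
    have e2 : ξ - t ≠ 0 := (sub_neg.2 hξt).ne
    have e3 : ξ - u ≠ 0 := (sub_pos.2 hξu).ne'
    simp only [hh] at hξ0
    rw [e1]
    have e4 : w t / (ξ - t) + (w u / (ξ - u) + ∑ v ∈ T', w v / (ξ - v)) + l =
        (w t * (ξ - u) + w u * (ξ - t) +
      (ξ - t) * (ξ - u) * (l + ∑ v ∈ T', w v / (ξ - v))) / ((ξ - t) * (ξ - u)) := by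
      field_simp
      ring
    rw [hξ0, zero_div] at e4
    linarith
  · push Not at hex
    set T' := T.erase t with hT'
    set W := ∑ v ∈ T, w v with hW
    have hW0 : 0 < W := Finset.sum_pos hw ⟨t, ht⟩
    set x0 := t - W / l with hx0
    have hx0t : x0 < t := by
      have := div_pos hW0 hl
      linarith
    have hpole : ∀ v ∈ T', v < x0 ∨ t < v := by
      intro v hv
      rw [hT', Finset.mem_erase] at hv
      exact Or.inr (lt_of_le_of_ne (hex v hv.2) hv.1.symm)
    set h : ℝ → ℝ := fun x => w t + (x - t) * (l + ∑ v ∈ T', w v / (x - v)) with hh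
    have hc : ContinuousOn h (Icc x0 t) := by
      have := contOn_sum T' w x0 t hpole
      fun_prop
    have e0 : ∀ x, x < t → h x = (x - t) * (l + RR T w x) := by
      intro x hx
      have e1 : RR T w x = w t / (x - t) + ∑ v ∈ T', w v / (x - v) := by
        unfold RR
        rw [← Finset.add_sum_erase _ _ ht]
      have e2 : x - t ≠ 0 := (sub_neg.2 hx).ne
      simp only [hh]
      rw [e1]
      field_simp
      ring
    have h1 : h x0 ≤ 0 := by
      rw [e0 x0 hx0t]
      refine mul_nonpos_of_nonpos_of_nonneg (by linarith) ?_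
      have e3 : ∀ v ∈ T, -(w v * (l / W)) ≤ w v / (x0 - v) := by
        intro v hv
        have e4 : W / l ≤ v - x0 := by
          have := hex v hv
          rw [hx0]
          linarith
        have e5 : 0 < W / l := div_pos hW0 hl
        have e6 : w v / (x0 - v) = -(w v / (v - x0)) := by
          rw [← neg_sub v x0, div_neg]
        rw [e6, neg_le_neg_iff]
        have e7 : w v / (v - x0) ≤ w v / (W / l) :=
          div_le_div_of_nonneg_left (hw v hv).le e5 e4
        refine e7.trans (le_of_eq ?_)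
        field_simp
      have e8 := Finset.sum_le_sum e3
      have e9 : ∑ v ∈ T, -(w v * (l / W)) = -l := by
        rw [Finset.sum_neg_distrib, ← Finset.sum_mul, ← hW]
        field_simp
      rw [e9] at e8
      unfold RR
      linarith
    have h2 : 0 < h t := by
      simp only [hh, sub_self, zero_mul, add_zero]
      exact hw t ht
    obtain ⟨ξ, hξ, hξ0⟩ := intermediate_value_Icc hx0t.le hc ⟨h1, h2.le⟩
    have hξt : ξ < t := by
      refine lt_of_le_of_ne hξ.2 ?_
      rintro rfl
      rw [hξ0] at h2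
      exact lt_irrefl _ h2
    refine ⟨ξ, hξt, fun v hv hvt => absurd hvt (not_lt.2 (hex v hv)), ?_⟩
    rw [e0 ξ hξt] at hξ0
    have := (mul_eq_zero.1 hξ0).resolve_left (sub_neg.2 hξt).ne
    linarith

/-- the sum of the level points -/
theorem boole_sum (T : Finset ℝ) (w : ℝ → ℝ) (hw : ∀ t ∈ T, 0 < w t) (l : ℝ) (hl : 0 < l)
    (hT : T.Nonempty) (ξ : ℝ → ℝ) (h1 : ∀ t ∈ T, ξ t < t) (h2 : ∀ t ∈ T, ∀ u ∈ T, u < t → u < ξ t)
    (h3 : ∀ t ∈ T, RR T w (ξ t) = -l) :
    ∑ t ∈ T, ξ t = ∑ t ∈ T, t - (∑ t ∈ T, w t) / l := by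
  classical
  have hcard : 0 < T.card := hT.card_pos
  have hinj : Set.InjOn ξ T := by
    intro a ha b hb hab
    by_contra hne
    rcases lt_or_gt_of_ne hne with h | h
    · have e1 := h1 a ha
      have e2 := h2 b hb a ha h
      linarith
    · have e1 := h1 b hb
      have e2 := h2 a ha b hb h
      linarith
  have hnotmem : ∀ t ∈ T, ∀ u ∈ T, ξ t - u ≠ 0 := by
    intro t ht u hu h
    rw [sub_eq_zero] at h
    rcases lt_or_ge u t with h4 | h4
    · exact absurd h (h2 t ht u hu h4).ne'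
    · exact absurd h ((h1 t ht).trans_le h4).ne
  set p : ℝ[X] := C l * ∏ t ∈ T, (X - C t) + ∑ t ∈ T, C (w t) * ∏ u ∈ T.erase t, (X - C u) with hp
  set q : ℝ[X] := C l * ∏ t ∈ T, (X - C (ξ t)) with hq
  have hm1 : (∏ t ∈ T, (X - C t) : ℝ[X]).Monic := monic_prod_X_sub_C _ _
  have hm2 : (∏ t ∈ T, (X - C (ξ t)) : ℝ[X]).Monic := monic_prod_X_sub_C _ _
  have hd1 : (∏ t ∈ T, (X - C t) : ℝ[X]).degree = T.card := by
    rw [degree_eq_natDegree hm1.ne_zero, natDegree_finsetProd_X_sub_C_eq_card]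
  have hd2 : (∏ t ∈ T, (X - C (ξ t)) : ℝ[X]).degree = T.card := by
    rw [degree_eq_natDegree hm2.ne_zero, natDegree_finsetProd_X_sub_C_eq_card]
  have hpq : p = q := by
    refine eq_of_degree_sub_lt_of_eval_index_eq (s := T) (v := ξ) hinj ?_ ?_
    · have e1 : p - q = C l * ((∏ t ∈ T, (X - C t)) - ∏ t ∈ T, (X - C (ξ t))) +
          ∑ t ∈ T, C (w t) * ∏ u ∈ T.erase t, (X - C u) := by
        rw [hp, hq]; ring
      rw [e1]
      refine (degree_add_le _ _).trans_lt (max_lt ?_ ?_)
      · rw [degree_C_mul hl.ne', ← hd1]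
        exact degree_sub_lt_left (hd1.trans hd2.symm) hm1.ne_zero
          (hm1.leadingCoeff.trans hm2.leadingCoeff.symm)
      · refine (degree_sum_le _ _).trans_lt ?_
        rw [Finset.sup_lt_iff (WithBot.bot_lt_coe _)]
        intro t ht
        rw [degree_C_mul (hw t ht).ne']
        have hm3 : (∏ u ∈ T.erase t, (X - C u) : ℝ[X]).Monic := monic_prod_X_sub_C _ _
        rw [degree_eq_natDegree hm3.ne_zero, natDegree_finsetProd_X_sub_C_eq_card,
          Finset.card_erase_of_mem ht]
        exact_mod_cast (by omega)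
    · intro t ht
      have e1 : q.eval (ξ t) = 0 := by
        rw [hq, eval_mul, eval_prod, Finset.prod_eq_zero ht, mul_zero]
        simp
      have e2 : p.eval (ξ t) = (∏ u ∈ T, (ξ t - u)) * (l + RR T w (ξ t)) := by
        rw [hp, eval_add, eval_mul, eval_C, eval_prod, eval_finsetSum, mul_add]
        congr 1
        · simp only [eval_sub, eval_X, eval_C]
          ring
        · unfold RR
          rw [Finset.mul_sum]
          refine Finset.sum_congr rfl fun u hu => ?_
          rw [eval_mul, eval_C, eval_prod]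
          simp only [eval_sub, eval_X, eval_C]
          rw [← Finset.mul_prod_erase T _ hu]
          have := hnotmem t ht u hu
          field_simp
      rw [e1, e2, h3 t ht]
      ring
  have hc1 : p.coeff (T.card - 1) = -(l * ∑ t ∈ T, t) + ∑ t ∈ T, w t := by
    rw [hp, coeff_add, coeff_C_mul, prod_X_sub_C_coeff_card_pred T _ hcard, finsetSum_coeff]
    congr 1
    · ring
    · refine Finset.sum_congr rfl fun t ht => ?_
      rw [coeff_C_mul]
      have hm3 : (∏ u ∈ T.erase t, (X - C u) : ℝ[X]).Monic := monic_prod_X_sub_C _ _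
      have e3 : (∏ u ∈ T.erase t, (X - C u) : ℝ[X]).natDegree = T.card - 1 := by
        rw [natDegree_finsetProd_X_sub_C_eq_card, Finset.card_erase_of_mem ht]
      have e4 := hm3.coeff_natDegree
      rw [e3] at e4
      rw [e4, mul_one]
  have hc2 : q.coeff (T.card - 1) = -(l * ∑ t ∈ T, ξ t) := by
    rw [hq, coeff_C_mul, prod_X_sub_C_coeff_card_pred T _ hcard]
    ring
  rw [hpq, hc2] at hc1
  rw [eq_sub_iff_add_eq, ← mul_right_inj' hl.ne', mul_add, mul_div_cancel₀ _ hl.ne']
  linarith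

/-- Boole's identity (upper bound) -/
theorem boole (T : Finset ℝ) (w : ℝ → ℝ) (hw : ∀ t ∈ T, 0 < w t) (l1 l2 : ℝ) (hl1 : 0 < l1)
    (hl : l1 ≤ l2) :
    volume {x : ℝ | x ∉ T ∧ -l2 ≤ RR T w x ∧ RR T w x ≤ -l1} ≤
      ENNReal.ofReal ((∑ t ∈ T, w t) * (1 / l1 - 1 / l2)) := by
  classical
  have hl2 : 0 < l2 := hl1.trans_le hl
  rcases T.eq_empty_or_nonempty with hT | hT
  · have : {x : ℝ | x ∉ T ∧ -l2 ≤ RR T w x ∧ RR T w x ≤ -l1} = ∅ := by
      ext x
      simp only [mem_ofPred_eq, mem_empty_iff_false, iff_false, not_and]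
      intro _ _
      unfold RR
      rw [hT, Finset.sum_empty]
      linarith
    rw [this, measure_empty]
    exact zero_le
  have hx1 : ∀ t, ∃ ξ, t ∈ T → ξ < t ∧ (∀ u ∈ T, u < t → u < ξ) ∧ RR T w ξ = -l1 := by
    intro t
    by_cases ht : t ∈ T
    · obtain ⟨ξ, h⟩ := boole_pt T w hw l1 hl1 t ht
      exact ⟨ξ, fun _ => h⟩
    · exact ⟨0, fun h => absurd h ht⟩
  have hx2 : ∀ t, ∃ ξ, t ∈ T → ξ < t ∧ (∀ u ∈ T, u < t → u < ξ) ∧ RR T w ξ = -l2 := by
    intro t
    by_cases ht : t ∈ T
    · obtain ⟨ξ, h⟩ := boole_pt T w hw l2 hl2 t ht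
      exact ⟨ξ, fun _ => h⟩
    · exact ⟨0, fun h => absurd h ht⟩
  choose x1 hx1 using hx1
  choose x2 hx2 using hx2
  have hs1 := boole_sum T w hw l1 hl1 hT x1 (fun t ht => (hx1 t ht).1) (fun t ht => (hx1 t ht).2.1)
    (fun t ht => (hx1 t ht).2.2)
  have hs2 := boole_sum T w hw l2 hl2 hT x2 (fun t ht => (hx2 t ht).1) (fun t ht => (hx2 t ht).2.1)
    (fun t ht => (hx2 t ht).2.2)
  have hle : ∀ t ∈ T, x1 t ≤ x2 t := by
    intro t ht
    by_contra hcon
    push Not at hcon
    obtain ⟨a1, a2, a3⟩ := hx1 t ht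
    obtain ⟨b1, b2, b3⟩ := hx2 t ht
    have := RR_anti T w hw hT hcon fun u hu => by
      rcases lt_or_ge u t with h | h
      · exact Or.inl (b2 u hu h)
      · exact Or.inr (a1.trans_le h)
    linarith
  have hsub : {x : ℝ | x ∉ T ∧ -l2 ≤ RR T w x ∧ RR T w x ≤ -l1} ⊆ ⋃ t ∈ T, Icc (x1 t) (x2 t) := by
    rintro x ⟨hx, h1, h2⟩
    have hex : ∃ t ∈ T, x < t := by
      by_contra hcon
      push Not at hcon
      have : 0 ≤ RR T w x := by
        unfold RR
        refine Finset.sum_nonneg fun t ht => div_nonneg (hw t ht).le ?_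
        linarith [hcon t ht]
      linarith
    set F := T.filter fun u => x < u with hF
    have hne : F.Nonempty := by
      obtain ⟨u, h1, h2⟩ := hex
      exact ⟨u, Finset.mem_filter.2 ⟨h1, h2⟩⟩
    obtain ⟨t, htt⟩ : ∃ u, u = F.min' hne := ⟨_, rfl⟩
    have hmem := Finset.mem_filter.1 (F.min'_mem hne)
    rw [← htt] at hmem
    obtain ⟨htT, hxt⟩ := hmem
    have hmin : ∀ v ∈ T, v < t → v < x := by
      intro v h3 h4
      by_contra hcon
      push Not at hcon
      have h5 : x ≠ v := fun h => hx (h ▸ h3)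
      have h6 := F.min'_le v (Finset.mem_filter.2 ⟨h3, lt_of_le_of_ne hcon h5⟩)
      rw [← htt] at h6
      linarith
    obtain ⟨a1, a2, a3⟩ := hx1 t htT
    obtain ⟨b1, b2, b3⟩ := hx2 t htT
    refine mem_iUnion₂.2 ⟨t, htT, ?_, ?_⟩
    · by_contra hcon
      push Not at hcon
      have := RR_anti T w hw hT hcon fun u hu => by
        rcases lt_or_ge u t with h | h
        · exact Or.inl (hmin u hu h)
        · exact Or.inr (a1.trans_le h)
      linarith
    · by_contra hcon
      push Not at hcon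
      have := RR_anti T w hw hT hcon fun u hu => by
        rcases lt_or_ge u t with h | h
        · exact Or.inl (b2 u hu h)
        · exact Or.inr (hxt.trans_le h)
      linarith
  refine (measure_mono hsub).trans ((measure_biUnion_finset_le _ _).trans (le_of_eq ?_))
  simp only [Real.volume_Icc]
  rw [← ENNReal.ofReal_sum_of_nonneg fun t ht => by linarith [hle t ht], Finset.sum_sub_distrib,
    hs1, hs2]
  congr 1
  ring

end Pool.Agent.Zk6.JD
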