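import Mathlib

set_option autoImplicit false

/-!
# Markov's inequality for the logarithmic derivative of a polynomial
-/

namespace Pool.Agent.Zk6.JD

open Polynomial Set MeasureTheory

/-- kernel -/
noncomputable def kk (δ a x : ℝ) : ℝ := 2 / (|x - a| + δ)

theorem kk_cont (δ a : ℝ) (hδ : 0 < δ) : Continuous (kk δ a) := by
  unfold kk
  refine Continuous.div continuous_const (by fun_prop) fun x => ?_
  positivity

theorem kk_nonneg (δ a x : ℝ) (hδ : 0 < δ) : 0 ≤ kk δ a x := by
  unfold kk
  positivity

theorem kk_int (δ a X : ℝ) (hδ : 0 < δ) (ha : |a| ≤ X) :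
    ∫ x in Icc (-X) X, kk δ a x ≤ 4 * Real.log (1 + 2 * X / δ) := by
  obtain ⟨h1, h2⟩ := abs_le.1 ha
  have hX : 0 ≤ X := (abs_nonneg a).trans ha
  rw [integral_Icc_eq_integral_Ioc, ← intervalIntegral.integral_of_le (by linarith)]
  have hii : ∀ u v, IntervalIntegrable (kk δ a) volume u v := fun u v =>
    (kk_cont δ a hδ).intervalIntegrable u v
  rw [← intervalIntegral.integral_add_adjacent_intervals (hii (-X) a) (hii a X)]
  have e1 : ∫ x in a..X, kk δ a x = 2 * Real.log (X - a + δ) - 2 * Real.log (a - a + δ) := by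
    refine intervalIntegral.integral_eq_sub_of_hasDerivAt (f := fun x => 2 * Real.log (x - a + δ))
      ?_ (hii a X)
    intro x hx
    rw [uIcc_of_le h2] at hx
    have h3 : 0 < x - a + δ := by linarith [hx.1]
    have h4 := ((((hasDerivAt_id x).sub_const a).add_const δ).log h3.ne').const_mul 2
    refine h4.congr_deriv ?_
    unfold kk
    rw [abs_of_nonneg (by linarith [hx.1] : 0 ≤ x - a)]
    simp only [id_eq]
    ring
  have e2 : ∫ x in (-X)..a, kk δ a x = -2 * Real.log (a - a + δ) - -2 * Real.log (a - (-X) + δ) := by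
    refine intervalIntegral.integral_eq_sub_of_hasDerivAt (f := fun x => -2 * Real.log (a - x + δ))
      ?_ (hii (-X) a)
    intro x hx
    rw [uIcc_of_le h1] at hx
    have h3 : 0 < a - x + δ := by linarith [hx.2]
    have h4 := ((((hasDerivAt_id x).const_sub a).add_const δ).log h3.ne').const_mul (-2)
    refine h4.congr_deriv ?_
    unfold kk
    rw [abs_sub_comm, abs_of_nonneg (by linarith [hx.2] : 0 ≤ a - x)]
    simp only [id_eq]
    ring
  rw [e1, e2, sub_self, zero_add]
  have h5 : ∀ y, 0 ≤ y → y ≤ 2 * X → Real.log (y + δ) - Real.log δ ≤ Real.log (1 + 2 * X / δ) := by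
    intro y hy hy2
    rw [← Real.log_div (by positivity) hδ.ne']
    refine Real.log_le_log (by positivity) ?_
    rw [add_div, div_self hδ.ne', add_comm]
    gcongr
  have h6 := h5 (X - a) (by linarith) (by linarith)
  have h7 := h5 (a - -X) (by linarith) (by linarith)
  linarith

/-- the sum of kernels -/
noncomputable def KK (δ : ℝ) (c : Multiset ℝ) (x : ℝ) : ℝ := (c.map fun a => kk δ a x).sum

theorem KK_cons (δ a : ℝ) (c : Multiset ℝ) (x : ℝ) : KK δ (a ::ₘ c) x = kk δ a x + KK δ c x := by
  unfold KK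
  rw [Multiset.map_cons, Multiset.sum_cons]

theorem KK_cont (δ : ℝ) (hδ : 0 < δ) (c : Multiset ℝ) : Continuous (KK δ c) := by
  induction c using Multiset.induction_on with
  | empty =>
    unfold KK
    simp only [Multiset.map_zero, Multiset.sum_zero]
    exact continuous_const
  | cons a c ih =>
    have : KK δ (a ::ₘ c) = fun x => kk δ a x + KK δ c x := funext fun x => KK_cons δ a c x
    rw [this]
    exact (kk_cont δ a hδ).add ih

theorem KK_nonneg (δ : ℝ) (hδ : 0 < δ) (c : Multiset ℝ) (x : ℝ) : 0 ≤ KK δ c x := by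
  unfold KK
  refine Multiset.sum_nonneg fun y hy => ?_
  obtain ⟨a, -, rfl⟩ := Multiset.mem_map.1 hy
  exact kk_nonneg δ a x hδ

theorem KK_int (δ X : ℝ) (hδ : 0 < δ) (c : Multiset ℝ) (hc : ∀ a ∈ c, |a| ≤ X) :
    ∫ x in Icc (-X) X, KK δ c x ≤ c.card * (4 * Real.log (1 + 2 * X / δ)) := by
  induction c using Multiset.induction_on with
  | empty => simp [KK]
  | cons a c ih =>
    have h1 : KK δ (a ::ₘ c) = fun x => kk δ a x + KK δ c x := funext fun x => KK_cons δ a c x
    rw [h1, integral_add]
    · have h2 := ih fun b hb => hc b (Multiset.mem_cons_of_mem hb)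
      have h3 := kk_int δ a X hδ (hc a (Multiset.mem_cons_self a c))
      rw [Multiset.card_cons]
      push_cast
      linarith
    · exact (kk_cont δ a hδ).continuousOn.integrableOn_compact isCompact_Icc
    · exact (KK_cont δ hδ c).continuousOn.integrableOn_compact isCompact_Icc

/-- the exceptional set -/
theorem markov (c : Multiset ℝ) (X s : ℝ) (hs : 0 < s) (hc : ∀ a ∈ c, |a| ≤ X) :
    volume {x : ℝ | x ∈ Icc (-X) X ∧ s < (c.map fun a => 1 / |x - a|).sum} ≤
      ENNReal.ofReal (c.card / s * (2 + 4 * Real.log (1 + 2 * X * s))) := by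
  classical
  set δ := 1 / s with hδdef
  have hδ : 0 < δ := by positivity
  set A := {x : ℝ | x ∈ Icc (-X) X ∧ s < (c.map fun a => 1 / |x - a|).sum} with hA
  set B := ⋃ a ∈ c.toFinset, Icc (a - δ) (a + δ) with hB
  have hsub : A ⊆ B ∪ {x | x ∈ Icc (-X) X ∧ s ≤ KK δ c x} := by
    rintro x ⟨hx, hx2⟩
    by_cases hxB : x ∈ B
    · exact Or.inl hxB
    refine Or.inr ⟨hx, ?_⟩
    refine hx2.le.trans ?_
    unfold KK
    refine Multiset.sum_map_le_sum_map _ _ fun a ha => ?_
    have h1 : δ ≤ |x - a| := by
      by_contra hcon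
      push Not at hcon
      apply hxB
      rw [hB]
      refine mem_iUnion₂.2 ⟨a, Multiset.mem_toFinset.2 ha, ?_⟩
      have := abs_le.1 hcon.le
      exact ⟨by linarith [this.1], by linarith [this.2]⟩
    unfold kk
    rw [div_le_div_iff₀ (hδ.trans_le h1) (by positivity)]
    linarith
  refine (measure_mono hsub).trans ((measure_union_le _ _).trans ?_)
  have hB1 : volume B ≤ ENNReal.ofReal (c.card * (2 * δ)) := by
    refine (measure_biUnion_finset_le _ _).trans ?_
    simp only [Real.volume_Icc]
    have h1 : ∀ a ∈ c.toFinset, ENNReal.ofReal (a + δ - (a - δ)) = ENNReal.ofReal (2 * δ) := by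
      intro a _
      congr 1
      ring
    rw [Finset.sum_congr rfl h1, Finset.sum_const, nsmul_eq_mul,
      ENNReal.ofReal_mul (Nat.cast_nonneg _), ENNReal.ofReal_natCast]
    gcongr
    exact Multiset.toFinset_card_le c
  have hB2 : volume {x | x ∈ Icc (-X) X ∧ s ≤ KK δ c x} ≤
      ENNReal.ofReal (c.card * (4 * Real.log (1 + 2 * X / δ)) / s) := by
    have h1 := mul_meas_ge_le_integral_of_nonneg (μ := volume.restrict (Icc (-X) X))
      (f := KK δ c) (Filter.Eventually.of_forall fun x => KK_nonneg δ hδ c x)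
      ((KK_cont δ hδ c).continuousOn.integrableOn_compact isCompact_Icc) s
    have h2 := h1.trans (KK_int δ X hδ c hc)
    have hm : MeasurableSet {x | s ≤ KK δ c x} :=
      measurableSet_le measurable_const (KK_cont δ hδ c).measurable
    rw [Measure.real, Measure.restrict_apply hm] at h2
    have h3 : {x | x ∈ Icc (-X) X ∧ s ≤ KK δ c x} = {x | s ≤ KK δ c x} ∩ Icc (-X) X := by
      ext x
      constructor
      · rintro ⟨h4, h5⟩
        exact ⟨h5, h4⟩
      · rintro ⟨h4, h5⟩
        exact ⟨h5, h4⟩
    rw [h3]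
    have h4 : volume ({x | s ≤ KK δ c x} ∩ Icc (-X) X) ≠ ⊤ :=
      ((measure_mono inter_subset_right).trans_lt (by
        rw [Real.volume_Icc]
        exact ENNReal.ofReal_lt_top)).ne
    rw [← ENNReal.ofReal_toReal h4]
    refine ENNReal.ofReal_le_ofReal ?_
    rw [le_div_iff₀ hs, mul_comm]
    exact h2
  refine (add_le_add hB1 hB2).trans (le_of_eq ?_)
  by_cases hc0 : c = 0
  · simp [hc0]
  obtain ⟨a, ha⟩ := Multiset.exists_mem_of_ne_zero hc0
  have hX : 0 ≤ X := (abs_nonneg a).trans (hc a ha)
  have hlog : 0 ≤ Real.log (1 + 2 * X / δ) := by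
    apply Real.log_nonneg
    have : 0 ≤ 2 * X / δ := by positivity
    linarith
  rw [← ENNReal.ofReal_add (by positivity) (by positivity)]
  congr 1
  have : 2 * X / δ = 2 * X * s := by
    rw [hδdef]
    field_simp
  rw [this, hδdef]
  field_simp

/-- the logarithmic derivative of a polynomial without real zeros -/
theorem logder_bound (q : ℝ[X]) (x : ℝ) (hx : q.eval x ≠ 0) :
    |(derivative q).eval x / q.eval x| ≤
      (((q.map (algebraMap ℝ ℂ)).roots.map Complex.re).map fun a => 1 / |x - a|).sum := by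
  set Q := q.map (algebraMap ℝ ℂ) with hQ
  have hev : ∀ p : ℝ[X], (p.map (algebraMap ℝ ℂ)).eval (x : ℂ) = ((p.eval x : ℝ) : ℂ) := by
    intro p
    have := Polynomial.eval_map_apply (f := algebraMap ℝ ℂ) (p := p) (x := x)
    simpa using this
  have hQx : Q.eval (x : ℂ) ≠ 0 := by
    rw [hQ, hev]
    exact_mod_cast hx
  have h1 := (IsAlgClosed.splits Q).eval_derivative_div_eval_of_ne_zero hQx
  rw [hQ, derivative_map, hev, hev, ← hQ] at h1
  have h2 : (derivative q).eval x / q.eval x =
      (Q.roots.map fun z => (1 / ((x : ℂ) - z)).re).sum := by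
    have h3 := congrArg Complex.re h1
    rw [← Complex.ofReal_div, Complex.ofReal_re] at h3
    rw [h3]
    have h4 := map_multiset_sum Complex.reAddGroupHom (Q.roots.map fun z => 1 / ((x : ℂ) - z))
    rw [Multiset.map_map] at h4
    exact h4
  rw [h2, Multiset.map_map]
  have h5 : ∀ c : Multiset ℂ, |(c.map fun z => (1 / ((x : ℂ) - z)).re).sum| ≤
      (c.map ((fun a => 1 / |x - a|) ∘ Complex.re)).sum := by
    intro c
    induction c using Multiset.induction_on with
    | empty => simp
    | cons z c ih =>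
      rw [Multiset.map_cons, Multiset.map_cons, Multiset.sum_cons, Multiset.sum_cons]
      refine (abs_add_le _ _).trans (add_le_add ?_ ih)
      simp only [Function.comp_apply]
      have h6 : (1 / ((x : ℂ) - z)).re = (x - z.re) / Complex.normSq ((x : ℂ) - z) := by
        rw [one_div, Complex.inv_re]
        simp
      rw [h6, abs_div, abs_of_nonneg (Complex.normSq_nonneg _)]
      by_cases hz : x - z.re = 0
      · rw [hz]
        simp
      · have h7 : 0 < |x - z.re| := abs_pos.2 hz
        have h8 : |x - z.re| * |x - z.re| ≤ Complex.normSq ((x : ℂ) - z) := by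
          rw [abs_mul_abs_self, Complex.normSq_apply]
          simp only [Complex.sub_re, Complex.ofReal_re, Complex.sub_im, Complex.ofReal_im]
          have := mul_self_nonneg (0 - z.im)
          linarith
        have h9 : 0 < Complex.normSq ((x : ℂ) - z) := (mul_pos h7 h7).trans_le h8
        rw [div_le_div_iff₀ h9 h7]
        linarith
  exact h5 Q.roots

end Pool.Agent.Zk6.JD
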