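import Pool.Agent.Zk6.JD3
import Pool.Agent.Zk6.JD4
import Pool.Agent.Zk6.JD5

set_option autoImplicit false

/-!
# Jensen polynomials, step 6: the number of bad gaps
-/

namespace Pool.Agent.Zk6.JD

open Polynomial Set MeasureTheory
open Pool.Agent.TH99.RJ (nonreal nonreal_eq aeval_eq_map)

theorem aeval_coe (P : ℝ[X]) (x : ℝ) : aeval (x : ℂ) P = ((P.eval x : ℝ) : ℂ) := by
  have := aeval_algebraMap_apply ℂ x P
  simpa using this

/-- splitting of the logarithmic derivative -/
theorem logder_split (P q : ℝ[X]) (hq : (P.roots.map fun a => X - C a).prod * q = P) (x : ℝ)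
    (hx : P.eval x ≠ 0) :
    (derivative P).eval x / P.eval x =
      RR P.roots.toFinset (fun t => (P.roots.count t : ℝ)) x +
        (derivative q).eval x / q.eval x := by
  classical
  set Pr : ℝ[X] := (P.roots.map fun a => X - C a).prod with hPr
  have h1 : P.eval x = Pr.eval x * q.eval x := by rw [← hq, eval_mul]
  have h2 : Pr.eval x ≠ 0 := by
    intro h
    apply hx
    rw [h1, h, zero_mul]
  have h3 : q.eval x ≠ 0 := by
    intro h
    apply hx
    rw [h1, h, mul_zero]
  have h4 : (derivative P).eval x = (derivative Pr).eval x * q.eval x +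
      Pr.eval x * (derivative q).eval x := by
    rw [← hq, derivative_mul, eval_add, eval_mul, eval_mul]
  have h5 : Pr.Splits := by
    rw [hPr]
    exact Splits.multisetProd (by
      intro f hf
      obtain ⟨a, -, rfl⟩ := Multiset.mem_map.1 hf
      exact Splits.X_sub_C a)
  have h6 := h5.eval_derivative_div_eval_of_ne_zero h2
  have h7 : Pr.roots = P.roots := by
    rw [hPr, roots_multiset_prod_X_sub_C]
  rw [h7, Finset.sum_multiset_map_count] at h6
  have h8 : RR P.roots.toFinset (fun t => (P.roots.count t : ℝ)) x =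
      ∑ m ∈ P.roots.toFinset, P.roots.count m • (1 / (x - m)) := by
    unfold RR
    refine Finset.sum_congr rfl fun t _ => ?_
    rw [nsmul_eq_mul]
    ring
  rw [h8, ← h6, h4, h1]
  field_simp

theorem bad_card (α β s R : ℝ) (hα : α < 0) (hβ : 0 < β) (hs : 0 < s) (hsα : s < -α) (P : ℝ[X])
    (hP : P ≠ 0) (hX : ∀ z : ℂ, aeval z P = 0 → ‖z‖ ≤ R) (hR : 0 ≤ R) :
    ((badL α β P).card : ℝ) * (Real.pi / (4 * β)) ≤
      nonreal P / s * (2 + 4 * Real.log (1 + 2 * R * s)) +
        P.natDegree * (1 / (-α - s) - 1 / (-α + β + s)) := by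
  classical
  obtain ⟨q, hq1, hq2, hq3⟩ := P.exists_prod_multiset_X_sub_C_mul
  set T := P.roots.toFinset with hT
  set w : ℝ → ℝ := fun t => (P.roots.count t : ℝ) with hw
  have hw0 : ∀ t ∈ T, 0 < w t := by
    intro t ht
    simp only [hw]
    exact_mod_cast Multiset.count_pos.2 (Multiset.mem_toFinset.1 ht)
  set c := (q.map (algebraMap ℝ ℂ)).roots.map Complex.re with hc
  have hccard : c.card = nonreal P := by
    rw [hc, Multiset.card_map, IsAlgClosed.card_roots_eq_natDegree, natDegree_map]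
    have := nonreal_eq P
    omega
  have hcX : ∀ a ∈ c, |a| ≤ R := by
    intro a ha
    obtain ⟨z, hz, rfl⟩ := Multiset.mem_map.1 ha
    refine (Complex.abs_re_le_norm z).trans (hX z ?_)
    have h1 : aeval z q = 0 := by
      rw [aeval_eq_map]
      exact isRoot_of_mem_roots hz
    rw [← hq1, map_mul, h1, mul_zero]
  have hrootR : ∀ p, P.eval p = 0 → |p| ≤ R := by
    intro p hp
    have := hX (p : ℂ) (by rw [aeval_coe, hp]; simp)
    simpa using this
  -- the intervals
  have hx' : ∀ p, ∃ x1, p ∈ badL α β P → ∃ q, Cons P p q ∧ p < x1 ∧ x1 + Real.pi / (4 * β) < q ∧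
      ∀ x, x1 < x → x < x1 + Real.pi / (4 * β) →
      α - β ≤ (derivative P).eval x / P.eval x ∧ (derivative P).eval x / P.eval x ≤ α := by
    intro p
    by_cases hp : p ∈ badL α β P
    · have h1 := hp
      unfold badL at h1
      rw [Finset.mem_filter] at h1
      obtain ⟨-, q, h2⟩ := h1
      obtain ⟨x1, h3⟩ := bad_interval α β hα.ne hβ P hP h2
      exact ⟨x1, fun _ => ⟨q, h2.1, h3⟩⟩
    · exact ⟨0, fun h => absurd h hp⟩
  choose x1 hx1 using hx'
  set I : ℝ → Set ℝ := fun p => Ioo (x1 p) (x1 p + Real.pi / (4 * β)) with hI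
  have hdis : ∀ p ∈ badL α β P, ∀ p' ∈ badL α β P, p < p' → Disjoint (I p) (I p') := by
    intro p hp p' hp' hpp
    obtain ⟨q, h1, -, h2, -⟩ := hx1 p hp
    obtain ⟨q', h3, h4, -, -⟩ := hx1 p' hp'
    have h5 := h1.le h3.2.1 hpp
    rw [Set.disjoint_left]
    intro y hy hy'
    linarith [hy.2, hy'.1]
  have hpd : PairwiseDisjoint (↑(badL α β P) : Set ℝ) I := by
    intro p hp p' hp' hpp
    rcases lt_or_gt_of_ne hpp with h | h
    · exact hdis p hp p' hp' h
    · exact (hdis p' hp' p hp h).symm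
  have hmeas := measure_biUnion_finset (μ := volume) hpd fun p _ => measurableSet_Ioo
  have hvol : ∀ p ∈ badL α β P, volume (I p) = ENNReal.ofReal (Real.pi / (4 * β)) := by
    intro p _
    simp only [hI, Real.volume_Ioo]
    congr 1
    ring
  rw [Finset.sum_congr rfl hvol, Finset.sum_const, nsmul_eq_mul] at hmeas
  have hsub : (⋃ p ∈ badL α β P, I p) ⊆
      {x : ℝ | x ∈ Icc (-R) R ∧ s < (c.map fun a => 1 / |x - a|).sum} ∪
      {x : ℝ | x ∉ T ∧ -(-α + β + s) ≤ RR T w x ∧ RR T w x ≤ -(-α - s)} := by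
    intro x hx
    obtain ⟨p, hp, hxp⟩ := mem_iUnion₂.1 hx
    obtain ⟨q', h1, h2, h3, h4⟩ := hx1 p hp
    have hxp1 : x1 p < x := hxp.1
    have hxp2 : x < x1 p + Real.pi / (4 * β) := hxp.2
    have hPx : P.eval x ≠ 0 := h1.2.2.2 x (h2.trans hxp1) (hxp2.trans h3)
    obtain ⟨h5, h6⟩ := h4 x hxp1 hxp2
    have h7 := logder_split P q hq1 x hPx
    have hqx : q.eval x ≠ 0 := by
      intro h
      apply hPx
      rw [← hq1, eval_mul, h, mul_zero]
    have h8 := logder_bound q x hqx
    by_cases hcase : s < (c.map fun a => 1 / |x - a|).sum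
    · refine Or.inl ⟨?_, hcase⟩
      have e1 := abs_le.1 (hrootR p h1.2.1)
      have e2 := abs_le.1 (hrootR q' h1.2.2.1)
      exact ⟨by linarith [e1.1], by linarith [e2.2]⟩
    · push Not at hcase
      have h9 := abs_le.1 (h8.trans hcase)
      refine Or.inr ⟨?_, ?_, ?_⟩
      · intro h
        rw [hT, Multiset.mem_toFinset, mem_roots hP] at h
        exact hPx h
      · have : RR T w x = (derivative P).eval x / P.eval x -
          (derivative q).eval x / q.eval x := by
          rw [h7]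
          ring
        rw [this]
        linarith [h9.2]
      · have : RR T w x = (derivative P).eval x / P.eval x -
          (derivative q).eval x / q.eval x := by
          rw [h7]
          ring
        rw [this]
        linarith [h9.1]
  have hm1 := markov c R s hs hcX
  have hm2 := boole T w hw0 (-α - s) (-α + β + s) (by linarith) (by linarith)
  have hfin := (measure_mono hsub).trans ((measure_union_le _ _).trans (add_le_add hm1 hm2))
  rw [hmeas] at hfin
  have hsumw : ∑ t ∈ T, w t ≤ P.natDegree := by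
    have e1 : ∑ t ∈ T, w t = (P.roots.card : ℝ) := by
      simp only [hw]
      rw [← Nat.cast_sum, hT, Multiset.toFinset_sum_count_eq]
    rw [e1]
    exact_mod_cast P.card_roots'
  have hdiff : 0 ≤ 1 / (-α - s) - 1 / (-α + β + s) := by
    have : 1 / (-α + β + s) ≤ 1 / (-α - s) :=
      one_div_le_one_div_of_le (by linarith) (by linarith)
    linarith
  have hlog : 0 ≤ Real.log (1 + 2 * R * s) := by
    apply Real.log_nonneg
    have : 0 ≤ 2 * R * s := by positivity
    linarith
  have hA : 0 ≤ (c.card : ℝ) / s * (2 + 4 * Real.log (1 + 2 * R * s)) := by positivity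
  have hB : 0 ≤ (∑ t ∈ T, w t) * (1 / (-α - s) - 1 / (-α + β + s)) :=
    mul_nonneg (Finset.sum_nonneg fun t ht => (hw0 t ht).le) hdiff
  rw [← ENNReal.ofReal_add hA hB, ← ENNReal.ofReal_natCast,
    ← ENNReal.ofReal_mul (Nat.cast_nonneg _), ENNReal.ofReal_le_ofReal_iff (add_nonneg hA hB),
    hccard] at hfin
  refine hfin.trans (add_le_add le_rfl ?_)
  exact mul_le_mul_of_nonneg_right hsumw hdiff

/-- one step: the number of non-real zeros of `TT P` -/
theorem one_step (α β M R : ℝ) (hα : α < 0) (hβ : 0 < β) (hM : 1 ≤ M) (hMα : 2 * (M * β) ≤ -α)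
    (P : ℝ[X]) (hP : P ≠ 0) (hX : ∀ z : ℂ, aeval z P = 0 → ‖z‖ ≤ R) (hR : 0 ≤ R) :
    (nonreal (TT α β P) : ℝ) ≤ nonreal P * (1 + 6 / M * (2 + 4 * Real.log (1 + 2 * R * (M * β)))) +
      36 * P.natDegree * M * (β ^ 2 / α ^ 2) + 4 := by
  have h1 := nonreal_TT α β (by positivity) P hP
  have hMβ : 0 < M * β := by positivity
  have h2 := bad_card α β (M * β) R hα hβ hMβ (by linarith) P hP hX hR
  set B := ((badL α β P).card : ℝ) with hB
  set Z := (nonreal P : ℝ) with hZ
  set d := (P.natDegree : ℝ) with hd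
  set Λ := 2 + 4 * Real.log (1 + 2 * R * (M * β)) with hΛ
  have hΛ0 : 0 ≤ Λ := by
    have : 0 ≤ Real.log (1 + 2 * R * (M * β)) := by
      apply Real.log_nonneg
      have : 0 ≤ 2 * R * (M * β) := by positivity
      linarith
    positivity
  have hZ0 : 0 ≤ Z := Nat.cast_nonneg _
  have hd0 : 0 ≤ d := Nat.cast_nonneg _
  have hB0 : 0 ≤ B := Nat.cast_nonneg _
  have h3 : (nonreal (TT α β P) : ℝ) ≤ Z + 4 * B + 4 := by
    rw [hZ, hB]
    exact_mod_cast h1
  -- bound of B
  have h4 : 1 / (-α - M * β) - 1 / (-α + β + M * β) ≤ 6 * (M * β) / α ^ 2 := by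
    have e1 : 0 < -α - M * β := by linarith
    have e2 : 0 < -α + β + M * β := by linarith
    have e3 : 1 / (-α - M * β) - 1 / (-α + β + M * β) =
        (β + 2 * (M * β)) / ((-α - M * β) * (-α + β + M * β)) := by
      field_simp
      ring
    have hα2 : 0 < α ^ 2 := by
      have := hα.ne
      positivity
    rw [e3, div_le_div_iff₀ (mul_pos e1 e2) hα2]
    have e4 : β ≤ M * β := by nlinarith
    have e5 : α ^ 2 / 2 ≤ (-α - M * β) * (-α + β + M * β) := by
      have e6 : -α / 2 ≤ -α - M * β := by linarith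
      have e7 : -α ≤ -α + β + M * β := by linarith
      calc α ^ 2 / 2 = (-α / 2) * (-α) := by ring
        _ ≤ _ := mul_le_mul e6 e7 (by linarith) (by linarith)
    calc (β + 2 * (M * β)) * α ^ 2 ≤ (3 * (M * β)) * α ^ 2 := by
          apply mul_le_mul_of_nonneg_right _ (by positivity)
          linarith
      _ = 6 * (M * β) * (α ^ 2 / 2) := by ring
      _ ≤ _ := mul_le_mul_of_nonneg_left e5 (by positivity)
  have h5 : B * (Real.pi / (4 * β)) ≤ Z / (M * β) * Λ + d * (6 * (M * β) / α ^ 2) :=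
    h2.trans (add_le_add le_rfl (mul_le_mul_of_nonneg_left h4 hd0))
  have h6 : B * 3 ≤ 4 * (Z * Λ / M) + 24 * d * M * (β ^ 2 / α ^ 2) := by
    have e1 : B * Real.pi ≤ 4 * β * (Z / (M * β) * Λ + d * (6 * (M * β) / α ^ 2)) := by
      have := mul_le_mul_of_nonneg_left h5 (show 0 ≤ 4 * β by positivity)
      have e2 : 4 * β * (B * (Real.pi / (4 * β))) = B * Real.pi := by field_simp
      rwa [e2] at this
    have e3 : 4 * β * (Z / (M * β) * Λ + d * (6 * (M * β) / α ^ 2)) =
        4 * (Z * Λ / M) + 24 * d * M * (β ^ 2 / α ^ 2) := by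
      field_simp
      ring
    rw [e3] at e1
    have e4 : B * 3 ≤ B * Real.pi := mul_le_mul_of_nonneg_left Real.pi_gt_three.le hB0
    linarith
  have h7 : Z * (1 + 6 / M * Λ) = Z + 6 * (Z * Λ / M) := by ring
  have h8 : 0 ≤ Z * Λ / M := by positivity
  rw [h7]
  linarith

end Pool.Agent.Zk6.JD
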