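import Pool.Agent.Zk6.JD7

set_option autoImplicit false

/-!
# Jensen polynomials, step 8: the loss theorem for polynomials
-/

namespace Pool.Agent.Zk6.JD

open Polynomial Set MeasureTheory
open Pool.Agent.TH99.RJ (nonreal nonreal_eq aeval_eq_map rop rop_mul rop_C rop_lin rop_quad
  natDegree_rop_pow natDegree_rop_pow_le nonreal_eq_zero aeval_rop_pow)
open Pool.Agent.H24R2.JP (Par)

/-- one step, general `M` -/
theorem one_step' (α β M R : ℝ) (hα : α < 0) (hβ : 0 < β) (hM : 0 < M) (hMα : 2 * (M * β) ≤ -α)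
    (P : ℝ[X]) (hP : P ≠ 0) (hX : ∀ z : ℂ, aeval z P = 0 → ‖z‖ ≤ R) (hR : 0 ≤ R) :
    (nonreal (TT α β P) : ℝ) ≤ nonreal P * (1 + 6 / M * (2 + 4 * Real.log (1 + 2 * R * (M * β)))) +
      12 * P.natDegree * (1 + 2 * M) * (β ^ 2 / α ^ 2) + 4 := by
  have h1 := nonreal_TT α β (by positivity) P hP
  have hMβ : 0 < M * β := by positivity
  have h2 := bad_card α β (M * β) R hα hβ hMβ (by linarith) P hP hX hR
  set B := ((badL α β P).card : ℝ) with hB
  set Z := (nonreal P : ℝ) with hZ
  set d := (P.natDegree : ℝ) with hd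
  set Λ := 2 + 4 * Real.log (1 + 2 * R * (M * β)) with hΛ
  have hΛ0 : 0 ≤ Λ := by
    have : 0 ≤ Real.log (1 + 2 * R * (M * β)) := by
      apply Real.log_nonneg
      have : 0 ≤ 2 * R * (M * β) := by positivity
      linarith
    positivity
  have hZ0 : 0 ≤ Z := Nat.cast_nonneg _
  have hd0 : 0 ≤ d := Nat.cast_nonneg _
  have hB0 : 0 ≤ B := Nat.cast_nonneg _
  have h3 : (nonreal (TT α β P) : ℝ) ≤ Z + 4 * B + 4 := by
    rw [hZ, hB]
    exact_mod_cast h1
  -- bound of B
  have h4 : 1 / (-α - M * β) - 1 / (-α + β + M * β) ≤ 2 * (1 + 2 * M) * β / α ^ 2 := by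
    have e1 : 0 < -α - M * β := by linarith
    have e2 : 0 < -α + β + M * β := by linarith
    have e3 : 1 / (-α - M * β) - 1 / (-α + β + M * β) =
        ((1 + 2 * M) * β) / ((-α - M * β) * (-α + β + M * β)) := by
      field_simp
      ring
    have hα2 : 0 < α ^ 2 := by
      have := hα.ne
      positivity
    rw [e3, div_le_div_iff₀ (mul_pos e1 e2) hα2]
    have e5 : α ^ 2 / 2 ≤ (-α - M * β) * (-α + β + M * β) := by
      have e6 : -α / 2 ≤ -α - M * β := by linarith
      have e7 : -α ≤ -α + β + M * β := by linarith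
      calc α ^ 2 / 2 = (-α / 2) * (-α) := by ring
        _ ≤ _ := mul_le_mul e6 e7 (by linarith) (by linarith)
    calc (1 + 2 * M) * β * α ^ 2 = 2 * (1 + 2 * M) * β * (α ^ 2 / 2) := by ring
      _ ≤ _ := mul_le_mul_of_nonneg_left e5 (by positivity)
  have h5 : B * (Real.pi / (4 * β)) ≤ Z / (M * β) * Λ + d * (2 * (1 + 2 * M) * β / α ^ 2) :=
    h2.trans (add_le_add le_rfl (mul_le_mul_of_nonneg_left h4 hd0))
  have h6 : B * 3 ≤ 4 * (Z * Λ / M) + 8 * d * (1 + 2 * M) * (β ^ 2 / α ^ 2) := by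
    have e1 : B * Real.pi ≤ 4 * β * (Z / (M * β) * Λ + d * (2 * (1 + 2 * M) * β / α ^ 2)) := by
      have := mul_le_mul_of_nonneg_left h5 (show 0 ≤ 4 * β by positivity)
      have e2 : 4 * β * (B * (Real.pi / (4 * β))) = B * Real.pi := by field_simp
      rwa [e2] at this
    have e3 : 4 * β * (Z / (M * β) * Λ + d * (2 * (1 + 2 * M) * β / α ^ 2)) =
        4 * (Z * Λ / M) + 8 * d * (1 + 2 * M) * (β ^ 2 / α ^ 2) := by
      field_simp
      ring
    rw [e3] at e1
    have e4 : B * 3 ≤ B * Real.pi := mul_le_mul_of_nonneg_left Real.pi_gt_three.le hB0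
    linarith
  have h7 : Z * (1 + 6 / M * Λ) = Z + 6 * (Z * Λ / M) := by ring
  have h8 : 0 ≤ Z * Λ / M := by positivity
  have h9 : 0 ≤ d * (1 + 2 * M) * (β ^ 2 / α ^ 2) := by positivity
  rw [h7]
  linarith

open Classical in
/-- the near non-real zeros -/
noncomputable def nr (D : ℝ) (f : ℝ[X]) : Multiset ℂ :=
  (rts f).filter fun a => a.im ≠ 0 ∧ ‖a‖ ≤ D

noncomputable def W1 (D : ℝ) (f : ℝ[X]) : ℝ := ((nr D f).map fun a => 1 / √‖a‖).sum

noncomputable def W2 (D : ℝ) (f : ℝ[X]) : ℝ := ((nr D f).map fun a => 1 / ‖a‖).sum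

theorem W1_nonneg (D : ℝ) (f : ℝ[X]) : 0 ≤ W1 D f := by
  unfold W1
  refine Multiset.sum_nonneg fun y hy => ?_
  obtain ⟨a, -, rfl⟩ := Multiset.mem_map.1 hy
  positivity

theorem W2_nonneg (D : ℝ) (f : ℝ[X]) : 0 ≤ W2 D f := by
  unfold W2
  refine Multiset.sum_nonneg fun y hy => ?_
  obtain ⟨a, -, rfl⟩ := Multiset.mem_map.1 hy
  positivity

theorem W2_le (D : ℝ) (f : ℝ[X]) : W2 D f ≤ W1 D f ^ 2 := by
  unfold W2 W1
  have h : ∀ s : Multiset ℂ, (s.map fun a => 1 / ‖a‖).sum ≤ (s.map fun a => 1 / √‖a‖).sum ^ 2 ∧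
      0 ≤ (s.map fun a => 1 / √‖a‖).sum := by
    intro s
    induction s using Multiset.induction_on with
    | empty => simp
    | cons a s ih =>
      rw [Multiset.map_cons, Multiset.map_cons, Multiset.sum_cons, Multiset.sum_cons]
      obtain ⟨h1, h2⟩ := ih
      have h3 : (0 : ℝ) ≤ 1 / √‖a‖ := by positivity
      have h4 : 1 / ‖a‖ = (1 / √‖a‖) ^ 2 := by
        rw [div_pow, one_pow, Real.sq_sqrt (norm_nonneg a)]
      refine ⟨?_, add_nonneg h3 h2⟩
      rw [h4]
      have := mul_nonneg h3 h2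
      nlinarith
  exact (h _).1

theorem nr_quad (D : ℝ) (a : ℂ) (g : ℝ[X]) (hg : g ≠ 0) (him : a.im ≠ 0) (haD : ‖a‖ ≤ D) :
    nr D ((X ^ 2 - C (2 * a.re) * X + C (‖a‖ ^ 2)) * g) = a ::ₘ (starRingEnd ℂ) a ::ₘ nr D g := by
  classical
  unfold nr
  rw [rts_quad a g hg, Multiset.filter_cons_of_pos, Multiset.filter_cons_of_pos]
  · refine ⟨?_, ?_⟩
    · rw [Complex.conj_im]
      exact neg_ne_zero.2 him
    · rw [RCLike.norm_conj]
      exact haD
  · exact ⟨him, haD⟩

/-- elementary facts on the parabola -/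
theorem par_facts (a : ℂ) (ha : a ∈ Par) (h1 : 1 ≤ ‖a‖) :
    a.re ≤ -(‖a‖ / 2) ∧ a.im ^ 2 ≤ 5 / 4 * ‖a‖ := by
  have hp : a.re + a.im ^ 2 ≤ 1 / 4 := ha
  have h2 : ‖a‖ ^ 2 = a.re ^ 2 + a.im ^ 2 := by
    rw [← Complex.normSq_eq_norm_sq, Complex.normSq_apply]
    ring
  have h3 : ‖a‖ ^ 2 ≤ (1 / 2 - a.re) ^ 2 := by
    rw [h2]
    nlinarith
  have h4 : a.re ≤ 1 / 4 := by nlinarith [sq_nonneg a.im]
  have h5 : ‖a‖ ≤ 1 / 2 - a.re := by
    refine le_of_sq_le_sq h3 ?_
    linarith
  have h6 : -a.re ≤ ‖a‖ := by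
    have := Complex.abs_re_le_norm a
    exact (neg_le_abs a.re).trans this
  constructor
  · linarith
  · linarith

theorem loss_aux (d : ℕ) (hd : 1 ≤ d) (H η Λ : ℝ) (hH : 0 ≤ H) (hη : 0 < η) (hη5 : η ≤ 1 / 5)
    (hΛ : 2 + 4 * Real.log (1 + H * d ^ 2) ≤ Λ) :
    ∀ (N : ℕ) (f : ℝ[X]), f.natDegree ≤ N → f.coeff 0 ≠ 0 →
    (∀ a : ℂ, aeval a f = 0 → a ∈ Par ∧ 1 ≤ ‖a‖) → S1 f ≤ H →
    (nonreal (rop f (X ^ d)) : ℝ) ≤ d * (68 * W2 (2 * d) f + 120 * η * W1 (2 * d) f) *
      Real.exp (6 * Λ / η * W1 (2 * d) f) := by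
  have hd1 : (1 : ℝ) ≤ d := by exact_mod_cast hd
  have hlog0 : 0 ≤ Real.log (1 + H * d ^ 2) := by
    apply Real.log_nonneg
    have : 0 ≤ H * (d : ℝ) ^ 2 := by positivity
    linarith
  have hΛ2 : 2 ≤ Λ := by linarith
  intro N
  induction N using Nat.strong_induction_on with
  | _ N ih =>
    intro f hf h0 hpar hS
    have hfne : f ≠ 0 := by rintro rfl; simp at h0
    have hrne : rop f (X ^ d) ≠ 0 := by
      intro h
      have := natDegree_rop_pow f d h0
      rw [h, natDegree_zero] at this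
      omega
    by_cases hex : ∃ a : ℂ, aeval a f = 0 ∧ a.im ≠ 0 ∧ ‖a‖ ≤ 2 * d
    · obtain ⟨a, ha, him, haD⟩ := hex
      rcases fac_cases f h0 a ha with ⟨him', -⟩ | ⟨-, g, hg, hg0, hgd⟩
      · exact absurd him' him
      have hgne : g ≠ 0 := by rintro rfl; simp at hg0
      obtain ⟨haP, ha1⟩ := hpar a ha
      obtain ⟨hre, him2⟩ := par_facts a haP ha1
      have hgpar : ∀ b : ℂ, aeval b g = 0 → b ∈ Par ∧ 1 ≤ ‖b‖ := by
        intro b hb
        apply hpar b
        rw [hg, map_mul, hb, mul_zero]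
      have hSg : S1 f = 1 / ‖a‖ + (1 / ‖a‖ + S1 g) := by
        unfold S1
        rw [hg, rts_quad _ _ hgne, Multiset.map_cons, Multiset.sum_cons, Multiset.map_cons,
          Multiset.sum_cons, RCLike.norm_conj]
      have hpos : 0 < ‖a‖ := by linarith
      have hSg2 : S1 g ≤ H := by
        have : 0 < 1 / ‖a‖ := by positivity
        linarith
      have h1 := ih g.natDegree (by omega) g le_rfl hg0 hgpar hSg2
      have hroots := root_bound d g.natDegree g le_rfl hg0
      have hrg : rop g (X ^ d) ≠ 0 := by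
        intro h
        have := natDegree_rop_pow g d hg0
        rw [h, natDegree_zero] at this
        omega
      set β := |a.im| with hβ
      have hβ0 : 0 < β := abs_pos.2 him
      have hβ2 : β ^ 2 = a.im ^ 2 := sq_abs _
      set A := ‖a‖ with hA
      have hsA : 0 < √A := Real.sqrt_pos.2 hpos
      have hsA2 : √A ^ 2 = A := Real.sq_sqrt hpos.le
      have hA2 : A ^ 2 = a.re ^ 2 + β ^ 2 := by
        rw [hβ2, hA, ← Complex.normSq_eq_norm_sq, Complex.normSq_apply]
        ring
      set M := η * √A with hM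
      have hM0 : 0 < M := by positivity
      have hMβ : (M * β) ^ 2 ≤ A ^ 2 / 16 := by
        have e1 : (M * β) ^ 2 = η ^ 2 * A * β ^ 2 := by
          rw [hM, mul_pow, mul_pow, hsA2]
        rw [e1, hβ2]
        have e2 : η ^ 2 ≤ 1 / 25 := by nlinarith
        calc η ^ 2 * A * a.im ^ 2 ≤ 1 / 25 * A * (5 / 4 * A) := by gcongr
          _ ≤ A ^ 2 / 16 := by nlinarith
      have hMβ2 : M * β ≤ A / 4 := by
        refine le_of_sq_le_sq ?_ (by positivity)
        refine hMβ.trans (le_of_eq ?_)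
        ring
      have hαneg : a.re < 0 := by linarith
      have h2 := one_step' a.re β M (d * S1 g) hαneg hβ0 hM0 (by linarith) (rop g (X ^ d)) hrg
        hroots (mul_nonneg (Nat.cast_nonneg _) (S1_nonneg _))
      have hTT : rop f (X ^ d) = TT a.re β (rop g (X ^ d)) := by
        rw [hg, rop_mul, rop_quad, hA2]
        rfl
      rw [← hTT, natDegree_rop_pow g d hg0] at h2
      -- the logarithm
      have hlog : 2 + 4 * Real.log (1 + 2 * (d * S1 g) * (M * β)) ≤ Λ := by
        refine le_trans ?_ hΛ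
        have e1 : 2 * (d * S1 g) * (M * β) ≤ H * d ^ 2 := by
          have e2 : M * β ≤ d / 2 := by linarith
          have e3 := S1_nonneg g
          calc 2 * (d * S1 g) * (M * β) ≤ 2 * (d * H) * (d / 2) := by gcongr
            _ = H * d ^ 2 := by ring
        have e4 : 0 < 1 + 2 * (d * S1 g) * (M * β) := by
          have := S1_nonneg g
          positivity
        have := Real.log_le_log e4 (show 1 + 2 * (d * S1 g) * (M * β) ≤ 1 + H * d ^ 2 by linarith)
        linarith
      set w := 1 / √A with hw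
      have hw0 : 0 < w := by positivity
      set Z := (nonreal (rop g (X ^ d)) : ℝ) with hZ
      have hZ0 : 0 ≤ Z := Nat.cast_nonneg _
      set c := 6 * Λ / η with hc
      have hc0 : 0 < c := by positivity
      have hd0 : (0 : ℝ) ≤ d := Nat.cast_nonneg _
      have e1 : 6 / M * (2 + 4 * Real.log (1 + 2 * (d * S1 g) * (M * β))) ≤ c * w := by
        have : c * w = 6 / M * Λ := by
          rw [hc, hw, hM]
          field_simp
        rw [this]
        exact mul_le_mul_of_nonneg_left hlog (by positivity)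
      have e2 : 12 * (d : ℝ) * (1 + 2 * M) * (β ^ 2 / a.re ^ 2) + 4 ≤
          d * (68 * (1 / A) + 120 * η * w) := by
        have e3 : β ^ 2 / a.re ^ 2 ≤ 5 / A := by
          have e4 : A ^ 2 / 4 ≤ a.re ^ 2 := by nlinarith
          rw [div_le_div_iff₀ (by nlinarith) hpos, hβ2]
          calc a.im ^ 2 * A ≤ 5 / 4 * A * A := by gcongr
            _ = 5 * (A ^ 2 / 4) := by ring
            _ ≤ 5 * a.re ^ 2 := by linarith
        have e5 : 4 ≤ 8 * d * (1 / A) := by
          rw [mul_one_div, le_div_iff₀ hpos]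
          linarith
        have e6 : 12 * (d : ℝ) * (1 + 2 * M) * (β ^ 2 / a.re ^ 2) ≤
            12 * d * (1 + 2 * M) * (5 / A) := by gcongr
        have e7 : 12 * (d : ℝ) * (1 + 2 * M) * (5 / A) = d * (60 * (1 / A) + 120 * η * w) := by
          have : M / A = η * w := by
            rw [hM, hw, div_eq_iff hpos.ne']
            calc η * √A = η * (1 / √A) * (√A * √A) := by field_simp
              _ = η * (1 / √A) * A := by rw [Real.mul_self_sqrt hpos.le]
          calc 12 * (d : ℝ) * (1 + 2 * M) * (5 / A) = d * (60 * (1 / A) + 120 * (M / A)) := by ring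
            _ = _ := by rw [this]; ring
        calc 12 * (d : ℝ) * (1 + 2 * M) * (β ^ 2 / a.re ^ 2) + 4
            ≤ d * (60 * (1 / A) + 120 * η * w) + 8 * d * (1 / A) := by
              rw [← e7]
              linarith
          _ = _ := by ring
      have h3 : (nonreal (rop f (X ^ d)) : ℝ) ≤ Z * (1 + c * w) +
          d * (68 * (1 / A) + 120 * η * w) := by
        refine h2.trans ?_
        have e3 := mul_le_mul_of_nonneg_left e1 hZ0
        have e4 : Z * (1 + 6 / M * (2 + 4 * Real.log (1 + 2 * (d * S1 g) * (M * β)))) ≤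
            Z * (1 + c * w) := by
          rw [mul_add, mul_add]
          linarith
        linarith
      -- W
      have hW1 : W1 (2 * d) f = w + (w + W1 (2 * d) g) := by
        unfold W1
        rw [hg, nr_quad (2 * d) a g hgne him haD, Multiset.map_cons, Multiset.sum_cons,
          Multiset.map_cons, Multiset.sum_cons, RCLike.norm_conj]
      have hW2 : W2 (2 * d) f = 1 / A + (1 / A + W2 (2 * d) g) := by
        unfold W2
        rw [hg, nr_quad (2 * d) a g hgne him haD, Multiset.map_cons, Multiset.sum_cons,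
          Multiset.map_cons, Multiset.sum_cons, RCLike.norm_conj]
      have hWg0 := W1_nonneg (2 * d) g
      have hW2g0 := W2_nonneg (2 * d) g
      set V := W1 (2 * d) g with hV
      set U := W2 (2 * d) g with hU
      have hA1 : 0 < 1 / A := by positivity
      refine h3.trans ?_
      have e8 : Z * (1 + c * w) ≤ d * (68 * U + 120 * η * V) * Real.exp (c * V) *
          Real.exp (c * w) := by
        refine mul_le_mul h1 ?_ (by positivity) (by positivity)
        have := Real.add_one_le_exp (c * w)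
        linarith
      have e9 : Real.exp (c * V) * Real.exp (c * w) ≤ Real.exp (c * W1 (2 * d) f) := by
        rw [← Real.exp_add]
        apply Real.exp_le_exp.2
        rw [hW1]
        nlinarith [mul_pos hc0 hw0]
      have e10 : 1 ≤ Real.exp (c * W1 (2 * d) f) := by
        apply Real.one_le_exp
        rw [hW1]
        positivity
      set E := Real.exp (c * W1 (2 * d) f) with hE
      calc Z * (1 + c * w) + d * (68 * (1 / A) + 120 * η * w)
          ≤ d * (68 * U + 120 * η * V) * E + d * (68 * (1 / A) + 120 * η * w) * E := by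
            refine add_le_add (e8.trans ?_) ?_
            · rw [mul_assoc]
              exact mul_le_mul_of_nonneg_left e9 (by positivity)
            · exact le_mul_of_one_le_right (by positivity) e10
        _ = d * (68 * (1 / A + U) + 120 * η * (w + V)) * E := by ring
        _ ≤ d * (68 * W2 (2 * d) f + 120 * η * W1 (2 * d) f) * E := by
            rw [hW1, hW2]
            have e11 : 0 < E := Real.exp_pos _
            have e12 : 0 ≤ 120 * η * w := by positivity
            refine mul_le_mul_of_nonneg_right (mul_le_mul_of_nonneg_left ?_ hd0) e11.le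
            nlinarith
    · push Not at hex
      have hreal : nonreal (rop f (X ^ d)) = 0 := by
        rw [nonreal_eq_zero hrne]
        intro z hz
        rw [aeval_rop_pow] at hz
        refine Pool.Agent.H24R2.JP.sector Pool.Agent.H24R2.JP.chasse f d h0 ?_ z hz
        intro a ha
        by_cases him : a.im = 0
        · rw [him]
          have := sq_nonneg ‖a‖
          simpa using this
        · have h1 := hex a ha him
          obtain ⟨haP, ha1⟩ := hpar a ha
          obtain ⟨-, him2⟩ := par_facts a haP ha1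
          have h2 : (d : ℝ) ≤ ‖a‖ / 2 := by linarith
          calc (d : ℝ) * a.im ^ 2 ≤ ‖a‖ / 2 * (5 / 4 * ‖a‖) := by gcongr
            _ ≤ ‖a‖ ^ 2 := by nlinarith
      rw [hreal]
      have h1 := W1_nonneg (2 * d) f
      have h2 := W2_nonneg (2 * d) f
      push_cast
      positivity

/-- **The loss theorem**: the number of non-real zeros of `f(D) X ^ d`. -/
theorem loss (d : ℕ) (hd : 1 ≤ d) (H Λ : ℝ) (hH : 0 ≤ H)
    (hΛ : 2 + 4 * Real.log (1 + H * d ^ 2) ≤ Λ) (f : ℝ[X]) (h0 : f.coeff 0 ≠ 0)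
    (hpar : ∀ a : ℂ, aeval a f = 0 → a ∈ Par ∧ 1 ≤ ‖a‖) (hS : S1 f ≤ H) :
    (nonreal (rop f (X ^ d)) : ℝ) ≤ 80000 * d * Λ ^ 2 * W1 (2 * d) f ^ 2 := by
  have hd0 : (0 : ℝ) ≤ d := Nat.cast_nonneg _
  have hlog0 : 0 ≤ Real.log (1 + H * d ^ 2) := by
    apply Real.log_nonneg
    have : 0 ≤ H * (d : ℝ) ^ 2 := by positivity
    linarith
  have hΛ2 : 2 ≤ Λ := by linarith
  have hW := W1_nonneg (2 * d) f
  have hW2 := W2_le (2 * d) f
  have hW20 := W2_nonneg (2 * d) f
  set W := W1 (2 * d) f with hWdef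
  rcases eq_or_lt_of_le hW with hW0 | hWpos
  · have h1 := loss_aux d hd H (1 / 5) Λ hH (by norm_num) le_rfl hΛ f.natDegree f le_rfl h0 hpar hS
    rw [← hWdef, ← hW0] at h1
    rw [← hW0] at hW2
    have h2 : W2 (2 * d) f = 0 := by
      refine le_antisymm ?_ hW20
      simpa using hW2
    rw [h2] at h1
    rw [← hW0]
    simpa using h1
  by_cases hcase : Λ * W ≤ 1 / 5
  · have hη : 0 < Λ * W := by positivity
    have h1 := loss_aux d hd H (Λ * W) Λ hH hη hcase hΛ f.natDegree f le_rfl h0 hpar hS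
    rw [← hWdef] at h1
    have h2 : 6 * Λ / (Λ * W) * W = 6 := by
      field_simp
    rw [h2] at h1
    have h3 : Real.exp 6 ≤ 404 := by
      have e1 := Real.exp_one_lt_d9
      have e2 : Real.exp 6 = Real.exp 1 ^ 6 := by
        rw [← Real.exp_nat_mul]
        norm_num
      rw [e2]
      calc Real.exp 1 ^ 6 ≤ (2.7182818286 : ℝ) ^ 6 :=
            pow_le_pow_left₀ (Real.exp_pos _).le e1.le 6
        _ ≤ 404 := by norm_num
    refine h1.trans ?_
    have h4 : 68 * W2 (2 * d) f + 120 * (Λ * W) * W ≤ 188 * Λ ^ 2 * W ^ 2 := by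
      have e1 : W ^ 2 ≤ Λ ^ 2 * W ^ 2 := by
        have : 1 ≤ Λ ^ 2 := by nlinarith
        nlinarith [sq_nonneg W]
      have e2 : Λ * W ^ 2 ≤ Λ ^ 2 * W ^ 2 := by
        have : Λ ≤ Λ ^ 2 := by nlinarith
        nlinarith [sq_nonneg W]
      nlinarith
    calc (d : ℝ) * (68 * W2 (2 * d) f + 120 * (Λ * W) * W) * Real.exp 6
        ≤ d * (188 * Λ ^ 2 * W ^ 2) * 404 := by
          refine mul_le_mul (mul_le_mul_of_nonneg_left h4 hd0) h3 (Real.exp_pos _).le ?_
          positivity
      _ = 75952 * (d * Λ ^ 2 * W ^ 2) := by ring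
      _ ≤ 80000 * d * Λ ^ 2 * W ^ 2 := by
          have : 0 ≤ d * Λ ^ 2 * W ^ 2 := by positivity
          nlinarith
  · push Not at hcase
    have h1 : nonreal (rop f (X ^ d)) ≤ d := by
      have e1 := nonreal_eq (rop f (X ^ d))
      have e2 := natDegree_rop_pow_le f d
      omega
    have h2 : (nonreal (rop f (X ^ d)) : ℝ) ≤ d := by exact_mod_cast h1
    refine h2.trans ?_
    have h3 : 1 ≤ 80000 * (Λ * W) ^ 2 := by nlinarith
    calc (d : ℝ) = d * 1 := (mul_one _).symm
      _ ≤ d * (80000 * (Λ * W) ^ 2) := mul_le_mul_of_nonneg_left h3 hd0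
      _ = _ := by ring

end Pool.Agent.Zk6.JD
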