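import Pool.Agent.TH99.RJ.Main

set_option autoImplicit false

/-!
# Jensen polynomials, density version: interfaces
-/

namespace Pool.Agent.Zk6.JD

open Pool.Agent.H24R2.JP (FF jensen)

/-- Input (helper5): sum over the non-real zeros `x` of `F^(n)`, `|x| ≤ T ^ 2`, of `1 / √|x|`. -/
def S_SUM : Prop := ∀ k c : ℝ, 0 < k → k < 4 → 0 < c → ∃ C : ℝ, 0 < C ∧
  ∀ (n : ℕ) (T : ℝ), 1 ≤ T → c * Real.log T ≤ n →
    ∀ S : Finset ℂ, (∀ x ∈ S, iteratedDeriv n FF x = 0 ∧ x.im ≠ 0 ∧ ‖x‖ ≤ T ^ 2) →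
      ∑ x ∈ S, (analyticOrderNatAt (iteratedDeriv n FF) x : ℝ) / √‖x‖ ≤
        C * (Real.log (T + 2)) ^ 2 * Real.exp (-(k * n))

/-- Output (helper6): for every `κ < 8` at most `C d exp (-κ n)` of the `d` zeros of `J^{d,n}` are
non-real (with multiplicity). -/
def S_JD : Prop := ∀ κ : ℝ, κ < 8 → ∃ C : ℝ, 0 < C ∧ ∀ d n : ℕ, 1 ≤ d →
  (Pool.Agent.TH99.RJ.nonreal (jensen d n) : ℝ) ≤ C * d * Real.exp (-(κ * n))

end Pool.Agent.Zk6.JD
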