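import Pool.Agent.Zk6.JD8
import Pool.Agent.Zk6.JDS
import Pool.Agent.TH99.RJ.Gen

set_option autoImplicit false

/-!
# Jensen polynomials, step 9: the limit
-/

namespace Pool.Agent.Zk6.JD

open Polynomial Filter Topology
open Pool.Agent.TH99.RJ (nonreal nonreal_eq aeval_eq_map rop rop_eq_Ap Ap Jp nonreal_Jp natDegree_Ap
  CT_Ap Ap_bound closed cnt_univ dvd_of_cnt cnt_of_dvd natDegree_Ap_le iter_add diff_iter)
open Pool.Agent.H24R2.JP (Par App FF gam jensen)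

theorem fin_zeros {f : ℂ → ℂ} (hf : Differentiable ℂ f) (h0 : f 0 ≠ 0) (R : ℝ) :
    {x : ℂ | f x = 0 ∧ ‖x‖ ≤ R}.Finite := by
  by_contra hinf
  obtain ⟨x, -, hx⟩ := Set.Infinite.exists_accPt_of_subset_isCompact (K := Metric.closedBall 0 R)
    hinf (isCompact_closedBall 0 R) (fun x hx => by simpa using hx.2)
  rw [accPt_iff_frequently_nhdsNE] at hx
  have h1 : AnalyticOnNhd ℂ f Set.univ := fun z _ => hf.analyticAt z
  have h2 := h1.eqOn_zero_of_preconnected_of_frequently_eq_zero isPreconnected_univ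
    (Set.mem_univ x) (hx.mono fun y hy => hy.1)
  exact h0 (h2 (Set.mem_univ 0))

theorem lim_nonreal (d : ℕ) (hd : 1 ≤ d) (γ : ℕ → ℕ → ℝ) (γ' : ℕ → ℝ) (h0 : γ' 0 ≠ 0)
    (h : ∀ j, Tendsto (fun N => γ N j) atTop (𝓝 (γ' j))) (K : ℕ)
    (hK : ∀ᶠ N in atTop, nonreal (Ap d (γ N)) ≤ K) : nonreal (Ap d γ') ≤ K := by
  obtain ⟨R, hR⟩ := Ap_bound d hd γ γ' h0 h
  set M : ℕ := d - K with hM
  have hAp0 : Ap d γ' ≠ 0 := by
    intro h1
    have h2 := natDegree_Ap d γ' h0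
    rw [h1, natDegree_zero] at h2
    omega
  have key : ∀ᶠ N in atTop, ∃ t : Fin M → ℝ, (∀ i, -R ≤ t i ∧ t i ≤ R) ∧
      (∏ i, (X - C (t i))) ∣ Ap d (γ N) := by
    filter_upwards [hK, hR] with N t1 t3
    have h1 := nonreal_eq (Ap d (γ N))
    rw [natDegree_Ap d (γ N) t3.1] at h1
    have h2 : M ≤ (Ap d (γ N)).roots.card := by omega
    rw [← cnt_univ] at h2
    obtain ⟨t, -, ht2⟩ := dvd_of_cnt h2
    refine ⟨t, fun i => ?_, ht2⟩
    have h3 : (Ap d (γ N)).IsRoot (t i) :=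
      dvd_iff_isRoot.1 ((Finset.dvd_prod_of_mem _ (Finset.mem_univ i)).trans ht2)
    exact abs_le.1 (t3.2 _ h3)
  obtain ⟨t, ht1, ht2⟩ := closed (CT_Ap d _ γ' h) (fun N => natDegree_Ap_le d _)
    tendsto_const_nhds tendsto_const_nhds key
  have h1 := cnt_of_dvd hAp0 (s := Set.univ) (fun i => Set.mem_univ _) ht2
  rw [cnt_univ] at h1
  have h2 := nonreal_eq (Ap d γ')
  rw [natDegree_Ap d γ' h0] at h2
  omega

/-- the multiplicities of the approximants -/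
theorem mult_le {f : ℂ → ℂ} (hf : Differentiable ℂ f) (h0 : f 0 ≠ 0) (P : ℕ → ℝ[X])
    (hloc : TendstoLocallyUniformly (fun (N : ℕ) (x : ℂ) => aeval x (P N)) f atTop) (a : ℂ) :
    ∀ᶠ N in atTop, ((P N).map (algebraMap ℝ ℂ)).rootMultiplicity a ≤ analyticOrderNatAt f a := by
  have hne : analyticOrderAt f a ≠ ⊤ := by
    intro h
    rw [analyticOrderAt_eq_top] at h
    have h1 : AnalyticOnNhd ℂ f Set.univ := fun z _ => hf.analyticAt z
    have h2 := h1.eqOn_zero_of_preconnected_of_eventuallyEq_zero isPreconnected_univ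
      (Set.mem_univ a) h
    exact h0 (h2 (Set.mem_univ 0))
  set m := analyticOrderNatAt f a with hm
  have h1 : analyticOrderAt f a = m := by
    rw [hm]
    exact (Nat.cast_analyticOrderNatAt hne).symm
  have h2 := ((analyticOrderAt_eq_nat_iff_iteratedDeriv_eq_zero (hf.analyticAt a)).1 h1).2
  have h3 := (tendstoLocallyUniformlyOn_univ.2
    (Pool.Agent.H24R2.JP.Der.der1 f P hloc m)).tendsto_at (Set.mem_univ a)
  filter_upwards [h3.eventually_ne h2] with N hN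
  by_contra hcon
  push Not at hcon
  have h4 := isRoot_iterate_derivative_of_lt_rootMultiplicity hcon
  apply hN
  have h5 : aeval a (derivative^[m] (P N)) =
      (derivative^[m] ((P N).map (algebraMap ℝ ℂ))).eval a := by
    rw [aeval_eq_map, iterate_derivative_map]
  show aeval a (derivative^[m] (P N)) = 0
  rw [h5]
  exact h4

theorem W1_lim {f : ℂ → ℂ} (hf : Differentiable ℂ f) (h0 : f 0 ≠ 0) (P : ℕ → ℝ[X])
    (hP : ∀ (N : ℕ) (x : ℂ), aeval x (P N) = 0 → f x = 0)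
    (hloc : TendstoLocallyUniformly (fun (N : ℕ) (x : ℂ) => aeval x (P N)) f atTop) (D V : ℝ)
    (hV : ∀ S : Finset ℂ, (∀ x ∈ S, f x = 0 ∧ x.im ≠ 0 ∧ ‖x‖ ≤ D) →
      ∑ x ∈ S, (analyticOrderNatAt f x : ℝ) / √‖x‖ ≤ V) :
    ∀ᶠ N in atTop, W1 D (P N) ≤ V := by
  classical
  have hfin := fin_zeros hf h0 D
  set Z : Finset ℂ := hfin.toFinset.filter fun x => x.im ≠ 0 with hZ
  have hZmem : ∀ x, x ∈ Z ↔ (f x = 0 ∧ ‖x‖ ≤ D) ∧ x.im ≠ 0 := by
    intro x
    rw [hZ, Finset.mem_filter, Set.Finite.mem_toFinset]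
    rfl
  have h1 : ∀ᶠ N in atTop, ∀ a ∈ Z, ((P N).map (algebraMap ℝ ℂ)).rootMultiplicity a ≤
      analyticOrderNatAt f a := by
    rw [Filter.eventually_all_finset]
    intro a _
    exact mult_le hf h0 P hloc a
  have h2 := hV Z fun x hx => ⟨((hZmem x).1 hx).1.1, ((hZmem x).1 hx).2, ((hZmem x).1 hx).1.2⟩
  have h3 : ∀ᶠ N in atTop, P N ≠ 0 := by
    have h4 := (tendstoLocallyUniformlyOn_univ.2 hloc).tendsto_at (Set.mem_univ (0 : ℂ))
    filter_upwards [h4.eventually_ne h0] with N hN h5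
    apply hN
    rw [h5, map_zero]
  filter_upwards [h1, h3] with N hN hPN
  refine le_trans ?_ h2
  unfold W1
  rw [Finset.sum_multiset_map_count]
  have hsub : (nr D (P N)).toFinset ⊆ Z := by
    intro a ha
    rw [Multiset.mem_toFinset] at ha
    unfold nr at ha
    rw [Multiset.mem_filter] at ha
    rw [hZmem]
    exact ⟨⟨hP N a ((mem_rts hPN).1 ha.1), ha.2.2⟩, ha.2.1⟩
  refine le_trans (Finset.sum_le_sum (g := fun a => (analyticOrderNatAt f a : ℝ) / √‖a‖)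
    fun a ha => ?_) (Finset.sum_le_sum_of_subset_of_nonneg hsub fun a _ _ => by positivity)
  rw [nsmul_eq_mul, mul_one_div]
  refine div_le_div_of_nonneg_right ?_ (Real.sqrt_nonneg _)
  have h4 : (nr D (P N)).count a ≤ (rts (P N)).count a := by
    unfold nr
    exact Multiset.count_le_of_le a (Multiset.filter_le _ _)
  have h5 : (rts (P N)).count a = ((P N).map (algebraMap ℝ ℂ)).rootMultiplicity a := by
    unfold rts
    rw [count_roots]
  have h6 := hN a (hsub ha)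
  exact_mod_cast h4.trans (h5.le.trans h6)

/-- the sum of the inverse moduli -/
theorem S1_le (f : ℝ[X]) (h0 : f.coeff 0 ≠ 0)
    (hpar : ∀ a : ℂ, aeval a f = 0 → a ∈ Par ∧ 1 ≤ ‖a‖) : S1 f ≤ 2 * (f.coeff 1 / f.coeff 0) := by
  set F := f.map (algebraMap ℝ ℂ) with hF
  have hF0 : F.eval 0 = ((f.coeff 0 : ℝ) : ℂ) := by
    rw [hF, ← coeff_zero_eq_eval_zero, coeff_map]
    rfl
  have hF1 : (derivative F).eval 0 = ((f.coeff 1 : ℝ) : ℂ) := by
    rw [← coeff_zero_eq_eval_zero, coeff_derivative, hF, coeff_map]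
    simp
  have hF0' : F.eval 0 ≠ 0 := by
    rw [hF0]
    exact_mod_cast h0
  have h1 := (IsAlgClosed.splits F).eval_derivative_div_eval_of_ne_zero hF0'
  rw [hF0, hF1, ← Complex.ofReal_div] at h1
  have h2 : f.coeff 1 / f.coeff 0 = ((rts f).map fun a => (1 / ((0 : ℂ) - a)).re).sum := by
    have h3 := congrArg Complex.re h1
    rw [Complex.ofReal_re] at h3
    rw [h3]
    have h4 := map_multiset_sum Complex.reAddGroupHom (F.roots.map fun z => 1 / ((0 : ℂ) - z))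
    rw [Multiset.map_map] at h4
    exact h4
  have hfne : f ≠ 0 := by rintro rfl; simp at h0
  rw [h2]
  unfold S1
  rw [← Multiset.sum_map_mul_left]
  refine Multiset.sum_map_le_sum_map _ _ fun a ha => ?_
  have ha' := (mem_rts hfne).1 ha
  obtain ⟨haP, ha1⟩ := hpar a ha'
  obtain ⟨hre, -⟩ := par_facts a haP ha1
  have hpos : 0 < ‖a‖ := by linarith
  rw [zero_sub, one_div (-a), Complex.inv_re, Complex.neg_re, Complex.normSq_neg,
    Complex.normSq_eq_norm_sq, ← mul_div_assoc, div_le_div_iff₀ hpos (by positivity)]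
  nlinarith

/-- **The loss theorem for the Jensen polynomials**, abstract form. -/
theorem loss_entire (f : ℂ → ℂ) (γ : ℕ → ℝ) (hf : Differentiable ℂ f)
    (hconj : ∀ x, f ((starRingEnd ℂ) x) = (starRingEnd ℂ) (f x))
    (hgr : ∃ K : ℝ, ∀ x, ‖f x‖ ≤ Real.exp (K * (1 + ‖x‖) ^ (3 / 4 : ℝ)))
    (hγ : ∀ j, iteratedDeriv j f 0 = ((γ j : ℝ) : ℂ)) (h0 : γ 0 ≠ 0)
    (hpar : ∀ w, f w = 0 → w ∈ Par ∧ 1 ≤ ‖w‖) (d : ℕ) (hd : 1 ≤ d) (H V Λ : ℝ) (hH0 : 0 ≤ H)
    (hH : 2 * (γ 1 / γ 0) < H) (hΛ : 2 + 4 * Real.log (1 + H * d ^ 2) ≤ Λ)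
    (hV : ∀ S : Finset ℂ, (∀ x ∈ S, f x = 0 ∧ x.im ≠ 0 ∧ ‖x‖ ≤ 2 * d) →
      ∑ x ∈ S, (analyticOrderNatAt f x : ℝ) / √‖x‖ ≤ V) :
    (nonreal (Jp d γ) : ℝ) ≤ 80000 * d * Λ ^ 2 * V ^ 2 := by
  have hf0 : f 0 ≠ 0 := by
    have := hγ 0
    rw [iteratedDeriv_zero] at this
    rw [this]
    exact_mod_cast h0
  obtain ⟨K, hK⟩ := hgr
  obtain ⟨P, hP, hloc⟩ := Pool.Agent.H24R2.JP.had f K hf hf0 hconj hK
  have happ : App f P := ⟨fun N x hx => (hpar x (hP N x hx)).1, hloc⟩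
  have hcoef : ∀ j, Tendsto (fun N => (j.factorial : ℝ) * (P N).coeff j) atTop (𝓝 (γ j)) := by
    intro j
    have h1 := Pool.Agent.TH99.RJ.der_real happ (γ := γ) hγ 0 j
    rw [zero_add] at h1
    exact h1
  have hV0 : 0 ≤ V := by
    have := hV ∅ (by simp)
    simpa using this
  have hW := W1_lim hf hf0 P hP hloc (2 * d) V hV
  have hc0 : Tendsto (fun N => (P N).coeff 0) atTop (𝓝 (γ 0)) := by
    have := hcoef 0
    simpa using this
  have hc1 : Tendsto (fun N => (P N).coeff 1) atTop (𝓝 (γ 1)) := by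
    have := hcoef 1
    simpa using this
  have hc : Tendsto (fun N => 2 * ((P N).coeff 1 / (P N).coeff 0)) atTop (𝓝 (2 * (γ 1 / γ 0))) :=
    (hc1.div hc0 h0).const_mul 2
  rw [nonreal_Jp d γ h0]
  have hnn : 0 ≤ 80000 * d * Λ ^ 2 * V ^ 2 := by positivity
  have hmain : nonreal (Ap d γ) ≤ ⌊80000 * d * Λ ^ 2 * V ^ 2⌋₊ := by
    refine lim_nonreal d hd (fun N j => (j.factorial : ℝ) * (P N).coeff j) γ h0 hcoef _ ?_
    filter_upwards [hW, hc0.eventually_ne h0, hc.eventually (gt_mem_nhds hH)] with N h1 h2 h3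
    rw [Nat.le_floor_iff hnn, ← rop_eq_Ap]
    have hNpar : ∀ a : ℂ, aeval a (P N) = 0 → a ∈ Par ∧ 1 ≤ ‖a‖ := fun a ha => hpar a (hP N a ha)
    have h4 := loss d hd H Λ hH0 hΛ (P N) h2 hNpar ((S1_le (P N) h2 hNpar).trans h3.le)
    refine h4.trans ?_
    have h5 := W1_nonneg (2 * d) (P N)
    gcongr
  exact (Nat.cast_le.2 hmain).trans (Nat.floor_le hnn)

end Pool.Agent.Zk6.JD
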