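import Pool.Agent.Zk6.JD9
import Pool.Agent.H24R2.JP.All

set_option autoImplicit false

/-!
# Jensen polynomials, step 10: the Riemann xi function
-/

namespace Pool.Agent.Zk6.JD

open Complex Polynomial Filter Topology
open Pool.Agent.TH99.RJ (nonreal nonreal_eq Ap Jp Gr BB BB_half Hyp lc_of_hyp' iter_add diff_iter)
open Pool.Agent.H24R2.JP (Par App FF gam jensen XX XX_eq_FT_aux)

/-- the growth of `FF`, sharp form -/
theorem grFF : Gr FF := by
  obtain ⟨-, hXX, -, -⟩ := Pool.Agent.H24R2.JP.b1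
  obtain ⟨A, -, hA⟩ := Pool.Agent.Helper242.KK.Ph_upper
  obtain ⟨C, hC, hb⟩ := Pool.Agent.Helper242.KK.FT_upper
    Pool.Agent.Helper242.KK.continuous_Ph hA
  obtain ⟨K0, hK0⟩ : ∃ K0 : ℝ, K0 = Real.log (1 + ‖FF (1 / 4)‖) := ⟨_, rfl⟩
  have hK0' : ‖FF (1 / 4)‖ ≤ Real.exp K0 := by
    rw [hK0, Real.exp_log (by positivity)]; linarith
  have hK0n : 0 ≤ K0 := by
    rw [hK0]; exact Real.log_nonneg (by have := norm_nonneg (FF (1 / 4)); linarith)
  refine ⟨7 + 4 * C + 2 * K0, by positivity, fun x => ?_⟩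
  obtain ⟨z, hz⟩ : ∃ z : ℂ, z ^ 2 = x := by
    obtain ⟨z, hz⟩ := IsAlgClosed.exists_pow_nat_eq x (by norm_num : 0 < 2)
    exact ⟨z, hz⟩
  have hx0 : 0 ≤ ‖x‖ := norm_nonneg x
  have hB := BB_half hx0
  by_cases hc : (1 / 2 : ℂ) + z = 0 ∨ (1 / 2 : ℂ) + z = 1
  · have hx : x = 1 / 4 := by
      rw [← hz]
      rcases hc with hc | hc
      · have : z = -(1 / 2) := by linear_combination hc
        rw [this]; norm_num
      · have : z = 1 / 2 := by linear_combination hc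
        rw [this]; norm_num
    rw [hx] at hB ⊢
    refine hK0'.trans (Real.exp_le_exp.2 ?_)
    nlinarith
  · push Not at hc
    have e1 := hXX z
    rw [hz] at e1
    rw [e1, XX_eq_FT_aux z hc.1 hc.2, norm_mul]
    have e2 := hb (-I * z)
    have him : |(-I * z).im| = |z.re| := by simp
    rw [him] at e2
    obtain ⟨y, hyd⟩ : ∃ y : ℝ, y = |z.re| := ⟨_, rfl⟩
    have hy0 : 0 ≤ y := by rw [hyd]; exact abs_nonneg _
    have hy2 : y ^ 2 ≤ ‖x‖ := by
      have h1 : y ≤ ‖z‖ := by rw [hyd]; exact abs_re_le_norm z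
      have h2 : ‖z‖ ^ 2 = ‖x‖ := by rw [← hz, norm_pow]
      rw [← h2]
      exact pow_le_pow_left₀ hy0 h1 2
    rw [← hyd] at e2
    set s := √(1 + ‖x‖) with hs
    have hs1 : 1 ≤ s := by
      rw [hs, Real.one_le_sqrt]
      linarith
    have hs2 : s ^ 2 = 1 + ‖x‖ := Real.sq_sqrt (by positivity)
    have hys : y ≤ s := by
      refine le_of_sq_le_sq ?_ (by linarith)
      rw [hs2]
      linarith
    have hlog : Real.log (2 + y) ≤ 2 * Real.log (2 + ‖x‖) := by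
      have h1 : 2 + y ≤ (2 + ‖x‖) ^ 2 := by nlinarith
      have h2 := Real.log_le_log (by linarith) h1
      rw [Real.log_pow] at h2
      exact_mod_cast h2
    have hl2 : 1 / 2 ≤ Real.log (2 + ‖x‖) :=
      Pool.Agent.TH99.RJ.log2_half.trans (Real.log_le_log (by norm_num) (by linarith))
    have hlog0 : 0 ≤ Real.log (2 + y) := Real.log_nonneg (by linarith)
    have hBB : BB ‖x‖ = s * Real.log (2 + ‖x‖) := rfl
    have h8 : (8 : ℝ) ≤ Real.exp 3 := by
      have : (2 : ℝ) ≤ Real.exp 1 := by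
        have := Real.add_one_le_exp (1 : ℝ); linarith
      have h := pow_le_pow_left₀ (by norm_num) this 3
      rw [← Real.exp_nat_mul] at h
      norm_num at h
      exact h
    have hbnd : y / 2 * Real.log (2 + y) ≤ BB ‖x‖ := by
      rw [hBB]
      calc y / 2 * Real.log (2 + y) ≤ s / 2 * (2 * Real.log (2 + ‖x‖)) := by
            apply mul_le_mul (by linarith) hlog hlog0 (by positivity)
        _ = _ := by ring
    have hsB : s ≤ 2 * BB ‖x‖ := by
      rw [hBB]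
      nlinarith
    have hCy : C * (1 + y) ≤ 4 * C * BB ‖x‖ := by
      have h1 : 1 + y ≤ 4 * BB ‖x‖ := by linarith
      nlinarith
    calc ‖(8 : ℂ)‖ * ‖Pool.Agent.Helper242.KK.FT Pool.Agent.Helper242.KK.Ph (-I * z)‖
        ≤ Real.exp 3 * Real.exp (y / 2 * Real.log (2 + y) + C * (1 + y)) := by
          apply mul_le_mul _ e2 (norm_nonneg _) (Real.exp_pos _).le
          simpa using h8
      _ = Real.exp (3 + (y / 2 * Real.log (2 + y) + C * (1 + y))) := by rw [← Real.exp_add]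
      _ ≤ Real.exp ((7 + 4 * C + 2 * K0) * BB ‖x‖) := by
          apply Real.exp_le_exp.2
          nlinarith [mul_nonneg hK0n (by linarith : (0 : ℝ) ≤ BB ‖x‖)]

theorem jensen_eq (d n : ℕ) : jensen d n = Jp d fun j => gam (n + j) := rfl

theorem hypFF : ∃ n0 : ℕ, Hyp FF gam n0 := by
  obtain ⟨hd, -, hc, hi⟩ := Pool.Agent.H24R2.JP.b1
  obtain ⟨C, hC, hH⟩ := Pool.Agent.H24R2.JP.hypT
  have hpos := Pool.Agent.H24R2.JP.gamT.1
  refine ⟨⌈C * Real.log (2 + 1)⌉₊, hd, grFF, hc, Pool.Agent.H24R2.JP.zerosT, hi,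
    fun n _ => hpos n, fun n hn => ?_⟩
  refine lc_of_hyp' (hpos _) ?_
  have h1 := hH 2 n (by
    have := Nat.ceil_le.1 hn
    exact_mod_cast this)
  exact h1

/-- the base bound -/
theorem base_bound : ∃ C : ℝ, 0 < C ∧ ∀ d n : ℕ,
    (nonreal (jensen d n) : ℝ) ≤ C * ((d : ℝ) ^ (2 / 3 : ℝ) * Real.log (d + 1)) := by
  obtain ⟨n0, h⟩ := hypFF
  exact h.cnt

/-- the loss theorem for `F^(n)` -/
theorem loss_FF : ∃ (N0 : ℕ) (H : ℝ), 0 < H ∧ ∀ (n d : ℕ), N0 ≤ n → 1 ≤ d → ∀ V : ℝ,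
    (∀ S : Finset ℂ, (∀ x ∈ S, iteratedDeriv n FF x = 0 ∧ x.im ≠ 0 ∧ ‖x‖ ≤ 2 * d) →
      ∑ x ∈ S, (analyticOrderNatAt (iteratedDeriv n FF) x : ℝ) / √‖x‖ ≤ V) →
    (nonreal (jensen d n) : ℝ) ≤ 80000 * d * (2 + 4 * Real.log (1 + H * d ^ 2)) ^ 2 * V ^ 2 := by
  obtain ⟨hd, -, hc, hi⟩ := Pool.Agent.H24R2.JP.b1
  have hpos := Pool.Agent.H24R2.JP.gamT.1
  obtain ⟨N1, hN1⟩ := Pool.Agent.H24R2.JP.lowT 1
  have hbdd := Pool.Agent.H24R2.JP.gamT.2.2.bddAbove_range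
  obtain ⟨B, hB⟩ := hbdd
  have hBn : ∀ n, gam (n + 1) / gam n ≤ B := fun n => hB ⟨n, rfl⟩
  have hB0 : 0 < B := lt_of_lt_of_le (div_pos (hpos _) (hpos _)) (hBn 0)
  refine ⟨max N1 1, 2 * B + 1, by positivity, fun n d hn hd1 V hV => ?_⟩
  have hn1 : N1 ≤ n := (le_max_left _ _).trans hn
  have hn2 : 1 ≤ n := (le_max_right _ _).trans hn
  rw [jensen_eq]
  refine loss_entire (iteratedDeriv n FF) (fun j => gam (n + j)) (diff_iter hd n)
    (Pool.Agent.H24R2.JP.B1h.iter_conj FF hc n) (grFF.iter hd n).grow34 ?_ (hpos _).ne' ?_ d hd1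
    (2 * B + 1) V _ (by positivity) ?_ le_rfl hV
  · intro j
    rw [iter_add, hi]
  · intro w hw
    refine ⟨Pool.Agent.H24R2.JP.parT FF Pool.Agent.H24R2.JP.goodT n w hw, ?_⟩
    have h1 := hN1 n hn1 w hw
    have h2 : (1 : ℝ) ≤ n := by exact_mod_cast hn2
    linarith
  · have := hBn n
    simp only [add_zero]
    linarith

end Pool.Agent.Zk6.JD
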