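import Pool.Agent.Zk6.G4

set_option autoImplicit false

/-!
The mean square of the mollifier: local factors and the average over the torus.
-/

namespace Pool.Agent.Zk6

open Finset MeasureTheory Complex
open Pool.Agent.W184.NZ
open Pool.Agent.TH806 (ec ec_norm ec_cont uu Ix TT Par ub wp int_re_ec int_re_integrable re_sq
  BL cos_sum gap_sum err_sum gt Af Af_nonneg cf cf_norm er er_nonneg exp_cubic' xh xh_pos xh_sq xh_cube xh_le half_eq
  ub_le ub_eq ix_lt ix_two normW ub_lt)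

noncomputable section

lemma two_re_mul (A B : ℂ) : 2 * (A.re * B.re) = (A * (starRingEnd ℂ) B).re + (A * B).re := by
  rw [Complex.mul_re, Complex.mul_re, Complex.conj_re, Complex.conj_im]
  ring

/-- the basic one prime estimate for the mollifier -/
theorem one_primeM {x : ℝ} (hx : 0 < x) (hx1 : x ≤ 1 / 12) {u c : ℂ} (hu : ‖u‖ ≤ x) (hc : ‖c‖ ≤ 6 * x) :
    ∫ θ, Hg (fun y => ‖1 - u * ec y‖ ^ 2) c θ ∂uu ≤ Real.exp (‖u - c / 2‖ ^ 2 + 300 * x ^ 3) := by
  have hpt : ∀ θ : ℝ, Hg (fun y => ‖1 - u * ec y‖ ^ 2) c θ ≤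
      1 + ‖u - c / 2‖ ^ 2 + 300 * x ^ 3 + (((c - 2 * u) * ec θ ^ 1).re + ((c ^ 2 / 4 - u * c) * ec θ ^ 2).re) := by
    intro θ
    have hw : ‖ec θ‖ = 1 := ec_norm θ
    unfold Hg
    set r := (u * ec θ).re with hr
    set s := (c * ec θ).re with hs
    have hrb : |r| ≤ x := by
      have := Complex.abs_re_le_norm (u * ec θ)
      rw [norm_mul, hw, mul_one] at this
      exact this.trans hu
    have hsb : |s| ≤ 6 * x := by
      have := Complex.abs_re_le_norm (c * ec θ)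
      rw [norm_mul, hw, mul_one] at this
      exact this.trans hc
    have e1 : ‖1 - u * ec θ‖ ^ 2 = 1 - 2 * r + ‖u‖ ^ 2 := by
      have h2 : ‖u‖ ^ 2 = ‖u * ec θ‖ ^ 2 := by rw [norm_mul, hw, mul_one]
      rw [h2, ← Complex.normSq_eq_norm_sq, ← Complex.normSq_eq_norm_sq, hr]
      simp only [Complex.normSq_apply, Complex.sub_re, Complex.sub_im, Complex.one_re, Complex.one_im]
      ring
    have hs1 : |s| ≤ 1 := by linarith
    have h1 := exp_cubic' hs1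
    have hpos : 0 ≤ 1 - 2 * r + ‖u‖ ^ 2 := by rw [← e1]; positivity
    have h2 : ‖1 - u * ec θ‖ ^ 2 * Real.exp s ≤ (1 - 2 * r + ‖u‖ ^ 2) * (1 + s + s ^ 2 / 2 + |s| ^ 3) := by
      rw [e1]; exact mul_le_mul_of_nonneg_left h1 hpos
    refine h2.trans ?_
    have hx3 : 0 < x ^ 3 := by positivity
    have hU : ‖u‖ ^ 2 ≤ x ^ 2 := pow_le_pow_left₀ (norm_nonneg _) hu 2
    have hU0 : 0 ≤ ‖u‖ ^ 2 := by positivity
    have hs2 : s ^ 2 ≤ 36 * x ^ 2 := by
      have := pow_le_pow_left₀ (abs_nonneg s) hsb 2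
      rw [sq_abs] at this
      linarith [this, (by ring : (6 * x) ^ 2 = 36 * x ^ 2)]
    have hs3 : |s| ^ 3 ≤ 216 * x ^ 3 := by
      have := pow_le_pow_left₀ (abs_nonneg s) hsb 3
      linarith [this, (by ring : (6 * x) ^ 3 = 216 * x ^ 3)]
    have hs30 : 0 ≤ |s| ^ 3 := by positivity
    have hx4 : x ^ 4 ≤ 1 / 12 * x ^ 3 := by
      calc x ^ 4 = x * x ^ 3 := by ring
        _ ≤ _ := by gcongr
    have hx5 : x ^ 5 ≤ 1 / 12 * x ^ 3 := by
      calc x ^ 5 = x ^ 2 * x ^ 3 := by ring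
        _ ≤ 1 / 12 * x ^ 3 := by
          refine mul_le_mul_of_nonneg_right ?_ hx3.le
          nlinarith
    have t1 : -(r * s ^ 2) ≤ 36 * x ^ 3 := by
      calc -(r * s ^ 2) ≤ |r * s ^ 2| := neg_le_abs _
        _ = |r| * s ^ 2 := by rw [abs_mul, abs_of_nonneg (sq_nonneg s)]
        _ ≤ x * (36 * x ^ 2) := mul_le_mul hrb hs2 (sq_nonneg _) hx.le
        _ = _ := by ring
    have t2 : -(2 * r * |s| ^ 3) ≤ 36 * x ^ 3 := by
      have a1 : -(r * |s| ^ 3) ≤ x * (216 * x ^ 3) := by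
        calc -(r * |s| ^ 3) ≤ |r * |s| ^ 3| := neg_le_abs _
          _ = |r| * |s| ^ 3 := by rw [abs_mul, abs_of_nonneg hs30]
          _ ≤ x * (216 * x ^ 3) := mul_le_mul hrb hs3 hs30 hx.le
      have a2 : x * (216 * x ^ 3) = 216 * x ^ 4 := by ring
      rw [a2] at a1
      linarith
    have t3 : ‖u‖ ^ 2 * s ≤ 6 * x ^ 3 := by
      calc ‖u‖ ^ 2 * s ≤ ‖u‖ ^ 2 * |s| := mul_le_mul_of_nonneg_left (le_abs_self s) hU0
        _ ≤ x ^ 2 * (6 * x) := mul_le_mul hU hsb (abs_nonneg _) (by positivity)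
        _ = _ := by ring
    have t4 : ‖u‖ ^ 2 * (s ^ 2 / 2) ≤ 2 * x ^ 3 := by
      calc ‖u‖ ^ 2 * (s ^ 2 / 2) ≤ x ^ 2 * (36 * x ^ 2 / 2) := by
            refine mul_le_mul hU ?_ (by positivity) (by positivity)
            linarith
        _ = 18 * x ^ 4 := by ring
        _ ≤ _ := by linarith
    have t5 : ‖u‖ ^ 2 * |s| ^ 3 ≤ 18 * x ^ 3 := by
      calc ‖u‖ ^ 2 * |s| ^ 3 ≤ x ^ 2 * (216 * x ^ 3) := mul_le_mul hU hs3 hs30 (by positivity)
        _ = 216 * x ^ 5 := by ring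
        _ ≤ _ := by linarith
    have e2 : s ^ 2 = (‖c‖ ^ 2 + (c ^ 2 * ec θ ^ 2).re) / 2 := by
      rw [hs, re_sq, norm_mul, hw, mul_one, mul_pow]
    have hee : ec θ * (starRingEnd ℂ) (ec θ) = 1 := Pool.Agent.TH806.ec_mul_conj θ
    have e3 : 2 * (r * s) = (u * (starRingEnd ℂ) c).re + (u * c * ec θ ^ 2).re := by
      have g1 : (u * (starRingEnd ℂ) c).re = (u * ec θ * (starRingEnd ℂ) (c * ec θ)).re := by
        rw [map_mul]
        have : u * ec θ * ((starRingEnd ℂ) c * (starRingEnd ℂ) (ec θ)) =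
            u * (starRingEnd ℂ) c * (ec θ * (starRingEnd ℂ) (ec θ)) := by ring
        rw [this, hee, mul_one]
      have g2 : u * c * ec θ ^ 2 = (u * ec θ) * (c * ec θ) := by ring
      rw [g1, g2, hr, hs]
      exact two_re_mul _ _
    have e4 : ‖u - c / 2‖ ^ 2 = ‖u‖ ^ 2 + ‖c‖ ^ 2 / 4 - (u * (starRingEnd ℂ) c).re := by
      rw [← Complex.normSq_eq_norm_sq, ← Complex.normSq_eq_norm_sq, ← Complex.normSq_eq_norm_sq, Complex.normSq_sub,
        map_div₀ (starRingEnd ℂ), Complex.conj_ofNat]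
      have g1 : (u * ((starRingEnd ℂ) c / 2)).re = (u * (starRingEnd ℂ) c).re / 2 := by
        have : u * ((starRingEnd ℂ) c / 2) = ((1 / 2 : ℝ) : ℂ) * (u * (starRingEnd ℂ) c) := by
          push_cast; ring
        rw [this, Complex.re_ofReal_mul]; ring
      have g2 : Complex.normSq (c / 2) = Complex.normSq c / 4 := by
        rw [Complex.normSq_apply, Complex.normSq_apply, Complex.div_ofNat_re, Complex.div_ofNat_im]; ring
      rw [g1, g2]; ring
    have e5 : ((c - 2 * u) * ec θ ^ 1).re = s - 2 * r := by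
      have : (c - 2 * u) * ec θ ^ 1 = c * ec θ - ((2:ℝ):ℂ) * (u * ec θ) := by push_cast; ring
      rw [this, Complex.sub_re, Complex.re_ofReal_mul]
    have e6 : ((c ^ 2 / 4 - u * c) * ec θ ^ 2).re = (c ^ 2 * ec θ ^ 2).re / 4 - (u * c * ec θ ^ 2).re := by
      have : (c ^ 2 / 4 - u * c) * ec θ ^ 2 = ((1/4:ℝ):ℂ) * (c ^ 2 * ec θ ^ 2) - u * c * ec θ ^ 2 := by
        push_cast; ring
      rw [this, Complex.sub_re, Complex.re_ofReal_mul]; ring
    rw [e4, e5, e6]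
    have e7 : (1 - 2 * r + ‖u‖ ^ 2) * (1 + s + s ^ 2 / 2 + |s| ^ 3) =
        1 + ‖u‖ ^ 2 + s ^ 2 / 2 - 2 * (r * s) + (s - 2 * r) + |s| ^ 3 + -(r * s ^ 2) + -(2 * r * |s| ^ 3) +
          ‖u‖ ^ 2 * s + ‖u‖ ^ 2 * (s ^ 2 / 2) + ‖u‖ ^ 2 * |s| ^ 3 := by ring
    rw [e7]
    have e8 : s ^ 2 / 2 = ‖c‖ ^ 2 / 4 + (c ^ 2 * ec θ ^ 2).re / 4 := by rw [e2]; ring
    nlinarith
  have i1 : Integrable (fun θ : ℝ => ((c - 2 * u) * ec θ ^ 1).re) uu := int_re_integrable _ _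
  have i2 : Integrable (fun θ : ℝ => ((c ^ 2 / 4 - u * c) * ec θ ^ 2).re) uu := int_re_integrable _ _
  have i12 : Integrable (fun θ : ℝ => ((c - 2 * u) * ec θ ^ 1).re + ((c ^ 2 / 4 - u * c) * ec θ ^ 2).re) uu := i1.add i2
  have hint : Integrable (fun θ : ℝ => 1 + ‖u - c / 2‖ ^ 2 + 300 * x ^ 3 +
      (((c - 2 * u) * ec θ ^ 1).re + ((c ^ 2 / 4 - u * c) * ec θ ^ 2).re)) uu := (integrable_const _).add i12
  calc ∫ θ, Hg (fun y => ‖1 - u * ec y‖ ^ 2) c θ ∂uu ≤ ∫ θ, (1 + ‖u - c / 2‖ ^ 2 + 300 * x ^ 3 +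
      (((c - 2 * u) * ec θ ^ 1).re + ((c ^ 2 / 4 - u * c) * ec θ ^ 2).re)) ∂uu :=
        integral_mono_of_nonneg (Filter.Eventually.of_forall fun θ => by unfold Hg; positivity) hint
          (Filter.Eventually.of_forall hpt)
    _ = 1 + ‖u - c / 2‖ ^ 2 + 300 * x ^ 3 := by
        rw [integral_add (integrable_const _) i12, integral_add i1 i2,
          int_re_ec _ one_ne_zero, int_re_ec _ two_ne_zero]
        simp
    _ ≤ _ := by linarith [Real.add_one_le_exp (‖u - c / 2‖ ^ 2 + 300 * x ^ 3)]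

variable {N : ℕ} {L : ℝ} {z : ℂ} {δ τ : ℝ}

/-- primes outside the blocks -/
lemma out_primeM (h : Par L N z δ τ) (p : Ix N) :
    ∫ x, Hg (fun y => ‖1 - ub N (wp δ τ) p * ec y‖ ^ 2) 0 x ∂uu ≤ Real.exp (1 / (p.1 : ℝ)) := by
  set u := ub N (wp δ τ) p with hu
  have hun := ub_le h p
  have hp0 : p.1 ≠ 0 := by have := ix_two p; omega
  have e1 : ∀ θ : ℝ, Hg (fun y => ‖1 - u * ec y‖ ^ 2) 0 θ = 1 + ‖u‖ ^ 2 + (((-2) * u) * ec θ ^ 1).re := by
    intro θ
    unfold Hg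
    rw [zero_mul, Complex.zero_re, Real.exp_zero, mul_one]
    have h2 : ‖u‖ ^ 2 = ‖u * ec θ‖ ^ 2 := by rw [norm_mul, ec_norm, mul_one]
    have h3 : ((-2) * u) * ec θ ^ 1 = ((-2:ℝ):ℂ) * (u * ec θ) := by push_cast; ring
    beta_reduce
    rw [h2, h3, Complex.re_ofReal_mul, ← Complex.normSq_eq_norm_sq, ← Complex.normSq_eq_norm_sq]
    simp only [Complex.normSq_apply, Complex.sub_re, Complex.sub_im, Complex.one_re, Complex.one_im]
    ring
  simp_rw [e1]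
  rw [integral_add (integrable_const _) (int_re_integrable _ _), int_re_ec _ one_ne_zero]
  have h4 : ‖u‖ ^ 2 ≤ 1 / (p.1 : ℝ) := by
    rw [← xh_sq hp0]; exact pow_le_pow_left₀ (norm_nonneg _) hun 2
  have h5 : ∫ _ : ℝ, (1 + ‖u‖ ^ 2) ∂uu = 1 + ‖u‖ ^ 2 := by simp
  rw [h5]
  linarith [Real.add_one_le_exp (1 / (p.1 : ℝ))]

/-- the exponent -/
def uM (L τ : ℝ) (c : ℂ) (p : ℕ) : ℝ :=
  1 / (p : ℝ) * ‖Complex.exp (((-(τ * Real.log p) : ℝ) : ℂ) * I) - c / 2‖ ^ 2 + er L p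

lemma big_primeM (h : Par L N z δ τ) (p : Ix N) (hp : 144 ≤ p.1) {c : ℂ} (hc : ‖c‖ ≤ 6) :
    ∫ x, Hg (fun y => ‖1 - ub N (wp δ τ) p * ec y‖ ^ 2) (c * ((p.1 : ℕ) : ℂ) ^ (-(1 / 2) : ℂ)) x ∂uu ≤
      Real.exp (uM L τ c p.1) := by
  have hp0 : p.1 ≠ 0 := by omega
  have hx := xh_pos p.1
  have hx12 := xh_le hp
  have hlog : 0 ≤ Real.log p.1 := Real.log_nonneg (by exact_mod_cast (by omega : 1 ≤ p.1))
  rw [half_eq hp0]
  have h1 := one_primeM hx hx12 (u := ub N (wp δ τ) p) (c := c * ((xh p.1 : ℝ) : ℂ))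
    (ub_le h p) (by
      rw [norm_mul, Complex.norm_real, Real.norm_eq_abs, abs_of_pos hx]
      exact mul_le_mul_of_nonneg_right hc hx.le)
  refine h1.trans (Real.exp_le_exp.mpr ?_)
  set ℓ := Real.log p.1 with hℓ
  set x := xh p.1 with hxd
  set q := ℓ / L with hq
  have hL := h.L1
  have hq0 : 0 ≤ q := by positivity
  set D := Real.exp (-(δ * ℓ)) with hD
  set W := Complex.exp (((-(τ * ℓ) : ℝ) : ℂ) * I) with hW
  have hWn : ‖W‖ = 1 := Complex.norm_exp_ofReal_mul_I _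
  have eD : |D - 1| ≤ 2 * q ∧ |D - 1| ≤ 1 := by
    have hδ : 0 ≤ δ * ℓ := mul_nonneg h.d0 hlog
    have hδ2 : δ * ℓ ≤ 2 * q := by
      calc δ * ℓ ≤ 2 / L * ℓ := mul_le_mul_of_nonneg_right h.d1 hlog
        _ = _ := by rw [hq]; ring
    have h5 : D ≤ 1 := Real.exp_le_one_iff.mpr (by linarith)
    have h6 : 0 < D := Real.exp_pos _
    have h7 : 1 - δ * ℓ ≤ D := by have := Real.add_one_le_exp (-(δ * ℓ)); linarith
    rw [abs_of_nonpos (by linarith)]
    exact ⟨by linarith, by linarith⟩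
  have hub : ub N (wp δ τ) p = (x : ℂ) * ((D : ℂ) * W) := ub_eq p
  have hx2 : x ^ 2 = 1 / (p.1 : ℝ) := xh_sq hp0
  have hx3 : x ^ 3 = (p.1 : ℝ) ^ (-(3 / 2 : ℝ)) := xh_cube hp0
  have e9 : ub N (wp δ τ) p - c * ((x : ℝ) : ℂ) / 2 = (x : ℂ) * ((W - c / 2) + ((D - 1 : ℝ) : ℂ) * W) := by
    rw [hub]; push_cast; ring
  set A := W - c / 2 with hA
  have hAn : ‖A‖ ≤ 4 := by
    calc ‖A‖ ≤ ‖W‖ + ‖c / 2‖ := norm_sub_le _ _
      _ ≤ 1 + 3 := by
          rw [hWn, norm_div, Complex.norm_ofNat]; linarith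
      _ = 4 := by norm_num
  have hFn : ‖((D - 1 : ℝ) : ℂ) * W‖ = |D - 1| := by
    rw [norm_mul, hWn, mul_one, Complex.norm_real, Real.norm_eq_abs]
  have t2 : ‖ub N (wp δ τ) p - c * ((x : ℝ) : ℂ) / 2‖ ^ 2 ≤ x ^ 2 * (‖A‖ ^ 2 + 18 * q) := by
    rw [e9, norm_mul, Complex.norm_real, Real.norm_eq_abs, abs_of_pos hx, mul_pow]
    refine mul_le_mul_of_nonneg_left ?_ (sq_nonneg x)
    have a3 : ‖A + ((D - 1 : ℝ) : ℂ) * W‖ ≤ ‖A‖ + |D - 1| := by
      rw [← hFn]; exact norm_add_le _ _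
    have a4 := pow_le_pow_left₀ (norm_nonneg _) a3 2
    have a5 : ‖A‖ * |D - 1| ≤ 4 * |D - 1| := mul_le_mul_of_nonneg_right hAn (abs_nonneg _)
    have a6 : |D - 1| * |D - 1| ≤ 1 * |D - 1| := mul_le_mul_of_nonneg_right eD.2 (abs_nonneg _)
    nlinarith [eD.1]
  have t3 : uM L τ c p.1 = x ^ 2 * ‖A‖ ^ 2 + 25 * (x ^ 2 * q) + 1300 * x ^ 3 := by
    unfold uM er
    rw [← hx2, ← hx3, hq, hA, hW]
    have : 25 / L * (Real.log p.1 / (p.1:ℝ)) = 25 * ((1 / (p.1 : ℝ)) * (ℓ / L)) := by rw [hℓ]; ring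
    rw [this, ← hx2]; ring
  rw [t3]
  have t4 : 0 ≤ x ^ 2 * q := by positivity
  have t5 : 0 < x ^ 3 := by positivity
  nlinarith

lemma uM_main (p : ℕ) :
    uM L τ (cf 1 0) p = 2 * ((1 - Real.cos (τ * Real.log p)) / p) + er L p := by
  unfold uM
  have h := normW τ (Real.log p) (-1)
  have e : Complex.exp (((-(τ * Real.log p) : ℝ) : ℂ) * I) - cf 1 0 / 2 =
      ((-1 : ℝ) : ℂ) + Complex.exp (((-(τ * Real.log p) : ℝ) : ℂ) * I) := by
    simp only [cf, Matrix.cons_val_zero]; push_cast; ring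
  rw [e, h]
  ring

lemma uM_far (j : Fin 5) (p : ℕ) :
    uM L τ (cf 1 j) p ≤ uM L τ (cf 1 0) p + 16 * (1 / p) := by
  have h1 : ‖Complex.exp (((-(τ * Real.log p) : ℝ) : ℂ) * I) - cf 1 j / 2‖ ≤ 4 := by
    calc _ ≤ ‖Complex.exp (((-(τ * Real.log p) : ℝ) : ℂ) * I)‖ + ‖cf 1 j / 2‖ := norm_sub_le _ _
      _ ≤ 1 + 3 := by
          rw [Complex.norm_exp_ofReal_mul_I, norm_div, Complex.norm_ofNat]
          linarith [cf_norm (a := 1) (by norm_num) j]
      _ = 4 := by norm_num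
  have h2 : ‖Complex.exp (((-(τ * Real.log p) : ℝ) : ℂ) * I) - cf 1 j / 2‖ ^ 2 ≤ 16 := by
    nlinarith [norm_nonneg (Complex.exp (((-(τ * Real.log p) : ℝ) : ℂ) * I) - cf 1 j / 2)]
  have h3 : (0:ℝ) ≤ 1 / p := by positivity
  have h4 := mul_le_mul_of_nonneg_left h2 h3
  rw [uM_main]
  have c2 := Real.cos_le_one (τ * Real.log p)
  have h5 : 0 ≤ (1 - Real.cos (τ * Real.log p)) / p := div_nonneg (by linarith) (Nat.cast_nonneg _)
  unfold uM
  linarith

/-- the inverse of the Euler product -/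
def ZI (w : ℂ) (θ : Ix N → ℝ) : ℂ := ∏ p : Ix N, (1 - ub N w p * ec (θ p))

/-- the bound for the average over the torus -/
theorem tor_M (c A : ℝ) : ∃ C : ℝ, 0 < C ∧ ∀ (y L δ τ : ℝ) (z : ℂ) (N J Rs : ℕ),
    BL c y J → 1 ≤ Rs → Par L N z δ τ → Real.log y ≤ L → L ≤ A * Real.log y → y < N →
    ∫ θ, ‖ZI (wp δ τ) θ‖ ^ 2 * gt J 1 (RR Rs) (II y) θ ∂(TT N) ≤ C * (1 + L * |τ|) ^ 4 := by
  obtain ⟨C1, hC10, hC1⟩ := cos_sum
  obtain ⟨C2, hC20, hC2⟩ := gap_sum
  obtain ⟨C3, hC30, hC3⟩ := err_sum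
  refine ⟨Real.exp (1 * 144 + (Real.log (3 * A) + C2) + (C3 + 2 * C1) +
    (3 + 8 * Real.exp (16 * c)) * 2), Real.exp_pos _, ?_⟩
  intro y L δ τ z N J Rs hB hRs hP hyL hLy hyN
  have hy := hB.y1
  have hL := hP.L1
  have hR1 : ∀ i, 1 ≤ RR Rs i := fun i => by unfold RR; omega
  have hIsub : ∀ i < J, II y i ⊆ Nat.primesBelow N := by
    intro i _ p hp
    rw [mem_II] at hp
    rw [Nat.mem_primesBelow]
    refine ⟨?_, hp.1⟩
    have h1 : (p:ℝ) ≤ y := hp.2.2.2.trans (bb_le (by linarith) i)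
    have h2 : (p:ℝ) < N := lt_of_le_of_lt h1 hyN
    exact_mod_cast h2
  have hu1 : ∀ p : Ix N, ‖ub N (wp δ τ) p‖ ≤ 1 := fun p => by linarith [ub_lt hP p]
  have hmain := tor_gen (N := N) (h := fun p x => ‖1 - ub N (wp δ τ) p * ec x‖ ^ 2)
    (fun p => by have := ec_cont; fun_prop)
    (fun p x => by positivity)
    (Bh := fun _ => 4)
    (fun p x => by
      have h1 : ‖1 - ub N (wp δ τ) p * ec x‖ ≤ 2 := by
        refine (norm_sub_le _ _).trans ?_
        rw [norm_one, norm_mul, ec_norm, mul_one]; linarith [hu1 p]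
      have := pow_le_pow_left₀ (norm_nonneg _) h1 2
      linarith)
    (J := J) (Maj_cf (a := 1) (by norm_num)) hR1 hIsub hB.rg.dj
    (u0 := fun p => 1 / (p:ℝ)) (u1 := fun p j => uM L τ (cf 1 j) p)
    (fun p _ => out_primeM hP p)
    (fun p i hi hpi j => by
      have h144 : 144 ≤ p.1 := (hB.rg.pr i p.1 hpi).2.1
      exact big_primeM hP p h144 (cf_norm (by norm_num) j))
  have e0 : ∀ θ : Ix N → ℝ, (∏ p : Ix N, ‖1 - ub N (wp δ τ) p * ec (θ p)‖ ^ 2) * gt J 1 (RR Rs) (II y) θ =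
      ‖ZI (wp δ τ) θ‖ ^ 2 * gt J 1 (RR Rs) (II y) θ := by
    intro θ
    unfold ZI
    rw [norm_prod, prod_pow]
  simp_rw [e0] at hmain
  refine hmain.trans ?_
  -- first factor
  have F1 : ∑ p ∈ (Nat.primesBelow N).filter (fun p => ∀ i < J, p ∉ II y i), 1 / (p:ℝ) ≤
      1 * 144 + (Real.log (3 * A) + C2) := by
    rw [← sum_filter_add_sum_filter_not _ (fun p : ℕ => p < 144)]
    refine add_le_add ?_ ?_
    · calc _ ≤ ∑ p ∈ ((Nat.primesBelow N).filter (fun p => ∀ i < J, p ∉ II y i)).filter (fun p => p < 144), (1:ℝ) := by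
            refine sum_le_sum fun p hp => ?_
            rw [mem_filter, mem_filter] at hp
            have h1 := (Nat.mem_primesBelow.mp hp.1.1).2.one_lt.le
            rw [div_le_one (by exact_mod_cast (by omega : 0 < p))]
            exact_mod_cast h1
        _ ≤ _ := by
            rw [sum_const, nsmul_eq_mul, mul_comm]
            have hcard : (((Nat.primesBelow N).filter (fun p => ∀ i < J, p ∉ II y i)).filter (fun p => p < 144)).card ≤ 144 := by
              calc _ ≤ (range 144).card := card_le_card (fun p hp => by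
                    rw [mem_filter] at hp; exact mem_range.mpr hp.2)
                _ = 144 := card_range _
            have : ((((Nat.primesBelow N).filter (fun p => ∀ i < J, p ∉ II y i)).filter (fun p => p < 144)).card : ℝ) ≤ 144 := by
              exact_mod_cast hcard
            linarith
    · set S := ((Nat.primesBelow N).filter (fun p => ∀ i < J, p ∉ II y i)).filter (fun p : ℕ => ¬ p < 144) with hS
      have hSm : ∀ p ∈ S, p ∈ Nat.primesBelow N ∧ y < (p:ℝ) ∧ 144 ≤ p := by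
        intro p hp
        rw [hS, mem_filter, mem_filter] at hp
        refine ⟨hp.1.1, ?_, by omega⟩
        by_contra hcon
        push Not at hcon
        obtain ⟨i, hi, hpi⟩ := hB.cover (Nat.mem_primesBelow.mp hp.1.1).2 (by omega) hcon
        exact hp.1.2 i hi hpi
      have h2 : ∑ p ∈ S, 1 / (p:ℝ) ≤ ∑ p ∈ (Nat.primesBelow N).filter (fun p : ℕ => y < (p:ℝ)), (1:ℝ) / p := by
        refine sum_le_sum_of_subset_of_nonneg (fun p hp => ?_) fun p _ _ => by positivity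
        rw [mem_filter]; exact ⟨(hSm p hp).1, (hSm p hp).2.1⟩
      have h3 := hC2 y (by linarith) N L hL hP.hN (by linarith)
      have hly : 0 < Real.log y := Real.log_pos (by linarith)
      have h4 : Real.log (3 * L) - Real.log (Real.log y) ≤ Real.log (3 * A) := by
        rw [← Real.log_div (by positivity) hly.ne']
        refine Real.log_le_log (by positivity) ?_
        rw [div_le_iff₀ hly]; linarith
      linarith
  -- blocks
  have F2 : ∏ i ∈ range J, ∑ j : Fin 5, Af (RR Rs i) j * Real.exp (∑ p ∈ II y i, uM L τ (cf 1 j) p) ≤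
      Real.exp (∑ i ∈ range J, ∑ p ∈ II y i, uM L τ (cf 1 0) p) *
        Real.exp ((3 + 8 * Real.exp (16 * c)) * 2) := by
    calc _ ≤ ∏ i ∈ range J, (Real.exp (∑ p ∈ II y i, uM L τ (cf 1 0) p) *
        Real.exp ((3 + 8 * Real.exp (16 * c)) * Real.exp (-(RR Rs i:ℝ)))) := by
          refine prod_le_prod (fun i _ => sum_nonneg fun j _ => mul_nonneg (Af_nonneg _ _) (Real.exp_pos _).le) ?_
          intro i hi
          exact block_gen (by norm_num) (hB.rg.v i (mem_range.mp hi)) _ (fun p _ j => uM_far j p)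
      _ = Real.exp (∑ i ∈ range J, ∑ p ∈ II y i, uM L τ (cf 1 0) p) *
          Real.exp ((3 + 8 * Real.exp (16 * c)) * ∑ i ∈ range J, Real.exp (-(RR Rs i:ℝ))) := by
          rw [prod_mul_distrib, ← Real.exp_sum, ← Real.exp_sum, mul_sum]
      _ ≤ _ := by
          refine mul_le_mul_of_nonneg_left (Real.exp_le_exp.mpr ?_) (Real.exp_pos _).le
          have h1 := sum_exp_le J Rs (RR_ge Rs)
          have h2 : Real.exp (-(Rs:ℝ)) ≤ 1 := Real.exp_le_one_iff.mpr (by simp)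
          refine mul_le_mul_of_nonneg_left (by linarith) (by positivity)
  have F3 : ∑ i ∈ range J, ∑ p ∈ II y i, uM L τ (cf 1 0) p ≤
      (C3 + 2 * C1) + ((4:ℕ):ℝ) * Real.log (1 + L * |τ|) := by
    have hy1 : 1 ≤ y := by linarith
    have e1 : ∑ i ∈ range J, ∑ p ∈ II y i, uM L τ (cf 1 0) p =
        ∑ p ∈ PF y (bb y J), uM L τ (cf 1 0) p := sum_II hy1 _ J
    rw [e1]
    have h1 : ∑ p ∈ PF y (bb y J), uM L τ (cf 1 0) p = ∑ p ∈ PF y (bb y J),
        (2 * ((1 - Real.cos (τ * Real.log p)) / p) + er L p) := sum_congr rfl fun p _ => uM_main p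
    rw [h1, sum_add_distrib, ← mul_sum]
    have h7 := hC1 y (bb y J) τ L hy hyL
    have h8 : ∑ p ∈ PF y (bb y J), er L p ≤ C3 := by
      refine hC3 N L hL hP.hN _ fun p hp => ?_
      rw [mem_PF (by linarith)] at hp
      rw [Nat.mem_primesBelow]
      refine ⟨?_, hp.1⟩
      have : (p:ℝ) < N := lt_of_le_of_lt hp.2.2.2 hyN
      exact_mod_cast this
    push_cast
    linarith
  rw [← log_one_add (by linarith : 0 ≤ L) τ 4]
  calc _ ≤ Real.exp (1 * 144 + (Real.log (3 * A) + C2)) *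
      (Real.exp ((C3 + 2 * C1) + ((4:ℕ):ℝ) * Real.log (1 + L * |τ|)) *
        Real.exp ((3 + 8 * Real.exp (16 * c)) * 2)) := by
        refine mul_le_mul (Real.exp_le_exp.mpr F1) (F2.trans ?_) ?_ (Real.exp_pos _).le
        · exact mul_le_mul_of_nonneg_right (Real.exp_le_exp.mpr F3) (Real.exp_pos _).le
        · exact prod_nonneg fun i _ => sum_nonneg fun j _ => mul_nonneg (Af_nonneg _ _) (Real.exp_pos _).le
    _ = _ := by
        rw [← Real.exp_add, ← Real.exp_add, ← Real.exp_add]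
        congr 1
        ring

end

end Pool.Agent.Zk6
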