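import Pool.Agent.Zk6.B1
import Pool.Agent.TH806.Tor8

set_option autoImplicit false

/-!
The mollifier on the torus.
-/

namespace Pool.Agent.Zk6

open Finset MeasureTheory Complex
open Pool.Agent.W184.NZ
open Pool.Agent.TH806 (ec ec_norm ec_cont uu Ix TT Par ub ub_norm ub_lt wp BL gt gt_nonneg chi chi_one chi_mul chi_norm
  chi_prime chi_cont PP Pk int_chi mt mt_apply mt_norm_le mt_cont evt evt_apply evt_single evt_cont evt_GP evt_norm_le
  natCast_half ix_pos cu_out)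
open Pool.Agent.H448R2.GC (cu ker cs Ps cu_mellin ker_scale scale_integral scale_integrable ker_integrable ker_cont
  cu_zero cu_nonneg cu_le_one)

noncomputable section

variable {N : ℕ}

/-- `n^{-w} χ(n)` -/
def af (w : ℂ) (θ : Ix N → ℝ) : ArithmeticFunction ℂ :=
  ⟨fun n => if n = 0 then 0 else (n : ℂ) ^ (-w) * chi θ n, by simp⟩

lemma af_apply (w : ℂ) (θ : Ix N → ℝ) {n : ℕ} (hn : n ≠ 0) : af w θ n = (n : ℂ) ^ (-w) * chi θ n := by
  show (if n = 0 then 0 else (n : ℂ) ^ (-w) * chi θ n) = _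
  rw [if_neg hn]

lemma af_mult (w : ℂ) (θ : Ix N → ℝ) : (af w θ).IsMultiplicative := by
  rw [ArithmeticFunction.IsMultiplicative.iff_ne_zero]
  refine ⟨?_, fun {m n} hm hn _ => ?_⟩
  · rw [af_apply w θ one_ne_zero]; simp [chi_one]
  · rw [af_apply w θ hm, af_apply w θ hn, af_apply w θ (Nat.mul_ne_zero hm hn), chi_mul θ hm hn, Nat.cast_mul,
      Complex.natCast_mul_natCast_cpow]
    ring

/-- product of the primes below `N` -/
def PN (N : ℕ) : ℕ := ∏ p ∈ Nat.primesBelow N, p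

lemma PN_ne (N : ℕ) : PN N ≠ 0 := prod_ne_zero_iff.mpr fun p hp => (Nat.mem_primesBelow.mp hp).2.ne_zero

lemma PN_sq (N : ℕ) : Squarefree (PN N) := by
  refine Finset.squarefree_prod_of_pairwise_isCoprime (fun p hp q hq hpq ↦ ?_) fun p hp => ?_
  · have hp' := (Nat.mem_primesBelow.mp hp).2
    have hq' := (Nat.mem_primesBelow.mp hq).2
    exact Nat.coprime_iff_isRelPrime.1 ((Nat.coprime_primes hp' hq').2 hpq)
  · exact (Nat.mem_primesBelow.mp hp).2.squarefree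

lemma PN_pf (N : ℕ) : (PN N).primeFactors = Nat.primesBelow N :=
  Nat.primeFactors_prod fun _ hp => (Nat.mem_primesBelow.mp hp).2

lemma dvd_PN {N m : ℕ} (hm : Squarefree m) (hmN : m < N) : m ∣ PN N := by
  rw [← Nat.prod_primeFactors_of_squarefree hm]
  refine Finset.prod_dvd_prod_of_subset _ _ _ fun p hp => ?_
  have h := Nat.mem_primeFactors.mp hp
  exact Nat.mem_primesBelow.mpr ⟨lt_of_le_of_lt (Nat.le_of_dvd (Nat.pos_of_ne_zero h.2.2) h.2.1) hmN, h.1⟩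

lemma ZI_sum (w : ℂ) (θ : Ix N → ℝ) : ZI w θ =
    ∑ d ∈ (PN N).divisors, ((ArithmeticFunction.moebius d : ℤ) : ℂ) * ((d : ℂ) ^ (-w) * chi θ d) := by
  have h := ArithmeticFunction.IsMultiplicative.prodPrimeFactors_one_sub_of_squarefree (af w θ) (af_mult w θ) (PN_sq N)
  rw [PN_pf] at h
  have e1 : ZI w θ = ∏ p ∈ Nat.primesBelow N, (1 - af w θ p) := by
    unfold ZI
    rw [← Finset.prod_coe_sort (Nat.primesBelow N) (fun p => 1 - af w θ p)]
    refine prod_congr rfl fun p _ => ?_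
    rw [af_apply w θ (Nat.mem_primesBelow.mp p.2).2.ne_zero, chi_prime]
    rfl
  rw [e1, h]
  refine sum_congr rfl fun d hd => ?_
  rw [af_apply w θ (Nat.pos_of_mem_divisors hd).ne']

/-- the mollifier on the torus -/
def SMt (k : ℕ) (c D : ℝ) (w : ℂ) (θ : Ix N → ℝ) : ℂ :=
  ∑ m ∈ Icc 1 ⌊Real.exp (D + k * c)⌋₊, ((ArithmeticFunction.moebius m : ℤ) : ℂ) *
    ((cu k c (Real.log m - D) : ℂ) * ((m : ℂ) ^ (-w) * chi θ m))

/-- the integral representation -/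
theorem SMt_int {k : ℕ} (hk : 1 ≤ k) {c D x : ℝ} (hc : 0 < c) (hx : 0 < x) (w : ℂ)
    (hN : ⌊Real.exp (D + k * c)⌋₊ < N) (θ : Ix N → ℝ) :
    SMt k c D w θ = (1 / (2 * Real.pi)) * ∫ v : ℝ, ker k c D x v * ZI (w + ((x : ℂ) + (v : ℂ) * I)) θ := by
  have hki := ker_integrable k hk c D x hc hx.ne'
  -- each term
  have hterm : ∀ m : ℕ, 1 ≤ m → (cu k c (Real.log m - D) : ℂ) * ((m : ℂ) ^ (-w) * chi θ m) =
      (1 / (2 * Real.pi)) * ∫ v : ℝ, ker k c D x v * ((m : ℂ) ^ (-(w + ((x : ℂ) + (v : ℂ) * I))) * chi θ m) := by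
    intro m hm
    have hm0 : (m : ℂ) ≠ 0 := by exact_mod_cast (by omega : m ≠ 0)
    rw [cu_mellin k hk c hc x hx, mul_assoc, ← integral_mul_const]
    congr 1
    refine integral_congr_ae (Filter.Eventually.of_forall fun v => ?_)
    simp only
    rw [Pool.Agent.H448R2.GC.M0.ker_shift k c D x v m hm, neg_add w, Complex.cpow_add _ _ hm0]
    ring
  have hint : ∀ m : ℕ, 1 ≤ m → Integrable (fun v : ℝ => ker k c D x v *
      ((m : ℂ) ^ (-(w + ((x : ℂ) + (v : ℂ) * I))) * chi θ m)) := by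
    intro m hm
    have hm0 : (m : ℂ) ≠ 0 := by exact_mod_cast (by omega : m ≠ 0)
    have hcn : Continuous fun v : ℝ => (m : ℂ) ^ (-(w + ((x : ℂ) + (v : ℂ) * I))) * chi θ m := by
      refine Continuous.mul ?_ continuous_const
      exact Continuous.const_cpow (by fun_prop) (Or.inl hm0)
    refine (hki.mul_bdd (c := (m : ℝ) ^ (-(w.re + x))) hcn.aestronglyMeasurable
      (Filter.Eventually.of_forall fun v => ?_))
    rw [norm_mul, chi_norm, mul_one, Complex.norm_natCast_cpow_of_pos (by omega), Complex.neg_re]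
    have : (w + ((x : ℂ) + (v : ℂ) * I)).re = w.re + x := by simp
    rw [this]
  have hval : ∀ v : ℝ, ker k c D x v * ZI (w + ((x : ℂ) + (v : ℂ) * I)) θ =
      ∑ d ∈ (PN N).divisors, ((ArithmeticFunction.moebius d : ℤ) : ℂ) * (ker k c D x v *
      ((d : ℂ) ^ (-(w + ((x : ℂ) + (v : ℂ) * I))) * chi θ d)) := by
    intro v
    rw [ZI_sum, mul_sum]
    refine sum_congr rfl fun d _ => ?_
    ring
  simp_rw [hval]
  rw [integral_finsetSum _ fun d hd => (hint d (Nat.pos_of_mem_divisors hd)).const_mul _, mul_sum]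
  have e1 : ∀ d ∈ (PN N).divisors, (1 / (2 * Real.pi) : ℂ) * ∫ v : ℝ, ((ArithmeticFunction.moebius d : ℤ) : ℂ) *
      (ker k c D x v * ((d : ℂ) ^ (-(w + ((x : ℂ) + (v : ℂ) * I))) * chi θ d)) =
      ((ArithmeticFunction.moebius d : ℤ) : ℂ) *
        ((cu k c (Real.log d - D) : ℂ) * ((d : ℂ) ^ (-w) * chi θ d)) := by
    intro d hd
    rw [integral_const_mul, hterm d (Nat.pos_of_mem_divisors hd)]
    ring
  rw [sum_congr rfl e1]
  unfold SMt
  -- compare the two index sets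
  have s1 : ∑ m ∈ Icc 1 ⌊Real.exp (D + k * c)⌋₊, ((ArithmeticFunction.moebius m : ℤ) : ℂ) *
      ((cu k c (Real.log m - D) : ℂ) * ((m : ℂ) ^ (-w) * chi θ m)) =
      ∑ m ∈ (PN N).divisors ∩ Icc 1 ⌊Real.exp (D + k * c)⌋₊, ((ArithmeticFunction.moebius m : ℤ) : ℂ) *
      ((cu k c (Real.log m - D) : ℂ) * ((m : ℂ) ^ (-w) * chi θ m)) := by
    symm
    refine sum_subset inter_subset_right fun m hm hm2 => ?_
    rw [Finset.mem_Icc] at hm
    have h1 : ¬ Squarefree m := by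
      intro hsq
      apply hm2
      rw [mem_inter, Nat.mem_divisors, Finset.mem_Icc]
      exact ⟨⟨dvd_PN hsq (by omega), PN_ne N⟩, hm⟩
    rw [ArithmeticFunction.moebius_eq_zero_of_not_squarefree h1]
    simp
  rw [s1]
  refine sum_subset inter_subset_left fun m hm hm2 => ?_
  have hm0 := Nat.pos_of_mem_divisors hm
  have h1 : m ∉ Icc 1 ⌊Real.exp (D + k * c)⌋₊ := fun h => hm2 (mem_inter.mpr ⟨hm, h⟩)
  rw [cu_out hc hm0.ne' h1]
  simp

/-- a bound of the product -/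
lemma ZI_bdd : ∃ B : ℝ, 0 ≤ B ∧ ∀ (w : ℂ), 0 ≤ w.re → ∀ θ : Ix N → ℝ, ‖ZI w θ‖ ≤ B := by
  refine ⟨∏ p : Ix N, 2, by positivity, ?_⟩
  intro w hw θ
  unfold ZI
  rw [norm_prod]
  refine prod_le_prod (fun _ _ => norm_nonneg _) fun p _ => ?_
  have h1 : ‖ub N w p‖ ≤ 1 := by
    rw [ub_norm]
    exact Real.rpow_le_one_of_one_le_of_nonpos
      (by exact_mod_cast (Nat.mem_primesBelow.mp p.2).2.one_lt.le) (by linarith)
  refine (norm_sub_le _ _).trans ?_
  rw [norm_one, norm_mul, ec_norm, mul_one]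
  linarith

lemma ZI_cont (w : ℂ) : Continuous fun vθ : ℝ × (Ix N → ℝ) => ZI (w + (vθ.1 : ℂ) * I) vθ.2 := by
  unfold ZI
  refine continuous_finsetProd _ fun p _ => ?_
  refine continuous_const.sub (Continuous.mul ?_ (ec_cont.comp ((continuous_apply p).comp continuous_snd)))
  unfold ub
  have hp0 : ((p.1 : ℕ) : ℂ) ≠ 0 := by exact_mod_cast (ix_pos p).ne'
  exact Continuous.const_cpow (by fun_prop) (Or.inl hp0)

/-- Cauchy and Schwarz -/
theorem SMt_sq (η B : ℝ) (k : ℕ) (hη : 0 < η) (hB : 1 ≤ B) (hk : 1 ≤ k) : ∃ C : ℝ, 0 < C ∧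
    ∀ (L D : ℝ) (w : ℂ) (N : ℕ) (θ : Ix N → ℝ), 1 ≤ L → |D| ≤ B * L → 0 ≤ w.re → ⌊Real.exp (D + η * L)⌋₊ < N →
    ‖SMt k (η * L / k) D w θ‖ ^ 2 ≤ C * ∫ v : ℝ, L / (1 + L * |v|) ^ (k + 1) *
      ‖ZI (w + (((1 / L : ℝ) : ℂ) + (v : ℂ) * I)) θ‖ ^ 2 := by
  obtain ⟨C, hC0, hC⟩ := ker_scale η B k hη (by linarith) hk
  refine ⟨2 * C ^ 2, by positivity, ?_⟩
  intro L D w N θ hL hD hw hN
  have hkp : (0:ℝ) < k := by exact_mod_cast hk
  have hc : 0 < η * L / k := by positivity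
  have hx : 0 < 1 / L := by positivity
  have hkc : (k:ℝ) * (η * L / k) = η * L := by field_simp
  rw [← hkc] at hN
  rw [SMt_int hk hc hx w hN θ]
  set c := η * L / k with hcdef
  set Z : ℝ → ℂ := fun v => ZI (w + (((1 / L : ℝ) : ℂ) + (v : ℂ) * I)) θ with hZ
  obtain ⟨B0, hB00, hB0⟩ := ZI_bdd (N := N)
  have hZb : ∀ v, ‖Z v‖ ≤ B0 := fun v => hB0 _ (by
    have : (w + (((1 / L : ℝ) : ℂ) + (v : ℂ) * I)).re = w.re + 1 / L := by simp
    rw [this]; linarith) θ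
  have hZc : Continuous Z := by
    have h1 := (ZI_cont (N := N) (w + ((1 / L : ℝ) : ℂ))).comp
      (Continuous.prodMk continuous_id (continuous_const (y := θ)))
    refine h1.congr fun v => ?_
    simp only [hZ, Function.comp, id]
    congr 1; ring
  have hg := scale_integrable L (k + 1) hL (by omega)
  have hg0 : ∀ v : ℝ, 0 ≤ L / (1 + L * |v|) ^ (k + 1) := fun v => by
    have : 0 ≤ L * |v| := by positivity
    positivity
  have h1 : ‖∫ v : ℝ, ker k c D (1 / L) v * Z v‖ ≤ C * ∫ v : ℝ, L / (1 + L * |v|) ^ (k + 1) * ‖Z v‖ := by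
    rw [← integral_const_mul]
    refine norm_integral_le_of_norm_le ?_ (Filter.Eventually.of_forall fun v => ?_)
    · refine Integrable.const_mul ?_ _
      exact hg.mul_bdd (c := B0) hZc.norm.aestronglyMeasurable (Filter.Eventually.of_forall fun v => by
        rw [norm_norm]; exact hZb v)
    · rw [norm_mul, ← mul_assoc]
      refine mul_le_mul_of_nonneg_right ?_ (norm_nonneg _)
      refine hC L D (1 / L) v hL hD (by rw [abs_of_pos hx]) ?_
      rw [abs_of_pos hx]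
      exact div_le_div_of_nonneg_right hB (by linarith)
  have h2 := Pool.Agent.H448R2.GC.M0.cs_weight (fun v => L / (1 + L * |v|) ^ (k + 1)) (fun v => ‖Z v‖) hg0 hg
    (hg.mul_bdd (c := B0) hZc.norm.aestronglyMeasurable (Filter.Eventually.of_forall fun v => by
        rw [norm_norm]; exact hZb v))
    (hg.mul_bdd (c := B0 ^ 2) (hZc.norm.pow 2).aestronglyMeasurable (Filter.Eventually.of_forall fun v => by
        rw [norm_pow, norm_norm]; exact pow_le_pow_left₀ (norm_nonneg _) (hZb v) 2))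
  have h3 := scale_integral L (k + 1) hL (by omega)
  have h4 : 0 ≤ ∫ v : ℝ, L / (1 + L * |v|) ^ (k + 1) * ‖Z v‖ ^ 2 :=
    integral_nonneg fun v => mul_nonneg (hg0 v) (sq_nonneg _)
  have h5 : ‖(1 / (2 * Real.pi) : ℂ)‖ ≤ 1 := by
    rw [norm_div, norm_one, norm_mul, Complex.norm_ofNat, Complex.norm_real, Real.norm_eq_abs,
      abs_of_pos Real.pi_pos, div_le_one (by positivity)]
    have := Real.pi_gt_three
    linarith
  have h6 : 0 ≤ ∫ v : ℝ, L / (1 + L * |v|) ^ (k + 1) * ‖Z v‖ := integral_nonneg fun v => mul_nonneg (hg0 v) (norm_nonneg _)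
  calc ‖(1 / (2 * Real.pi) : ℂ) * ∫ v : ℝ, ker k c D (1 / L) v * Z v‖ ^ 2 =
      (‖(1 / (2 * Real.pi) : ℂ)‖ * ‖∫ v : ℝ, ker k c D (1 / L) v * Z v‖) ^ 2 := by rw [norm_mul]
    _ ≤ (1 * (C * ∫ v : ℝ, L / (1 + L * |v|) ^ (k + 1) * ‖Z v‖)) ^ 2 := by gcongr
    _ = C ^ 2 * (∫ v : ℝ, L / (1 + L * |v|) ^ (k + 1) * ‖Z v‖) ^ 2 := by ring
    _ ≤ C ^ 2 * (2 * ∫ v : ℝ, L / (1 + L * |v|) ^ (k + 1) * ‖Z v‖ ^ 2) := by
        refine mul_le_mul_of_nonneg_left (h2.trans ?_) (by positivity)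
        exact mul_le_mul_of_nonneg_right h3 h4
    _ = _ := by ring

/-- integrability of the main integrand -/
lemma fub_ZI {L : ℝ} (hL : 1 ≤ L) {k : ℕ} (hk : 1 ≤ k) {w : ℂ} (hw : 0 ≤ w.re) {Φ : (Ix N → ℝ) → ℝ} (hΦ : Continuous Φ)
    {B : ℝ} (hB : ∀ θ, |Φ θ| ≤ B) :
    Integrable (fun q : (Ix N → ℝ) × ℝ => Φ q.1 * (L / (1 + L * |q.2|) ^ (k + 1) * ‖ZI (w + (q.2 : ℂ) * I) q.1‖ ^ 2))
      ((TT N).prod volume) := by
  obtain ⟨B0, hB00, hB0⟩ := ZI_bdd (N := N)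
  have hg := scale_integrable L (k + 1) hL (by omega)
  have hdom : Integrable (fun q : (Ix N → ℝ) × ℝ => (B * B0 ^ 2) * (L / (1 + L * |q.2|) ^ (k + 1)))
      ((TT N).prod volume) := (integrable_const (B * B0 ^ 2)).mul_prod hg
  have hB1 : 0 ≤ B := (abs_nonneg _).trans (hB 0)
  refine hdom.mono' ?_ (Filter.Eventually.of_forall fun q => ?_)
  · refine Continuous.aestronglyMeasurable ?_
    have h1 : Continuous ((fun vθ : ℝ × (Ix N → ℝ) => ZI (w + (vθ.1 : ℂ) * I) vθ.2) ∘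
        (Prod.swap : (Ix N → ℝ) × ℝ → ℝ × (Ix N → ℝ))) :=
      Continuous.comp (ZI_cont (N := N) w) continuous_swap
    have h2 : Continuous fun q : (Ix N → ℝ) × ℝ => L / (1 + L * |q.2|) ^ (k + 1) := by
      refine Continuous.div continuous_const (by fun_prop) fun q => ?_
      have : 0 ≤ L * |q.2| := by positivity
      positivity
    exact (hΦ.comp continuous_fst).mul (h2.mul (h1.norm.pow 2))
  · have h0 : 0 ≤ L * |q.2| := by positivity
    rw [norm_mul, norm_mul, norm_pow, norm_norm, Real.norm_eq_abs, Real.norm_eq_abs,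
      abs_of_nonneg (a := L / (1 + L * |q.2|) ^ (k + 1)) (by positivity)]
    have h3 : ‖ZI (w + (q.2 : ℂ) * I) q.1‖ ^ 2 ≤ B0 ^ 2 :=
      pow_le_pow_left₀ (norm_nonneg _) (hB0 _ (by simpa using hw) _) 2
    calc |Φ q.1| * (L / (1 + L * |q.2|) ^ (k + 1) * ‖ZI (w + (q.2 : ℂ) * I) q.1‖ ^ 2) ≤
        B * (L / (1 + L * |q.2|) ^ (k + 1) * B0 ^ 2) := by
          have := hB q.1
          gcongr
      _ = _ := by ring

/-- the average of the square of the mollifier against the product -/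
theorem avgM (c A η B : ℝ) (k : ℕ) (hη : 0 < η) (hB : 1 ≤ B) (hk : 5 ≤ k) :
    ∃ C : ℝ, 0 < C ∧ ∀ (y L D : ℝ) (N J Rs M : ℕ),
    BL c y J → 1 ≤ Rs → (∀ p : ℕ, p < N → Real.log p ≤ 3 * L) → 1 ≤ L →
    Real.log y ≤ L → L ≤ A * Real.log y → y < N → |D| ≤ B * L →
    Bd M (GP J 1 (RR Rs) (II y)) → ⌊Real.exp (D + η * L)⌋₊ < N →
    ∫ θ, ‖SMt k (η * L / k) D (1 / 2) θ‖ ^ 2 * gt J 1 (RR Rs) (II y) θ ∂(TT N) ≤ C := by
  obtain ⟨C1, hC10, hC1⟩ := SMt_sq η B k hη hB (by omega)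
  obtain ⟨C2, hC20, hC2⟩ := tor_M c A
  refine ⟨C1 * (C2 * 2), by positivity, ?_⟩
  intro y L D N J Rs M hBL hRs hN hL hyL hLy hyN hD hBd hMN
  set w : ℂ := 1 / 2 with hw
  have hwre : w.re = 1 / 2 := by rw [hw]; simp
  have hL0 : 0 < L := by linarith
  have hLinv : 0 < 1 / L := by positivity
  have h2L : 1 / L ≤ 2 / L := by
    have : 2 / L = 1 / L + 1 / L := by ring
    linarith
  have hPar : ∀ τ : ℝ, Par L N 0 (1 / L) τ := fun τ =>
    ⟨hL, hN, by rw [norm_zero]; positivity, by positivity, h2L⟩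
  have hpr : ∀ i, ∀ p ∈ II y i, p.Prime := fun i p hp => (hBL.rg.pr i p hp).1
  set G := GP J 1 (RR Rs) (II y) with hG
  have hev : ∀ θ : Ix N → ℝ, evt θ G = ((gt J 1 (RR Rs) (II y) θ : ℝ) : ℂ) := fun θ => evt_GP θ J _ _ hpr
  set Φ : (Ix N → ℝ) → ℝ := fun θ => gt J 1 (RR Rs) (II y) θ with hΦ
  have hΦc : Continuous Φ := by
    have h1 := Complex.continuous_re.comp (evt_cont (N := N) G)
    refine h1.congr fun θ => ?_
    simp only [Function.comp]
    rw [hev θ, Complex.ofReal_re]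
  have hΦb : ∀ θ, |Φ θ| ≤ l1 G := by
    intro θ
    have h1 := evt_norm_le hBd θ
    rw [hev θ, Complex.norm_real, Real.norm_eq_abs] at h1
    exact h1
  have hΦ0 : ∀ θ, 0 ≤ Φ θ := fun θ => gt_nonneg _ _ _ _ _
  have hw1 : 0 ≤ (w + ((1 / L : ℝ) : ℂ)).re := by rw [Complex.add_re, Complex.ofReal_re, hwre]; linarith
  have hfub := fub_ZI (N := N) hL (k := k) (by omega) hw1 hΦc hΦb
  have hSF : ∀ θ : Ix N → ℝ, ‖SMt k (η * L / k) D w θ‖ ^ 2 ≤ C1 * ∫ v : ℝ, L / (1 + L * |v|) ^ (k + 1) *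
      ‖ZI (w + ((1 / L : ℝ) : ℂ) + (v : ℂ) * I) θ‖ ^ 2 := by
    intro θ
    have h1 := hC1 L D w N θ hL hD (by rw [hwre]; norm_num) hMN
    simp_rw [add_assoc w]
    exact h1
  have step1 : ∫ θ, ‖SMt k (η * L / k) D w θ‖ ^ 2 * gt J 1 (RR Rs) (II y) θ ∂(TT N) ≤
      ∫ θ, (C1 * (∫ v : ℝ, Φ θ * (L / (1 + L * |v|) ^ (k + 1) *
        ‖ZI (w + ((1 / L : ℝ) : ℂ) + (v : ℂ) * I) θ‖ ^ 2))) ∂(TT N) := by
    refine integral_mono_of_nonneg (Filter.Eventually.of_forall fun θ =>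
      mul_nonneg (sq_nonneg _) (hΦ0 θ)) (hfub.integral_prod_left.const_mul _)
      (Filter.Eventually.of_forall fun θ => ?_)
    simp only
    rw [integral_const_mul]
    calc ‖SMt k (η * L / k) D w θ‖ ^ 2 * gt J 1 (RR Rs) (II y) θ =
        Φ θ * ‖SMt k (η * L / k) D w θ‖ ^ 2 := by rw [hΦ]; ring
      _ ≤ Φ θ * (C1 * ∫ v : ℝ, L / (1 + L * |v|) ^ (k + 1) *
          ‖ZI (w + ((1 / L : ℝ) : ℂ) + (v : ℂ) * I) θ‖ ^ 2) := mul_le_mul_of_nonneg_left (hSF θ) (hΦ0 θ)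
      _ = _ := by ring
  refine step1.trans ?_
  rw [integral_const_mul]
  refine mul_le_mul_of_nonneg_left ?_ hC10.le
  rw [integral_integral_swap hfub]
  have step2 : ∀ v : ℝ, ∫ θ, Φ θ * (L / (1 + L * |v|) ^ (k + 1) *
        ‖ZI (w + ((1 / L : ℝ) : ℂ) + (v : ℂ) * I) θ‖ ^ 2) ∂(TT N) ≤
      C2 * (L / (1 + L * |v|) ^ (k - 3)) := by
    intro v
    have h0 : 0 ≤ L * |v| := by positivity
    have e1 : ∀ θ : Ix N → ℝ, Φ θ * (L / (1 + L * |v|) ^ (k + 1) * ‖ZI (w + ((1 / L : ℝ) : ℂ) + (v : ℂ) * I) θ‖ ^ 2) =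
        (L / (1 + L * |v|) ^ (k + 1)) * (‖ZI (wp (1 / L) v) θ‖ ^ 2 * gt J 1 (RR Rs) (II y) θ) := by
      intro θ
      have : w + ((1 / L : ℝ) : ℂ) + (v : ℂ) * I = wp (1 / L) v := by
        rw [hw]; unfold wp; push_cast; ring
      rw [this, hΦ]; ring
    simp_rw [e1]
    rw [integral_const_mul]
    have h1 := hC2 y L (1 / L) v 0 N J Rs hBL hRs (hPar _) hyL hLy hyN
    have h3 : 0 ≤ L / (1 + L * |v|) ^ (k + 1) := by positivity
    calc L / (1 + L * |v|) ^ (k + 1) * _ ≤ L / (1 + L * |v|) ^ (k + 1) * (C2 * (1 + L * |v|) ^ 4) :=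
          mul_le_mul_of_nonneg_left h1 h3
      _ = _ := by
          have hsp : (1 + L * |v|) ^ (k + 1) = (1 + L * |v|) ^ (k - 3) * (1 + L * |v|) ^ 4 := by
            rw [← pow_add]; congr 1; omega
          rw [hsp]
          field_simp
  have hgk := scale_integrable L (k - 3) hL (by omega)
  have hg2 := scale_integral L (k - 3) hL (by omega)
  calc ∫ v : ℝ, ∫ θ, Φ θ * (L / (1 + L * |v|) ^ (k + 1) *
        ‖ZI (w + ((1 / L : ℝ) : ℂ) + (v : ℂ) * I) θ‖ ^ 2) ∂(TT N) ≤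
      ∫ v : ℝ, C2 * (L / (1 + L * |v|) ^ (k - 3)) := by
        refine integral_mono_of_nonneg (Filter.Eventually.of_forall fun v => ?_) (hgk.const_mul _)
          (Filter.Eventually.of_forall step2)
        refine integral_nonneg fun θ => mul_nonneg (hΦ0 θ) (mul_nonneg ?_ (sq_nonneg _))
        have h0 : 0 ≤ L * |v| := by positivity
        positivity
    _ ≤ C2 * 2 := by
        rw [integral_const_mul]
        exact mul_le_mul_of_nonneg_left hg2 hC20.le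

end

end Pool.Agent.Zk6
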