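import Pool.Agent.Zk6.B2
import Pool.Agent.TH806.Om

set_option autoImplicit false

/-!
The mollifier as an element of the algebra, and the mean value over a window.
-/

namespace Pool.Agent.Zk6

open Finset Filter MeasureTheory Complex
open Pool.Agent.W184.NZ
open Pool.Agent.TH806 (Ix TT BL gt gt_nonneg chi chi_one chi_norm PP Pk int_chi mt mt_apply mt_norm_le mt_cont evt
  evt_apply evt_single evt_cont evt_GP evt_norm_le natCast_half om_int0 om_mass om_cos log_sub_ge)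
open Pool.Agent.H306R2.SM (om cl Yf)
open Pool.Agent.H262R4.TM (Rng Ck)
open Pool.Agent.H448R2.GC (cu fs cu_nonneg cu_le_one)

noncomputable section

/-- the coefficients of the mollifier -/
def mm (k : ℕ) (c D : ℝ) (m : ℕ) : ℝ := ((ArithmeticFunction.moebius m : ℤ) : ℝ) * cu k c (Real.log m - D)

lemma mm_abs (k : ℕ) {c : ℝ} (hc : 0 < c) (D : ℝ) (m : ℕ) : |mm k c D m| ≤ 1 := by
  unfold mm
  rw [abs_mul, abs_of_nonneg (cu_nonneg k c _ hc)]
  have h1 : |((ArithmeticFunction.moebius m : ℤ) : ℝ)| ≤ 1 := by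
    have := ArithmeticFunction.abs_moebius_le_one (n := m)
    exact_mod_cast this
  calc _ ≤ 1 * 1 := mul_le_mul h1 (cu_le_one k c _ hc) (cu_nonneg k c _ hc) zero_le_one
    _ = 1 := one_mul 1

/-- the mollifier -/
def mD (k : ℕ) (c D : ℝ) : DA :=
  ∑ m ∈ Icc 1 ⌊Real.exp (D + k * c)⌋₊, MonoidAlgebra.single (m, 1) (mm k c D m)

/-- its conjugate -/
def mC (k : ℕ) (c D : ℝ) : DA :=
  ∑ m ∈ Icc 1 ⌊Real.exp (D + k * c)⌋₊, MonoidAlgebra.single (1, m) (mm k c D m)

lemma ev_mD (k : ℕ) (c D t : ℝ) : ev t (mD k c D) = fs k c D (1 / 2 + t * I) := by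
  unfold mD fs
  rw [map_sum]
  refine sum_congr rfl fun m _ => ?_
  rw [ev_single]
  have : mh t (m, 1) = (m : ℂ) ^ (-(1 / 2 + t * I)) := by simp [mh]
  rw [this]
  unfold mm
  push_cast
  ring

lemma conj_half (t : ℝ) : (starRingEnd ℂ) (-(1 / 2 + (t:ℂ) * I)) = -(1 / 2 - (t:ℂ) * I) := by
  rw [map_neg, map_add, map_mul, Complex.conj_ofReal, Complex.conj_I, map_div₀, map_one, map_ofNat]
  ring

lemma ev_mC (k : ℕ) (c D t : ℝ) : ev t (mC k c D) = (starRingEnd ℂ) (fs k c D (1 / 2 + t * I)) := by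
  unfold mC fs
  rw [map_sum, map_sum]
  refine sum_congr rfl fun m hm => ?_
  rw [Finset.mem_Icc] at hm
  rw [ev_single]
  have : mh t (1, m) = (starRingEnd ℂ) ((m : ℂ) ^ (-(1 / 2 + t * I))) := by
    rw [← natCast_cpow_conj m (by omega), conj_half]
    simp [mh]
  rw [this]
  unfold mm
  rw [map_mul, map_mul, Complex.conj_ofReal, map_intCast]
  push_cast
  ring

variable {N : ℕ}

lemma evt_mD (k : ℕ) (c D : ℝ) (θ : Ix N → ℝ) : evt θ (mD k c D) = SMt k c D (1 / 2) θ := by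
  unfold mD SMt
  rw [map_sum]
  refine sum_congr rfl fun m _ => ?_
  rw [evt_single, mt_apply]
  have : (((1:ℕ) : ℂ)) ^ (-(1 / 2) : ℂ) = 1 := by simp
  simp only [this, chi_one, map_one, mul_one]
  unfold mm
  push_cast
  ring

lemma evt_mC (k : ℕ) (c D : ℝ) (θ : Ix N → ℝ) : evt θ (mC k c D) = (starRingEnd ℂ) (SMt k c D (1 / 2) θ) := by
  unfold mC SMt
  rw [map_sum, map_sum]
  refine sum_congr rfl fun m hm => ?_
  rw [Finset.mem_Icc] at hm
  rw [evt_single, mt_apply]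
  have h1 : (((1:ℕ) : ℂ)) ^ (-(1 / 2) : ℂ) = 1 := by simp
  have hm0 : m ≠ 0 := by omega
  simp only [h1, chi_one, one_mul]
  rw [natCast_half hm0]
  unfold mm
  rw [map_mul, map_mul, map_mul, Complex.conj_ofReal, Complex.conj_ofReal, map_intCast]
  push_cast
  ring

/-- the orthogonality relation -/
lemma int_mt0 {x : ℕ × ℕ} (h1 : x.1 ≠ 0) (h2 : x.2 ≠ 0) (hN1 : x.1 < N) (hN2 : x.2 < N) :
    ∫ θ, mt θ x ∂(TT N) = ((w0 x : ℝ) : ℂ) := by
  have h := int_chi (N := N) (a := fun _ => 0) (fun _ => by simp) x.1 x.2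
  have hP : ∀ θ : Ix N → ℝ, PP (fun _ => 0) θ = 1 := by
    intro θ
    unfold PP Pk
    simp
  simp_rw [hP, mul_one] at h
  have e1 : ∀ θ : Ix N → ℝ, mt θ x = (x.1 : ℂ) ^ (-(1 / 2) : ℂ) * (x.2 : ℂ) ^ (-(1 / 2) : ℂ) *
      (chi θ x.1 * (starRingEnd ℂ) (chi θ x.2)) := fun θ => mt_apply θ x
  simp_rw [e1]
  rw [integral_const_mul, h]
  unfold w0
  by_cases hx : x.1 = x.2
  · rw [if_pos hx, hx]
    have e2 : ∏ p : Ix N, (0:ℂ) ^ (((x.2.factorization p.1 : ℤ) - x.2.factorization p.1).natAbs) = 1 := by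
      refine prod_eq_one fun p _ => ?_
      rw [sub_self, Int.natAbs_zero, pow_zero]
    rw [e2, mul_one, natCast_half h2, ← Complex.ofReal_mul, ← Real.exp_add]
    congr 1
    have hx0 : (0:ℝ) < x.2 := by exact_mod_cast Nat.pos_of_ne_zero h2
    have e3 : -(1 / 2) * Real.log x.2 + -(1 / 2) * Real.log x.2 = -Real.log x.2 := by ring
    rw [e3, Real.exp_neg, Real.exp_log hx0, one_div]
  · rw [if_neg hx]
    have h3 : ∃ p : ℕ, x.1.factorization p ≠ x.2.factorization p := by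
      by_contra hcon
      push Not at hcon
      exact hx (Nat.eq_of_factorization_eq h1 h2 hcon)
    obtain ⟨p, hp⟩ := h3
    have hpp : p.Prime := by
      by_contra hnp
      apply hp
      rw [Nat.factorization_eq_zero_of_not_prime _ hnp, Nat.factorization_eq_zero_of_not_prime _ hnp]
    have hpN : p < N := by
      by_contra hge
      push Not at hge
      apply hp
      rw [Nat.factorization_eq_zero_of_lt (by omega), Nat.factorization_eq_zero_of_lt (by omega)]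
    have e2 : ∏ q : Ix N, (0:ℂ) ^ (((x.1.factorization q.1 : ℤ) - x.2.factorization q.1).natAbs) = 0 := by
      refine prod_eq_zero (mem_univ (⟨p, Nat.mem_primesBelow.mpr ⟨hpN, hpp⟩⟩ : Ix N)) ?_
      refine zero_pow ?_
      simp only
      omega
    rw [e2, mul_zero, Complex.ofReal_zero]

/-- the diagonal functional is an average over the torus -/
lemma lam_w0_int {M : ℕ} {F : DA} (hF : Bd M F) (hN : M < N) :
    ((lam w0 F : ℝ) : ℂ) = ∫ θ, evt θ F ∂(TT N) := by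
  simp_rw [evt_apply]
  have hlt : ∀ x ∈ F.coeff.support, (x.1 ≠ 0 ∧ x.2 ≠ 0) ∧ x.1 < N ∧ x.2 < N := by
    intro x hx
    obtain ⟨h0, h3, h4⟩ := hF x hx
    have h3' : x.1 ≤ M := by exact_mod_cast h3
    have h4' : x.2 ≤ M := by exact_mod_cast h4
    exact ⟨h0, by omega, by omega⟩
  rw [integral_finsetSum _ fun x hx => ?_]
  · rw [lam_apply, Finsupp.sum, Complex.ofReal_sum]
    refine sum_congr rfl fun x hx => ?_
    obtain ⟨⟨h1, h2⟩, h3, h4⟩ := hlt x hx
    rw [integral_const_mul, int_mt0 h1 h2 h3 h4]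
    push_cast; ring
  · obtain ⟨⟨h1, h2⟩, h3, h4⟩ := hlt x hx
    refine Integrable.const_mul ?_ _
    refine Integrable.of_bound (C := 1) (mt_cont x).aestronglyMeasurable
      (Filter.Eventually.of_forall fun θ => mt_norm_le θ h1 h2)

lemma Bd_mD (k : ℕ) (c D : ℝ) : Bd ((⌊Real.exp (D + k * c)⌋₊ : ℕ) : ℝ) (mD k c D) := by
  unfold mD
  refine Bd.sum fun m hm => ?_
  rw [Finset.mem_Icc] at hm
  refine Bd.single ⟨⟨?_, one_ne_zero⟩, ?_, ?_⟩ _
  · simp only; omega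
  · exact_mod_cast hm.2
  · simp only; exact_mod_cast (by omega : 1 ≤ ⌊Real.exp (D + k * c)⌋₊)

lemma Bd_mC (k : ℕ) (c D : ℝ) : Bd ((⌊Real.exp (D + k * c)⌋₊ : ℕ) : ℝ) (mC k c D) := by
  unfold mC
  refine Bd.sum fun m hm => ?_
  rw [Finset.mem_Icc] at hm
  refine Bd.single ⟨⟨one_ne_zero, ?_⟩, ?_, ?_⟩ _
  · simp only; omega
  · simp only; exact_mod_cast (by omega : 1 ≤ ⌊Real.exp (D + k * c)⌋₊)
  · exact_mod_cast hm.2

lemma l1_mD (k : ℕ) {c : ℝ} (hc : 0 < c) (D : ℝ) : l1 (mD k c D) ≤ Real.exp (D + k * c) := by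
  unfold mD
  refine (l1_sum _ _).trans ?_
  calc _ ≤ ∑ m ∈ Icc 1 ⌊Real.exp (D + k * c)⌋₊, (1:ℝ) := by
        refine sum_le_sum fun m _ => ?_
        rw [l1_single]; exact mm_abs k hc D m
    _ = (⌊Real.exp (D + k * c)⌋₊ : ℝ) := by simp
    _ ≤ _ := Nat.floor_le (Real.exp_pos _).le

lemma l1_mC (k : ℕ) {c : ℝ} (hc : 0 < c) (D : ℝ) : l1 (mC k c D) ≤ Real.exp (D + k * c) := by
  unfold mC
  refine (l1_sum _ _).trans ?_
  calc _ ≤ ∑ m ∈ Icc 1 ⌊Real.exp (D + k * c)⌋₊, (1:ℝ) := by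
        refine sum_le_sum fun m _ => ?_
        rw [l1_single]; exact mm_abs k hc D m
    _ = (⌊Real.exp (D + k * c)⌋₊ : ℝ) := by simp
    _ ≤ _ := Nat.floor_le (Real.exp_pos _).le

/-- averages without zeta, with a strong error term -/
theorem avgP {N : ℝ} {f : DA} (hf : Bd N f) {κ : ℕ} {T : ℝ} (hT : 0 < T) (hκ : 1 ≤ κ) (hN : 1 ≤ N)
    (h1 : N * κ / T ≤ 1) :
    |(∫ t in Set.Ioi (0:ℝ), om κ (κ / T) t * (ev t f).re) - lam w0 f| ≤ (N * κ / T) ^ (κ + 1) * l1 f := by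
  have hκ0 : (0:ℝ) < κ := by exact_mod_cast hκ
  have hδ : 0 < (κ:ℝ) / T := by positivity
  have e1 : ∀ t : ℝ, om κ (κ / T) t * (ev t f).re = ∑ x ∈ f.coeff.support, f.coeff x * (om κ (κ / T) t * (mh t x).re) := by
    intro t
    rw [ev_re, mul_sum]
    refine sum_congr rfl fun x _ => ?_
    ring
  have hint : ∀ x ∈ f.coeff.support, IntegrableOn (fun t => om κ (κ / T) t * (mh t x).re) (Set.Ioi 0) := by
    intro x hx
    obtain ⟨⟨h2, h3⟩, _⟩ := hf x hx
    refine (om_int0 κ hδ).mul_bdd (c := 1) (Complex.continuous_re.comp (mh_cont h2 h3)).aestronglyMeasurable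
      (Eventually.of_forall fun t => ?_)
    rw [Real.norm_eq_abs]
    exact (Complex.abs_re_le_norm _).trans (mh_norm_le h2 h3)
  simp_rw [e1]
  rw [integral_finsetSum _ fun x hx => (hint x hx).const_mul _, lam_apply, Finsupp.sum, ← sum_sub_distrib]
  refine (abs_sum_le_sum_abs _ _).trans ?_
  unfold l1
  rw [mul_sum]
  refine sum_le_sum fun x hx => ?_
  rw [integral_const_mul, ← mul_sub, abs_mul, mul_comm]
  refine mul_le_mul_of_nonneg_right ?_ (abs_nonneg _)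
  obtain ⟨⟨h2, h3⟩, h4, h5⟩ := hf x hx
  obtain ⟨m, n⟩ := x
  simp only at h2 h3 h4 h5
  have hm0 : (0:ℝ) < m := by exact_mod_cast Nat.pos_of_ne_zero h2
  have hn0 : (0:ℝ) < n := by exact_mod_cast Nat.pos_of_ne_zero h3
  have e2 : ∀ t : ℝ, om κ (κ / T) t * (mh t (m, n)).re =
      ((m:ℝ) * n) ^ (-(1 / 2 : ℝ)) * (om κ (κ / T) t * Real.cos (t * (Real.log n - Real.log m))) := by
    intro t
    rw [mh_re t h2 h3]; ring
  simp_rw [e2]
  rw [integral_const_mul]
  by_cases hmn : m = n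
  · subst hmn
    simp only [sub_self, mul_zero, Real.cos_zero, mul_one]
    rw [om_mass κ hδ]
    have : w0 (m, m) = ((m:ℝ) * m) ^ (-(1 / 2 : ℝ)) := by
      unfold w0
      rw [if_pos rfl, ← pow_two, ← Real.rpow_natCast, ← Real.rpow_mul hm0.le]
      norm_num
      rw [Real.rpow_neg_one]
    rw [this, mul_one, sub_self, abs_zero]
    positivity
  · have hw : w0 (m, n) = 0 := by unfold w0; rw [if_neg hmn]
    rw [hw, sub_zero, abs_mul]
    have h6 := log_sub_ge h2 h3 h4 h5 hmn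
    have hφ : Real.log n - Real.log m ≠ 0 := by
      intro h0
      rw [h0, abs_zero] at h6
      have : 0 < 1 / N := by positivity
      linarith
    have h7 := om_cos κ hδ _ hφ
    have h8 : |((m:ℝ) * n) ^ (-(1 / 2 : ℝ))| ≤ 1 := by
      rw [abs_of_nonneg (by positivity)]
      refine Real.rpow_le_one_of_one_le_of_nonpos ?_ (by norm_num)
      have a1 : (1:ℝ) ≤ m := by exact_mod_cast Nat.pos_of_ne_zero h2
      have a2 : (1:ℝ) ≤ n := by exact_mod_cast Nat.pos_of_ne_zero h3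
      nlinarith
    have h9 : (κ / T / |Real.log n - Real.log m|) ≤ N * κ / T := by
      rw [div_le_iff₀ (abs_pos.mpr hφ)]
      calc (κ:ℝ) / T = N * κ / T * (1 / N) := by field_simp
        _ ≤ _ := by gcongr
    have h10 : (κ / T / |Real.log n - Real.log m|) ^ (κ + 1) ≤ (N * κ / T) ^ (κ + 1) := by gcongr
    calc _ ≤ 1 * (N * κ / T) ^ (κ + 1) := mul_le_mul h8 (h7.trans h10) (abs_nonneg _) zero_le_one
      _ = _ := one_mul _

end

end Pool.Agent.Zk6
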