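import Pool.Agent.Zk6.G7
import Pool.Agent.Y755.Onl4

set_option autoImplicit false

/-! The twisted fourth moment on the line, exponent `-2`. -/

namespace Pool.Agent.Zk6

open Finset Filter MeasureTheory
open Pool.Agent.W184.NZ
open Pool.Agent.Y755 (winF)
open Pool.Agent.TH806 (BL gp_cont)
open Pool.Agent.H306R2.SM (om cl Yf)
open Pool.Agent.H262R4.TM (Rng Ck)

lemma exp_negV {c y : ℝ} {J : ℕ} (h : BL c y J) :
    Real.exp (-(∑ i ∈ range J, vI (II y i))) ≤ Real.exp c / Real.log y := by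
  have hy := h.y1
  have hly : 1 < Real.log y := by
    have := Real.exp_one_lt_d9
    rw [Real.lt_log_iff_exp_lt (by linarith)]; linarith
  have h1 := (abs_le.mp h.vv).1
  have e : Real.exp c / Real.log y = Real.exp (c - Real.log (Real.log y)) := by
    rw [Real.exp_sub, Real.exp_log (by linarith)]
  rw [e]
  exact Real.exp_le_exp.mpr (by linarith)

/-- the twisted fourth moment on the line -/
theorem onl_m2 : ∃ η0 : ℝ, 0 < η0 ∧ ∀ (c : ℝ) (Rs : ℕ), 1 ≤ Rs → ∀ η : ℝ,
    0 < η → η * ((Rs:ℝ) + 1) ≤ η0 → ∃ C : ℝ, 0 < C ∧ ∀ᶠ T : ℝ in atTop, ∀ (J : ℕ),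
      BL c (Real.exp (η * Real.log T)) J →
      ∫ t in (T ^ ((3:ℝ)/4))..T, ‖riemannZeta (cl t)‖ ^ 4 *
        gp J (-2) (RR Rs) (II (Real.exp (η * Real.log T))) t ≤ C * T := by
  obtain ⟨η', hη', hη8, hX⟩ := X4_m2
  refine ⟨η' / 640, by positivity, fun c Rs hRs η hη hηR => ?_⟩
  obtain ⟨C, hC, hX⟩ := hX c (2 / η)
  have hX := hX Rs hRs
  refine ⟨32 * C * (Real.exp c / η), by positivity, ?_⟩
  rw [eventually_atTop] at hX
  obtain ⟨Y0, hY0⟩ := hX
  have ht : Tendsto (fun T : ℝ => T ^ ((3:ℝ)/4) / 2) atTop atTop :=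
    (tendsto_rpow_atTop (by norm_num)).atTop_div_const (by norm_num)
  filter_upwards [ht.eventually_ge_atTop Y0, TC_ev 1 1 Rs, Real.tendsto_log_atTop.eventually_ge_atTop 10,
    eventually_ge_atTop 1] with T h1 h4 h6 hT1 J hB
  obtain ⟨k, hk⟩ := h4
  have hT0 : 0 < T := by linarith
  set L := Real.log T with hL
  have hL0 : 0 < L := by linarith
  set y : ℝ := Real.exp (η * L) with hy
  have hly : Real.log y = η * L := Real.log_exp _
  have hy144 : 144 ≤ y := hB.y1
  set V := ∑ i ∈ range J, vI (II y i) with hVd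
  set A : ℝ := T ^ ((3:ℝ)/4) with hA
  have hA0 : 0 < A := by positivity
  have hAT : A ≤ T := by
    have : T ^ ((3:ℝ)/4) ≤ T ^ (1:ℝ) := Real.rpow_le_rpow_of_exponent_le hT1 (by norm_num)
    rwa [Real.rpow_one] at this
  have hexpV : L * Real.exp (-V) ≤ Real.exp c / η := by
    have h2 := exp_negV hB
    rw [hly] at h2
    calc L * Real.exp (-V) ≤ L * (Real.exp c / (η * L)) := mul_le_mul_of_nonneg_left h2 hL0.le
      _ = _ := by field_simp
  have hlog8 : Real.log (8 * T) ≤ 2 * L := by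
    rw [Real.log_mul (by norm_num) hT0.ne']
    have : Real.log 8 ≤ 10 := by
      have := Real.log_le_sub_one_of_pos (show (0:ℝ) < 8 by norm_num)
      linarith
    linarith
  have hbase : ∀ x ∈ Set.Ioc (A / 2) (8 * T), IntegrableOn (fun t => om k (k / x) t * (‖riemannZeta (cl t)‖ ^ 4 *
      gp J (-2) (RR Rs) (II y) t)) (Set.Ioi 0) ∧
      ∫ t in Set.Ioi (0:ℝ), om k (k / x) t * (‖riemannZeta (cl t)‖ ^ 4 * gp J (-2) (RR Rs) (II y) t) ≤
        2 * C * (Real.exp c / η) := by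
    intro x hx
    have hx0 : 0 < x := by have := hx.1; linarith
    have hlx := hk.lg x hx
    have hlx2 : Real.log x ≤ 2 * L := (Real.log_le_log hx0 hx.2).trans hlog8
    have hlx0 : 0 ≤ Real.log x := by linarith
    obtain ⟨i1, i2⟩ := hY0 x (h1.trans hx.1.le) k (hk.rng x hx) y J hB (by
      rw [hly]
      calc 320 * ((Rs:ℝ) + 1) * (η * L) = 320 * (η * ((Rs:ℝ) + 1)) * L := by ring
        _ ≤ 320 * (η' / 640) * L := by gcongr
        _ = η' * (1 / 2 * L) := by ring
        _ ≤ η' * Real.log x := mul_le_mul_of_nonneg_left hlx hη'.le) (by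
      rw [hly]
      refine hlx2.trans (le_of_eq ?_)
      field_simp)
    refine ⟨i1, i2.trans ?_⟩
    calc C * Real.log x * Real.exp (-V) ≤ C * (2 * L) * Real.exp (-V) := by gcongr
      _ = 2 * C * (L * Real.exp (-V)) := by ring
      _ ≤ _ := mul_le_mul_of_nonneg_left hexpV (by positivity)
  have hgc := gp_cont hB (-2) Rs
  have hw := winF (f := fun t => ‖riemannZeta (cl t)‖ ^ 4 * gp J (-2) (RR Rs) (II y) t)
    ((Pool.Agent.H262R4.TM.TTW.zeta_cont.norm.pow 4).mul hgc) (fun t => mul_nonneg (by positivity) (gp_nonneg _ _ _ _ _))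
    hk.k8 hA0 hAT (S := 2 * C * (Real.exp c / η)) (by positivity) (fun x hx => (hbase x hx).1)
    (fun x hx => (hbase x hx).2)
  refine hw.trans (le_of_eq ?_)
  ring

end Pool.Agent.Zk6
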