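import Pool.Agent.Zk6.B3
import Pool.Agent.Zk6.G8

set_option autoImplicit false

/-!
The mean square of the mollifier against the short product.
-/

namespace Pool.Agent.Zk6

open Finset Filter MeasureTheory Complex
open Pool.Agent.W184.NZ
open Pool.Agent.TH806 (Ix TT BL gt gt_nonneg evt evt_GP GP_l1' om_int0 gp_cont)
open Pool.Agent.H306R2.SM (om cl Yf)
open Pool.Agent.H262R4.TM (Rng Ck)
open Pool.Agent.H448R2.GC (cu fs cu_nonneg cu_le_one)
open Pool.Agent.Y755 (winF)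

noncomputable section

lemma Bd_mDC (k : ℕ) (c D : ℝ) : Bd ((⌊Real.exp (D + k * c)⌋₊ : ℕ) : ℝ) (mD k c D * mC k c D) := by
  unfold mD mC
  rw [sum_mul_sum]
  refine Bd.sum fun m hm => Bd.sum fun n hn => ?_
  rw [Finset.mem_Icc] at hm hn
  rw [MonoidAlgebra.single_mul_single]
  refine Bd.single ⟨⟨?_, ?_⟩, ?_, ?_⟩ _
  · simp only [Prod.fst_mul, mul_one]; omega
  · simp only [Prod.snd_mul, one_mul]; omega
  · simp only [Prod.fst_mul, mul_one]; exact_mod_cast hm.2
  · simp only [Prod.snd_mul, one_mul]; exact_mod_cast hn.2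

lemma cl_half (t : ℝ) : cl t = 1 / 2 + t * I := by
  unfold cl; push_cast; ring

/-- the mean square of the mollifier -/
theorem onlM {θ1 ηm θ3 : ℝ} (h1 : 0 ≤ θ1) (hηm : 0 < ηm) (h3 : θ1 + ηm < θ3) (hθ : 3 / 4 ≤ θ3) (hθ1 : θ3 ≤ 1)
    {q : ℕ} (hq : 5 ≤ q) : ∃ η0 : ℝ, 0 < η0 ∧ ∀ (c : ℝ) (Rs : ℕ), 1 ≤ Rs → ∀ η : ℝ, 0 < η →
    η * ((Rs:ℝ) + 1) ≤ η0 → ∃ C : ℝ, 0 < C ∧ ∀ᶠ T : ℝ in atTop, ∀ J : ℕ,
      BL c (Real.exp (η * Real.log T)) J →
      ∫ t in (T ^ θ3)..T, ‖fs q (ηm * Real.log T / q) (θ1 * Real.log T) (cl t)‖ ^ 2 *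
        gp J 1 (RR Rs) (II (Real.exp (η * Real.log T))) t ≤ C * T := by
  set μ := θ3 - θ1 - ηm with hμ
  have hμ0 : 0 < μ := by rw [hμ]; linarith
  have hμ1 : μ ≤ 1 := by rw [hμ]; linarith
  refine ⟨μ / 640, by positivity, fun c Rs hRs η hη hηR => ?_⟩
  obtain ⟨C, hC0, hC⟩ := avgM c (1 / η) ηm 1 q hηm le_rfl hq
  refine ⟨16 * (C + 1), by positivity, ?_⟩
  have hqp : (0:ℝ) < q := by exact_mod_cast (by omega : 0 < q)
  have hRs0 : (1:ℝ) ≤ Rs := by exact_mod_cast hRs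
  have hη1 : η ≤ 1 / 640 := by
    have : η * 1 ≤ η * ((Rs:ℝ) + 1) := mul_le_mul_of_nonneg_left (by linarith) hη.le
    linarith
  have hev : ∀ᶠ T : ℝ in atTop, 8 * Real.log T ^ 2 ≤ T ^ (μ / 4) := by
    have a1 := (isLittleO_log_rpow_rpow_atTop (2:ℝ) (show (0:ℝ) < μ / 4 by positivity)).def
      (show (0:ℝ) < 1 / 8 by norm_num)
    filter_upwards [a1, eventually_gt_atTop (1:ℝ)] with T a1 a2
    have a3 : 0 < Real.log T := Real.log_pos a2
    rw [Real.norm_eq_abs, Real.norm_eq_abs, abs_of_nonneg (by positivity), abs_of_nonneg (by positivity)] at a1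
    have a4 : Real.log T ^ 2 = Real.log T ^ (2:ℝ) := by norm_cast
    rw [a4]; linarith
  filter_upwards [TC_ev 1 1 Rs, Real.tendsto_log_atTop.eventually_ge_atTop 400,
    Real.tendsto_log_atTop.eventually_ge_atTop (6 / μ), hev, eventually_gt_atTop 1] with T h4 hL400 hLμ hev hT1 J hB
  obtain ⟨k, hk⟩ := h4
  have hT0 : 0 < T := by linarith
  set L := Real.log T with hL
  have hL0 : 0 < L := by linarith
  have hL1 : 1 ≤ L := by linarith
  have hTL : T = Real.exp L := by rw [hL, Real.exp_log hT0]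
  set y : ℝ := Real.exp (η * L) with hy
  have hly : Real.log y = η * L := Real.log_exp _
  have hyL : Real.log y ≤ L := by rw [hly]; nlinarith
  set D := θ1 * L with hD
  set c0 := ηm * L / q with hc0
  have hc0p : 0 < c0 := by positivity
  have hqc : (q:ℝ) * c0 = ηm * L := by rw [hc0]; field_simp
  set G := GP J 1 (RR Rs) (II y) with hG
  set F : DA := (mD q c0 D * mC q c0 D) * G with hF
  set M1 := ⌊Real.exp (D + q * c0)⌋₊ with hM1
  have hM1le : (M1:ℝ) ≤ Real.exp ((θ1 + ηm) * L) := by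
    rw [hM1]
    refine (Nat.floor_le (Real.exp_pos _).le).trans (Real.exp_le_exp.mpr ?_)
    rw [hqc, hD]; linarith
  have hM11 : 1 ≤ M1 := by
    rw [hM1, Nat.one_le_floor_iff]
    exact Real.one_le_exp (by rw [hqc, hD]; positivity)
  set B0 := Real.exp (Real.log y * (160 * ((Rs:ℝ) + 1))) with hB0
  set B := ⌈B0⌉₊ with hBd
  have hy1 : (1:ℝ) ≤ y := by linarith [hB.y1]
  have hlen : Real.log y * (160 * ((Rs:ℝ) + 1)) ≤ μ / 4 * L := by
    rw [hly]
    calc η * L * (160 * ((Rs:ℝ) + 1)) = 160 * (η * ((Rs:ℝ) + 1)) * L := by ring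
      _ ≤ 160 * (μ / 640) * L := by gcongr
      _ = _ := by ring
  have hGB0 : Bd B0 G := GP_Bd (Rs := Rs) hy1 hB.rg 1
  have hGB : Bd (B:ℝ) G := hGB0.mono (Nat.le_ceil _)
  have hB01 : 1 ≤ B0 := Real.one_le_exp (mul_nonneg (Real.log_nonneg hy1) (by positivity))
  have hFB : Bd ((M1:ℝ) * B0) F := (Bd_mDC q c0 D).mul hGB0
  have hN1 : 1 ≤ (M1:ℝ) * B0 := by
    have : (1:ℝ) ≤ M1 := by exact_mod_cast hM11
    nlinarith
  have hNle : (M1:ℝ) * B0 ≤ Real.exp ((θ3 - 3 / 4 * μ) * L) := by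
    calc (M1:ℝ) * B0 ≤ Real.exp ((θ1 + ηm) * L) * Real.exp (μ / 4 * L) :=
          mul_le_mul hM1le (Real.exp_le_exp.mpr hlen) (Real.exp_pos _).le (Real.exp_pos _).le
      _ = _ := by rw [← Real.exp_add]; congr 1; rw [hμ]; ring
  have hpr : ∀ i, ∀ p ∈ II y i, p.Prime := fun i p hp => (hB.rg.pr i p hp).1
  have hevF : ∀ t : ℝ, (ev t F).re = ‖fs q c0 D (cl t)‖ ^ 2 * gp J 1 (RR Rs) (II y) t := by
    intro t
    rw [hF, map_mul, map_mul, ev_mD, ev_mC, ← cl_half, Complex.mul_conj, Complex.normSq_eq_norm_sq, hG,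
      ev_GP t J _ _ hpr, ← Complex.ofReal_mul, Complex.ofReal_re]
  have hl1 : l1 F ≤ Real.exp (3 * L) := by
    have a1 : l1 (mD q c0 D) ≤ Real.exp L := (l1_mD q hc0p D).trans (Real.exp_le_exp.mpr (by rw [hqc, hD]; nlinarith))
    have a2 : l1 (mC q c0 D) ≤ Real.exp L := (l1_mC q hc0p D).trans (Real.exp_le_exp.mpr (by rw [hqc, hD]; nlinarith))
    have a3 : l1 G ≤ Real.exp L := by
      refine (GP_l1' hy1 hB.rg hRs (by norm_num)).trans (Real.exp_le_exp.mpr ?_)
      have : Real.log y * (320 * ((Rs:ℝ) + 1)) = 2 * (Real.log y * (160 * ((Rs:ℝ) + 1))) := by ring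
      rw [this]; nlinarith
    calc l1 F ≤ l1 (mD q c0 D * mC q c0 D) * l1 G := l1_mul _ _
      _ ≤ (Real.exp L * Real.exp L) * Real.exp L := by
          refine mul_le_mul ((l1_mul _ _).trans ?_) a3 (l1_nonneg _) (by positivity)
          exact mul_le_mul a1 a2 (l1_nonneg _) (Real.exp_pos _).le
      _ = _ := by rw [← Real.exp_add, ← Real.exp_add]; congr 1; ring
  -- the diagonal
  set N := ⌊Real.exp (3 * L)⌋₊ with hN
  have hNlog : ∀ p : ℕ, p < N → Real.log p ≤ 3 * L := by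
    intro p hp
    rcases Nat.eq_zero_or_pos p with h0 | h0
    · rw [h0]; simp; linarith
    · have hp0 : (0:ℝ) < p := by exact_mod_cast h0
      rw [Real.log_le_iff_le_exp hp0]
      have h1 : (p:ℝ) ≤ N := by exact_mod_cast hp.le
      exact h1.trans (Nat.floor_le (Real.exp_pos _).le)
  have hN2 : 2 * Real.exp L < N := by
    have h1 : Real.exp (3 * L) < N + 1 := Nat.lt_floor_add_one _
    have h2 : Real.exp (3 * L) = Real.exp L * Real.exp L * Real.exp L := by rw [← Real.exp_add, ← Real.exp_add]; congr 1; ring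
    have h3 : L + 1 ≤ Real.exp L := Real.add_one_le_exp L
    have h4 : Real.exp L * 400 ≤ Real.exp L * Real.exp L :=
      mul_le_mul_of_nonneg_left (by linarith) (Real.exp_pos _).le
    have h5 : Real.exp L * Real.exp L * 400 ≤ Real.exp L * Real.exp L * Real.exp L :=
      mul_le_mul_of_nonneg_left (by linarith) (by positivity)
    linarith
  have hyN : y < N := by
    have : y ≤ Real.exp L := by rw [hy]; exact Real.exp_le_exp.mpr (by nlinarith)
    linarith [Real.exp_pos L]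
  have hMBN : M1 * B < N := by
    have a1 : (B:ℝ) ≤ 2 * B0 := by
      have := Nat.ceil_lt_add_one (show 0 ≤ B0 by linarith)
      linarith
    have a2 : ((M1 * B : ℕ) : ℝ) < N := by
      push_cast
      calc (M1:ℝ) * B ≤ M1 * (2 * B0) := by gcongr
        _ = 2 * (M1 * B0) := by ring
        _ ≤ 2 * Real.exp ((θ3 - 3 / 4 * μ) * L) := by linarith
        _ ≤ 2 * Real.exp L := by
            have : Real.exp ((θ3 - 3 / 4 * μ) * L) ≤ Real.exp L := Real.exp_le_exp.mpr (by nlinarith)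
            linarith
        _ < N := hN2
    exact_mod_cast a2
  have hM1N : M1 < N := by
    have hB1 : 1 ≤ B := Nat.one_le_ceil_iff.mpr (by linarith)
    exact lt_of_le_of_lt (Nat.le_mul_of_pos_right _ (by omega)) hMBN
  have hFB2 : Bd ((M1 * B : ℕ) : ℝ) F := by
    refine hFB.mono ?_
    push_cast
    have : (0:ℝ) ≤ M1 := Nat.cast_nonneg _
    exact mul_le_mul_of_nonneg_left (Nat.le_ceil _) this
  have hdiag : lam w0 F ≤ C := by
    have e1 := lam_w0_int (N := N) hFB2 hMBN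
    have e2 : ∀ θ : Ix N → ℝ, evt θ F = ((‖SMt q c0 D (1 / 2) θ‖ ^ 2 * gt J 1 (RR Rs) (II y) θ : ℝ) : ℂ) := by
      intro θ
      rw [hF, map_mul, map_mul, evt_mD, evt_mC, Complex.mul_conj, Complex.normSq_eq_norm_sq, hG,
        evt_GP θ J _ _ hpr, ← Complex.ofReal_mul]
    simp_rw [e2] at e1
    rw [integral_complex_ofReal] at e1
    have e3 : lam w0 F = ∫ θ, ‖SMt q c0 D (1 / 2) θ‖ ^ 2 * gt J 1 (RR Rs) (II y) θ ∂(TT N) := by exact_mod_cast e1
    rw [e3]
    refine hC y L D N J Rs B hB hRs hNlog hL1 hyL (by rw [hly]; field_simp; exact le_rfl) hyN ?_ hGB ?_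
    · rw [abs_of_nonneg (by positivity), hD]
      exact mul_le_mul_of_nonneg_right (by linarith) hL0.le
    · rw [← hqc]; exact hM1N
  -- windows
  have hfc : Continuous fun t => ‖fs q c0 D (cl t)‖ ^ 2 * gp J 1 (RR Rs) (II y) t :=
    (ev_re_cont hFB).congr fun t => hevF t
  have hf0 : ∀ t, 0 ≤ ‖fs q c0 D (cl t)‖ ^ 2 * gp J 1 (RR Rs) (II y) t :=
    fun t => mul_nonneg (by positivity) (gp_nonneg _ _ _ _ _)
  set A : ℝ := T ^ θ3 with hA
  have hA0 : 0 < A := by positivity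
  have hAexp : A = Real.exp (θ3 * L) := by rw [hA, Real.rpow_def_of_pos hT0, ← hL]; congr 1; ring
  have hAT : A ≤ T := by
    have : T ^ θ3 ≤ T ^ (1:ℝ) := Real.rpow_le_rpow_of_exponent_le hT1.le hθ1
    rwa [Real.rpow_one] at this
  have hA34 : T ^ ((3:ℝ)/4) ≤ A := Real.rpow_le_rpow_of_exponent_le hT1.le hθ
  have hk8 := hk.k8
  have hTmem : T ∈ Set.Ioc (T ^ ((3:ℝ)/4) / 2) (8 * T) := by
    constructor
    · have : 0 < T ^ ((3:ℝ)/4) := by positivity
      linarith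
    · linarith
  have hkT := hk.rng T hTmem
  have hk1 : L ^ 2 ≤ k := hkT.1
  have hk2 : (k:ℝ) ≤ 4 * L ^ 2 := hkT.2
  have hkp : (0:ℝ) < k := by positivity
  have hbase : ∀ x ∈ Set.Ioc (A / 2) (8 * T),
      IntegrableOn (fun t => om k (k / x) t * (‖fs q c0 D (cl t)‖ ^ 2 * gp J 1 (RR Rs) (II y) t)) (Set.Ioi 0) ∧
      ∫ t in Set.Ioi (0:ℝ), om k (k / x) t * (‖fs q c0 D (cl t)‖ ^ 2 * gp J 1 (RR Rs) (II y) t) ≤ C + 1 := by
    intro x hx
    have hx0 : 0 < x := by have := hx.1; linarith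
    have hδ : 0 < (k:ℝ) / x := by positivity
    refine ⟨?_, ?_⟩
    · refine (om_int0 k hδ).mul_bdd (c := l1 F) hfc.aestronglyMeasurable (Eventually.of_forall fun t => ?_)
      rw [← hevF t, Real.norm_eq_abs]
      exact ev_re_le hFB t
    · have hratio : (M1:ℝ) * B0 * k / x ≤ Real.exp (-(μ / 2 * L)) := by
        rw [div_le_iff₀ hx0]
        have e4 : T ^ (μ / 4) = Real.exp (μ / 4 * L) := by
          rw [Real.rpow_def_of_pos hT0, ← hL]; congr 1; ring
        rw [e4] at hev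
        calc (M1:ℝ) * B0 * k ≤ Real.exp ((θ3 - 3 / 4 * μ) * L) * (4 * L ^ 2) := by gcongr
          _ = 1 / 2 * (Real.exp ((θ3 - 3 / 4 * μ) * L) * (8 * L ^ 2)) := by ring
          _ ≤ 1 / 2 * (Real.exp ((θ3 - 3 / 4 * μ) * L) * Real.exp (μ / 4 * L)) := by gcongr
          _ = Real.exp (-(μ / 2 * L)) * (A / 2) := by
              rw [hAexp, ← Real.exp_add, ← mul_div_assoc, ← Real.exp_add]
              have : (θ3 - 3 / 4 * μ) * L + μ / 4 * L = -(μ / 2 * L) + θ3 * L := by ring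
              rw [this]; ring
          _ ≤ Real.exp (-(μ / 2 * L)) * x := mul_le_mul_of_nonneg_left hx.1.le (Real.exp_pos _).le
      have hr1 : (M1:ℝ) * B0 * k / x ≤ 1 := hratio.trans (Real.exp_le_one_iff.mpr (by
        have : 0 ≤ μ / 2 * L := by positivity
        linarith))
      have h5 := avgP hFB hx0 (κ := k) (by omega) hN1 hr1
      have h6 : ((M1:ℝ) * B0 * k / x) ^ (k + 1) * l1 F ≤ 1 := by
        have h7 : ((M1:ℝ) * B0 * k / x) ^ (k + 1) ≤ Real.exp (-(μ / 2 * L)) ^ (k + 1) :=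
          pow_le_pow_left₀ (by positivity) hratio _
        calc _ ≤ Real.exp (-(μ / 2 * L)) ^ (k + 1) * Real.exp (3 * L) :=
              mul_le_mul h7 hl1 (l1_nonneg _) (by positivity)
          _ = Real.exp (((k:ℝ) + 1) * (-(μ / 2 * L)) + 3 * L) := by
              rw [← Real.exp_nat_mul, ← Real.exp_add]; push_cast; rfl
          _ ≤ 1 := by
              rw [Real.exp_le_one_iff]
              have h8 : 6 ≤ μ * L := by
                rw [div_le_iff₀ hμ0] at hLμ; linarith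
              have h9 : 3 ≤ ((k:ℝ) + 1) * (μ / 2) := by
                have : L ≤ k := by nlinarith
                nlinarith
              nlinarith
      have h10 := (abs_le.mp h5).2
      simp_rw [hevF] at h10
      linarith
  have hw := winF hfc hf0 hk8 hA0 hAT (S := C + 1) (by linarith) (fun x hx => (hbase x hx).1)
    (fun x hx => (hbase x hx).2)
  refine hw.trans (le_of_eq ?_)
  ring

end

end Pool.Agent.Zk6
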