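import Pool.Agent.Zk6.B4

set_option autoImplicit false

/-!
The moment of order `4/3` of the mollified zeta function on the critical line.
-/

namespace Pool.Agent.Zk6

open Finset Filter MeasureTheory
open Pool.Agent.W184.NZ
open Pool.Agent.TH806 (BL cl_two gp_cont)
open Pool.Agent.H306R2.SM (om cl Yf)
open Pool.Agent.H448R2.GC (cu fs cu_nonneg cu_le_one)

noncomputable section

/-- the pointwise inequality with general weights -/
lemma star_w {K K' R : ℕ} {θ a b : ℝ} (hθ : 0 ≤ θ) (hθ1 : θ ≤ 1) (hab : θ * b + (1 - θ) * a = 0) (hR : 1 ≤ R)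
    (h : Cl K a R) (h' : Cl K' b R) (z : ℂ) :
    (1 - Real.exp (-(R:ℝ))) ^ 2 ≤ gf K' b R z ^ θ * gf K a R z ^ (1 - θ) := by
  have hR' : (0:ℝ) < R := by exact_mod_cast hR
  set d := 1 - Real.exp (-(R:ℝ)) with hd
  have hd0 : 0 ≤ d := by
    have : Real.exp (-(R:ℝ)) ≤ 1 := Real.exp_le_one_iff.mpr (by simp)
    linarith
  have hd1 : d ≤ 1 := by
    have := Real.exp_pos (-(R:ℝ))
    linarith
  have hθ' : 0 ≤ 1 - θ := by linarith
  rcases le_or_gt ‖z‖ (R:ℝ) with hz | hz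
  · have h1 : d ^ 2 * Real.exp (2 * a * z.re) ≤ gf K a R z := by
      have h3 := pow_le_pow_left₀ (mul_nonneg hd0 (norm_nonneg _)) (NK_ge_of_cl h hz) 2
      rw [mul_pow, norm_exp_sq] at h3
      have h4 : 0 ≤ (‖z‖ / R) ^ (2 * R) := by positivity
      unfold gf; linarith
    have h2 : d ^ 2 * Real.exp (2 * b * z.re) ≤ gf K' b R z := by
      have h3 := pow_le_pow_left₀ (mul_nonneg hd0 (norm_nonneg _)) (NK_ge_of_cl h' hz) 2
      rw [mul_pow, norm_exp_sq] at h3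
      have h4 : 0 ≤ (‖z‖ / R) ^ (2 * R) := by positivity
      unfold gf; linarith
    have h5 : (d ^ 2) ^ θ * (d ^ 2) ^ (1 - θ) = d ^ 2 := by
      rw [← Real.rpow_add_of_nonneg (by positivity) hθ hθ']; simp
    have h6 : 2 * b * z.re * θ + 2 * a * z.re * (1 - θ) = 0 := by
      have : 2 * b * z.re * θ + 2 * a * z.re * (1 - θ) = 2 * z.re * (θ * b + (1 - θ) * a) := by ring
      rw [this, hab, mul_zero]
    calc d ^ 2 = ((d ^ 2) ^ θ * (d ^ 2) ^ (1 - θ)) *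
          (Real.exp (2 * b * z.re) ^ θ * Real.exp (2 * a * z.re) ^ (1 - θ)) := by
          rw [h5, ← Real.exp_mul, ← Real.exp_mul, ← Real.exp_add, h6, Real.exp_zero, mul_one]
      _ = (d ^ 2 * Real.exp (2 * b * z.re)) ^ θ * (d ^ 2 * Real.exp (2 * a * z.re)) ^ (1 - θ) := by
          rw [Real.mul_rpow (by positivity) (by positivity), Real.mul_rpow (by positivity) (by positivity)]
          ring
      _ ≤ _ := by
          gcongr
          exact Real.rpow_nonneg (gf_nonneg _ _ _ _) _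
  · have hq : 1 ≤ (‖z‖ / R) ^ (2 * R) := one_le_pow₀ (by rw [one_le_div hR']; exact hz.le)
    have h1 : 1 ≤ gf K a R z := by
      unfold gf; nlinarith [sq_nonneg ‖NK K a z‖]
    have h2 : 1 ≤ gf K' b R z := by
      unfold gf; nlinarith [sq_nonneg ‖NK K' b z‖]
    calc d ^ 2 ≤ 1 := pow_le_one₀ hd0 hd1
      _ = 1 * 1 := by ring
      _ ≤ _ := mul_le_mul (Real.one_le_rpow h2 hθ) (Real.one_le_rpow h1 hθ') zero_le_one (by positivity)

lemma prod_one_sub' {J : ℕ} {x : ℕ → ℝ} (h0 : ∀ i, 0 ≤ x i) (h1 : ∀ i, x i ≤ 1) :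
    1 - ∑ i ∈ range J, x i ≤ ∏ i ∈ range J, (1 - x i) := by
  induction J with
  | zero => simp
  | succ J ih =>
    rw [sum_range_succ, prod_range_succ]
    have h2 : ∏ i ∈ range J, (1 - x i) ≤ 1 := prod_le_one (fun i _ => by linarith [h1 i]) fun i _ => by linarith [h0 i]
    nlinarith [h0 J, h1 J]

lemma exp_m2_le : Real.exp (-2) ≤ 1 / 7 := by
  have e : Real.exp (-2 : ℝ) = (Real.exp 1 ^ 2)⁻¹ := by
    rw [← Real.exp_nat_mul, ← Real.exp_neg]; norm_num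
  have h4 := Real.exp_one_gt_d9
  rw [e, inv_le_comm₀ (by positivity) (by norm_num)]
  nlinarith

/-- the product of the inequalities over the blocks -/
lemma gp_star {J : ℕ} (I : ℕ → Finset ℕ) (t : ℝ) :
    3 / 7 ≤ gp J 1 (RR 2) I t ^ ((2:ℝ) / 3) * gp J (-2) (RR 2) I t ^ ((1:ℝ) / 3) := by
  have hex : ∀ i, Real.exp (-(RR 2 i : ℝ)) ≤ 1 / 7 := by
    intro i
    refine le_trans (Real.exp_le_exp.mpr ?_) exp_m2_le
    have : 2 ≤ RR 2 i := by unfold RR; omega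
    have : (2:ℝ) ≤ (RR 2 i : ℝ) := by exact_mod_cast this
    linarith
  unfold gp
  rw [← Real.finsetProd_rpow _ _ (fun i _ => gf_nonneg _ _ _ _), ← Real.finsetProd_rpow _ _ (fun i _ => gf_nonneg _ _ _ _),
    ← prod_mul_distrib]
  have h1 : ∏ i ∈ range J, (1 - 2 * Real.exp (-(RR 2 i : ℝ))) ≤ ∏ i ∈ range J,
      (gf (20 * RR 2 i) 1 (RR 2 i) (PI (I i) (1 / 2 + t * Complex.I)) ^ ((2:ℝ) / 3) *
        gf (20 * RR 2 i) (-2) (RR 2 i) (PI (I i) (1 / 2 + t * Complex.I)) ^ ((1:ℝ) / 3)) := by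
    refine prod_le_prod (fun i _ => ?_) fun i _ => ?_
    · have := hex i; linarith
    · have hR : 1 ≤ RR 2 i := by unfold RR; omega
      have h2 := star_w (K := 20 * RR 2 i) (K' := 20 * RR 2 i) (θ := 2 / 3) (a := -2) (b := 1) (by norm_num)
        (by norm_num) (by norm_num) hR (cl_two hR (by norm_num))
        (cl_two hR (by norm_num)) (PI (I i) (1 / 2 + t * Complex.I))
      have e3 : (1:ℝ) - 2 / 3 = 1 / 3 := by norm_num
      rw [e3] at h2
      refine le_trans ?_ h2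
      nlinarith [sq_nonneg (Real.exp (-(RR 2 i : ℝ)))]
  refine le_trans ?_ h1
  have h3 := prod_one_sub' (J := J) (x := fun i => 2 * Real.exp (-(RR 2 i : ℝ))) (fun i => by positivity)
    (fun i => by have := hex i; linarith)
  refine le_trans ?_ h3
  rw [← mul_sum]
  have h4 := sum_exp_le J 2 (RR_ge 2)
  have h5 := exp_m2_le
  push_cast at h4
  linarith

/-- the pointwise bound -/
lemma pw43 {J : ℕ} (I : ℕ → Finset ℕ) (t : ℝ) {Z M : ℝ} (hZ : 0 ≤ Z) (hM : 0 ≤ M) :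
    3 / 7 * (Z * M) ^ ((4:ℝ) / 3) ≤ 1 / 3 * (Z ^ 4 * gp J (-2) (RR 2) I t) + 2 / 3 * (M ^ 2 * gp J 1 (RR 2) I t) := by
  have hs := gp_star (J := J) I t
  set g1 := gp J 1 (RR 2) I t with hg1
  set g2 := gp J (-2) (RR 2) I t with hg2
  have g10 : 0 ≤ g1 := gp_nonneg _ _ _ _ _
  have g20 : 0 ≤ g2 := gp_nonneg _ _ _ _ _
  have h1 := Real.geom_mean_le_arith_mean2_weighted (by norm_num : (0:ℝ) ≤ 1 / 3) (by norm_num : (0:ℝ) ≤ 2 / 3)
    (by positivity : 0 ≤ Z ^ 4 * g2) (by positivity : 0 ≤ M ^ 2 * g1) (by norm_num)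
  refine le_trans ?_ h1
  have a1 : (Z ^ 4) ^ ((1:ℝ) / 3) = Z ^ ((4:ℝ) / 3) := by
    rw [← Real.rpow_natCast, ← Real.rpow_mul hZ]; congr 1; norm_num
  have a2 : (M ^ 2) ^ ((2:ℝ) / 3) = M ^ ((4:ℝ) / 3) := by
    rw [← Real.rpow_natCast, ← Real.rpow_mul hM]; congr 1; norm_num
  rw [Real.mul_rpow (by positivity) g20, Real.mul_rpow (by positivity) g10, a1, a2, Real.mul_rpow hZ hM]
  have hp : 0 ≤ Z ^ ((4:ℝ) / 3) * M ^ ((4:ℝ) / 3) := by positivity
  calc 3 / 7 * (Z ^ ((4:ℝ) / 3) * M ^ ((4:ℝ) / 3)) ≤ (g1 ^ ((2:ℝ) / 3) * g2 ^ ((1:ℝ) / 3)) *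
        (Z ^ ((4:ℝ) / 3) * M ^ ((4:ℝ) / 3)) := mul_le_mul_of_nonneg_right hs hp
    _ = _ := by ring

/-- subtracting one -/
lemma sub_one_43 (w : ℂ) : ‖w - 1‖ ^ ((4:ℝ) / 3) ≤ 4 * ‖w‖ ^ ((4:ℝ) / 3) + 4 := by
  have h1 : ‖w - 1‖ ≤ ‖w‖ + 1 := by
    have := norm_sub_le w 1
    rwa [norm_one] at this
  have h5 : (2:ℝ) ^ ((4:ℝ) / 3) ≤ 4 := by
    calc (2:ℝ) ^ ((4:ℝ) / 3) ≤ 2 ^ (2:ℝ) := Real.rpow_le_rpow_of_exponent_le (by norm_num) (by norm_num)
      _ = 4 := by norm_num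
  have h6 : 0 ≤ ‖w‖ ^ ((4:ℝ) / 3) := by positivity
  rcases le_or_gt ‖w‖ 1 with h | h
  · calc ‖w - 1‖ ^ ((4:ℝ) / 3) ≤ 2 ^ ((4:ℝ) / 3) :=
          Real.rpow_le_rpow (norm_nonneg _) (by linarith) (by norm_num)
      _ ≤ _ := by linarith
  · calc ‖w - 1‖ ^ ((4:ℝ) / 3) ≤ (2 * ‖w‖) ^ ((4:ℝ) / 3) :=
          Real.rpow_le_rpow (norm_nonneg _) (by linarith) (by norm_num)
      _ = 2 ^ ((4:ℝ) / 3) * ‖w‖ ^ ((4:ℝ) / 3) := Real.mul_rpow (by norm_num) (norm_nonneg _)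
      _ ≤ 4 * ‖w‖ ^ ((4:ℝ) / 3) := mul_le_mul_of_nonneg_right h5 h6
      _ ≤ _ := by linarith

lemma fs_cont (k : ℕ) (c D : ℝ) : Continuous (fs k c D) := by
  unfold fs
  refine continuous_finsetSum _ fun m hm => ?_
  rw [Finset.mem_Icc] at hm
  have hm0 : (m : ℂ) ≠ 0 := by exact_mod_cast (by omega : m ≠ 0)
  exact continuous_const.mul (Continuous.const_cpow continuous_neg (Or.inl hm0))

lemma cl_cont : Continuous cl := by
  unfold cl
  fun_prop

/-- the moment of order `4/3` on the critical line -/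
theorem mom43 {θ1 ηm θ3 : ℝ} (h1 : 0 ≤ θ1) (hηm : 0 < ηm) (h3 : θ1 + ηm < θ3) (hθ : 3 / 4 ≤ θ3) (hθ1 : θ3 ≤ 1) :
    ∃ C : ℝ, 0 < C ∧ ∀ᶠ T : ℝ in atTop,
      ∫ t in (T ^ θ3)..T, ‖riemannZeta (cl t) * fs 8 (ηm * Real.log T / 8) (θ1 * Real.log T) (cl t) - 1‖ ^ ((4:ℝ) / 3) ≤
        C * T := by
  obtain ⟨c, hc, hrg⟩ := ranges
  obtain ⟨ηa, hηa, hA⟩ := onl_m2
  obtain ⟨ηb, hηb, hB⟩ := onlM h1 hηm h3 hθ hθ1 (q := 8) (by norm_num)
  set η : ℝ := min ηa ηb / 3 with hη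
  have hη0 : 0 < η := by rw [hη]; have := lt_min hηa hηb; positivity
  have hη3 : η * ((2:ℕ) + 1 : ℝ) = min ηa ηb := by rw [hη]; push_cast; ring
  obtain ⟨CA, hCA, hA⟩ := hA c 2 (by norm_num) η hη0 (by rw [hη3]; exact min_le_left _ _)
  obtain ⟨CB, hCB, hB⟩ := hB c 2 (by norm_num) η hη0 (by rw [hη3]; exact min_le_right _ _)
  refine ⟨4 * (7 / 3 * (1 / 3 * CA + 2 / 3 * CB)) + 4, by positivity, ?_⟩
  filter_upwards [hA, hB, eventually_gt_atTop 1, Real.tendsto_log_atTop.eventually_ge_atTop (Real.log 144 / η)] with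
    T hA hB hT1 h144
  have hT0 : 0 < T := by linarith
  set L := Real.log T with hL
  set y : ℝ := Real.exp (η * L) with hy
  have hy144 : 144 ≤ y := by
    rw [hy, ← Real.log_le_iff_le_exp (by norm_num)]
    rw [div_le_iff₀ hη0] at h144
    linarith
  obtain ⟨J, hJ1, hJ2, hJ3, hJ4⟩ := hrg y hy144
  have hBL : BL c y J := ⟨hc, hy144, hJ1, hJ3, hJ4⟩
  have hA := hA J hBL
  have hB := hB J hBL
  push_cast at hB
  set M : ℝ → ℂ := fun t => fs 8 (ηm * L / 8) (θ1 * L) (cl t) with hM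
  set g1 : ℝ → ℝ := fun t => gp J 1 (RR 2) (II y) t with hg1
  set g2 : ℝ → ℝ := fun t => gp J (-2) (RR 2) (II y) t with hg2
  have hMc : Continuous M := (fs_cont _ _ _).comp cl_cont
  have hzc := Pool.Agent.H262R4.TM.TTW.zeta_cont
  have hg1c : Continuous g1 := gp_cont hBL 1 2
  have hg2c : Continuous g2 := gp_cont hBL (-2) 2
  set A : ℝ := T ^ θ3 with hAd
  have hA0 : 0 < A := by positivity
  have hAT : A ≤ T := by
    have : T ^ θ3 ≤ T ^ (1:ℝ) := Real.rpow_le_rpow_of_exponent_le hT1.le hθ1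
    rwa [Real.rpow_one] at this
  have hA34 : T ^ ((3:ℝ)/4) ≤ A := Real.rpow_le_rpow_of_exponent_le hT1.le hθ
  have c1 : Continuous fun t => ‖riemannZeta (cl t)‖ ^ 4 * g2 t := (hzc.norm.pow 4).mul hg2c
  have c2 : Continuous fun t => ‖M t‖ ^ 2 * g1 t := (hMc.norm.pow 2).mul hg1c
  have c3 : Continuous fun t => ‖riemannZeta (cl t) * M t - 1‖ ^ ((4:ℝ) / 3) :=
    ((hzc.mul hMc).sub continuous_const).norm.rpow_const fun _ => Or.inr (by norm_num)
  have hA' : ∫ t in A..T, ‖riemannZeta (cl t)‖ ^ 4 * g2 t ≤ CA * T := by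
    refine le_trans ?_ hA
    refine intervalIntegral.integral_mono_interval hA34 hAT le_rfl ?_ (c1.intervalIntegrable _ _)
    exact Eventually.of_forall fun t => mul_nonneg (by positivity) (gp_nonneg _ _ _ _ _)
  have hpt : ∀ t, ‖riemannZeta (cl t) * M t - 1‖ ^ ((4:ℝ) / 3) ≤
      4 * (7 / 3) * (1 / 3 * (‖riemannZeta (cl t)‖ ^ 4 * g2 t) + 2 / 3 * (‖M t‖ ^ 2 * g1 t)) + 4 := by
    intro t
    have p1 := sub_one_43 (riemannZeta (cl t) * M t)
    have p2 := pw43 (J := J) (II y) t (norm_nonneg (riemannZeta (cl t))) (norm_nonneg (M t))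
    rw [← norm_mul] at p2
    have p3 : g2 t = gp J (-2) (RR 2) (II y) t := rfl
    have p4 : g1 t = gp J 1 (RR 2) (II y) t := rfl
    rw [p3, p4]
    linarith
  have hint : IntervalIntegrable (fun t => 4 * (7 / 3) * (1 / 3 * (‖riemannZeta (cl t)‖ ^ 4 * g2 t) +
      2 / 3 * (‖M t‖ ^ 2 * g1 t)) + 4) volume A T := by
    refine Continuous.intervalIntegrable ?_ _ _
    fun_prop
  have hfin : ∫ t in A..T, ‖riemannZeta (cl t) * M t - 1‖ ^ ((4:ℝ) / 3) ≤
      (4 * (7 / 3 * (1 / 3 * CA + 2 / 3 * CB)) + 4) * T := by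
    calc _ ≤ ∫ t in A..T, (4 * (7 / 3) * (1 / 3 * (‖riemannZeta (cl t)‖ ^ 4 * g2 t) +
          2 / 3 * (‖M t‖ ^ 2 * g1 t)) + 4) :=
          intervalIntegral.integral_mono_on hAT (c3.intervalIntegrable _ _) hint fun t _ => hpt t
      _ = 4 * (7 / 3) * (1 / 3 * (∫ t in A..T, ‖riemannZeta (cl t)‖ ^ 4 * g2 t) +
          2 / 3 * ∫ t in A..T, ‖M t‖ ^ 2 * g1 t) + 4 * (T - A) := by
          rw [intervalIntegral.integral_add, intervalIntegral.integral_const_mul, intervalIntegral.integral_add,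
            intervalIntegral.integral_const_mul, intervalIntegral.integral_const_mul,
            intervalIntegral.integral_const, smul_eq_mul, mul_comm (T - A)]
          · exact (c1.const_mul _).intervalIntegrable _ _
          · exact (c2.const_mul _).intervalIntegrable _ _
          · refine Continuous.intervalIntegrable ?_ _ _
            fun_prop
          · exact continuous_const.intervalIntegrable _ _
      _ ≤ _ := by
          have hB' : ∫ t in A..T, ‖M t‖ ^ 2 * g1 t ≤ CB * T := hB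
          nlinarith
  exact hfin

end

end Pool.Agent.Zk6
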