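import Pool.Agent.Zk6.K9

set_option autoImplicit false

/-! The mean square of the mollifier against the short product, on every translate of a Gaussian window. -/

namespace Pool.Agent.Zk6

open Finset Filter MeasureTheory Complex
open Pool.Agent.W184.NZ
open Pool.Agent.TH806 (Ix TT BL gt gt_nonneg evt evt_GP GP_l1' gp_cont log_sub_ge)
open Pool.Agent.H306R2.SM (om cl Yf)
open Pool.Agent.H448R2.GC (cu fs cu_nonneg cu_le_one)

noncomputable section

lemma Wg_cos {H : ℝ} (hH : 0 < H) (t0 φ : ℝ) :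
    ∫ t : ℝ, Wg H t0 t * Real.cos (t * φ) = √Real.pi * H * (Real.exp (-(H * φ) ^ 2 / 4) * Real.cos (t0 * φ)) := by
  have h1 := congrArg Complex.re (Wg_ft hH t0 φ)
  have hI : Integrable (fun u : ℝ => ((Wg H t0 u : ℝ) : ℂ) * Complex.exp (Complex.I * ((u * φ : ℝ) : ℂ))) := by
    refine Integrable.mono' (Wg_int hH t0) ?_ (Filter.Eventually.of_forall fun u => ?_)
    · refine Continuous.aestronglyMeasurable ?_
      refine (Complex.continuous_ofReal.comp (Wg_cont H t0)).mul ?_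
      fun_prop
    · have h2 : ‖Complex.exp (Complex.I * ((u * φ : ℝ) : ℂ))‖ = 1 := by
        rw [mul_comm]; exact Complex.norm_exp_ofReal_mul_I _
      rw [norm_mul, h2, mul_one, Complex.norm_real, Real.norm_eq_abs, abs_of_pos (Wg_pos H t0 u)]
  have h2 : (∫ u : ℝ, ((Wg H t0 u : ℝ) : ℂ) * Complex.exp (Complex.I * ((u * φ : ℝ) : ℂ))).re =
      ∫ u : ℝ, (((Wg H t0 u : ℝ) : ℂ) * Complex.exp (Complex.I * ((u * φ : ℝ) : ℂ))).re := (integral_re hI).symm
  rw [h2] at h1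
  have h3 : ∀ u : ℝ, (((Wg H t0 u : ℝ) : ℂ) * Complex.exp (Complex.I * ((u * φ : ℝ) : ℂ))).re =
      Wg H t0 u * Real.cos (u * φ) := by
    intro u
    rw [Complex.re_ofReal_mul, mul_comm Complex.I, Complex.exp_ofReal_mul_I_re]
  simp_rw [h3] at h1
  rw [h1, Complex.re_ofReal_mul, Complex.re_ofReal_mul, mul_comm Complex.I, Complex.exp_ofReal_mul_I_re]

/-- averages without zeta over a Gaussian window -/
theorem avgPg {N : ℝ} {f : DA} (hf : Bd N f) {H : ℝ} (hH : 0 < H) (hN : 1 ≤ N) (t0 : ℝ) :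
    |(∫ t : ℝ, Wg H t0 t * (ev t f).re) - √Real.pi * H * lam w0 f| ≤
      √Real.pi * H * Real.exp (-(H / N) ^ 2 / 4) * l1 f := by
  have hint : ∀ x ∈ f.coeff.support, Integrable (fun t => Wg H t0 t * (mh t x).re) := by
    intro x hx
    obtain ⟨⟨h2, h3⟩, _⟩ := hf x hx
    refine (Wg_int hH t0).mul_bdd (c := 1) (Complex.continuous_re.comp (mh_cont h2 h3)).aestronglyMeasurable
      (Eventually.of_forall fun t => ?_)
    rw [Real.norm_eq_abs]
    exact (Complex.abs_re_le_norm _).trans (mh_norm_le h2 h3)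
  have e1 : ∀ t : ℝ, Wg H t0 t * (ev t f).re = ∑ x ∈ f.coeff.support, f.coeff x * (Wg H t0 t * (mh t x).re) := by
    intro t
    rw [ev_re, mul_sum]
    refine sum_congr rfl fun x _ => ?_
    ring
  simp_rw [e1]
  rw [integral_finsetSum _ fun x hx => (hint x hx).const_mul _, lam_apply, Finsupp.sum, mul_sum, ← sum_sub_distrib]
  refine (abs_sum_le_sum_abs _ _).trans ?_
  unfold l1
  rw [mul_sum]
  refine sum_le_sum fun x hx => ?_
  rw [integral_const_mul]
  have e0 : f.coeff x * (∫ t : ℝ, Wg H t0 t * (mh t x).re) - √Real.pi * H * (f.coeff x * w0 x) =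
      f.coeff x * ((∫ t : ℝ, Wg H t0 t * (mh t x).re) - √Real.pi * H * w0 x) := by ring
  rw [e0, abs_mul, mul_comm]
  refine mul_le_mul_of_nonneg_right ?_ (abs_nonneg _)
  obtain ⟨⟨h2, h3⟩, h4, h5⟩ := hf x hx
  obtain ⟨m, n⟩ := x
  simp only at h2 h3 h4 h5
  have hm0 : (0:ℝ) < m := by exact_mod_cast Nat.pos_of_ne_zero h2
  have hn0 : (0:ℝ) < n := by exact_mod_cast Nat.pos_of_ne_zero h3
  have e2 : ∀ t : ℝ, Wg H t0 t * (mh t (m, n)).re =
      ((m:ℝ) * n) ^ (-(1 / 2 : ℝ)) * (Wg H t0 t * Real.cos (t * (Real.log n - Real.log m))) := by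
    intro t
    rw [mh_re t h2 h3]; ring
  simp_rw [e2]
  rw [integral_const_mul, Wg_cos hH]
  have hsp : 0 < √Real.pi * H := by positivity
  by_cases hmn : m = n
  · subst hmn
    have : w0 (m, m) = ((m:ℝ) * m) ^ (-(1 / 2 : ℝ)) := by
      unfold w0
      rw [if_pos rfl, ← pow_two, ← Real.rpow_natCast, ← Real.rpow_mul hm0.le]
      norm_num
      rw [Real.rpow_neg_one]
    rw [this]
    simp only [sub_self, mul_zero, Real.cos_zero, mul_one]
    have h6 : Real.exp (-0 ^ 2 / 4) = 1 := by norm_num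
    rw [h6, mul_one, mul_comm, sub_self, abs_zero]
    positivity
  · have hw : w0 (m, n) = 0 := by unfold w0; rw [if_neg hmn]
    rw [hw, mul_zero, sub_zero, abs_mul]
    have h6 := log_sub_ge h2 h3 h4 h5 hmn
    have h8 : |((m:ℝ) * n) ^ (-(1 / 2 : ℝ))| ≤ 1 := by
      rw [abs_of_nonneg (by positivity)]
      refine Real.rpow_le_one_of_one_le_of_nonpos ?_ (by norm_num)
      have a1 : (1:ℝ) ≤ m := by exact_mod_cast Nat.pos_of_ne_zero h2
      have a2 : (1:ℝ) ≤ n := by exact_mod_cast Nat.pos_of_ne_zero h3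
      nlinarith
    set φ := Real.log n - Real.log m with hφ
    have h9 : |√Real.pi * H * (Real.exp (-(H * φ) ^ 2 / 4) * Real.cos (t0 * φ))| ≤
        √Real.pi * H * Real.exp (-(H / N) ^ 2 / 4) := by
      rw [abs_mul, abs_of_pos hsp, abs_mul, abs_of_pos (Real.exp_pos _)]
      refine mul_le_mul_of_nonneg_left ?_ hsp.le
      have h10 : Real.exp (-(H * φ) ^ 2 / 4) ≤ Real.exp (-(H / N) ^ 2 / 4) := by
        refine Real.exp_le_exp.mpr ?_
        have h11 : (H / N) ^ 2 ≤ (H * φ) ^ 2 := by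
          rw [← sq_abs (H * φ), abs_mul, abs_of_pos hH]
          refine pow_le_pow_left₀ (by positivity) ?_ 2
          calc H / N = H * (1 / N) := by ring
            _ ≤ H * |φ| := mul_le_mul_of_nonneg_left h6 hH.le
        linarith
      calc Real.exp (-(H * φ) ^ 2 / 4) * |Real.cos (t0 * φ)| ≤ Real.exp (-(H / N) ^ 2 / 4) * 1 :=
            mul_le_mul h10 (Real.abs_cos_le_one _) (abs_nonneg _) (Real.exp_pos _).le
        _ = _ := mul_one _
    calc _ ≤ 1 * (√Real.pi * H * Real.exp (-(H / N) ^ 2 / 4)) := mul_le_mul h8 h9 (abs_nonneg _) zero_le_one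
      _ = _ := one_mul _

/-- the mean square of the mollifier -/
theorem onlMg {θ1 ηm : ℝ} (h1 : 0 ≤ θ1) (hηm : 0 < ηm) (h3 : θ1 + ηm < 1)
    {q : ℕ} (hq : 5 ≤ q) : ∃ η0 : ℝ, 0 < η0 ∧ ∀ (c : ℝ) (Rs : ℕ), 1 ≤ Rs → ∀ η : ℝ, 0 < η →
    η * ((Rs:ℝ) + 1) ≤ η0 → ∃ C : ℝ, 0 < C ∧ ∀ᶠ H : ℝ in atTop, ∀ J : ℕ,
      BL c (Real.exp (η * Real.log H)) J → ∀ t0 : ℝ,
      Integrable (fun t => Wg H t0 t * (‖fs q (ηm * Real.log H / q) (θ1 * Real.log H) (cl t)‖ ^ 2 *
        gp J 1 (RR Rs) (II (Real.exp (η * Real.log H))) t)) ∧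
      ∫ t : ℝ, Wg H t0 t * (‖fs q (ηm * Real.log H / q) (θ1 * Real.log H) (cl t)‖ ^ 2 *
        gp J 1 (RR Rs) (II (Real.exp (η * Real.log H))) t) ≤ C * H := by
  set μ := 1 - θ1 - ηm with hμ
  have hμ0 : 0 < μ := by rw [hμ]; linarith
  have hμ1 : μ ≤ 1 := by rw [hμ]; linarith
  refine ⟨μ / 640, by positivity, fun c Rs hRs η hη hηR => ?_⟩
  obtain ⟨C, hC0, hC⟩ := avgM c (1 / η) ηm 1 q hηm le_rfl hq
  refine ⟨2 * (C + 1), by positivity, ?_⟩
  have hqp : (0:ℝ) < q := by exact_mod_cast (by omega : 0 < q)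
  have hRs0 : (1:ℝ) ≤ Rs := by exact_mod_cast hRs
  have hη1 : η ≤ 1 / 640 := by
    have : η * 1 ≤ η * ((Rs:ℝ) + 1) := mul_le_mul_of_nonneg_left (by linarith) hη.le
    linarith
  filter_upwards [Real.tendsto_log_atTop.eventually_ge_atTop 400, ev_exp 1 3 0 (show (0:ℝ) < 1 / 4 by norm_num)
    (show 0 < 3 / 2 * μ by positivity), eventually_gt_atTop 1] with T hL400 hexp hT1 J hB t0
  have hT0 : 0 < T := by linarith
  set L := Real.log T with hL
  have hL0 : 0 < L := by linarith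
  have hL1 : 1 ≤ L := by linarith
  have hTL : T = Real.exp L := by rw [hL, Real.exp_log hT0]
  set y : ℝ := Real.exp (η * L) with hy
  have hly : Real.log y = η * L := Real.log_exp _
  have hyL : Real.log y ≤ L := by rw [hly]; nlinarith
  set D := θ1 * L with hD
  set c0 := ηm * L / q with hc0
  have hc0p : 0 < c0 := by positivity
  have hqc : (q:ℝ) * c0 = ηm * L := by rw [hc0]; field_simp
  set G := GP J 1 (RR Rs) (II y) with hG
  set F : DA := (mD q c0 D * mC q c0 D) * G with hF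
  set M1 := ⌊Real.exp (D + q * c0)⌋₊ with hM1
  have hM1le : (M1:ℝ) ≤ Real.exp ((θ1 + ηm) * L) := by
    rw [hM1]
    refine (Nat.floor_le (Real.exp_pos _).le).trans (Real.exp_le_exp.mpr ?_)
    rw [hqc, hD]; linarith
  have hM11 : 1 ≤ M1 := by
    rw [hM1, Nat.one_le_floor_iff]
    exact Real.one_le_exp (by rw [hqc, hD]; positivity)
  set B0 := Real.exp (Real.log y * (160 * ((Rs:ℝ) + 1))) with hB0
  set B := ⌈B0⌉₊ with hBd
  have hy1 : (1:ℝ) ≤ y := by linarith [hB.y1]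
  have hlen : Real.log y * (160 * ((Rs:ℝ) + 1)) ≤ μ / 4 * L := by
    rw [hly]
    calc η * L * (160 * ((Rs:ℝ) + 1)) = 160 * (η * ((Rs:ℝ) + 1)) * L := by ring
      _ ≤ 160 * (μ / 640) * L := by gcongr
      _ = _ := by ring
  have hGB0 : Bd B0 G := Pool.Agent.Y755.GP_Bdz (Rs := Rs) hy1 hB.rg 1
  have hGB : Bd (B:ℝ) G := hGB0.mono (Nat.le_ceil _)
  have hB01 : 1 ≤ B0 := Real.one_le_exp (mul_nonneg (Real.log_nonneg hy1) (by positivity))
  have hFB : Bd ((M1:ℝ) * B0) F := (Bd_mDC q c0 D).mul hGB0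
  have hN1 : 1 ≤ (M1:ℝ) * B0 := by
    have : (1:ℝ) ≤ M1 := by exact_mod_cast hM11
    nlinarith
  have hNle : (M1:ℝ) * B0 ≤ Real.exp ((1 - 3 / 4 * μ) * L) := by
    calc (M1:ℝ) * B0 ≤ Real.exp ((θ1 + ηm) * L) * Real.exp (μ / 4 * L) :=
          mul_le_mul hM1le (Real.exp_le_exp.mpr hlen) (Real.exp_pos _).le (Real.exp_pos _).le
      _ = _ := by rw [← Real.exp_add]; congr 1; rw [hμ]; ring
  have hpr : ∀ i, ∀ p ∈ II y i, p.Prime := fun i p hp => (hB.rg.pr i p hp).1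
  have hevF : ∀ t : ℝ, (ev t F).re = ‖fs q c0 D (cl t)‖ ^ 2 * gp J 1 (RR Rs) (II y) t := by
    intro t
    rw [hF, map_mul, map_mul, ev_mD, ev_mC, ← cl_half, Complex.mul_conj, Complex.normSq_eq_norm_sq, hG,
      ev_GP t J _ _ hpr, ← Complex.ofReal_mul, Complex.ofReal_re]
  have hl1 : l1 F ≤ Real.exp (3 * L) := by
    have a1 : l1 (mD q c0 D) ≤ Real.exp L := (l1_mD q hc0p D).trans (Real.exp_le_exp.mpr (by rw [hqc, hD]; nlinarith))
    have a2 : l1 (mC q c0 D) ≤ Real.exp L := (l1_mC q hc0p D).trans (Real.exp_le_exp.mpr (by rw [hqc, hD]; nlinarith))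
    have a3 : l1 G ≤ Real.exp L := by
      refine (GP_l1' hy1 hB.rg hRs (by norm_num)).trans (Real.exp_le_exp.mpr ?_)
      have : Real.log y * (320 * ((Rs:ℝ) + 1)) = 2 * (Real.log y * (160 * ((Rs:ℝ) + 1))) := by ring
      rw [this]; nlinarith
    calc l1 F ≤ l1 (mD q c0 D * mC q c0 D) * l1 G := l1_mul _ _
      _ ≤ (Real.exp L * Real.exp L) * Real.exp L := by
          refine mul_le_mul ((l1_mul _ _).trans ?_) a3 (l1_nonneg _) (by positivity)
          exact mul_le_mul a1 a2 (l1_nonneg _) (Real.exp_pos _).le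
      _ = _ := by rw [← Real.exp_add, ← Real.exp_add]; congr 1; ring
  -- the diagonal
  set N := ⌊Real.exp (3 * L)⌋₊ with hN
  have hNlog : ∀ p : ℕ, p < N → Real.log p ≤ 3 * L := by
    intro p hp
    rcases Nat.eq_zero_or_pos p with h0 | h0
    · rw [h0]; simp; linarith
    · have hp0 : (0:ℝ) < p := by exact_mod_cast h0
      rw [Real.log_le_iff_le_exp hp0]
      have h1 : (p:ℝ) ≤ N := by exact_mod_cast hp.le
      exact h1.trans (Nat.floor_le (Real.exp_pos _).le)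
  have hN2 : 2 * Real.exp L < N := by
    have h1 : Real.exp (3 * L) < N + 1 := Nat.lt_floor_add_one _
    have h2 : Real.exp (3 * L) = Real.exp L * Real.exp L * Real.exp L := by rw [← Real.exp_add, ← Real.exp_add]; congr 1; ring
    have h3 : L + 1 ≤ Real.exp L := Real.add_one_le_exp L
    have h4 : Real.exp L * 400 ≤ Real.exp L * Real.exp L :=
      mul_le_mul_of_nonneg_left (by linarith) (Real.exp_pos _).le
    have h5 : Real.exp L * Real.exp L * 400 ≤ Real.exp L * Real.exp L * Real.exp L :=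
      mul_le_mul_of_nonneg_left (by linarith) (by positivity)
    linarith
  have hyN : y < N := by
    have : y ≤ Real.exp L := by rw [hy]; exact Real.exp_le_exp.mpr (by nlinarith)
    linarith [Real.exp_pos L]
  have hMBN : M1 * B < N := by
    have a1 : (B:ℝ) ≤ 2 * B0 := by
      have := Nat.ceil_lt_add_one (show 0 ≤ B0 by linarith)
      linarith
    have a2 : ((M1 * B : ℕ) : ℝ) < N := by
      push_cast
      calc (M1:ℝ) * B ≤ M1 * (2 * B0) := by gcongr
        _ = 2 * (M1 * B0) := by ring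
        _ ≤ 2 * Real.exp ((1 - 3 / 4 * μ) * L) := by linarith
        _ ≤ 2 * Real.exp L := by
            have : Real.exp ((1 - 3 / 4 * μ) * L) ≤ Real.exp L := Real.exp_le_exp.mpr (by nlinarith)
            linarith
        _ < N := hN2
    exact_mod_cast a2
  have hM1N : M1 < N := by
    have hB1 : 1 ≤ B := Nat.one_le_ceil_iff.mpr (by linarith)
    exact lt_of_le_of_lt (Nat.le_mul_of_pos_right _ (by omega)) hMBN
  have hFB2 : Bd ((M1 * B : ℕ) : ℝ) F := by
    refine hFB.mono ?_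
    push_cast
    have : (0:ℝ) ≤ M1 := Nat.cast_nonneg _
    exact mul_le_mul_of_nonneg_left (Nat.le_ceil _) this
  have hdiag : lam w0 F ≤ C := by
    have e1 := lam_w0_int (N := N) hFB2 hMBN
    have e2 : ∀ θ : Ix N → ℝ, evt θ F = ((‖SMt q c0 D (1 / 2) θ‖ ^ 2 * gt J 1 (RR Rs) (II y) θ : ℝ) : ℂ) := by
      intro θ
      rw [hF, map_mul, map_mul, evt_mD, evt_mC, Complex.mul_conj, Complex.normSq_eq_norm_sq, hG,
        evt_GP θ J _ _ hpr, ← Complex.ofReal_mul]
    simp_rw [e2] at e1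
    rw [integral_complex_ofReal] at e1
    have e3 : lam w0 F = ∫ θ, ‖SMt q c0 D (1 / 2) θ‖ ^ 2 * gt J 1 (RR Rs) (II y) θ ∂(TT N) := by exact_mod_cast e1
    rw [e3]
    refine hC y L D N J Rs B hB hRs hNlog hL1 hyL (by rw [hly]; field_simp; exact le_rfl) hyN ?_ hGB ?_
    · rw [abs_of_nonneg (by positivity), hD]
      exact mul_le_mul_of_nonneg_right (by linarith) hL0.le
    · rw [← hqc]; exact hM1N
  have hfc : Continuous fun t => ‖fs q c0 D (cl t)‖ ^ 2 * gp J 1 (RR Rs) (II y) t :=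
    (ev_re_cont hFB).congr fun t => hevF t
  refine ⟨?_, ?_⟩
  · refine (Wg_int hT0 t0).mul_bdd (c := l1 F) hfc.aestronglyMeasurable (Eventually.of_forall fun t => ?_)
    rw [← hevF t, Real.norm_eq_abs]
    exact ev_re_le hFB t
  have h5 := avgPg hFB hT0 hN1 t0
  simp_rw [hevF] at h5
  have h6 : Real.exp (-(T / ((M1:ℝ) * B0)) ^ 2 / 4) * l1 F ≤ 1 := by
    have h7 : T ^ (3 / 2 * μ) ≤ (T / ((M1:ℝ) * B0)) ^ 2 := by
      have h8 : Real.exp (3 / 4 * μ * L) ≤ T / ((M1:ℝ) * B0) := by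
        rw [le_div_iff₀ (by positivity)]
        calc Real.exp (3 / 4 * μ * L) * ((M1:ℝ) * B0) ≤ Real.exp (3 / 4 * μ * L) * Real.exp ((1 - 3 / 4 * μ) * L) :=
              mul_le_mul_of_nonneg_left hNle (Real.exp_pos _).le
          _ = T := by
            rw [← Real.exp_add]
            rw [show 3 / 4 * μ * L + (1 - 3 / 4 * μ) * L = L by ring]
            exact hTL.symm
      calc T ^ (3 / 2 * μ) = Real.exp (3 / 4 * μ * L) ^ 2 := by
            rw [Real.rpow_def_of_pos hT0, ← Real.exp_nat_mul, ← hL]; congr 1; push_cast; ring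
        _ ≤ _ := pow_le_pow_left₀ (Real.exp_pos _).le h8 2
    have h9 : Real.exp (-(T / ((M1:ℝ) * B0)) ^ 2 / 4) ≤ Real.exp (-(1 / 4) * T ^ (3 / 2 * μ)) := by
      refine Real.exp_le_exp.mpr ?_
      linarith
    have h10 : Real.exp (3 * L) = T ^ (3:ℝ) := by
      rw [Real.rpow_def_of_pos hT0, ← hL]; congr 1; ring
    rw [Real.rpow_zero, one_mul] at hexp
    calc Real.exp (-(T / ((M1:ℝ) * B0)) ^ 2 / 4) * l1 F ≤ Real.exp (-(1 / 4) * T ^ (3 / 2 * μ)) * T ^ (3:ℝ) :=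
          mul_le_mul h9 (hl1.trans (le_of_eq h10)) (l1_nonneg _) (Real.exp_pos _).le
      _ = T ^ (3:ℝ) * Real.exp (-(1 / 4) * T ^ (3 / 2 * μ)) := mul_comm _ _
      _ ≤ 1 := hexp
  have h10 := (abs_le.mp h5).2
  have hsp : √Real.pi ≤ 2 := by
    rw [show (2:ℝ) = √(2 ^ 2) by rw [Real.sqrt_sq (by norm_num)]]
    exact Real.sqrt_le_sqrt (by have := Real.pi_lt_four; linarith)
  have h11 : √Real.pi * T * lam w0 F ≤ √Real.pi * T * C := mul_le_mul_of_nonneg_left hdiag (by positivity)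
  have h12 : √Real.pi * T * Real.exp (-(T / ((M1:ℝ) * B0)) ^ 2 / 4) * l1 F ≤ √Real.pi * T * 1 := by
    rw [mul_assoc (√Real.pi * T)]
    exact mul_le_mul_of_nonneg_left h6 (by positivity)
  have h13 : √Real.pi * T * (C + 1) ≤ 2 * T * (C + 1) := by gcongr
  calc _ ≤ √Real.pi * T * lam w0 F + √Real.pi * T * Real.exp (-(T / ((M1:ℝ) * B0)) ^ 2 / 4) * l1 F := by linarith
    _ ≤ √Real.pi * T * (C + 1) := by linarith
    _ ≤ _ := by linarith

end

end Pool.Agent.Zk6
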