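import Pool.Agent.Zk6.E1

set_option autoImplicit false

/-! The first moment of the mollified zeta function on the critical line, on short intervals. -/

namespace Pool.Agent.Zk6

open Finset Filter MeasureTheory
open Pool.Agent.W184.NZ
open Pool.Agent.TH806 (BL cl_two gp_cont)
open Pool.Agent.H306R2.SM (om cl Yf)
open Pool.Agent.H448R2.GC (cu fs cu_nonneg cu_le_one)

noncomputable section

/-- the product of the inequalities over the blocks -/
lemma gp_star1 {J Rs : ℕ} (hRs : 2 ≤ Rs) (I : ℕ → Finset ℕ) (t : ℝ) :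
    3 / 7 ≤ gp J 1 (RR Rs) I t ^ ((1:ℝ) / 2) * gp J (-1) (RR Rs) I t ^ ((1:ℝ) / 2) := by
  have hex : ∀ i, Real.exp (-(RR Rs i : ℝ)) ≤ 1 / 7 := by
    intro i
    refine le_trans (Real.exp_le_exp.mpr ?_) exp_m2_le
    have : 2 ≤ RR Rs i := by unfold RR; omega
    have : (2:ℝ) ≤ (RR Rs i : ℝ) := by exact_mod_cast this
    linarith
  unfold gp
  rw [← Real.finsetProd_rpow _ _ (fun i _ => gf_nonneg _ _ _ _), ← Real.finsetProd_rpow _ _ (fun i _ => gf_nonneg _ _ _ _),
    ← prod_mul_distrib]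
  have h1 : ∏ i ∈ range J, (1 - 2 * Real.exp (-(RR Rs i : ℝ))) ≤ ∏ i ∈ range J,
      (gf (20 * RR Rs i) 1 (RR Rs i) (PI (I i) (1 / 2 + t * Complex.I)) ^ ((1:ℝ) / 2) *
        gf (20 * RR Rs i) (-1) (RR Rs i) (PI (I i) (1 / 2 + t * Complex.I)) ^ ((1:ℝ) / 2)) := by
    refine prod_le_prod (fun i _ => ?_) fun i _ => ?_
    · have := hex i; linarith
    · have hR : 1 ≤ RR Rs i := by unfold RR; omega
      have h2 := star_w (K := 20 * RR Rs i) (K' := 20 * RR Rs i) (θ := 1 / 2) (a := -1) (b := 1) (by norm_num)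
        (by norm_num) (by norm_num) hR (cl_two hR (by norm_num))
        (cl_two hR (by norm_num)) (PI (I i) (1 / 2 + t * Complex.I))
      have e3 : (1:ℝ) - 1 / 2 = 1 / 2 := by norm_num
      rw [e3] at h2
      refine le_trans ?_ h2
      nlinarith [sq_nonneg (Real.exp (-(RR Rs i : ℝ)))]
  refine le_trans ?_ h1
  have h3 := prod_one_sub' (J := J) (x := fun i => 2 * Real.exp (-(RR Rs i : ℝ))) (fun i => by positivity)
    (fun i => by have := hex i; linarith)
  refine le_trans ?_ h3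
  rw [← mul_sum]
  have h4 := sum_exp_le J Rs (RR_ge Rs)
  have h5 := exp_m2_le
  have h6 : Real.exp (-(Rs:ℝ)) ≤ Real.exp (-2) := Real.exp_le_exp.mpr (by
    have : (2:ℝ) ≤ Rs := by exact_mod_cast hRs
    linarith)
  linarith

/-- the pointwise bound -/
lemma pw1 {J Rs : ℕ} (hRs : 2 ≤ Rs) (I : ℕ → Finset ℕ) (t : ℝ) {Z M : ℝ} (hZ : 0 ≤ Z) (hM : 0 ≤ M) :
    3 / 7 * (Z * M) ≤ 1 / 2 * (Z ^ 2 * gp J (-1) (RR Rs) I t) + 1 / 2 * (M ^ 2 * gp J 1 (RR Rs) I t) := by
  have hs := gp_star1 (J := J) hRs I t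
  set g1 := gp J 1 (RR Rs) I t with hg1
  set g2 := gp J (-1) (RR Rs) I t with hg2
  have g10 : 0 ≤ g1 := gp_nonneg _ _ _ _ _
  have g20 : 0 ≤ g2 := gp_nonneg _ _ _ _ _
  rw [← Real.sqrt_eq_rpow, ← Real.sqrt_eq_rpow] at hs
  have s1 : √g1 ^ 2 = g1 := Real.sq_sqrt g10
  have s2 : √g2 ^ 2 = g2 := Real.sq_sqrt g20
  have h1 : 0 ≤ (Z * √g2 - M * √g1) ^ 2 := sq_nonneg _
  have h2 : (Z * √g2 - M * √g1) ^ 2 = Z ^ 2 * g2 + M ^ 2 * g1 - 2 * (Z * M) * (√g1 * √g2) := by
    rw [← s1, ← s2]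
    rw [Real.sqrt_sq (Real.sqrt_nonneg g1), Real.sqrt_sq (Real.sqrt_nonneg g2)]
    ring
  have h3 : (Z * M) * (3 / 7) ≤ (Z * M) * (√g1 * √g2) := mul_le_mul_of_nonneg_left hs (mul_nonneg hZ hM)
  linarith

/-- the first moment on the critical line -/
theorem mom1 {h1 : ℝ} (hlo : 27 / 82 < h1) (hhi : h1 < 1 / 2) {θ1 ηm : ℝ} (hθ : 0 ≤ θ1) (hηm : 0 < ηm)
    (h3 : θ1 + ηm < 1) :
    ∃ C : ℝ, 0 < C ∧ ∀ᶠ T : ℝ in atTop, ∀ V H : ℝ, T / 4 ≤ V → V + 2 * H ≤ 4 * T → T ^ h1 ≤ H → H ≤ T →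
      ∫ t in V..(V + H), ‖riemannZeta (cl t) * fs 8 (ηm * Real.log H / 8) (θ1 * Real.log H) (cl t) - 1‖ ≤
        C * H := by
  obtain ⟨c, hc, hrg⟩ := ranges
  obtain ⟨ηa, hηa, hA⟩ := onl_s hlo hhi
  obtain ⟨ηb, hηb, hB⟩ := onlMg hθ hηm h3 (q := 8) (by norm_num)
  obtain ⟨R0, hR0⟩ := Rok_ex c
  set Rs : ℕ := max R0 2 with hRs
  have hRok : Rok c Rs := Rok_mono hR0 (le_max_left _ _)
  have hRs2 : 2 ≤ Rs := le_max_right _ _
  have hRsp : (0:ℝ) < (Rs:ℝ) + 1 := by positivity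
  set η : ℝ := min ηa ηb / ((Rs:ℝ) + 1) with hη
  have hη0 : 0 < η := by rw [hη]; have := lt_min hηa hηb; positivity
  have hη3 : η * ((Rs:ℝ) + 1) = min ηa ηb := by rw [hη]; field_simp
  have h10 : 0 < h1 := by linarith
  set d : ℝ := c + |Real.log η| + |Real.log h1| with hd
  have hd0 : 0 ≤ d := by positivity
  obtain ⟨CA, hCA, hA⟩ := hA c d Rs hc hd0 hRok η hη0 (by rw [hη3]; exact min_le_left _ _)
  obtain ⟨CB, hCB, hB⟩ := hB c Rs (by omega) η hη0 (by rw [hη3]; exact min_le_right _ _)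
  refine ⟨7 / 3 * (1 / 2 * CA + 1 / 2 * (3 * CB)) + 1, by positivity, ?_⟩
  obtain ⟨H0, hH0⟩ := eventually_atTop.mp (hB.and (Real.tendsto_log_atTop.eventually_ge_atTop (Real.log 144 / η)))
  filter_upwards [hA, (tendsto_rpow_atTop h10).eventually_ge_atTop (max H0 3),
    Real.tendsto_log_atTop.eventually_ge_atTop 3, eventually_gt_atTop 1] with
    T hA hTH hL3 hT1 V H hV1 hV2 hH1 hH2
  have hT0 : 0 < T := by linarith
  have hHH0 : H0 ≤ H := (le_max_left _ _).trans (hTH.trans hH1)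
  have hH3 : 3 ≤ H := (le_max_right _ _).trans (hTH.trans hH1)
  have hHp : 0 < H := by linarith
  obtain ⟨hB, h144⟩ := hH0 H hHH0
  set L := Real.log H with hL
  have hL1 : 1 ≤ L := by
    rw [hL, Real.le_log_iff_exp_le hHp]
    have := Real.exp_one_lt_d9
    linarith
  set y : ℝ := Real.exp (η * L) with hy
  have hy144 : 144 ≤ y := by
    rw [hy, ← Real.log_le_iff_le_exp (by norm_num)]
    rw [div_le_iff₀ hη0] at h144
    linarith
  have hLT : L ≤ Real.log T := Real.log_le_log hHp hH2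
  have hLT2 : h1 * Real.log T ≤ L := by
    rw [← Real.log_rpow hT0]
    exact Real.log_le_log (by positivity) hH1
  obtain ⟨J, hJ1, hJ2, hJ3, hJ4⟩ := hrg y hy144
  have hBL : BL c y J := ⟨hc, hy144, hJ1, hJ3, hJ4⟩
  have hv : |∑ i ∈ range J, vI (II y i) - Real.log (Real.log T)| ≤ d := by
    have e1 : Real.log y = η * L := Real.log_exp _
    rw [e1, Real.log_mul hη0.ne' (by linarith)] at hJ4
    have l1 : Real.log L ≤ Real.log (Real.log T) := Real.log_le_log (by linarith) hLT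
    have l2 : Real.log h1 + Real.log (Real.log T) ≤ Real.log L := by
      rw [← Real.log_mul h10.ne' (by linarith)]
      exact Real.log_le_log (by positivity) hLT2
    obtain ⟨j1, j2⟩ := abs_le.mp hJ4
    rw [abs_le, hd]
    have a1 := neg_abs_le (Real.log η)
    have a2 := le_abs_self (Real.log η)
    have a3 := neg_abs_le (Real.log h1)
    have a4 := abs_nonneg (Real.log h1)
    constructor <;> linarith
  have hA := hA y (by linarith) (by rw [Real.log_exp]; exact mul_le_mul_of_nonneg_left hLT hη0.le) J (II y) hJ1 hv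
    (-1) (by norm_num) V H hV1 hV2 hH1
  have hpow : Real.log T ^ ((1 + (-1:ℝ)) ^ 2) = 1 := by norm_num
  rw [hpow, mul_one] at hA
  obtain ⟨hBi, hB⟩ := hB J hBL V
  push_cast at hB hBi
  set M : ℝ → ℂ := fun t => fs 8 (ηm * L / 8) (θ1 * L) (cl t) with hM
  set g1 : ℝ → ℝ := fun t => gp J 1 (RR Rs) (II y) t with hg1
  set g2 : ℝ → ℝ := fun t => gp J (-1) (RR Rs) (II y) t with hg2
  have hMc : Continuous M := (fs_cont _ _ _).comp cl_cont
  have hzc := Pool.Agent.H262R4.TM.TTW.zeta_cont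
  have hg1c : Continuous g1 := gp_cont hBL 1 Rs
  have hg2c : Continuous g2 := gp_cont hBL (-1) Rs
  have c1 : Continuous fun t => ‖riemannZeta (cl t)‖ ^ 2 * g2 t := (hzc.norm.pow 2).mul hg2c
  have c2 : Continuous fun t => ‖M t‖ ^ 2 * g1 t := (hMc.norm.pow 2).mul hg1c
  have c3 : Continuous fun t => ‖riemannZeta (cl t) * M t - 1‖ :=
    ((hzc.mul hMc).sub continuous_const).norm
  have hVH : V ≤ V + H := by linarith
  have hB' : ∫ t in V..(V + H), ‖M t‖ ^ 2 * g1 t ≤ 3 * CB * H := by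
    rw [intervalIntegral.integral_of_le hVH]
    have b1 : ∫ t in Set.Ioc V (V + H), ‖M t‖ ^ 2 * g1 t ≤
        ∫ t in Set.Ioc V (V + H), 3 * (Wg H V t * (‖M t‖ ^ 2 * g1 t)) := by
      refine setIntegral_mono_on ((c2.integrableOn_Icc (a := V) (b := V + H)).mono_set Set.Ioc_subset_Icc_self)
        (((((Wg_cont _ _).mul c2).const_mul 3).integrableOn_Icc (a := V) (b := V + H)).mono_set
          Set.Ioc_subset_Icc_self) measurableSet_Ioc fun t ht => ?_
      have h3 : 1 / 3 ≤ Wg H V t := by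
        unfold Wg
        have h4 : ((t - V) / H) ^ 2 ≤ 1 := by
          have h5 : 0 ≤ (t - V) / H := div_nonneg (by linarith [ht.1]) hHp.le
          have h6 : (t - V) / H ≤ 1 := by
            rw [div_le_one hHp]; linarith [ht.2]
          exact pow_le_one₀ h5 h6
        have h7 : Real.exp (-1) ≤ Real.exp (-((t - V) / H) ^ 2) := by
          refine Real.exp_le_exp.mpr ?_
          linarith
        refine le_trans ?_ h7
        rw [Real.exp_neg, one_div]
        refine inv_anti₀ (Real.exp_pos _) ?_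
        have := Real.exp_one_lt_d9
        linarith
      have h8 : 0 ≤ ‖M t‖ ^ 2 * g1 t := mul_nonneg (by positivity) (gp_nonneg _ _ _ _ _)
      nlinarith
    have b2 : ∫ t in Set.Ioc V (V + H), 3 * (Wg H V t * (‖M t‖ ^ 2 * g1 t)) ≤
        3 * ∫ t, Wg H V t * (‖M t‖ ^ 2 * g1 t) := by
      rw [integral_const_mul]
      refine mul_le_mul_of_nonneg_left ?_ (by norm_num)
      exact setIntegral_le_integral hBi (Eventually.of_forall fun t =>
        mul_nonneg (Wg_pos _ _ _).le (mul_nonneg (by positivity) (gp_nonneg _ _ _ _ _)))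
    have b3 : ∫ t, Wg H V t * (‖M t‖ ^ 2 * g1 t) ≤ CB * H := hB
    linarith
  have hpt : ∀ t, ‖riemannZeta (cl t) * M t - 1‖ ≤
      7 / 3 * (1 / 2 * (‖riemannZeta (cl t)‖ ^ 2 * g2 t) + 1 / 2 * (‖M t‖ ^ 2 * g1 t)) + 1 := by
    intro t
    have p1 : ‖riemannZeta (cl t) * M t - 1‖ ≤ ‖riemannZeta (cl t) * M t‖ + 1 := by
      have := norm_sub_le (riemannZeta (cl t) * M t) 1
      rwa [norm_one] at this
    have p2 := pw1 (J := J) hRs2 (II y) t (norm_nonneg (riemannZeta (cl t))) (norm_nonneg (M t))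
    rw [← norm_mul] at p2
    have p3 : g2 t = gp J (-1) (RR Rs) (II y) t := rfl
    have p4 : g1 t = gp J 1 (RR Rs) (II y) t := rfl
    rw [p3, p4]
    linarith
  have hint : IntervalIntegrable (fun t => 7 / 3 * (1 / 2 * (‖riemannZeta (cl t)‖ ^ 2 * g2 t) +
      1 / 2 * (‖M t‖ ^ 2 * g1 t)) + 1) volume V (V + H) := by
    refine Continuous.intervalIntegrable ?_ _ _
    fun_prop
  calc _ ≤ ∫ t in V..(V + H), (7 / 3 * (1 / 2 * (‖riemannZeta (cl t)‖ ^ 2 * g2 t) +
        1 / 2 * (‖M t‖ ^ 2 * g1 t)) + 1) :=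
        intervalIntegral.integral_mono_on hVH (c3.intervalIntegrable _ _) hint fun t _ => hpt t
    _ = 7 / 3 * (1 / 2 * (∫ t in V..(V + H), ‖riemannZeta (cl t)‖ ^ 2 * g2 t) +
        1 / 2 * ∫ t in V..(V + H), ‖M t‖ ^ 2 * g1 t) + H := by
        rw [intervalIntegral.integral_add, intervalIntegral.integral_const_mul, intervalIntegral.integral_add,
          intervalIntegral.integral_const_mul, intervalIntegral.integral_const_mul,
          intervalIntegral.integral_const, smul_eq_mul, mul_one, add_sub_cancel_left]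
        · exact (c1.const_mul _).intervalIntegrable _ _
        · exact (c2.const_mul _).intervalIntegrable _ _
        · refine Continuous.intervalIntegrable ?_ _ _
          fun_prop
        · exact continuous_const.intervalIntegrable _ _
    _ ≤ _ := by
        have hA2 : ∫ t in V..(V + H), ‖riemannZeta (cl t)‖ ^ 2 * g2 t ≤ CA * H := hA
        nlinarith

end

end Pool.Agent.Zk6
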