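import Pool.Agent.Zk6.G1

set_option autoImplicit false

/-!
Averages over the torus of products of local factors, general form.
-/

namespace Pool.Agent.Zk6

open Finset MeasureTheory Complex
open Pool.Agent.W184.NZ
open Pool.Agent.TH806 (ec ec_norm ec_cont uu Ix TT PT PT_eq gt gt_nonneg Af Af_nonneg cf gf_le_sum cl_two norm_NK_le)

noncomputable section

/-- a majorant by five exponentials -/
def Maj (a : ℝ) (κ : Fin 5 → ℂ) : Prop := ∀ R : ℕ, 1 ≤ R → ∀ z : ℂ,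
  gf (20 * R) a R z ≤ ∑ i : Fin 5, Af R i * Real.exp ((κ i * z).re)

lemma Maj_cf {a : ℝ} (ha : |a| ≤ 9 / 8) : Maj a (cf a) := fun _ hR z => gf_le_sum hR ha z

/-- larger coefficients of the exponentials -/
def cg (a : ℝ) : Fin 5 → ℂ := ![((2 * a : ℝ) : ℂ), 6 - 6 * Complex.I, 6 + 6 * Complex.I,
  -6 - 6 * Complex.I, -6 + 6 * Complex.I]

lemma gf_le9 {R : ℕ} (hR : 1 ≤ R) {a : ℝ} (ha : |a| ≤ 2) (z : ℂ) :
    gf (20 * R) a R z ≤ (1 + Real.exp (-(R:ℝ))) ^ 2 * Real.exp (2 * a * z.re) +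
      2 * Real.exp (-(3 / 2 * (R:ℝ))) * Real.exp (6 * ‖z‖) := by
  have hcl := cl_two hR (a := a) ha
  have hR0 : (0:ℝ) ≤ R := Nat.cast_nonneg _
  have hb := ball_pow_le hR z
  have hz0 := norm_nonneg z
  have hb2 : Real.exp (-(2 * (R:ℝ))) ≤ Real.exp (-(3 / 2 * (R:ℝ))) := Real.exp_le_exp.mpr (by linarith)
  have hb3 : Real.exp (4 * ‖z‖) ≤ Real.exp (6 * ‖z‖) := Real.exp_le_exp.mpr (by linarith)
  have h1 : ‖NK (20 * R) a z‖ ^ 2 ≤ (1 + Real.exp (-(R:ℝ))) ^ 2 * Real.exp (2 * a * z.re) +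
      Real.exp (-(3 / 2 * (R:ℝ))) * Real.exp (6 * ‖z‖) := by
    by_cases hz : ‖z‖ ≤ R
    · have h2 := NK_le_of_cl hcl hz
      have h3 : ‖NK (20 * R) a z‖ ^ 2 ≤ ((1 + Real.exp (-(R:ℝ))) * ‖Complex.exp (a * z)‖) ^ 2 :=
        pow_le_pow_left₀ (norm_nonneg _) h2 2
      rw [mul_pow, norm_exp_sq] at h3
      have : 0 ≤ Real.exp (-(3 / 2 * (R:ℝ))) * Real.exp (6 * ‖z‖) := by positivity
      linarith
    · push Not at hz
      have h2 : ‖NK (20 * R) a z‖ ^ 2 ≤ Real.exp (|a| * ‖z‖) ^ 2 :=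
        pow_le_pow_left₀ (norm_nonneg _) (norm_NK_le _ _ _) 2
      have h3 : Real.exp (|a| * ‖z‖) ^ 2 ≤ Real.exp (-(3 / 2 * (R:ℝ))) * Real.exp (6 * ‖z‖) := by
        rw [← Real.exp_nat_mul, ← Real.exp_add]
        apply Real.exp_le_exp.mpr
        push_cast
        have h4 : |a| * ‖z‖ ≤ 2 * ‖z‖ := mul_le_mul_of_nonneg_right ha (norm_nonneg _)
        linarith
      have : 0 ≤ (1 + Real.exp (-(R:ℝ))) ^ 2 * Real.exp (2 * a * z.re) := by positivity
      linarith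
  unfold gf
  have h5 := mul_le_mul hb2 hb3 (Real.exp_pos _).le (Real.exp_pos _).le
  have h6 := hb.trans h5
  linarith

lemma Maj_cg {a : ℝ} (ha : |a| ≤ 2) : Maj a (cg a) := by
  intro R hR z
  refine (gf_le9 hR ha z).trans ?_
  have h := norm_exp_le ((3 / 2 : ℝ) • z)
  rw [norm_smul, Real.norm_eq_abs, abs_of_pos (by norm_num : (0:ℝ) < 3 / 2)] at h
  have e6 : 4 * (3 / 2 * ‖z‖) = 6 * ‖z‖ := by ring
  rw [e6] at h
  have f1 : ∀ c : ℂ, c * ((3 / 2 : ℝ) • z) = (((3 / 2 : ℝ) : ℂ) * c) * z := by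
    intro c; rw [Complex.real_smul]; ring
  rw [f1, f1, f1, f1] at h
  have h0 : 0 ≤ 2 * Real.exp (-(3 / 2 * (R:ℝ))) := by positivity
  have h1 := mul_le_mul_of_nonneg_left h h0
  rw [Fin.sum_univ_five]
  have e0 : (cg a 0 * z).re = 2 * a * z.re := by
    simp only [cg, Matrix.cons_val_zero]
    rw [Complex.re_ofReal_mul]
  have e1 : Af R 0 = (1 + Real.exp (-(R:ℝ))) ^ 2 := rfl
  have e2 : Af R 1 = 2 * Real.exp (-(3 / 2 * (R:ℝ))) := rfl
  have e3 : Af R 2 = 2 * Real.exp (-(3 / 2 * (R:ℝ))) := rfl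
  have e4 : Af R 3 = 2 * Real.exp (-(3 / 2 * (R:ℝ))) := rfl
  have e5 : Af R 4 = 2 * Real.exp (-(3 / 2 * (R:ℝ))) := rfl
  have c1 : cg a 1 = ((3 / 2 : ℝ) : ℂ) * (4 - 4 * Complex.I) := by
    have : cg a 1 = 6 - 6 * Complex.I := rfl
    rw [this]; push_cast; ring
  have c2 : cg a 2 = ((3 / 2 : ℝ) : ℂ) * (4 + 4 * Complex.I) := by
    have : cg a 2 = 6 + 6 * Complex.I := rfl
    rw [this]; push_cast; ring
  have c3 : cg a 3 = ((3 / 2 : ℝ) : ℂ) * (-4 - 4 * Complex.I) := by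
    have : cg a 3 = -6 - 6 * Complex.I := rfl
    rw [this]; push_cast; ring
  have c4 : cg a 4 = ((3 / 2 : ℝ) : ℂ) * (-4 + 4 * Complex.I) := by
    have : cg a 4 = -6 + 6 * Complex.I := rfl
    rw [this]; push_cast; ring
  rw [e0, e1, e2, e3, e4, e5, c1, c2, c3, c4]
  linarith

lemma cg_norm {a : ℝ} (ha : |a| ≤ 2) (i : Fin 5) : ‖cg a i‖ ≤ 9 := by
  have h4 : ∀ s t : ℝ, |s| = 6 → |t| = 6 → ‖(s:ℂ) + t * Complex.I‖ ≤ 9 := by
    intro s t hs ht
    have h1 : ‖(s:ℂ) + t * Complex.I‖ ^ 2 = s ^ 2 + t ^ 2 := by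
      rw [← Complex.normSq_eq_norm_sq, Complex.normSq_add_mul_I]
    have h2 : s ^ 2 = 36 := by rw [← sq_abs, hs]; norm_num
    have h3 : t ^ 2 = 36 := by rw [← sq_abs, ht]; norm_num
    nlinarith [norm_nonneg ((s:ℂ) + t * Complex.I)]
  unfold cg
  fin_cases i
  · simp only [Fin.zero_eta, Matrix.cons_val_zero]
    rw [Complex.norm_real, Real.norm_eq_abs, abs_mul, abs_two]; linarith
  · have := h4 6 (-6) (by norm_num) (by norm_num)
    simpa [sub_eq_add_neg] using this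
  · have := h4 6 6 (by norm_num) (by norm_num)
    simpa using this
  · have := h4 (-6) (-6) (by norm_num) (by norm_num)
    simpa [sub_eq_add_neg] using this
  · have := h4 (-6) 6 (by norm_num) (by norm_num)
    simpa using this

variable {N : ℕ}

/-- the coefficients at the primes -/
def ccg (J : ℕ) (κ : Fin 5 → ℂ) (I : ℕ → Finset ℕ) (s : Fin J → Fin 5) (p : Ix N) : ℂ :=
  ∑ i : Fin J, if p.1 ∈ I i then κ (s i) * ((p.1 : ℕ) : ℂ) ^ (-(1 / 2) : ℂ) else 0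

/-- the local integrand -/
def Hg (h : ℝ → ℝ) (c : ℂ) (x : ℝ) : ℝ := h x * Real.exp ((c * ec x).re)

lemma exp_sum_ccg (J : ℕ) (κ : Fin 5 → ℂ) {I : ℕ → Finset ℕ} (hI : ∀ i < J, I i ⊆ Nat.primesBelow N)
    (s : Fin J → Fin 5) (θ : Ix N → ℝ) :
    ∏ p : Ix N, Real.exp ((ccg J κ I s p * ec (θ p)).re) =
      Real.exp (∑ i : Fin J, (κ (s i) * PT θ (I i)).re) := by
  rw [← Real.exp_sum]
  congr 1
  have h1 : ∀ p : Ix N, (ccg J κ I s p * ec (θ p)).re = ∑ i : Fin J,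
      (κ (s i) * (if p.1 ∈ I i then ((p.1 : ℕ) : ℂ) ^ (-(1 / 2) : ℂ) * ec (θ p) else 0)).re := by
    intro p
    unfold ccg
    rw [sum_mul, Complex.re_sum]
    refine sum_congr rfl fun i _ => ?_
    split_ifs
    · rw [mul_assoc]
    · simp
  rw [sum_congr rfl fun p _ => h1 p, sum_comm]
  refine sum_congr rfl fun i _ => ?_
  rw [PT_eq θ (hI i i.2), mul_sum, Complex.re_sum]

lemma gt_leg {J : ℕ} {a : ℝ} {κ : Fin 5 → ℂ} (hκ : Maj a κ) {R : ℕ → ℕ} (hR : ∀ i, 1 ≤ R i) (I : ℕ → Finset ℕ)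
    (θ : Ix N → ℝ) :
    gt J a R I θ ≤ ∑ s : Fin J → Fin 5, (∏ i : Fin J, Af (R i) (s i)) *
      Real.exp (∑ i : Fin J, (κ (s i) * PT θ (I i)).re) := by
  unfold gt
  rw [Finset.prod_range]
  have h1 : ∏ i : Fin J, gf (20 * R i) a (R i) (PT θ (I i)) ≤
      ∏ i : Fin J, ∑ j : Fin 5, Af (R i) j * Real.exp ((κ j * PT θ (I i)).re) :=
    prod_le_prod (fun i _ => gf_nonneg _ _ _ _) fun i _ => hκ _ (hR i) _
  refine h1.trans (le_of_eq ?_)
  rw [Fintype.prod_sum]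
  refine sum_congr rfl fun s _ => ?_
  rw [prod_mul_distrib, Real.exp_sum]

/-- the average of the product -/
theorem tor_gen {h : Ix N → ℝ → ℝ} (hc : ∀ p, Continuous (h p)) (h0 : ∀ p x, 0 ≤ h p x)
    {Bh : Ix N → ℝ} (hB : ∀ p x, h p x ≤ Bh p)
    {J : ℕ} {a : ℝ} {κ : Fin 5 → ℂ} (hκ : Maj a κ) {R : ℕ → ℕ} (hR : ∀ i, 1 ≤ R i) {I : ℕ → Finset ℕ}
    (hI : ∀ i < J, I i ⊆ Nat.primesBelow N) (hd : ∀ i j, i < j → Disjoint (I i) (I j))
    {u0 : ℕ → ℝ} {u1 : ℕ → Fin 5 → ℝ}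
    (hu0 : ∀ p : Ix N, (∀ i < J, p.1 ∉ I i) → ∫ x, Hg (h p) 0 x ∂uu ≤ Real.exp (u0 p.1))
    (hu1 : ∀ p : Ix N, ∀ i < J, p.1 ∈ I i → ∀ j : Fin 5,
      ∫ x, Hg (h p) (κ j * ((p.1 : ℕ) : ℂ) ^ (-(1 / 2) : ℂ)) x ∂uu ≤ Real.exp (u1 p.1 j)) :
    ∫ θ, (∏ p : Ix N, h p (θ p)) * gt J a R I θ ∂(TT N) ≤
      Real.exp (∑ p ∈ (Nat.primesBelow N).filter (fun p => ∀ i < J, p ∉ I i), u0 p) *
      ∏ i ∈ range J, ∑ j : Fin 5, Af (R i) j * Real.exp (∑ p ∈ I i, u1 p j) := by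
  have hHg0 : ∀ p c x, 0 ≤ Hg (h p) c x := fun p c x => mul_nonneg (h0 p x) (Real.exp_pos _).le
  have hHgc : ∀ p c, Continuous (Hg (h p) c) := by
    intro p c
    unfold Hg
    have h3 : Continuous fun x : ℝ => (c * ec x).re := by
      have := ec_cont; exact Complex.continuous_re.comp (by fun_prop)
    have := hc p
    fun_prop
  have hHgb : ∀ p c x, Hg (h p) c x ≤ Bh p * Real.exp ‖c‖ := by
    intro p c x
    unfold Hg
    have h1 : (c * ec x).re ≤ ‖c‖ := by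
      have := Complex.re_le_norm (c * ec x)
      rwa [norm_mul, ec_norm, mul_one] at this
    exact mul_le_mul (hB p x) (Real.exp_le_exp.mpr h1) (Real.exp_pos _).le ((h0 p x).trans (hB p x))
  have hHc : ∀ s : Fin J → Fin 5, Continuous fun θ : Ix N → ℝ =>
      ∏ p : Ix N, Hg (h p) (ccg J κ I s p) (θ p) := fun s =>
    continuous_finsetProd _ fun p _ => (hHgc p _).comp (continuous_apply p)
  have hHi : ∀ s : Fin J → Fin 5, Integrable (fun θ : Ix N → ℝ =>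
      ∏ p : Ix N, Hg (h p) (ccg J κ I s p) (θ p)) (TT N) := by
    intro s
    refine Integrable.of_bound (C := ∏ p : Ix N, (Bh p * Real.exp ‖ccg J κ I s p‖))
      (hHc s).aestronglyMeasurable (Filter.Eventually.of_forall fun θ => ?_)
    rw [norm_prod]
    refine prod_le_prod (fun p _ => norm_nonneg _) fun p _ => ?_
    rw [Real.norm_eq_abs, abs_of_nonneg (hHg0 _ _ _)]
    exact hHgb _ _ _
  have step1 : ∫ θ, (∏ p : Ix N, h p (θ p)) * gt J a R I θ ∂(TT N) ≤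
      ∫ θ, ∑ s : Fin J → Fin 5, (∏ i : Fin J, Af (R i) (s i)) *
        ∏ p : Ix N, Hg (h p) (ccg J κ I s p) (θ p) ∂(TT N) := by
    refine integral_mono_of_nonneg (Filter.Eventually.of_forall fun θ => ?_)
      (integrable_finsetSum _ fun s _ => (hHi s).const_mul _) (Filter.Eventually.of_forall fun θ => ?_)
    · exact mul_nonneg (prod_nonneg fun p _ => h0 p _) (gt_nonneg _ _ _ _ _)
    · simp only
      calc (∏ p : Ix N, h p (θ p)) * gt J a R I θ ≤ (∏ p : Ix N, h p (θ p)) *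
          ∑ s : Fin J → Fin 5, (∏ i : Fin J, Af (R i) (s i)) *
            Real.exp (∑ i : Fin J, (κ (s i) * PT θ (I i)).re) :=
            mul_le_mul_of_nonneg_left (gt_leg hκ hR I θ) (prod_nonneg fun p _ => h0 p _)
        _ = _ := by
            rw [mul_sum]
            refine sum_congr rfl fun s _ => ?_
            unfold Hg
            rw [prod_mul_distrib, exp_sum_ccg J κ hI s θ]; ring
  refine step1.trans ?_
  rw [integral_finsetSum _ fun s _ => (hHi s).const_mul _]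
  have step2 : ∀ s : Fin J → Fin 5, ∫ θ, (∏ i : Fin J, Af (R i) (s i)) *
        ∏ p : Ix N, Hg (h p) (ccg J κ I s p) (θ p) ∂(TT N) ≤
      Real.exp (∑ p ∈ (Nat.primesBelow N).filter (fun p => ∀ i < J, p ∉ I i), u0 p) *
        ∏ i : Fin J, (Af (R i) (s i) * Real.exp (∑ p ∈ I i, u1 p (s i))) := by
    intro s
    rw [integral_const_mul]
    unfold TT
    rw [integral_fintype_prod_eq_prod (𝕜 := ℝ) (f := fun (p : Ix N) (x : ℝ) =>
      Hg (h p) (ccg J κ I s p) x)]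
    -- exponent at p
    set V : ℕ → ℝ := fun q => (∑ i : Fin J, if q ∈ I i then u1 q (s i) else 0) +
      (if (∀ i < J, q ∉ I i) then u0 q else 0) with hV
    have hp : ∀ p : Ix N, ∫ x, Hg (h p) (ccg J κ I s p) x ∂uu ≤ Real.exp (V p.1) := by
      intro p
      by_cases hex : ∀ i < J, p.1 ∉ I i
      · have e1 : ccg J κ I s p = 0 := by
          unfold ccg
          exact sum_eq_zero fun i _ => if_neg (hex i i.2)
        have e2 : V p.1 = u0 p.1 := by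
          rw [hV]; simp only
          rw [sum_eq_zero fun (i : Fin J) _ => if_neg (hex i i.2), if_pos hex, zero_add]
        rw [e1, e2]; exact hu0 p hex
      · push Not at hex
        obtain ⟨i, hi, hpi⟩ := hex
        have huniq : ∀ j : Fin J, j ≠ ⟨i, hi⟩ → p.1 ∉ I j := by
          intro j hj hpj
          have hne : (j : ℕ) ≠ i := fun h => hj (Fin.ext h)
          rcases lt_or_gt_of_ne hne with h | h
          · exact disjoint_left.mp (hd _ _ h) hpj hpi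
          · exact disjoint_left.mp (hd _ _ h) hpi hpj
        have e1 : ccg J κ I s p = κ (s ⟨i, hi⟩) * ((p.1 : ℕ) : ℂ) ^ (-(1 / 2) : ℂ) := by
          unfold ccg
          rw [sum_eq_single ⟨i, hi⟩ (fun j _ hj => if_neg (huniq j hj)) (fun h => absurd (mem_univ _) h)]
          exact if_pos hpi
        have e2 : V p.1 = u1 p.1 (s ⟨i, hi⟩) := by
          rw [hV]; simp only
          rw [sum_eq_single ⟨i, hi⟩ (fun j _ hj => if_neg (huniq j hj)) (fun h => absurd (mem_univ _) h),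
            if_pos hpi, if_neg (by push Not; exact ⟨i, hi, hpi⟩), add_zero]
        rw [e1, e2]; exact hu1 p i hi hpi _
    have hprod : ∏ p : Ix N, ∫ x, Hg (h p) (ccg J κ I s p) x ∂uu ≤ Real.exp (∑ p : Ix N, V p.1) := by
      rw [Real.exp_sum]
      exact prod_le_prod (fun p _ => integral_nonneg fun _ => hHg0 _ _ _) fun p _ => hp p
    have hsum : ∑ p : Ix N, V p.1 = (∑ p ∈ (Nat.primesBelow N).filter (fun p => ∀ i < J, p ∉ I i), u0 p) +
        ∑ i : Fin J, ∑ p ∈ I i, u1 p (s i) := by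
      rw [Finset.sum_coe_sort (Nat.primesBelow N) V, hV]
      simp only
      rw [sum_add_distrib, sum_comm, add_comm, sum_filter]
      congr 1
      refine sum_congr rfl fun i _ => ?_
      rw [← sum_filter]
      refine sum_congr ?_ fun _ _ => rfl
      ext q
      rw [mem_filter]
      exact ⟨fun h => h.2, fun h => ⟨hI i i.2 h, h⟩⟩
    have hA : 0 ≤ ∏ i : Fin J, Af (R i) (s i) := prod_nonneg fun i _ => Af_nonneg _ _
    refine (mul_le_mul_of_nonneg_left hprod hA).trans (le_of_eq ?_)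
    have e3 : Real.exp (∑ i : Fin J, ∑ p ∈ I i, u1 p (s i)) =
        ∏ i : Fin J, Real.exp (∑ p ∈ I i, u1 p (s i)) := Real.exp_sum _ _
    rw [hsum, Real.exp_add, e3, prod_mul_distrib]
    ring
  refine (sum_le_sum fun s _ => step2 s).trans (le_of_eq ?_)
  rw [← mul_sum, Finset.prod_range, Fintype.prod_sum]

/-- one block -/
lemma block_gen {K : ℝ} (hK : 0 ≤ K) {c : ℝ} {I : Finset ℕ} (hv : vI I ≤ c) (R : ℕ) {u1 : ℕ → Fin 5 → ℝ}
    (h : ∀ p ∈ I, ∀ j, u1 p j ≤ u1 p 0 + K * (1 / p)) :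
    ∑ j : Fin 5, Af R j * Real.exp (∑ p ∈ I, u1 p j) ≤
      Real.exp (∑ p ∈ I, u1 p 0) *
        Real.exp ((3 + 8 * Real.exp (K * c)) * Real.exp (-(R:ℝ))) := by
  set S0 := ∑ p ∈ I, u1 p 0 with hS0
  have h1 : ∀ j : Fin 5, ∑ p ∈ I, u1 p j ≤ S0 + K * c := by
    intro j
    have h2 : ∑ p ∈ I, u1 p j ≤ ∑ p ∈ I, (u1 p 0 + K * (1 / p)) := sum_le_sum fun p hp => h p hp j
    refine h2.trans ?_
    rw [sum_add_distrib, ← mul_sum]
    have e : ∑ p ∈ I, 1 / (p:ℝ) = vI I := rfl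
    rw [e]
    have := mul_le_mul_of_nonneg_left hv hK
    linarith
  rw [Fin.sum_univ_five]
  have e1 : Af R 0 = (1 + Real.exp (-(R:ℝ))) ^ 2 := rfl
  have e2 : ∀ j : Fin 5, j ≠ 0 → Af R j = 2 * Real.exp (-(3 / 2 * (R:ℝ))) := by
    intro j hj
    fin_cases j
    · exact absurd rfl hj
    all_goals rfl
  have hR0 : (0:ℝ) ≤ R := Nat.cast_nonneg _
  have hfar : ∀ j : Fin 5, j ≠ 0 → Af R j * Real.exp (∑ p ∈ I, u1 p j) ≤
      Real.exp S0 * (2 * Real.exp (K * c) * Real.exp (-(R:ℝ))) := by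
    intro j hj
    rw [e2 j hj]
    have h6 : Real.exp (∑ p ∈ I, u1 p j) ≤ Real.exp (S0 + K * c) := Real.exp_le_exp.mpr (h1 j)
    have h7 : Real.exp (-(3 / 2 * (R:ℝ))) ≤ Real.exp (-(R:ℝ)) := Real.exp_le_exp.mpr (by linarith)
    calc _ ≤ 2 * Real.exp (-(R:ℝ)) * Real.exp (S0 + K * c) := by gcongr
      _ = _ := by rw [Real.exp_add]; ring
  have f1 := hfar 1 (by decide)
  have f2 := hfar 2 (by decide)
  have f3 := hfar 3 (by decide)
  have f4 := hfar 4 (by decide)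
  rw [e1]
  set X := Real.exp (-(R:ℝ)) with hX
  have hX0 : 0 < X := Real.exp_pos _
  have hX1 : X ≤ 1 := Real.exp_le_one_iff.mpr (by linarith)
  have h8 : (1 + X) ^ 2 ≤ 1 + 3 * X := by nlinarith
  have h9 : (1 + X) ^ 2 * Real.exp S0 ≤ (1 + 3 * X) * Real.exp S0 := mul_le_mul_of_nonneg_right h8 (Real.exp_pos _).le
  have h10 : 1 + (3 + 8 * Real.exp (K * c)) * X ≤ Real.exp ((3 + 8 * Real.exp (K * c)) * X) := by
    linarith [Real.add_one_le_exp ((3 + 8 * Real.exp (K * c)) * X)]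
  have h11 := mul_le_mul_of_nonneg_left h10 (Real.exp_pos S0).le
  nlinarith

end

end Pool.Agent.Zk6
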