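import Pool.Agent.Zk6.G2

set_option autoImplicit false

/-!
The exponents at the primes.
-/

namespace Pool.Agent.Zk6

open Finset MeasureTheory Complex
open Pool.Agent.W184.NZ
open Pool.Agent.TH806 (ec ec_norm ec_cont uu Ix Par ap ub wp Hf xh xh_pos xh_sq xh_cube xh_le half_eq ap_le ub_le
  ix_lt ix_two ap_eq ub_eq er er_nonneg normW)

noncomputable section

variable {N : ℕ} {L : ℝ} {z : ℂ} {δ τ : ℝ}

/-- the exponent -/
def uE2 (L τ : ℝ) (c : ℂ) (p : ℕ) : ℝ :=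
  1 / (p : ℝ) * (-1 + ‖1 + Complex.exp (((-(τ * Real.log p) : ℝ) : ℂ) * I) + c / 2‖ ^ 2) + 10 * er L p

lemma big_prime9 (h : Par L N z δ τ) (p : Ix N) (hp : 144 ≤ p.1) {c : ℂ} (hc : ‖c‖ ≤ 9) :
    ∫ x, Hf (ap N z p) (ub N (wp δ τ) p) (c * ((p.1 : ℕ) : ℂ) ^ (-(1 / 2) : ℂ)) x ∂uu ≤
      Real.exp (uE2 L τ c p.1) := by
  have hp0 : p.1 ≠ 0 := by omega
  have hx := xh_pos p.1
  have hx12 := xh_le hp
  have hlog : 0 ≤ Real.log p.1 := Real.log_nonneg (by exact_mod_cast (by omega : 1 ≤ p.1))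
  rw [half_eq hp0]
  have h1 := one_prime9 hx hx12 (a := ap N z p) (u := ub N (wp δ τ) p) (c := c * ((xh p.1 : ℝ) : ℂ))
    ((ap_le h p).trans (by linarith)) (ub_le h p) (by
      rw [norm_mul, Complex.norm_real, Real.norm_eq_abs, abs_of_pos hx]
      exact mul_le_mul_of_nonneg_right hc hx.le)
  refine h1.trans (Real.exp_le_exp.mpr ?_)
  obtain ⟨z1, z2, z3⟩ := h.zl (ix_lt p) (by omega)
  set ℓ := Real.log p.1 with hℓ
  set x := xh p.1 with hxd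
  set q := ℓ / L with hq
  set E := Complex.exp (-(z * (ℓ : ℝ))) with hE
  set D := Real.exp (-(δ * ℓ)) with hD
  set W := Complex.exp (((-(τ * ℓ) : ℝ) : ℂ) * I) with hW
  have hWn : ‖W‖ = 1 := Complex.norm_exp_ofReal_mul_I _
  have eE : ‖E - 1‖ ≤ 1 / 10 * q := by
    have := Complex.norm_exp_sub_one_le (x := -(z * (ℓ : ℝ))) (by rw [norm_neg]; linarith)
    rw [norm_neg] at this
    linarith
  have eE2 : ‖E ^ 2 - 1‖ ≤ 1 / 5 * q := by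
    have e0 : E ^ 2 = Complex.exp (-(2 * (z * (ℓ : ℝ)))) := by
      rw [hE, ← Complex.exp_nat_mul]; congr 1; push_cast; ring
    have hn : ‖-(2 * (z * (ℓ : ℝ)))‖ ≤ 1 / 10 * q := by
      rw [norm_neg, norm_mul, Complex.norm_ofNat]; linarith
    have := Complex.norm_exp_sub_one_le (x := -(2 * (z * (ℓ : ℝ)))) (by linarith)
    rw [e0]
    linarith
  have eD : |D - 1| ≤ 2 * q ∧ |D - 1| ≤ 1 := by
    have hδ : 0 ≤ δ * ℓ := mul_nonneg h.d0 hlog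
    have hδ2 : δ * ℓ ≤ 2 * q := by
      calc δ * ℓ ≤ 2 / L * ℓ := mul_le_mul_of_nonneg_right h.d1 hlog
        _ = _ := by rw [hq]; ring
    have h5 : D ≤ 1 := Real.exp_le_one_iff.mpr (by linarith)
    have h6 : 0 < D := Real.exp_pos _
    have h7 : 1 - δ * ℓ ≤ D := by have := Real.add_one_le_exp (-(δ * ℓ)); linarith
    rw [abs_of_nonpos (by linarith)]
    exact ⟨by linarith, by linarith⟩
  have hap : ap N z p = (x : ℂ) * E := ap_eq p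
  have hub : ub N (wp δ τ) p = (x : ℂ) * ((D : ℂ) * W) := ub_eq p
  have hx2 : x ^ 2 = 1 / (p.1 : ℝ) := xh_sq hp0
  have hx3 : x ^ 3 = (p.1 : ℝ) ^ (-(3 / 2 : ℝ)) := xh_cube hp0
  -- first term
  have t1 : -((ap N z p) ^ 2).re ≤ x ^ 2 * (-1 + 1 / 5 * q) := by
    rw [hap, mul_pow, ← Complex.ofReal_pow, Complex.re_ofReal_mul]
    have h8 : 1 - 1 / 5 * q ≤ (E ^ 2).re := by
      have := (abs_le.mp ((Complex.abs_re_le_norm (E ^ 2 - 1)).trans eE2)).1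
      rw [Complex.sub_re, Complex.one_re] at this
      linarith
    nlinarith [sq_nonneg x]
  -- second term
  have e9 : ap N z p + (starRingEnd ℂ) (ap N z p) + 2 * ub N (wp δ τ) p + c * ((x : ℝ) : ℂ) =
      (2 * x : ℂ) * ((1 + W + c / 2) + (((E - 1).re : ℝ) + ((D - 1 : ℝ) : ℂ) * W)) := by
    rw [hap, hub, map_mul, Complex.conj_ofReal]
    have : (((E - 1).re : ℝ) : ℂ) = (E + (starRingEnd ℂ) E) / 2 - 1 := by
      rw [Complex.sub_re, Complex.one_re, Complex.ofReal_sub, Complex.ofReal_one, Complex.re_eq_add_conj]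
    rw [this]
    push_cast
    ring
  set A := 1 + W + c / 2 with hA
  set F := (((E - 1).re : ℝ) + ((D - 1 : ℝ) : ℂ) * W : ℂ) with hF
  have hAn : ‖A‖ ≤ 13 / 2 := by
    calc ‖A‖ ≤ ‖(1:ℂ)‖ + ‖W‖ + ‖c / 2‖ := norm_add₃_le
      _ ≤ 1 + 1 + 9 / 2 := by
          rw [norm_one, hWn, norm_div, Complex.norm_ofNat]; linarith
      _ = 13 / 2 := by norm_num
  have hFn : ‖F‖ ≤ 21 / 10 * q ∧ ‖F‖ ≤ 13 / 10 := by
    have a1 : ‖F‖ ≤ ‖E - 1‖ + |D - 1| := by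
      calc ‖F‖ ≤ ‖(((E - 1).re : ℝ) : ℂ)‖ + ‖((D - 1 : ℝ) : ℂ) * W‖ := norm_add_le _ _
        _ = |(E - 1).re| + |D - 1| := by
            rw [norm_mul, hWn, mul_one, Complex.norm_real, Complex.norm_real, Real.norm_eq_abs, Real.norm_eq_abs]
        _ ≤ _ := by linarith [Complex.abs_re_le_norm (E - 1)]
    exact ⟨by linarith [eD.1], by linarith [eD.2]⟩
  have t2 : ‖ap N z p + (starRingEnd ℂ) (ap N z p) + 2 * ub N (wp δ τ) p + c * ((x : ℝ) : ℂ)‖ ^ 2 / 4 ≤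
      x ^ 2 * (‖A‖ ^ 2 + 31 * q) := by
    rw [e9, norm_mul, norm_mul, Complex.norm_ofNat, Complex.norm_real, Real.norm_eq_abs, abs_of_pos hx]
    have a2 : ‖A + F‖ ^ 2 ≤ ‖A‖ ^ 2 + 31 * q := by
      have a3 : ‖A + F‖ ≤ ‖A‖ + ‖F‖ := norm_add_le _ _
      have a4 : ‖A + F‖ ^ 2 ≤ (‖A‖ + ‖F‖) ^ 2 := pow_le_pow_left₀ (norm_nonneg _) a3 2
      have a5 : ‖A‖ * ‖F‖ ≤ 13 / 2 * ‖F‖ := mul_le_mul_of_nonneg_right hAn (norm_nonneg _)
      have a6 : ‖F‖ * ‖F‖ ≤ 13 / 10 * ‖F‖ := mul_le_mul_of_nonneg_right hFn.2 (norm_nonneg _)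
      nlinarith [hFn.1]
    calc (2 * x * ‖A + F‖) ^ 2 / 4 = x ^ 2 * ‖A + F‖ ^ 2 := by ring
      _ ≤ _ := mul_le_mul_of_nonneg_left a2 (sq_nonneg x)
  have t3 : uE2 L τ c p.1 = x ^ 2 * (-1 + ‖A‖ ^ 2) + 250 * (x ^ 2 * q) + 13000 * x ^ 3 := by
    unfold uE2 er
    rw [← hx2, ← hx3, hq, hA, hW]
    have : 25 / L * (Real.log p.1 / (p.1:ℝ)) = 25 * ((1 / (p.1 : ℝ)) * (ℓ / L)) := by rw [hℓ]; ring
    rw [this, ← hx2]; ring
  rw [t3]
  have t4 : 0 ≤ x ^ 2 * q := by positivity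
  nlinarith

lemma uE2_zero {L : ℝ} (hL : 1 ≤ L) {p : ℕ} (hp : 1 ≤ p) : uE2 L τ 0 p ≤ 3 * (1 / p) + 10 * er L p := by
  unfold uE2
  have h := normW τ (Real.log p) 1
  have e : (1 : ℂ) + Complex.exp (((-(τ * Real.log p) : ℝ) : ℂ) * I) + 0 / 2 =
      ((1 : ℝ) : ℂ) + Complex.exp (((-(τ * Real.log p) : ℝ) : ℂ) * I) := by push_cast; ring
  rw [e, h]
  have h1 := Real.cos_le_one (τ * Real.log p)
  have h2 : (0:ℝ) ≤ 1 / p := by positivity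
  have h3 : 1 / (p:ℝ) * (-1 + (1 ^ 2 + 2 * 1 * Real.cos (τ * Real.log p) + 1)) ≤ 1 / (p:ℝ) * 3 :=
    mul_le_mul_of_nonneg_left (by linarith) h2
  linarith

lemma uE2_main (p : ℕ) :
    uE2 L τ (cg (-2) 0) p = (1 - 2 * Real.cos (τ * Real.log p)) * (1 / p) + 10 * er L p := by
  unfold uE2
  have h := normW τ (Real.log p) (-1)
  have e : (1 : ℂ) + Complex.exp (((-(τ * Real.log p) : ℝ) : ℂ) * I) + cg (-2) 0 / 2 =
      ((-1 : ℝ) : ℂ) + Complex.exp (((-(τ * Real.log p) : ℝ) : ℂ) * I) := by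
    simp only [cg, Matrix.cons_val_zero]; push_cast; ring
  rw [e, h]
  ring

lemma uE2_far {a : ℝ} (ha : |a| ≤ 2) (j : Fin 5) (p : ℕ) :
    uE2 L τ (cg a j) p ≤ 42 * (1 / p) + 10 * er L p := by
  unfold uE2
  have h1 : ‖(1 : ℂ) + Complex.exp (((-(τ * Real.log p) : ℝ) : ℂ) * I) + cg a j / 2‖ ≤ 13 / 2 := by
    calc _ ≤ ‖(1:ℂ)‖ + ‖Complex.exp (((-(τ * Real.log p) : ℝ) : ℂ) * I)‖ + ‖cg a j / 2‖ := norm_add₃_le
      _ ≤ 1 + 1 + 9 / 2 := by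
          rw [norm_one, Complex.norm_exp_ofReal_mul_I, norm_div, Complex.norm_ofNat]
          linarith [cg_norm ha j]
      _ = 13 / 2 := by norm_num
  have h2 : ‖(1 : ℂ) + Complex.exp (((-(τ * Real.log p) : ℝ) : ℂ) * I) + cg a j / 2‖ ^ 2 ≤ 43 := by
    nlinarith [norm_nonneg ((1 : ℂ) + Complex.exp (((-(τ * Real.log p) : ℝ) : ℂ) * I) + cg a j / 2)]
  have h3 : (0:ℝ) ≤ 1 / p := by positivity
  have h4 := mul_le_mul_of_nonneg_left (by linarith : -1 + ‖(1 : ℂ) + Complex.exp (((-(τ * Real.log p) : ℝ) : ℂ) * I) +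
    cg a j / 2‖ ^ 2 ≤ 42) h3
  linarith

lemma uE2_cmp (j : Fin 5) (p : ℕ) : uE2 L τ (cg (-2) j) p ≤ uE2 L τ (cg (-2) 0) p + 43 * (1 / p) := by
  have h1 := uE2_far (L := L) (τ := τ) (a := -2) (by norm_num) j p
  rw [uE2_main]
  have c2 := Real.cos_le_one (τ * Real.log p)
  have h5 : (0:ℝ) ≤ 1 / p := by positivity
  have h6 : -1 * (1 / (p:ℝ)) ≤ (1 - 2 * Real.cos (τ * Real.log p)) * (1 / p) :=
    mul_le_mul_of_nonneg_right (by linarith) h5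
  linarith

end

end Pool.Agent.Zk6
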