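import Pool.Agent.Zk6.G3

set_option autoImplicit false

/-!
The bound for the average over the torus, exponent `-2`.
-/

namespace Pool.Agent.Zk6

open Finset MeasureTheory Complex
open Pool.Agent.W184.NZ
open Pool.Agent.TH806 (ec ec_norm ec_cont uu Ix TT PP ZT Par ap ub wp Pk Pk_cont Pk_bdd geo_cont geo_bdd Hf er er_nonneg
  BL cos_sum gap_sum err_sum gt small_prime ap_lt ub_lt Af Af_nonneg)

noncomputable section

variable {N : ℕ} {L : ℝ} {z : ℂ} {δ τ : ℝ}

/-- the exponent at the primes outside the blocks -/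
def u02 (L τ : ℝ) (p : ℕ) : ℝ := if p < 144 then 6 else uE2 L τ 0 p

lemma log_one_add {L : ℝ} (hL : 0 ≤ L) (τ : ℝ) (n : ℕ) :
    Real.exp (n * Real.log (1 + L * |τ|)) = (1 + L * |τ|) ^ n := by
  rw [Real.exp_nat_mul, Real.exp_log]
  have : 0 ≤ L * |τ| := mul_nonneg hL (abs_nonneg _)
  linarith

/-- the bound for the average over the torus -/
theorem tor_m2 (c A : ℝ) : ∃ C : ℝ, 0 < C ∧ ∀ (y L δ τ : ℝ) (z : ℂ) (N J Rs : ℕ),
    BL c y J → 1 ≤ Rs → Par L N z δ τ → Real.log y ≤ L → L ≤ A * Real.log y → y < N →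
    ∫ θ, ‖PP (ap N z) θ‖ * ‖ZT (wp δ τ) θ‖ ^ 2 * gt J (-2) (RR Rs) (II y) θ ∂(TT N) ≤
      C * Real.exp (-(∑ i ∈ range J, vI (II y i))) * (1 + L * |τ|) ^ 4 := by
  obtain ⟨C1, hC10, hC1⟩ := cos_sum
  obtain ⟨C2, hC20, hC2⟩ := gap_sum
  obtain ⟨C3, hC30, hC3⟩ := err_sum
  refine ⟨Real.exp (6 * 144 + (3 * (Real.log (3 * A) + C2) + 10 * C3) + (10 * C3 + 2 * C1) +
    (3 + 8 * Real.exp (43 * c)) * 2), Real.exp_pos _, ?_⟩
  intro y L δ τ z N J Rs hB hRs hP hyL hLy hyN
  have hy := hB.y1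
  have hL := hP.L1
  have hR1 : ∀ i, 1 ≤ RR Rs i := fun i => by unfold RR; omega
  have hIsub : ∀ i < J, II y i ⊆ Nat.primesBelow N := by
    intro i _ p hp
    rw [mem_II] at hp
    rw [Nat.mem_primesBelow]
    refine ⟨?_, hp.1⟩
    have h1 : (p:ℝ) ≤ y := hp.2.2.2.trans (bb_le (by linarith) i)
    have h2 : (p:ℝ) < N := lt_of_le_of_lt h1 hyN
    exact_mod_cast h2
  have ha1 : ∀ p : Ix N, ‖ap N z p‖ < 1 := fun p => by linarith [ap_lt hP p]
  have hu1 : ∀ p : Ix N, ‖ub N (wp δ τ) p‖ < 1 := fun p => by linarith [ub_lt hP p]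
  have hmain := tor_gen (N := N) (h := fun p x => ‖Pk (ap N z p) x‖ * ‖(1 - ub N (wp δ τ) p * ec x)⁻¹‖ ^ 2)
    (fun p => by
      have h1 := Pk_cont (ha1 p)
      have h2 := geo_cont (hu1 p) continuous_id
      simp only [id] at h2
      fun_prop)
    (fun p x => by positivity)
    (Bh := fun p => 2 * (1 - ‖ap N z p‖)⁻¹ * (1 - ‖ub N (wp δ τ) p‖)⁻¹ ^ 2)
    (fun p x => by
      have h3 : 0 < (1 - ‖ap N z p‖)⁻¹ := inv_pos.mpr (by linarith [ha1 p])
      have b1 := Pk_bdd (ha1 p) x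
      have b2 := geo_bdd (hu1 p) x
      gcongr)
    (J := J) (Maj_cg (a := -2) (by norm_num)) hR1 hIsub hB.rg.dj
    (u0 := u02 L τ) (u1 := fun p j => uE2 L τ (cg (-2) j) p)
    (fun p _ => by
      unfold u02
      split_ifs with h144
      · exact small_prime hP p
      · have := big_prime9 hP p (by omega) (c := 0) (by simp)
        rwa [zero_mul] at this)
    (fun p i hi hpi j => by
      have h144 : 144 ≤ p.1 := (hB.rg.pr i p.1 hpi).2.1
      exact big_prime9 hP p h144 (cg_norm (by norm_num) j))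
  have e0 : ∀ θ : Ix N → ℝ, (∏ p : Ix N, ‖Pk (ap N z p) (θ p)‖ * ‖(1 - ub N (wp δ τ) p * ec (θ p))⁻¹‖ ^ 2) *
      gt J (-2) (RR Rs) (II y) θ = ‖PP (ap N z) θ‖ * ‖ZT (wp δ τ) θ‖ ^ 2 * gt J (-2) (RR Rs) (II y) θ := by
    intro θ
    unfold PP ZT
    rw [prod_mul_distrib, norm_prod, norm_prod, prod_pow]
  simp_rw [e0] at hmain
  refine hmain.trans ?_
  -- first factor
  have F1 : ∑ p ∈ (Nat.primesBelow N).filter (fun p => ∀ i < J, p ∉ II y i), u02 L τ p ≤
      6 * 144 + (3 * (Real.log (3 * A) + C2) + 10 * C3) := by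
    rw [← sum_filter_add_sum_filter_not _ (fun p : ℕ => p < 144)]
    refine add_le_add ?_ ?_
    · calc _ ≤ ∑ p ∈ ((Nat.primesBelow N).filter (fun p => ∀ i < J, p ∉ II y i)).filter (fun p => p < 144), (6:ℝ) := by
            refine sum_le_sum fun p hp => ?_
            rw [mem_filter] at hp
            unfold u02; rw [if_pos hp.2]
        _ ≤ _ := by
            rw [sum_const, nsmul_eq_mul, mul_comm]
            have hcard : (((Nat.primesBelow N).filter (fun p => ∀ i < J, p ∉ II y i)).filter (fun p => p < 144)).card ≤ 144 := by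
              calc _ ≤ (range 144).card := card_le_card (fun p hp => by
                    rw [mem_filter] at hp; exact mem_range.mpr hp.2)
                _ = 144 := card_range _
            have : ((((Nat.primesBelow N).filter (fun p => ∀ i < J, p ∉ II y i)).filter (fun p => p < 144)).card : ℝ) ≤ 144 := by
              exact_mod_cast hcard
            linarith
    · set S := ((Nat.primesBelow N).filter (fun p => ∀ i < J, p ∉ II y i)).filter (fun p : ℕ => ¬ p < 144) with hS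
      have hSm : ∀ p ∈ S, p ∈ Nat.primesBelow N ∧ y < (p:ℝ) ∧ 144 ≤ p := by
        intro p hp
        rw [hS, mem_filter, mem_filter] at hp
        refine ⟨hp.1.1, ?_, by omega⟩
        by_contra hcon
        push Not at hcon
        obtain ⟨i, hi, hpi⟩ := hB.cover (Nat.mem_primesBelow.mp hp.1.1).2 (by omega) hcon
        exact hp.1.2 i hi hpi
      have h1 : ∑ p ∈ S, u02 L τ p ≤ ∑ p ∈ S, (3 * (1 / (p:ℝ)) + 10 * er L p) := by
        refine sum_le_sum fun p hp => ?_
        unfold u02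
        rw [if_neg (by have := (hSm p hp).2.2; omega)]
        exact uE2_zero hL (by have := (hSm p hp).2.2; omega)
      refine h1.trans ?_
      rw [sum_add_distrib, ← mul_sum, ← mul_sum]
      have h2 : ∑ p ∈ S, 1 / (p:ℝ) ≤ ∑ p ∈ (Nat.primesBelow N).filter (fun p : ℕ => y < (p:ℝ)), (1:ℝ) / p := by
        refine sum_le_sum_of_subset_of_nonneg (fun p hp => ?_) fun p _ _ => by positivity
        rw [mem_filter]; exact ⟨(hSm p hp).1, (hSm p hp).2.1⟩
      have h3 := hC2 y (by linarith) N L hL hP.hN (by linarith)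
      have hly : 0 < Real.log y := Real.log_pos (by linarith)
      have h4 : Real.log (3 * L) - Real.log (Real.log y) ≤ Real.log (3 * A) := by
        rw [← Real.log_div (by positivity) hly.ne']
        refine Real.log_le_log (by positivity) ?_
        rw [div_le_iff₀ hly]; linarith
      have h5 := hC3 N L hL hP.hN S (fun p hp => (hSm p hp).1)
      have h6 : ∑ p ∈ S, er L p ≤ C3 := h5
      linarith
  -- blocks
  have F2 : ∏ i ∈ range J, ∑ j : Fin 5, Af (RR Rs i) j * Real.exp (∑ p ∈ II y i, uE2 L τ (cg (-2) j) p) ≤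
      Real.exp (∑ i ∈ range J, ∑ p ∈ II y i, uE2 L τ (cg (-2) 0) p) *
        Real.exp ((3 + 8 * Real.exp (43 * c)) * 2) := by
    calc _ ≤ ∏ i ∈ range J, (Real.exp (∑ p ∈ II y i, uE2 L τ (cg (-2) 0) p) *
        Real.exp ((3 + 8 * Real.exp (43 * c)) * Real.exp (-(RR Rs i:ℝ)))) := by
          refine prod_le_prod (fun i _ => sum_nonneg fun j _ => mul_nonneg (Af_nonneg _ _) (Real.exp_pos _).le) ?_
          intro i hi
          exact block_gen (by norm_num) (hB.rg.v i (mem_range.mp hi)) _ (fun p _ j => uE2_cmp j p)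
      _ = Real.exp (∑ i ∈ range J, ∑ p ∈ II y i, uE2 L τ (cg (-2) 0) p) *
          Real.exp ((3 + 8 * Real.exp (43 * c)) * ∑ i ∈ range J, Real.exp (-(RR Rs i:ℝ))) := by
          rw [prod_mul_distrib, ← Real.exp_sum, ← Real.exp_sum, mul_sum]
      _ ≤ _ := by
          refine mul_le_mul_of_nonneg_left (Real.exp_le_exp.mpr ?_) (Real.exp_pos _).le
          have h1 := sum_exp_le J Rs (RR_ge Rs)
          have h2 : Real.exp (-(Rs:ℝ)) ≤ 1 := Real.exp_le_one_iff.mpr (by simp)
          refine mul_le_mul_of_nonneg_left (by linarith) (by positivity)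
  have F3 : ∑ i ∈ range J, ∑ p ∈ II y i, uE2 L τ (cg (-2) 0) p ≤
      -(∑ i ∈ range J, vI (II y i)) + (10 * C3 + 2 * C1) + ((4:ℕ):ℝ) * Real.log (1 + L * |τ|) := by
    have hy1 : 1 ≤ y := by linarith
    have e1 : ∑ i ∈ range J, ∑ p ∈ II y i, uE2 L τ (cg (-2) 0) p =
        ∑ p ∈ PF y (bb y J), uE2 L τ (cg (-2) 0) p := sum_II hy1 _ J
    have e2 : ∑ i ∈ range J, vI (II y i) = ∑ p ∈ PF y (bb y J), 1 / (p:ℝ) := by
      unfold vI; exact sum_II hy1 (fun p => 1 / (p:ℝ)) J
    rw [e1, e2]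
    have h1 : ∑ p ∈ PF y (bb y J), uE2 L τ (cg (-2) 0) p = ∑ p ∈ PF y (bb y J),
        (-1 * (1 / (p:ℝ)) + 2 * ((1 - Real.cos (τ * Real.log p)) / p) + 10 * er L p) := by
      refine sum_congr rfl fun p _ => ?_
      rw [uE2_main]
      ring
    rw [h1, sum_add_distrib, sum_add_distrib, ← mul_sum, ← mul_sum, ← mul_sum]
    have h7 := hC1 y (bb y J) τ L hy hyL
    have h8 : ∑ p ∈ PF y (bb y J), er L p ≤ C3 := by
      refine hC3 N L hL hP.hN _ fun p hp => ?_
      rw [mem_PF (by linarith)] at hp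
      rw [Nat.mem_primesBelow]
      refine ⟨?_, hp.1⟩
      have : (p:ℝ) < N := lt_of_le_of_lt hp.2.2.2 hyN
      exact_mod_cast this
    push_cast
    linarith
  rw [← log_one_add (by linarith : 0 ≤ L) τ 4]
  calc _ ≤ Real.exp (6 * 144 + (3 * (Real.log (3 * A) + C2) + 10 * C3)) *
      (Real.exp (-(∑ i ∈ range J, vI (II y i)) + (10 * C3 + 2 * C1) + ((4:ℕ):ℝ) * Real.log (1 + L * |τ|)) *
        Real.exp ((3 + 8 * Real.exp (43 * c)) * 2)) := by
        refine mul_le_mul (Real.exp_le_exp.mpr F1) (F2.trans ?_) ?_ (Real.exp_pos _).le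
        · exact mul_le_mul_of_nonneg_right (Real.exp_le_exp.mpr F3) (Real.exp_pos _).le
        · exact prod_nonneg fun i _ => sum_nonneg fun j _ => mul_nonneg (Af_nonneg _ _) (Real.exp_pos _).le
    _ = _ := by
        rw [← Real.exp_add, ← Real.exp_add, ← Real.exp_add, ← Real.exp_add]
        congr 1
        ring

end

end Pool.Agent.Zk6
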