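import Pool.Agent.Zk6.G6
import Pool.Agent.TH806.X4

set_option autoImplicit false

/-!
The fourth moment of zeta times the multiplier, exponent `-2`.
-/

namespace Pool.Agent.Zk6

open Finset Filter MeasureTheory Complex
open Pool.Agent.W184.NZ
open Pool.Agent.TH806 (dual_int' Zm_one tail_le BL gp_cont gp_le)
open Pool.Agent.H306R2.SM (om cl Yf)
open Pool.Agent.H262R4.TM (Rng Ck)
open Pool.Agent.H448R2.GC (cu cs cu_nonneg cu_le_one sm)
open Pool.Agent.H448R2.GC.M1 (gg gg_nonneg gg_cont gg_int cs_bdd cs_cont)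

noncomputable section

/-- the fourth moment of zeta times the multiplier of exponent `-4` -/
theorem X4_m2 : ∃ η' : ℝ, 0 < η' ∧ η' ≤ 1 / 8 ∧ ∀ c A : ℝ, ∃ C : ℝ, 0 < C ∧ ∀ Rs : ℕ,
    1 ≤ Rs → ∀ᶠ T : ℝ in atTop, ∀ κ : ℕ, Rng T κ → ∀ (y : ℝ) (J : ℕ), BL c y J →
    320 * ((Rs:ℝ) + 1) * Real.log y ≤ η' * Real.log T → Real.log T ≤ A * Real.log y →
    IntegrableOn (fun t => om κ (κ / T) t * (‖riemannZeta (cl t)‖ ^ 4 *
      gp J (-2) (RR Rs) (II y) t)) (Set.Ioi 0) ∧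
    ∫ t in Set.Ioi (0:ℝ), om κ (κ / T) t * (‖riemannZeta (cl t)‖ ^ 4 * gp J (-2) (RR Rs) (II y) t) ≤
      C * Real.log T * Real.exp (-(∑ i ∈ range J, vI (II y i))) := by
  obtain ⟨k₀, hk₀⟩ := Pool.Agent.TH806.zeta_pt 1 le_rfl
  set k := max k₀ 8 with hk
  have hk4 : 8 ≤ k := le_max_right _ _
  obtain ⟨Cz, T₀, hCz, hz⟩ := hk₀ k (le_max_left _ _)
  obtain ⟨η1, hη1, hTB⟩ := TB_m2 k (by omega)
  refine ⟨min η1 (1 / 8), lt_min hη1 (by norm_num), min_le_right _ _, fun c A => ?_⟩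
  obtain ⟨CT, hCT, hTB⟩ := hTB c A
  refine ⟨3 * CT + 2 * Cz * CT + 2 * Real.exp c, by positivity, fun Rs hRs => ?_⟩
  have hsm : ∀ᶠ T : ℝ in atTop, 6 * T ^ (-(3 / 2) : ℝ) * Real.log T ≤ 1 := by
    have h1 := (isLittleO_log_rpow_atTop (r := 3 / 2) (by norm_num)).bound (c := 1 / 6) (by norm_num)
    filter_upwards [h1, eventually_ge_atTop (1:ℝ)] with T hT hT1
    have hT0 : 0 < T := by linarith
    rw [Real.norm_eq_abs, Real.norm_eq_abs, abs_of_nonneg (Real.log_nonneg hT1),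
      abs_of_nonneg (by positivity)] at hT
    rw [Real.rpow_neg hT0.le]
    have h2 : 0 < T ^ (3 / 2 : ℝ) := by positivity
    calc 6 * (T ^ (3 / 2 : ℝ))⁻¹ * Real.log T ≤ 6 * (T ^ (3 / 2 : ℝ))⁻¹ * (1 / 6 * T ^ (3 / 2 : ℝ)) := by gcongr
      _ = 1 := by field_simp
  filter_upwards [hTB Rs hRs, tail_le 8, Zm_one, eventually_ge_atTop T₀, eventually_ge_atTop (24 ^ 4 * 2 : ℝ),
    Real.tendsto_log_atTop.eventually_ge_atTop 1, hsm] with T hTB hTl hZ hT0' hTb hL1 hsm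
  intro κ hκ y J hBL hy hA
  have hT1 : (1:ℝ) ≤ T := by linarith
  have hT0 : 0 < T := by linarith
  set L := Real.log T with hLd
  have hL0 : 0 < L := by linarith
  have hκ1 : 1 ≤ κ := by
    have := hκ.1
    have h2 : (0:ℝ) < κ := lt_of_lt_of_le (by positivity) this
    exact_mod_cast h2
  have hκ0 : (0:ℝ) < κ := by exact_mod_cast hκ1
  have hδ : 0 < (κ:ℝ) / T := by positivity
  set E := Real.exp (-(∑ i ∈ range J, vI (II y i))) with hE
  have hE0 : 0 < E := Real.exp_pos _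
  have hy144 := hBL.y1
  have hly : 0 ≤ Real.log y := Real.log_nonneg (by linarith)
  have hyL : Real.log y ≤ L := by
    have h1 : (1:ℝ) ≤ Rs := by exact_mod_cast hRs
    have h2 : min η1 (1 / 8) * L ≤ 1 * L := mul_le_mul_of_nonneg_right ((min_le_right _ _).trans (by norm_num)) hL0.le
    nlinarith
  have hEge : Real.exp (-c) / L ≤ E := E_ge2 hBL hL1 hyL
  have h1E : 1 ≤ Real.exp c * L * E := by
    rw [div_le_iff₀ hL0, Real.exp_neg] at hEge
    have hc0 : 0 < Real.exp c := Real.exp_pos c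
    calc (1:ℝ) = Real.exp c * (Real.exp c)⁻¹ := by field_simp
      _ ≤ Real.exp c * (E * L) := by gcongr
      _ = _ := by ring
  set M : ℝ → ℝ := gp J (-2) (RR Rs) (II y) with hM
  have hα2 : |(-2 : ℝ)| ≤ 2 := by norm_num
  have hM0 : ∀ t, 0 ≤ M t := fun t => gp_nonneg _ _ _ _ t
  have hMc : Continuous M := gp_cont hBL _ _
  have hMB : ∀ t, M t ≤ T ^ (1 / 8 : ℝ) := by
    intro t
    refine (gp_le hBL hRs hα2 t).trans ?_
    rw [Real.rpow_def_of_pos hT0, ← hLd]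
    apply Real.exp_le_exp.mpr
    have h2 : min η1 (1 / 8) * L ≤ 1 / 8 * L := mul_le_mul_of_nonneg_right (min_le_right _ _) hL0.le
    nlinarith
  have hy1 : 320 * ((Rs:ℝ) + 1) * Real.log y ≤ η1 * L :=
    hy.trans (mul_le_mul_of_nonneg_right (min_le_left _ _) hL0.le)
  have h1L : 0 < 1 / L := by positivity
  -- the two quadratic quantities
  set c' : ℝ := 1 / 200 * L / k with hc'
  set Q₁ : ℝ → ℝ := fun t => ‖cs k c' (1 / 2 * L) (((1 / 2 + 0 : ℝ) : ℂ) + ((t + 0 : ℝ) : ℂ) * I)‖ ^ 2 with hQ₁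
  set Q : ℝ → ℝ → ℝ := fun t y' =>
    ‖cs k c' (101 / 200 * L) (((1 / 2 + 1 / L : ℝ) : ℂ) + ((t + y' : ℝ) : ℂ) * I)‖ ^ 2 with hQ
  obtain ⟨B₁, hB₁0, hB₁⟩ := cs_bdd k c' (1 / 2 * L)
  obtain ⟨B, hB0, hB⟩ := cs_bdd k c' (101 / 200 * L)
  have hQ₁0 : ∀ t, 0 ≤ Q₁ t := fun t => pow_nonneg (norm_nonneg _) 2
  have hQ0 : ∀ t y', 0 ≤ Q t y' := fun t y' => pow_nonneg (norm_nonneg _) 2
  have hQ₁B : ∀ t, Q₁ t ≤ B₁ ^ 2 := by
    intro t
    refine pow_le_pow_left₀ (norm_nonneg _) (hB₁ _ ?_) 2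
    have : (((1 / 2 + 0 : ℝ) : ℂ) + ((t + 0 : ℝ) : ℂ) * I).re = 1 / 2 := by simp
    rw [this]; norm_num
  have hQB : ∀ t y', Q t y' ≤ B ^ 2 := by
    intro t y'
    refine pow_le_pow_left₀ (norm_nonneg _) (hB _ ?_) 2
    have : (((1 / 2 + 1 / L : ℝ) : ℂ) + ((t + y' : ℝ) : ℂ) * I).re = 1 / 2 + 1 / L := by simp
    rw [this]; positivity
  have hQ₁c : Continuous Q₁ := by
    rw [hQ₁]
    exact ((cs_cont k c' (1 / 2 * L)).comp (by fun_prop :
      Continuous fun t : ℝ => (((1 / 2 + 0 : ℝ) : ℂ) + ((t + 0 : ℝ) : ℂ) * I))).norm.pow 2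
  have hQc : Continuous (Function.uncurry Q) := by
    rw [hQ]
    exact ((cs_cont k c' (101 / 200 * L)).comp (by fun_prop :
      Continuous fun p : ℝ × ℝ => (((1 / 2 + 1 / L : ℝ) : ℂ) + ((p.1 + p.2 : ℝ) : ℂ) * I))).norm.pow 2
  have hΦi : Integrable (fun t => wz κ T t) (volume.restrict (Set.Ioi 0)) := by
    have := wz_int κ hδ (f := fun _ => 1) (C := 1) continuous_const (fun t => by simp)
    simp only [mul_one] at this
    exact this
  have hΦ0 : ∀ t ∈ Set.Ioi (0:ℝ), 0 ≤ wz κ T t := fun t ht => wz_nonneg κ hT0 (le_of_lt ht)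
  obtain ⟨hdI, hdE⟩ := dual_int' (μ := volume.restrict (Set.Ioi 0)) (gg L k) M (fun t => wz κ T t) Q
    (T ^ (1 / 8 : ℝ)) (B ^ 2) (gg_int L k hL1 (by omega)) hΦi hM0 hMB hMc hQ0 hQB hQc
  -- integrability
  have i1 : IntegrableOn (fun t => wz κ T t * (Q₁ t * M t)) (Set.Ioi 0) := by
    refine wz_int κ hδ (C := B₁ ^ 2 * T ^ (1 / 8 : ℝ)) (hQ₁c.mul hMc) fun t => ?_
    rw [abs_of_nonneg (mul_nonneg (hQ₁0 t) (hM0 t))]
    exact mul_le_mul (hQ₁B t) (hMB t) (hM0 t) (by positivity)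
  have i3 : IntegrableOn (fun t => wz κ T t * M t) (Set.Ioi 0) := by
    refine wz_int κ hδ (C := T ^ (1 / 8 : ℝ)) hMc fun t => ?_
    rw [abs_of_nonneg (hM0 t)]
    exact hMB t
  -- the pointwise bound
  set F : ℝ → ℝ := fun t => ‖riemannZeta (cl t)‖ ^ 4 * M t with hF
  have hFc : Continuous F := (Pool.Agent.H262R4.TM.TTW.zeta_cont.norm.pow 4).mul hMc
  have hF0 : ∀ t, 0 ≤ F t := fun t => mul_nonneg (by positivity) (hM0 t)
  have hF1 : ∀ t, 0 ≤ t → F t ≤ (24 ^ 4 * T ^ (1 / 8 : ℝ)) * (1 + t) ^ 8 := by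
    intro t ht
    have h1 := pow_le_pow_left₀ (norm_nonneg _) (Pool.Agent.H262R4.TM.TTW.zeta_cl_bound t ht) 4
    calc F t ≤ (24 * (1 + t) ^ 2) ^ 4 * T ^ (1 / 8 : ℝ) := mul_le_mul h1 (hMB t) (hM0 t) (by positivity)
      _ = _ := by ring
  obtain ⟨hI, hup, _⟩ := hTl κ hκ (24 ^ 4 * T ^ (1 / 8 : ℝ)) F (by positivity) hFc hF0 hF1
  refine ⟨hI, hup.trans ?_⟩
  have htail : 2 * (24 ^ 4 * T ^ (1 / 8 : ℝ)) * T ^ (-10 : ℝ) ≤ 1 := by
    have h1 : T ^ (1 / 8 : ℝ) * T ^ (-10 : ℝ) ≤ T ^ (-1 : ℝ) := by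
      rw [← Real.rpow_add hT0]
      exact Real.rpow_le_rpow_of_exponent_le hT1 (by norm_num)
    rw [Real.rpow_neg_one] at h1
    calc 2 * (24 ^ 4 * T ^ (1 / 8 : ℝ)) * T ^ (-10 : ℝ) = 24 ^ 4 * 2 * (T ^ (1 / 8 : ℝ) * T ^ (-10 : ℝ)) := by ring
      _ ≤ 24 ^ 4 * 2 * T⁻¹ := by gcongr
      _ ≤ T * T⁻¹ := by gcongr
      _ = 1 := by field_simp
  have hsub : Set.Ioc (T / 8) (8 * T) ⊆ Set.Ioi (0:ℝ) := fun t ht => lt_trans (by positivity) ht.1
  have iG : IntegrableOn (fun t => 3 * (wz κ T t * (Q₁ t * M t)) + Cz * (wz κ T t * ((∫ y', Q t y' * gg L k y') * M t)) +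
      3 * (T ^ (-1 : ℝ)) ^ 2 * (wz κ T t * M t)) (Set.Ioi 0) :=
    ((i1.const_mul 3).add (hdI.const_mul Cz)).add (i3.const_mul _)
  have hG0 : ∀ t ∈ Set.Ioi (0:ℝ), 0 ≤ 3 * (wz κ T t * (Q₁ t * M t)) +
      Cz * (wz κ T t * ((∫ y', Q t y' * gg L k y') * M t)) + 3 * (T ^ (-1 : ℝ)) ^ 2 * (wz κ T t * M t) := by
    intro t ht
    have a1 := hΦ0 t ht
    have a2 := hQ₁0 t
    have a3 := hM0 t
    have a4 : 0 ≤ ∫ y', Q t y' * gg L k y' := integral_nonneg fun y' => mul_nonneg (hQ0 _ _) (gg_nonneg L k y' hL1)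
    have a5 : (0:ℝ) ≤ 3 * (T ^ (-1 : ℝ)) ^ 2 := mul_nonneg (by norm_num) (sq_nonneg _)
    exact add_nonneg (add_nonneg (mul_nonneg (by norm_num) (mul_nonneg a1 (mul_nonneg a2 a3)))
      (mul_nonneg hCz.le (mul_nonneg a1 (mul_nonneg a4 a3)))) (mul_nonneg a5 (mul_nonneg a1 a3))
  have hpt : ∀ t ∈ Set.Ioc (T / 8) (8 * T), om κ (κ / T) t * F t ≤ 3 * (wz κ T t * (Q₁ t * M t)) +
      Cz * (wz κ T t * ((∫ y', Q t y' * gg L k y') * M t)) + 3 * (T ^ (-1 : ℝ)) ^ 2 * (wz κ T t * M t) := by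
    intro t ht
    have ht0 : t ∈ Set.Ioi (0:ℝ) := hsub ht
    have h1 := hz T hT0' t ht.1.le ht.2
    rw [← hLd] at h1
    have e1 : (((sm 1 T + 1 / L : ℝ) : ℂ) + (t : ℂ) * I) = cl t := by
      have : sm 1 T + 1 / L = 1 / 2 := by unfold sm; rw [← hLd]; ring
      rw [this]; unfold cl; push_cast; ring
    rw [e1] at h1
    have e2 : Q₁ t = ‖cs k c' (1 / 2 * L) (cl t)‖ ^ 2 := by
      simp only [hQ₁]
      congr 3
      unfold cl; push_cast; ring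
    rw [← e2] at h1
    have a1 := hΦ0 t ht0
    have a3 := hM0 t
    have h2 := mul_le_mul_of_nonneg_left (mul_le_mul_of_nonneg_right h1 a3) a1
    have e3 : om κ (κ / T) t * F t = wz κ T t * (‖riemannZeta (cl t)‖ ^ 2 * M t) := by
      simp only [hF]; unfold wz; ring
    rw [e3]
    refine h2.trans (le_of_eq ?_)
    simp only [hQ]
    ring
  have hmain : (∫ t in Set.Ioc (T / 8) (8 * T), om κ (κ / T) t * F t) ≤
      3 * (∫ t in Set.Ioi (0:ℝ), wz κ T t * (Q₁ t * M t)) +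
      Cz * (∫ t in Set.Ioi (0:ℝ), wz κ T t * ((∫ y', Q t y' * gg L k y') * M t)) +
      3 * (T ^ (-1 : ℝ)) ^ 2 * ∫ t in Set.Ioi (0:ℝ), wz κ T t * M t := by
    calc _ ≤ ∫ t in Set.Ioc (T / 8) (8 * T), (3 * (wz κ T t * (Q₁ t * M t)) +
          Cz * (wz κ T t * ((∫ y', Q t y' * gg L k y') * M t)) + 3 * (T ^ (-1 : ℝ)) ^ 2 * (wz κ T t * M t)) :=
          setIntegral_mono_on (hI.mono_set hsub) (iG.mono_set hsub) measurableSet_Ioc hpt
      _ ≤ ∫ t in Set.Ioi (0:ℝ), (3 * (wz κ T t * (Q₁ t * M t)) +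
          Cz * (wz κ T t * ((∫ y', Q t y' * gg L k y') * M t)) + 3 * (T ^ (-1 : ℝ)) ^ 2 * (wz κ T t * M t)) := by
          refine setIntegral_mono_set iG ?_ hsub.eventuallyLE
          exact (ae_restrict_iff' measurableSet_Ioi).mpr (Eventually.of_forall hG0)
      _ = _ := by
          have e1 := integral_add (μ := volume.restrict (Set.Ioi (0:ℝ))) ((i1.const_mul 3).add (hdI.const_mul Cz))
            (i3.const_mul (3 * (T ^ (-1 : ℝ)) ^ 2))
          have e2 := integral_add (μ := volume.restrict (Set.Ioi (0:ℝ))) (i1.const_mul 3) (hdI.const_mul Cz)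
          simp only [Pi.add_apply] at e1 e2
          rw [e1, e2, integral_const_mul, integral_const_mul, integral_const_mul]
  -- first
  have b1 : ∫ t in Set.Ioi (0:ℝ), wz κ T t * (Q₁ t * M t) ≤ CT * L * E := by
    have := hTB κ hκ y 0 0 (1 / 2 * L) J hBL hy1 hA le_rfl h1L.le (by positivity) (by nlinarith)
    have e0 : (1 + L * |(0:ℝ)|) ^ 4 = 1 := by simp
    rw [e0, mul_one] at this
    exact this
  -- dual
  have b2 : ∫ t in Set.Ioi (0:ℝ), wz κ T t * ((∫ y', Q t y' * gg L k y') * M t) ≤ 2 * (CT * L * E) := by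
    rw [hdE]
    have h1 : ∀ y', gg L k y' * ∫ t in Set.Ioi (0:ℝ), wz κ T t * (Q t y' * M t) ≤
        CT * L * E * gg L (k - 4) y' := by
      intro y'
      have h2 := hTB κ hκ y (1 / L) y' (101 / 200 * L) J hBL hy1 hA h1L.le le_rfl (by positivity) le_rfl
      have hp : 0 < 1 + L * |y'| := by positivity
      calc gg L k y' * ∫ t in Set.Ioi (0:ℝ), wz κ T t * (Q t y' * M t)
          ≤ gg L k y' * (CT * L * E * (1 + L * |y'|) ^ 4) := mul_le_mul_of_nonneg_left h2 (gg_nonneg L k y' hL1)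
        _ = CT * L * E * gg L (k - 4) y' := by
            unfold gg
            have : (1 + L * |y'|) ^ k = (1 + L * |y'|) ^ (k - 4) * (1 + L * |y'|) ^ 4 := by
              rw [← pow_add]; congr 1; omega
            rw [this]
            field_simp
    have h0 : 0 ≤ᵐ[volume] fun y' => gg L k y' * ∫ t in Set.Ioi (0:ℝ), wz κ T t * (Q t y' * M t) :=
      Eventually.of_forall fun y' => mul_nonneg (gg_nonneg L k y' hL1)
        (setIntegral_nonneg measurableSet_Ioi fun t ht => mul_nonneg (hΦ0 t ht) (mul_nonneg (hQ0 _ _) (hM0 _)))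
    have hi := (gg_int L (k - 4) hL1 (by omega)).const_mul (CT * L * E)
    refine (integral_mono_of_nonneg h0 hi (Eventually.of_forall h1)).trans ?_
    rw [integral_const_mul]
    have := Pool.Agent.H448R2.GC.scale_integral L (k - 4) hL1 (by omega)
    have h7 : ∫ y', gg L (k - 4) y' ≤ 2 := this
    calc CT * L * E * ∫ y', gg L (k - 4) y' ≤ CT * L * E * 2 :=
          mul_le_mul_of_nonneg_left h7 (by positivity)
      _ = _ := by ring
  -- third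
  have b3 : 3 * (T ^ (-1 : ℝ)) ^ 2 * ∫ t in Set.Ioi (0:ℝ), wz κ T t * M t ≤ 1 := by
    have h1 : ∫ t in Set.Ioi (0:ℝ), wz κ T t * M t ≤ T ^ (1 / 8 : ℝ) * (2 * L) := by
      calc _ ≤ ∫ t in Set.Ioi (0:ℝ), T ^ (1 / 8 : ℝ) * wz κ T t := by
            refine setIntegral_mono_on i3 (hΦi.const_mul _) measurableSet_Ioi fun t ht => ?_
            rw [mul_comm]
            exact mul_le_mul_of_nonneg_right (hMB t) (hΦ0 t ht)
        _ = T ^ (1 / 8 : ℝ) * ∫ t in Set.Ioi (0:ℝ), wz κ T t := integral_const_mul _ _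
        _ ≤ _ := mul_le_mul_of_nonneg_left (hZ κ hκ) (by positivity)
    calc 3 * (T ^ (-1 : ℝ)) ^ 2 * ∫ t in Set.Ioi (0:ℝ), wz κ T t * M t
        ≤ 3 * (T ^ (-1 : ℝ)) ^ 2 * (T ^ (1 / 8 : ℝ) * (2 * L)) := by gcongr
      _ = 6 * (T ^ (-2 + 1 / 8 : ℝ)) * L := by
          rw [← Real.rpow_natCast, ← Real.rpow_mul hT0.le, Real.rpow_add hT0]
          norm_num
          ring
      _ ≤ 6 * T ^ (-(3 / 2) : ℝ) * L := by
          have := Real.rpow_le_rpow_of_exponent_le hT1 (show (-2 + 1 / 8 : ℝ) ≤ -(3 / 2) by norm_num)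
          gcongr
      _ ≤ 1 := hsm
  calc (∫ t in Set.Ioc (T / 8) (8 * T), om κ (κ / T) t * F t) + 2 * (24 ^ 4 * T ^ (1 / 8 : ℝ)) * T ^ (-10 : ℝ)
      ≤ (3 * (CT * L * E) + Cz * (2 * (CT * L * E)) + 1) + 1 := by
        have := mul_le_mul_of_nonneg_left b2 hCz.le
        linarith
    _ ≤ _ := by nlinarith

end

end Pool.Agent.Zk6
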