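import Pool.Agent.Y24.D1

set_option autoImplicit false

/-!
Convexity of the mean values (first power) of an analytic function on the vertical lines of a strip.
-/

namespace Pool.Agent.Zk6

open Filter MeasureTheory Complex Topology Set
open Pool.Agent.Y24 (SD Cv int_shift)

noncomputable section

variable {g : ℂ → ℂ} {a b r C : ℝ}

/-- convexity of the mean values, first power -/
theorem conv_l1 (h : SD g a b r C) {σ : ℝ} (hab : a < b) (ha : a ≤ σ) (hb : σ ≤ b) {A B : ℝ}
    (hA : ∫ y : ℝ, ‖g ((a : ℂ) + (y : ℂ) * I)‖ ≤ A) (hB : ∫ y : ℝ, ‖g ((b : ℂ) + (y : ℂ) * I)‖ ≤ B) :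
    ∫ y : ℝ, ‖g ((σ : ℂ) + (y : ℂ) * I)‖ ≤ A ^ (1 - (σ - a) / (b - a)) * B ^ ((σ - a) / (b - a)) := by
  have hr := h.r0
  have hC := h.C0
  set θ := (σ - a) / (b - a) with hθ
  have hθ0 : 0 ≤ θ := div_nonneg (by linarith) (by linarith)
  have hθ1 : θ ≤ 1 := by rw [hθ, div_le_one (by linarith)]; linarith
  -- lines
  have hline : ∀ x : ℝ, a ≤ x → x ≤ b → Continuous fun y : ℝ => g ((x : ℂ) + (y : ℂ) * I) := fun x h1 h2 =>
    h.line_cont (by simp; linarith) (by simp; linarith)
  have hdec : ∀ x : ℝ, a ≤ x → x ≤ b → ∀ y : ℝ, ‖g ((x : ℂ) + (y : ℂ) * I)‖ ≤ C * (1 / (1 + y ^ 2)) := by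
    intro x h1 h2 y
    have := h.dec ((x : ℂ) + (y : ℂ) * I) (by simp; linarith) (by simp; linarith)
    simpa using this
  have hintp : ∀ x : ℝ, a ≤ x → x ≤ b → Integrable fun y : ℝ => ‖g ((x : ℂ) + (y : ℂ) * I)‖ := by
    intro x h1 h2
    have hi : Integrable fun y : ℝ => C * (1 / (1 + (0 + y) ^ 2)) := (int_shift 0).const_mul _
    refine hi.mono' ((hline x h1 h2).norm.aestronglyMeasurable) (Eventually.of_forall fun y => ?_)
    rw [Real.norm_eq_abs, abs_of_nonneg (norm_nonneg _), zero_add]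
    exact hdec x h1 h2 y
  set N := ∫ y : ℝ, ‖g ((σ : ℂ) + (y : ℂ) * I)‖ with hN
  have hN0 : 0 ≤ N := integral_nonneg fun y => norm_nonneg _
  -- the dual function
  set ψ : ℝ → ℂ := fun y => (starRingEnd ℂ) (g ((σ : ℂ) + (y : ℂ) * I)) *
    ((‖g ((σ : ℂ) + (y : ℂ) * I)‖⁻¹ : ℝ) : ℂ) with hψ
  have hσc := hline σ ha hb
  have hψK : ∀ y, ‖ψ y‖ ≤ 1 := by
    intro y
    rw [hψ]; simp only
    rw [norm_mul, Complex.norm_conj, Complex.norm_real, Real.norm_eq_abs, abs_of_nonneg (by positivity)]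
    rcases (norm_nonneg (g ((σ : ℂ) + (y : ℂ) * I))).eq_or_lt with h0 | h0
    · rw [← h0, zero_mul]; norm_num
    · rw [mul_inv_cancel₀ h0.ne']
  have hψm : AEStronglyMeasurable ψ volume := by
    have h1 : Measurable fun y : ℝ => ‖g ((σ : ℂ) + (y : ℂ) * I)‖⁻¹ :=
      (hσc.norm.measurable).inv
    have h2 : Measurable ψ := (Complex.continuous_conj.comp hσc).measurable.mul (Complex.measurable_ofReal.comp h1)
    exact h2.aestronglyMeasurable
  set Φ : ℂ → ℂ := Cv g ψ with hΦ
  have hΦσ : Φ σ = (N : ℂ) := by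
    rw [hΦ]; unfold Cv
    rw [hN, ← integral_complex_ofReal]
    refine integral_congr_ae (Eventually.of_forall fun y => ?_)
    simp only [hψ]
    rw [← mul_assoc, Complex.mul_conj, Complex.normSq_eq_norm_sq, ← Complex.ofReal_mul]
    congr 1
    rcases (norm_nonneg (g ((σ : ℂ) + (y : ℂ) * I))).eq_or_lt with h0 | h0
    · rw [← h0]; simp
    · field_simp
  have hΦd : ∀ z : ℂ, a - r < z.re → z.re < b + r → DifferentiableAt ℂ Φ z := fun z h1 h2 =>
    h.hasDeriv hψm hψK h1 h2
  have hhold : ∀ x : ℝ, a ≤ x → x ≤ b → ∀ τ : ℝ, ‖Φ ((x : ℂ) + (τ : ℂ) * I)‖ ≤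
      ∫ y : ℝ, ‖g ((x : ℂ) + (y : ℂ) * I)‖ := by
    intro x h1 h2 τ
    have e0 : ∀ y : ℝ, ((x : ℂ) + (τ : ℂ) * I) + (y : ℂ) * I = (x : ℂ) + ((τ + y : ℝ) : ℂ) * I := by
      intro y; push_cast; ring
    have h4 : ∫ y : ℝ, ‖g ((x : ℂ) + ((τ + y : ℝ) : ℂ) * I)‖ = ∫ y : ℝ, ‖g ((x : ℂ) + (y : ℂ) * I)‖ :=
      integral_add_left_eq_self (fun y : ℝ => ‖g ((x : ℂ) + (y : ℂ) * I)‖) τ
    rw [← h4, hΦ]; unfold Cv
    refine norm_integral_le_of_norm_le ((hintp x h1 h2).comp_add_left τ) (Eventually.of_forall fun y => ?_)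
    rw [norm_mul, e0]
    exact mul_le_of_le_one_right (norm_nonneg _) (hψK y)
  have h3l := Complex.HadamardThreeLines.norm_le_interp_of_mem_verticalClosedStrip' (f := Φ) (z := (σ : ℂ))
    (a := A) (b := B) (l := a) (u := b) hab
    (by simp [Complex.HadamardThreeLines.verticalClosedStrip, ha, hb])
    (by
      constructor
      · intro z hz
        simp only [Complex.HadamardThreeLines.verticalStrip, mem_preimage, mem_Ioo] at hz
        exact (hΦd z (by linarith [hz.1]) (by linarith [hz.2])).differentiableWithinAt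
      · have hcl : closure (Complex.HadamardThreeLines.verticalStrip a b) ⊆
            Complex.HadamardThreeLines.verticalClosedStrip a b := by
          refine closure_minimal ?_ (isClosed_Icc.preimage Complex.continuous_re)
          intro z hz
          exact Ioo_subset_Icc_self hz
        intro z hz
        have hz' := hcl hz
        simp only [Complex.HadamardThreeLines.verticalClosedStrip, mem_preimage, mem_Icc] at hz'
        exact (hΦd z (by linarith [hz'.1]) (by linarith [hz'.2])).continuousAt.continuousWithinAt)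
    (by
      -- bounded
      refine ⟨(∫ y : ℝ, C * (1 / (1 + (0 + y) ^ 2))), ?_⟩
      rintro _ ⟨z, hz, rfl⟩
      simp only [Complex.HadamardThreeLines.verticalClosedStrip, mem_preimage, mem_Icc] at hz
      simp only [Function.comp]
      rw [hΦ]; unfold Cv
      have hi : Integrable fun y : ℝ => C * (1 / (1 + (z.im + y) ^ 2)) :=
        (int_shift z.im).const_mul C
      refine (norm_integral_le_of_norm_le hi (Eventually.of_forall fun y => ?_)).trans (le_of_eq ?_)
      · rw [norm_mul]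
        have h3 := h.dec (z + (y : ℂ) * I) (by simp; linarith [hz.1]) (by simp; linarith [hz.2])
        have e : (z + (y : ℂ) * I).im = z.im + y := by simp
        rw [e] at h3
        exact (mul_le_of_le_one_right (norm_nonneg _) (hψK y)).trans h3
      · have e1 := integral_add_left_eq_self (fun y : ℝ => C * (1 / (1 + y ^ 2))) z.im (μ := volume)
        have e2 := integral_add_left_eq_self (fun y : ℝ => C * (1 / (1 + y ^ 2))) 0 (μ := volume)
        rw [e1, ← e2])
    (by
      intro z hz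
      simp only [mem_preimage, mem_singleton_iff] at hz
      have h4 := hhold a le_rfl hab.le z.im
      have e : (a : ℂ) + (z.im : ℂ) * I = z := by rw [← hz]; exact Complex.re_add_im z
      rw [e] at h4
      exact h4.trans hA)
    (by
      intro z hz
      simp only [mem_preimage, mem_singleton_iff] at hz
      have h4 := hhold b hab.le le_rfl z.im
      have e : (b : ℂ) + (z.im : ℂ) * I = z := by rw [← hz]; exact Complex.re_add_im z
      rw [e] at h4
      exact h4.trans hB)
  rw [hΦσ, Complex.norm_real, Real.norm_eq_abs, abs_of_nonneg hN0, Complex.ofReal_re, ← hθ] at h3l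
  exact h3l

end

end Pool.Agent.Zk6
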