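import Pool.Agent.Zk6.H9

set_option autoImplicit false

/-!
The second mean value on a line to the right of one.
-/

namespace Pool.Agent.Zk6

open Finset Filter MeasureTheory Complex
open Pool.Agent.H448R2.GC (gw gw_nonneg gw_integrable gw_integral cu fs cu_nonneg cu_le_one cu_one cu_zero)
open Pool.Agent.Y24 (gg norm_gg norm_FF_le)

noncomputable section

lemma zeta_right {b : ℝ} (hb : 1 < b) : ∃ C : ℝ, 0 < C ∧ ∀ s : ℂ, b ≤ s.re → ‖riemannZeta s‖ ≤ C := by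
  have hsum : Summable (fun n : ℕ => 1 / ((n:ℝ) ^ b)) := Real.summable_one_div_nat_rpow.mpr hb
  refine ⟨(∑' n : ℕ, 1 / ((n:ℝ) ^ b)) + 1, by positivity, fun s hs => ?_⟩
  have hs1 : 1 < s.re := by linarith
  rw [← LSeries_one_eq_riemannZeta hs1]
  have h1 : ‖LSeries 1 s‖ ≤ ∑' n : ℕ, 1 / ((n:ℝ) ^ b) := by
    refine tsum_of_norm_bounded hsum.hasSum fun n => ?_
    rcases Nat.eq_zero_or_pos n with h0 | h0
    · rw [h0]; simp
      exact Real.rpow_nonneg le_rfl _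
    · rw [LSeries.term_of_ne_zero (by omega), norm_div, Complex.norm_natCast_cpow_of_pos h0]
      have hn1 : (1:ℝ) ≤ n := by exact_mod_cast h0
      have h4 : (n:ℝ) ^ b ≤ (n:ℝ) ^ s.re := Real.rpow_le_rpow_of_exponent_le hn1 hs
      simp only [Pi.one_apply, norm_one]
      apply one_div_le_one_div_of_le (by positivity) h4
  linarith

/-- the coefficients -/
def aD (k : ℕ) (c D b : ℝ) (n : ℕ) : ℂ :=
  ((cu k c (Real.log n - D) - 1 : ℝ) : ℂ) * (((ArithmeticFunction.moebius n : ℤ) : ℂ) * (n : ℂ) ^ (-(b : ℂ)))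

lemma aD_le {k : ℕ} {c D b : ℝ} (hc : 0 < c) (n : ℕ) : ‖aD k c D b n‖ ≤ 1 / (n:ℝ) ^ b := by
  unfold aD
  rcases Nat.eq_zero_or_pos n with h0 | h0
  · rw [h0]; simp
    exact Real.rpow_nonneg le_rfl _
  · rw [norm_mul, norm_mul, Complex.norm_real, Real.norm_eq_abs]
    have h3 : |cu k c (Real.log n - D) - 1| ≤ 1 := by
      rw [abs_le]
      have a1 := cu_nonneg k c (Real.log n - D) hc
      have a2 := cu_le_one k c (Real.log n - D) hc
      constructor <;> linarith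
    have h4 := Pool.Agent.H448R2.GC.F0.norm_moebius_le n
    have h5 : ‖(n : ℂ) ^ (-(b : ℂ))‖ = 1 / (n:ℝ) ^ b := by
      rw [Complex.norm_natCast_cpow_of_pos h0]
      have : (-(b:ℂ)).re = -b := by simp
      rw [this, Real.rpow_neg (Nat.cast_nonneg n), one_div]
    rw [h5]
    have h6 : 0 ≤ 1 / (n:ℝ) ^ b := by positivity
    calc |cu k c (Real.log n - D) - 1| * (‖((ArithmeticFunction.moebius n : ℤ) : ℂ)‖ * (1 / (n:ℝ) ^ b))
        ≤ 1 * (1 * (1 / (n:ℝ) ^ b)) := by gcongr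
      _ = _ := by ring

lemma aD_zero {k : ℕ} {c D b : ℝ} (hc : 0 < c) {n : ℕ} (hn : Real.log n ≤ D) : aD k c D b n = 0 := by
  unfold aD
  rw [cu_one k c _ hc (by linarith)]
  simp

/-- the representation -/
lemma rep_right {b : ℝ} (hb : 1 < b) {k : ℕ} {c D : ℝ} (hc : 0 < c) (y : ℝ) :
    riemannZeta ((b : ℂ) + (y : ℂ) * I) * fs k c D ((b : ℂ) + (y : ℂ) * I) - 1 =
      riemannZeta ((b : ℂ) + (y : ℂ) * I) * ∑' n : ℕ, aD k c D b n * (n : ℂ) ^ (-((y : ℂ) * I)) := by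
  set s : ℂ := (b : ℂ) + (y : ℂ) * I with hs
  have hsre : s.re = b := by simp [hs]
  have hs1 : 1 < s.re := by rw [hsre]; exact hb
  have hmu : riemannZeta s * LSeries (fun n => ((ArithmeticFunction.moebius n : ℤ) : ℂ)) s = 1 := by
    have h := ArithmeticFunction.LSeries_zeta_mul_Lseries_moebius hs1
    rwa [ArithmeticFunction.LSeries_zeta_eq_riemannZeta hs1] at h
  have hsm : LSeriesSummable (fun n => ((ArithmeticFunction.moebius n : ℤ) : ℂ)) s :=
    ArithmeticFunction.LSeriesSummable_moebius_iff.mpr hs1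
  set u : ℕ → ℂ := fun n => LSeries.term (fun n => ((ArithmeticFunction.moebius n : ℤ) : ℂ)) s n with hu
  set w : ℕ → ℂ := fun n => (cu k c (Real.log n - D) : ℂ) * u n with hw
  have hfs : fs k c D s = ∑' n, w n := by
    unfold Pool.Agent.H448R2.GC.fs
    rw [tsum_eq_sum (s := Finset.Icc 1 ⌊Real.exp (D + k * c)⌋₊)]
    · refine Finset.sum_congr rfl fun n hn => ?_
      have hn1 := (Finset.mem_Icc.mp hn).1
      rw [hw, hu]
      simp only
      rw [LSeries.term_of_ne_zero (by omega), Complex.cpow_neg]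
      ring
    · intro n hn
      rw [hw]
      simp only
      rcases Nat.eq_zero_or_pos n with h0 | h0
      · rw [h0, hu]; simp
      · have h3 : ⌊Real.exp (D + k * c)⌋₊ < n := by
          by_contra hcon
          exact hn (Finset.mem_Icc.mpr ⟨h0, by omega⟩)
        have h4 : Real.exp (D + k * c) < n := (Nat.floor_lt (Real.exp_pos _).le).mp h3
        have h5 : D + k * c < Real.log n := by
          rw [Real.lt_log_iff_exp_lt (by exact_mod_cast h0)]
          exact h4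
        rw [cu_zero k c _ hc (by linarith)]
        simp
  have hwu : ∀ n, w n - u n = aD k c D b n * (n : ℂ) ^ (-((y : ℂ) * I)) := by
    intro n
    rw [hw]; simp only
    unfold aD
    rcases Nat.eq_zero_or_pos n with h0 | h0
    · rw [h0, hu]; simp
    · have hn0 : (n:ℂ) ≠ 0 := by exact_mod_cast (by omega : n ≠ 0)
      have e1 : u n = ((ArithmeticFunction.moebius n : ℤ) : ℂ) * ((n : ℂ) ^ (-(b : ℂ)) * (n : ℂ) ^ (-((y : ℂ) * I))) := by
        rw [hu]; simp only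
        rw [LSeries.term_of_ne_zero (by omega), ← Complex.cpow_add _ _ hn0, div_eq_mul_inv, ← Complex.cpow_neg]
        congr 2
        rw [hs]; ring
      rw [e1]; push_cast; ring
  have hsum : Summable (fun n : ℕ => 1 / ((n:ℝ) ^ b)) := Real.summable_one_div_nat_rpow.mpr hb
  have hnorm : ∀ n : ℕ, ‖aD k c D b n * (n : ℂ) ^ (-((y : ℂ) * I))‖ ≤ 1 / (n:ℝ) ^ b := by
    intro n
    rcases Nat.eq_zero_or_pos n with h0 | h0
    · have : aD k c D b n = 0 := by unfold aD; rw [h0]; simp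
      rw [this, zero_mul, norm_zero]; positivity
    · rw [norm_mul, Complex.norm_natCast_cpow_of_pos h0]
      have : (-((y : ℂ) * I)).re = 0 := by simp
      rw [this, Real.rpow_zero, mul_one]
      exact aD_le hc n
  have hsd : Summable fun n => w n - u n := by
    refine Summable.of_norm_bounded hsum fun n => ?_
    rw [hwu]; exact hnorm n
  have husum : Summable u := hsm
  have hwsum : Summable w := by
    have := hsd.add husum
    simpa using this
  have hdiff : fs k c D s - LSeries (fun n => ((ArithmeticFunction.moebius n : ℤ) : ℂ)) s =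
      ∑' n : ℕ, aD k c D b n * (n : ℂ) ^ (-((y : ℂ) * I)) := by
    have h1 : ∑' n, (w n - u n) = (∑' n, w n) - ∑' n, u n := hwsum.tsum_sub husum
    have h2 : (∑' n, u n) = LSeries (fun n => ((ArithmeticFunction.moebius n : ℤ) : ℂ)) s := rfl
    rw [← h2, hfs, ← h1]
    exact tsum_congr hwu
  rw [← hdiff]
  linear_combination hmu

theorem right2 {b : ℝ} (hb : 1 < b) : ∃ C : ℝ, 0 < C ∧ ∀ (k : ℕ) (c D V H : ℝ), 0 < c → 0 ≤ D → b ≤ H →
    2 * Real.exp D ≤ H →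
    ∫ y : ℝ, ‖gg k c D V H ((b : ℂ) + (y : ℂ) * I)‖ ^ 2 ≤ C * H * Real.exp (-D) := by
  obtain ⟨Cz, hCz, hz⟩ := zeta_right hb
  have hsum : Summable (fun n : ℕ => 1 / ((n:ℝ) ^ b)) := Real.summable_one_div_nat_rpow.mpr hb
  have hsum2 : Summable (fun n : ℕ => 1 / ((n:ℝ) ^ (2 * b - 1))) :=
    Real.summable_one_div_nat_rpow.mpr (by linarith)
  set Z1 := ∑' n : ℕ, 1 / ((n:ℝ) ^ b) with hZ1
  set Z2 := ∑' n : ℕ, 1 / ((n:ℝ) ^ (2 * b - 1)) with hZ2
  have hZ10 : 0 ≤ Z1 := tsum_nonneg fun n => by positivity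
  have hZ20 : 0 ≤ Z2 := tsum_nonneg fun n => by positivity
  refine ⟨Real.exp 2 * Cz ^ 2 * Real.sqrt Real.pi * (2 * (2 * Real.exp 1 * (5 * Z2) + Z1 ^ 2 * 9) + 2), by positivity,
    fun k c D V H hc hD hbH hDH => ?_⟩
  have hE1 : 1 ≤ Real.exp D := Real.one_le_exp hD
  have hH2 : 2 ≤ H := by linarith
  have hH : 0 < H := by linarith
  set Δ := H / Real.sqrt 2 with hΔ
  have hs2 : 0 < Real.sqrt 2 := by positivity
  have hs22 : Real.sqrt 2 * Real.sqrt 2 = 2 := Real.mul_self_sqrt (by norm_num)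
  have hs2le : Real.sqrt 2 ≤ 2 := by
    have h1 : (1:ℝ) ≤ Real.sqrt 2 := Real.one_le_sqrt.mpr (by norm_num)
    nlinarith
  have hΔ0 : 0 < Δ := by positivity
  have hΔH : H / 2 ≤ Δ := div_le_div_of_nonneg_left hH.le hs2 hs2le
  have hΔle : Δ ≤ H := div_le_self hH.le (Real.one_le_sqrt.mpr (by norm_num))
  have hNΔ : Real.exp D ≤ Δ := by linarith
  have hΔ1 : 1 ≤ Δ := by linarith
  set N := Real.exp D with hN
  have hN0 : 0 < N := Real.exp_pos D
  have hNinv : Real.exp (-D) = 1 / N := by rw [Real.exp_neg, one_div]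
  set a := aD k c D b with ha
  have haS : Summable fun n => ‖a n‖ := Summable.of_nonneg_of_le (fun _ => norm_nonneg _) (fun n => aD_le hc n) hsum
  -- the truncation
  obtain ⟨X, hX⟩ : ∃ X : ℕ, ∑' n, ‖a (n + (X + 1))‖ ≤ 1 / N := by
    have h1 := tendsto_sum_nat_add (fun n => ‖a n‖)
    have h2 := (h1.comp (tendsto_add_atTop_nat 1)).eventually (eventually_le_nhds (show (0:ℝ) < 1 / N by positivity))
    obtain ⟨X, hX⟩ := h2.exists
    exact ⟨X, hX⟩
  set M : ℝ → ℂ := fun y => ∑' n : ℕ, a n * (n : ℂ) ^ (-((y : ℂ) * I)) with hM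
  set S : Finset ℕ := Finset.Ico 1 (X + 1) with hS
  have hS1 : ∀ n ∈ S, 1 ≤ n := fun n hn => (Finset.mem_Ico.mp hn).1
  set MX : ℝ → ℂ := fun y => ∑ n ∈ S, a n * (n : ℂ) ^ (-((y : ℂ) * I)) with hMX
  have ha0 : a 0 = 0 := by rw [ha]; unfold aD; simp
  have hterm : ∀ (n : ℕ) (y : ℝ), ‖a n * (n : ℂ) ^ (-((y : ℂ) * I))‖ ≤ ‖a n‖ := by
    intro n y
    rcases Nat.eq_zero_or_pos n with h0 | h0
    · rw [h0, ha0]; simp
    · rw [norm_mul, Complex.norm_natCast_cpow_of_pos h0]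
      have : (-((y : ℂ) * I)).re = 0 := by simp
      rw [this, Real.rpow_zero, mul_one]
  have htail : ∀ y, ‖M y‖ ^ 2 ≤ 2 * ‖MX y‖ ^ 2 + 2 * (1 / N) ^ 2 := by
    intro y
    have hs : Summable fun n : ℕ => a n * (n : ℂ) ^ (-((y : ℂ) * I)) := Summable.of_norm_bounded haS fun n => hterm n y
    have h1 := hs.sum_add_tsum_nat_add (X + 1)
    have h2 : ∑ n ∈ range (X + 1), a n * (n : ℂ) ^ (-((y : ℂ) * I)) = MX y := by
      rw [hMX]; simp only
      rw [Finset.range_eq_Ico, Finset.sum_eq_sum_Ico_succ_bot (by omega), ha0, zero_mul, zero_add]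
    have h3 : ‖∑' n : ℕ, a (n + (X + 1)) * ((n + (X + 1) : ℕ) : ℂ) ^ (-((y : ℂ) * I))‖ ≤ 1 / N := by
      refine le_trans ?_ hX
      refine tsum_of_norm_bounded ((summable_nat_add_iff (X + 1)).mpr haS).hasSum fun n => ?_
      exact hterm (n + (X + 1)) y
    rw [h2] at h1
    have h4 : M y = MX y + ∑' n : ℕ, a (n + (X + 1)) * ((n + (X + 1) : ℕ) : ℂ) ^ (-((y : ℂ) * I)) := h1.symm
    have h5 : ‖M y‖ ≤ ‖MX y‖ + 1 / N := by
      rw [h4]; exact (norm_add_le _ _).trans (by gcongr)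
    have h6 : 0 ≤ ‖MX y‖ := norm_nonneg _
    have h7 : 0 < 1 / N := by positivity
    calc ‖M y‖ ^ 2 ≤ (‖MX y‖ + 1 / N) ^ 2 := pow_le_pow_left₀ (norm_nonneg _) h5 2
      _ ≤ _ := by nlinarith [sq_nonneg (‖MX y‖ - 1 / N)]
  -- the mean value of the truncation
  have hmv := mvG S hS1 a V hΔ0
  have hb1 : 2 * Real.exp 1 * ∑ n ∈ S, ‖a n‖ ^ 2 * (1 + 4 * n / Δ) + (∑ n ∈ S, ‖a n‖) ^ 2 * Real.exp (-(Δ ^ 2 / 9)) ≤
      (2 * Real.exp 1 * (5 * Z2) + Z1 ^ 2 * 9) * (1 / N) := by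
    have h1 : ∑ n ∈ S, ‖a n‖ ^ 2 * (1 + 4 * n / Δ) ≤ 5 * Z2 * (1 / N) := by
      have h2 : ∀ n ∈ S, ‖a n‖ ^ 2 * (1 + 4 * n / Δ) ≤ 5 * (1 / N) * (1 / (n:ℝ) ^ (2 * b - 1)) := by
        intro n hn
        have hn1 := hS1 n hn
        have hn0 : (0:ℝ) < n := by exact_mod_cast hn1
        by_cases hlog : Real.log n ≤ D
        · rw [ha, aD_zero hc hlog, norm_zero]
          have : (0:ℝ) ≤ 5 * (1 / N) * (1 / (n:ℝ) ^ (2 * b - 1)) := by positivity
          simpa using this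
        · push Not at hlog
          have hNn : N ≤ n := by
            rw [hN]
            exact ((Real.lt_log_iff_exp_lt hn0).mp hlog).le
          have h3 := aD_le (k := k) (D := D) (b := b) hc n
          have h4 : ‖a n‖ ^ 2 ≤ (1 / (n:ℝ) ^ b) ^ 2 := pow_le_pow_left₀ (norm_nonneg _) h3 2
          have h5 : 1 + 4 * n / Δ ≤ 5 * (1 / N) * n := by
            have h6 : 1 ≤ (1 / N) * n := by rw [one_div, inv_mul_eq_div, le_div_iff₀ hN0]; linarith
            have h7 : 4 * n / Δ ≤ 4 * ((1 / N) * n) := by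
              rw [div_le_iff₀ hΔ0]
              have h8 : 1 ≤ Δ * (1 / N) := by rw [mul_one_div, le_div_iff₀ hN0]; linarith
              nlinarith
            linarith
          have h6 : (1 / (n:ℝ) ^ b) ^ 2 * n = 1 / (n:ℝ) ^ (2 * b - 1) := by
            have e1 : ((n:ℝ) ^ b) ^ 2 = (n:ℝ) ^ (2 * b - 1) * n := by
              rw [← Real.rpow_natCast, ← Real.rpow_mul hn0.le, ← Real.rpow_add_one hn0.ne']
              congr 1; push_cast; ring
            rw [div_pow, one_pow, e1]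
            field_simp
          calc ‖a n‖ ^ 2 * (1 + 4 * n / Δ) ≤ (1 / (n:ℝ) ^ b) ^ 2 * (5 * (1 / N) * n) := by gcongr
            _ = 5 * (1 / N) * ((1 / (n:ℝ) ^ b) ^ 2 * n) := by ring
            _ = _ := by rw [h6]
      refine (sum_le_sum h2).trans ?_
      rw [← mul_sum]
      have h3 : ∑ n ∈ S, 1 / (n:ℝ) ^ (2 * b - 1) ≤ Z2 := hsum2.sum_le_tsum _ (fun _ _ => by positivity)
      calc 5 * (1 / N) * ∑ n ∈ S, 1 / (n:ℝ) ^ (2 * b - 1) ≤ 5 * (1 / N) * Z2 := by gcongr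
        _ = _ := by ring
    have h2 : ∑ n ∈ S, ‖a n‖ ≤ Z1 :=
      (sum_le_sum fun n _ => aD_le hc n).trans (hsum.sum_le_tsum _ (fun _ _ => by positivity))
    have h3 : (∑ n ∈ S, ‖a n‖) ^ 2 ≤ Z1 ^ 2 := pow_le_pow_left₀ (sum_nonneg fun _ _ => norm_nonneg _) h2 2
    have h4 : Real.exp (-(Δ ^ 2 / 9)) ≤ 9 * (1 / N) := by
      have h5 : Δ ^ 2 / 9 ≤ Real.exp (Δ ^ 2 / 9) := by
        have := Real.add_one_le_exp (Δ ^ 2 / 9); linarith
      have h6 : N / 9 ≤ Real.exp (Δ ^ 2 / 9) := by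
        refine le_trans ?_ h5
        have : Δ ≤ Δ ^ 2 := by nlinarith
        linarith
      rw [Real.exp_neg, inv_le_comm₀ (Real.exp_pos _) (by positivity)]
      refine le_trans (le_of_eq ?_) h6
      field_simp
    calc 2 * Real.exp 1 * ∑ n ∈ S, ‖a n‖ ^ 2 * (1 + 4 * n / Δ) + (∑ n ∈ S, ‖a n‖) ^ 2 * Real.exp (-(Δ ^ 2 / 9))
        ≤ 2 * Real.exp 1 * (5 * Z2 * (1 / N)) + Z1 ^ 2 * (9 * (1 / N)) := by gcongr
      _ = _ := by ring
  have hmv2 := hmv.trans hb1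
  -- the pointwise bound
  have hgw : ∀ y, Real.exp (-((y - V) / H) ^ 2) ^ 2 = Δ * Real.sqrt Real.pi * gw V Δ y := by
    intro y
    unfold Pool.Agent.H448R2.GC.gw
    have hpi : 0 < Real.sqrt Real.pi := Real.sqrt_pos.mpr Real.pi_pos
    rw [mul_div_cancel₀ _ (by positivity), ← Real.exp_nat_mul]
    congr 1
    rw [hΔ]
    have e : (y - V) / (H / Real.sqrt 2) = (y - V) / H * Real.sqrt 2 := by field_simp
    rw [e, mul_pow, Real.sq_sqrt (by norm_num)]
    push_cast; ring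
  have hK0 : 0 ≤ Real.exp 2 * Cz ^ 2 * (Δ * Real.sqrt Real.pi) := by positivity
  have hpt : ∀ y : ℝ, ‖gg k c D V H ((b : ℂ) + (y : ℂ) * I)‖ ^ 2 ≤
      Real.exp 2 * Cz ^ 2 * (Δ * Real.sqrt Real.pi) * (2 * (gw V Δ y * ‖MX y‖ ^ 2) + 2 * (1 / N) ^ 2 * gw V Δ y) := by
    intro y
    set z : ℂ := (b : ℂ) + (y : ℂ) * I with hz'
    have hzre : z.re = b := by simp [hz']
    have hzim : z.im = y := by simp [hz']
    have hz1 : z ≠ 1 := by
      intro h; rw [h] at hzre; norm_num at hzre; linarith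
    have h3 := norm_FF_le (k := k) (c := c) (D := D) (z := z) (by rw [hzre]; linarith) hz1
    have h4 : ‖riemannZeta z * fs k c D z - 1‖ ≤ Cz * ‖M y‖ := by
      rw [rep_right hb hc y, norm_mul]
      exact mul_le_mul_of_nonneg_right (hz z (by rw [hzre])) (norm_nonneg _)
    have h5 : Real.exp ((b / H) ^ 2) ≤ Real.exp 1 := by
      apply Real.exp_le_exp.mpr
      have h6 : b / H ≤ 1 := (div_le_one hH).mpr hbH
      exact pow_le_one₀ (by positivity) h6
    rw [norm_gg, hzre, hzim]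
    have h6 : 0 ≤ ‖M y‖ := norm_nonneg _
    have hg0 := gw_nonneg V Δ y hΔ0
    calc (‖Pool.Agent.Y24.FF k c D z‖ * (Real.exp ((b / H) ^ 2) * Real.exp (-((y - V) / H) ^ 2))) ^ 2
        ≤ ((Cz * ‖M y‖) * (Real.exp 1 * Real.exp (-((y - V) / H) ^ 2))) ^ 2 := by
          refine pow_le_pow_left₀ (by positivity) ?_ 2
          have h7 := h3.trans h4
          gcongr
      _ = Real.exp 2 * Cz ^ 2 * ‖M y‖ ^ 2 * (Real.exp (-((y - V) / H) ^ 2) ^ 2) := by
          have : Real.exp 1 ^ 2 = Real.exp 2 := by rw [← Real.exp_nat_mul]; norm_num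
          rw [← this]; ring
      _ = Real.exp 2 * Cz ^ 2 * (Δ * Real.sqrt Real.pi) * (gw V Δ y * ‖M y‖ ^ 2) := by rw [hgw]; ring
      _ ≤ Real.exp 2 * Cz ^ 2 * (Δ * Real.sqrt Real.pi) * (gw V Δ y * (2 * ‖MX y‖ ^ 2 + 2 * (1 / N) ^ 2)) := by
          refine mul_le_mul_of_nonneg_left (mul_le_mul_of_nonneg_left (htail y) hg0) hK0
      _ = _ := by ring
  have hMXc : Continuous MX := by
    rw [hMX]
    refine continuous_finsetSum _ fun n hn => ?_
    have hn0 : (n:ℂ) ≠ 0 := by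
      have := hS1 n hn
      exact_mod_cast (by omega : n ≠ 0)
    refine continuous_const.mul ?_
    exact Continuous.const_cpow (by fun_prop) (Or.inl hn0)
  have hMXb : ∀ y, ‖MX y‖ ≤ ∑ n ∈ S, ‖a n‖ := fun y => (norm_sum_le _ _).trans (sum_le_sum fun n _ => hterm n y)
  have hgi := gw_integrable V Δ hΔ0
  have hgMi : Integrable fun y => gw V Δ y * ‖MX y‖ ^ 2 := by
    refine hgi.mul_bdd (c := (∑ n ∈ S, ‖a n‖) ^ 2) (hMXc.norm.pow 2).aestronglyMeasurable (Eventually.of_forall fun y => ?_)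
    rw [Real.norm_eq_abs, abs_of_nonneg (by positivity)]
    exact pow_le_pow_left₀ (norm_nonneg _) (hMXb y) 2
  have hri : Integrable fun y => Real.exp 2 * Cz ^ 2 * (Δ * Real.sqrt Real.pi) *
      (2 * (gw V Δ y * ‖MX y‖ ^ 2) + 2 * (1 / N) ^ 2 * gw V Δ y) :=
    ((hgMi.const_mul 2).add (hgi.const_mul _)).const_mul _
  have hfin : ∫ y : ℝ, ‖gg k c D V H ((b : ℂ) + (y : ℂ) * I)‖ ^ 2 ≤ Real.exp 2 * Cz ^ 2 * (Δ * Real.sqrt Real.pi) *
      (2 * (∫ y, gw V Δ y * ‖MX y‖ ^ 2) + 2 * (1 / N) ^ 2) := by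
    refine (integral_mono_of_nonneg (Eventually.of_forall fun y => by positivity) hri
      (Eventually.of_forall hpt)).trans (le_of_eq ?_)
    rw [integral_const_mul, integral_add (hgMi.const_mul 2) (hgi.const_mul _), integral_const_mul, integral_const_mul,
      gw_integral V Δ hΔ0, mul_one]
  refine hfin.trans ?_
  rw [hNinv]
  have hN1 : (1 / N) ^ 2 ≤ 1 / N := by
    have h1 : 1 / N ≤ 1 := by rw [div_le_one hN0]; exact hE1
    have h2 : 0 ≤ 1 / N := by positivity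
    nlinarith
  calc Real.exp 2 * Cz ^ 2 * (Δ * Real.sqrt Real.pi) * (2 * (∫ y, gw V Δ y * ‖MX y‖ ^ 2) + 2 * (1 / N) ^ 2)
      ≤ Real.exp 2 * Cz ^ 2 * (H * Real.sqrt Real.pi) * (2 * ((2 * Real.exp 1 * (5 * Z2) + Z1 ^ 2 * 9) * (1 / N)) +
        2 * (1 / N)) := by
        have h0 : 0 ≤ ∫ y, gw V Δ y * ‖MX y‖ ^ 2 := integral_nonneg fun y => mul_nonneg (gw_nonneg V Δ y hΔ0) (by positivity)
        gcongr
    _ = _ := by ring

end

end Pool.Agent.Zk6
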