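import Pool.Agent.Y24.D1

set_option autoImplicit false

/-!
Convexity between the first mean value on one line and the second mean value on another line.
-/

namespace Pool.Agent.Zk6

open Filter MeasureTheory Complex Topology Set
open Pool.Agent.Y24 (SD Cv int_shift)

noncomputable section

variable {g : ℂ → ℂ} {a b r C : ℝ}

/-- the discretised size -/
def jj (K G : ℝ) : ℕ := ⌊Real.logb 2 (K / G)⌋₊

lemma jj_spec {K G : ℝ} (hG : 0 < G) (hGK : G ≤ K) :
    G ≤ K * (1 / 2) ^ jj K G ∧ K * (1 / 2) ^ jj K G < 2 * G := by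
  have hK : 0 < K := by linarith
  have h1 : 1 ≤ K / G := by rw [le_div_iff₀ hG]; linarith
  have h0 : 0 < K / G := by positivity
  have h2 : 0 ≤ Real.logb 2 (K / G) := Real.logb_nonneg (by norm_num) h1
  have h3 : ((jj K G : ℕ) : ℝ) ≤ Real.logb 2 (K / G) := Nat.floor_le h2
  have h4 : Real.logb 2 (K / G) < (jj K G : ℕ) + 1 := Nat.lt_floor_add_one _
  have e : (2:ℝ) ^ Real.logb 2 (K / G) = K / G := Real.rpow_logb (by norm_num) (by norm_num) h0
  have h5 : (2:ℝ) ^ (jj K G) ≤ K / G := by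
    rw [← e, ← Real.rpow_natCast]
    exact Real.rpow_le_rpow_of_exponent_le (by norm_num) h3
  have h6 : K / G < (2:ℝ) ^ (jj K G) * 2 := by
    have : (2:ℝ) ^ (jj K G) * 2 = 2 ^ ((jj K G : ℕ) + 1 : ℝ) := by
      rw [Real.rpow_add (by norm_num), Real.rpow_natCast, Real.rpow_one]
    rw [this]
    nth_rewrite 1 [← e]
    exact Real.rpow_lt_rpow_of_exponent_lt (by norm_num) h4
  have h7 : (0:ℝ) < 2 ^ (jj K G) := by positivity
  rw [one_div, inv_pow, ← div_eq_mul_inv]
  rw [le_div_iff₀ hG] at h5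
  rw [div_lt_iff₀ hG] at h6
  constructor
  · rw [le_div_iff₀ h7]; linarith
  · rw [div_lt_iff₀ h7]; linarith

lemma jj_small {K G : ℝ} (hG : 0 ≤ G) (hGK : G ≤ K) {J : ℕ} (hJ : J ≤ jj K G) :
    G ≤ K * (1 / 2) ^ J := by
  rcases hG.eq_or_lt with h0 | h0
  · rw [← h0]
    have : 0 ≤ K := by linarith
    positivity
  · have h1 := (jj_spec h0 hGK).1
    have hK : 0 ≤ K := by linarith
    refine h1.trans (mul_le_mul_of_nonneg_left ?_ hK)
    exact pow_le_pow_of_le_one (by norm_num) (by norm_num) hJ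

/-- convexity between the exponents one and two -/
theorem conv_12 (h : SD g a b r C) {σ : ℝ} (ha : a < σ) (hb : σ < b) {A B : ℝ}
    (hA : ∫ y : ℝ, ‖g ((a : ℂ) + (y : ℂ) * I)‖ ≤ A) (hB : ∫ y : ℝ, ‖g ((b : ℂ) + (y : ℂ) * I)‖ ^ 2 ≤ B)
    {θ p : ℝ} (hθ : θ = (σ - a) / (b - a)) (hp : p = 2 / (2 - θ)) :
    ∫ y : ℝ, ‖g ((σ : ℂ) + (y : ℂ) * I)‖ ^ p ≤ 16 * (A ^ (1 - θ) * B ^ (θ / 2)) ^ p := by
  have hr := h.r0
  have hC := h.C0
  have hab : a < b := ha.trans hb
  have hθ0 : 0 < θ := by rw [hθ]; exact div_pos (by linarith) (by linarith)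
  have hθ1 : θ < 1 := by rw [hθ, div_lt_one (by linarith)]; linarith
  have hp1 : 1 < p := by rw [hp, lt_div_iff₀ (by linarith)]; linarith
  have hp2 : p < 2 := by rw [hp, div_lt_iff₀ (by linarith)]; linarith
  have hp0 : 0 < p := by linarith
  have hpθ : p * θ / 2 = p - 1 := by
    rw [hp]
    have : 2 - θ ≠ 0 := by linarith
    field_simp
    ring
  have hpinv : 1 / p = 1 - θ / 2 := by
    rw [hp]
    have : 2 - θ ≠ 0 := by linarith
    field_simp
  -- lines
  have hline : ∀ x : ℝ, a ≤ x → x ≤ b → Continuous fun y : ℝ => g ((x : ℂ) + (y : ℂ) * I) := fun x h1 h2 =>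
    h.line_cont (by simp; linarith) (by simp; linarith)
  have hdec : ∀ x : ℝ, a ≤ x → x ≤ b → ∀ y : ℝ, ‖g ((x : ℂ) + (y : ℂ) * I)‖ ≤ C * (1 / (1 + y ^ 2)) := by
    intro x h1 h2 y
    have := h.dec ((x : ℂ) + (y : ℂ) * I) (by simp; linarith) (by simp; linarith)
    simpa using this
  have hintq : ∀ q : ℝ, 1 ≤ q → ∀ x : ℝ, a ≤ x → x ≤ b → Integrable fun y : ℝ => ‖g ((x : ℂ) + (y : ℂ) * I)‖ ^ q := by
    intro q hq x h1 h2
    have hi : Integrable fun y : ℝ => C ^ q * (1 / (1 + (0 + y) ^ 2)) := (int_shift 0).const_mul _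
    refine hi.mono' (((hline x h1 h2).norm.rpow_const fun _ => Or.inr (by linarith)).aestronglyMeasurable)
      (Eventually.of_forall fun y => ?_)
    rw [Real.norm_eq_abs, abs_of_nonneg (by positivity), zero_add]
    have h3 : 0 ≤ 1 / (1 + y ^ 2) := by positivity
    have h4 : 1 / (1 + y ^ 2) ≤ 1 := by rw [div_le_one (by positivity)]; nlinarith [sq_nonneg y]
    calc ‖g ((x : ℂ) + (y : ℂ) * I)‖ ^ q ≤ (C * (1 / (1 + y ^ 2))) ^ q :=
          Real.rpow_le_rpow (norm_nonneg _) (hdec x h1 h2 y) (by linarith)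
      _ = C ^ q * (1 / (1 + y ^ 2)) ^ q := Real.mul_rpow hC h3
      _ ≤ C ^ q * (1 / (1 + y ^ 2)) := by
          refine mul_le_mul_of_nonneg_left ?_ (by positivity)
          exact Real.rpow_le_self_of_le_one h3 h4 hq
  have hint1 : ∀ x : ℝ, a ≤ x → x ≤ b → Integrable fun y : ℝ => ‖g ((x : ℂ) + (y : ℂ) * I)‖ := by
    intro x h1 h2
    have := hintq 1 le_rfl x h1 h2
    simpa using this
  set G : ℝ → ℝ := fun y => ‖g ((σ : ℂ) + (y : ℂ) * I)‖ with hG
  have hG0 : ∀ y, 0 ≤ G y := fun y => norm_nonneg _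
  have hGc : Continuous G := (hline σ ha.le hb.le).norm
  set K : ℝ := C + 1 with hK
  have hK0 : 0 < K := by rw [hK]; linarith
  have hGK : ∀ y, G y ≤ K := by
    intro y
    have h3 := hdec σ ha.le hb.le y
    have h4 : 1 / (1 + y ^ 2) ≤ 1 := by rw [div_le_one (by positivity)]; nlinarith [sq_nonneg y]
    have h5 : C * (1 / (1 + y ^ 2)) ≤ C := mul_le_of_le_one_right hC h4
    rw [hK]
    exact (h3.trans h5).trans (by linarith)
  set N := ∫ y : ℝ, G y ^ p with hN
  have hN0 : 0 ≤ N := integral_nonneg fun y => Real.rpow_nonneg (hG0 y) _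
  have hA0 : 0 ≤ A := (integral_nonneg fun y => norm_nonneg _).trans hA
  have hB0 : 0 ≤ B := (integral_nonneg fun y => by positivity).trans hB
  set X := A ^ (1 - θ) * B ^ (θ / 2) with hX
  have hX0 : 0 ≤ X := by positivity
  rcases hN0.eq_or_lt with hN1 | hN1
  · rw [← hN1]; positivity
  -- the normalisation
  set ν : ℝ := (2 ^ p * N) ^ (-(1 / 2 : ℝ)) with hν
  have h2pN : 0 < (2:ℝ) ^ p * N := by positivity
  have hν0 : 0 < ν := by positivity
  -- the number of levels
  obtain ⟨J, hJ⟩ : ∃ J : ℕ, (K * (1 / 2) ^ J) ^ (p - 1) * (∫ y, G y) ≤ N / 2 := by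
    have hx1 : ((1 / 2 : ℝ)) ^ (p - 1) < 1 := Real.rpow_lt_one (by norm_num) (by norm_num) (by linarith)
    have hx0 : (0:ℝ) ≤ ((1 / 2 : ℝ)) ^ (p - 1) := by positivity
    have hI0 : 0 ≤ ∫ y, G y := integral_nonneg hG0
    have hδ : 0 < N / 2 / (K ^ (p - 1) * (∫ y, G y) + 1) := by positivity
    obtain ⟨J, hJ⟩ := exists_pow_lt_of_lt_one hδ hx1
    refine ⟨J, ?_⟩
    have e1 : (K * (1 / 2) ^ J) ^ (p - 1) = K ^ (p - 1) * (((1 / 2 : ℝ)) ^ (p - 1)) ^ J := by
      rw [Real.mul_rpow hK0.le (by positivity), ← Real.rpow_natCast, ← Real.rpow_natCast, ← Real.rpow_mul (by norm_num),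
        ← Real.rpow_mul (by norm_num), mul_comm (J:ℝ)]
    rw [e1]
    have h1 : (((1 / 2 : ℝ)) ^ (p - 1)) ^ J * (K ^ (p - 1) * (∫ y, G y) + 1) ≤ N / 2 := by
      rw [← le_div_iff₀ (by positivity)]; exact hJ.le
    have h2 : 0 ≤ (((1 / 2 : ℝ)) ^ (p - 1)) ^ J := pow_nonneg hx0 _
    nlinarith
  -- the dual functions
  set sg : ℝ → ℂ := fun y => (starRingEnd ℂ) (g ((σ : ℂ) + (y : ℂ) * I)) * ((G y)⁻¹ : ℝ) with hsg
  have hsg1 : ∀ y, ‖sg y‖ ≤ 1 := by
    intro y
    rw [hsg]; simp only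
    rw [norm_mul, Complex.norm_conj, Complex.norm_real, Real.norm_eq_abs, abs_of_nonneg (inv_nonneg.mpr (hG0 y))]
    rcases (hG0 y).eq_or_lt with h0 | h0
    · rw [← h0]; norm_num
    · exact (mul_inv_cancel₀ h0.ne').le
  have hsgG : ∀ y : ℝ, g ((σ : ℂ) + (y : ℂ) * I) * sg y = (G y : ℂ) := by
    intro y
    rw [hsg]; simp only
    rw [← mul_assoc, Complex.mul_conj, Complex.normSq_eq_norm_sq, ← Complex.ofReal_mul]
    congr 1
    change (G y) ^ 2 * (G y)⁻¹ = G y
    rcases (hG0 y).eq_or_lt with h0 | h0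
    · rw [← h0]; simp
    · field_simp
  have hsg0 : ∀ y, G y = 0 → sg y = 0 := by
    intro y hy
    rw [hsg]; simp only; rw [hy]; simp
  have hσc := hline σ ha.le hb.le
  have hsgm : Measurable sg :=
    (Complex.continuous_conj.comp hσc).measurable.mul (Complex.measurable_ofReal.comp hGc.measurable.inv)
  have hjm : Measurable fun y => jj K (G y) := by
    unfold jj
    refine Nat.measurable_floor.comp ?_
    unfold Real.logb
    exact (Real.measurable_log.comp (measurable_const.div hGc.measurable)).div_const _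
  set ψ : ℕ → ℝ → ℂ := fun j y => if jj K (G y) = j then sg y else 0 with hψ
  have hψm : ∀ j, AEStronglyMeasurable (ψ j) volume := by
    intro j
    have : Measurable (ψ j) := Measurable.ite (hjm (measurableSet_singleton j)) hsgm measurable_const
    exact this.aestronglyMeasurable
  have hψ1 : ∀ j y, ‖ψ j y‖ ≤ 1 := by
    intro j y
    rw [hψ]; simp only
    split_ifs
    · exact hsg1 y
    · simp
  set cj : ℕ → ℝ := fun j => ν * (K * (1 / 2) ^ j) ^ (p / 2) with hcj
  have hcj0 : ∀ j, 0 < cj j := fun j => by rw [hcj]; simp only; positivity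
  set w : ℂ → ℂ := fun z => (z - a) / (b - a) with hw
  have hwre : ∀ z : ℂ, (w z).re = (z.re - a) / (b - a) := by
    intro z
    rw [hw]; simp only
    have : (z - (a:ℂ)) / ((b:ℂ) - a) = (z - a) / ((b - a : ℝ) : ℂ) := by push_cast; rfl
    rw [this, Complex.div_ofReal_re, Complex.sub_re, Complex.ofReal_re]
  set E : ℕ → ℂ → ℂ := fun j z => cexp (w z * (Real.log (cj j) : ℂ)) with hE
  have hEn : ∀ j z, ‖E j z‖ = (cj j) ^ ((w z).re) := by
    intro j z
    rw [hE]; simp only
    rw [Complex.norm_exp, Complex.re_mul_ofReal, Real.rpow_def_of_pos (hcj0 j), mul_comm]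
  set Φ : ℂ → ℂ := fun z => ∑ j ∈ Finset.range J, E j z * Cv g (ψ j) z with hΦ
  -- the integral representation
  set Ψ : ℂ → ℝ → ℂ := fun z y => if jj K (G y) < J then E (jj K (G y)) z * sg y else 0 with hΨ
  have hΨsum : ∀ z y, ∑ j ∈ Finset.range J, E j z * ψ j y = Ψ z y := by
    intro z y
    rw [hψ, hΨ]; simp only
    have e1 : ∀ j ∈ Finset.range J, E j z * (if jj K (G y) = j then sg y else 0) =
        if jj K (G y) = j then E j z * sg y else 0 := by
      intro j _
      split_ifs <;> simp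
    rw [Finset.sum_congr rfl e1, Finset.sum_ite_eq]
    simp only [Finset.mem_range]
  have hint : ∀ z : ℂ, a - 2 * r < z.re → z.re < b + 2 * r → ∀ j, Integrable (fun y : ℝ => g (z + (y : ℂ) * I) * ψ j y) :=
    fun z h1 h2 j => h.int (hψm j) (hψ1 j) h1 h2
  have hrep : ∀ z : ℂ, a - 2 * r < z.re → z.re < b + 2 * r → Φ z = ∫ y : ℝ, g (z + (y : ℂ) * I) * Ψ z y := by
    intro z h1 h2
    rw [hΦ]; simp only; unfold Cv
    simp_rw [← integral_const_mul]
    rw [← integral_finsetSum _ fun j _ => (hint z h1 h2 j).const_mul _]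
    refine integral_congr_ae (Eventually.of_forall fun y => ?_)
    simp only
    rw [← hΨsum z y, Finset.mul_sum]
    refine Finset.sum_congr rfl fun j _ => ?_
    ring
  have hΦd : ∀ z : ℂ, a - r < z.re → z.re < b + r → DifferentiableAt ℂ Φ z := by
    intro z h1 h2
    rw [hΦ]
    refine DifferentiableAt.fun_sum fun j _ => ?_
    refine DifferentiableAt.mul ?_ (h.hasDeriv (hψm j) (hψ1 j) h1 h2)
    rw [hE, hw]
    fun_prop
  -- left line
  have hleft : ∀ τ : ℝ, ‖Φ ((a : ℂ) + (τ : ℂ) * I)‖ ≤ A := by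
    intro τ
    rw [hrep _ (by simp; linarith) (by simp; linarith)]
    have e0 : ∀ y : ℝ, ((a : ℂ) + (τ : ℂ) * I) + (y : ℂ) * I = (a : ℂ) + ((τ + y : ℝ) : ℂ) * I := by
      intro y; push_cast; ring
    have h4 : ∫ y : ℝ, ‖g ((a : ℂ) + ((τ + y : ℝ) : ℂ) * I)‖ = ∫ y : ℝ, ‖g ((a : ℂ) + (y : ℂ) * I)‖ :=
      integral_add_left_eq_self (fun y : ℝ => ‖g ((a : ℂ) + (y : ℂ) * I)‖) τ
    refine le_trans ?_ hA
    rw [← h4]
    refine norm_integral_le_of_norm_le ((hint1 a le_rfl hab.le).comp_add_left τ) (Eventually.of_forall fun y => ?_)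
    rw [norm_mul, e0]
    refine mul_le_of_le_one_right (norm_nonneg _) ?_
    rw [hΨ]; simp only
    split_ifs
    · rw [norm_mul, hEn, hwre]
      have : ((((a : ℂ) + (τ : ℂ) * I)).re - a) / (b - a) = 0 := by simp
      rw [this, Real.rpow_zero, one_mul]
      exact hsg1 y
    · simp
  -- right line
  have hright : ∀ τ : ℝ, ‖Φ ((b : ℂ) + (τ : ℂ) * I)‖ ≤ B ^ (1 / 2 : ℝ) := by
    intro τ
    rw [hrep _ (by simp; linarith) (by simp; linarith)]
    have e0 : ∀ y : ℝ, ((b : ℂ) + (τ : ℂ) * I) + (y : ℂ) * I = (b : ℂ) + ((τ + y : ℝ) : ℂ) * I := by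
      intro y; push_cast; ring
    have hΨb : ∀ y : ℝ, ‖Ψ ((b : ℂ) + (τ : ℂ) * I) y‖ ≤ ν * (2 * G y) ^ (p / 2) := by
      intro y
      have hnn : 0 ≤ ν * (2 * G y) ^ (p / 2) := mul_nonneg hν0.le (Real.rpow_nonneg (by linarith [hG0 y]) _)
      rw [hΨ]; simp only
      split_ifs
      · rw [norm_mul, hEn, hwre]
        have e1 : ((((b : ℂ) + (τ : ℂ) * I)).re - a) / (b - a) = 1 := by
          simp
          exact sub_ne_zero.mpr hab.ne'
        rw [e1, Real.rpow_one]
        rcases (hG0 y).eq_or_lt with h0 | h0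
        · rw [hsg0 y h0.symm, norm_zero, mul_zero]; exact hnn
        · have h5 := (jj_spec h0 (hGK y)).2
          calc cj (jj K (G y)) * ‖sg y‖ ≤ cj (jj K (G y)) * 1 := mul_le_mul_of_nonneg_left (hsg1 y) (hcj0 _).le
            _ = ν * (K * (1 / 2) ^ (jj K (G y))) ^ (p / 2) := by rw [mul_one]
            _ ≤ _ := by
              refine mul_le_mul_of_nonneg_left (Real.rpow_le_rpow (by positivity) h5.le (by linarith)) hν0.le
      · rw [norm_zero]; exact hnn
    have hm1 : MemLp (fun y : ℝ => ‖g ((b : ℂ) + ((τ + y : ℝ) : ℂ) * I)‖) (ENNReal.ofReal 2) volume := by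
      have hc : Continuous fun y : ℝ => ‖g ((b : ℂ) + ((τ + y : ℝ) : ℂ) * I)‖ :=
        ((hline b hab.le le_rfl).comp (by fun_prop : Continuous fun y : ℝ => τ + y)).norm
      rw [← integrable_norm_rpow_iff hc.aestronglyMeasurable (by simp) ENNReal.ofReal_ne_top]
      rw [ENNReal.toReal_ofReal (by norm_num)]
      simp only [norm_norm]
      exact (hintq 2 (by norm_num) b hab.le le_rfl).comp_add_left τ
    have hm2c : Continuous fun y => ν * (2 * G y) ^ (p / 2) :=
      continuous_const.mul ((continuous_const.mul hGc).rpow_const fun _ => Or.inr (by linarith))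
    have hsqr : ∀ y, (ν * (2 * G y) ^ (p / 2)) ^ (2:ℝ) = ν ^ (2:ℝ) * 2 ^ p * G y ^ p := by
      intro y
      have e5 : ((2 * G y) ^ (p / 2)) ^ (2:ℝ) = (2 * G y) ^ p := by
        rw [← Real.rpow_mul (by linarith [hG0 y])]
        congr 1; ring
      rw [Real.mul_rpow hν0.le (Real.rpow_nonneg (by linarith [hG0 y]) _), e5, Real.mul_rpow (by norm_num) (hG0 y)]
      ring
    have hm2 : MemLp (fun y : ℝ => ν * (2 * G y) ^ (p / 2)) (ENNReal.ofReal 2) volume := by
      rw [← integrable_norm_rpow_iff hm2c.aestronglyMeasurable (by simp) ENNReal.ofReal_ne_top]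
      rw [ENNReal.toReal_ofReal (by norm_num)]
      have e1 : (fun y : ℝ => ‖ν * (2 * G y) ^ (p / 2)‖ ^ (2:ℝ)) = fun y => ν ^ (2:ℝ) * 2 ^ p * G y ^ p := by
        funext y
        rw [Real.norm_eq_abs, abs_of_nonneg (mul_nonneg hν0.le (Real.rpow_nonneg (by linarith [hG0 y]) _)), hsqr]
      rw [e1]
      exact (hintq p hp1.le σ ha.le hb.le).const_mul _
    have h3 := integral_mul_le_Lp_mul_Lq_of_nonneg (Real.HolderConjugate.two_two) (μ := volume)
      (f := fun y : ℝ => ‖g ((b : ℂ) + ((τ + y : ℝ) : ℂ) * I)‖) (g := fun y => ν * (2 * G y) ^ (p / 2))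
      (Eventually.of_forall fun _ => norm_nonneg _)
      (Eventually.of_forall fun y => mul_nonneg hν0.le (Real.rpow_nonneg (by linarith [hG0 y]) _)) hm1 hm2
    have h4 : ∫ y : ℝ, ‖g ((b : ℂ) + ((τ + y : ℝ) : ℂ) * I)‖ ^ (2:ℝ) = ∫ y : ℝ, ‖g ((b : ℂ) + (y : ℂ) * I)‖ ^ (2:ℝ) :=
      integral_add_left_eq_self (fun y : ℝ => ‖g ((b : ℂ) + (y : ℂ) * I)‖ ^ (2:ℝ)) τ
    have h5 : ∫ y : ℝ, (ν * (2 * G y) ^ (p / 2)) ^ (2:ℝ) = 1 := by
      simp_rw [hsqr]
      rw [integral_const_mul, ← hN, hν, ← Real.rpow_mul h2pN.le]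
      have : -(1 / 2 : ℝ) * 2 = -1 := by norm_num
      rw [this, Real.rpow_neg_one, mul_assoc]
      exact inv_mul_cancel₀ h2pN.ne'
    rw [h4, h5, Real.one_rpow, mul_one] at h3
    have h6 : ∫ y : ℝ, ‖g ((b : ℂ) + (y : ℂ) * I)‖ ^ (2:ℝ) ≤ B := by
      refine le_trans (le_of_eq ?_) hB
      refine integral_congr_ae (Eventually.of_forall fun y => ?_)
      simp only
      norm_num
    have hprod : Integrable (fun y : ℝ => ‖g ((b : ℂ) + ((τ + y : ℝ) : ℂ) * I)‖ * (ν * (2 * G y) ^ (p / 2))) := by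
      have e22 : ENNReal.ofReal 2 = 2 := by simp
      rw [e22] at hm1 hm2
      exact hm1.integrable_mul hm2
    refine le_trans ?_ (h3.trans (Real.rpow_le_rpow (integral_nonneg fun y => by positivity) h6 (by norm_num)))
    refine norm_integral_le_of_norm_le hprod (Eventually.of_forall fun y => ?_)
    rw [norm_mul, e0]
    exact mul_le_mul_of_nonneg_left (hΨb y) (norm_nonneg _)
  -- the middle
  have hmid : ν ^ θ * (N / 2) ≤ ‖Φ (σ : ℂ)‖ := by
    rw [hrep _ (by simp; linarith) (by simp; linarith)]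
    set q : ℝ → ℝ := fun y => if jj K (G y) < J then G y * cj (jj K (G y)) ^ θ else 0 with hq
    have hwσ : w σ = (θ : ℂ) := by
      rw [hw, hθ]; simp only; push_cast; rfl
    have e1 : ∀ y : ℝ, g ((σ : ℂ) + (y : ℂ) * I) * Ψ σ y = (q y : ℂ) := by
      intro y
      rw [hΨ, hq]; simp only
      split_ifs
      · have e2 : E (jj K (G y)) σ = ((cj (jj K (G y)) ^ θ : ℝ) : ℂ) := by
          rw [hE]; simp only
          rw [hwσ, Real.rpow_def_of_pos (hcj0 _), Complex.ofReal_exp]
          congr 1; push_cast; ring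
        rw [e2]
        calc g ((σ : ℂ) + (y : ℂ) * I) * (((cj (jj K (G y)) ^ θ : ℝ) : ℂ) * sg y)
            = (g ((σ : ℂ) + (y : ℂ) * I) * sg y) * ((cj (jj K (G y)) ^ θ : ℝ) : ℂ) := by ring
          _ = _ := by rw [hsgG]; push_cast; rfl
      · simp
    simp_rw [e1]
    rw [integral_complex_ofReal, Complex.norm_real, Real.norm_eq_abs]
    refine le_trans ?_ (le_abs_self _)
    have hqi : Integrable q := by
      have h5 : Integrable (fun y : ℝ => g ((σ : ℂ) + (y : ℂ) * I) * Ψ σ y) := by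
        have h6 : (fun y : ℝ => g ((σ : ℂ) + (y : ℂ) * I) * Ψ σ y) =
            fun y : ℝ => ∑ j ∈ Finset.range J, E j σ * (g ((σ : ℂ) + (y : ℂ) * I) * ψ j y) := by
          funext y
          rw [← hΨsum, Finset.mul_sum]
          refine Finset.sum_congr rfl fun j _ => ?_
          ring
        rw [h6]
        exact integrable_finsetSum _ fun j _ => (hint _ (by simp; linarith) (by simp; linarith) j).const_mul _
      have h7 := h5.re
      refine h7.congr (Eventually.of_forall fun y => ?_)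
      simp only
      rw [e1]
      simp
    have hpt : ∀ y, ν ^ θ * G y ^ p ≤ q y + ν ^ θ * ((K * (1 / 2) ^ J) ^ (p - 1) * G y) := by
      intro y
      have hνθ : 0 < ν ^ θ := by positivity
      rcases (hG0 y).eq_or_lt with h0 | h0
      · rw [hq]; simp only; rw [← h0, Real.zero_rpow hp0.ne']
        simp
      · have hGp : G y ^ p = G y ^ (p - 1) * G y := by
          rw [← Real.rpow_add_one h0.ne']; congr 1; ring
        have hrest : 0 ≤ ν ^ θ * ((K * (1 / 2) ^ J) ^ (p - 1) * G y) := by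
          have := hG0 y
          positivity
        rw [hq]; simp only
        split_ifs with hj
        · have h5 := (jj_spec h0 (hGK y)).1
          have h6 : ν ^ θ * G y ^ p ≤ G y * cj (jj K (G y)) ^ θ := by
            rw [hcj]; simp only
            have h7 : ((K * (1 / 2) ^ (jj K (G y))) ^ (p / 2)) ^ θ = (K * (1 / 2) ^ (jj K (G y))) ^ (p - 1) := by
              rw [← Real.rpow_mul (by positivity)]
              congr 1
              rw [← hpθ]; ring
            rw [Real.mul_rpow hν0.le (by positivity), h7, hGp]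
            have h8 : G y ^ (p - 1) ≤ (K * (1 / 2) ^ (jj K (G y))) ^ (p - 1) :=
              Real.rpow_le_rpow h0.le h5 (by linarith)
            calc ν ^ θ * (G y ^ (p - 1) * G y) ≤ ν ^ θ * ((K * (1 / 2) ^ (jj K (G y))) ^ (p - 1) * G y) := by
                  gcongr
              _ = _ := by ring
          linarith
        · have h5 := jj_small h0.le (hGK y) (not_lt.mp hj)
          rw [zero_add, hGp]
          have h8 : G y ^ (p - 1) ≤ (K * (1 / 2) ^ J) ^ (p - 1) :=
              Real.rpow_le_rpow h0.le h5 (by linarith)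
          gcongr
    have hGi : Integrable G := hint1 σ ha.le hb.le
    have hGpi : Integrable (fun y => G y ^ p) := hintq p hp1.le σ ha.le hb.le
    have hRi : Integrable (fun y => ν ^ θ * ((K * (1 / 2) ^ J) ^ (p - 1) * G y)) :=
      (hGi.const_mul _).const_mul _
    have hI : ∫ y, ν ^ θ * G y ^ p ≤ ∫ y, (q y + ν ^ θ * ((K * (1 / 2) ^ J) ^ (p - 1) * G y)) :=
      integral_mono (μ := volume) (hGpi.const_mul (ν ^ θ)) (hqi.add hRi) hpt
    rw [integral_const_mul, integral_add hqi hRi, integral_const_mul, integral_const_mul, ← hN] at hI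
    have hνθ : 0 < ν ^ θ := by positivity
    have h9 := mul_le_mul_of_nonneg_left hJ hνθ.le
    linarith
  -- three lines
  have h3l := Complex.HadamardThreeLines.norm_le_interp_of_mem_verticalClosedStrip' (f := Φ) (z := (σ : ℂ))
    (a := A) (b := B ^ (1 / 2 : ℝ)) (l := a) (u := b) hab
    (by simp [Complex.HadamardThreeLines.verticalClosedStrip, ha.le, hb.le])
    (by
      constructor
      · intro z hz
        simp only [Complex.HadamardThreeLines.verticalStrip, mem_preimage, mem_Ioo] at hz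
        exact (hΦd z (by linarith [hz.1]) (by linarith [hz.2])).differentiableWithinAt
      · have hcl : closure (Complex.HadamardThreeLines.verticalStrip a b) ⊆
            Complex.HadamardThreeLines.verticalClosedStrip a b := by
          refine closure_minimal ?_ (isClosed_Icc.preimage Complex.continuous_re)
          intro z hz
          exact Ioo_subset_Icc_self hz
        intro z hz
        have hz' := hcl hz
        simp only [Complex.HadamardThreeLines.verticalClosedStrip, mem_preimage, mem_Icc] at hz'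
        exact (hΦd z (by linarith [hz'.1]) (by linarith [hz'.2])).continuousAt.continuousWithinAt)
    (by
      -- bounded
      refine ⟨∑ j ∈ Finset.range J, Real.exp |Real.log (cj j)| * (∫ y : ℝ, C * (1 / (1 + (0 + y) ^ 2))), ?_⟩
      rintro _ ⟨z, hz, rfl⟩
      simp only [Complex.HadamardThreeLines.verticalClosedStrip, mem_preimage, mem_Icc] at hz
      simp only [Function.comp]
      rw [hΦ]; simp only
      refine (norm_sum_le _ _).trans (Finset.sum_le_sum fun j _ => ?_)
      rw [norm_mul]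
      refine mul_le_mul ?_ ?_ (norm_nonneg _) (Real.exp_pos _).le
      · rw [hEn, Real.rpow_def_of_pos (hcj0 j)]
        apply Real.exp_le_exp.mpr
        have h1 : 0 ≤ (w z).re := by rw [hwre]; exact div_nonneg (by linarith [hz.1]) (by linarith)
        have h2 : (w z).re ≤ 1 := by rw [hwre, div_le_one (by linarith)]; linarith [hz.2]
        calc Real.log (cj j) * (w z).re ≤ |Real.log (cj j)| * (w z).re :=
              mul_le_mul_of_nonneg_right (le_abs_self _) h1
          _ ≤ |Real.log (cj j)| * 1 := mul_le_mul_of_nonneg_left h2 (abs_nonneg _)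
          _ = _ := mul_one _
      · unfold Cv
        have hi : Integrable fun y : ℝ => C * (1 / (1 + (z.im + y) ^ 2)) := (int_shift z.im).const_mul C
        refine (norm_integral_le_of_norm_le hi (Eventually.of_forall fun y => ?_)).trans (le_of_eq ?_)
        · rw [norm_mul]
          have h3 := h.dec (z + (y : ℂ) * I) (by simp; linarith [hz.1]) (by simp; linarith [hz.2])
          have e : (z + (y : ℂ) * I).im = z.im + y := by simp
          rw [e] at h3
          exact (mul_le_of_le_one_right (norm_nonneg _) (hψ1 j y)).trans h3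
        · have e1 := integral_add_left_eq_self (fun y : ℝ => C * (1 / (1 + y ^ 2))) z.im (μ := volume)
          have e2 := integral_add_left_eq_self (fun y : ℝ => C * (1 / (1 + y ^ 2))) 0 (μ := volume)
          rw [e1, ← e2])
    (by
      intro z hz
      simp only [mem_preimage, mem_singleton_iff] at hz
      have h4 := hleft z.im
      have e : (a : ℂ) + (z.im : ℂ) * I = z := by rw [← hz]; exact Complex.re_add_im z
      rwa [e] at h4)
    (by
      intro z hz
      simp only [mem_preimage, mem_singleton_iff] at hz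
      have h4 := hright z.im
      have e : (b : ℂ) + (z.im : ℂ) * I = z := by rw [← hz]; exact Complex.re_add_im z
      rwa [e] at h4)
  rw [Complex.ofReal_re, ← hθ, ← Real.rpow_mul hB0] at h3l
  have e4 : (1 / 2 : ℝ) * θ = θ / 2 := by ring
  rw [e4, ← hX] at h3l
  have hfin := hmid.trans h3l
  -- algebra
  have hNp : N ^ (1 / p) ≤ 2 ^ p * X := by
    have h1 : ν ^ θ = 2 ^ (-(p - 1)) * N ^ (-(θ / 2)) := by
      rw [hν, ← Real.rpow_mul h2pN.le, Real.mul_rpow (by positivity) hN0, ← Real.rpow_mul (by norm_num)]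
      congr 2
      · rw [← hpθ]; ring
      · ring
    rw [h1] at hfin
    have h2 : N ^ (1 / p) = N ^ (-(θ / 2)) * N := by
      nth_rewrite 3 [← Real.rpow_one N]
      rw [← Real.rpow_add hN1]
      congr 1
      rw [hpinv]; ring
    have h3 : (2:ℝ) ^ p = 2 * 2 ^ (p - 1) := by
      nth_rewrite 2 [← Real.rpow_one (2:ℝ)]
      rw [← Real.rpow_add (by norm_num)]
      congr 1; ring
    have h4 : (2:ℝ) ^ (-(p - 1)) * 2 ^ (p - 1) = 1 := by
      rw [← Real.rpow_add (by norm_num)]; simp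
    rw [h2, h3]
    have h5 : (0:ℝ) < 2 ^ (p - 1) := by positivity
    calc N ^ (-(θ / 2)) * N = 2 * 2 ^ (p - 1) * (2 ^ (-(p - 1)) * N ^ (-(θ / 2)) * (N / 2)) := by
          have : 2 * 2 ^ (p - 1) * (2 ^ (-(p - 1)) * N ^ (-(θ / 2)) * (N / 2)) =
            ((2:ℝ) ^ (-(p - 1)) * 2 ^ (p - 1)) * (N ^ (-(θ / 2)) * N) := by ring
          rw [this, h4, one_mul]
      _ ≤ _ := by gcongr
  have h6 : N = (N ^ (1 / p)) ^ p := by
    rw [← Real.rpow_mul hN0]
    have : 1 / p * p = 1 := by field_simp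
    rw [this, Real.rpow_one]
  rw [h6]
  calc (N ^ (1 / p)) ^ p ≤ (2 ^ p * X) ^ p := Real.rpow_le_rpow (by positivity) hNp hp0.le
    _ = 2 ^ (p * p) * X ^ p := by
        rw [Real.mul_rpow (by positivity) hX0, ← Real.rpow_mul (by norm_num)]
    _ ≤ 16 * X ^ p := by
        refine mul_le_mul_of_nonneg_right ?_ (Real.rpow_nonneg hX0 _)
        calc (2:ℝ) ^ (p * p) ≤ 2 ^ (4:ℝ) := Real.rpow_le_rpow_of_exponent_le (by norm_num) (by nlinarith)
          _ = 16 := by norm_num

end

end Pool.Agent.Zk6
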