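import Pool.Agent.Zk6.H6
import Pool.Agent.Zk6.H8
import Pool.Agent.Zk6.H10

set_option autoImplicit false

/-!
The number of zeros in a short window, with the exponent from the second moment to the right of one.
-/

namespace Pool.Agent.Zk6

open Finset Filter MeasureTheory Complex Metric
open Pool.Agent.H448R2.GC (cu fs cu_nonneg cu_le_one cu_one cu_zero)
open Pool.Agent.Y24 (gg norm_gg norm_FF_le right_pt gg_SD exp_rpow SD conv_lp)

noncomputable section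

/-- the line bound at `σ` -/
theorem line_sig {b : ℝ} (hb : 1 < b) {h1 : ℝ} (hlo : 27 / 82 < h1) (hhi : h1 < 1 / 2) {θ1 ηm : ℝ} (hθ : 0 ≤ θ1)
    (hηm : 0 < ηm) (h3 : θ1 + ηm < 1) : ∃ C : ℝ, 0 < C ∧ ∀ᶠ T : ℝ in atTop, ∀ V H : ℝ, T ≤ V → V ≤ 2 * T →
    T ^ h1 ≤ H → H ≤ T / (4 * Real.log T) → ∀ σ : ℝ, 1 / 2 < σ → σ ≤ 1 → ∀ θ p : ℝ, θ = (σ - 1 / 2) / (b - 1 / 2) →
    p = 2 / (2 - θ) → ∀ x : ℝ, σ ≤ x → x ≤ 6 →
    ∫ y : ℝ, ‖gg 8 (ηm * Real.log H / 8) (θ1 * Real.log H) V H ((x : ℂ) + (y : ℂ) * I)‖ ^ p ≤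
      (C * H * Real.exp (-((p - 1) * (θ1 * Real.log H)))) * Real.exp (-(θ1 * Real.log H / 2 * (x - σ))) := by
  obtain ⟨C1, hC1, hl⟩ := left1 hlo hhi hθ hηm h3
  obtain ⟨C2, hC2, h2⟩ := right2 hb
  obtain ⟨C3, hC3, h3r⟩ := right_p (A := 6) (by norm_num)
  set M := max C1 C2 with hM
  have hM0 : 0 < M := lt_max_of_lt_left hC1
  refine ⟨max (16 * M) C3, lt_max_of_lt_right hC3, ?_⟩
  have hθ11 : θ1 < 1 := by linarith
  filter_upwards [hl, (tendsto_rpow_atTop (show 0 < h1 by linarith)).eventually_ge_atTop (max b 6),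
    (tendsto_rpow_atTop (show 0 < h1 * (1 - θ1) by apply mul_pos <;> linarith)).eventually_ge_atTop 2,
    eventually_ge_atTop 2] with T hl hTb hT1θ hT2 V H hV1 hV2 hH1 hH2 σ hσ1 hσ2 θ p hθ' hp x hx1 hx2
  have hT0 : 0 < T := by linarith
  have hbH : b ≤ H := (le_max_left _ _).trans (hTb.trans hH1)
  have h6H : 6 ≤ H := (le_max_right _ _).trans (hTb.trans hH1)
  have hHpos : 0 < H := by linarith
  have hlogH : 0 < Real.log H := Real.log_pos (by linarith)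
  set c : ℝ := ηm * Real.log H / 8 with hc
  have hc0 : 0 < c := by positivity
  set D : ℝ := θ1 * Real.log H with hD
  have hD0 : 0 ≤ D := by positivity
  have hDH : 2 * Real.exp D ≤ H := by
    have h4 : Real.exp D = H ^ θ1 := by rw [Real.rpow_def_of_pos hHpos, hD]; congr 1; ring
    have h5 : (2:ℝ) ≤ H ^ (1 - θ1) := by
      calc (2:ℝ) ≤ T ^ (h1 * (1 - θ1)) := hT1θ
        _ = (T ^ h1) ^ (1 - θ1) := Real.rpow_mul hT0.le _ _
        _ ≤ _ := Real.rpow_le_rpow (by positivity) hH1 (by linarith)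
    rw [h4]
    calc 2 * H ^ θ1 ≤ H ^ (1 - θ1) * H ^ θ1 := by gcongr
      _ = H := by rw [← Real.rpow_add hHpos]; simp
  have hθ0 : 0 < θ := by rw [hθ']; exact div_pos (by linarith) (by linarith)
  have hθ1' : θ < 1 := by rw [hθ', div_lt_one (by linarith)]; linarith
  have hp1 : 1 < p := by rw [hp, lt_div_iff₀ (by linarith)]; linarith
  have hp2 : p < 2 := by rw [hp, div_lt_iff₀ (by linarith)]; linarith
  have hpθ : p * θ / 2 = p - 1 := by
    rw [hp]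
    have : 2 - θ ≠ 0 := by linarith
    field_simp
    ring
  have hpθ2 : p * (1 - θ / 2) = 1 := by
    have : p * (1 - θ / 2) = p - p * θ / 2 := by ring
    rw [this, hpθ]; ring
  have l1 := hl V H hV1 hV2 hH1 hH2
  have l2 := h2 8 c D V H hc0 hD0 hbH hDH
  have l3 := h3r p hp1.le hp2.le 8 c D V H hc0 hD0 h6H
  obtain ⟨K, hK⟩ := gg_SD (k := 8) (c := c) (D := D) (T := V) (H := H) (A := 6 + b) hc0 hD0 (by linarith) hHpos
  have hK1 : SD (gg 8 c D V H) (1 / 2) b (1 / 4) K :=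
    ⟨hK.r0, hK.r1, hK.C0, fun z h1 h2 => hK.df z h1 (by linarith), fun z h1 h2 => hK.dec z h1 (by linarith)⟩
  have hK2 : SD (gg 8 c D V H) σ 6 (1 / 4) K :=
    ⟨hK.r0, hK.r1, hK.C0, fun z h1 h2 => hK.df z (by linarith) (by linarith),
      fun z h1 h2 => hK.dec z (by linarith) (by linarith)⟩
  have hMH : 0 < M * H := by positivity
  have l1' : ∫ y : ℝ, ‖gg 8 c D V H (((1 / 2 : ℝ) : ℂ) + (y : ℂ) * I)‖ ≤ M * H :=
    l1.trans (by gcongr; exact le_max_left _ _)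
  have l2' : ∫ y : ℝ, ‖gg 8 c D V H ((b : ℂ) + (y : ℂ) * I)‖ ^ 2 ≤ M * H * Real.exp (-D) :=
    l2.trans (by gcongr; exact le_max_right _ _)
  have l4 := conv_12 hK1 hσ1 (by linarith) l1' l2' hθ' hp
  set E := Real.exp (-((p - 1) * D)) with hE
  have hE0 : 0 < E := Real.exp_pos _
  have e1 : ((M * H) ^ (1 - θ) * (M * H * Real.exp (-D)) ^ (θ / 2)) ^ p = M * H * E := by
    rw [Real.mul_rpow hMH.le (Real.exp_pos _).le, ← mul_assoc, ← Real.rpow_add hMH,
      Real.mul_rpow (by positivity) (by positivity), ← Real.rpow_mul hMH.le]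
    have e2 : (1 - θ + θ / 2) * p = 1 := by linear_combination hpθ2
    rw [e2, Real.rpow_one, exp_rpow, exp_rpow, hE]
    congr 2
    rw [← hpθ]; ring
  rw [e1] at l4
  set M' := max (16 * M) C3 with hM'
  have hM'0 : 0 < M' := lt_max_of_lt_right hC3
  have hM'H : 0 < M' * H := by positivity
  have l5 : ∫ y : ℝ, ‖gg 8 c D V H ((σ : ℂ) + (y : ℂ) * I)‖ ^ p ≤ M' * H * E := by
    refine l4.trans ?_
    have : 16 * (M * H * E) = 16 * M * H * E := by ring
    rw [this]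
    gcongr
    exact le_max_left _ _
  have l6 : ∫ y : ℝ, ‖gg 8 c D V H (((6:ℝ) : ℂ) + (y : ℂ) * I)‖ ^ p ≤ M' * H * Real.exp (-(p * ((6 - 2) * D))) :=
    l3.trans (by gcongr; exact le_max_right _ _)
  have key := conv_lp hK2 (p := p) hp1 (σ := x) (by linarith) hx1 hx2 l5 l6
  refine key.trans ?_
  set t := (x - σ) / (6 - σ) with ht
  have ht0 : 0 ≤ t := div_nonneg (by linarith) (by linarith)
  rw [Real.mul_rpow hM'H.le hE0.le, Real.mul_rpow hM'H.le (Real.exp_pos _).le]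
  have e3 : (M' * H) ^ (1 - t) * E ^ (1 - t) * ((M' * H) ^ t * Real.exp (-(p * ((6 - 2) * D))) ^ t) =
      (M' * H) * (E ^ (1 - t) * Real.exp (-(p * ((6 - 2) * D))) ^ t) := by
    have : (M' * H) ^ (1 - t) * (M' * H) ^ t = M' * H := by
      rw [← Real.rpow_add hM'H]; simp
    calc _ = ((M' * H) ^ (1 - t) * (M' * H) ^ t) * (E ^ (1 - t) * Real.exp (-(p * ((6 - 2) * D))) ^ t) := by ring
      _ = _ := by rw [this]
  rw [e3, mul_assoc (M' * H)]
  refine mul_le_mul_of_nonneg_left ?_ hM'H.le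
  rw [hE, exp_rpow, exp_rpow, ← Real.exp_add, ← Real.exp_add]
  apply Real.exp_le_exp.mpr
  have h5 : 2 / 11 * (x - σ) ≤ t := by
    rw [ht, le_div_iff₀ (by linarith)]
    nlinarith
  have h6 : (1 - t) * -((p - 1) * D) + t * -(p * ((6 - 2) * D)) = -((p - 1) * D) - t * ((3 * p + 1) * D) := by ring
  rw [h6]
  have h7 : D / 2 * (x - σ) ≤ t * ((3 * p + 1) * D) := by
    have h8 : 4 * D ≤ (3 * p + 1) * D := mul_le_mul_of_nonneg_right (by linarith) hD0
    have h9 : 2 / 11 * (x - σ) * (4 * D) ≤ t * ((3 * p + 1) * D) :=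
      mul_le_mul h5 h8 (by positivity) ht0
    have h10 : D / 2 * (x - σ) ≤ 2 / 11 * (x - σ) * (4 * D) := by
      have : 0 ≤ (x - σ) * D := mul_nonneg (by linarith) hD0
      nlinarith
    linarith
  linarith

/-- zeros in a short window -/
theorem window2 {q0 : ℝ} (hq0 : 1 / 2 ≤ q0) (hq1 : q0 < 1) {h1 : ℝ} (hlo : 27 / 82 < h1) (hhi : h1 < 1 / 2) :
    ∃ C : ℝ, 0 < C ∧ ∀ᶠ T : ℝ in atTop, ∀ V H : ℝ, T ≤ V → V ≤ 2 * T → T ^ h1 ≤ H → H ≤ T / (4 * Real.log T) →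
    ∀ σ : ℝ, 1 / 2 ≤ σ → σ ≤ 1 → ∀ S : Finset ℂ,
    (∀ ρ ∈ S, σ + 1 / Real.log T ≤ ρ.re ∧ ρ.re ≤ 1 ∧ |ρ.im - V| ≤ H / 2) →
    ∑ ρ ∈ S, (analyticOrderNatAt riemannZeta ρ : ℝ) ≤
      C * H * Real.log T * Real.exp (-(q0 * ((2 * σ - 1) / (3 - 2 * σ)) * Real.log H)) := by
  set θ1 : ℝ := (1 + q0) / 2 with hθ1
  set ηm : ℝ := (1 - q0) / 4 with hηm
  set b : ℝ := 1 + (1 - q0) / 8 with hb
  have hb1 : 1 < b := by rw [hb]; linarith
  have hηm0 : 0 < ηm := by rw [hηm]; linarith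
  have hθm : θ1 + ηm < 1 := by rw [hθ1, hηm]; linarith
  have hθ34 : 3 / 4 ≤ θ1 := by rw [hθ1]; linarith
  have hθlt : θ1 < 1 := by rw [hθ1]; linarith
  obtain ⟨Ca, hCa, hwa⟩ := window1 hq0 hq1 hlo hhi
  obtain ⟨C, hC, hline⟩ := line_sig hb1 hlo hhi (θ1 := θ1) (ηm := ηm) (by linarith) hηm0 hθm
  obtain ⟨C1, hC1, hright⟩ := right_pt
  set K := 2 * (2 * Real.exp 4) ^ (2:ℝ) with hK
  have hK0 : 0 < K := by positivity
  refine ⟨max Ca (7 / 2 * (4 * K * C + 4 * C1 ^ 2)), lt_max_of_lt_left hCa, ?_⟩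
  filter_upwards [hwa, hline, Real.tendsto_log_atTop.eventually_ge_atTop (16 + 6 * C1 ^ 2 : ℝ),
    (tendsto_rpow_atTop (show 0 < h1 by linarith)).eventually_ge_atTop 4, eventually_ge_atTop 2] with T hwa hline hL16 hT4 hT2
    V H hV1 hV2 hH1 hH2 σ hσ1 hσ2 S hS
  set L := Real.log T with hLdef
  have hL16' : 16 ≤ L := by nlinarith [sq_nonneg C1]
  have hL0 : 0 < L := by linarith
  have hT0 : 0 < T := by linarith
  have hH4 : 4 ≤ H := hT4.trans hH1
  have hH0 : 0 < H := by linarith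
  rcases hσ1.eq_or_lt with hσe | hσ1'
  · -- the line itself
    have h2 := hwa V H hV1 hV2 hH1 hH2 σ hσ1 hσ2 S hS
    refine h2.trans ?_
    rw [← hσe]
    have e1 : q0 * (1 / 2 - 1 / 2) * Real.log H = 0 := by ring
    have e2 : q0 * ((2 * (1 / 2) - 1) / (3 - 2 * (1 / 2))) * Real.log H = 0 := by norm_num
    rw [e1, e2]
    gcongr
    exact le_max_left _ _
  have hHT : H ≤ T / 64 := hH2.trans (div_le_div_of_nonneg_left hT0.le (by norm_num) (by linarith))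
  have hH5 : H + 5 ≤ V := by linarith
  set l := Real.log H with hl
  have hlL : L * (27 / 82) ≤ l := by
    have h2 : h1 * L ≤ l := by
      rw [hLdef, ← Real.log_rpow hT0]
      exact Real.log_le_log (by positivity) hH1
    nlinarith
  have hl0 : 0 < l := by linarith
  set D := θ1 * l with hD
  have hD0 : 0 ≤ D := by positivity
  have hDL : L * (6 / 25) ≤ D := by
    have : 3 / 4 * l ≤ θ1 * l := by gcongr
    linarith
  set c' : ℝ := ηm * l / 8 with hc'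
  have hc'0 : 0 < c' := by positivity
  set θ : ℝ := (σ - 1 / 2) / (b - 1 / 2) with hθ
  set p : ℝ := 2 / (2 - θ) with hp
  have hθ0 : 0 < θ := by rw [hθ]; exact div_pos (by linarith) (by linarith)
  have hθ1' : θ < 1 := by rw [hθ, div_lt_one (by linarith)]; linarith
  have hp1 : 1 < p := by rw [hp, lt_div_iff₀ (by linarith)]; linarith
  have hp2 : p < 2 := by rw [hp, div_lt_iff₀ (by linarith)]; linarith
  set E := Real.exp (-((p - 1) * D)) with hE
  have hE0 : 0 < E := Real.exp_pos _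
  have hsqL : 0 < Real.sqrt L := Real.sqrt_pos.mpr hL0
  have hsq1 : 1 ≤ Real.sqrt L := Real.one_le_sqrt.mpr (by linarith)
  -- smallness of the terms at the centre
  have hexpD : Real.exp (-D) ≤ 1 / Real.sqrt L := by
    rw [le_div_iff₀ hsqL, Real.exp_neg, inv_mul_le_iff₀ (Real.exp_pos _), mul_one]
    have h1 := Real.add_one_le_exp D
    have h2 : Real.sqrt L * Real.sqrt L = L := Real.mul_self_sqrt hL0.le
    have h4 : 4 ≤ Real.sqrt L := by
      rw [show (4:ℝ) = Real.sqrt (4 ^ 2) by rw [Real.sqrt_sq (by norm_num)]]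
      exact Real.sqrt_le_sqrt (by linarith)
    nlinarith [mul_nonneg (sub_nonneg.mpr h4) (sub_nonneg.mpr h4)]
  have hcen : (C1 * Real.exp (-D)) ^ 2 ≤ C1 ^ 2 * (E * (1 / Real.sqrt L)) := by
    rw [mul_pow]
    have h1 : Real.exp (-D) ^ 2 = Real.exp (-D) * Real.exp (-D) := sq _
    rw [h1]
    have h2 : Real.exp (-D) ≤ E := by
      apply Real.exp_le_exp.mpr
      nlinarith
    gcongr
  have hsmall : (C1 * Real.exp (-D)) ^ 2 ≤ 1 / 2 := by
    have h1 : Real.exp (-D) ^ 2 ≤ 3 / L := by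
      rw [← Real.exp_nat_mul, le_div_iff₀ hL0]
      have h2 : ((2:ℕ):ℝ) * -D = -(2 * D) := by push_cast; ring
      rw [h2, Real.exp_neg, inv_mul_le_iff₀ (Real.exp_pos _)]
      have h4 := Real.add_one_le_exp (2 * D)
      linarith
    rw [mul_pow]
    calc C1 ^ 2 * Real.exp (-D) ^ 2 ≤ C1 ^ 2 * (3 / L) := by gcongr
      _ ≤ 1 / 2 := by
        rw [← mul_div_assoc, div_le_iff₀ hL0]
        linarith
  have hcount := count_p (p := p) hp1.le hp2.le (k := 8) (c' := c') (D := D) (V := V) (H := H) (C1 := C1)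
    (K1 := C * H * E) (μ := D / 2) (σ := σ) (L := L) hc'0 hD0 (fun s hs => hright 8 c' D hc'0 hD0 s hs) hsmall hH4 hH5
    (by linarith) hσ1 hσ2 (by linarith) (by positivity)
    (fun x hx1 hx2 => hline V H hV1 hV2 hH1 hH2 σ hσ1' hσ2 θ p hθ hp x hx1 hx2) S hS
  have hsqr : Real.sqrt (Real.pi / (D / 2 * (3 - σ))) ≤ 4 / Real.sqrt L := by
    have h1 : Real.pi / (D / 2 * (3 - σ)) ≤ 4 ^ 2 / L := by
      rw [div_le_div_iff₀ (mul_pos (by linarith) (by linarith)) hL0]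
      have h2 : L * (3 / 25) * 2 ≤ D / 2 * (3 - σ) := mul_le_mul (by linarith) (by linarith) (by norm_num) (by linarith)
      nlinarith [Real.pi_lt_d2]
    calc Real.sqrt (Real.pi / (D / 2 * (3 - σ))) ≤ Real.sqrt (4 ^ 2 / L) := Real.sqrt_le_sqrt h1
      _ = _ := by rw [Real.sqrt_div (by positivity), Real.sqrt_sq (by norm_num)]
  have hKp : 2 * (2 * Real.exp 4) ^ p ≤ K := by
    rw [hK]
    have h1 : (1:ℝ) ≤ 2 * Real.exp 4 := by
      have := Real.add_one_le_exp (4:ℝ)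
      linarith
    exact mul_le_mul_of_nonneg_left (Real.rpow_le_rpow_of_exponent_le h1 hp2.le) (by norm_num)
  have hrhs : 2 * (2 * Real.exp 4) ^ p * (C * H * E * Real.sqrt (Real.pi / (D / 2 * (3 - σ)))) +
      4 * H * (C1 * Real.exp (-D)) ^ 2 ≤ H * E / Real.sqrt L * (4 * K * C + 4 * C1 ^ 2) := by
    calc 2 * (2 * Real.exp 4) ^ p * (C * H * E * Real.sqrt (Real.pi / (D / 2 * (3 - σ)))) +
        4 * H * (C1 * Real.exp (-D)) ^ 2 ≤ K * (C * H * E * (4 / Real.sqrt L)) + 4 * H * (C1 ^ 2 * (E * (1 / Real.sqrt L))) := by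
          gcongr
      _ = _ := by field_simp
  have hfin := hcount.trans hrhs
  have hN : ∑ ρ ∈ S, (analyticOrderNatAt riemannZeta ρ : ℝ) ≤ 7 / 2 * (4 * K * C + 4 * C1 ^ 2) * H * L * E := by
    have h4 : 0 < 2 / (7 * (L * Real.sqrt L)) := by positivity
    rw [← le_div_iff₀ h4] at hfin
    refine hfin.trans (le_of_eq ?_)
    field_simp
  refine hN.trans ?_
  have hE2 : E ≤ Real.exp (-(q0 * ((2 * σ - 1) / (3 - 2 * σ)) * l)) := by
    apply Real.exp_le_exp.mpr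
    apply neg_le_neg
    rw [hD, ← mul_assoc]
    refine mul_le_mul_of_nonneg_right ?_ hl0.le
    -- `p - 1 = θ / (2 - θ)`
    have e1 : p - 1 = (2 * σ - 1) / (4 * b - 1 - 2 * σ) := by
      have hb' : b - 1 / 2 ≠ 0 := by linarith
      have h5 : 0 < 2 * (b - 1 / 2) - (σ - 1 / 2) := by linarith
      have e0 : 2 - θ = (2 * (b - 1 / 2) - (σ - 1 / 2)) / (b - 1 / 2) := by
        rw [hθ, eq_div_iff hb', sub_mul, div_mul_cancel₀ _ hb']
      rw [hp, e0, div_div_eq_mul_div, div_sub_one h5.ne', div_eq_div_iff h5.ne' (by linarith)]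
      ring
    rw [e1, div_mul_eq_mul_div, mul_comm q0, div_mul_eq_mul_div, div_le_div_iff₀ (by linarith) (by linarith)]
    have h7 : 0 ≤ 2 * σ - 1 := by linarith
    have h8 : q0 * (4 * b - 1 - 2 * σ) ≤ θ1 * (3 - 2 * σ) := by
      rw [hb, hθ1]
      nlinarith
    calc (2 * σ - 1) * q0 * (4 * b - 1 - 2 * σ) = (2 * σ - 1) * (q0 * (4 * b - 1 - 2 * σ)) := by ring
      _ ≤ (2 * σ - 1) * (θ1 * (3 - 2 * σ)) := mul_le_mul_of_nonneg_left h8 h7
      _ = _ := by ring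
  have hmax : 7 / 2 * (4 * K * C + 4 * C1 ^ 2) ≤ max Ca (7 / 2 * (4 * K * C + 4 * C1 ^ 2)) := le_max_right _ _
  gcongr

end

end Pool.Agent.Zk6
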