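import Pool.Agent.Zk6.H7
import Pool.Agent.Zk6.H11

set_option autoImplicit false

/-!
The density theorem in short intervals.
-/

namespace Pool.Agent.Zk6

open Finset Filter MeasureTheory Complex Metric

noncomputable section

lemma phi_props : (fun σ : ℝ => (2 * σ - 1) / (3 - 2 * σ)) (1 / 2) = 0 ∧
    (∀ x y : ℝ, 1 / 2 ≤ x → x ≤ y → y ≤ 1 →
      (fun σ : ℝ => (2 * σ - 1) / (3 - 2 * σ)) x ≤ (fun σ : ℝ => (2 * σ - 1) / (3 - 2 * σ)) y ∧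
      (fun σ : ℝ => (2 * σ - 1) / (3 - 2 * σ)) y ≤ (fun σ : ℝ => (2 * σ - 1) / (3 - 2 * σ)) x + 4 * (y - x)) ∧
    (fun σ : ℝ => (2 * σ - 1) / (3 - 2 * σ)) 1 ≤ 1 := by
  refine ⟨by norm_num, fun x y hx hxy hy => ?_, by norm_num⟩
  simp only
  have h1 : 1 ≤ 3 - 2 * y := by linarith
  have h2 : 1 ≤ 3 - 2 * x := by linarith
  have h3 : 0 < 3 - 2 * y := by linarith
  have h4 : 0 < 3 - 2 * x := by linarith
  have e : (2 * y - 1) / (3 - 2 * y) - (2 * x - 1) / (3 - 2 * x) = 4 * (y - x) / ((3 - 2 * y) * (3 - 2 * x)) := by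
    rw [div_sub_div _ _ h3.ne' h4.ne']
    congr 1
    ring
  have h5 : 1 ≤ (3 - 2 * y) * (3 - 2 * x) := one_le_mul_of_one_le_of_one_le h1 h2
  have h6 : 0 ≤ 4 * (y - x) := by linarith
  have h7 : 0 ≤ 4 * (y - x) / ((3 - 2 * y) * (3 - 2 * x)) := by positivity
  have h8 : 4 * (y - x) / ((3 - 2 * y) * (3 - 2 * x)) ≤ 4 * (y - x) := div_le_self h6 h5
  constructor <;> linarith

theorem short_density : ∀ ε : ℝ, 0 < ε → ∃ C : ℝ, 0 < C ∧ ∀ T H σ : ℝ, 2 ≤ T → T ^ (27 / 82 + ε) ≤ H → H ≤ T →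
    1 / 2 ≤ σ → σ ≤ 1 →
    ∀ S : Finset ℂ, (∀ ρ ∈ S, riemannZeta ρ = 0 ∧ σ ≤ ρ.re ∧ T < ρ.im ∧ ρ.im ≤ T + H) →
      ∑ ρ ∈ S, (analyticOrderNatAt riemannZeta ρ : ℝ) ≤
        C * H ^ (4 * (1 - σ) / (3 - 2 * σ) + ε * (2 * σ - 1)) * Real.log T := by
  intro ε hε
  obtain ⟨C, hC, h⟩ := assemble phi_props.1 phi_props.2.1 phi_props.2.2
    (fun q0 h1 h2 h1' h3 h4 => window2 h1 h2 h3 h4) ε hε
  refine ⟨C, hC, fun T H σ hT hH hHT hσ1 hσ2 S hS => (h T H σ hT hH hHT hσ1 hσ2 S hS).trans ?_⟩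
  have hHge : 1 ≤ H := (Real.one_le_rpow (by linarith) (by linarith)).trans hH
  have hlT : 0 ≤ Real.log T := Real.log_nonneg (by linarith)
  have h3 : 0 < 3 - 2 * σ := by linarith
  have hexp : 1 - (1 - ε) * ((2 * σ - 1) / (3 - 2 * σ)) ≤ 4 * (1 - σ) / (3 - 2 * σ) + ε * (2 * σ - 1) := by
    have e1 : 1 - (1 - ε) * ((2 * σ - 1) / (3 - 2 * σ)) =
        4 * (1 - σ) / (3 - 2 * σ) + ε * ((2 * σ - 1) / (3 - 2 * σ)) := by
      field_simp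
      ring
    rw [e1]
    have h4 : (2 * σ - 1) / (3 - 2 * σ) ≤ 2 * σ - 1 := div_le_self (by linarith) (by linarith)
    have := mul_le_mul_of_nonneg_left h4 hε.le
    linarith
  have hpow := Real.rpow_le_rpow_of_exponent_le hHge hexp
  exact mul_le_mul_of_nonneg_right (mul_le_mul_of_nonneg_left hpow hC.le) hlT

end

end Pool.Agent.Zk6
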