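import Pool.Agent.Y24.D4
import Pool.Agent.Zk6.E2
import Pool.Agent.Zk6.H1

set_option autoImplicit false

/-!
The first moment on the critical line against a Gaussian.
-/

namespace Pool.Agent.Zk6

open Finset Filter MeasureTheory Complex
open Pool.Agent.H306R2.SM (om cl Yf)
open Pool.Agent.H448R2.GC (cu fs cu_nonneg cu_le_one)
open Pool.Agent.Y24 (gg norm_gg norm_FF_le Z1 Z1_ne Z1_growth right_pt one_add_abs_le gg_SD)

noncomputable section

lemma gx_int {b : ℝ} (hb : 0 < b) (T : ℝ) {H : ℝ} (hH : 0 < H) :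
    Integrable (fun y : ℝ => Real.exp (-b * ((y - T) / H) ^ 2)) := by
  have h1 := ((integrable_exp_neg_mul_sq hb).comp_div hH.ne').comp_sub_right T
  exact h1

lemma gx_val {b : ℝ} (T : ℝ) {H : ℝ} (hH : 0 < H) :
    ∫ y : ℝ, Real.exp (-b * ((y - T) / H) ^ 2) = H * Real.sqrt (Real.pi / b) := by
  have h1 := integral_sub_right_eq_self (μ := (volume : Measure ℝ)) (fun y : ℝ => Real.exp (-b * (y / H) ^ 2)) T
  rw [h1]
  have h2 := Measure.integral_comp_div (fun y : ℝ => Real.exp (-b * y ^ 2)) H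
  rw [h2, integral_gaussian, abs_of_pos hH, smul_eq_mul]

lemma win_sum {f : ℝ → ℝ} (hf : Continuous f) (hf0 : ∀ t, 0 ≤ f t) {V H S : ℝ} (hH : 0 < H) (hS : 0 ≤ S) (n : ℕ)
    (hr : ∀ j : ℕ, j < n → ∫ t in (V + j * H)..(V + (j + 1) * H), f t ≤ S)
    (hl : ∀ j : ℕ, j < n → ∫ t in (V - (j + 1) * H)..(V - j * H), f t ≤ S) :
    ∫ t in (V - n * H)..(V + n * H), Wg H V t * f t ≤ 2 * S * ∑ j ∈ range n, Real.exp (-(j:ℝ)) := by
  have hc : Continuous fun t => Wg H V t * f t := (Wg_cont _ _).mul hf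
  induction n with
  | zero => simp
  | succ n ih =>
    have h1 := ih (fun j hj => hr j (by omega)) (fun j hj => hl j (by omega))
    have e1 := intervalIntegral.integral_add_adjacent_intervals (μ := volume)
      (hc.intervalIntegrable (V - ((n:ℝ) + 1) * H) (V - n * H)) (hc.intervalIntegrable (V - n * H) (V + n * H))
    have e2 := intervalIntegral.integral_add_adjacent_intervals (μ := volume)
      (hc.intervalIntegrable (V - ((n:ℝ) + 1) * H) (V + n * H)) (hc.intervalIntegrable (V + n * H) (V + ((n:ℝ) + 1) * H))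
    have hbd : ∀ a b : ℝ, a ≤ b → (∀ t ∈ Set.Icc a b, (n:ℝ) ≤ |(t - V) / H|) → ∫ t in a..b, f t ≤ S →
        ∫ t in a..b, Wg H V t * f t ≤ Real.exp (-(n:ℝ)) * S := by
      intro a b hab ht hI
      calc ∫ t in a..b, Wg H V t * f t ≤ ∫ t in a..b, Real.exp (-(n:ℝ)) * f t := by
            refine intervalIntegral.integral_mono_on hab (hc.intervalIntegrable _ _)
              ((hf.intervalIntegrable _ _).const_mul _) fun t h => ?_
            refine mul_le_mul_of_nonneg_right ?_ (hf0 t)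
            unfold Wg
            refine Real.exp_le_exp.mpr (neg_le_neg ?_)
            have h2 := ht t h
            rw [← sq_abs]
            have hn : (n:ℝ) ≤ (n:ℝ) ^ 2 := by
              have : n ≤ n ^ 2 := Nat.le_self_pow (by norm_num) n
              exact_mod_cast this
            have h3 : (n:ℝ) ^ 2 ≤ |(t - V) / H| ^ 2 := pow_le_pow_left₀ (by positivity) h2 2
            linarith
        _ = Real.exp (-(n:ℝ)) * ∫ t in a..b, f t := intervalIntegral.integral_const_mul _ _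
        _ ≤ _ := mul_le_mul_of_nonneg_left hI (Real.exp_pos _).le
    have hR := hbd (V + n * H) (V + ((n:ℝ) + 1) * H) (by nlinarith) (fun t ht => by
      rw [abs_of_nonneg (div_nonneg (by nlinarith [ht.1, (Nat.cast_nonneg n : (0:ℝ) ≤ n)]) hH.le), le_div_iff₀ hH]
      linarith [ht.1]) (hr n (by omega))
    have hL := hbd (V - ((n:ℝ) + 1) * H) (V - n * H) (by nlinarith) (fun t ht => by
      rw [abs_of_nonpos (div_nonpos_of_nonpos_of_nonneg (by nlinarith [ht.2, (Nat.cast_nonneg n : (0:ℝ) ≤ n)]) hH.le),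
        ← neg_div, le_div_iff₀ hH]
      linarith [ht.2]) (hl n (by omega))
    rw [sum_range_succ]
    push_cast
    rw [← e2, ← e1]
    nlinarith

lemma exp_geo (n : ℕ) : ∑ j ∈ range n, Real.exp (-(j:ℝ)) ≤ 2 := by
  have h1 : ∑ j ∈ range n, Real.exp (-(j:ℝ)) = ∑ j ∈ range n, (Real.exp (-1)) ^ j := by
    refine sum_congr rfl fun j _ => ?_
    rw [← Real.exp_nat_mul]
    congr 1; ring
  rw [h1]
  have h2 : Real.exp (-1) ≤ 1 / 2 := by
    rw [Real.exp_neg, ← one_div]
    apply one_div_le_one_div_of_le (by norm_num)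
    have := Real.exp_one_gt_d9
    linarith
  have h3 : ∀ m : ℕ, ∑ j ∈ range m, (Real.exp (-1)) ^ j ≤ 2 - (1 / 2) ^ m * 2 := by
    intro m
    induction m with
    | zero => simp
    | succ m ih =>
      rw [sum_range_succ]
      have h4 : (Real.exp (-1)) ^ m ≤ (1 / 2) ^ m := pow_le_pow_left₀ (Real.exp_pos _).le h2 m
      rw [pow_succ]
      linarith
  have h4 : (0:ℝ) ≤ (1 / 2) ^ n * 2 := by positivity
  linarith [h3 n]

/-- the crude bound far from the centre -/
lemma far_pt : ∃ C : ℝ, 0 < C ∧ ∀ᶠ T : ℝ in atTop, ∀ (k : ℕ) (c D V H : ℝ), 0 < c → 0 ≤ D → D + k * c ≤ Real.log T →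
    T ≤ V → V ≤ 2 * T → 1 ≤ H → H ≤ T → ∀ y : ℝ, Real.log T ≤ |(y - V) / H| →
    ‖gg k c D V H (((1 / 2 : ℝ) : ℂ) + (y : ℂ) * I)‖ ≤ C * Real.exp (-(1 / 3) * ((y - V) / H) ^ 2) := by
  obtain ⟨C1, B, hC1, hZ⟩ := Z1_growth 1
  obtain ⟨K, hK, hK2⟩ := Pool.Agent.H448R2.GC.F0.poly_le_exp B (1 / 6) (by norm_num)
  refine ⟨2 * (1 + 2 * C1) * K, by positivity, ?_⟩
  filter_upwards [Real.tendsto_log_atTop.eventually_ge_atTop (6 * (1 + 3 * B) : ℝ), eventually_ge_atTop 2,
    Real.tendsto_log_atTop.eventually_ge_atTop 1] with T hL hT2 hL1 k c D V H hc hD hDk hV1 hV2 hH1 hHT y hy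
  set L := Real.log T with hLdef
  have hB0 : (0:ℝ) ≤ B := Nat.cast_nonneg B
  have hL0 : 0 < L := by linarith
  have hT0 : 0 < T := by linarith
  have hHpos : 0 < H := by linarith
  set v := (y - V) / H with hv
  set z : ℂ := ((1 / 2 : ℝ) : ℂ) + (y : ℂ) * I with hz
  have hzre : z.re = 1 / 2 := by simp [hz]
  have hzim : z.im = y := by simp [hz]
  have hz1 : z ≠ 1 := by
    intro h; rw [h] at hzre; norm_num at hzre
  set X := ‖riemannZeta z‖ * ‖fs k c D z‖ with hX
  have hX0 : 0 ≤ X := by positivity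
  have hF : ‖Pool.Agent.Y24.FF k c D z‖ ≤ X + 1 := by
    refine (norm_FF_le (by rw [hzre]; norm_num) hz1).trans ?_
    refine (norm_sub_le _ _).trans ?_
    rw [norm_mul, norm_one]
  have e1 : Real.exp ((1 / 2 / H) ^ 2) ≤ 2 := by
    have : (1 / 2 / H) ^ 2 ≤ 1 / 4 := by
      have h3 : 1 / 2 / H ≤ 1 / 2 := div_le_self (by norm_num) hH1
      have h4 : 0 ≤ 1 / 2 / H := by positivity
      exact (pow_le_pow_left₀ h4 h3 2).trans (by norm_num)
    calc Real.exp ((1 / 2 / H) ^ 2) ≤ Real.exp (1 / 4) := Real.exp_le_exp.mpr this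
      _ ≤ 2 := by
        have h5 : Real.exp (1 / 4) ^ 4 = Real.exp 1 := by
          rw [← Real.exp_nat_mul]; norm_num
        have h6 := Real.exp_one_lt_d9
        by_contra hcon
        push Not at hcon
        have h7 : (2:ℝ) ^ 4 ≤ Real.exp (1 / 4) ^ 4 := pow_le_pow_left₀ (by norm_num) hcon.le 4
        rw [h5] at h7
        norm_num at h7
        linarith
  -- the crude bound for `X`
  have hXle : X ≤ 2 * C1 * (1 + |y|) ^ B * T := by
    have h1 := hZ z (by rw [hzre]; norm_num) (by rw [hzre]; norm_num)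
    rw [Z1_ne hz1, norm_mul, hzim] at h1
    have h2 : (1:ℝ) / 2 ≤ ‖z - 1‖ := by
      have := Complex.abs_re_le_norm (z - 1)
      rw [Complex.sub_re, Complex.one_re, hzre] at this
      norm_num at this
      linarith
    have h3 : ‖riemannZeta z‖ ≤ 2 * C1 * (1 + |y|) ^ B := by
      have := mul_le_mul_of_nonneg_right h2 (norm_nonneg (riemannZeta z))
      linarith
    have h4 := Pool.Agent.H448R2.GC.F0.fs_norm_le cu_nonneg cu_le_one k c D hc z (by rw [hzre]; norm_num)
    have h5 : Real.exp (D + k * c) ≤ T := by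
      calc Real.exp (D + k * c) ≤ Real.exp L := Real.exp_le_exp.mpr hDk
        _ = T := Real.exp_log hT0
    exact mul_le_mul h3 (h4.trans h5) (norm_nonneg _) (by positivity)
  have hv1 : 0 ≤ |v| := abs_nonneg v
  have hy1 : 0 ≤ |y| := abs_nonneg y
  have hyv' : 1 + |y| ≤ (1 + V + H) * (1 + |v|) := one_add_abs_le (by linarith) hHpos
  have hTH : 1 + V + H ≤ T ^ 3 := by
    have h1 : (2:ℝ) ^ 2 ≤ T ^ 2 := pow_le_pow_left₀ (by norm_num) hT2 2
    have h2 : T ^ 3 = T ^ 2 * T := by ring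
    have h3 : 2 ^ 2 * T ≤ T ^ 2 * T := mul_le_mul_of_nonneg_right h1 hT0.le
    rw [h2]; linarith
  have hyv2 : 1 + |y| ≤ T ^ 3 * (1 + |v|) := hyv'.trans (by gcongr)
  have h1X : X + 1 ≤ (1 + 2 * C1) * T * (T ^ 3 * (1 + |v|)) ^ B := by
    have h1 : 1 ≤ (T ^ 3 * (1 + |v|)) ^ B := by
      apply one_le_pow₀
      have : 1 ≤ T ^ 3 := one_le_pow₀ (by linarith)
      exact one_le_mul_of_one_le_of_one_le this (by linarith)
    have h2 : (1 + |y|) ^ B ≤ (T ^ 3 * (1 + |v|)) ^ B := by gcongr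
    calc X + 1 ≤ 2 * C1 * (T ^ 3 * (1 + |v|)) ^ B * T + 1 * (T * (T ^ 3 * (1 + |v|)) ^ B) := by
          refine add_le_add (hXle.trans (by gcongr)) ?_
          rw [one_mul]
          exact one_le_mul_of_one_le_of_one_le (by linarith) h1
      _ = _ := by ring
  have hvL : L ^ 2 ≤ v ^ 2 := by
    rw [← sq_abs v]
    exact pow_le_pow_left₀ hL0.le hy 2
  have hTpow : T ^ (3 * B + 1) * Real.exp (-(1 / 6) * v ^ 2) ≤ 1 := by
    have h1 : T ^ (3 * B + 1) = Real.exp ((3 * B + 1 : ℕ) * L) := by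
      rw [Real.exp_nat_mul, Real.exp_log hT0]
    rw [h1, ← Real.exp_add]
    apply Real.exp_le_one_iff.mpr
    push_cast
    have h3 : (6 * (1 + 3 * B) : ℝ) * L ≤ L * L := mul_le_mul_of_nonneg_right hL hL0.le
    nlinarith [hvL, sq L]
  have hexp : Real.exp (-v ^ 2) ≤ Real.exp (-(1 / 3) * v ^ 2) * Real.exp (-(1 / 6) * v ^ 2) * Real.exp (-(1 / 6) * v ^ 2) := by
    rw [← Real.exp_add, ← Real.exp_add]
    apply Real.exp_le_exp.mpr
    nlinarith [sq_nonneg v]
  have hKv : (1 + |v|) ^ B * Real.exp (-(1 / 6) * v ^ 2) ≤ K := by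
    calc (1 + |v|) ^ B * Real.exp (-(1 / 6) * v ^ 2) ≤ (K * Real.exp (1 / 6 * v ^ 2)) * Real.exp (-(1 / 6) * v ^ 2) := by
          gcongr; exact hK2 v
      _ = K * (Real.exp (1 / 6 * v ^ 2) * Real.exp (-(1 / 6) * v ^ 2)) := by ring
      _ = K := by
          rw [← Real.exp_add]
          have : 1 / 6 * v ^ 2 + -(1 / 6) * v ^ 2 = 0 := by ring
          rw [this, Real.exp_zero, mul_one]
  rw [norm_gg, hzre, hzim]
  calc ‖Pool.Agent.Y24.FF k c D z‖ * (Real.exp ((1 / 2 / H) ^ 2) * Real.exp (-v ^ 2))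
      ≤ ((1 + 2 * C1) * T * (T ^ 3 * (1 + |v|)) ^ B) * (2 * (Real.exp (-(1 / 3) * v ^ 2) *
        Real.exp (-(1 / 6) * v ^ 2) * Real.exp (-(1 / 6) * v ^ 2))) := by
        refine mul_le_mul (hF.trans h1X) (mul_le_mul e1 hexp (Real.exp_pos _).le (by norm_num)) (by positivity) (by positivity)
    _ = 2 * (1 + 2 * C1) * (T ^ (3 * B + 1) * Real.exp (-(1 / 6) * v ^ 2)) *
        ((1 + |v|) ^ B * Real.exp (-(1 / 6) * v ^ 2)) * Real.exp (-(1 / 3) * v ^ 2) := by
        rw [mul_pow, ← pow_mul]; ring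
    _ ≤ 2 * (1 + 2 * C1) * 1 * K * Real.exp (-(1 / 3) * v ^ 2) := by gcongr
    _ = _ := by ring

/-- the left line -/
theorem left1 {h1 : ℝ} (hlo : 27 / 82 < h1) (hhi : h1 < 1 / 2) {θ1 ηm : ℝ} (hθ : 0 ≤ θ1) (hηm : 0 < ηm)
    (h3 : θ1 + ηm < 1) :
    ∃ C : ℝ, 0 < C ∧ ∀ᶠ T : ℝ in atTop, ∀ V H : ℝ, T ≤ V → V ≤ 2 * T → T ^ h1 ≤ H → H ≤ T / (4 * Real.log T) →
      ∫ y : ℝ, ‖gg 8 (ηm * Real.log H / 8) (θ1 * Real.log H) V H (((1 / 2 : ℝ) : ℂ) + (y : ℂ) * I)‖ ≤ C * H := by
  obtain ⟨C1, hC1, hm⟩ := mom1 hlo hhi hθ hηm h3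
  obtain ⟨C2, hC2, hf⟩ := far_pt
  refine ⟨8 * C1 + C2 * Real.sqrt (Real.pi / (1 / 3)), by positivity, ?_⟩
  filter_upwards [hm, hf, Real.tendsto_log_atTop.eventually_ge_atTop 2, eventually_ge_atTop 8] with T hm hf hL hT8
    V H hV1 hV2 hH1 hH2
  set L := Real.log T with hLdef
  have hL0 : 0 < L := by linarith
  have hT0 : 0 < T := by linarith
  have hHge : 1 ≤ H := (Real.one_le_rpow (by linarith) (by linarith)).trans hH1
  have hHpos : 0 < H := by linarith
  have hH4 : H ≤ T / 8 := hH2.trans (div_le_div_of_nonneg_left hT0.le (by norm_num) (by linarith))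
  have hHT : H ≤ T := by linarith
  have hlogH : 0 ≤ Real.log H := Real.log_nonneg hHge
  have hlogHT : Real.log H ≤ L := Real.log_le_log hHpos hHT
  have hLH : 0 < Real.log H := by
    have h2 : h1 * L ≤ Real.log H := by
      rw [hLdef, ← Real.log_rpow hT0]
      exact Real.log_le_log (by positivity) hH1
    have : 0 < h1 * L := mul_pos (by linarith) hL0
    linarith
  set c : ℝ := ηm * Real.log H / 8 with hc
  have hc0 : 0 < c := by positivity
  set D : ℝ := θ1 * Real.log H with hD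
  have hD0 : 0 ≤ D := by positivity
  have hDc : D + (8:ℕ) * c ≤ L := by
    have h2 : D + (8:ℕ) * c = (θ1 + ηm) * Real.log H := by
      rw [hc, hD]; push_cast; ring
    rw [h2]
    calc (θ1 + ηm) * Real.log H ≤ 1 * Real.log H := by gcongr
      _ ≤ L := by linarith
  set f : ℝ → ℝ := fun t => ‖riemannZeta (cl t) * fs 8 c D (cl t) - 1‖ with hfd
  have hMc : Continuous fun t => fs 8 c D (cl t) := (fs_cont _ _ _).comp cl_cont
  have hzc := Pool.Agent.H262R4.TM.TTW.zeta_cont
  have hfc : Continuous f := ((hzc.mul hMc).sub continuous_const).norm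
  have hf0 : ∀ t, 0 ≤ f t := fun t => norm_nonneg _
  set F : ℝ → ℝ := fun y => ‖gg 8 c D V H (((1 / 2 : ℝ) : ℂ) + (y : ℂ) * I)‖ with hF
  obtain ⟨K, hSD⟩ := gg_SD (k := 8) (c := c) (D := D) (T := V) (H := H) (A := 1) hc0 hD0 (by linarith) hHpos
  have hFc : Continuous F := by
    have h2 := hSD.line_cont (z := ((1 / 2 : ℝ) : ℂ)) (by norm_num) (by norm_num)
    exact h2.norm
  have hFi : Integrable F := by
    have hi : Integrable fun y : ℝ => K * (1 / (1 + (0 + y) ^ 2)) := (Pool.Agent.Y24.int_shift 0).const_mul _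
    refine hi.mono' hFc.aestronglyMeasurable (Eventually.of_forall fun y => ?_)
    rw [Real.norm_eq_abs, abs_of_nonneg (norm_nonneg _), zero_add]
    have h2 := hSD.dec (((1 / 2 : ℝ) : ℂ) + (y : ℂ) * I) (by simp; try norm_num) (by simp; try norm_num)
    simpa using h2
  have hFf : ∀ y, F y ≤ 2 * (Wg H V y * f y) := by
    intro y
    set z : ℂ := ((1 / 2 : ℝ) : ℂ) + (y : ℂ) * I with hz
    have hzre : z.re = 1 / 2 := by simp [hz]
    have hzim : z.im = y := by simp [hz]
    have hcl : cl y = z := by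
      unfold Pool.Agent.H306R2.SM.cl
      rw [hz]; push_cast; ring
    have hz1 : z ≠ 1 := by
      intro h; rw [h] at hzre; norm_num at hzre
    have e1 : Real.exp ((1 / 2 / H) ^ 2) ≤ 2 := by
      have : (1 / 2 / H) ^ 2 ≤ 1 / 4 := by
        have h3 : 1 / 2 / H ≤ 1 / 2 := div_le_self (by norm_num) hHge
        have h4 : 0 ≤ 1 / 2 / H := by positivity
        exact (pow_le_pow_left₀ h4 h3 2).trans (by norm_num)
      calc Real.exp ((1 / 2 / H) ^ 2) ≤ Real.exp (1 / 4) := Real.exp_le_exp.mpr this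
        _ ≤ 2 := by
          have h5 : Real.exp (1 / 4) ^ 4 = Real.exp 1 := by
            rw [← Real.exp_nat_mul]; norm_num
          have h6 := Real.exp_one_lt_d9
          by_contra hcon
          push Not at hcon
          have h7 : (2:ℝ) ^ 4 ≤ Real.exp (1 / 4) ^ 4 := pow_le_pow_left₀ (by norm_num) hcon.le 4
          rw [h5] at h7
          norm_num at h7
          linarith
    have h5 := norm_FF_le (k := 8) (c := c) (D := D) (z := z) (by rw [hzre]; norm_num) hz1
    change ‖gg 8 c D V H z‖ ≤ _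
    rw [norm_gg, hzre, hzim]
    have h6 : f y = ‖riemannZeta z * fs 8 c D z - 1‖ := by rw [hfd]; simp only; rw [hcl]
    rw [h6]
    unfold Wg
    calc ‖Pool.Agent.Y24.FF 8 c D z‖ * (Real.exp ((1 / 2 / H) ^ 2) * Real.exp (-((y - V) / H) ^ 2))
        ≤ ‖riemannZeta z * fs 8 c D z - 1‖ * (2 * Real.exp (-((y - V) / H) ^ 2)) := by gcongr
      _ = _ := by ring
  set J : ℕ := ⌈T / (4 * H)⌉₊ with hJ
  have hJ1 : T / 4 ≤ J * H := by
    have h2 : T / (4 * H) ≤ J := Nat.le_ceil _
    calc T / 4 = T / (4 * H) * H := by field_simp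
      _ ≤ _ := by gcongr
  have hJ2 : (J:ℝ) * H ≤ T / 2 := by
    have h2 : (J:ℝ) < T / (4 * H) + 1 := Nat.ceil_lt_add_one (by positivity)
    have h3 : (J:ℝ) * H ≤ (T / (4 * H) + 1) * H := by gcongr
    have h4 : (T / (4 * H) + 1) * H = T / 4 + H := by field_simp
    linarith
  have hwin := win_sum hfc hf0 (V := V) hHpos (S := C1 * H) (by positivity) J
    (fun j hj => by
      have hj' : (j:ℝ) ≤ J := by exact_mod_cast hj.le
      have h4 : (j:ℝ) * H ≤ T / 2 := le_trans (by gcongr) hJ2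
      have h5 : 0 ≤ (j:ℝ) * H := by positivity
      have h6 := hm (V + j * H) H (by linarith) (by linarith) hH1 hHT
      have e : V + ((j:ℝ) + 1) * H = V + j * H + H := by ring
      rw [e]
      exact h6)
    (fun j hj => by
      have hj' : (j:ℝ) + 1 ≤ J := by exact_mod_cast hj
      have h4 : ((j:ℝ) + 1) * H ≤ T / 2 := le_trans (by gcongr) hJ2
      have h5 : 0 ≤ ((j:ℝ) + 1) * H := by positivity
      have h6 := hm (V - (j + 1) * H) H (by linarith) (by linarith) hH1 hHT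
      have e : V - (j:ℝ) * H = V - (j + 1) * H + H := by ring
      rw [e]
      exact h6)
  have hVJ : V - J * H ≤ V + J * H := by
    have : 0 ≤ (J:ℝ) * H := by positivity
    linarith
  set s : Set ℝ := Set.Ioc (V - J * H) (V + J * H) with hs
  have hsplit := integral_add_compl (μ := volume) (s := s) measurableSet_Ioc hFi
  have hcWf : Continuous fun t => Wg H V t * f t := (Wg_cont _ _).mul hfc
  have h1 : ∫ y in s, F y ≤ 8 * C1 * H := by
    calc ∫ y in s, F y ≤ ∫ y in s, 2 * (Wg H V y * f y) :=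
          setIntegral_mono hFi.integrableOn (((hcWf.const_mul 2).integrableOn_Icc (a := V - J * H) (b := V + J * H)).mono_set
            Set.Ioc_subset_Icc_self) hFf
      _ = 2 * ∫ y in (V - J * H)..(V + J * H), Wg H V y * f y := by
          rw [integral_const_mul, intervalIntegral.integral_of_le hVJ]
      _ ≤ 2 * (2 * (C1 * H) * 2) := by
          refine mul_le_mul_of_nonneg_left (hwin.trans ?_) (by norm_num)
          exact mul_le_mul_of_nonneg_left (exp_geo J) (by positivity)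
      _ = _ := by ring
  have h2 : ∫ y in sᶜ, F y ≤ C2 * (H * Real.sqrt (Real.pi / (1 / 3))) := by
    have hgi : Integrable (fun y : ℝ => C2 * Real.exp (-(1 / 3) * ((y - V) / H) ^ 2)) :=
      (gx_int (by norm_num) V hHpos).const_mul _
    calc ∫ y in sᶜ, F y ≤ ∫ y in sᶜ, C2 * Real.exp (-(1 / 3) * ((y - V) / H) ^ 2) := by
          refine setIntegral_mono_on hFi.integrableOn hgi.integrableOn measurableSet_Ioc.compl fun y hy => ?_
          refine hf 8 c D V H hc0 hD0 hDc hV1 hV2 hHge hHT y ?_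
          rw [abs_div, abs_of_pos hHpos, le_div_iff₀ hHpos]
          have h5 : L * H ≤ T / 4 := by
            calc L * H ≤ L * (T / (4 * L)) := by gcongr
              _ = T / 4 := by field_simp
          refine h5.trans (hJ1.trans ?_)
          rw [hs, Set.mem_compl_iff, Set.mem_Ioc, not_and_or, not_lt, not_le] at hy
          rcases hy with hy | hy
          · rw [abs_of_nonpos (by linarith)]; linarith
          · exact le_trans (by linarith) (le_abs_self _)
      _ ≤ ∫ y, C2 * Real.exp (-(1 / 3) * ((y - V) / H) ^ 2) :=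
          setIntegral_le_integral hgi (Eventually.of_forall fun y => by positivity)
      _ = _ := by rw [integral_const_mul, gx_val V hHpos]
  rw [← hsplit]
  calc (∫ y in s, F y) + ∫ y in sᶜ, F y ≤ 8 * C1 * H + C2 * (H * Real.sqrt (Real.pi / (1 / 3))) := add_le_add h1 h2
    _ = _ := by ring

end

end Pool.Agent.Zk6
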