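import Pool.Agent.Y24.E3
import Pool.Agent.Zk6.H3

set_option autoImplicit false

/-!
The number of zeros in a window, from the mean values on vertical lines.
-/

namespace Pool.Agent.Zk6

open Finset Filter MeasureTheory Complex Metric
open Pool.Agent.H306R2.SM (om cl Yf)
open Pool.Agent.H448R2.GC (cu fs cu_nonneg cu_le_one cu_one cu_zero)
open Pool.Agent.Y24 (gg norm_gg norm_FF_le Z1 Z1_ne Z1_growth right_pt one_add_abs_le gg_SD weight_le jensen_low
  log_one_sub_sq_ge FF_ne gg_diff fs_diff fub avg_cont ind_int)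

noncomputable section

lemma line_intp {p : ℝ} (hp1 : 1 ≤ p) {k : ℕ} {c D T H A : ℝ} (hc : 0 < c) (hD : 0 ≤ D) (hT : 0 ≤ T) (hH : 0 < H) {x : ℝ}
    (hx : 0 < x) (hxA : x ≤ A) :
    Integrable (fun y : ℝ => ‖gg k c D T H ((x : ℂ) + (y : ℂ) * I)‖ ^ p) := by
  obtain ⟨C, hS⟩ := gg_SD (k := k) (c := c) (D := D) (T := T) (H := H) (A := A) hc hD hT hH
  have hC := hS.C0
  have hre : ∀ y : ℝ, ((x : ℂ) + (y : ℂ) * I).re = x := fun y => by simp
  have him : ∀ y : ℝ, ((x : ℂ) + (y : ℂ) * I).im = y := fun y => by simp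
  have hcont : Continuous fun y : ℝ => gg k c D T H ((x : ℂ) + (y : ℂ) * I) := by
    refine continuous_iff_continuousAt.mpr fun y => ?_
    have hd := (gg_diff (k := k) (c := c) (D := D) (T := T) (H := H) (z := (x : ℂ) + (y : ℂ) * I)
      (by rw [hre]; exact hx)).continuousAt
    exact ContinuousAt.comp (f := fun y : ℝ => (x : ℂ) + (y : ℂ) * I) hd (by fun_prop)
  have hcont2 : Continuous fun y : ℝ => ‖gg k c D T H ((x : ℂ) + (y : ℂ) * I)‖ ^ p :=
    hcont.norm.rpow_const fun y => Or.inr (by linarith)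
  obtain ⟨C', hS'⟩ := gg_SD (k := k) (c := c) (D := D) (T := T) (H := H) (A := A) hc hD hT hH
  by_cases hx2 : 0 < x - 1 / 2 + 1 / 2
  · have hb : Integrable (fun y : ℝ => (max C 1) ^ p * (1 + y ^ 2)⁻¹) := integrable_inv_one_add_sq.const_mul _
    by_cases hxl : 0 < x
    · -- use the decay
      have hdec : ∀ y : ℝ, 1 / 4 - 1 / 4 < x → ‖gg k c D T H ((x : ℂ) + (y : ℂ) * I)‖ ≤ C * (1 / (1 + y ^ 2)) := by
        intro y hx3
        have h1 := hS.dec ((x : ℂ) + (y : ℂ) * I) (by rw [hre]; linarith) (by rw [hre]; linarith)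
        rwa [him] at h1
      refine hb.mono' hcont2.aestronglyMeasurable (Eventually.of_forall fun y => ?_)
      rw [Real.norm_eq_abs, abs_of_nonneg (Real.rpow_nonneg (norm_nonneg _) _)]
      have h1 := hdec y (by linarith)
      have h2 : 0 < 1 + y ^ 2 := by positivity
      have h3 : 1 / (1 + y ^ 2) ≤ 1 := by rw [div_le_one h2]; nlinarith [sq_nonneg y]
      have hC1 : 0 ≤ max C 1 := hC.trans (le_max_left _ _)
      calc ‖gg k c D T H ((x : ℂ) + (y : ℂ) * I)‖ ^ p ≤ (max C 1 * (1 / (1 + y ^ 2))) ^ p :=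
            Real.rpow_le_rpow (norm_nonneg _) (h1.trans (by gcongr; exact le_max_left _ _)) (by linarith)
        _ = (max C 1) ^ p * (1 / (1 + y ^ 2)) ^ p := Real.mul_rpow hC1 (by positivity)
        _ ≤ (max C 1) ^ p * (1 / (1 + y ^ 2)) ^ (1 : ℝ) := by
            apply mul_le_mul_of_nonneg_left _ (Real.rpow_nonneg hC1 _)
            exact Real.rpow_le_rpow_of_exponent_ge (by positivity) h3 hp1
        _ = _ := by rw [Real.rpow_one, one_div]
    · exact absurd hx hxl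
  · exfalso; apply hx2; linarith

theorem count_p {p : ℝ} (hp1 : 1 ≤ p) (hp2 : p ≤ 2) {k : ℕ} {c' D V H C1 K1 μ σ L : ℝ} (hc'0 : 0 < c') (hD0 : 0 ≤ D)
    (hright : ∀ s : ℂ, 2 ≤ s.re → ‖riemannZeta s * fs k c' D s - 1‖ ≤ C1 * Real.exp (-((s.re - 2) * D)))
    (hsmall : (C1 * Real.exp (-D)) ^ 2 ≤ 1 / 2) (hH : 4 ≤ H) (hVH : H + 5 ≤ V) (hL : 1 ≤ L)
    (hσ1 : 1 / 2 ≤ σ) (hσ2 : σ ≤ 1) (hμ0 : 0 < μ) (hK1 : 0 ≤ K1)
    (hline : ∀ x : ℝ, σ ≤ x → x ≤ 6 → ∫ y : ℝ, ‖gg k c' D V H ((x : ℂ) + (y : ℂ) * I)‖ ^ p ≤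
      K1 * Real.exp (-(μ * (x - σ)))) (S : Finset ℂ)
    (hS : ∀ ρ ∈ S, σ + 1 / L ≤ ρ.re ∧ ρ.re ≤ 1 ∧ |ρ.im - V| ≤ H / 2) :
    (∑ ρ ∈ S, (analyticOrderNatAt riemannZeta ρ : ℝ)) * (2 / (7 * (L * Real.sqrt L))) ≤
      2 * (2 * Real.exp 4) ^ p * (K1 * Real.sqrt (Real.pi / (μ * (3 - σ)))) + 4 * H * (C1 * Real.exp (-D)) ^ 2 := by
  have hL0 : 0 < L := by linarith
  have hH0 : 0 < H := by linarith
  have hV0 : 0 < V := by linarith
  set K := 2 * (2 * Real.exp 4) ^ p with hK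
  have hK0 : 0 < K := by positivity
  set G : ℂ → ℝ := fun z => ‖gg k c' D V H z‖ ^ p with hG
  have hGc : ContinuousOn G {z : ℂ | 0 < z.re} := by
    intro z hz
    have h1 : ContinuousAt (gg k c' D V H) z := (gg_diff hz).continuousAt
    exact (h1.norm.rpow_const (Or.inr (by linarith))).continuousWithinAt
  set R := 3 - σ with hR
  have hR2 : 2 ≤ R := by linarith
  have hR3 : R ≤ 5 / 2 := by linarith
  have hfub := fub (G := G) hGc (fun z => Real.rpow_nonneg (norm_nonneg _) _) (c₀ := 3) (R := R) (a := V - H) (b := V + H)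
    (K := K1) (μ := μ) (σ := σ) (by linarith) (by linarith) (by linarith) hK1 hμ0
    (fun x hx1 hx2 => line_intp hp1 (A := x) hc'0 hD0 hV0.le hH0 (by linarith) le_rfl)
    (fun x hx1 hx2 => hline x (by linarith) (by linarith))
  have h3 : (3:ℝ) - R - σ = 0 := by rw [hR]; ring
  rw [h3, mul_zero, neg_zero, Real.exp_zero, mul_one] at hfub
  have hsqL : 0 < Real.sqrt L := Real.sqrt_pos.mpr hL0
  have hsq1 : 1 ≤ Real.sqrt L := Real.one_le_sqrt.mpr (by linarith)
  -- the pointwise inequality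
  have hpt : ∀ t ∈ Set.Icc (V - H) (V + H), ∑ ρ ∈ S, (analyticOrderNatAt riemannZeta ρ : ℝ) *
      Set.indicator (Set.Icc (ρ.im - 1 / Real.sqrt L) (ρ.im + 1 / Real.sqrt L)) (fun _ => 1 / (7 * L)) t ≤
      K * Real.circleAverage G (((3:ℝ) : ℂ) + (t : ℂ) * I) R + 2 * (C1 * Real.exp (-D)) ^ 2 := by
    intro t ht
    exact pt_jensen_p hp1 hp2 (k := k) (c' := c') (D := D) (T := V) (H := H) (C1 := C1)
      hright hsmall (by linarith) hVH (L := L) (by linarith) hσ1 hσ2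
      (by rw [abs_le]; constructor <;> linarith [ht.1, ht.2]) S (fun ρ hρ => ⟨(hS ρ hρ).1, (hS ρ hρ).2.1⟩)
  have hone : ∀ ρ : ℂ, IntervalIntegrable (fun t => (analyticOrderNatAt riemannZeta ρ : ℝ) *
      Set.indicator (Set.Icc (ρ.im - 1 / Real.sqrt L) (ρ.im + 1 / Real.sqrt L)) (fun _ => 1 / (7 * L)) t) volume
      (V - H) (V + H) := by
    intro ρ
    apply IntervalIntegrable.const_mul
    have : Integrable (Set.indicator (Set.Icc (ρ.im - 1 / Real.sqrt L) (ρ.im + 1 / Real.sqrt L)) (fun _ => 1 / (7 * L))) := by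
      rw [integrable_indicator_iff measurableSet_Icc]
      exact integrableOn_const (by simp)
    exact this.intervalIntegrable
  have hintL : IntervalIntegrable (fun t => ∑ ρ ∈ S, (analyticOrderNatAt riemannZeta ρ : ℝ) *
      Set.indicator (Set.Icc (ρ.im - 1 / Real.sqrt L) (ρ.im + 1 / Real.sqrt L)) (fun _ => 1 / (7 * L)) t) volume
      (V - H) (V + H) := by
    have h5 := IntervalIntegrable.sum S (fun ρ _ => hone ρ)
    have e : (∑ ρ ∈ S, fun t => (analyticOrderNatAt riemannZeta ρ : ℝ) *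
      Set.indicator (Set.Icc (ρ.im - 1 / Real.sqrt L) (ρ.im + 1 / Real.sqrt L)) (fun _ => 1 / (7 * L)) t) =
      (fun t => ∑ ρ ∈ S, (analyticOrderNatAt riemannZeta ρ : ℝ) *
      Set.indicator (Set.Icc (ρ.im - 1 / Real.sqrt L) (ρ.im + 1 / Real.sqrt L)) (fun _ => 1 / (7 * L)) t) := by
      funext t
      simp
    rw [e] at h5
    exact h5
  have havgc := avg_cont (G := G) hGc (c₀ := 3) (R := R) (by linarith) (by linarith)
  have hcK : Continuous fun t : ℝ => K * Real.circleAverage G (((3:ℝ) : ℂ) + (t : ℂ) * I) R :=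
    continuous_const.mul havgc
  have hcK2 : Continuous fun t : ℝ => K * Real.circleAverage G (((3:ℝ) : ℂ) + (t : ℂ) * I) R +
      2 * (C1 * Real.exp (-D)) ^ 2 := hcK.add continuous_const
  have hI := intervalIntegral.integral_mono_on (μ := volume) (by linarith : V - H ≤ V + H) hintL
    (hcK2.intervalIntegrable _ _) hpt
  rw [intervalIntegral.integral_finsetSum (fun ρ _ => hone ρ)] at hI
  have hlhs : ∑ ρ ∈ S, ∫ t in (V - H)..(V + H), (analyticOrderNatAt riemannZeta ρ : ℝ) *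
      Set.indicator (Set.Icc (ρ.im - 1 / Real.sqrt L) (ρ.im + 1 / Real.sqrt L)) (fun _ => 1 / (7 * L)) t =
      (∑ ρ ∈ S, (analyticOrderNatAt riemannZeta ρ : ℝ)) * (2 / (7 * (L * Real.sqrt L))) := by
    rw [Finset.sum_mul]
    refine Finset.sum_congr rfl fun ρ hρ => ?_
    obtain ⟨_, _, hg⟩ := hS ρ hρ
    obtain ⟨g1, g2⟩ := abs_le.mp hg
    have hsl : 1 / Real.sqrt L ≤ 1 := by rw [div_le_one hsqL]; exact hsq1
    have hsl0 : 0 < 1 / Real.sqrt L := by positivity
    rw [intervalIntegral.integral_const_mul, ind_int (by linarith) (by linarith) (by linarith)]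
    field_simp
    ring
  rw [hlhs] at hI
  refine hI.trans ?_
  rw [intervalIntegral.integral_add (hcK.intervalIntegrable _ _)
    (continuous_const.intervalIntegrable _ _), intervalIntegral.integral_const_mul,
    intervalIntegral.integral_const]
  have e1 : V + H - (V - H) = 2 * H := by ring
  rw [e1, smul_eq_mul]
  have h5 := mul_le_mul_of_nonneg_left hfub hK0.le
  linarith

end

end Pool.Agent.Zk6
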