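import Pool.Agent.Zk6.H4

set_option autoImplicit false

/-!
The right line and the strip.
-/

namespace Pool.Agent.Zk6

open Finset Filter MeasureTheory Complex Metric
open Pool.Agent.H448R2.GC (cu fs cu_nonneg cu_le_one cu_one cu_zero)
open Pool.Agent.Y24 (gg norm_gg norm_FF_le right_pt gg_SD exp_rpow)

noncomputable section

theorem right_p {A : ℝ} (hA : 3 ≤ A) : ∃ C : ℝ, 0 < C ∧ ∀ (p : ℝ), 1 ≤ p → p ≤ 2 → ∀ (k : ℕ) (c D V H : ℝ), 0 < c → 0 ≤ D →
    A ≤ H → ∫ y : ℝ, ‖gg k c D V H ((A : ℂ) + (y : ℂ) * I)‖ ^ p ≤ C * H * Real.exp (-(p * ((A - 2) * D))) := by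
  obtain ⟨C1, hC1, h1⟩ := right_pt
  refine ⟨(1 + C1 * 3) ^ 2 * Real.sqrt Real.pi, by positivity, fun p hp1 hp2 k c D V H hc hD hAH => ?_⟩
  have hH : 0 < H := by linarith
  have hp0 : 0 < p := by linarith
  have hpt : ∀ y : ℝ, ‖gg k c D V H ((A : ℂ) + (y : ℂ) * I)‖ ^ p ≤
      (1 + C1 * 3) ^ 2 * Real.exp (-(p * ((A - 2) * D))) * Real.exp (-1 * ((y - V) / H) ^ 2) := by
    intro y
    set z : ℂ := (A : ℂ) + (y : ℂ) * I with hz
    have hzre : z.re = A := by simp [hz]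
    have hzim : z.im = y := by simp [hz]
    have hz1 : z ≠ 1 := by
      intro h; rw [h] at hzre; norm_num at hzre; linarith
    have h2 := h1 k c D hc hD z (by rw [hzre]; linarith)
    rw [hzre] at h2
    have h3 := (norm_FF_le (k := k) (c := c) (D := D) (z := z) (by rw [hzre]; linarith) hz1).trans h2
    rw [norm_gg, hzre, hzim]
    have h4 : Real.exp ((A / H) ^ 2) ≤ 3 := by
      have h5 : A / H ≤ 1 := (div_le_one hH).mpr hAH
      have h6 : 0 ≤ A / H := by positivity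
      have h7 : (A / H) ^ 2 ≤ 1 := pow_le_one₀ h6 h5
      have := Real.exp_one_lt_d9
      calc Real.exp ((A / H) ^ 2) ≤ Real.exp 1 := Real.exp_le_exp.mpr h7
        _ ≤ 3 := by linarith
    have h8 : (C1 * 3) ^ p ≤ (1 + C1 * 3) ^ 2 := by
      calc (C1 * 3) ^ p ≤ (1 + C1 * 3) ^ p := Real.rpow_le_rpow (by positivity) (by linarith) hp0.le
        _ ≤ (1 + C1 * 3) ^ (2:ℝ) := Real.rpow_le_rpow_of_exponent_le (by linarith [hC1]) hp2
        _ = _ := by norm_num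
    calc (‖Pool.Agent.Y24.FF k c D z‖ * (Real.exp ((A / H) ^ 2) * Real.exp (-((y - V) / H) ^ 2))) ^ p
        ≤ ((C1 * 3) * Real.exp (-((A - 2) * D)) * Real.exp (-((y - V) / H) ^ 2)) ^ p := by
          apply Real.rpow_le_rpow (by positivity) _ hp0.le
          calc ‖Pool.Agent.Y24.FF k c D z‖ * (Real.exp ((A / H) ^ 2) * Real.exp (-((y - V) / H) ^ 2))
              ≤ (C1 * Real.exp (-((A - 2) * D))) * (3 * Real.exp (-((y - V) / H) ^ 2)) := by gcongr
            _ = _ := by ring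
      _ = (C1 * 3) ^ p * Real.exp (p * -((A - 2) * D)) * Real.exp (p * (-((y - V) / H) ^ 2)) := by
          rw [Real.mul_rpow (by positivity) (Real.exp_pos _).le, Real.mul_rpow (by positivity) (Real.exp_pos _).le,
            exp_rpow, exp_rpow]
      _ ≤ (1 + C1 * 3) ^ 2 * Real.exp (-(p * ((A - 2) * D))) * Real.exp (-1 * ((y - V) / H) ^ 2) := by
          have e1 : p * -((A - 2) * D) = -(p * ((A - 2) * D)) := by ring
          rw [e1]
          refine mul_le_mul (mul_le_mul_of_nonneg_right h8 (Real.exp_pos _).le) (Real.exp_le_exp.mpr ?_)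
            (Real.exp_pos _).le (by positivity)
          nlinarith [sq_nonneg ((y - V) / H)]
  calc ∫ y : ℝ, ‖gg k c D V H ((A : ℂ) + (y : ℂ) * I)‖ ^ p
      ≤ ∫ y : ℝ, (1 + C1 * 3) ^ 2 * Real.exp (-(p * ((A - 2) * D))) * Real.exp (-1 * ((y - V) / H) ^ 2) :=
        integral_mono_of_nonneg (Eventually.of_forall fun y => Real.rpow_nonneg (norm_nonneg _) _)
          ((gx_int (by norm_num) V hH).const_mul _) (Eventually.of_forall hpt)
    _ = _ := by
        rw [integral_const_mul, gx_val V hH, div_one]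
        ring

/-- the first mean value between the lines -/
theorem strip1 {A : ℝ} (hA : 3 ≤ A) {h1 : ℝ} (hlo : 27 / 82 < h1) (hhi : h1 < 1 / 2) {θ1 ηm : ℝ} (hθ : 0 ≤ θ1)
    (hηm : 0 < ηm) (h3 : θ1 + ηm < 1) : ∃ C : ℝ, 0 < C ∧ ∀ᶠ T : ℝ in atTop, ∀ V H : ℝ, T ≤ V → V ≤ 2 * T →
    T ^ h1 ≤ H → H ≤ T / (4 * Real.log T) → ∀ x : ℝ, 1 / 2 ≤ x → x ≤ A →
    ∫ y : ℝ, ‖gg 8 (ηm * Real.log H / 8) (θ1 * Real.log H) V H ((x : ℂ) + (y : ℂ) * I)‖ ≤
      C * H * Real.exp (-((A - 2) / (A - 1 / 2) * ((x - 1 / 2) * (θ1 * Real.log H)))) := by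
  obtain ⟨C1, hC1, hl⟩ := left1 hlo hhi hθ hηm h3
  obtain ⟨C2, hC2, h2⟩ := right_p hA
  refine ⟨max C1 C2, lt_max_of_lt_left hC1, ?_⟩
  filter_upwards [hl, (tendsto_rpow_atTop (show 0 < h1 by linarith)).eventually_ge_atTop A,
    eventually_ge_atTop 2, Real.tendsto_log_atTop.eventually_ge_atTop 1] with T hl hTA hT2 hL1 V H hV1 hV2 hH1 hH2 x hx hxA
  have hT0 : 0 < T := by linarith
  have hAH : A ≤ H := hTA.trans hH1
  have hHpos : 0 < H := by linarith
  have hlogH : 0 < Real.log H := Real.log_pos (by linarith)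
  set c : ℝ := ηm * Real.log H / 8 with hc
  have hc0 : 0 < c := by positivity
  set D : ℝ := θ1 * Real.log H with hD
  have hD0 : 0 ≤ D := by positivity
  have l1 := hl V H hV1 hV2 hH1 hH2
  have l2 := h2 1 le_rfl (by norm_num) 8 c D V H hc0 hD0 hAH
  simp only [Real.rpow_one, one_mul] at l2
  obtain ⟨K, hK⟩ := gg_SD (k := 8) (c := c) (D := D) (T := V) (H := H) (A := A) hc0 hD0 (by linarith) hHpos
  set M := max C1 C2 with hM
  have hM0 : 0 < M := lt_max_of_lt_left hC1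
  have l1' : ∫ y : ℝ, ‖gg 8 c D V H (((1 / 2 : ℝ) : ℂ) + (y : ℂ) * I)‖ ≤ M * H :=
    l1.trans (by gcongr; exact le_max_left _ _)
  set E := Real.exp (-((A - 2) * D)) with hE
  have l2' : ∫ y : ℝ, ‖gg 8 c D V H ((A : ℂ) + (y : ℂ) * I)‖ ≤ M * H * E :=
    l2.trans (by gcongr; exact le_max_right _ _)
  have key := conv_l1 hK (σ := x) (by linarith) hx hxA l1' l2'
  refine key.trans (le_of_eq ?_)
  set θ := (x - 1 / 2) / (A - 1 / 2) with hθ'
  have hMH : 0 < M * H := by positivity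
  rw [Real.mul_rpow hMH.le (Real.exp_pos _).le, ← mul_assoc, ← Real.rpow_add hMH, sub_add_cancel, Real.rpow_one, exp_rpow]
  congr 2
  rw [hθ']
  have : A - 1 / 2 ≠ 0 := by linarith
  field_simp

end

end Pool.Agent.Zk6
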