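import Pool.Agent.Zk6.H5

set_option autoImplicit false

/-!
The number of zeros in a short window.
-/

namespace Pool.Agent.Zk6

open Finset Filter MeasureTheory Complex Metric
open Pool.Agent.H448R2.GC (cu fs cu_nonneg cu_le_one cu_one cu_zero)
open Pool.Agent.Y24 (gg norm_gg norm_FF_le right_pt gg_SD exp_rpow)

noncomputable section

/-- zeros in a short window -/
theorem window1 {q0 : ℝ} (hq0 : 1 / 2 ≤ q0) (hq1 : q0 < 1) {h1 : ℝ} (hlo : 27 / 82 < h1) (hhi : h1 < 1 / 2) :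
    ∃ C : ℝ, 0 < C ∧ ∀ᶠ T : ℝ in atTop, ∀ V H : ℝ, T ≤ V → V ≤ 2 * T → T ^ h1 ≤ H → H ≤ T / (4 * Real.log T) →
    ∀ σ : ℝ, 1 / 2 ≤ σ → σ ≤ 1 → ∀ S : Finset ℂ,
    (∀ ρ ∈ S, σ + 1 / Real.log T ≤ ρ.re ∧ ρ.re ≤ 1 ∧ |ρ.im - V| ≤ H / 2) →
    ∑ ρ ∈ S, (analyticOrderNatAt riemannZeta ρ : ℝ) ≤
      C * H * Real.log T * Real.exp (-(q0 * (σ - 1 / 2) * Real.log H)) := by
  set r : ℝ := 2 * q0 / (1 + q0) with hr
  have hr1 : r < 1 := by rw [hr, div_lt_one (by linarith)]; linarith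
  have hr0 : 0 < r := by rw [hr]; positivity
  set A : ℝ := 2 / (1 - r) + 6 with hA
  have hA6 : 6 ≤ A := by
    rw [hA]
    have : 0 ≤ 2 / (1 - r) := div_nonneg (by norm_num) (by linarith)
    linarith
  have hAr : r ≤ (A - 2) / (A - 1 / 2) := by
    rw [le_div_iff₀ (by linarith)]
    have h1 : A * (1 - r) = 2 + 6 * (1 - r) := by
      rw [hA, add_mul, div_mul_cancel₀ _ (by linarith)]
    nlinarith
  have hA1 : (A - 2) / (A - 1 / 2) ≤ 1 := by
    rw [div_le_one (by linarith)]; linarith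
  set θ1 : ℝ := (1 + q0) / 2 with hθ1
  set ηm : ℝ := (1 - q0) / 4 with hηm
  have hηm0 : 0 < ηm := by rw [hηm]; linarith
  have hθm : θ1 + ηm < 1 := by rw [hθ1, hηm]; linarith
  have hθ34 : 3 / 4 ≤ θ1 := by rw [hθ1]; linarith
  have hθlt : θ1 < 1 := by rw [hθ1]; linarith
  set s := (A - 2) / (A - 1 / 2) with hs
  have hsq : q0 ≤ s * θ1 := by
    calc q0 = r * ((1 + q0) / 2) := by rw [hr]; field_simp
      _ ≤ _ := by apply mul_le_mul_of_nonneg_right hAr; linarith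
  have hs0 : 0 < s := hr0.trans_le hAr
  obtain ⟨C, hC, hconv⟩ := strip1 (A := A) (by linarith) hlo hhi (θ1 := θ1) (ηm := ηm) (by linarith) hηm0 hθm
  obtain ⟨C1, hC1, hright⟩ := right_pt
  set K := 2 * (2 * Real.exp 4) ^ (1:ℝ) with hK
  have hK0 : 0 < K := by positivity
  refine ⟨7 / 2 * (4 * K * C + 4 * C1 ^ 2), by positivity, ?_⟩
  filter_upwards [hconv, Real.tendsto_log_atTop.eventually_ge_atTop (16 + 6 * C1 ^ 2 : ℝ),
    (tendsto_rpow_atTop (show 0 < h1 by linarith)).eventually_ge_atTop 4, eventually_ge_atTop 2] with T hconv hL16 hT4 hT2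
    V H hV1 hV2 hH1 hH2 σ hσ1 hσ2 S hS
  set L := Real.log T with hLdef
  have hL16' : 16 ≤ L := by nlinarith [sq_nonneg C1]
  have hL0 : 0 < L := by linarith
  have hT0 : 0 < T := by linarith
  have hH4 : 4 ≤ H := hT4.trans hH1
  have hH0 : 0 < H := by linarith
  have hHT : H ≤ T / 64 := hH2.trans (div_le_div_of_nonneg_left hT0.le (by norm_num) (by linarith))
  have hH5 : H + 5 ≤ V := by linarith
  set l := Real.log H with hl
  have hlL : L / 4 ≤ l := by
    have h2 : h1 * L ≤ l := by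
      rw [hLdef, ← Real.log_rpow hT0]
      exact Real.log_le_log (by positivity) hH1
    nlinarith
  have hl0 : 0 < l := by linarith
  set D := θ1 * l with hD
  have hD0 : 0 ≤ D := by positivity
  have hDL : L / 6 ≤ D := by
    have : 3 / 4 * l ≤ θ1 * l := by gcongr
    linarith
  set c' : ℝ := ηm * l / 8 with hc'
  have hc'0 : 0 < c' := by positivity
  set μ := s * D with hμ
  have hμL : q0 * l ≤ μ := by
    rw [hμ, hD, ← mul_assoc]
    gcongr
  have hμ1 : L / 8 ≤ μ := by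
    have : 1 / 2 * l ≤ q0 * l := by gcongr
    linarith
  have hμ0 : 0 < μ := by linarith
  have hμD : μ ≤ D := by
    rw [hμ]
    exact mul_le_of_le_one_left hD0 hA1
  set E := Real.exp (-(μ * (σ - 1 / 2))) with hE
  have hE0 : 0 < E := Real.exp_pos _
  have hsqL : 0 < Real.sqrt L := Real.sqrt_pos.mpr hL0
  have hsq1 : 1 ≤ Real.sqrt L := Real.one_le_sqrt.mpr (by linarith)
  -- smallness of the terms at the centre
  have hexpD : Real.exp (-(3 / 2 * D)) ≤ 1 / Real.sqrt L := by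
    rw [le_div_iff₀ hsqL, Real.exp_neg, inv_mul_le_iff₀ (Real.exp_pos _), mul_one]
    have h1 := Real.add_one_le_exp (3 / 2 * D)
    have h2 : Real.sqrt L * Real.sqrt L = L := Real.mul_self_sqrt hL0.le
    have h4 : 4 ≤ Real.sqrt L := by
      rw [show (4:ℝ) = Real.sqrt (4 ^ 2) by rw [Real.sqrt_sq (by norm_num)]]
      exact Real.sqrt_le_sqrt (by linarith)
    nlinarith
  have hcen : (C1 * Real.exp (-D)) ^ 2 ≤ C1 ^ 2 * (E * (1 / Real.sqrt L)) := by
    rw [mul_pow]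
    have h1 : Real.exp (-D) ^ 2 = Real.exp (-(1 / 2 * D)) * Real.exp (-(3 / 2 * D)) := by
      rw [← Real.exp_add, ← Real.exp_nat_mul]; congr 1; push_cast; ring
    rw [h1]
    have h2 : Real.exp (-(1 / 2 * D)) ≤ E := by
      apply Real.exp_le_exp.mpr
      have h4 : μ * (σ - 1 / 2) ≤ μ * (1 / 2) := mul_le_mul_of_nonneg_left (by linarith) hμ0.le
      linarith
    gcongr
  have hsmall : (C1 * Real.exp (-D)) ^ 2 ≤ 1 / 2 := by
    have h1 : Real.exp (-D) ^ 2 ≤ 3 / L := by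
      rw [← Real.exp_nat_mul, le_div_iff₀ hL0]
      have h2 : ((2:ℕ):ℝ) * -D = -(2 * D) := by push_cast; ring
      rw [h2, Real.exp_neg, inv_mul_le_iff₀ (Real.exp_pos _)]
      have h4 := Real.add_one_le_exp (2 * D)
      linarith
    rw [mul_pow]
    calc C1 ^ 2 * Real.exp (-D) ^ 2 ≤ C1 ^ 2 * (3 / L) := by gcongr
      _ ≤ 1 / 2 := by
        rw [← mul_div_assoc, div_le_iff₀ hL0]
        linarith
  have hcount := count_p (p := 1) le_rfl (by norm_num) (k := 8) (c' := c') (D := D) (V := V) (H := H) (C1 := C1)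
    (K1 := C * H * E) (μ := μ) (σ := σ) (L := L) hc'0 hD0 (fun s hs => hright 8 c' D hc'0 hD0 s hs) hsmall hH4 hH5
    (by linarith) hσ1 hσ2 hμ0 (by positivity) (fun x hx1 hx2 => by
      have h5 := hconv V H hV1 hV2 hH1 hH2 x (by linarith) (by linarith)
      simp only [Real.rpow_one]
      refine h5.trans (le_of_eq ?_)
      rw [hE, mul_assoc (C * H), ← Real.exp_add]
      congr 2
      rw [hμ]; ring) S hS
  have hsqr : Real.sqrt (Real.pi / (μ * (3 - σ))) ≤ 4 / Real.sqrt L := by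
    have h1 : Real.pi / (μ * (3 - σ)) ≤ 4 ^ 2 / L := by
      rw [div_le_div_iff₀ (mul_pos hμ0 (by linarith)) hL0]
      have h2 : L / 8 * 2 ≤ μ * (3 - σ) := mul_le_mul hμ1 (by linarith) (by norm_num) hμ0.le
      nlinarith [Real.pi_lt_four]
    calc Real.sqrt (Real.pi / (μ * (3 - σ))) ≤ Real.sqrt (4 ^ 2 / L) := Real.sqrt_le_sqrt h1
      _ = _ := by rw [Real.sqrt_div (by positivity), Real.sqrt_sq (by norm_num)]
  have hrhs : 2 * (2 * Real.exp 4) ^ (1:ℝ) * (C * H * E * Real.sqrt (Real.pi / (μ * (3 - σ)))) +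
      4 * H * (C1 * Real.exp (-D)) ^ 2 ≤ H * E / Real.sqrt L * (4 * K * C + 4 * C1 ^ 2) := by
    calc 2 * (2 * Real.exp 4) ^ (1:ℝ) * (C * H * E * Real.sqrt (Real.pi / (μ * (3 - σ)))) +
        4 * H * (C1 * Real.exp (-D)) ^ 2 ≤ K * (C * H * E * (4 / Real.sqrt L)) + 4 * H * (C1 ^ 2 * (E * (1 / Real.sqrt L))) := by
          gcongr
      _ = _ := by field_simp
  have hfin := hcount.trans hrhs
  have hN : ∑ ρ ∈ S, (analyticOrderNatAt riemannZeta ρ : ℝ) ≤ 7 / 2 * (4 * K * C + 4 * C1 ^ 2) * H * L * E := by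
    have h4 : 0 < 2 / (7 * (L * Real.sqrt L)) := by positivity
    rw [← le_div_iff₀ h4] at hfin
    refine hfin.trans (le_of_eq ?_)
    field_simp
  refine hN.trans ?_
  have hE2 : E ≤ Real.exp (-(q0 * (σ - 1 / 2) * l)) := by
    apply Real.exp_le_exp.mpr
    have h4 : q0 * l * (σ - 1 / 2) ≤ μ * (σ - 1 / 2) := mul_le_mul_of_nonneg_right hμL (by linarith)
    linarith
  gcongr

end

end Pool.Agent.Zk6
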