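import Pool.Agent.Y24.F1
import Pool.Agent.Zk6.H6

set_option autoImplicit false

/-!
From short windows to all intervals.
-/

namespace Pool.Agent.Zk6

open Finset Filter MeasureTheory Complex Metric
open Pool.Agent.Y24 (unit_count ZZ ZZ_fin re_lt_one)

noncomputable section

lemma short_count : ∃ C : ℝ, 0 < C ∧ ∀ T H : ℝ, 4 ≤ T → 1 ≤ H → H ≤ T → ∀ S : Finset ℂ,
    (∀ ρ ∈ S, 1 / 2 ≤ ρ.re ∧ ρ.re ≤ 1 ∧ T < ρ.im ∧ ρ.im ≤ T + H) →
    ∑ ρ ∈ S, (analyticOrderNatAt riemannZeta ρ : ℝ) ≤ C * H * Real.log T := by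
  obtain ⟨C, hC, hU⟩ := unit_count
  refine ⟨4 * C, by positivity, fun T H hT hH1 hHT S hS => ?_⟩
  have hT0 : 0 < T := by linarith
  have hlog : 0 < Real.log T := Real.log_pos (by linarith)
  classical
  have hmaps : ∀ ρ ∈ S, ⌊ρ.im - T⌋₊ ∈ Finset.range (⌊H⌋₊ + 1) := by
    intro ρ hρ
    rw [Finset.mem_range]
    have h2 : ρ.im - T ≤ H := by linarith [(hS ρ hρ).2.2.2]
    have := Nat.floor_le_floor h2
    omega
  rw [← Finset.sum_fiberwise_of_maps_to hmaps]
  have hterm : ∀ n ∈ Finset.range (⌊H⌋₊ + 1), ∑ ρ ∈ S with ⌊ρ.im - T⌋₊ = n, (analyticOrderNatAt riemannZeta ρ : ℝ) ≤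
      2 * C * Real.log T := by
    intro n hn
    rw [Finset.mem_range] at hn
    have hnH : (n:ℝ) ≤ H := by
      have h1 : n ≤ ⌊H⌋₊ := by omega
      exact (by exact_mod_cast h1 : (n:ℝ) ≤ ⌊H⌋₊).trans (Nat.floor_le (by linarith))
    have hn0 : (0:ℝ) ≤ n := Nat.cast_nonneg n
    have h5 := hU (T + n + 1 / 2) (by linarith) (S.filter fun ρ => ⌊ρ.im - T⌋₊ = n) (fun ρ hρ => by
      rw [Finset.mem_filter] at hρ
      obtain ⟨h6, h7⟩ := hρ
      obtain ⟨g1, g2, g3, g4⟩ := hS ρ h6
      have h8 := Nat.lt_floor_add_one (ρ.im - T)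
      have h9 := Nat.floor_le (show 0 ≤ ρ.im - T by linarith)
      rw [h7] at h8 h9
      refine ⟨g1, g2, ?_⟩
      rw [abs_le]; constructor <;> linarith)
    refine h5.trans ?_
    have h6 : Real.log (T + n + 1 / 2) ≤ 2 * Real.log T := by
      have : 2 * Real.log T = Real.log (T ^ 2) := by rw [Real.log_pow]; push_cast; ring
      rw [this]
      apply Real.log_le_log (by linarith)
      nlinarith
    calc C * Real.log (T + n + 1 / 2) ≤ C * (2 * Real.log T) := by gcongr
      _ = _ := by ring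
  refine (Finset.sum_le_sum hterm).trans ?_
  rw [Finset.sum_const, Finset.card_range, nsmul_eq_mul]
  have hfl : ((⌊H⌋₊ + 1 : ℕ) : ℝ) ≤ 2 * H := by
    push_cast
    have := Nat.floor_le (show 0 ≤ H by linarith)
    linarith
  calc ((⌊H⌋₊ + 1 : ℕ) : ℝ) * (2 * C * Real.log T) ≤ 2 * H * (2 * C * Real.log T) := by gcongr
    _ = _ := by ring

/-- from short windows to all intervals -/
theorem assemble {φ : ℝ → ℝ} (h0 : φ (1 / 2) = 0)
    (hφ : ∀ x y : ℝ, 1 / 2 ≤ x → x ≤ y → y ≤ 1 → φ x ≤ φ y ∧ φ y ≤ φ x + 4 * (y - x)) (hφ1 : φ 1 ≤ 1)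
    (hW : ∀ q0 : ℝ, 1 / 2 ≤ q0 → q0 < 1 → ∀ h1 : ℝ, 27 / 82 < h1 → h1 < 1 / 2 →
      ∃ C : ℝ, 0 < C ∧ ∀ᶠ T : ℝ in atTop, ∀ V H : ℝ, T ≤ V → V ≤ 2 * T → T ^ h1 ≤ H → H ≤ T / (4 * Real.log T) →
      ∀ σ : ℝ, 1 / 2 ≤ σ → σ ≤ 1 → ∀ S : Finset ℂ,
      (∀ ρ ∈ S, σ + 1 / Real.log T ≤ ρ.re ∧ ρ.re ≤ 1 ∧ |ρ.im - V| ≤ H / 2) →
      ∑ ρ ∈ S, (analyticOrderNatAt riemannZeta ρ : ℝ) ≤ C * H * Real.log T * Real.exp (-(q0 * φ σ * Real.log H))) :
    ∀ ε : ℝ, 0 < ε → ∃ C : ℝ, 0 < C ∧ ∀ T H σ : ℝ, 2 ≤ T → T ^ (27 / 82 + ε) ≤ H → H ≤ T → 1 / 2 ≤ σ → σ ≤ 1 →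
      ∀ S : Finset ℂ, (∀ ρ ∈ S, riemannZeta ρ = 0 ∧ σ ≤ ρ.re ∧ T < ρ.im ∧ ρ.im ≤ T + H) →
      ∑ ρ ∈ S, (analyticOrderNatAt riemannZeta ρ : ℝ) ≤ C * H ^ (1 - (1 - ε) * φ σ) * Real.log T := by
  intro ε0 hε0
  set ε := min ε0 (1 / 4) with hε
  have hεp : 0 < ε := lt_min hε0 (by norm_num)
  have hε4 : ε ≤ 1 / 4 := min_le_right _ _
  have hεε : ε ≤ ε0 := min_le_left _ _
  obtain ⟨C1, hC1, hw⟩ := hW (1 - ε / 2) (by linarith) (by linarith) (27 / 82 + ε / 2) (by linarith) (by linarith)
  obtain ⟨C2, hC2, hsc⟩ := short_count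
  -- large heights
  have hlogT : ∀ a : ℝ, 0 < a → ∀ᶠ T : ℝ in atTop, 5 * Real.log T ≤ T ^ a := by
    intro a ha
    have h := (isLittleO_log_rpow_atTop ha).bound (show (0:ℝ) < 1 / 5 by norm_num)
    filter_upwards [h, eventually_ge_atTop 1] with T hT hT1
    rw [Real.norm_eq_abs, Real.norm_eq_abs, abs_of_nonneg (Real.log_nonneg hT1),
      abs_of_nonneg (Real.rpow_nonneg (by linarith) _)] at hT
    linarith
  have hev := (hw.and ((hlogT (ε / 2) (by linarith)).and ((hlogT (ε / 8) (by linarith)).and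
    (Real.tendsto_log_atTop.eventually_ge_atTop 4))))
  obtain ⟨T0, hT0⟩ := eventually_atTop.mp hev
  set T1 := max T0 4 with hT1
  set M : ℝ := ∑ ρ ∈ (ZZ_fin (1 / 2) (2 * T1)).toFinset, (analyticOrderNatAt riemannZeta ρ : ℝ) with hM
  have hM0 : 0 ≤ M := Finset.sum_nonneg fun ρ _ => Nat.cast_nonneg _
  have hl2 : 0 < Real.log 2 := Real.log_pos (by norm_num)
  refine ⟨M / Real.log 2 + C2 * Real.exp 4 + C1 * Real.exp 4, by positivity, ?_⟩
  intro T H σ hT2 hH1 hHT hσ1 hσ2 S hS
  have hTpos : 0 < T := by linarith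
  have hH1' : T ^ (27 / 82 + ε) ≤ H := (Real.rpow_le_rpow_of_exponent_le (by linarith) (by linarith)).trans hH1
  have hHge : 1 ≤ H := (Real.one_le_rpow (by linarith) (by linarith)).trans hH1'
  have hHpos : 0 < H := by linarith
  have hφ0 : 0 ≤ φ σ := by
    have := (hφ (1 / 2) σ le_rfl hσ1 hσ2).1
    rw [h0] at this; exact this
  have hφle : φ σ ≤ 1 := ((hφ σ 1 hσ1 hσ2 le_rfl).1).trans hφ1
  have hlT : 0 < Real.log T := Real.log_pos (by linarith)
  -- it is enough to treat the smaller epsilon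
  suffices hgoal : ∑ ρ ∈ S, (analyticOrderNatAt riemannZeta ρ : ℝ) ≤
      (M / Real.log 2 + C2 * Real.exp 4 + C1 * Real.exp 4) * H ^ (1 - (1 - ε) * φ σ) * Real.log T by
    refine hgoal.trans ?_
    have : H ^ (1 - (1 - ε) * φ σ) ≤ H ^ (1 - (1 - ε0) * φ σ) := by
      apply Real.rpow_le_rpow_of_exponent_le hHge
      have : (1 - ε0) * φ σ ≤ (1 - ε) * φ σ := mul_le_mul_of_nonneg_right (by linarith) hφ0
      linarith
    gcongr
  set α := 1 - (1 - ε) * φ σ with hα
  have hα0 : 0 ≤ α := by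
    rw [hα]
    have : (1 - ε) * φ σ ≤ 1 * 1 := mul_le_mul (by linarith) hφle hφ0 (by norm_num)
    linarith
  have hHα1 : 1 ≤ H ^ α := Real.one_le_rpow hHge hα0
  rcases lt_or_ge T T1 with hlt | hge
  · -- small heights
    have h1 : ∑ ρ ∈ S, (analyticOrderNatAt riemannZeta ρ : ℝ) ≤ M := by
      apply Finset.sum_le_sum_of_subset_of_nonneg
      · intro ρ hρ
        obtain ⟨g1, g2, g3, g4⟩ := hS ρ hρ
        rw [Set.Finite.mem_toFinset]
        exact ⟨g1, by linarith, by linarith, by linarith⟩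
      · intro ρ _ _
        positivity
    refine h1.trans ?_
    have h2 : Real.log 2 ≤ Real.log T := Real.log_le_log (by norm_num) hT2
    calc M = M / Real.log 2 * 1 * Real.log 2 := by field_simp
      _ ≤ (M / Real.log 2 + C2 * Real.exp 4 + C1 * Real.exp 4) * H ^ α * Real.log T := by
        gcongr
        have : 0 ≤ C2 * Real.exp 4 + C1 * Real.exp 4 := by positivity
        linarith
  · have hT4 : 4 ≤ T := (le_max_right T0 4).trans hge
    obtain ⟨hw, hlog2, hlog3, hL4⟩ := hT0 T ((le_max_left T0 4).trans hge)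
    set L := Real.log T with hL
    have hL0 : 0 < L := by linarith
    set l := Real.log H with hl
    have hl0 : 0 ≤ l := Real.log_nonneg hHge
    have hlL : l ≤ L := Real.log_le_log hHpos hHT
    have hHα : H ^ α = H * Real.exp (-((1 - ε) * φ σ * l)) := by
      rw [hα, Real.rpow_sub hHpos, Real.rpow_one, Real.rpow_def_of_pos hHpos, Real.exp_neg]
      rw [div_eq_mul_inv]
      congr 3
      ring
    rcases lt_or_ge σ (1 / 2 + 1 / L) with hs | hs
    · -- very close to the line
      have h1 := hsc T H hT4 hHge hHT S (fun ρ hρ => by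
        obtain ⟨g1, g2, g3, g4⟩ := hS ρ hρ
        exact ⟨by linarith, (re_lt_one g1).le, g3, g4⟩)
      refine h1.trans ?_
      have h2 : φ σ ≤ 4 / L := by
        have h3 := (hφ (1 / 2) σ le_rfl hσ1 hσ2).2
        rw [h0] at h3
        have h4 : 4 * (σ - 1 / 2) ≤ 4 * (1 / L) := by linarith
        have h5 : 4 * (1 / L) = 4 / L := by ring
        linarith
      have h3 : Real.exp (-4) ≤ Real.exp (-((1 - ε) * φ σ * l)) := by
        apply Real.exp_le_exp.mpr
        have h4 : (1 - ε) * φ σ * l ≤ 1 * (4 / L) * L := by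
          gcongr
          linarith
        have h5 : 1 * (4 / L) * L = 4 := by field_simp
        linarith
      have h4 : H ≤ Real.exp 4 * H ^ α := by
        rw [hHα]
        calc H = Real.exp 4 * (H * Real.exp (-4)) := by
              rw [mul_comm H, ← mul_assoc, ← Real.exp_add]; norm_num
          _ ≤ _ := by gcongr
      calc C2 * H * L ≤ C2 * (Real.exp 4 * H ^ α) * L := by gcongr
        _ = C2 * Real.exp 4 * H ^ α * L := by ring
        _ ≤ (M / Real.log 2 + C2 * Real.exp 4 + C1 * Real.exp 4) * H ^ α * L := by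
          gcongr
          have : 0 ≤ M / Real.log 2 + C1 * Real.exp 4 := by positivity
          linarith
    · -- the main case
      set n : ℕ := ⌈4 * L⌉₊ with hn
      have hn1 : 4 * L ≤ n := Nat.le_ceil _
      have hn2 : (n:ℝ) ≤ 5 * L := by
        have := (Nat.ceil_lt_add_one (show 0 ≤ 4 * L by positivity)).le
        rw [← hn] at this
        linarith
      have hnpos : (0:ℝ) < n := by linarith
      set H' := H / n with hH'
      have hH'pos : 0 < H' := by positivity
      have hH'n : n * H' = H := by rw [hH']; field_simp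
      have hH'u : H' ≤ T / (4 * L) := by
        rw [hH']
        exact div_le_div₀ hTpos.le hHT (by positivity) hn1
      have hH'l : T ^ (27 / 82 + ε / 2) ≤ H' := by
        rw [hH', le_div_iff₀ hnpos]
        calc T ^ (27 / 82 + ε / 2) * n ≤ T ^ (27 / 82 + ε / 2) * T ^ (ε / 2) := by
              gcongr
              exact hn2.trans hlog2
          _ = T ^ (27 / 82 + ε) := by rw [← Real.rpow_add hTpos]; congr 1; ring
          _ ≤ H := hH1'
      have hlH' : (1 - ε / 2) * l ≤ Real.log H' := by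
        rw [hH', Real.log_div hHpos.ne' hnpos.ne']
        have h2 : Real.log n ≤ ε / 2 * l := by
          have h3 : (n:ℝ) ≤ T ^ (ε / 8) := hn2.trans hlog3
          have h4 := Real.log_le_log hnpos h3
          rw [Real.log_rpow hTpos, ← hL] at h4
          have h5 : L * (27 / 82) ≤ l := by
            have h6 := Real.log_le_log (by positivity) hH1'
            rw [Real.log_rpow hTpos, ← hL, ← hl] at h6
            nlinarith
          nlinarith
        linarith
      have hinv : 0 < 1 / L := by positivity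
      -- each window
      have hwin : ∀ j ∈ Finset.range n, ∑ ρ ∈ S with ⌊(ρ.im - T) / H'⌋₊ = j ∨ (j + 1 = n ∧ ⌊(ρ.im - T) / H'⌋₊ = n),
          (analyticOrderNatAt riemannZeta ρ : ℝ) ≤ C1 * H' * L * Real.exp (-((1 - ε / 2) * φ (σ - 1 / L) * Real.log H')) := by
        intro j hj
        rw [Finset.mem_range] at hj
        have hj1 : (j:ℝ) + 1 ≤ n := by exact_mod_cast hj
        have hj0 : (0:ℝ) ≤ j := Nat.cast_nonneg j
        have hjH : (j + 1) * H' ≤ H := by
          calc ((j:ℝ) + 1) * H' ≤ n * H' := by gcongr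
            _ = H := hH'n
        refine hw (T + (j + 1 / 2) * H') H' ?_ ?_ hH'l hH'u (σ - 1 / L) (by linarith) (by linarith) _ ?_
        · have : 0 ≤ ((j:ℝ) + 1 / 2) * H' := by positivity
          linarith
        · nlinarith
        · intro ρ hρ
          rw [Finset.mem_filter] at hρ
          obtain ⟨hρS, hρj⟩ := hρ
          obtain ⟨g1, g2, g3, g4⟩ := hS ρ hρS
          refine ⟨by linarith, (re_lt_one g1).le, ?_⟩
          set x := (ρ.im - T) / H' with hx
          have hxim : ρ.im = T + x * H' := by rw [hx]; field_simp; ring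
          have hx0 : 0 ≤ x := div_nonneg (by linarith) hH'pos.le
          have hxn : x ≤ n := by
            rw [hx, div_le_iff₀ hH'pos, hH'n]; linarith
          have hxj : (j:ℝ) ≤ x ∧ x ≤ j + 1 := by
            rcases hρj with h | ⟨h, h'⟩
            · have e1 := Nat.floor_le hx0
              have e2 := Nat.lt_floor_add_one x
              rw [h] at e1 e2
              exact ⟨e1, e2.le⟩
            · have e1 := Nat.floor_le hx0
              rw [h'] at e1
              have e3 : (j:ℝ) + 1 = n := by exact_mod_cast h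
              exact ⟨by linarith, by linarith⟩
          rw [hxim, abs_le]
          constructor <;> nlinarith [hxj.1, hxj.2]
      have hcov : ∑ ρ ∈ S, (analyticOrderNatAt riemannZeta ρ : ℝ) ≤
          ∑ j ∈ Finset.range n, ∑ ρ ∈ S with ⌊(ρ.im - T) / H'⌋₊ = j ∨ (j + 1 = n ∧ ⌊(ρ.im - T) / H'⌋₊ = n),
          (analyticOrderNatAt riemannZeta ρ : ℝ) := by
        simp_rw [Finset.sum_filter]
        rw [Finset.sum_comm]
        refine Finset.sum_le_sum fun ρ hρ => ?_
        obtain ⟨g1, g2, g3, g4⟩ := hS ρ hρ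
        set x := (ρ.im - T) / H' with hx
        have hx0 : 0 ≤ x := div_nonneg (by linarith) hH'pos.le
        have hxn : x ≤ n := by
          rw [hx, div_le_iff₀ hH'pos, hH'n]; linarith
        have hfl : ⌊x⌋₊ ≤ n := by
          have := Nat.floor_le_floor hxn
          rwa [Nat.floor_natCast] at this
        have hn1' : 1 ≤ n := by
          have : (0:ℝ) < n := hnpos
          exact_mod_cast this
        have hnn : ∀ j ∈ Finset.range n, (0:ℝ) ≤ if ⌊x⌋₊ = j ∨ (j + 1 = n ∧ ⌊x⌋₊ = n) then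
            (analyticOrderNatAt riemannZeta ρ : ℝ) else 0 := by
          intro j _
          split_ifs
          · positivity
          · exact le_rfl
        rcases hfl.eq_or_lt with h | h
        · refine le_trans ?_ (Finset.single_le_sum hnn (Finset.mem_range.mpr (show n - 1 < n by omega)))
          rw [if_pos (Or.inr ⟨by omega, h⟩)]
        · refine le_trans ?_ (Finset.single_le_sum hnn (Finset.mem_range.mpr h))
          rw [if_pos (Or.inl rfl)]
      refine hcov.trans ((Finset.sum_le_sum hwin).trans ?_)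
      rw [Finset.sum_const, Finset.card_range, nsmul_eq_mul]
      have hE : Real.exp (-((1 - ε / 2) * φ (σ - 1 / L) * Real.log H')) ≤ Real.exp 4 * Real.exp (-((1 - ε) * φ σ * l)) := by
        rw [← Real.exp_add]
        apply Real.exp_le_exp.mpr
        have h3 := (hφ (σ - 1 / L) σ (by linarith) (by linarith) hσ2).2
        have h4 : σ - (σ - 1 / L) = 1 / L := by ring
        rw [h4] at h3
        have hφ' : 0 ≤ φ (σ - 1 / L) := by
          have := (hφ (1 / 2) (σ - 1 / L) le_rfl (by linarith) (by linarith)).1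
          rw [h0] at this; exact this
        have h5 : (1 - ε / 2) * φ (σ - 1 / L) * ((1 - ε / 2) * l) ≤ (1 - ε / 2) * φ (σ - 1 / L) * Real.log H' := by
          apply mul_le_mul_of_nonneg_left hlH'
          apply mul_nonneg (by linarith) hφ'
        have h6 : (1 - ε) * φ (σ - 1 / L) * l ≤ (1 - ε / 2) * φ (σ - 1 / L) * ((1 - ε / 2) * l) := by
          have e1 : (1 - ε / 2) * φ (σ - 1 / L) * ((1 - ε / 2) * l) = ((1 - ε / 2) * (1 - ε / 2)) * (φ (σ - 1 / L) * l) := by ring
          have e2 : (1 - ε) * φ (σ - 1 / L) * l = (1 - ε) * (φ (σ - 1 / L) * l) := by ring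
          rw [e1, e2]
          apply mul_le_mul_of_nonneg_right _ (mul_nonneg hφ' hl0)
          nlinarith [sq_nonneg ε]
        have h7 : (1 - ε) * φ σ * l ≤ (1 - ε) * φ (σ - 1 / L) * l + 4 := by
          have e1 : (1 - ε) * φ σ * l ≤ (1 - ε) * (φ (σ - 1 / L) + 4 * (1 / L)) * l := by
            apply mul_le_mul_of_nonneg_right _ hl0
            apply mul_le_mul_of_nonneg_left h3 (by linarith)
          have e2 : (1 - ε) * (4 * (1 / L)) * l ≤ 1 * (4 * (1 / L)) * L := by
            gcongr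
            linarith
          have e3 : 1 * (4 * (1 / L)) * L = 4 := by field_simp
          nlinarith
        linarith
      calc (n:ℝ) * (C1 * H' * L * Real.exp (-((1 - ε / 2) * φ (σ - 1 / L) * Real.log H')))
          = C1 * (n * H') * L * Real.exp (-((1 - ε / 2) * φ (σ - 1 / L) * Real.log H')) := by ring
        _ ≤ C1 * (n * H') * L * (Real.exp 4 * Real.exp (-((1 - ε) * φ σ * l))) := by gcongr
        _ = C1 * Real.exp 4 * (H * Real.exp (-((1 - ε) * φ σ * l))) * L := by rw [hH'n]; ring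
        _ = C1 * Real.exp 4 * H ^ α * L := by rw [hHα]
        _ ≤ (M / Real.log 2 + C2 * Real.exp 4 + C1 * Real.exp 4) * H ^ α * L := by
          gcongr
          have : 0 ≤ M / Real.log 2 + C2 * Real.exp 4 := by positivity
          linarith

end

end Pool.Agent.Zk6
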