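import Pool.Agent.H448R2.GC.MV
import Pool.Agent.Y24.D4

set_option autoImplicit false

/-!
A mean value theorem for long Dirichlet polynomials with a Gaussian weight.
-/

namespace Pool.Agent.Zk6

open Finset Filter MeasureTheory Complex
open Pool.Agent.H448R2.GC (gw)

noncomputable section

lemma geo_abs {c : ℝ} (hc : 0 < c) (S : Finset ℕ) (n : ℕ) :
    ∑ m ∈ S, Real.exp (-(c * |(m:ℝ) - n|)) ≤ 2 * (1 + 1 / c) := by
  classical
  have hx1 : Real.exp (-c) < 1 := Real.exp_lt_one_iff.mpr (by linarith)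
  have hx0 : 0 < Real.exp (-c) := Real.exp_pos _
  have hgeo : (1 - Real.exp (-c))⁻¹ ≤ 1 + 1 / c := by
    rw [inv_le_comm₀ (by linarith) (by positivity)]
    have h1 : Real.exp (-c) ≤ 1 / (1 + c) := by
      rw [Real.exp_neg, ← one_div]
      apply one_div_le_one_div_of_le (by positivity)
      have := Real.add_one_le_exp c
      linarith
    have h2 : (1 + 1 / c)⁻¹ = 1 - 1 / (1 + c) := by field_simp; ring
    rw [h2]; linarith
  have hone : ∀ R : ℕ, ∑ j ∈ range R, Real.exp (-c) ^ j ≤ 1 + 1 / c := by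
    intro R
    refine le_trans ?_ hgeo
    rw [← tsum_geometric_of_lt_one hx0.le hx1]
    exact (summable_geometric_of_lt_one hx0.le hx1).sum_le_tsum _ (fun _ _ => by positivity)
  obtain ⟨R, hR⟩ : ∃ R : ℕ, ∀ m ∈ S, m < R := ⟨S.sup id + 1, fun m hm => Nat.lt_succ_of_le (Finset.le_sup (f := id) hm)⟩
  rw [← sum_filter_add_sum_filter_not S (fun m => n ≤ m)]
  have h1 : ∑ m ∈ S with n ≤ m, Real.exp (-(c * |(m:ℝ) - n|)) ≤ 1 + 1 / c := by
    refine le_trans ?_ (hone R)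
    calc ∑ m ∈ S with n ≤ m, Real.exp (-(c * |(m:ℝ) - n|)) = ∑ m ∈ S with n ≤ m, Real.exp (-c) ^ (m - n) := by
          refine sum_congr rfl fun m hm => ?_
          have hm2 := (mem_filter.mp hm).2
          rw [← Real.exp_nat_mul, Nat.cast_sub hm2, abs_of_nonneg (by
            have : (n:ℝ) ≤ m := by exact_mod_cast hm2
            linarith)]
          congr 1; ring
      _ ≤ ∑ j ∈ range R, Real.exp (-c) ^ j := by
          rw [← Finset.sum_image (s := S.filter fun m => n ≤ m) (g := fun m => m - n) (f := fun j => Real.exp (-c) ^ j)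
            (fun m hm m' hm' hmm => by
              have h1 := (mem_filter.mp hm).2
              have h2 := (mem_filter.mp hm').2
              simp only at hmm
              omega)]
          refine Finset.sum_le_sum_of_subset_of_nonneg (fun j hj => ?_) (fun i _ _ => by positivity)
          obtain ⟨m, hm, rfl⟩ := mem_image.mp hj
          have hm1 := hR m (mem_filter.mp hm).1
          rw [mem_range]
          omega
  have h2 : ∑ m ∈ S with ¬ n ≤ m, Real.exp (-(c * |(m:ℝ) - n|)) ≤ 1 + 1 / c := by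
    refine le_trans ?_ (hone (n + 1))
    calc ∑ m ∈ S with ¬ n ≤ m, Real.exp (-(c * |(m:ℝ) - n|)) = ∑ m ∈ S with ¬ n ≤ m, Real.exp (-c) ^ (n - m) := by
          refine sum_congr rfl fun m hm => ?_
          have hm2 := (mem_filter.mp hm).2
          have hm3 : m ≤ n := by omega
          rw [← Real.exp_nat_mul, Nat.cast_sub hm3, abs_of_nonpos (by
            have : (m:ℝ) ≤ n := by exact_mod_cast hm3
            linarith)]
          congr 1; ring
      _ ≤ ∑ j ∈ range (n + 1), Real.exp (-c) ^ j := by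
          rw [← Finset.sum_image (s := S.filter fun m => ¬ n ≤ m) (g := fun m => n - m) (f := fun j => Real.exp (-c) ^ j)
            (fun m hm m' hm' hmm => by
              have h1 := (mem_filter.mp hm).2
              have h2 := (mem_filter.mp hm').2
              simp only at hmm
              omega)]
          refine Finset.sum_le_sum_of_subset_of_nonneg (fun j hj => ?_) (fun i _ _ => by positivity)
          obtain ⟨m, hm, rfl⟩ := mem_image.mp hj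
          rw [mem_range]
          omega
  linarith

/-- lower bound for the difference of logarithms -/
lemma log_near {m n : ℕ} (hm : 1 ≤ m) (hn : 1 ≤ n) (hmn : m ≤ 2 * n) :
    |(m:ℝ) - n| / (2 * n) ≤ |Real.log m - Real.log n| := by
  have hm0 : (0 : ℝ) < m := by exact_mod_cast hm
  have hn0 : (0 : ℝ) < n := by exact_mod_cast hn
  have hmn' : (m:ℝ) ≤ 2 * n := by exact_mod_cast hmn
  rcases le_total (m:ℝ) n with h | h
  · have h1 := Real.one_sub_inv_le_log_of_pos (div_pos hn0 hm0)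
    rw [Real.log_div hn0.ne' hm0.ne', inv_div] at h1
    rw [abs_of_nonpos (by linarith), abs_sub_comm]
    refine le_trans ?_ (le_abs_self _)
    refine le_trans ?_ h1
    rw [div_le_iff₀ (by positivity)]
    have : (1 - (m:ℝ) / n) * (2 * n) = 2 * (n - m) := by field_simp
    rw [this]; linarith
  · have h1 := Real.one_sub_inv_le_log_of_pos (div_pos hm0 hn0)
    rw [Real.log_div hm0.ne' hn0.ne', inv_div] at h1
    rw [abs_of_nonneg (by linarith)]
    refine le_trans ?_ (le_abs_self _)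
    refine le_trans ?_ h1
    rw [div_le_iff₀ (by positivity)]
    have h2 : (1 - (n:ℝ) / m) * (2 * n) = (m - n) * (2 * n / m) := by field_simp
    rw [h2]
    have h3 : 1 ≤ 2 * (n:ℝ) / m := by rw [le_div_iff₀ hm0]; linarith
    nlinarith

lemma log_far {m n : ℕ} (hm : 1 ≤ m) (hn : 1 ≤ n) (hmn : 2 * n < m ∨ 2 * m < n) :
    Real.log 2 ≤ |Real.log m - Real.log n| := by
  have hm0 : (0 : ℝ) < m := by exact_mod_cast hm
  have hn0 : (0 : ℝ) < n := by exact_mod_cast hn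
  rcases hmn with h | h
  · have h' : 2 * (n:ℝ) ≤ m := by exact_mod_cast h.le
    have h1 := Real.log_le_log (by positivity) h'
    rw [Real.log_mul (by norm_num) hn0.ne'] at h1
    exact le_trans (by linarith) (le_abs_self _)
  · have h' : 2 * (m:ℝ) ≤ n := by exact_mod_cast h.le
    have h1 := Real.log_le_log (by positivity) h'
    rw [Real.log_mul (by norm_num) hm0.ne'] at h1
    rw [abs_sub_comm]
    exact le_trans (by linarith) (le_abs_self _)

/-- the kernel -/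
lemma ker_le {Δ : ℝ} (hΔ : 0 < Δ) {m n : ℕ} (hm : 1 ≤ m) (hn : 1 ≤ n) (hmn : m ≤ 2 * n) :
    Real.exp (-(Δ ^ 2 * (Real.log m - Real.log n) ^ 2 / 4)) ≤
      Real.exp 1 * Real.exp (-(Δ / (4 * n) * |(m:ℝ) - n|)) := by
  have hn0 : (0 : ℝ) < n := by exact_mod_cast hn
  rw [← Real.exp_add]
  apply Real.exp_le_exp.mpr
  have h1 := log_near hm hn hmn
  set x := Δ / (4 * n) * |(m:ℝ) - n| with hx
  have hx0 : 0 ≤ x := by positivity
  have h2 : x ^ 2 ≤ Δ ^ 2 * (Real.log m - Real.log n) ^ 2 / 4 := by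
    have h3 : x = Δ / 2 * (|(m:ℝ) - n| / (2 * n)) := by rw [hx]; field_simp; ring
    have h4 : x ≤ Δ / 2 * |Real.log m - Real.log n| := by
      rw [h3]; exact mul_le_mul_of_nonneg_left h1 (by positivity)
    calc x ^ 2 ≤ (Δ / 2 * |Real.log m - Real.log n|) ^ 2 := pow_le_pow_left₀ hx0 h4 2
      _ = _ := by rw [mul_pow, sq_abs]; ring
  nlinarith [sq_nonneg (x - 1)]

/-- the mean value theorem -/
theorem mvG (S : Finset ℕ) (hS : ∀ n ∈ S, 1 ≤ n) (a : ℕ → ℂ) (τ : ℝ) {Δ : ℝ} (hΔ : 0 < Δ) :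
    ∫ t : ℝ, gw τ Δ t * ‖∑ n ∈ S, a n * (n : ℂ) ^ (-((t : ℂ) * I))‖ ^ 2 ≤
      2 * Real.exp 1 * ∑ n ∈ S, ‖a n‖ ^ 2 * (1 + 4 * n / Δ) + (∑ n ∈ S, ‖a n‖) ^ 2 * Real.exp (-(Δ ^ 2 / 9)) := by
  set κ : ℕ → ℕ → ℝ := fun n m => Real.exp (-(Δ ^ 2 * (Real.log m - Real.log n) ^ 2 / 4)) with hκ
  have hi : ∀ n ∈ S, ∀ m ∈ S, Integrable (fun t : ℝ => (a n * (starRingEnd ℂ) (a m)) *
      ((gw τ Δ t : ℂ) * cexp (I * ((Real.log m - Real.log n : ℝ) : ℂ) * t))) :=
    fun n _ m _ => (Pool.Agent.H448R2.GC.MV.ptint τ Δ hΔ _).const_mul _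
  have hexp := fun t : ℝ => Pool.Agent.H448R2.GC.MV.expand S S hS hS a a τ Δ t
  have e1 : ((∫ t : ℝ, gw τ Δ t * ‖∑ n ∈ S, a n * (n : ℂ) ^ (-((t : ℂ) * I))‖ ^ 2 : ℝ) : ℂ) =
      ∑ n ∈ S, ∑ m ∈ S, (a n * (starRingEnd ℂ) (a m)) *
      (cexp (I * ((Real.log m - Real.log n : ℝ) : ℂ) * τ) * ((κ n m : ℝ) : ℂ)) := by
    rw [← integral_complex_ofReal]
    have e2 : ∀ t : ℝ, (((gw τ Δ t * ‖∑ n ∈ S, a n * (n : ℂ) ^ (-((t : ℂ) * I))‖ ^ 2 : ℝ)) : ℂ) =
        ∑ n ∈ S, ∑ m ∈ S, (a n * (starRingEnd ℂ) (a m)) *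
        ((gw τ Δ t : ℂ) * cexp (I * ((Real.log m - Real.log n : ℝ) : ℂ) * t)) := by
      intro t
      rw [← hexp t, Complex.mul_conj, Complex.normSq_eq_norm_sq]
      push_cast; rfl
    simp_rw [e2]
    rw [integral_finsetSum _ (fun n hn => integrable_finsetSum _ (hi n hn))]
    refine sum_congr rfl fun n hn => ?_
    rw [integral_finsetSum _ (hi n hn)]
    refine sum_congr rfl fun m hm => ?_
    rw [integral_const_mul, Pool.Agent.H448R2.GC.MV.gint _ τ Δ hΔ]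
  have h0 : 0 ≤ ∫ t : ℝ, gw τ Δ t * ‖∑ n ∈ S, a n * (n : ℂ) ^ (-((t : ℂ) * I))‖ ^ 2 :=
    integral_nonneg fun t => mul_nonneg (Pool.Agent.H448R2.GC.gw_nonneg τ Δ t hΔ) (by positivity)
  have h1 : ∫ t : ℝ, gw τ Δ t * ‖∑ n ∈ S, a n * (n : ℂ) ^ (-((t : ℂ) * I))‖ ^ 2 ≤
      ∑ n ∈ S, ∑ m ∈ S, ‖a n‖ * ‖a m‖ * κ n m := by
    have h2 := congrArg norm e1
    rw [Complex.norm_real, Real.norm_eq_abs, abs_of_nonneg h0] at h2
    rw [h2]
    refine (norm_sum_le _ _).trans (sum_le_sum fun n hn => ?_)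
    refine (norm_sum_le _ _).trans (sum_le_sum fun m hm => ?_)
    rw [norm_mul, norm_mul, RCLike.norm_conj, norm_mul]
    have h3 : ‖cexp (I * ((Real.log m - Real.log n : ℝ) : ℂ) * τ)‖ = 1 := by
      rw [mul_assoc, ← Complex.ofReal_mul, mul_comm]
      exact Complex.norm_exp_ofReal_mul_I _
    rw [h3, one_mul, Complex.norm_real, Real.norm_eq_abs, abs_of_pos (Real.exp_pos _)]
  refine h1.trans ?_
  -- symmetry of the kernel
  have hκs : ∀ n m, κ n m = κ m n := by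
    intro n m
    rw [hκ]; simp only
    congr 2; ring
  set u : ℕ → ℕ → ℝ := fun n m => Real.exp 1 * Real.exp (-(Δ / (4 * n) * |(m:ℝ) - n|)) with hu
  have hu0 : ∀ n m, 0 ≤ u n m := fun n m => by rw [hu]; positivity
  have hpt : ∀ n ∈ S, ∀ m ∈ S, ‖a n‖ * ‖a m‖ * κ n m ≤ 1 / 2 * (‖a n‖ ^ 2 * u n m) + 1 / 2 * (‖a m‖ ^ 2 * u m n) +
      ‖a n‖ * ‖a m‖ * Real.exp (-(Δ ^ 2 / 9)) := by
    intro n hn m hm
    have hn1 := hS n hn
    have hm1 := hS m hm
    have a1 : 0 ≤ ‖a n‖ := norm_nonneg _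
    have a2 : 0 ≤ ‖a m‖ := norm_nonneg _
    have a3 : 0 ≤ ‖a n‖ * ‖a m‖ * Real.exp (-(Δ ^ 2 / 9)) := by positivity
    have a4 : 0 ≤ 1 / 2 * (‖a n‖ ^ 2 * u n m) := by have := hu0 n m; positivity
    have a5 : 0 ≤ 1 / 2 * (‖a m‖ ^ 2 * u m n) := by have := hu0 m n; positivity
    by_cases hnear : m ≤ 2 * n ∧ n ≤ 2 * m
    · have k1 : κ n m ≤ u n m := ker_le hΔ hm1 hn1 hnear.1
      have k2 : κ n m ≤ u m n := by rw [hκs]; exact ker_le hΔ hn1 hm1 hnear.2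
      have k0 : 0 ≤ κ n m := (Real.exp_pos _).le
      have h3 : ‖a n‖ * ‖a m‖ * κ n m ≤ 1 / 2 * (‖a n‖ ^ 2 * κ n m) + 1 / 2 * (‖a m‖ ^ 2 * κ n m) := by
        nlinarith [mul_nonneg (sq_nonneg (‖a n‖ - ‖a m‖)) k0]
      have h4 : ‖a n‖ ^ 2 * κ n m ≤ ‖a n‖ ^ 2 * u n m := mul_le_mul_of_nonneg_left k1 (by positivity)
      have h5 : ‖a m‖ ^ 2 * κ n m ≤ ‖a m‖ ^ 2 * u m n := mul_le_mul_of_nonneg_left k2 (by positivity)
      linarith
    · have hfar : 2 * n < m ∨ 2 * m < n := by omega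
      have h3 := log_far hm1 hn1 hfar
      have h4 : κ n m ≤ Real.exp (-(Δ ^ 2 / 9)) := by
        apply Real.exp_le_exp.mpr
        have h5 : (0.69:ℝ) ^ 2 ≤ (Real.log m - Real.log n) ^ 2 := by
          rw [← sq_abs (Real.log m - Real.log n)]
          refine pow_le_pow_left₀ (by norm_num) (le_trans ?_ h3) 2
          have := Real.log_two_gt_d9
          linarith
        have h6 : Δ ^ 2 * (0.69:ℝ) ^ 2 ≤ Δ ^ 2 * (Real.log m - Real.log n) ^ 2 :=
          mul_le_mul_of_nonneg_left h5 (by positivity)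
        nlinarith [sq_nonneg Δ]
      have h5 : ‖a n‖ * ‖a m‖ * κ n m ≤ ‖a n‖ * ‖a m‖ * Real.exp (-(Δ ^ 2 / 9)) :=
        mul_le_mul_of_nonneg_left h4 (by positivity)
      linarith
  have hsumu : ∀ n ∈ S, ∑ m ∈ S, u n m ≤ 2 * Real.exp 1 * (1 + 4 * n / Δ) := by
    intro n hn
    have hn0 : (0:ℝ) < n := by exact_mod_cast hS n hn
    rw [hu]; simp only
    rw [← mul_sum]
    have h3 := geo_abs (c := Δ / (4 * n)) (by positivity) S n
    have h4 : 1 / (Δ / (4 * (n:ℝ))) = 4 * n / Δ := by field_simp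
    rw [h4] at h3
    calc Real.exp 1 * ∑ m ∈ S, Real.exp (-(Δ / (4 * n) * |(m:ℝ) - n|)) ≤ Real.exp 1 * (2 * (1 + 4 * n / Δ)) := by gcongr
      _ = _ := by ring
  have hdiag : ∑ n ∈ S, ∑ m ∈ S, ‖a n‖ ^ 2 * u n m ≤ 2 * Real.exp 1 * ∑ n ∈ S, ‖a n‖ ^ 2 * (1 + 4 * n / Δ) := by
    rw [mul_sum]
    refine sum_le_sum fun n hn => ?_
    rw [← mul_sum]
    calc ‖a n‖ ^ 2 * ∑ m ∈ S, u n m ≤ ‖a n‖ ^ 2 * (2 * Real.exp 1 * (1 + 4 * n / Δ)) := by
          gcongr; exact hsumu n hn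
      _ = _ := by ring
  have hdiag2 : ∑ n ∈ S, ∑ m ∈ S, ‖a m‖ ^ 2 * u m n = ∑ n ∈ S, ∑ m ∈ S, ‖a n‖ ^ 2 * u n m := sum_comm
  calc ∑ n ∈ S, ∑ m ∈ S, ‖a n‖ * ‖a m‖ * κ n m
      ≤ ∑ n ∈ S, ∑ m ∈ S, (1 / 2 * (‖a n‖ ^ 2 * u n m) + 1 / 2 * (‖a m‖ ^ 2 * u m n) +
        ‖a n‖ * ‖a m‖ * Real.exp (-(Δ ^ 2 / 9))) := sum_le_sum fun n hn => sum_le_sum fun m hm => hpt n hn m hm
    _ = 1 / 2 * (∑ n ∈ S, ∑ m ∈ S, ‖a n‖ ^ 2 * u n m) + 1 / 2 * (∑ n ∈ S, ∑ m ∈ S, ‖a m‖ ^ 2 * u m n) +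
        (∑ n ∈ S, ‖a n‖) ^ 2 * Real.exp (-(Δ ^ 2 / 9)) := by
        simp_rw [sum_add_distrib, ← mul_sum]
        congr 1
        simp_rw [← sum_mul, ← mul_sum]
        rw [← sum_mul]
        ring
    _ ≤ _ := by
        rw [hdiag2]; linarith

end

end Pool.Agent.Zk6
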