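import Pool.Agent.TH99.RJ.Window

set_option autoImplicit false

/-!
# Jensen polynomials, step 1: counting zeros of `P'' - 2 α P' + (α² + β²) P` by gaps
-/

namespace Pool.Agent.Zk6.JD

open Polynomial Set
open Pool.Agent.TH99.RJ (cnt cnt_union cnt_mono cnt_univ)

/-- the operator `(D - α)² + β²` -/
noncomputable def TT (α β : ℝ) (P : ℝ[X]) : ℝ[X] :=
  derivative (derivative P) - C (2 * α) * derivative P + C (α ^ 2 + β ^ 2) * P

theorem one_le_cnt {p : ℝ[X]} (hp : p ≠ 0) {s : Set ℝ} {r : ℝ} (hr : r ∈ s) (h : p.eval r = 0) :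
    1 ≤ cnt p s := by
  classical
  unfold cnt
  rw [Nat.one_le_iff_ne_zero, Ne, Multiset.card_eq_zero]
  intro h0
  have : r ∈ p.roots.filter (· ∈ s) := Multiset.mem_filter.2 ⟨(mem_roots hp).2 h, hr⟩
  rw [h0] at this
  exact absurd this (Multiset.notMem_zero r)

theorem cnt_singleton (p : ℝ[X]) (x : ℝ) : cnt p {x} = p.rootMultiplicity x := by
  classical
  have h : ∀ v : Multiset ℝ, (v.filter (· ∈ ({x} : Set ℝ))).card = v.count x := by
    intro v
    induction v using Multiset.induction_on with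
    | empty => simp
    | cons a v ih =>
      by_cases ha : a = x
      · rw [Multiset.filter_cons_of_pos _ (by simpa using ha), Multiset.card_cons, ih, ha,
          Multiset.count_cons_self]
      · rw [Multiset.filter_cons_of_neg _ (by simpa using ha), ih,
          Multiset.count_cons_of_ne (Ne.symm ha)]
  rw [← count_roots, ← h p.roots]
  unfold cnt
  congr!

theorem sum_cnt_le {ι : Type} (p : ℝ[X]) (I : Finset ι) (S : ι → Set ℝ)
    (hS : ∀ i ∈ I, ∀ j ∈ I, i ≠ j → Disjoint (S i) (S j)) :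
    ∑ i ∈ I, cnt p (S i) ≤ p.roots.card := by
  classical
  have h : ∀ v : Multiset ℝ, ∑ i ∈ I, (v.filter (· ∈ S i)).card ≤ v.card := by
    intro v
    induction v using Multiset.induction_on with
    | empty => simp
    | cons a v ih =>
      have h1 : ∀ i ∈ I, ((a ::ₘ v).filter (· ∈ S i)).card =
          (v.filter (· ∈ S i)).card + if a ∈ S i then 1 else 0 := by
        intro i _
        by_cases ha : a ∈ S i
        · rw [Multiset.filter_cons_of_pos _ ha, Multiset.card_cons, if_pos ha]
        · rw [Multiset.filter_cons_of_neg _ ha, if_neg ha, add_zero]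
      rw [Finset.sum_congr rfl h1, Finset.sum_add_distrib, Multiset.card_cons]
      refine Nat.add_le_add ih ?_
      rw [← Finset.card_filter]
      rw [Finset.card_le_one]
      intro i hi j hj
      by_contra hij
      exact Set.disjoint_left.1 (hS i (Finset.mem_filter.1 hi).1 j (Finset.mem_filter.1 hj).1 hij)
        (Finset.mem_filter.1 hi).2 (Finset.mem_filter.1 hj).2
  have := h p.roots
  unfold cnt
  refine le_trans (le_of_eq ?_) this
  refine Finset.sum_congr rfl fun i _ => ?_
  congr!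

/-- same sign of a continuous function without zeros on an interval -/
theorem same_sign (p : ℝ[X]) {a b : ℝ} (hab : a ≤ b) (h : ∀ y, a ≤ y → y ≤ b → p.eval y ≠ 0) :
    0 < p.eval a * p.eval b := by
  by_contra hcon
  push Not at hcon
  have hne : p.eval a * p.eval b ≠ 0 := mul_ne_zero (h a le_rfl hab) (h b hab le_rfl)
  have hneg : p.eval a * p.eval b < 0 := lt_of_le_of_ne hcon hne
  have hc : ContinuousOn (fun y => p.eval y) (Icc a b) := p.continuous.continuousOn
  rcases mul_neg_iff.1 hneg with ⟨h1, h2⟩ | ⟨h1, h2⟩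
  · obtain ⟨y, hy, hy0⟩ := intermediate_value_Icc' hab hc ⟨h2.le, h1.le⟩
    exact h y hy.1 hy.2 hy0
  · obtain ⟨y, hy, hy0⟩ := intermediate_value_Icc hab hc ⟨h1.le, h2.le⟩
    exact h y hy.1 hy.2 hy0

/-- a zero between points of different sign -/
theorem zero_between (p : ℝ[X]) {a b : ℝ} (hab : a < b) (h : p.eval a * p.eval b < 0) :
    ∃ y, a < y ∧ y < b ∧ p.eval y = 0 := by
  have hc : ContinuousOn (fun y => p.eval y) (Icc a b) := p.continuous.continuousOn
  have key : ∃ y ∈ Icc a b, p.eval y = 0 := by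
    rcases mul_neg_iff.1 h with ⟨h1, h2⟩ | ⟨h1, h2⟩
    · obtain ⟨y, hy, hy0⟩ := intermediate_value_Icc' hab.le hc ⟨h2.le, h1.le⟩
      exact ⟨y, hy, hy0⟩
    · obtain ⟨y, hy, hy0⟩ := intermediate_value_Icc hab.le hc ⟨h1.le, h2.le⟩
      exact ⟨y, hy, hy0⟩
  obtain ⟨y, hy, hy0⟩ := key
  refine ⟨y, lt_of_le_of_ne hy.1 ?_, lt_of_le_of_ne hy.2 ?_, hy0⟩
  · rintro rfl
    rw [hy0, zero_mul] at h
    exact lt_irrefl _ h
  · rintro rfl
    rw [hy0, mul_zero] at h
    exact lt_irrefl _ h

/-- factorisation of `TT P` at a multiple zero of `P` -/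
theorem TT_factor (α β x : ℝ) (k : ℕ) (P1 : ℝ[X]) :
    ∃ Q1 : ℝ[X], TT α β ((X - C x) ^ (k + 2) * P1) = (X - C x) ^ k * Q1 ∧
      Q1.eval x = ((k : ℝ) + 2) * (k + 1) * P1.eval x := by
  refine ⟨C (((k : ℝ) + 2) * (k + 1)) * P1 + C (2 * ((k : ℝ) + 2)) * (X - C x) * derivative P1 +
    (X - C x) ^ 2 * derivative (derivative P1) - C (2 * α) * (C ((k : ℝ) + 2) * (X - C x) * P1 +
    (X - C x) ^ 2 * derivative P1) + C (α ^ 2 + β ^ 2) * (X - C x) ^ 2 * P1, ?_, ?_⟩
  · unfold TT
    have h1 : derivative ((X - C x) ^ (k + 2) * P1) = C ((k : ℝ) + 2) * (X - C x) ^ (k + 1) * P1 +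
        (X - C x) ^ (k + 2) * derivative P1 := by
      rw [derivative_mul, derivative_X_sub_C_pow]
      have e1 : k + 2 - 1 = k + 1 := by omega
      rw [e1]
      simp only [map_add, map_natCast, map_ofNat]
      push_cast
      ring
    have h2 : derivative (C ((k : ℝ) + 2) * (X - C x) ^ (k + 1) * P1 +
        (X - C x) ^ (k + 2) * derivative P1) =
        C ((k : ℝ) + 2) * (C ((k : ℝ) + 1) * (X - C x) ^ k * P1 +
          (X - C x) ^ (k + 1) * derivative P1) +
        (C ((k : ℝ) + 2) * (X - C x) ^ (k + 1) * derivative P1 +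
          (X - C x) ^ (k + 2) * derivative (derivative P1)) := by
      rw [derivative_add, derivative_mul, derivative_mul, derivative_mul, derivative_C,
        derivative_X_sub_C_pow, derivative_X_sub_C_pow]
      have e1 : k + 2 - 1 = k + 1 := by omega
      have e2 : k + 1 - 1 = k := by omega
      rw [e1, e2]
      simp only [map_add, map_natCast, map_ofNat, map_one, zero_mul, zero_add]
      push_cast
      ring
    rw [h1, h2]
    simp only [map_mul, map_add, map_pow, map_ofNat, map_one, map_natCast]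
    ring
  · simp

/-- a zero of multiplicity `μ` of `P` between two good points accounts for `μ` zeros of `TT P` -/
theorem local_fine (P : ℝ[X]) (hP : P ≠ 0) (α β : ℝ) (hQ : TT α β P ≠ 0) {x a b : ℝ} (hax : a < x)
    (hxb : x < b) (hno : ∀ y, a ≤ y → y ≤ b → y ≠ x → P.eval y ≠ 0)
    (h3 : P.eval a * (TT α β P).eval a < 0) (h4 : P.eval b * (TT α β P).eval b < 0) :
    P.rootMultiplicity x ≤ cnt (TT α β P) (Ioo a b) := by
  obtain ⟨P1, hP1, hndvd⟩ := P.exists_eq_pow_rootMultiplicity_mul_and_not_dvd hP x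
  set μ := P.rootMultiplicity x with hμ
  have hP1x : P1.eval x ≠ 0 := fun h => hndvd (dvd_iff_isRoot.2 h)
  have hev : ∀ y, P.eval y = (y - x) ^ μ * P1.eval y := by
    intro y
    conv_lhs => rw [hP1]
    simp
  have hP1ne : ∀ y, a ≤ y → y ≤ b → P1.eval y ≠ 0 := by
    intro y h1 h2
    by_cases hyx : y = x
    · rw [hyx]; exact hP1x
    · intro h
      apply hno y h1 h2 hyx
      rw [hev, h, mul_zero]
  rcases Nat.lt_or_ge μ 1 with hμ0 | hμ1
  · omega
  rcases Nat.lt_or_ge μ 2 with hμ2 | hμ2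
  · have hμe : μ = 1 := by omega
    rw [hμe]
    have h5 := same_sign P1 (hax.trans hxb).le hP1ne
    have h6 : P.eval a * P.eval b < 0 := by
      rw [hev a, hev b, hμe]
      have : (a - x) ^ 1 * P1.eval a * ((b - x) ^ 1 * P1.eval b) =
          -((x - a) * (b - x) * (P1.eval a * P1.eval b)) := by ring
      rw [this]
      have h7 : 0 < x - a := by linarith
      have h8 : 0 < b - x := by linarith
      have := mul_pos (mul_pos h7 h8) h5
      linarith
    have h7 : (TT α β P).eval a * (TT α β P).eval b < 0 := by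
      by_contra hcon
      push Not at hcon
      have h8 : 0 < (P.eval a * (TT α β P).eval a) * (P.eval b * (TT α β P).eval b) :=
        mul_pos_of_neg_of_neg h3 h4
      have h9 : (P.eval a * (TT α β P).eval a) * (P.eval b * (TT α β P).eval b) =
          (P.eval a * P.eval b) * ((TT α β P).eval a * (TT α β P).eval b) := by ring
      rw [h9] at h8
      have := mul_nonpos_of_nonpos_of_nonneg h6.le hcon
      linarith
    obtain ⟨y, h8, h9, h10⟩ := zero_between _ (hax.trans hxb) h7
    exact one_le_cnt hQ ⟨h8, h9⟩ h10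
  · obtain ⟨k, hk⟩ : ∃ k, μ = k + 2 := ⟨μ - 2, by omega⟩
    obtain ⟨Q1, hQ1, hQ1x⟩ := TT_factor α β x k P1
    have hPk : P = (X - C x) ^ (k + 2) * P1 := by rw [← hk]; exact hP1
    rw [← hPk] at hQ1
    have hQev : ∀ y, (TT α β P).eval y = (y - x) ^ k * Q1.eval y := by
      intro y
      rw [hQ1]
      simp
    -- right zero
    have hr : ∃ y, x < y ∧ y < b ∧ (TT α β P).eval y = 0 := by
      have e1 : Q1.eval x * Q1.eval b < 0 := by
        have e2 := same_sign P1 hxb.le (fun y h1 h2 => hP1ne y (hax.le.trans h1) h2)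
        have e3 : 0 < b - x := by linarith
        rw [hev b, hQev b, hk] at h4
        have e4 : (b - x) ^ (k + 2) * P1.eval b * ((b - x) ^ k * Q1.eval b) =
            ((b - x) ^ (k + 2) * (b - x) ^ k) * (P1.eval b * Q1.eval b) := by ring
        rw [e4] at h4
        have e5 : P1.eval b * Q1.eval b < 0 := by
          by_contra hcon
          push Not at hcon
          have : 0 ≤ ((b - x) ^ (k + 2) * (b - x) ^ k) * (P1.eval b * Q1.eval b) := by positivity
          linarith
        rw [hQ1x]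
        have e6 : (((k : ℝ) + 2) * (k + 1) * P1.eval x * Q1.eval b) * (P1.eval b) ^ 2 =
            (((k : ℝ) + 2) * (k + 1)) * (P1.eval x * P1.eval b) * (P1.eval b * Q1.eval b) := by ring
        have e7 : 0 < (P1.eval b) ^ 2 := by
          have := hP1ne b (hax.trans hxb).le le_rfl
          positivity
        have e8 : (((k : ℝ) + 2) * (k + 1) * P1.eval x * Q1.eval b) * (P1.eval b) ^ 2 < 0 := by
          rw [e6]
          exact mul_neg_of_pos_of_neg (by positivity) e5
        by_contra hcon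
        push Not at hcon
        have := mul_nonneg hcon e7.le
        linarith
      obtain ⟨y, f1, f2, f3⟩ := zero_between Q1 hxb e1
      exact ⟨y, f1, f2, by rw [hQev, f3, mul_zero]⟩
    have hl : ∃ y, a < y ∧ y < x ∧ (TT α β P).eval y = 0 := by
      have e1 : Q1.eval a * Q1.eval x < 0 := by
        have e2 := same_sign P1 hax.le (fun y h1 h2 => hP1ne y h1 (h2.trans hxb.le))
        have e3 : a - x ≠ 0 := by linarith
        rw [hev a, hQev a, hk] at h3
        have e4 : (a - x) ^ (k + 2) * P1.eval a * ((a - x) ^ k * Q1.eval a) =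
            ((a - x) ^ (k + 1)) ^ 2 * (P1.eval a * Q1.eval a) := by ring
        rw [e4] at h3
        have e5 : P1.eval a * Q1.eval a < 0 := by
          by_contra hcon
          push Not at hcon
          have : 0 ≤ ((a - x) ^ (k + 1)) ^ 2 * (P1.eval a * Q1.eval a) := by positivity
          linarith
        rw [hQ1x]
        have e6 : (Q1.eval a * (((k : ℝ) + 2) * (k + 1) * P1.eval x)) * (P1.eval a) ^ 2 =
            (((k : ℝ) + 2) * (k + 1)) * (P1.eval a * P1.eval x) * (P1.eval a * Q1.eval a) := by ring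
        have e7 : 0 < (P1.eval a) ^ 2 := by
          have := hP1ne a le_rfl (hax.trans hxb).le
          positivity
        have e8 : (Q1.eval a * (((k : ℝ) + 2) * (k + 1) * P1.eval x)) * (P1.eval a) ^ 2 < 0 := by
          rw [e6]
          exact mul_neg_of_pos_of_neg (by positivity) e5
        by_contra hcon
        push Not at hcon
        have := mul_nonneg hcon e7.le
        linarith
      obtain ⟨y, f1, f2, f3⟩ := zero_between Q1 hax e1
      exact ⟨y, f1, f2, by rw [hQev, f3, mul_zero]⟩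
    obtain ⟨y1, g1, g2, g3⟩ := hr
    obtain ⟨y2, g4, g5, g6⟩ := hl
    have c1 : 1 ≤ cnt (TT α β P) (Ioo x b) := one_le_cnt hQ ⟨g1, g2⟩ g3
    have c2 : 1 ≤ cnt (TT α β P) (Ioo a x) := one_le_cnt hQ ⟨g4, g5⟩ g6
    have c3 : k ≤ cnt (TT α β P) {x} := by
      rw [cnt_singleton, le_rootMultiplicity_iff hQ]
      exact ⟨Q1, hQ1⟩
    have hsub : (Ioo a x ∪ ({x} ∪ Ioo x b) : Set ℝ) ⊆ Ioo a b := by
      rintro y (hy | hy | hy)
      · exact ⟨hy.1, hy.2.trans hxb⟩
      · rw [mem_singleton_iff] at hy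
        rw [hy]
        exact ⟨hax, hxb⟩
      · exact ⟨hax.trans hy.1, hy.2⟩
    have c4 := cnt_mono (p := TT α β P) hsub
    rw [cnt_union, cnt_union] at c4
    · omega
    · rw [Set.disjoint_left]
      intro y hy hy2
      rw [mem_singleton_iff] at hy
      rw [hy] at hy2
      exact lt_irrefl _ hy2.1
    · rw [Set.disjoint_left]
      rintro y hy (hy2 | hy2)
      · rw [mem_singleton_iff] at hy2
        rw [hy2] at hy
        exact lt_irrefl _ hy.2
      · exact lt_irrefl _ (hy.2.trans hy2.1)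

theorem local_any (P : ℝ[X]) (hP : P ≠ 0) (α β : ℝ) (hQ : TT α β P ≠ 0) (x : ℝ) :
    P.rootMultiplicity x ≤ cnt (TT α β P) {x} + 2 := by
  obtain ⟨P1, hP1, -⟩ := P.exists_eq_pow_rootMultiplicity_mul_and_not_dvd hP x
  set μ := P.rootMultiplicity x with hμ
  rcases Nat.lt_or_ge μ 2 with hμ2 | hμ2
  · omega
  obtain ⟨k, hk⟩ : ∃ k, μ = k + 2 := ⟨μ - 2, by omega⟩
  obtain ⟨Q1, hQ1, -⟩ := TT_factor α β x k P1
  have hPk : P = (X - C x) ^ (k + 2) * P1 := by rw [← hk]; exact hP1
  rw [← hPk] at hQ1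
  have c3 : k ≤ cnt (TT α β P) {x} := by
    rw [cnt_singleton, le_rootMultiplicity_iff hQ]
    exact ⟨Q1, hQ1⟩
  omega

end Pool.Agent.Zk6.JD
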