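import Pool.Agent.Zk6.JD1
import Pool.Agent.TH99.RJ.Main

set_option autoImplicit false

/-!
# Jensen polynomials, step 2: the number of real zeros lost is controlled by the bad gaps
-/

namespace Pool.Agent.Zk6.JD

open Polynomial Set
open Pool.Agent.TH99.RJ (cnt cnt_union cnt_mono cnt_univ nonreal nonreal_eq)

/-- consecutive zeros -/
def Cons (P : ℝ[X]) (p q : ℝ) : Prop :=
  p < q ∧ P.eval p = 0 ∧ P.eval q = 0 ∧ ∀ y, p < y → y < q → P.eval y ≠ 0

/-- bad gap -/
def Bad (α β : ℝ) (P : ℝ[X]) (p q : ℝ) : Prop :=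
  Cons P p q ∧ ∀ y, p < y → y < q → 0 ≤ P.eval y * (TT α β P).eval y

open Classical in
/-- left endpoints of the bad gaps -/
noncomputable def badL (α β : ℝ) (P : ℝ[X]) : Finset ℝ :=
  P.roots.toFinset.filter fun p => ∃ q, Bad α β P p q

theorem exists_next {P : ℝ[X]} (hP : P ≠ 0) {r s : ℝ} (hr : P.eval r = 0) (hs : P.eval s = 0)
    (hrs : r < s) : ∃ q, Cons P r q := by
  classical
  set F := P.roots.toFinset.filter fun y => r < y with hF
  have hne : F.Nonempty := ⟨s, Finset.mem_filter.2 ⟨Multiset.mem_toFinset.2 ((mem_roots hP).2 hs), hrs⟩⟩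
  have hmem := Finset.mem_filter.1 (F.min'_mem hne)
  rw [Multiset.mem_toFinset, mem_roots hP] at hmem
  refine ⟨F.min' hne, hmem.2, hr, hmem.1, fun y h1 h2 h3 => ?_⟩
  have : y ∈ F := Finset.mem_filter.2 ⟨Multiset.mem_toFinset.2 ((mem_roots hP).2 h3), h1⟩
  exact absurd h2 (not_lt.2 (F.min'_le y this))

theorem exists_prev {P : ℝ[X]} (hP : P ≠ 0) {r s : ℝ} (hr : P.eval r = 0) (hs : P.eval s = 0)
    (hrs : s < r) : ∃ p, Cons P p r := by
  classical
  set F := P.roots.toFinset.filter fun y => y < r with hF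
  have hne : F.Nonempty := ⟨s, Finset.mem_filter.2 ⟨Multiset.mem_toFinset.2 ((mem_roots hP).2 hs), hrs⟩⟩
  have hmem := Finset.mem_filter.1 (F.max'_mem hne)
  rw [Multiset.mem_toFinset, mem_roots hP] at hmem
  refine ⟨F.max' hne, hmem.2, hmem.1, hr, fun y h1 h2 h3 => ?_⟩
  have : y ∈ F := Finset.mem_filter.2 ⟨Multiset.mem_toFinset.2 ((mem_roots hP).2 h3), h2⟩
  exact absurd h1 (not_lt.2 (F.le_max' y this))

/-- a zero of `P` above `p` is at least `q` -/
theorem Cons.le {P : ℝ[X]} {p q s : ℝ} (h : Cons P p q) (hs : P.eval s = 0) (hps : p < s) :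
    q ≤ s := by
  by_contra hcon
  push Not at hcon
  exact h.2.2.2 s hps hcon hs

theorem Cons.ge {P : ℝ[X]} {p q s : ℝ} (h : Cons P p q) (hs : P.eval s = 0) (hps : s < q) :
    s ≤ p := by
  by_contra hcon
  push Not at hcon
  exact h.2.2.2 s hcon hps hs

theorem Cons.uniq {P : ℝ[X]} {p q q' : ℝ} (h : Cons P p q) (h' : Cons P p q') : q = q' :=
  le_antisymm (h.le h'.2.2.1 h'.1) (h'.le h.2.2.1 h.1)

/-- the gap counting lemma -/
theorem gap_count (α β : ℝ) (P : ℝ[X]) (hP : P ≠ 0) (hQ : TT α β P ≠ 0) :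
    P.roots.card ≤ (TT α β P).roots.card + 4 * (badL α β P).card + 4 := by
  classical
  set Q := TT α β P with hQdef
  set R := P.roots.toFinset with hR
  have hRmem : ∀ r, r ∈ R ↔ P.eval r = 0 := by
    intro r
    rw [hR, Multiset.mem_toFinset, mem_roots hP]
    rfl
  set FR : ℝ → Prop := fun p => ∃ q ξ, Cons P p q ∧ p < ξ ∧ ξ < q ∧ P.eval ξ * Q.eval ξ < 0 with hFR
  have hg' : ∀ p, ∃ ξ, FR p → ∃ q, Cons P p q ∧ p < ξ ∧ ξ < q ∧ P.eval ξ * Q.eval ξ < 0 := by
    intro p
    by_cases h : FR p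
    · obtain ⟨q, ξ, h1⟩ := h
      exact ⟨ξ, fun _ => ⟨q, h1⟩⟩
    · exact ⟨0, fun h' => absurd h' h⟩
  choose g hg using hg'
  set FL : ℝ → Prop := fun r => ∃ p, Cons P p r ∧ FR p with hFL
  have hk' : ∀ r, ∃ p, FL r → Cons P p r ∧ FR p := by
    intro r
    by_cases h : FL r
    · obtain ⟨p, h1⟩ := h
      exact ⟨p, fun _ => h1⟩
    · exact ⟨0, fun h' => absurd h' h⟩
  choose k hk using hk'
  set S : ℝ → Set ℝ := fun r => if FR r ∧ FL r then Ioo (g (k r)) (g r) else {r} with hS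
  -- ordering facts
  have key1 : ∀ r s, FR r → P.eval s = 0 → r < s → g r < s := by
    intro r s h1 h2 h3
    obtain ⟨q, h4, -, h5, -⟩ := hg r h1
    exact h5.trans_le (h4.le h2 h3)
  have key2 : ∀ r, FR r → r < g r := fun r h => (hg r h).choose_spec.2.1
  have hdisj : ∀ r1 r2, P.eval r1 = 0 → P.eval r2 = 0 → r1 < r2 → Disjoint (S r1) (S r2) := by
    intro r1 r2 h1 h2 h3
    rw [Set.disjoint_left]
    intro y hy1 hy2
    by_cases f1 : FR r1 ∧ FL r1
    · simp only [hS, if_pos f1] at hy1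
      have e1 : g r1 < r2 := key1 r1 r2 f1.1 h2 h3
      by_cases f2 : FR r2 ∧ FL r2
      · simp only [hS, if_pos f2] at hy2
        obtain ⟨e2, e3⟩ := hk r2 f2.2
        rcases lt_or_eq_of_le (e2.ge h1 h3) with e4 | e4
        · have e5 := key1 r1 (k r2) f1.1 e2.2.1 e4
          have e6 := key2 _ e3
          linarith [hy1.2, hy2.1]
        · rw [← e4] at hy2
          linarith [hy1.2, hy2.1]
      · simp only [hS, if_neg f2, mem_singleton_iff] at hy2
        rw [hy2] at hy1
        linarith [hy1.2]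
    · simp only [hS, if_neg f1, mem_singleton_iff] at hy1
      rw [hy1] at hy2
      by_cases f2 : FR r2 ∧ FL r2
      · simp only [hS, if_pos f2] at hy2
        obtain ⟨e2, e3⟩ := hk r2 f2.2
        have e4 := e2.ge h1 h3
        have e6 := key2 _ e3
        linarith [hy2.1]
      · simp only [hS, if_neg f2, mem_singleton_iff] at hy2
        exact h3.ne hy2
  have hdisj2 : ∀ r1 ∈ R, ∀ r2 ∈ R, r1 ≠ r2 → Disjoint (S r1) (S r2) := by
    intro r1 h1 r2 h2 h3
    rcases lt_or_gt_of_ne h3 with h | h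
    · exact hdisj r1 r2 ((hRmem _).1 h1) ((hRmem _).1 h2) h
    · exact (hdisj r2 r1 ((hRmem _).1 h2) ((hRmem _).1 h1) h).symm
  have hsum := sum_cnt_le Q R S hdisj2
  have hlocal : ∀ r ∈ R, P.rootMultiplicity r ≤ cnt Q (S r) + if FR r ∧ FL r then 0 else 2 := by
    intro r _
    by_cases f : FR r ∧ FL r
    · rw [if_pos f, add_zero]
      simp only [hS, if_pos f]
      obtain ⟨e1, e2⟩ := hk r f.2
      obtain ⟨q1, e3, e4, e5, e6⟩ := hg _ e2
      obtain ⟨q2, e7, e8, e9, e10⟩ := hg _ f.1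
      have e11 : q1 = r := e3.uniq e1
      rw [e11] at e5
      refine local_fine P hP α β hQ e5 e8 ?_ e6 e10
      intro y h1 h2 h3
      rcases lt_or_gt_of_ne h3 with h | h
      · exact e1.2.2.2 y (e4.trans_le h1) h
      · exact e7.2.2.2 y h (h2.trans_lt e9)
    · rw [if_neg f]
      simp only [hS, if_neg f]
      exact local_any P hP α β hQ r
  have hcardP : P.roots.card = ∑ r ∈ R, P.rootMultiplicity r := by
    rw [hR, ← Multiset.toFinset_sum_count_eq]
    refine Finset.sum_congr rfl fun r _ => ?_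
    rw [count_roots]
  have hstep : P.roots.card ≤ Q.roots.card + 2 * (R.filter fun r => ¬ (FR r ∧ FL r)).card := by
    rw [hcardP]
    refine (Finset.sum_le_sum hlocal).trans ?_
    rw [Finset.sum_add_distrib]
    refine Nat.add_le_add hsum ?_
    have : ∀ r ∈ R, (if FR r ∧ FL r then 0 else 2) = 2 * (if ¬ (FR r ∧ FL r) then 1 else 0) := by
      intro r _
      by_cases f : FR r ∧ FL r
      · rw [if_pos f, if_neg (not_not.2 f)]
      · rw [if_neg f, if_pos f]
    rw [Finset.sum_congr rfl this, ← Finset.mul_sum, Finset.card_filter]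
  -- the not fine ones
  have hbad : ∀ p q, Cons P p q → ¬ FR p → p ∈ badL α β P ∧ Bad α β P p q := by
    intro p q h1 h2
    have h3 : Bad α β P p q := by
      refine ⟨h1, fun y h4 h5 => ?_⟩
      by_contra hcon
      push Not at hcon
      exact h2 ⟨q, y, h1, h4, h5, hcon⟩
    refine ⟨?_, h3⟩
    unfold badL
    rw [Finset.mem_filter]
    exact ⟨(hRmem p).2 h1.2.1, q, h3⟩
  rcases R.eq_empty_or_nonempty with hRe | hRn
  · rw [hRe, Finset.sum_empty] at hcardP
    omega
  have c1 : (R.filter fun r => ¬ FR r) ⊆ insert (R.max' hRn) (badL α β P) := by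
    intro r hr
    rw [Finset.mem_filter] at hr
    rw [Finset.mem_insert]
    by_cases h : r = R.max' hRn
    · exact Or.inl h
    · refine Or.inr ?_
      have h1 : r < R.max' hRn := lt_of_le_of_ne (R.le_max' r hr.1) h
      obtain ⟨q, h2⟩ := exists_next hP ((hRmem r).1 hr.1) ((hRmem _).1 (R.max'_mem hRn)) h1
      exact (hbad r q h2 hr.2).1
  have hn' : ∀ p, ∃ q, (∃ q, Cons P p q) → Cons P p q := by
    intro p
    by_cases h : ∃ q, Cons P p q
    · exact ⟨h.choose, fun _ => h.choose_spec⟩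
    · exact ⟨0, fun h' => absurd h' h⟩
  choose nx hnx using hn'
  have c2 : (R.filter fun r => ¬ FL r) ⊆ insert (R.min' hRn) ((badL α β P).image nx) := by
    intro r hr
    rw [Finset.mem_filter] at hr
    rw [Finset.mem_insert]
    by_cases h : r = R.min' hRn
    · exact Or.inl h
    · refine Or.inr ?_
      have h1 : R.min' hRn < r := lt_of_le_of_ne (R.min'_le r hr.1) (Ne.symm h)
      obtain ⟨p, h2⟩ := exists_prev hP ((hRmem r).1 hr.1) ((hRmem _).1 (R.min'_mem hRn)) h1
      have h3 : ¬ FR p := fun h4 => hr.2 ⟨p, h2, h4⟩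
      rw [Finset.mem_image]
      exact ⟨p, (hbad p r h2 h3).1, (hnx p ⟨r, h2⟩).uniq h2⟩
  have c3 : (R.filter fun r => ¬ (FR r ∧ FL r)) ⊆ (R.filter fun r => ¬ FR r) ∪
      (R.filter fun r => ¬ FL r) := by
    intro r hr
    rw [Finset.mem_filter] at hr
    rw [Finset.mem_union, Finset.mem_filter, Finset.mem_filter]
    by_cases h : FR r
    · exact Or.inr ⟨hr.1, fun h2 => hr.2 ⟨h, h2⟩⟩
    · exact Or.inl ⟨hr.1, h⟩
  have d1 := (Finset.card_le_card c1).trans (Finset.card_insert_le _ _)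
  have d2 := (Finset.card_le_card c2).trans (Finset.card_insert_le _ _)
  have d3 := (Finset.card_le_card c3).trans (Finset.card_union_le _ _)
  have d4 : ((badL α β P).image nx).card ≤ (badL α β P).card := Finset.card_image_le
  omega

theorem natDegree_TT (α β : ℝ) (hαβ : α ^ 2 + β ^ 2 ≠ 0) (P : ℝ[X]) :
    (TT α β P).natDegree = P.natDegree := by
  by_cases hP : P = 0
  · simp [hP, TT]
  by_cases hd : P.natDegree = 0
  · obtain ⟨c, rfl⟩ := natDegree_eq_zero.1 hd
    unfold TT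
    rw [derivative_C, derivative_zero, mul_zero, sub_zero, zero_add, ← C_mul, natDegree_C,
      natDegree_C]
  have h1 : (C (α ^ 2 + β ^ 2) * P).natDegree = P.natDegree := natDegree_C_mul hαβ
  have h2 : (derivative (derivative P) - C (2 * α) * derivative P).natDegree < P.natDegree := by
    refine lt_of_le_of_lt (natDegree_sub_le _ _) (max_lt ?_ ?_)
    · exact lt_of_le_of_lt (natDegree_derivative_le _) (by
        have := natDegree_derivative_lt hd
        omega)
    · exact lt_of_le_of_lt (natDegree_C_mul_le _ _) (natDegree_derivative_lt hd)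
  unfold TT
  rw [natDegree_add_eq_right_of_natDegree_lt, h1]
  rw [h1]
  exact h2

theorem TT_ne_zero (α β : ℝ) (hαβ : α ^ 2 + β ^ 2 ≠ 0) {P : ℝ[X]} (hP : P ≠ 0) :
    TT α β P ≠ 0 := by
  by_cases hd : P.natDegree = 0
  · obtain ⟨c, rfl⟩ := natDegree_eq_zero.1 hd
    have hc : c ≠ 0 := by
      rintro rfl
      simp at hP
    unfold TT
    rw [derivative_C, derivative_zero, mul_zero, sub_zero, zero_add]
    exact mul_ne_zero (C_ne_zero.2 hαβ) (C_ne_zero.2 hc)
  · intro h
    have := natDegree_TT α β hαβ P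
    rw [h, natDegree_zero] at this
    exact hd this.symm

theorem nonreal_TT (α β : ℝ) (hαβ : α ^ 2 + β ^ 2 ≠ 0) (P : ℝ[X]) (hP : P ≠ 0) :
    nonreal (TT α β P) ≤ nonreal P + 4 * (badL α β P).card + 4 := by
  have h1 := gap_count α β P hP (TT_ne_zero α β hαβ hP)
  have h2 := nonreal_eq P
  have h3 := nonreal_eq (TT α β P)
  rw [natDegree_TT α β hαβ P] at h3
  omega

end Pool.Agent.Zk6.JD
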