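import Pool.Agent.Zk6.JD2

set_option autoImplicit false

/-!
# Jensen polynomials, step 3: a bad gap contains an interval of length `π / (4 β)` on which
`α - β ≤ P' / P ≤ α`
-/

namespace Pool.Agent.Zk6.JD

open Polynomial Set

/-- the derivative of `exp (c x) P x` -/
theorem hasDerivAt_expP (c : ℝ) (P : ℝ[X]) (x : ℝ) :
    HasDerivAt (fun x => Real.exp (c * x) * P.eval x)
      (Real.exp (c * x) * ((derivative P).eval x + c * P.eval x)) x := by
  have ha : HasDerivAt (fun x => Real.exp (c * x)) (Real.exp (c * x) * (c * 1)) x :=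
    ((hasDerivAt_id x).const_mul c).exp
  refine (ha.mul (P.hasDerivAt x)).congr_deriv ?_
  ring

/-- if `exp (c x) P x` has nonnegative derivative up to a zero of `P`, then `P ≤ 0` before -/
theorem no_increase (c : ℝ) (P : ℝ[X]) {x q : ℝ} (hxq : x < q) (hPx : 0 < P.eval x)
    (hq : P.eval q = 0) (h : ∀ y, x < y → y < q → 0 ≤ (derivative P).eval y + c * P.eval y) :
    False := by
  have hm : MonotoneOn (fun x => Real.exp (c * x) * P.eval x) (Icc x q) := by
    refine monotoneOn_of_deriv_nonneg (convex_Icc x q) ?_ ?_ ?_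
    · exact fun y _ => (hasDerivAt_expP c P y).continuousAt.continuousWithinAt
    · exact fun y _ => (hasDerivAt_expP c P y).differentiableAt.differentiableWithinAt
    · intro y hy
      rw [interior_Icc] at hy
      rw [(hasDerivAt_expP c P y).deriv]
      exact mul_nonneg (Real.exp_pos _).le (h y hy.1 hy.2)
  have h1 := hm (left_mem_Icc.2 hxq.le) (right_mem_Icc.2 hxq.le) hxq.le
  simp only [hq, mul_zero] at h1
  have h2 := mul_pos (Real.exp_pos (c * x)) hPx
  linarith

theorem bad_pos (α β : ℝ) (hα : α ≠ 0) (hβ : 0 < β) (P : ℝ[X]) (hP : P ≠ 0) {p q : ℝ} (hpq : p < q)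
    (hp : P.eval p = 0) (hq : P.eval q = 0) (hpos : ∀ y, p < y → y < q → 0 < P.eval y)
    (hT : ∀ y, p < y → y < q → 0 ≤ (TT α β P).eval y) :
    ∃ x1, p < x1 ∧ x1 + Real.pi / (4 * β) < q ∧ ∀ x, x1 < x → x < x1 + Real.pi / (4 * β) →
      α - β ≤ (derivative P).eval x / P.eval x ∧ (derivative P).eval x / P.eval x ≤ α := by
  classical
  set W : ℝ[X] := derivative P - C α * P with hW
  have hWev : ∀ x, W.eval x = (derivative P).eval x - α * P.eval x := by
    intro x
    simp [hW]
  have hW0 : W ≠ 0 := by
    intro h
    have h1 : derivative P = C α * P := sub_eq_zero.1 h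
    have h2 := degree_derivative_lt hP
    rw [h1, degree_C_mul hα] at h2
    exact lt_irrefl _ h2
  -- Rolle
  obtain ⟨c, hc, hc0⟩ := exists_hasDerivAt_eq_zero (f := fun x => Real.exp (-α * x) * P.eval x)
    (f' := fun x => Real.exp (-α * x) * ((derivative P).eval x + -α * P.eval x)) hpq
    (fun y _ => (hasDerivAt_expP (-α) P y).continuousAt.continuousWithinAt)
    (by simp only [hp, hq, mul_zero]) (fun y _ => hasDerivAt_expP (-α) P y)
  have hWc : W.eval c = 0 := by
    rw [hWev]
    have := (mul_eq_zero.1 hc0).resolve_left (Real.exp_pos _).ne'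
    linarith
  set F := W.roots.toFinset.filter fun y => p < y ∧ y < q with hF
  have hne : F.Nonempty :=
    ⟨c, Finset.mem_filter.2 ⟨Multiset.mem_toFinset.2 ((mem_roots hW0).2 hWc), hc.1, hc.2⟩⟩
  obtain ⟨x1, hx1⟩ : ∃ x1, x1 = F.max' hne := ⟨_, rfl⟩
  have hmem := Finset.mem_filter.1 (F.max'_mem hne)
  rw [Multiset.mem_toFinset, mem_roots hW0, ← hx1] at hmem
  obtain ⟨hWx1, hpx1, hx1q⟩ := hmem
  have hWx1 : W.eval x1 = 0 := hWx1
  have hno : ∀ y, x1 < y → y < q → W.eval y ≠ 0 := by
    intro y h1 h2 h3
    have : y ∈ F := Finset.mem_filter.2 ⟨Multiset.mem_toFinset.2 ((mem_roots hW0).2 h3),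
      hpx1.trans h1, h2⟩
    have := F.le_max' y this
    rw [← hx1] at this
    linarith
  have hneg : ∀ y, x1 < y → y < q → W.eval y < 0 := by
    intro y h1 h2
    by_contra hcon
    push Not at hcon
    have hWy : 0 < W.eval y := lt_of_le_of_ne hcon (hno y h1 h2).symm
    refine no_increase (-α) P hx1q (hpos x1 hpx1 hx1q) hq fun z h3 h4 => ?_
    have h5 : 0 < W.eval z := by
      rcases le_total y z with h | h
      · have := same_sign W h fun u h6 h7 => hno u (h1.trans_le h6) (h7.trans_lt h4)
        exact (mul_pos_iff_of_pos_left hWy).1 this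
      · have := same_sign W h fun u h6 h7 => hno u (h3.trans_le h6) (h7.trans_lt h2)
        exact (mul_pos_iff_of_pos_right hWy).1 this
    rw [hWev] at h5
    linarith
  -- the arctangent
  have hPpos : ∀ y, x1 ≤ y → y < q → 0 < P.eval y := fun y h1 h2 => hpos y (hpx1.trans_le h1) h2
  have hder : ∀ y, x1 ≤ y → y < q → HasDerivAt
      (fun x => Real.arctan (W.eval x / P.eval x / β) + β * x)
      (1 / (1 + (W.eval y / P.eval y / β) ^ 2) * (((derivative W).eval y * P.eval y -
        W.eval y * (derivative P).eval y) / P.eval y ^ 2 / β) + β * 1) y := by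
    intro y h1 h2
    have h3 := hPpos y h1 h2
    exact ((((W.hasDerivAt y).div (P.hasDerivAt y) h3.ne').div_const β).arctan).add
      ((hasDerivAt_id y).const_mul β)
  have hmono : MonotoneOn (fun x => Real.arctan (W.eval x / P.eval x / β) + β * x) (Ico x1 q) := by
    refine monotoneOn_of_deriv_nonneg (convex_Ico x1 q) ?_ ?_ ?_
    · exact fun y hy => (hder y hy.1 hy.2).continuousAt.continuousWithinAt
    · intro y hy
      rw [interior_Ico] at hy
      exact (hder y hy.1.le hy.2).differentiableAt.differentiableWithinAt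
    · intro y hy
      rw [interior_Ico] at hy
      rw [(hder y hy.1.le hy.2).deriv]
      have h3 := hPpos y hy.1.le hy.2
      have h4 := hT y (hpx1.trans hy.1) hy.2
      have h5 : (TT α β P).eval y = (derivative (derivative P)).eval y -
          2 * α * (derivative P).eval y + (α ^ 2 + β ^ 2) * P.eval y := by
        simp [TT]
      have h6 : (derivative W).eval y = (derivative (derivative P)).eval y -
          α * (derivative P).eval y := by
        simp [hW]
      rw [h5] at h4
      rw [h6, hWev]
      set a := P.eval y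
      set b := (derivative P).eval y
      set e := (derivative (derivative P)).eval y
      have h7 : 1 / (1 + ((b - α * a) / a / β) ^ 2) * (((e - α * b) * a - (b - α * a) * b) / a ^ 2 / β)
          + β * 1 = (1 / (1 + ((b - α * a) / a / β) ^ 2)) * ((e - 2 * α * b + (α ^ 2 + β ^ 2) * a) /
            (a * β)) := by
        have h8 : (0 : ℝ) < 1 + ((b - α * a) / a / β) ^ 2 := by positivity
        have h9 : β * 1 = (1 / (1 + ((b - α * a) / a / β) ^ 2)) *
            (β * (1 + ((b - α * a) / a / β) ^ 2)) := by
          field_simp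
        rw [h9, ← mul_add]
        congr 1
        field_simp
        ring
      rw [h7]
      positivity
  have hat : ∀ y, x1 < y → y < q → y ≤ x1 + Real.pi / (4 * β) → -(β * P.eval y) ≤ W.eval y := by
    intro y h1 h2 h3
    have h4 := hmono (left_mem_Ico.2 hx1q) ⟨h1.le, h2⟩ h1.le
    simp only [hWx1, zero_div, Real.arctan_zero, zero_add] at h4
    have h5 : β * (y - x1) ≤ Real.pi / 4 := by
      have : β * (y - x1) ≤ β * (Real.pi / (4 * β)) :=
        mul_le_mul_of_nonneg_left (by linarith) hβ.le
      have h6 : β * (Real.pi / (4 * β)) = Real.pi / 4 := by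
        field_simp
      rwa [h6] at this
    have h6 : Real.arctan (-1) ≤ Real.arctan (W.eval y / P.eval y / β) := by
      rw [Real.arctan_neg, Real.arctan_one]
      linarith
    have h7 := Real.arctan_strictMono.le_iff_le.1 h6
    have h8 := hPpos y h1.le h2
    rw [div_div, le_div_iff₀ (by positivity)] at h7
    linarith
  have hend : x1 + Real.pi / (4 * β) < q := by
    by_contra hcon
    push Not at hcon
    refine no_increase (β - α) P hx1q (hpos x1 hpx1 hx1q) hq fun z h3 h4 => ?_
    have h5 := hat z h3 h4 (h4.le.trans hcon)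
    rw [hWev] at h5
    linarith
  refine ⟨x1, hpx1, hend, fun x h1 h2 => ?_⟩
  have h3 := hPpos x h1.le (h2.trans hend)
  have h4 := hat x h1 (h2.trans hend) h2.le
  have h5 := hneg x h1 (h2.trans hend)
  rw [hWev] at h4 h5
  constructor
  · rw [le_div_iff₀ h3]
    linarith
  · rw [div_le_iff₀ h3]
    linarith

theorem TT_neg (α β : ℝ) (P : ℝ[X]) : TT α β (-P) = -TT α β P := by
  unfold TT
  simp only [derivative_neg]
  ring

theorem bad_interval (α β : ℝ) (hα : α ≠ 0) (hβ : 0 < β) (P : ℝ[X]) (hP : P ≠ 0) {p q : ℝ}
    (h : Bad α β P p q) :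
    ∃ x1, p < x1 ∧ x1 + Real.pi / (4 * β) < q ∧ ∀ x, x1 < x → x < x1 + Real.pi / (4 * β) →
      α - β ≤ (derivative P).eval x / P.eval x ∧ (derivative P).eval x / P.eval x ≤ α := by
  obtain ⟨⟨hpq, hp, hq, hno⟩, hT⟩ := h
  set m := (p + q) / 2 with hm
  have hm1 : p < m := by rw [hm]; linarith
  have hm2 : m < q := by rw [hm]; linarith
  rcases lt_or_gt_of_ne (hno m hm1 hm2) with hs | hs
  · have hpos : ∀ y, p < y → y < q → 0 < (-P).eval y := by
      intro y h1 h2
      rw [eval_neg]
      have h5 : P.eval y < 0 := by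
        rcases le_total y m with h | h
        · have := same_sign P h fun u h6 h7 => hno u (h1.trans_le h6) (h7.trans_lt hm2)
          by_contra hcon
          push Not at hcon
          have := mul_nonpos_of_nonneg_of_nonpos hcon hs.le
          linarith
        · have := same_sign P h fun u h6 h7 => hno u (hm1.trans_le h6) (h7.trans_lt h2)
          by_contra hcon
          push Not at hcon
          have := mul_nonpos_of_nonpos_of_nonneg hs.le hcon
          linarith
      linarith
    obtain ⟨x1, h1, h2, h3⟩ := bad_pos α β hα hβ (-P) (neg_ne_zero.2 hP) hpq (by simp [hp])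
      (by simp [hq]) hpos (by
        intro y h1 h2
        have h3 := hT y h1 h2
        have h4 := hpos y h1 h2
        rw [eval_neg] at h4
        rw [TT_neg, eval_neg]
        by_contra hcon
        push Not at hcon
        have h5 : 0 < (TT α β P).eval y := by linarith
        have := mul_neg_of_neg_of_pos (show P.eval y < 0 by linarith) h5
        linarith)
    refine ⟨x1, h1, h2, fun x h4 h5 => ?_⟩
    have h6 := h3 x h4 h5
    rw [derivative_neg, eval_neg, eval_neg, neg_div_neg_eq] at h6
    exact h6
  · have hpos : ∀ y, p < y → y < q → 0 < P.eval y := by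
      intro y h1 h2
      rcases le_total y m with h | h
      · have := same_sign P h fun u h6 h7 => hno u (h1.trans_le h6) (h7.trans_lt hm2)
        exact (mul_pos_iff_of_pos_right hs).1 this
      · have := same_sign P h fun u h6 h7 => hno u (hm1.trans_le h6) (h7.trans_lt h2)
        exact (mul_pos_iff_of_pos_left hs).1 this
    exact bad_pos α β hα hβ P hP hpq hp hq hpos (by
      intro y h1 h2
      have h3 := hT y h1 h2
      have h4 := hpos y h1 h2
      by_contra hcon
      push Not at hcon
      have := mul_neg_of_pos_of_neg h4 hcon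
      linarith)

end Pool.Agent.Zk6.JD
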