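import Pool.Agent.Zk6.JD6

set_option autoImplicit false

/-!
# Jensen polynomials, step 7: the zeros of `f(D) X ^ d` are bounded by `d ∑ 1 / |a|`
-/

namespace Pool.Agent.Zk6.JD

open Polynomial Set MeasureTheory
open Pool.Agent.TH99.RJ (nonreal nonreal_eq aeval_eq_map rop rop_mul rop_C rop_lin rop_quad
  natDegree_rop_pow natDegree_rop_pow_le)

/-- the complex zeros -/
noncomputable def rts (f : ℝ[X]) : Multiset ℂ := (f.map (algebraMap ℝ ℂ)).roots

/-- the sum of the inverse moduli of the zeros -/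
noncomputable def S1 (f : ℝ[X]) : ℝ := ((rts f).map fun a => 1 / ‖a‖).sum

theorem S1_nonneg (f : ℝ[X]) : 0 ≤ S1 f := by
  unfold S1
  refine Multiset.sum_nonneg fun y hy => ?_
  obtain ⟨a, -, rfl⟩ := Multiset.mem_map.1 hy
  positivity

theorem mem_rts {f : ℝ[X]} (hf : f ≠ 0) {a : ℂ} : a ∈ rts f ↔ aeval a f = 0 := by
  unfold rts
  rw [mem_roots, aeval_eq_map]
  · rfl
  · rwa [Ne, Polynomial.map_eq_zero_iff (algebraMap ℝ ℂ).injective]

theorem rts_lin (r : ℝ) (g : ℝ[X]) (hg : g ≠ 0) : rts ((X - C r) * g) = (r : ℂ) ::ₘ rts g := by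
  unfold rts
  have h0 : (X - C (r : ℂ)) * g.map (algebraMap ℝ ℂ) ≠ 0 := by
    refine mul_ne_zero (X_sub_C_ne_zero _) ?_
    rwa [Ne, Polynomial.map_eq_zero_iff (algebraMap ℝ ℂ).injective]
  rw [Polynomial.map_mul, Polynomial.map_sub, map_X, map_C]
  change ((X - C (r : ℂ)) * g.map (algebraMap ℝ ℂ)).roots = _
  rw [roots_mul h0, roots_X_sub_C, Multiset.singleton_add]

theorem quad_map (a : ℂ) : (X ^ 2 - C (2 * a.re) * X + C (‖a‖ ^ 2) : ℝ[X]).map (algebraMap ℝ ℂ) =
    (X - C a) * (X - C ((starRingEnd ℂ) a)) := by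
  have h4 : a * (starRingEnd ℂ) a = (‖a‖ : ℂ) ^ 2 := by
    rw [Complex.mul_conj, Complex.normSq_eq_norm_sq]
    push_cast
    rfl
  have h5 : a + (starRingEnd ℂ) a = (2 : ℂ) * (a.re : ℂ) := by
    rw [Complex.add_conj]
    push_cast
    rfl
  simp only [Polynomial.map_add, Polynomial.map_sub, Polynomial.map_mul, Polynomial.map_pow, map_X,
    map_C, Complex.coe_algebraMap, Complex.ofReal_mul, Complex.ofReal_pow, Complex.ofReal_ofNat]
  rw [← h4, ← h5]
  simp only [map_add, map_mul]
  ring

theorem rts_quad (a : ℂ) (g : ℝ[X]) (hg : g ≠ 0) :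
    rts ((X ^ 2 - C (2 * a.re) * X + C (‖a‖ ^ 2)) * g) = a ::ₘ (starRingEnd ℂ) a ::ₘ rts g := by
  unfold rts
  have h0 : (X - C a) * (X - C ((starRingEnd ℂ) a)) ≠ 0 :=
    mul_ne_zero (X_sub_C_ne_zero _) (X_sub_C_ne_zero _)
  rw [Polynomial.map_mul, quad_map, roots_mul, roots_mul h0, roots_X_sub_C, roots_X_sub_C,
    Multiset.singleton_add, Multiset.cons_add, Multiset.singleton_add]
  refine mul_ne_zero h0 ?_
  rwa [Ne, Polynomial.map_eq_zero_iff (algebraMap ℝ ℂ).injective]

/-- the zeros of `G' - a G` -/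
theorem lin_bound (G : ℂ[X]) (d : ℕ) (hd : G.natDegree ≤ d) (R : ℝ)
    (hR : ∀ z, G.IsRoot z → ‖z‖ ≤ R) (a : ℂ) (ha : a ≠ 0) (z : ℂ)
    (hz : (derivative G - C a * G).IsRoot z) : ‖z‖ ≤ R + d * (1 / ‖a‖) := by
  by_contra hcon
  push Not at hcon
  have hna : 0 < ‖a‖ := norm_pos_iff.2 ha
  have hzR : R < ‖z‖ := by
    have : 0 ≤ (d : ℝ) * (1 / ‖a‖) := by positivity
    linarith
  have hGz : G.eval z ≠ 0 := by
    intro h
    exact absurd (hR z h) (not_le.2 hzR)
  have h1 := (IsAlgClosed.splits G).eval_derivative_div_eval_of_ne_zero hGz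
  have h2 : (derivative G).eval z / G.eval z = a := by
    rw [div_eq_iff hGz]
    have : (derivative G - C a * G).eval z = 0 := hz
    rw [eval_sub, eval_mul, eval_C] at this
    exact sub_eq_zero.1 this
  rw [h2] at h1
  have h3 : ‖a‖ ≤ d * (1 / (‖z‖ - R)) := by
    have h4 : ∀ s : Multiset ℂ, (∀ y ∈ s, ‖y‖ ≤ R) →
        ‖(s.map fun y => 1 / (z - y)).sum‖ ≤ s.card * (1 / (‖z‖ - R)) := by
      intro s
      induction s using Multiset.induction_on with
      | empty => intro _; simp
      | cons y s ih =>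
        intro hs
        rw [Multiset.map_cons, Multiset.sum_cons, Multiset.card_cons]
        have h5 := ih fun u hu => hs u (Multiset.mem_cons_of_mem hu)
        have h6 : ‖1 / (z - y)‖ ≤ 1 / (‖z‖ - R) := by
          rw [norm_div, norm_one]
          refine one_div_le_one_div_of_le (by linarith) ?_
          have h7 := norm_sub_norm_le z y
          have h8 := hs y (Multiset.mem_cons_self y s)
          linarith
        refine (norm_add_le _ _).trans ?_
        push_cast
        linarith
    have h5 := h4 G.roots fun y hy => hR y (isRoot_of_mem_roots hy)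
    rw [h1]
    refine h5.trans ?_
    have h6 : (G.roots.card : ℝ) ≤ d := by
      exact_mod_cast G.card_roots'.trans hd
    exact mul_le_mul_of_nonneg_right h6 (by
      have : 0 < ‖z‖ - R := by linarith
      positivity)
  have h4 : 0 < ‖z‖ - R := by linarith
  have h5 : ‖a‖ * (‖z‖ - R) ≤ d := by
    have := mul_le_mul_of_nonneg_right h3 h4.le
    rwa [mul_assoc, one_div_mul_cancel h4.ne', mul_one] at this
  have h6 : (d : ℝ) * (1 / ‖a‖) < ‖z‖ - R := by linarith
  have h7 : (d : ℝ) < ‖a‖ * (‖z‖ - R) := by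
    rw [mul_one_div, div_lt_iff₀ hna] at h6
    linarith
  linarith

theorem natDegree_lin_le (G : ℂ[X]) (d : ℕ) (hd : G.natDegree ≤ d) (a : ℂ) :
    (derivative G - C a * G).natDegree ≤ d := by
  refine (natDegree_sub_le _ _).trans (max_le ?_ ?_)
  · exact (natDegree_derivative_le G).trans (by omega)
  · exact (natDegree_C_mul_le _ _).trans hd

/-- factorisation of a polynomial with `f(0) ≠ 0` -/
theorem fac_cases (f : ℝ[X]) (h0 : f.coeff 0 ≠ 0) (a : ℂ) (ha : aeval a f = 0) :
    (a.im = 0 ∧ ∃ g : ℝ[X], f = (X - C a.re) * g ∧ g.coeff 0 ≠ 0 ∧ f.natDegree = 1 + g.natDegree ∧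
      a.re ≠ 0) ∨
    (a.im ≠ 0 ∧ ∃ g : ℝ[X], f = (X ^ 2 - C (2 * a.re) * X + C (‖a‖ ^ 2)) * g ∧ g.coeff 0 ≠ 0 ∧
      f.natDegree = 2 + g.natDegree) := by
  have hf0 : f ≠ 0 := by rintro rfl; simp at h0
  by_cases him : a.im = 0
  · refine Or.inl ⟨him, ?_⟩
    have har : a = ((a.re : ℝ) : ℂ) := by
      apply Complex.ext
      · simp
      · simp [him]
    have hroot : f.IsRoot a.re := by
      rw [har, aeval_coe] at ha
      exact_mod_cast ha
    obtain ⟨g, hg⟩ := dvd_iff_isRoot.2 hroot
    have hg0 : g ≠ 0 := by rintro rfl; rw [mul_zero] at hg; exact hf0 hg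
    have hfg : f.natDegree = 1 + g.natDegree := by
      conv_lhs => rw [hg]
      rw [natDegree_mul (X_sub_C_ne_zero _) hg0, natDegree_X_sub_C]
    refine ⟨g, hg, ?_, hfg, ?_⟩
    · intro h
      apply h0
      rw [hg, mul_coeff_zero, h, mul_zero]
    · intro h
      apply h0
      rw [hg, mul_coeff_zero, h]
      simp
  · refine Or.inr ⟨him, ?_⟩
    obtain ⟨g, hg⟩ := quadratic_dvd_of_aeval_eq_zero_im_ne_zero f ha him
    have hg0 : g ≠ 0 := by rintro rfl; rw [mul_zero] at hg; exact hf0 hg
    have hq : (X ^ 2 - C (2 * a.re) * X + C (‖a‖ ^ 2) : ℝ[X]).natDegree = 2 := by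
      have : (X ^ 2 - C (2 * a.re) * X + C (‖a‖ ^ 2) : ℝ[X]) =
          C 1 * X ^ 2 + C (-(2 * a.re)) * X + C (‖a‖ ^ 2) := by
        simp only [map_neg, map_one]; ring
      rw [this]
      exact natDegree_quadratic one_ne_zero
    have hq0 : (X ^ 2 - C (2 * a.re) * X + C (‖a‖ ^ 2) : ℝ[X]) ≠ 0 := by
      intro h
      rw [h] at hq
      simp at hq
    have hfg : f.natDegree = 2 + g.natDegree := by
      conv_lhs => rw [hg]
      rw [natDegree_mul hq0 hg0, hq]
    refine ⟨g, hg, ?_, hfg⟩
    intro h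
    apply h0
    rw [hg, mul_coeff_zero, h, mul_zero]

theorem root_bound (d : ℕ) : ∀ (N : ℕ) (f : ℝ[X]), f.natDegree ≤ N → f.coeff 0 ≠ 0 →
    ∀ z : ℂ, aeval z (rop f (X ^ d)) = 0 → ‖z‖ ≤ d * S1 f := by
  intro N
  induction N with
  | zero =>
    intro f hf h0 z hz
    obtain ⟨e, rfl⟩ := natDegree_eq_zero.1 (Nat.le_zero.1 hf)
    rw [coeff_C_zero] at h0
    rw [rop_C, map_mul, aeval_C, map_pow, aeval_X] at hz
    have h1 : z ^ d = 0 := by
      refine (mul_eq_zero.1 hz).resolve_left ?_
      simpa using h0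
    have h2 : z = 0 := by
      by_contra h
      exact pow_ne_zero d h h1
    rw [h2, norm_zero]
    exact mul_nonneg (Nat.cast_nonneg _) (S1_nonneg _)
  | succ N ih =>
    intro f hf h0 z hz
    rcases Nat.lt_or_ge f.natDegree (N + 1) with hlt | hge
    · exact ih f (by omega) h0 z hz
    have hdeg : (f.map (algebraMap ℝ ℂ)).degree ≠ 0 := by
      rw [degree_map]
      intro h
      have := natDegree_eq_zero_iff_degree_le_zero.2 h.le
      omega
    obtain ⟨a, ha⟩ := IsAlgClosed.exists_root _ hdeg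
    have ha' : aeval a f = 0 := by rw [aeval_eq_map]; exact ha
    rcases fac_cases f h0 a ha' with ⟨him, g, hg, hg0, hgd, hre⟩ | ⟨him, g, hg, hg0, hgd⟩
    · have hgne : g ≠ 0 := by rintro rfl; simp at hg0
      have h1 := ih g (by omega) hg0
      have har : ((a.re : ℝ) : ℂ) ≠ 0 := by exact_mod_cast hre
      have h2 := lin_bound ((rop g (X ^ d)).map (algebraMap ℝ ℂ)) d (by
        rw [natDegree_map]
        exact natDegree_rop_pow_le g d) (d * S1 g) (fun y hy => h1 y (by
          rw [aeval_eq_map]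
          exact hy)) (a.re : ℂ) har z (by
          have h3 : rop f (X ^ d) = derivative (rop g (X ^ d)) - C a.re * rop g (X ^ d) := by
            rw [hg, rop_mul, rop_lin]
          rw [h3, aeval_eq_map] at hz
          rw [Polynomial.map_sub, Polynomial.map_mul, map_C, ← derivative_map] at hz
          exact hz)
      refine h2.trans (le_of_eq ?_)
      have h4 : S1 f = 1 / ‖((a.re : ℝ) : ℂ)‖ + S1 g := by
        unfold S1
        rw [hg, rts_lin _ _ hgne, Multiset.map_cons, Multiset.sum_cons]
      rw [h4]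
      ring
    · have hgne : g ≠ 0 := by rintro rfl; simp at hg0
      have h1 := ih g (by omega) hg0
      have hane : a ≠ 0 := by
        rintro rfl
        simp at him
      have hcne : (starRingEnd ℂ) a ≠ 0 := by
        intro h
        apply hane
        rwa [map_eq_zero] at h
      set G := (rop g (X ^ d)).map (algebraMap ℝ ℂ) with hG
      have hGd : G.natDegree ≤ d := by
        rw [hG, natDegree_map]
        exact natDegree_rop_pow_le g d
      have h2 := lin_bound G d hGd (d * S1 g) (fun y hy => h1 y (by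
          rw [aeval_eq_map]
          exact hy)) ((starRingEnd ℂ) a) hcne
      have h3 := lin_bound (derivative G - C ((starRingEnd ℂ) a) * G) d
        (natDegree_lin_le G d hGd _) _ h2 a hane z (by
          have h3 : rop f (X ^ d) = derivative (derivative (rop g (X ^ d))) -
              C (2 * a.re) * derivative (rop g (X ^ d)) + C (‖a‖ ^ 2) * rop g (X ^ d) := by
            rw [hg, rop_mul, rop_quad]
          rw [h3, aeval_eq_map] at hz
          have h4 : a * (starRingEnd ℂ) a = (‖a‖ : ℂ) ^ 2 := by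
            rw [Complex.mul_conj, Complex.normSq_eq_norm_sq]
            push_cast
            rfl
          have h5 : a + (starRingEnd ℂ) a = (2 : ℂ) * (a.re : ℂ) := by
            rw [Complex.add_conj]
            push_cast
            rfl
          have h6 : (derivative (derivative (rop g (X ^ d))) -
              C (2 * a.re) * derivative (rop g (X ^ d)) + C (‖a‖ ^ 2) * rop g (X ^ d)).map
                (algebraMap ℝ ℂ) =
              derivative (derivative G - C ((starRingEnd ℂ) a) * G) -
                C a * (derivative G - C ((starRingEnd ℂ) a) * G) := by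
            rw [Polynomial.map_add, Polynomial.map_sub, Polynomial.map_mul, Polynomial.map_mul,
              map_C, map_C, ← derivative_map, ← derivative_map, ← hG]
            simp only [Complex.coe_algebraMap, Complex.ofReal_mul, Complex.ofReal_pow,
              Complex.ofReal_ofNat, derivative_sub, derivative_mul, derivative_C, zero_mul,
              zero_add]
            rw [← h4, ← h5, map_add, map_mul]
            ring
          rw [h6] at hz
          exact hz)
      refine h3.trans (le_of_eq ?_)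
      have h4 : S1 f = 1 / ‖a‖ + (1 / ‖(starRingEnd ℂ) a‖ + S1 g) := by
        unfold S1
        rw [hg, rts_quad _ _ hgne, Multiset.map_cons, Multiset.sum_cons, Multiset.map_cons,
          Multiset.sum_cons]
      rw [h4]
      ring

end Pool.Agent.Zk6.JD
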