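import Pool.Agent.H469R2.NK.KL
import Pool.Agent.H428R3.SN.Detect

set_option autoImplicit false

/-! The second derivative test of van der Corput, discrete form, and partial summation with
monotone weights. -/

namespace Pool.Agent.Zk6

open Finset
open Pool.Agent.H469R2.NK (e norm_e e_add kusmin_landau_mono)
open Pool.Agent.H428R3.SN (e_int)

/-- a lower closed filter of `range L` is a range -/
lemma filter_range {P : ℕ → Prop} [DecidablePred P] (L : ℕ)
    (h : ∀ m n : ℕ, m ≤ n → n < L → P n → P m) :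
    (range L).filter P = range ((range L).filter P).card := by
  have h1 : ∃ J : ℕ, (range L).filter P = range J := by
    classical
    by_cases h0 : ∃ n, n < L ∧ ¬ P n
    · refine ⟨Nat.find h0, ?_⟩
      obtain ⟨f1, f2⟩ := Nat.find_spec h0
      ext n
      simp only [mem_filter, mem_range]
      constructor
      · rintro ⟨g1, g2⟩
        by_contra hn
        exact f2 (h _ n (not_lt.mp hn) g1 g2)
      · intro hn
        have := Nat.find_min h0 hn
        push Not at this
        exact ⟨hn.trans f1, this (hn.trans f1)⟩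
    · push Not at h0
      refine ⟨L, ?_⟩
      ext n
      simp only [mem_filter, mem_range]
      exact ⟨fun h => h.1, fun h => ⟨h, h0 n h⟩⟩
  obtain ⟨J, hJ⟩ := h1
  rw [hJ, card_range]

section
variable {x : ℕ → ℝ} {L : ℕ} {lm : ℝ}

/-- counting function of the differences -/
noncomputable def cnt (x : ℕ → ℝ) (L : ℕ) (t : ℝ) : ℕ :=
  ((range L).filter fun n => x (n + 1) - x n < t).card

lemma cnt_le (x : ℕ → ℝ) (L : ℕ) (t : ℝ) : cnt x L t ≤ L :=
  (card_filter_le _ _).trans (by simp)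

lemma mono_D (hm : ∀ n, n + 1 < L → lm ≤ (x (n + 2) - x (n + 1)) - (x (n + 1) - x n)) :
    ∀ m n : ℕ, m ≤ n → n < L → x (m + 1) - x m + lm * ((n:ℝ) - m) ≤ x (n + 1) - x n := by
  intro m n hmn
  induction n, hmn using Nat.le_induction with
  | base => intro _; simp
  | succ n hn ih =>
    intro h
    have h1 := ih (by omega)
    have h2 := hm n h
    rw [show n + 1 + 1 = n + 2 by ring]
    push_cast
    linarith

lemma cnt_iff (hlm : 0 ≤ lm) (hm : ∀ n, n + 1 < L → lm ≤ (x (n + 2) - x (n + 1)) - (x (n + 1) - x n))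
    (t : ℝ) {n : ℕ} (hn : n < L) : x (n + 1) - x n < t ↔ n < cnt x L t := by
  have h1 := filter_range (P := fun n => x (n + 1) - x n < t) L (by
    intro m k hmk hk hP
    have := mono_D hm m k hmk hk
    have h2 : (m:ℝ) ≤ k := by exact_mod_cast hmk
    have h3 : 0 ≤ lm * ((k:ℝ) - m) := mul_nonneg hlm (by linarith)
    show x (m + 1) - x m < t
    linarith)
  have h2 : n ∈ (range L).filter (fun n => x (n + 1) - x n < t) ↔ n ∈ range (cnt x L t) := by
    unfold cnt; rw [← h1]
  rw [mem_filter, mem_range, mem_range] at h2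
  tauto

lemma cnt_mono {s t : ℝ} (h : s ≤ t) : cnt x L s ≤ cnt x L t := by
  unfold cnt
  refine card_le_card fun n hn => ?_
  rw [mem_filter] at hn ⊢
  exact ⟨hn.1, hn.2.trans_le h⟩

lemma cnt_short (hlm : 0 < lm) (hm : ∀ n, n + 1 < L → lm ≤ (x (n + 2) - x (n + 1)) - (x (n + 1) - x n))
    {s t : ℝ} (h : s ≤ t) : (cnt x L t : ℝ) - cnt x L s ≤ (t - s) / lm + 1 := by
  have h1 := cnt_mono (x := x) (L := L) h
  rcases Nat.eq_or_lt_of_le h1 with h2 | h2
  · rw [h2]
    have : 0 ≤ (t - s) / lm := div_nonneg (by linarith) hlm.le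
    linarith
  · have h3 := cnt_le x L t
    obtain ⟨k, hk⟩ : ∃ k, cnt x L t = k + 1 := ⟨cnt x L t - 1, by omega⟩
    have h4 : x (k + 1) - x k < t := (cnt_iff hlm.le hm t (by omega)).mpr (by omega)
    have h5 : s ≤ x (cnt x L s + 1) - x (cnt x L s) := by
      by_contra h6
      push Not at h6
      have := (cnt_iff hlm.le hm s (by omega)).mp h6
      omega
    have h6 := mono_D hm (cnt x L s) k (by omega) (by omega)
    have h7 : lm * ((k:ℝ) - cnt x L s) ≤ t - s := by linarith
    have h8 : (k:ℝ) - cnt x L s ≤ (t - s) / lm := by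
      rw [le_div_iff₀ hlm]; linarith
    rw [hk]; push_cast
    linarith

lemma sum_range_sub_card (f : ℕ → ℂ) (hf : ∀ n, ‖f n‖ ≤ 1) {a b : ℕ} (h : a ≤ b) :
    ‖∑ n ∈ range b, f n‖ ≤ ‖∑ n ∈ range a, f n‖ + ((b:ℝ) - a) := by
  rw [← sum_range_add_sum_Ico _ h]
  refine (norm_add_le _ _).trans (add_le_add le_rfl ?_)
  refine (norm_sum_le _ _).trans ((sum_le_sum fun n _ => hf n).trans ?_)
  rw [sum_const, Nat.card_Ico, nsmul_eq_mul, mul_one, Nat.cast_sub h]

/-- one period -/
lemma one_per (hlm : 0 < lm) (hm : ∀ n, n + 1 < L → lm ≤ (x (n + 2) - x (n + 1)) - (x (n + 1) - x n))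
    {θ : ℝ} (h0 : 0 < θ) (h1 : θ ≤ 1 / 2) (v : ℤ) :
    ‖∑ n ∈ range (cnt x L (v + 1)), e (x n)‖ ≤ ‖∑ n ∈ range (cnt x L v), e (x n)‖ +
      (2 / θ + 2 * (θ / lm + 1)) := by
  have a1 := sum_range_sub_card (fun n => e (x n)) (fun n => (norm_e _).le)
    (cnt_mono (x := x) (L := L) (show (v:ℝ) + 1 - θ ≤ v + 1 by linarith))
  have a2 := cnt_short hlm hm (show (v:ℝ) + 1 - θ ≤ v + 1 by linarith)
  have a3 := sum_range_sub_card (fun n => e (x n)) (fun n => (norm_e _).le)
    (cnt_mono (x := x) (L := L) (show (v:ℝ) ≤ v + θ by linarith))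
  have a4 := cnt_short hlm hm (show (v:ℝ) ≤ v + θ by linarith)
  have h5 := cnt_mono (x := x) (L := L) (show (v:ℝ) + θ ≤ v + 1 - θ by linarith)
  have h6 := cnt_le x L (v + 1 - θ)
  have a5 : ‖∑ n ∈ range (cnt x L (v + 1 - θ)), e (x n)‖ ≤
      ‖∑ n ∈ range (cnt x L (v + θ)), e (x n)‖ + 2 / θ := by
    rw [← sum_range_add_sum_Ico _ h5]
    refine (norm_add_le _ _).trans (add_le_add le_rfl ?_)
    rw [sum_Ico_eq_sum_range]
    set c0 := cnt x L (v + θ) with hc0
    set N := cnt x L (v + 1 - θ) - c0 with hN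
    have e1 : ∀ n ∈ range N, e (x (c0 + n)) = e (x (c0 + n) - v * n) := by
      intro n _
      have e2 : x (c0 + n) = (x (c0 + n) - v * n) + ((v * (n:ℤ) : ℤ) : ℝ) := by push_cast; ring
      conv_lhs => rw [e2]
      rw [e_add, e_int, mul_one]
    rw [sum_congr rfl e1]
    refine kusmin_landau_mono (fun n => x (c0 + n) - v * n) N h0 ?_ ?_ ?_
    · intro n hn
      have g1 : v + θ ≤ x (c0 + n + 1) - x (c0 + n) := by
        by_contra g
        push Not at g
        have := (cnt_iff hlm.le hm (v + θ) (show c0 + n < L by omega)).mp g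
        omega
      push_cast
      rw [← add_assoc]
      linarith
    · intro n hn
      have g1 : x (c0 + n + 1) - x (c0 + n) < v + 1 - θ :=
        (cnt_iff hlm.le hm (v + 1 - θ) (show c0 + n < L by omega)).mpr (by omega)
      push_cast
      rw [← add_assoc]
      linarith
    · intro n hn
      have g1 := hm (c0 + n) (by omega)
      push_cast
      rw [← add_assoc, ← add_assoc]
      linarith
  have e3 : ((v:ℝ) + 1 - ((v:ℝ) + 1 - θ)) / lm = θ / lm := by congr 1; ring
  have e4 : ((v:ℝ) + θ - v) / lm = θ / lm := by congr 1; ring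
  rw [e3] at a2
  rw [e4] at a4
  linarith

/-- the second derivative test -/
theorem sdt (hlm : 0 < lm) {La : ℝ} (hm : ∀ n, n + 1 < L → lm ≤ (x (n + 2) - x (n + 1)) - (x (n + 1) - x n))
    (hM : ∀ n, n + 1 < L → (x (n + 2) - x (n + 1)) - (x (n + 1) - x n) ≤ La) (hLa : lm ≤ La) :
    ‖∑ n ∈ range L, e (x n)‖ ≤ 6 * (La * L + 2) / √lm := by
  rcases Nat.eq_zero_or_pos L with rfl | hL
  · have : 0 < La := lt_of_lt_of_le hlm hLa
    simp only [range_zero, sum_empty, norm_zero]; positivity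
  have hL1 : (1:ℝ) ≤ L := by exact_mod_cast hL
  have hs : 0 < √lm := Real.sqrt_pos.mpr hlm
  have hss : √lm * √lm = lm := Real.mul_self_sqrt hlm.le
  rcases le_or_gt (1 / 4) lm with h4 | h4
  · have h1 : ‖∑ n ∈ range L, e (x n)‖ ≤ L := by
      refine (norm_sum_le _ _).trans ((sum_le_sum fun n _ => (norm_e _).le).trans ?_)
      simp
    refine h1.trans ?_
    rw [le_div_iff₀ hs]
    have h2 : √lm ≤ 2 * lm := by
      have : 1 / 2 ≤ √lm := by
        rw [show (1:ℝ) / 2 = √((1/2)^2) by rw [Real.sqrt_sq (by norm_num)]]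
        exact Real.sqrt_le_sqrt (by linarith)
      nlinarith
    have h3 : (L:ℝ) * √lm ≤ L * (2 * La) := mul_le_mul_of_nonneg_left (by linarith) (by linarith)
    nlinarith [mul_pos hlm (lt_of_lt_of_le one_pos hL1), mul_le_mul_of_nonneg_right hLa (by linarith : (0:ℝ) ≤ L)]
  · have hθ : √lm ≤ 1 / 2 := by
      rw [show (1:ℝ) / 2 = √((1/2)^2) by rw [Real.sqrt_sq (by norm_num)]]
      exact Real.sqrt_le_sqrt (by linarith)
    set K : ℝ := 2 / √lm + 2 * (√lm / lm + 1) with hK
    have hK1 : K ≤ 5 / √lm := by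
      have : √lm / lm = 1 / √lm := by
        rw [div_eq_div_iff hlm.ne' hs.ne']; linarith
      rw [hK, this, le_div_iff₀ hs]
      have e1 : (2 / √lm + 2 * (1 / √lm + 1)) * √lm = 4 + 2 * √lm := by field_simp; ring
      rw [e1]; linarith
    have hK0 : 0 ≤ K := by positivity
    set v0 : ℤ := ⌊x 1 - x 0⌋ with hv0
    have hind : ∀ j : ℕ, ‖∑ n ∈ range (cnt x L ((v0 + j : ℤ) : ℝ)), e (x n)‖ ≤ j * K := by
      intro j
      induction j with
      | zero =>
        have : cnt x L ((v0 + (0:ℕ) : ℤ) : ℝ) = 0 := by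
          by_contra h
          have h1 := (cnt_iff hlm.le hm ((v0 + (0:ℕ) : ℤ) : ℝ) hL).mpr (Nat.pos_of_ne_zero h)
          have h2 := Int.floor_le (x 1 - x 0)
          rw [← hv0] at h2
          push_cast at h1
          simp only [add_zero] at h1
          linarith
        rw [this]; simp
      | succ j ih =>
        have h1 := one_per hlm hm hs hθ (v0 + j)
        rw [show ((v0 + (j + 1 : ℕ) : ℤ) : ℝ) = ((v0 + j : ℤ) : ℝ) + 1 by push_cast; ring]
        refine h1.trans ?_
        push_cast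
        push_cast at ih
        linarith
    obtain ⟨k, rfl⟩ : ∃ k, L = k + 1 := ⟨L - 1, by omega⟩
    have hDk : x (k + 1) - x k ≤ x 1 - x 0 + La * (k:ℝ) := by
      have : ∀ n, n < k + 1 → x (n + 1) - x n ≤ x 1 - x 0 + La * (n:ℝ) := by
        intro n
        induction n with
        | zero => intro _; simp
        | succ n ih =>
          intro h
          have h1 := ih (by omega)
          have h2 := hM n h
          rw [show n + 1 + 1 = n + 2 by ring]
          push_cast
          linarith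
      exact this k (by omega)
    set j : ℕ := (⌊x (k + 1) - x k⌋ + 1 - v0).toNat with hj
    have hmo := mono_D hm 0 k (by omega) (by omega)
    have hk0 : (0:ℝ) ≤ k := Nat.cast_nonneg _
    have hfl : v0 ≤ ⌊x (k + 1) - x k⌋ := by
      refine Int.floor_le_floor ?_
      simp only [zero_add, CharP.cast_eq_zero, sub_zero] at hmo
      have := mul_nonneg hlm.le hk0
      linarith
    have hjv : ((v0 + j : ℤ) : ℝ) = ⌊x (k + 1) - x k⌋ + 1 := by
      have : v0 + (j:ℤ) = ⌊x (k + 1) - x k⌋ + 1 := by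
        rw [hj, Int.toNat_of_nonneg (by omega)]; ring
      rw [this]; push_cast; ring
    have hc : cnt x (k + 1) ((v0 + j : ℤ) : ℝ) = k + 1 := by
      have h1 : k < cnt x (k + 1) ((v0 + j : ℤ) : ℝ) := by
        refine (cnt_iff hlm.le hm _ (by omega)).mp ?_
        rw [hjv]
        exact Int.lt_floor_add_one _
      have h2 := cnt_le x (k + 1) ((v0 + j : ℤ) : ℝ)
      omega
    have h1 := hind j
    rw [hc] at h1
    refine h1.trans ?_
    have hj2 : (j:ℝ) ≤ La * ((k + 1 : ℕ) : ℝ) + 2 := by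
      have h2 := Int.floor_le (x (k + 1) - x k)
      have h3 := Int.lt_floor_add_one (x 1 - x 0)
      rw [← hv0] at h3
      push_cast at hjv ⊢
      have h4 : 0 < La := lt_of_lt_of_le hlm hLa
      linarith
    calc (j:ℝ) * K ≤ (La * ((k + 1 : ℕ) : ℝ) + 2) * (5 / √lm) := mul_le_mul hj2 hK1 hK0 (by
          have h4 : 0 < La := lt_of_lt_of_le hlm hLa
          positivity)
      _ ≤ (La * ((k + 1 : ℕ) : ℝ) + 2) * (6 / √lm) := by
          have h4 : 0 < La := lt_of_lt_of_le hlm hLa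
          gcongr
          norm_num
      _ = _ := by ring

end

/-- partial summation with an antitone weight -/
theorem psum_anti (z : ℕ → ℂ) (a : ℕ → ℝ) (L : ℕ) {B A : ℝ} (hB : ∀ l ≤ L, ‖∑ n ∈ range l, z n‖ ≤ B)
    (ha0 : ∀ n < L, 0 ≤ a n) (ha : ∀ n, n + 1 < L → a (n + 1) ≤ a n) (hA : 0 < L → a 0 ≤ A) (hA0 : 0 ≤ A) :
    ‖∑ n ∈ range L, (a n : ℂ) * z n‖ ≤ A * B := by
  have hB0 : 0 ≤ B := (norm_nonneg _).trans (hB 0 (Nat.zero_le _))
  rcases Nat.eq_zero_or_pos L with rfl | hL
  · simp only [range_zero, sum_empty, norm_zero]; positivity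
  obtain ⟨k, rfl⟩ : ∃ k, L = k + 1 := ⟨L - 1, by omega⟩
  have key : ∀ m, m ≤ k → ∑ n ∈ range (m + 1), (a n : ℂ) * z n =
      (a m : ℂ) * ∑ n ∈ range (m + 1), z n +
        ∑ n ∈ range m, ((a n - a (n + 1) : ℝ) : ℂ) * ∑ i ∈ range (n + 1), z i := by
    intro m
    induction m with
    | zero => intro _; simp
    | succ m ih =>
      intro h
      rw [sum_range_succ, ih (by omega), sum_range_succ (fun n => ((a n - a (n + 1) : ℝ) : ℂ) * _) m,
        sum_range_succ z (m + 1)]
      push_cast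
      ring
  rw [key k le_rfl]
  have h1 : ‖(a k : ℂ) * ∑ n ∈ range (k + 1), z n‖ ≤ a k * B := by
    rw [norm_mul, Complex.norm_real, Real.norm_eq_abs, abs_of_nonneg (ha0 k (by omega))]
    exact mul_le_mul_of_nonneg_left (hB _ le_rfl) (ha0 k (by omega))
  have h2 : ‖∑ n ∈ range k, ((a n - a (n + 1) : ℝ) : ℂ) * ∑ i ∈ range (n + 1), z i‖ ≤
      ∑ n ∈ range k, (a n - a (n + 1)) * B := by
    refine (norm_sum_le _ _).trans (sum_le_sum fun n hn => ?_)
    rw [mem_range] at hn
    have h3 : 0 ≤ a n - a (n + 1) := by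
      have := ha n (by omega)
      linarith
    rw [norm_mul, Complex.norm_real, Real.norm_eq_abs, abs_of_nonneg h3]
    exact mul_le_mul_of_nonneg_left (hB _ (by omega)) h3
  have h3 : ∑ n ∈ range k, (a n - a (n + 1)) * B = (a 0 - a k) * B := by
    rw [← sum_mul, sum_range_sub']
  refine (norm_add_le _ _).trans ?_
  rw [h3] at h2
  have h4 : a 0 * B ≤ A * B := mul_le_mul_of_nonneg_right (hA (by omega)) hB0
  linarith

/-- partial summation with the product of an antitone and a monotone weight -/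
theorem psum_prod (z : ℕ → ℂ) (a g : ℕ → ℝ) (L : ℕ) {B A : ℝ} (hB : ∀ l ≤ L, ‖∑ n ∈ range l, z n‖ ≤ B)
    (ha0 : ∀ n < L, 0 ≤ a n) (ha : ∀ n, n + 1 < L → a (n + 1) ≤ a n) (hA : 0 < L → a 0 ≤ A) (hA0 : 0 ≤ A)
    (hg0 : ∀ n < L, 0 ≤ g n) (hg1 : ∀ n < L, g n ≤ 1) (hg : ∀ n, n + 1 < L → g n ≤ g (n + 1)) :
    ‖∑ n ∈ range L, (a n : ℂ) * ((g n : ℂ) * z n)‖ ≤ 2 * A * B := by
  have h1 : ∀ l ≤ L, ‖∑ n ∈ range l, (g n : ℂ) * z n‖ ≤ 2 * B := by
    intro l hl
    have h2 := psum_anti z (fun n => 1 - g n) l (B := B) (A := 1) (fun i hi => hB i (hi.trans hl))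
      (fun n hn => by have := hg1 n (by omega); linarith)
      (fun n hn => by have := hg n (by omega); linarith)
      (fun h => by have := hg0 0 (by omega); linarith) zero_le_one
    have h3 : ∑ n ∈ range l, (g n : ℂ) * z n =
        ∑ n ∈ range l, z n - ∑ n ∈ range l, ((1 - g n : ℝ) : ℂ) * z n := by
      rw [← sum_sub_distrib]
      refine sum_congr rfl fun n _ => ?_
      push_cast; ring
    rw [h3]
    refine (norm_sub_le _ _).trans ?_
    have := hB l hl
    linarith
  have h2 := psum_anti (fun n => (g n : ℂ) * z n) a L h1 ha0 ha hA hA0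
  linarith

end Pool.Agent.Zk6
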