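import Pool.Agent.Zk6.K1
import Pool.Agent.Y587.GP.V

set_option autoImplicit false

/-! One block of the off-diagonal sum. -/

namespace Pool.Agent.Zk6

open Finset
open Pool.Agent.H469R2.NK (e norm_e)
open Pool.Agent.Y969.GP (V V1 ht co PS S_V)

lemma V_anti {x y : ℝ} (hx : 0 < x) (hxy : x ≤ y) : V y ≤ V x := by
  unfold V
  have h0 : (0:ℝ) ≤ (2 * √Real.pi)⁻¹ := by positivity
  refine mul_le_mul_of_nonneg_left ?_ h0
  have hint : MeasureTheory.Integrable (fun v : ℝ => Real.exp (-v ^ 2 / 4)) := by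
    have := integrable_exp_neg_mul_sq (b := 1 / 4) (by norm_num)
    refine this.congr (Filter.Eventually.of_forall fun v => ?_)
    simp only
    congr 1; ring
  refine MeasureTheory.setIntegral_mono_set hint.integrableOn
    (Filter.Eventually.of_forall fun v => (Real.exp_pos _).le) ?_
  exact (Set.Ioi_subset_Ioi (Real.log_le_log hx hxy)).eventuallyLE

lemma V_nn {x : ℝ} (hx : 0 < x) : 0 ≤ V x := (Pool.Agent.Y587.GP.t_V.1 x hx).1

lemma V_le {x : ℝ} (hx : 0 < x) : V x ≤ 1 := (Pool.Agent.Y587.GP.t_V.1 x hx).2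

lemma co_nn {p : ℕ × ℕ} (hp : 0 < ht p) {T : ℝ} (hT : 0 < T) : 0 ≤ co p T := by
  unfold co
  have := V_nn (show 0 < 2 * Real.pi * ht p / T by positivity)
  positivity

lemma co_le {p : ℕ × ℕ} (hp : 0 < ht p) {T : ℝ} (hT : 0 < T) : co p T ≤ 2 * (√(ht p))⁻¹ := by
  unfold co
  have := V_le (show 0 < 2 * Real.pi * ht p / T by positivity)
  have h1 : (0:ℝ) ≤ 2 * (√(ht p))⁻¹ := by positivity
  nlinarith

lemma co_anti {p q : ℕ × ℕ} (hp : 0 < ht p) (hpq : ht p ≤ ht q) {T : ℝ} (hT : 0 < T) :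
    co q T ≤ co p T := by
  unfold co
  have h1 : 0 < 2 * Real.pi * ht p / T := by positivity
  have h2 : 2 * Real.pi * ht p / T ≤ 2 * Real.pi * ht q / T := by
    have := Real.pi_pos
    gcongr
  have h3 := V_anti h1 h2
  have h4 := V_nn (h1.trans_le h2)
  have h5 : (√(ht q))⁻¹ ≤ (√(ht p))⁻¹ := by
    apply inv_anti₀ (Real.sqrt_pos.mpr hp) (Real.sqrt_le_sqrt hpq)
  have h6 : (0:ℝ) ≤ (√(ht q))⁻¹ := by positivity
  have h7 := V_nn h1
  calc 2 * (√(ht q))⁻¹ * V (2 * Real.pi * ht q / T) ≤ 2 * (√(ht p))⁻¹ * V (2 * Real.pi * ht p / T) := by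
        gcongr

/-- second difference of the logarithm -/
lemma d2_log {A B k : ℝ} (hk : 0 < k) (hA : 2 * k ≤ A) (hAB : A < B) :
    k ^ 2 * (B ^ 2 - A ^ 2) / (A ^ 2 * B ^ 2) ≤
      (Real.log (B + k) - Real.log (A + k)) - (Real.log B - Real.log A) -
        ((Real.log B - Real.log A) - (Real.log (B - k) - Real.log (A - k))) ∧
    (Real.log (B + k) - Real.log (A + k)) - (Real.log B - Real.log A) -
        ((Real.log B - Real.log A) - (Real.log (B - k) - Real.log (A - k))) ≤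
      4 / 3 * (k ^ 2 * (B ^ 2 - A ^ 2) / (A ^ 2 * B ^ 2)) := by
  have hA0 : 0 < A := by linarith
  have hB0 : 0 < B := by linarith
  set X1 : ℝ := 1 - (k / A) ^ 2 with hX1
  set X2 : ℝ := 1 - (k / B) ^ 2 with hX2
  have q1 : Real.log X1 = Real.log (A + k) + Real.log (A - k) - 2 * Real.log A := by
    have : X1 = (A + k) * (A - k) / (A * A) := by rw [hX1]; field_simp; ring
    rw [this, Real.log_div (mul_ne_zero (by linarith) (by linarith)) (by positivity),
      Real.log_mul (by linarith) (by linarith), Real.log_mul (by linarith) (by linarith)]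
    ring
  have q2 : Real.log X2 = Real.log (B + k) + Real.log (B - k) - 2 * Real.log B := by
    have : X2 = (B + k) * (B - k) / (B * B) := by rw [hX2]; field_simp; ring
    rw [this, Real.log_div (mul_ne_zero (by linarith) (by linarith)) (by positivity),
      Real.log_mul (by linarith) (by linarith), Real.log_mul (by linarith) (by linarith)]
    ring
  have hd : X2 - X1 = k ^ 2 * (B ^ 2 - A ^ 2) / (A ^ 2 * B ^ 2) := by
    rw [hX1, hX2]; field_simp; ring
  have hkA : (k / A) ^ 2 ≤ 1 / 4 := by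
    have : k / A ≤ 1 / 2 := by rw [div_le_div_iff₀ hA0 (by norm_num)]; linarith
    have h0 : 0 ≤ k / A := by positivity
    nlinarith
  have hX1' : 3 / 4 ≤ X1 := by linarith
  have hd0 : 0 ≤ X2 - X1 := by
    rw [hd]
    have : 0 ≤ B ^ 2 - A ^ 2 := by nlinarith
    positivity
  have hX2' : X2 ≤ 1 := by
    have : 0 ≤ (k / B) ^ 2 := by positivity
    linarith
  have e1 : (Real.log (B + k) - Real.log (A + k)) - (Real.log B - Real.log A) -
        ((Real.log B - Real.log A) - (Real.log (B - k) - Real.log (A - k))) = Real.log X2 - Real.log X1 := by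
    rw [q1, q2]; ring
  rw [e1, ← hd, ← Real.log_div (by linarith) (by linarith)]
  have hX10 : 0 < X1 := by linarith
  have hX20 : 0 < X2 := by linarith
  constructor
  · have h1 := Real.one_sub_inv_le_log_of_pos (div_pos hX20 hX10)
    refine le_trans ?_ h1
    have h2 : 1 - (X2 / X1)⁻¹ = (X2 - X1) / X2 := by field_simp
    rw [h2, le_div_iff₀ hX20]
    nlinarith
  · have h1 := Real.log_le_sub_one_of_pos (div_pos hX20 hX10)
    refine h1.trans ?_
    have h2 : X2 / X1 - 1 = (X2 - X1) / X1 := by field_simp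
    rw [h2, div_le_iff₀ hX10]
    nlinarith

/-- the frequency of the pair `(m,n)` against `(h,k)` -/
noncomputable def LL (h k : ℕ) (p : ℕ × ℕ) : ℝ :=
  (Real.log p.2 - Real.log p.1) + (Real.log k - Real.log h)

/-- the block lemma: the exponential sum -/
lemma blk_exp {h k m0 n0 r M J : ℕ} (hh : 1 ≤ h) (hk : 1 ≤ k) (hr : 1 ≤ r) (hkM : k ≤ M) (hm0 : M ≤ m0)
    (hrel : n0 * k = m0 * h + r) (hrM : r ≤ M * h) (hJ : ∀ j < J, m0 + k * j < 2 * M) {T : ℝ} (hT : 0 < T) :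
    ‖∑ j ∈ range J, Complex.exp (Complex.I * ((T * LL h k (m0 + k * j, n0 + h * j) : ℝ) : ℂ))‖ ≤
      38 * √(T * ((r:ℝ) / h) / M) + 86 * √((M:ℝ) ^ 3 / (T * ((r:ℝ) / h))) := by
  have hh0 : (0:ℝ) < h := by exact_mod_cast hh
  have hk0 : (0:ℝ) < k := by exact_mod_cast hk
  have hk1 : (1:ℝ) ≤ k := by exact_mod_cast hk
  have hr0 : (0:ℝ) < r := by exact_mod_cast hr
  have hM0 : (0:ℝ) < M := by exact_mod_cast (lt_of_lt_of_le hk hkM)
  have hkM' : (k:ℝ) ≤ M := by exact_mod_cast hkM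
  have hm0' : (M:ℝ) ≤ m0 := by exact_mod_cast hm0
  have hrel' : (n0:ℝ) * k = m0 * h + r := by exact_mod_cast hrel
  set ρ : ℝ := (r:ℝ) / h with hρ
  have hρ0 : 0 < ρ := by positivity
  have hρM : ρ ≤ M := by
    rw [hρ, div_le_iff₀ hh0]; exact_mod_cast hrM
  set lm : ℝ := T / (2 * Real.pi) * (k ^ 2 * ρ / (8 * M ^ 3)) with hlm
  have hpi := Real.pi_pos
  have hlm0 : 0 < lm := by positivity
  set x : ℕ → ℝ := fun j => T * LL h k (m0 + k * j, n0 + h * j) / (2 * Real.pi) with hx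
  have hxe : ∀ j, Complex.exp (Complex.I * ((T * LL h k (m0 + k * j, n0 + h * j) : ℝ) : ℂ)) = e (x j) := by
    intro j
    unfold e
    rw [mul_comm Complex.I]
    congr 3
    rw [hx]
    field_simp
  simp_rw [hxe]
  -- the frequency as a difference of logarithms
  have hLL : ∀ j : ℕ, LL h k (m0 + k * j, n0 + h * j) =
      Real.log ((m0:ℝ) + k * j + ρ) - Real.log ((m0:ℝ) + k * j) := by
    intro j
    have hmj : (0:ℝ) < (m0:ℝ) + k * j := by
      have : (0:ℝ) ≤ k * j := by positivity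
      linarith
    have hnj : (0:ℝ) < (n0:ℝ) + h * j := by
      have h1 : (0:ℝ) < ((n0:ℝ) + h * j) * k := by
        have : ((n0:ℝ) + h * j) * k = h * (m0 + k * j) + r := by
          rw [add_mul, hrel']; ring
        rw [this]; positivity
      exact pos_of_mul_pos_left h1 hk0.le
    unfold LL
    simp only
    push_cast
    have e1 : (m0:ℝ) + k * j + ρ = ((n0:ℝ) + h * j) * k / h := by
      rw [hρ, eq_div_iff hh0.ne']
      have : ((r:ℝ) / h) * h = r := by field_simp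
      rw [add_mul, this, add_mul ((n0:ℝ)), hrel']; ring
    rw [e1, Real.log_div (by positivity) hh0.ne', Real.log_mul hnj.ne' hk0.ne']
    ring
  have hdiff : ∀ j, j + 1 < J → lm ≤ (x (j + 2) - x (j + 1)) - (x (j + 1) - x j) ∧
      (x (j + 2) - x (j + 1)) - (x (j + 1) - x j) ≤ 22 * lm := by
    intro j hj
    set A : ℝ := (m0:ℝ) + k * (j + 1 : ℕ) with hA
    have hAlo : M + k ≤ A := by
      have : (k:ℝ) * 1 ≤ k * (j + 1 : ℕ) := by
        apply mul_le_mul_of_nonneg_left _ hk0.le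
        exact_mod_cast (by omega : 1 ≤ j + 1)
      linarith
    have hAhi : A ≤ 2 * M := by
      have := hJ (j + 1) hj
      have h2 : ((m0 + k * (j + 1) : ℕ) : ℝ) ≤ ((2 * M : ℕ) : ℝ) := by exact_mod_cast this.le
      push_cast at h2
      rw [hA]; push_cast
      exact h2
    have hd := d2_log (A := A) (B := A + ρ) (k := k) hk0 (by linarith) (by linarith)
    have e2 : (x (j + 2) - x (j + 1)) - (x (j + 1) - x j) = T / (2 * Real.pi) *
        ((Real.log (A + ρ + k) - Real.log (A + k)) - (Real.log (A + ρ) - Real.log A) -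
        ((Real.log (A + ρ) - Real.log A) - (Real.log (A + ρ - k) - Real.log (A - k)))) := by
      simp only [hx, hLL]
      have e3 : (m0:ℝ) + k * ((j + 2 : ℕ) : ℝ) = A + k := by rw [hA]; push_cast; ring
      have e4 : (m0:ℝ) + k * (j : ℝ) = A - k := by rw [hA]; push_cast; ring
      rw [e3, e4, ← hA, show A + ↑k + ρ = A + ρ + k by ring, show A - ↑k + ρ = A + ρ - k by ring]
      ring
    set Q : ℝ := (k:ℝ) ^ 2 * ((A + ρ) ^ 2 - A ^ 2) / (A ^ 2 * (A + ρ) ^ 2) with hQ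
    have hA0 : 0 < A := by linarith
    have hQ1 : (k:ℝ) ^ 2 * ρ / (8 * M ^ 3) ≤ Q := by
      rw [hQ, div_le_div_iff₀ (by positivity) (by positivity)]
      have h1 : (A + ρ) ^ 2 - A ^ 2 = ρ * (2 * A + ρ) := by ring
      rw [h1]
      have h2 : A ^ 2 * (A + ρ) ^ 2 ≤ (2 * A + ρ) * (8 * M ^ 3) := by
        have h3 : A * (A + ρ) ^ 2 ≤ (2 * M) * (3 * M) ^ 2 := by gcongr; linarith
        have h3' : A * (A + ρ) ≤ (2 * M) * (3 * M) := by gcongr; linarith
        -- A²(A+ρ)² ≤ (A + (A+ρ)) 8 M³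
        have h4 : A ^ 2 * (A + ρ) ≤ (2 * M) ^ 2 * (3 * M) := by gcongr; linarith
        have h5 : 0 ≤ (M:ℝ) ^ 3 := by positivity
        -- (A + (A+ρ)) = ...
        have h6 : A ^ 2 * (A + ρ) ^ 2 * 5 ≤ (2 * A + ρ) * (36 * M ^ 3) := by
          nlinarith [mul_le_mul_of_nonneg_left h3 hA0.le, mul_le_mul_of_nonneg_left h4 (by linarith : 0 ≤ A + ρ)]
        nlinarith [mul_nonneg (by linarith : 0 ≤ 2 * A + ρ) h5]
      calc (k:ℝ) ^ 2 * ρ * (A ^ 2 * (A + ρ) ^ 2) ≤ (k:ℝ) ^ 2 * ρ * ((2 * A + ρ) * (8 * M ^ 3)) := by gcongr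
        _ = _ := by ring
    have hQ2 : Q ≤ (k:ℝ) ^ 2 * ρ * 2 / (M ^ 3) := by
      rw [hQ, div_le_div_iff₀ (by positivity) (by positivity)]
      have h1 : (A + ρ) ^ 2 - A ^ 2 = ρ * (2 * A + ρ) := by ring
      rw [h1]
      have hMA : (M:ℝ) ≤ A := by linarith
      have h2 : (2 * A + ρ) * M ^ 3 ≤ 2 * (A ^ 2 * (A + ρ) ^ 2) := by
        have h3 : (M:ℝ) ^ 3 ≤ A ^ 2 * (A + ρ) := by
          calc (M:ℝ) ^ 3 = M ^ 2 * M := by ring
            _ ≤ A ^ 2 * (A + ρ) := by gcongr; linarith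
        calc (2 * A + ρ) * M ^ 3 ≤ (2 * (A + ρ)) * (A ^ 2 * (A + ρ)) := by gcongr; linarith
          _ = _ := by ring
      calc (k:ℝ) ^ 2 * (ρ * (2 * A + ρ)) * M ^ 3 = (k:ℝ) ^ 2 * ρ * ((2 * A + ρ) * M ^ 3) := by ring
        _ ≤ (k:ℝ) ^ 2 * ρ * (2 * (A ^ 2 * (A + ρ) ^ 2)) := by gcongr
        _ = _ := by ring
    have hT2 : 0 < T / (2 * Real.pi) := by positivity
    rw [e2]
    constructor
    · rw [hlm]
      exact mul_le_mul_of_nonneg_left (hQ1.trans hd.1) hT2.le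
    · refine (mul_le_mul_of_nonneg_left hd.2 hT2.le).trans ?_
      rw [hlm]
      have h1 : 4 / 3 * Q ≤ 22 * (k ^ 2 * ρ / (8 * M ^ 3)) := by
        have h2 : 4 / 3 * Q ≤ 4 / 3 * ((k:ℝ) ^ 2 * ρ * 2 / (M ^ 3)) := by linarith
        refine h2.trans ?_
        have h3 : 4 / 3 * ((k:ℝ) ^ 2 * ρ * 2 / (M ^ 3)) = (8 / 3) * ((k:ℝ) ^ 2 * ρ / M ^ 3) := by ring
        have h4 : 22 * ((k:ℝ) ^ 2 * ρ / (8 * M ^ 3)) = (22 / 8) * ((k:ℝ) ^ 2 * ρ / M ^ 3) := by field_simp
        rw [h3, h4]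
        have : 0 ≤ (k:ℝ) ^ 2 * ρ / M ^ 3 := by positivity
        nlinarith
      calc T / (2 * Real.pi) * (4 / 3 * Q) ≤ T / (2 * Real.pi) * (22 * (k ^ 2 * ρ / (8 * M ^ 3))) :=
            mul_le_mul_of_nonneg_left h1 hT2.le
        _ = _ := by ring
  have hs := sdt (x := x) (L := J) hlm0 (La := 22 * lm) (fun j hj => (hdiff j hj).1)
    (fun j hj => (hdiff j hj).2) (by linarith)
  refine hs.trans ?_
  have hJM : (J:ℝ) ≤ 2 * M / k := by
    rcases Nat.eq_zero_or_pos J with rfl | hJ0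
    · simp only [CharP.cast_eq_zero]; positivity
    · have h1 := hJ (J - 1) (by omega)
      have h2 : ((m0 + k * (J - 1) : ℕ) : ℝ) ≤ ((2 * M : ℕ) : ℝ) := by exact_mod_cast h1.le
      push_cast [Nat.cast_sub hJ0] at h2
      rw [le_div_iff₀ hk0]
      linarith
  have hs0 : 0 < √lm := Real.sqrt_pos.mpr hlm0
  have hss : √lm * √lm = lm := Real.mul_self_sqrt hlm0.le
  have e5 : 6 * (22 * lm * J + 2) / √lm = 132 * (√lm * J) + 12 * (1 / √lm) := by
    field_simp
    rw [show √lm ^ 2 = lm by rw [sq]; exact hss]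
    ring
  rw [e5]
  have h1 : √lm * J ≤ 38 / 132 * √(T * ρ / M) := by
    have h2 : √lm * J ≤ √lm * (2 * M / k) := mul_le_mul_of_nonneg_left hJM hs0.le
    refine h2.trans ?_
    have h3 : √lm * (2 * M / k) = √(lm * (2 * M / k) ^ 2) := by
      rw [Real.sqrt_mul hlm0.le, Real.sqrt_sq (by positivity)]
    have h4 : 38 / 132 * √(T * ρ / M) = √((38 / 132) ^ 2 * (T * ρ / M)) := by
      rw [Real.sqrt_mul (by positivity), Real.sqrt_sq (by norm_num)]
    rw [h3, h4]
    refine Real.sqrt_le_sqrt ?_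
    have h5 : lm * (2 * M / k) ^ 2 = (1 / (4 * Real.pi)) * (T * ρ / M) := by
      rw [hlm]; field_simp; ring
    rw [h5]
    refine mul_le_mul_of_nonneg_right ?_ (by positivity)
    rw [div_le_iff₀ (by positivity)]
    have := Real.pi_gt_d2
    nlinarith
  have h2 : 1 / √lm ≤ 86 / 12 * √((M:ℝ) ^ 3 / (T * ρ)) := by
    have h3 : 1 / √lm = √(1 / lm) := by rw [Real.sqrt_div zero_le_one, Real.sqrt_one]
    have h4 : 86 / 12 * √((M:ℝ) ^ 3 / (T * ρ)) = √((86 / 12) ^ 2 * (M ^ 3 / (T * ρ))) := by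
      rw [Real.sqrt_mul (by positivity), Real.sqrt_sq (by norm_num)]
    rw [h3, h4]
    refine Real.sqrt_le_sqrt ?_
    have h5 : 1 / lm = (16 * Real.pi / k ^ 2) * (M ^ 3 / (T * ρ)) := by
      rw [hlm]; field_simp; ring
    rw [h5]
    refine mul_le_mul_of_nonneg_right ?_ (by positivity)
    rw [div_le_iff₀ (by positivity)]
    have := Real.pi_lt_d2
    nlinarith
  linarith

end Pool.Agent.Zk6
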