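import Pool.Agent.Zk6.K2
import Pool.Agent.Y545.GP.CR

set_option autoImplicit false

/-! The off-diagonal sum of the smooth approximate functional equation, twisted by a pair. -/

namespace Pool.Agent.Zk6

open Finset
open Pool.Agent.H469R2.NK (e norm_e)
open Pool.Agent.Y969.GP (V V1 ht co PS S_V)
open Pool.Agent.Y545.GP (mem_PS)

lemma LL_eq {h k m n r : ℕ} (hh : 1 ≤ h) (hk : 1 ≤ k) (hm : 1 ≤ m) (hrel : n * k = m * h + r) :
    LL h k (m, n) = Real.log (1 + (r:ℝ) / h / m) := by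
  have hh0 : (0:ℝ) < h := by exact_mod_cast hh
  have hk0 : (0:ℝ) < k := by exact_mod_cast hk
  have hm0 : (0:ℝ) < m := by exact_mod_cast hm
  have hrel' : (n:ℝ) * k = m * h + r := by exact_mod_cast hrel
  have hn0 : (0:ℝ) < n := by
    have : (0:ℝ) < n * k := by rw [hrel']; positivity
    exact pos_of_mul_pos_left this hk0.le
  unfold LL
  simp only
  have e1 : 1 + (r:ℝ) / h / m = (n:ℝ) * k / (m * h) := by rw [hrel']; field_simp
  rw [e1, Real.log_div (by positivity) (by positivity), Real.log_mul hn0.ne' hk0.ne',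
    Real.log_mul hm0.ne' hh0.ne']
  ring

/-- the summand -/
noncomputable def FF (H T : ℝ) (h k : ℕ) (p : ℕ × ℕ) : ℂ :=
  (co p T : ℂ) * ((Real.exp (-(H * LL h k p) ^ 2 / 4) : ℂ) *
    Complex.exp (Complex.I * ((T * LL h k p : ℝ) : ℂ)))

/-- the weighted block -/
lemma blk {h k m0 n0 r M J : ℕ} (hh : 1 ≤ h) (hk : 1 ≤ k) (hr : 1 ≤ r) (hkM : k ≤ M) (hm0 : M ≤ m0)
    (hrel : n0 * k = m0 * h + r) (hrM : r ≤ M * h) (hJ : ∀ j < J, m0 + k * j < 2 * M) {T : ℝ} (hT : 0 < T)
    (H : ℝ) :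
    ‖∑ j ∈ range J, FF H T h k (m0 + k * j, n0 + h * j)‖ ≤
      4 * √k / M * (38 * √(T * ((r:ℝ) / h) / M) + 86 * √((M:ℝ) ^ 3 / (T * ((r:ℝ) / h)))) := by
  have hh0 : (0:ℝ) < h := by exact_mod_cast hh
  have hk0 : (0:ℝ) < k := by exact_mod_cast hk
  have hM1 : 1 ≤ M := hk.trans hkM
  have hM0 : (0:ℝ) < M := by exact_mod_cast hM1
  have hrelj : ∀ j, (n0 + h * j) * k = (m0 + k * j) * h + r := by
    intro j; rw [add_mul, hrel]; ring
  have hmj : ∀ j, 1 ≤ m0 + k * j := fun j => by omega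
  have hn0 : 1 ≤ n0 := by
    by_contra h0
    have : n0 = 0 := by omega
    rw [this] at hrel
    omega
  have hht : ∀ j, 0 < ht (m0 + k * j, n0 + h * j) := by
    intro j
    unfold ht
    have h1 : (0:ℝ) < ((m0 + k * j : ℕ) : ℝ) := by exact_mod_cast (hmj j)
    have h2 : (0:ℝ) < ((n0 + h * j : ℕ) : ℝ) := by exact_mod_cast (by omega : 0 < n0 + h * j)
    exact mul_pos h1 h2
  have hLLj : ∀ j, LL h k (m0 + k * j, n0 + h * j) = Real.log (1 + (r:ℝ) / h / (m0 + k * j : ℕ)) :=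
    fun j => LL_eq hh hk (hmj j) (hrelj j)
  have hLL0 : ∀ j, 0 ≤ LL h k (m0 + k * j, n0 + h * j) := by
    intro j
    rw [hLLj]
    refine Real.log_nonneg ?_
    have : 0 ≤ (r:ℝ) / h / (m0 + k * j : ℕ) := by positivity
    linarith
  have hLL1 : ∀ j, LL h k (m0 + k * (j + 1), n0 + h * (j + 1)) ≤ LL h k (m0 + k * j, n0 + h * j) := by
    intro j
    rw [hLLj, hLLj]
    have h1 : (0:ℝ) < ((m0 + k * j : ℕ) : ℝ) := by exact_mod_cast (hmj j)
    have h2 : ((m0 + k * j : ℕ) : ℝ) ≤ ((m0 + k * (j + 1) : ℕ) : ℝ) := by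
      exact_mod_cast (by nlinarith : m0 + k * j ≤ m0 + k * (j + 1))
    refine Real.log_le_log (by positivity) ?_
    have : (r:ℝ) / h / (m0 + k * (j + 1) : ℕ) ≤ (r:ℝ) / h / (m0 + k * j : ℕ) := by gcongr
    linarith
  have hsum := psum_prod (fun j => Complex.exp (Complex.I * ((T * LL h k (m0 + k * j, n0 + h * j) : ℝ) : ℂ)))
    (fun j => co (m0 + k * j, n0 + h * j) T)
    (fun j => Real.exp (-(H * LL h k (m0 + k * j, n0 + h * j)) ^ 2 / 4)) J
    (B := 38 * √(T * ((r:ℝ) / h) / M) + 86 * √((M:ℝ) ^ 3 / (T * ((r:ℝ) / h)))) (A := 2 * √k / M)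
    (fun l hl => blk_exp hh hk hr hkM hm0 hrel hrM (fun j hj => hJ j (hj.trans_le hl)) hT)
    (fun j _ => co_nn (hht j) hT)
    (fun j _ => co_anti (hht j) (by
      unfold ht
      simp only
      have a1 : m0 + k * j ≤ m0 + k * (j + 1) := by nlinarith
      have a2 : n0 + h * j ≤ n0 + h * (j + 1) := by nlinarith
      have a3 : ((m0 + k * j : ℕ) : ℝ) ≤ ((m0 + k * (j + 1) : ℕ) : ℝ) := by exact_mod_cast a1
      have a4 : ((n0 + h * j : ℕ) : ℝ) ≤ ((n0 + h * (j + 1) : ℕ) : ℝ) := by exact_mod_cast a2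
      exact mul_le_mul a3 a4 (Nat.cast_nonneg _) (Nat.cast_nonneg _)) hT)
    (fun _ => by
      have h0 := hht 0
      simp only [mul_zero, add_zero] at h0 ⊢
      refine (co_le h0 hT).trans ?_
      have h1 : (M:ℝ) / √k ≤ √(ht (m0, n0)) := by
        refine Real.le_sqrt_of_sq_le ?_
        rw [div_pow, Real.sq_sqrt hk0.le, div_le_iff₀ hk0]
        unfold ht
        simp only
        have h3 : M * M ≤ m0 * (n0 * k) := by
          have : M ≤ n0 * k := by
            rw [hrel]; nlinarith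
          exact Nat.mul_le_mul hm0 this
        have h4 : ((M * M : ℕ) : ℝ) ≤ ((m0 * (n0 * k) : ℕ) : ℝ) := by exact_mod_cast h3
        push_cast at h4
        nlinarith
      have h2 : (√(ht (m0, n0)))⁻¹ ≤ ((M:ℝ) / √k)⁻¹ := inv_anti₀ (by positivity) h1
      rw [inv_div] at h2
      calc 2 * (√(ht (m0, n0)))⁻¹ ≤ 2 * (√k / M) := by linarith
        _ = 2 * √k / M := by ring) (by positivity)
    (fun j _ => (Real.exp_pos _).le)
    (fun j _ => Real.exp_le_one_iff.mpr (by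
      have := sq_nonneg (H * LL h k (m0 + k * j, n0 + h * j)); linarith))
    (fun j _ => by
      refine Real.exp_le_exp.mpr ?_
      have h1 := hLL0 (j + 1)
      have h2 := hLL1 j
      have h3 : (H * LL h k (m0 + k * (j + 1), n0 + h * (j + 1))) ^ 2 ≤
          (H * LL h k (m0 + k * j, n0 + h * j)) ^ 2 := by
        rw [mul_pow, mul_pow]
        gcongr
      linarith)
  have e1 : 2 * (2 * √(k:ℝ) / M) = 4 * √k / M := by ring
  rw [e1] at hsum
  refine le_trans (le_of_eq ?_) hsum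
  congr 1

/-- the fibre of the pairs with given block, difference and residue -/
lemma fib {h k r a i X : ℕ} (hh : 1 ≤ h) (hk : 1 ≤ k) (hr : 1 ≤ r) (ha : a < k) (hkM : k ≤ 2 ^ i)
    (hrM : r ≤ 2 ^ i * h) {T : ℝ} (hT : 0 < T) (H : ℝ) :
    ‖∑ p ∈ (PS X).filter (fun p => Nat.log 2 p.1 = i ∧ p.2 * k = p.1 * h + r ∧ (p.1 - 2 ^ i) % k = a),
      FF H T h k p‖ ≤
      4 * √k / (2 ^ i : ℕ) * (38 * √(T * ((r:ℝ) / h) / (2 ^ i : ℕ)) +
        86 * √(((2 ^ i : ℕ):ℝ) ^ 3 / (T * ((r:ℝ) / h)))) := by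
  set M : ℕ := 2 ^ i with hM
  have hM1 : 1 ≤ M := Nat.one_le_two_pow
  have hlog : ∀ m : ℕ, 1 ≤ m → (Nat.log 2 m = i ↔ M ≤ m ∧ m < 2 * M) := by
    intro m hm
    rw [Nat.log_eq_iff (Or.inr ⟨by norm_num, by omega⟩)]
    rw [show 2 ^ (i + 1) = 2 * M by rw [pow_succ]; ring]
  rcases Finset.eq_empty_or_nonempty
    ((PS X).filter (fun p => Nat.log 2 p.1 = i ∧ p.2 * k = p.1 * h + r ∧ (p.1 - M) % k = a)) with h0 | h0
  · rw [h0, sum_empty, norm_zero]; positivity
  obtain ⟨q, hq⟩ := h0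
  rw [mem_filter, mem_PS] at hq
  obtain ⟨⟨q1, q2, q3⟩, q4, q5, q6⟩ := hq
  rw [hlog _ q1] at q4
  set m0 : ℕ := M + a with hm0
  have hq1 : q.1 = m0 + k * ((q.1 - M) / k) := by
    have := Nat.div_add_mod (q.1 - M) k
    omega
  have hdvd : k ∣ m0 * h + r := by
    have h1 : k ∣ q.1 * h + r := ⟨q.2, by rw [← q5]; ring⟩
    rw [hq1] at h1
    have h2 : (m0 + k * ((q.1 - M) / k)) * h + r = k * ((q.1 - M) / k * h) + (m0 * h + r) := by ring
    rw [h2] at h1
    exact (Nat.dvd_add_right (Dvd.intro _ rfl)).mp h1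
  obtain ⟨n0, hn0⟩ := hdvd
  have hrel : n0 * k = m0 * h + r := by rw [hn0]; ring
  set P : ℕ → Prop := fun j => m0 + k * j < 2 * M ∧ (m0 + k * j) * (n0 + h * j) ≤ X with hP
  have hn01 : 1 ≤ n0 := by
    by_contra h1
    have : n0 = 0 := by omega
    rw [this] at hrel
    omega
  have hset : (PS X).filter (fun p => Nat.log 2 p.1 = i ∧ p.2 * k = p.1 * h + r ∧ (p.1 - M) % k = a) =
      ((range M).filter P).image (fun j => (m0 + k * j, n0 + h * j)) := by
    ext p
    simp only [mem_filter, mem_image, mem_range, mem_PS]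
    constructor
    · rintro ⟨⟨p1, p2, p3⟩, p4, p5, p6⟩
      rw [hlog _ p1] at p4
      have hp1 : p.1 = m0 + k * ((p.1 - M) / k) := by
        have := Nat.div_add_mod (p.1 - M) k
        omega
      have hp2 : p.2 = n0 + h * ((p.1 - M) / k) := by
        have h1 : p.2 * k = (n0 + h * ((p.1 - M) / k)) * k := by
          rw [p5, add_mul, hrel]
          nth_rewrite 1 [hp1]
          ring
        exact Nat.eq_of_mul_eq_mul_right hk h1
      refine ⟨(p.1 - M) / k, ⟨?_, ?_, ?_⟩, ?_⟩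
      · exact lt_of_le_of_lt (Nat.div_le_self _ _) (by omega)
      · rw [← hp1]; exact p4.2
      · rw [← hp1, ← hp2]; exact p3
      · rw [← hp1, ← hp2]
    · rintro ⟨j, ⟨j1, j2, j3⟩, rfl⟩
      refine ⟨⟨by show 1 ≤ m0 + k * j; omega, by show 1 ≤ n0 + h * j; omega, j3⟩, ?_, ?_, ?_⟩
      · rw [hlog _ (by show 1 ≤ m0 + k * j; omega)]
        exact ⟨by show M ≤ m0 + k * j; omega, j2⟩
      · show (n0 + h * j) * k = (m0 + k * j) * h + r
        rw [add_mul, hrel]; ring
      · show (m0 + k * j - M) % k = a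
        have : m0 + k * j - M = a + k * j := by omega
        rw [this, Nat.add_mul_mod_self_left, Nat.mod_eq_of_lt ha]
  rw [hset, sum_image (by
    intro j _ j' _ hj
    have h1 := congrArg Prod.fst hj
    simp only at h1
    have h2 : k * j = k * j' := by omega
    exact Nat.eq_of_mul_eq_mul_left (by omega) h2),
    filter_range (P := P) M (by
      intro m n hmn _ hPn
      refine ⟨?_, ?_⟩
      · have : k * m ≤ k * n := Nat.mul_le_mul_left _ hmn
        have := hPn.1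
        omega
      · refine le_trans ?_ hPn.2
        have h1 : k * m ≤ k * n := Nat.mul_le_mul_left _ hmn
        have h2 : h * m ≤ h * n := Nat.mul_le_mul_left _ hmn
        exact Nat.mul_le_mul (by omega) (by omega))]
  refine blk hh hk hr hkM (by omega) hrel hrM ?_ hT H
  intro j hj
  have h1 : j ∈ (range M).filter P := by
    rw [filter_range (P := P) M (by
      intro m n hmn _ hPn
      refine ⟨?_, ?_⟩
      · have : k * m ≤ k * n := Nat.mul_le_mul_left _ hmn
        have := hPn.1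
        omega
      · refine le_trans ?_ hPn.2
        have h1 : k * m ≤ k * n := Nat.mul_le_mul_left _ hmn
        have h2 : h * m ≤ h * n := Nat.mul_le_mul_left _ hmn
        exact Nat.mul_le_mul (by omega) (by omega)), mem_range]
    exact hj
  exact (mem_filter.mp h1).2.1

end Pool.Agent.Zk6
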