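import Pool.Agent.Zk6.K3

set_option autoImplicit false

/-! The off-diagonal sum: assembling the blocks. -/

namespace Pool.Agent.Zk6

open Finset
open Pool.Agent.Y969.GP (V V1 ht co PS S_V)
open Pool.Agent.Y545.GP (mem_PS)

/-- the largest near difference in the block `i` -/
noncomputable def RN (H Δ : ℝ) (h i : ℕ) : ℕ := ⌊4 * (2:ℝ) ^ i * h * Δ / H⌋₊

lemma near_i {h k X i : ℕ} (hh : 1 ≤ h) (hk : 1 ≤ k) {T H Δ : ℝ} (hT : 0 < T) (hH : 0 < H) (hΔ : 0 < Δ)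
    (h1 : 4 * h * k * Δ < H) :
    ‖∑ p ∈ (PS X).filter (fun p => (p.1 * h < p.2 * k ∧ p.2 * k - p.1 * h ≤ RN H Δ h (Nat.log 2 p.1)) ∧
        Nat.log 2 p.1 = i), FF H T h k p‖ ≤
      16 * h * k * √k * Δ / H * (76 * √(T * Δ / H) + 86 * √((X * k) * √(X * k) * h / T)) := by
  have hh0 : (0:ℝ) < h := by exact_mod_cast hh
  have hk0 : (0:ℝ) < k := by exact_mod_cast hk
  have hh1 : (1:ℝ) ≤ h := by exact_mod_cast hh
  have hk1 : (1:ℝ) ≤ k := by exact_mod_cast hk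
  set S := (PS X).filter (fun p => (p.1 * h < p.2 * k ∧ p.2 * k - p.1 * h ≤ RN H Δ h (Nat.log 2 p.1)) ∧
        Nat.log 2 p.1 = i) with hS
  rcases Finset.eq_empty_or_nonempty S with h0 | h0
  · rw [h0, sum_empty, norm_zero]; positivity
  obtain ⟨q, hq⟩ := h0
  rw [hS, mem_filter, mem_PS] at hq
  obtain ⟨⟨q1, q2, q3⟩, ⟨q4, q5⟩, q6⟩ := hq
  rw [q6] at q5
  set M : ℕ := 2 ^ i with hM
  have hM1 : 1 ≤ M := Nat.one_le_two_pow
  have hM0 : (0:ℝ) < M := by exact_mod_cast hM1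
  have hMr : (M:ℝ) = (2:ℝ) ^ i := by rw [hM]; push_cast; rfl
  set R : ℕ := RN H Δ h i with hR
  have hR1 : (R:ℝ) ≤ 4 * M * h * Δ / H := by
    rw [hR, hMr]; unfold RN
    exact Nat.floor_le (by positivity)
  have hRpos : 1 ≤ R := by omega
  have hRpos' : (1:ℝ) ≤ R := by exact_mod_cast hRpos
  have hkM : k ≤ M := by
    have h2 : H ≤ 4 * M * h * Δ := by
      have := hRpos'.trans hR1
      rw [le_div_iff₀ hH] at this
      linarith
    have h3 : 4 * h * Δ * (k:ℝ) < 4 * h * Δ * M := by linarith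
    have h4 : (k:ℝ) < M := lt_of_mul_lt_mul_left h3 (by positivity)
    exact_mod_cast h4.le
  have h4Δ : 4 * Δ ≤ H := by
    have : 4 * Δ * 1 ≤ 4 * Δ * (h * k) := by
      apply mul_le_mul_of_nonneg_left _ (by positivity)
      nlinarith
    linarith
  have hRM : R ≤ M * h := by
    have h2 : (R:ℝ) ≤ M * h := by
      refine hR1.trans ?_
      rw [div_le_iff₀ hH]
      have : M * h * (4 * Δ) ≤ M * h * H := mul_le_mul_of_nonneg_left h4Δ (by positivity)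
      linarith
    exact_mod_cast h2
  have hMX : (M:ℝ) ^ 2 ≤ X * k := by
    have h2 : M ≤ q.1 := by
      have := Nat.pow_log_le_self 2 (show q.1 ≠ 0 by omega)
      rw [q6] at this
      exact this
    have h3 : M * M ≤ X * k := by
      calc M * M ≤ q.1 * q.1 := Nat.mul_le_mul h2 h2
        _ ≤ q.1 * (q.2 * k) := Nat.mul_le_mul_left _ (by nlinarith)
        _ = q.1 * q.2 * k := by ring
        _ ≤ X * k := Nat.mul_le_mul_right _ q3
    have h4 : ((M * M : ℕ) : ℝ) ≤ ((X * k : ℕ) : ℝ) := by exact_mod_cast h3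
    push_cast at h4
    rw [sq]; exact h4
  set B : ℝ := 4 * √k / M * (76 * √(T * Δ / H) + 86 * √((X * k) * √(X * k) * h / T)) with hB
  have hB0 : 0 ≤ B := by positivity
  have hmaps : ∀ p ∈ S, (p.2 * k - p.1 * h, (p.1 - M) % k) ∈ Icc 1 R ×ˢ range k := by
    intro p hp
    rw [hS, mem_filter] at hp
    rw [mem_product, mem_Icc, mem_range]
    refine ⟨⟨?_, ?_⟩, Nat.mod_lt _ (by omega)⟩
    · show 1 ≤ p.2 * k - p.1 * h
      have := hp.2.1.1
      omega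
    · have := hp.2.1.2
      rw [hp.2.2] at this
      exact this
  rw [← sum_fiberwise_of_maps_to hmaps]
  have hfib : ∀ z ∈ Icc 1 R ×ˢ range k, ‖∑ p ∈ S.filter (fun p => (p.2 * k - p.1 * h, (p.1 - M) % k) = z),
      FF H T h k p‖ ≤ B := by
    rintro ⟨r, a⟩ hz
    rw [mem_product, mem_Icc, mem_range] at hz
    obtain ⟨⟨z1, z2⟩, z3⟩ := hz
    simp only at z1 z2 z3
    have hset : S.filter (fun p => (p.2 * k - p.1 * h, (p.1 - M) % k) = (r, a)) =
        (PS X).filter (fun p => Nat.log 2 p.1 = i ∧ p.2 * k = p.1 * h + r ∧ (p.1 - M) % k = a) := by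
      ext p
      rw [hS]
      simp only [mem_filter, Prod.mk.injEq]
      constructor
      · rintro ⟨⟨g1, ⟨g2, g3⟩, g4⟩, g5, g6⟩
        exact ⟨g1, g4, by omega, g6⟩
      · rintro ⟨g1, g2, g3, g4⟩
        refine ⟨⟨g1, ⟨by omega, ?_⟩, g2⟩, by omega, g4⟩
        rw [g2]
        omega
    rw [hset]
    refine (fib (i := i) hh hk z1 z3 hkM (z2.trans hRM) hT H).trans ?_
    rw [hB, ← hM]
    have hr0 : (1:ℝ) ≤ r := by exact_mod_cast z1
    have hrR : (r:ℝ) ≤ R := by exact_mod_cast z2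
    have b1 : √(T * ((r:ℝ) / h) / M) ≤ 2 * √(T * Δ / H) := by
      have e1 : 2 * √(T * Δ / H) = √(4 * (T * Δ / H)) := by
        rw [Real.sqrt_mul (by norm_num), show (4:ℝ) = 2 ^ 2 by norm_num, Real.sqrt_sq (by norm_num)]
      rw [e1]
      refine Real.sqrt_le_sqrt ?_
      have h5 : (r:ℝ) / h ≤ 4 * M * Δ / H := by
        rw [div_le_iff₀ hh0]
        refine hrR.trans (hR1.trans (le_of_eq ?_))
        ring
      calc T * ((r:ℝ) / h) / M ≤ T * (4 * M * Δ / H) / M :=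
            div_le_div_of_nonneg_right (mul_le_mul_of_nonneg_left h5 hT.le) hM0.le
        _ = _ := by field_simp
    have b2 : √((M:ℝ) ^ 3 / (T * ((r:ℝ) / h))) ≤ √((X * k) * √(X * k) * h / T) := by
      refine Real.sqrt_le_sqrt ?_
      have h5 : (M:ℝ) ≤ √(X * k) := Real.le_sqrt_of_sq_le hMX
      have h6 : (M:ℝ) ^ 3 ≤ (X * k) * √(X * k) := by
        calc (M:ℝ) ^ 3 = M ^ 2 * M := by ring
          _ ≤ _ := mul_le_mul hMX h5 hM0.le (by positivity)
      rw [div_le_div_iff₀ (by positivity) hT]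
      have h7 : (X * k) * √(X * k) * (h:ℝ) * (T * ((r:ℝ) / h)) = (X * k) * √(X * k) * T * r := by
        field_simp
      rw [h7]
      calc (M:ℝ) ^ 3 * T ≤ (X * k) * √(X * k) * T := mul_le_mul_of_nonneg_right h6 hT.le
        _ = (X * k) * √(X * k) * T * 1 := (mul_one _).symm
        _ ≤ _ := mul_le_mul_of_nonneg_left hr0 (by positivity)
    refine mul_le_mul_of_nonneg_left ?_ (by positivity)
    linarith
  refine (norm_sum_le _ _).trans ((sum_le_sum hfib).trans ?_)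
  rw [sum_const, card_product, Nat.card_Icc, card_range, nsmul_eq_mul]
  simp only [add_tsub_cancel_right]
  push_cast
  calc (R:ℝ) * k * B ≤ (4 * M * h * Δ / H) * k * B := by gcongr
    _ = _ := by rw [hB]; field_simp; ring

lemma near {h k X : ℕ} (hh : 1 ≤ h) (hk : 1 ≤ k) {T H Δ : ℝ} (hT : 0 < T) (hH : 0 < H) (hΔ : 0 < Δ)
    (h1 : 4 * h * k * Δ < H) :
    ‖∑ p ∈ (PS X).filter (fun p => p.1 * h < p.2 * k ∧ p.2 * k - p.1 * h ≤ RN H Δ h (Nat.log 2 p.1)),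
        FF H T h k p‖ ≤
      (Nat.log 2 X + 1) * (16 * h * k * √k * Δ / H *
        (76 * √(T * Δ / H) + 86 * √((X * k) * √(X * k) * h / T))) := by
  have hmaps : ∀ p ∈ (PS X).filter (fun p => p.1 * h < p.2 * k ∧
      p.2 * k - p.1 * h ≤ RN H Δ h (Nat.log 2 p.1)), Nat.log 2 p.1 ∈ range (Nat.log 2 X + 1) := by
    intro p hp
    rw [mem_filter, mem_PS] at hp
    rw [mem_range]
    have : p.1 ≤ X := by
      obtain ⟨⟨a, b, c⟩, _⟩ := hp
      nlinarith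
    have := Nat.log_mono_right (b := 2) this
    omega
  rw [← sum_fiberwise_of_maps_to hmaps]
  simp_rw [filter_filter]
  refine (norm_sum_le _ _).trans ((sum_le_sum fun i _ => near_i hh hk hT hH hΔ h1).trans ?_)
  rw [sum_const, card_range, nsmul_eq_mul]
  push_cast
  rfl

lemma ht_one {p : ℕ × ℕ} {X : ℕ} (hp : p ∈ PS X) : 1 ≤ ht p := by
  rw [mem_PS] at hp
  unfold ht
  have h1 : (1:ℝ) ≤ p.1 := by exact_mod_cast hp.1
  have h2 : (1:ℝ) ≤ p.2 := by exact_mod_cast hp.2.1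
  nlinarith

lemma co_le_two {p : ℕ × ℕ} {X : ℕ} (hp : p ∈ PS X) {T : ℝ} (hT : 0 < T) : co p T ≤ 2 := by
  have h1 := ht_one hp
  refine (co_le (by linarith) hT).trans ?_
  have h2 : 1 ≤ √(ht p) := Real.one_le_sqrt.mpr h1
  have h3 : (√(ht p))⁻¹ ≤ 1 := inv_le_one_of_one_le₀ h2
  linarith

lemma FF_norm {H T : ℝ} {h k : ℕ} {p : ℕ × ℕ} {X : ℕ} (hp : p ∈ PS X) (hT : 0 < T) :
    ‖FF H T h k p‖ ≤ 2 * Real.exp (-(H * LL h k p) ^ 2 / 4) := by
  unfold FF
  have h1 : ‖Complex.exp (Complex.I * ((T * LL h k p : ℝ) : ℂ))‖ = 1 := by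
    rw [mul_comm]; exact Complex.norm_exp_ofReal_mul_I _
  rw [norm_mul, norm_mul, h1, mul_one, Complex.norm_real, Complex.norm_real, Real.norm_eq_abs,
    Real.norm_eq_abs, abs_of_nonneg (co_nn (by have := ht_one hp; linarith) hT), abs_of_pos (Real.exp_pos _)]
  exact mul_le_mul_of_nonneg_right (co_le_two hp hT) (Real.exp_pos _).le

lemma card_PS (X : ℕ) : ((PS X).card : ℝ) ≤ (X:ℝ) ^ 2 := by
  have h1 : (PS X).card ≤ X * X := by
    unfold PS
    refine (card_filter_le _ _).trans ?_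
    rw [card_product, Nat.card_Icc]
    simp
  have h2 : ((PS X).card : ℝ) ≤ ((X * X : ℕ) : ℝ) := by exact_mod_cast h1
  push_cast at h2
  rw [sq]; exact h2

lemma far {h k X : ℕ} (hh : 1 ≤ h) (hk : 1 ≤ k) {T H Δ : ℝ} (hT : 0 < T) (hH : 0 < H) (hΔ : 0 < Δ)
    (h1 : 4 * h * k * Δ < H) :
    ‖∑ p ∈ (PS X).filter (fun p => p.1 * h < p.2 * k ∧ ¬ p.2 * k - p.1 * h ≤ RN H Δ h (Nat.log 2 p.1)),
        FF H T h k p‖ ≤ 2 * (X:ℝ) ^ 2 * Real.exp (-Δ ^ 2 / 4) := by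
  have hh0 : (0:ℝ) < h := by exact_mod_cast hh
  have hk0 : (0:ℝ) < k := by exact_mod_cast hk
  have hh1 : (1:ℝ) ≤ h := by exact_mod_cast hh
  have hk1 : (1:ℝ) ≤ k := by exact_mod_cast hk
  have h4Δ : 4 * Δ ≤ H := by
    have : 4 * Δ * 1 ≤ 4 * Δ * (h * k) := by
      apply mul_le_mul_of_nonneg_left _ (by positivity)
      nlinarith
    linarith
  refine (norm_sum_le _ _).trans ?_
  have hb : ∀ p ∈ (PS X).filter (fun p => p.1 * h < p.2 * k ∧
      ¬ p.2 * k - p.1 * h ≤ RN H Δ h (Nat.log 2 p.1)), ‖FF H T h k p‖ ≤ 2 * Real.exp (-Δ ^ 2 / 4) := by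
    intro p hp
    rw [mem_filter] at hp
    obtain ⟨p0, p4, p5⟩ := hp
    refine (FF_norm p0 hT).trans ?_
    have hp' := mem_PS.mp p0
    obtain ⟨p1, p2, p3⟩ := hp'
    refine mul_le_mul_of_nonneg_left (Real.exp_le_exp.mpr ?_) (by norm_num)
    set r : ℕ := p.2 * k - p.1 * h with hr
    have hrel : p.2 * k = p.1 * h + r := by omega
    have hL := LL_eq hh hk p1 hrel
    have hm0 : (0:ℝ) < p.1 := by exact_mod_cast p1
    set i := Nat.log 2 p.1 with hi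
    have hrr : 4 * (2:ℝ) ^ i * h * Δ / H < r := by
      push Not at p5
      unfold RN at p5
      exact (Nat.floor_lt (by positivity)).mp p5
    have hmi : (p.1:ℝ) < 2 * (2:ℝ) ^ i := by
      have := Nat.lt_pow_succ_log_self (b := 2) (by norm_num) p.1
      rw [← hi, pow_succ] at this
      have h2 : ((p.1 : ℕ) : ℝ) < ((2 ^ i * 2 : ℕ) : ℝ) := by exact_mod_cast this
      push_cast at h2
      linarith
    have hy : 2 * Δ / H ≤ (r:ℝ) / h / p.1 := by
      rw [le_div_iff₀ hm0, le_div_iff₀ hh0]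
      refine le_trans ?_ hrr.le
      rw [le_div_iff₀ hH]
      have h2 : 2 * Δ / H * p.1 * h * H = 2 * Δ * h * p.1 := by field_simp
      rw [h2]
      have h3 : 2 * Δ * h * p.1 ≤ 2 * Δ * h * (2 * (2:ℝ) ^ i) := by gcongr
      linarith
    have hlow : Δ / H ≤ LL h k p := by
      have e0 : LL h k p = LL h k (p.1, p.2) := rfl
      rw [e0, hL]
      have h2 : Real.log (1 + 2 * Δ / H) ≤ Real.log (1 + (r:ℝ) / h / p.1) :=
        Real.log_le_log (by positivity) (by linarith)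
      refine le_trans ?_ h2
      have h3 := Real.one_sub_inv_le_log_of_pos (show 0 < 1 + 2 * Δ / H by positivity)
      refine le_trans ?_ h3
      have h5 : 1 - (1 + 2 * Δ / H)⁻¹ = 2 * Δ / (H + 2 * Δ) := by field_simp; ring
      rw [h5, div_le_div_iff₀ hH (by linarith)]
      nlinarith
    have h6 : Δ ≤ H * LL h k p := by
      rw [div_le_iff₀ hH] at hlow
      linarith
    have h7 : Δ ^ 2 ≤ (H * LL h k p) ^ 2 := by gcongr
    linarith
  refine (sum_le_sum hb).trans ?_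
  rw [sum_const, nsmul_eq_mul]
  have h2 : (((PS X).filter (fun p => p.1 * h < p.2 * k ∧
      ¬ p.2 * k - p.1 * h ≤ RN H Δ h (Nat.log 2 p.1))).card : ℝ) ≤ (X:ℝ) ^ 2 :=
    le_trans (by exact_mod_cast card_filter_le _ _) (card_PS X)
  calc _ ≤ (X:ℝ) ^ 2 * (2 * Real.exp (-Δ ^ 2 / 4)) := by gcongr
    _ = _ := by ring

/-- the bound for the off-diagonal sum -/
noncomputable def OB (X : ℕ) (T H Δ Y : ℝ) : ℝ :=
  (Nat.log 2 X + 1) * (16 * Y * Y * √Y * Δ / H *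
        (76 * √(T * Δ / H) + 86 * √((X * Y) * √(X * Y) * Y / T))) +
    2 * (X:ℝ) ^ 2 * Real.exp (-Δ ^ 2 / 4)

lemma off_plus {h k X : ℕ} (hh : 1 ≤ h) (hk : 1 ≤ k) {T H Δ Y : ℝ} (hT : 0 < T) (hH : 0 < H) (hΔ : 0 < Δ)
    (hhY : (h:ℝ) ≤ Y) (hkY : (k:ℝ) ≤ Y) (h1 : 4 * Y * Y * Δ < H) :
    ‖∑ p ∈ (PS X).filter (fun p => p.1 * h < p.2 * k), FF H T h k p‖ ≤ OB X T H Δ Y := by
  have hh0 : (0:ℝ) < h := by exact_mod_cast hh
  have hk0 : (0:ℝ) < k := by exact_mod_cast hk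
  have hY0 : 0 < Y := by linarith
  have h1' : 4 * h * k * Δ < H := by
    refine lt_of_le_of_lt ?_ h1
    gcongr
  rw [← sum_filter_add_sum_filter_not _ (fun p => p.2 * k - p.1 * h ≤ RN H Δ h (Nat.log 2 p.1)),
    filter_filter, filter_filter]
  unfold OB
  refine (norm_add_le _ _).trans (add_le_add ?_ (far hh hk hT hH hΔ h1'))
  refine (near hh hk hT hH hΔ h1').trans ?_
  gcongr

lemma FF_symm (H T : ℝ) (h k : ℕ) (p : ℕ × ℕ) :
    FF H T h k p = (starRingEnd ℂ) (FF H T k h (p.2, p.1)) := by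
  have e1 : LL k h (p.2, p.1) = -LL h k p := by unfold LL; simp only; ring
  have e2 : co (p.2, p.1) T = co p T := by
    unfold co ht; simp only; rw [mul_comm (p.2:ℝ)]
  unfold FF
  rw [e1, e2, map_mul, map_mul, Complex.conj_ofReal, Complex.conj_ofReal, ← Complex.exp_conj, map_mul,
    Complex.conj_I, Complex.conj_ofReal]
  congr 3
  · congr 1; ring
  · push_cast; ring

lemma off_minus {h k X : ℕ} (hh : 1 ≤ h) (hk : 1 ≤ k) {T H Δ Y : ℝ} (hT : 0 < T) (hH : 0 < H) (hΔ : 0 < Δ)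
    (hhY : (h:ℝ) ≤ Y) (hkY : (k:ℝ) ≤ Y) (h1 : 4 * Y * Y * Δ < H) :
    ‖∑ p ∈ (PS X).filter (fun p => p.2 * k < p.1 * h), FF H T h k p‖ ≤ OB X T H Δ Y := by
  have h2 := off_plus (X := X) hk hh hT hH hΔ hkY hhY h1
  refine le_trans (le_of_eq ?_) h2
  rw [← RCLike.norm_conj (∑ p ∈ (PS X).filter (fun p => p.1 * k < p.2 * h), FF H T k h p), map_sum]
  congr 1
  refine sum_nbij' (fun p => (p.2, p.1)) (fun p => (p.2, p.1)) ?_ ?_ ?_ ?_ ?_
  · intro p hp
    rw [mem_filter, mem_PS] at hp ⊢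
    exact ⟨⟨hp.1.2.1, hp.1.1, by rw [mul_comm]; exact hp.1.2.2⟩, hp.2⟩
  · intro p hp
    rw [mem_filter, mem_PS] at hp ⊢
    exact ⟨⟨hp.1.2.1, hp.1.1, by rw [mul_comm]; exact hp.1.2.2⟩, hp.2⟩
  · intro p _; rfl
  · intro p _; rfl
  · intro p _
    exact FF_symm H T h k p

end Pool.Agent.Zk6
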