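import Pool.Agent.Zk6.K4
import Pool.Agent.Y891.GP.AFE
import Pool.Agent.Y587.GP.Chi

set_option autoImplicit false

/-! The smooth second moment of zeta on a short window, twisted by one frequency: reduction to the
Dirichlet polynomial with frozen coefficients. -/

namespace Pool.Agent.Zk6

open Finset MeasureTheory
open Pool.Agent.Y969.GP (V V1 ht co PS S_V ff PX)
open Pool.Agent.Y545.GP (mem_PS)

/-- the Gaussian window -/
noncomputable def Wg (H T u : ℝ) : ℝ := Real.exp (-((u - T) / H) ^ 2)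

lemma Wg_pos (H T u : ℝ) : 0 < Wg H T u := Real.exp_pos _

lemma Wg_cont (H T : ℝ) : Continuous (Wg H T) := by unfold Wg; fun_prop

lemma gs_int {b : ℝ} (hb : 0 < b) (T : ℝ) : Integrable fun u : ℝ => Real.exp (-b * (u - T) ^ 2) :=
  (integrable_exp_neg_mul_sq hb).comp_sub_right T

lemma gs_val (b T : ℝ) : ∫ u : ℝ, Real.exp (-b * (u - T) ^ 2) = √(Real.pi / b) := by
  rw [integral_sub_right_eq_self (fun u : ℝ => Real.exp (-b * u ^ 2)) T]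
  exact integral_gaussian b

lemma Wg_eq {H : ℝ} (hH : 0 < H) (T u : ℝ) : Wg H T u = Real.exp (-(1 / H ^ 2) * (u - T) ^ 2) := by
  unfold Wg
  congr 1
  rw [div_pow]; ring

lemma Wg_int {H : ℝ} (hH : 0 < H) (T : ℝ) : Integrable (Wg H T) := by
  refine (gs_int (show 0 < 1 / H ^ 2 by positivity) T).congr (Filter.Eventually.of_forall fun u => ?_)
  exact (Wg_eq hH T u).symm

lemma Wg_val {H : ℝ} (hH : 0 < H) (T : ℝ) : ∫ u, Wg H T u = √Real.pi * H := by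
  simp_rw [Wg_eq hH]
  rw [gs_val]
  rw [div_div_eq_mul_div, div_one, Real.sqrt_mul Real.pi_pos.le, Real.sqrt_sq hH.le]

/-- the wide Gaussian -/
noncomputable def Wh (H T u : ℝ) : ℝ := Real.exp (-(1 / (2 * H ^ 2)) * (u - T) ^ 2)

lemma Wh_int {H : ℝ} (hH : 0 < H) (T : ℝ) : Integrable (Wh H T) := gs_int (by positivity) T

lemma Wh_pos (H T u : ℝ) : 0 < Wh H T u := Real.exp_pos _

lemma Wh_val {H : ℝ} (hH : 0 < H) (T : ℝ) : ∫ u, Wh H T u ≤ 3 * H := by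
  unfold Wh
  rw [gs_val]
  have h1 : Real.pi / (1 / (2 * H ^ 2)) = 2 * Real.pi * H ^ 2 := by field_simp
  rw [h1]
  refine Real.sqrt_le_iff.mpr ⟨by positivity, ?_⟩
  have := Real.pi_lt_d2
  have h2 : (2 * Real.pi) * H ^ 2 ≤ 9 * H ^ 2 := by
    apply mul_le_mul_of_nonneg_right _ (by positivity)
    linarith
  linarith

lemma Wg_abs {H : ℝ} (hH : 0 < H) (T u : ℝ) : Wg H T u * |u - T| ≤ H * Wh H T u := by
  have h1 : Wg H T u = Real.exp (-(1 / (2 * H ^ 2)) * (u - T) ^ 2) * Wh H T u := by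
    unfold Wg Wh
    rw [← Real.exp_add]
    congr 1
    rw [div_pow]; field_simp; ring
  rw [h1]
  set y := |u - T| / H with hy
  have h2 : |u - T| = H * y := by rw [hy]; field_simp
  have h3 : Real.exp (-(1 / (2 * H ^ 2)) * (u - T) ^ 2) = Real.exp (-(y ^ 2 / 2)) := by
    congr 1
    rw [hy, div_pow, sq_abs]; field_simp
  have h4 : Real.exp (-(y ^ 2 / 2)) * y ≤ 1 := by
    rw [Real.exp_neg, ← div_eq_inv_mul, div_le_one (Real.exp_pos _)]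
    have := Real.add_one_le_exp (y ^ 2 / 2)
    nlinarith [sq_nonneg (y - 1)]
  rw [h3, h2]
  have := Wh_pos H T u
  calc Real.exp (-(y ^ 2 / 2)) * Wh H T u * (H * y) = (H * Wh H T u) * (Real.exp (-(y ^ 2 / 2)) * y) := by ring
    _ ≤ (H * Wh H T u) * 1 := mul_le_mul_of_nonneg_left h4 (by positivity)
    _ = _ := mul_one _

lemma Wg_far {H : ℝ} (hH : 0 < H) {T u D : ℝ} (hD : 0 ≤ D) (h : D ≤ |u - T|) :
    Wg H T u ≤ Real.exp (-(D ^ 2 / (2 * H ^ 2))) * Wh H T u := by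
  unfold Wg Wh
  rw [← Real.exp_add]
  refine Real.exp_le_exp.mpr ?_
  have h1 : D ^ 2 ≤ (u - T) ^ 2 := by rw [← sq_abs (u - T)]; gcongr
  have h2 : D ^ 2 / (2 * H ^ 2) ≤ (u - T) ^ 2 / (2 * H ^ 2) := by gcongr
  rw [div_pow]
  have h3 : (u - T) ^ 2 / H ^ 2 = (u - T) ^ 2 / (2 * H ^ 2) + (u - T) ^ 2 / (2 * H ^ 2) := by
    field_simp; ring
  have h4 : 1 / (2 * H ^ 2) * (u - T) ^ 2 = (u - T) ^ 2 / (2 * H ^ 2) := by ring
  rw [neg_mul, h4]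
  linarith

/-- Fourier transform of the window -/
lemma Wg_ft {H : ℝ} (hH : 0 < H) (T Λ : ℝ) :
    ∫ u : ℝ, ((Wg H T u : ℝ) : ℂ) * Complex.exp (Complex.I * ((u * Λ : ℝ) : ℂ)) =
      ((√Real.pi * H : ℝ) : ℂ) * ((Real.exp (-(H * Λ) ^ 2 / 4) : ℂ) *
        Complex.exp (Complex.I * ((T * Λ : ℝ) : ℂ))) := by
  have hHc : (H:ℂ) ≠ 0 := by exact_mod_cast hH.ne'
  have hb : (-(1 / (H:ℂ) ^ 2)).re < 0 := by
    have : (-(1 / (H:ℂ) ^ 2)) = ((-(1 / H ^ 2) : ℝ) : ℂ) := by push_cast; ring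
    rw [this, Complex.ofReal_re]
    have : 0 < 1 / H ^ 2 := by positivity
    linarith
  have h1 := integral_cexp_quadratic hb (2 * T / (H:ℂ) ^ 2 + Complex.I * Λ) (-(T:ℂ) ^ 2 / (H:ℂ) ^ 2)
  have h2 : ∀ u : ℝ, ((Wg H T u : ℝ) : ℂ) * Complex.exp (Complex.I * ((u * Λ : ℝ) : ℂ)) =
      Complex.exp (-(1 / (H:ℂ) ^ 2) * (u:ℂ) ^ 2 + (2 * T / (H:ℂ) ^ 2 + Complex.I * Λ) * u +
        -(T:ℂ) ^ 2 / (H:ℂ) ^ 2) := by
    intro u
    unfold Wg
    rw [Complex.ofReal_exp, ← Complex.exp_add]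
    congr 1
    push_cast
    field_simp
    ring
  simp_rw [h2]
  rw [h1]
  have h3 : ((Real.pi:ℂ) / -(-(1 / (H:ℂ) ^ 2))) ^ (1 / 2 : ℂ) = ((√Real.pi * H : ℝ) : ℂ) := by
    have e1 : ((Real.pi:ℂ) / -(-(1 / (H:ℂ) ^ 2))) = ((Real.pi * H ^ 2 : ℝ) : ℂ) := by
      push_cast; field_simp
    have e2 : (1 / 2 : ℂ) = ((1 / 2 : ℝ) : ℂ) := by push_cast; rfl
    rw [e1, e2, ← Complex.ofReal_cpow (by positivity), ← Real.sqrt_eq_rpow,
      Real.sqrt_mul Real.pi_pos.le, Real.sqrt_sq hH.le]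
  rw [h3, Complex.ofReal_exp, ← Complex.exp_add]
  congr 2
  push_cast
  field_simp
  ring_nf
  rw [Complex.I_sq]
  ring

/-- the weight varies slowly -/
lemma V_lip : ∃ C : ℝ, 0 < C ∧ ∀ x y : ℝ, 0 < x → 0 < y → |V x - V y| ≤ C * |Real.log x - Real.log y| := by
  obtain ⟨h1, h2, h3, ⟨C, hC, h4⟩, _⟩ := Pool.Agent.Y587.GP.t_V
  refine ⟨C, hC, fun x y hx hy => ?_⟩
  have hd : ∀ s ∈ (Set.univ : Set ℝ), HasDerivWithinAt (fun s => V (Real.exp s))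
      (V1 (Real.exp s) * Real.exp s) Set.univ s := by
    intro s _
    exact ((h2 (Real.exp s) (Real.exp_pos s)).comp s (Real.hasDerivAt_exp s)).hasDerivWithinAt
  have hb : ∀ s ∈ (Set.univ : Set ℝ), ‖V1 (Real.exp s) * Real.exp s‖ ≤ C := by
    intro s _
    rw [mul_comm]
    exact (h4 (Real.exp s) (Real.exp_pos s)).1
  have := Convex.norm_image_sub_le_of_norm_hasDerivWithin_le hd hb convex_univ
    (Set.mem_univ (Real.log y)) (Set.mem_univ (Real.log x))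
  simpa [Real.exp_log hx, Real.exp_log hy, Real.norm_eq_abs] using this

lemma sqrt_sum (N : ℕ) : ∑ n ∈ Icc 1 N, (√(n:ℝ))⁻¹ ≤ 2 * √(N:ℝ) := by
  induction N with
  | zero => simp
  | succ N ih =>
    rw [sum_Icc_succ_top (by omega)]
    have h1 : (√((N + 1 : ℕ) : ℝ))⁻¹ ≤ 2 * √((N + 1 : ℕ) : ℝ) - 2 * √(N:ℝ) := by
      push_cast
      have h2 : √((N:ℝ) + 1) * √((N:ℝ) + 1) = N + 1 := Real.mul_self_sqrt (by positivity)
      have h3 : √(N:ℝ) * √(N:ℝ) = N := Real.mul_self_sqrt (by positivity)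
      have h4 : 0 < √((N:ℝ) + 1) := Real.sqrt_pos.mpr (by positivity)
      have h5 : 0 ≤ √(N:ℝ) := Real.sqrt_nonneg _
      rw [inv_le_iff_one_le_mul₀ h4]
      nlinarith [sq_nonneg (√((N:ℝ) + 1) - √(N:ℝ))]
    linarith

lemma harm (N : ℕ) : ∑ n ∈ Icc 1 N, ((n:ℝ))⁻¹ ≤ 1 + Real.log N := by
  have h1 : ∑ n ∈ Icc 1 N, ((n:ℝ))⁻¹ = ((harmonic N : ℚ) : ℝ) := by
    rw [harmonic_eq_sum_Icc]
    push_cast
    rfl
  rw [h1]
  exact harmonic_le_one_add_log N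

lemma ht_sum (X : ℕ) : ∑ p ∈ PS X, (√(ht p))⁻¹ ≤ 2 * √(X:ℝ) * (1 + Real.log X) := by
  have hsub : PS X ⊆ (Icc 1 X).biUnion fun m => (Icc 1 (X / m)).image fun n => (m, n) := by
    rintro ⟨m, n⟩ hp
    rw [mem_PS] at hp
    obtain ⟨h1, h2, h3⟩ := hp
    simp only at h1 h2 h3
    rw [mem_biUnion]
    refine ⟨m, mem_Icc.mpr ⟨h1, by nlinarith⟩, mem_image.mpr ⟨n, mem_Icc.mpr ⟨h2, ?_⟩, rfl⟩⟩
    rw [Nat.le_div_iff_mul_le (by omega)]
    linarith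
  refine (sum_le_sum_of_subset_of_nonneg hsub (fun _ _ _ => by positivity)).trans ?_
  rw [sum_biUnion (by
    intro a _ b _ hab
    rw [Function.onFun, disjoint_left]
    rintro p hp hq
    rw [mem_image] at hp hq
    obtain ⟨_, _, rfl⟩ := hp
    obtain ⟨_, _, h⟩ := hq
    exact hab (congrArg Prod.fst h).symm)]
  have h1 : ∀ m ∈ Icc 1 X, ∑ p ∈ (Icc 1 (X / m)).image (fun n => (m, n)), (√(ht p))⁻¹ ≤
      2 * √(X:ℝ) * ((m:ℝ))⁻¹ := by
    intro m hm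
    rw [mem_Icc] at hm
    have hm0 : (0:ℝ) < m := by exact_mod_cast hm.1
    rw [sum_image (by intro a _ b _ h; exact congrArg Prod.snd h)]
    have h2 : ∀ n : ℕ, (√(ht (m, n)))⁻¹ = (√(m:ℝ))⁻¹ * (√(n:ℝ))⁻¹ := by
      intro n
      unfold ht
      rw [Real.sqrt_mul hm0.le, mul_inv]
    simp_rw [h2]
    rw [← mul_sum]
    have h3 := sqrt_sum (X / m)
    have h4 : √((X / m : ℕ) : ℝ) ≤ √(X:ℝ) / √(m:ℝ) := by
      rw [← Real.sqrt_div (by positivity)]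
      exact Real.sqrt_le_sqrt Nat.cast_div_le
    have h5 : 0 < √(m:ℝ) := Real.sqrt_pos.mpr hm0
    have h6 : √(m:ℝ) * √(m:ℝ) = m := Real.mul_self_sqrt hm0.le
    calc (√(m:ℝ))⁻¹ * ∑ n ∈ Icc 1 (X / m), (√(n:ℝ))⁻¹ ≤ (√(m:ℝ))⁻¹ * (2 * (√(X:ℝ) / √(m:ℝ))) := by
          refine mul_le_mul_of_nonneg_left ?_ (by positivity)
          linarith
      _ = 2 * √(X:ℝ) * (√(m:ℝ) * √(m:ℝ))⁻¹ := by field_simp
      _ = _ := by rw [h6]
  refine (sum_le_sum h1).trans ?_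
  rw [← mul_sum]
  exact mul_le_mul_of_nonneg_left (harm X) (by positivity)

end Pool.Agent.Zk6
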