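import Pool.Agent.Zk6.K5

set_option autoImplicit false

/-! The twisted second moment on a short window, explicit form. -/

namespace Pool.Agent.Zk6

open Finset MeasureTheory
open Pool.Agent.Y969.GP (V V1 ht co PS S_V ff PX)
open Pool.Agent.Y545.GP (mem_PS)

/-- the Dirichlet polynomial with frozen coefficients -/
noncomputable def PT (X : ℕ) (T u : ℝ) : ℂ :=
  ∑ p ∈ PS X, (co p T : ℂ) * Complex.exp (Complex.I * ((u * Pool.Agent.Y969.GP.lam p : ℝ) : ℂ))

/-- the twist -/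
noncomputable def tw (θ u : ℝ) : ℂ := Complex.exp (Complex.I * ((u * θ : ℝ) : ℂ))

lemma tw_norm (θ u : ℝ) : ‖tw θ u‖ = 1 := by
  unfold tw; rw [mul_comm]; exact Complex.norm_exp_ofReal_mul_I _

lemma tw_cont (θ : ℝ) : Continuous (tw θ) := by unfold tw; fun_prop

lemma PT_cont (X : ℕ) (T : ℝ) : Continuous (PT X T) := by unfold PT; fun_prop

lemma PT_norm (X : ℕ) {T : ℝ} (hT : 0 < T) (u : ℝ) : ‖PT X T u‖ ≤ 2 * (X:ℝ) ^ 2 := by
  unfold PT
  refine (norm_sum_le _ _).trans ?_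
  have h1 : ∀ p ∈ PS X, ‖(co p T : ℂ) * Complex.exp (Complex.I * ((u * Pool.Agent.Y969.GP.lam p : ℝ) : ℂ))‖ ≤ 2 := by
    intro p hp
    have h2 : ‖Complex.exp (Complex.I * ((u * Pool.Agent.Y969.GP.lam p : ℝ) : ℂ))‖ = 1 := by
      rw [mul_comm]; exact Complex.norm_exp_ofReal_mul_I _
    rw [norm_mul, h2, mul_one, Complex.norm_real, Real.norm_eq_abs,
      abs_of_nonneg (co_nn (by have := ht_one hp; linarith) hT)]
    exact co_le_two hp hT
  refine (sum_le_sum h1).trans ?_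
  rw [sum_const, nsmul_eq_mul]
  have := card_PS X
  linarith

lemma pt_int {H : ℝ} (hH : 0 < H) (T : ℝ) (X h k : ℕ) :
    ∫ u : ℝ, ((Wg H T u : ℝ) : ℂ) * (PT X T u * tw (Real.log k - Real.log h) u) =
      ((√Real.pi * H : ℝ) : ℂ) * ∑ p ∈ PS X, FF H T h k p := by
  have h1 : ∀ u : ℝ, ((Wg H T u : ℝ) : ℂ) * (PT X T u * tw (Real.log k - Real.log h) u) =
      ∑ p ∈ PS X, (co p T : ℂ) * (((Wg H T u : ℝ) : ℂ) *
        Complex.exp (Complex.I * ((u * LL h k p : ℝ) : ℂ))) := by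
    intro u
    unfold PT tw
    rw [sum_mul, mul_sum]
    refine sum_congr rfl fun p _ => ?_
    have h2 : Complex.exp (Complex.I * ((u * LL h k p : ℝ) : ℂ)) =
        Complex.exp (Complex.I * ((u * Pool.Agent.Y969.GP.lam p : ℝ) : ℂ)) *
          Complex.exp (Complex.I * ((u * (Real.log k - Real.log h) : ℝ) : ℂ)) := by
      rw [← Complex.exp_add]
      congr 1
      unfold LL Pool.Agent.Y969.GP.lam
      push_cast; ring
    rw [h2]; ring
  simp_rw [h1]
  rw [integral_finset_sum]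
  · rw [mul_sum]
    refine sum_congr rfl fun p _ => ?_
    rw [integral_const_mul, Wg_ft hH]
    unfold FF
    ring
  · intro p _
    refine Integrable.const_mul ?_ _
    refine Integrable.mono' (Wg_int hH T) ?_ (Filter.Eventually.of_forall fun u => ?_)
    · refine Continuous.aestronglyMeasurable ?_
      refine (Complex.continuous_ofReal.comp (Wg_cont H T)).mul ?_
      fun_prop
    · have h2 : ‖Complex.exp (Complex.I * ((u * LL h k p : ℝ) : ℂ))‖ = 1 := by
        rw [mul_comm]; exact Complex.norm_exp_ofReal_mul_I _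
      rw [norm_mul, h2, mul_one, Complex.norm_real, Real.norm_eq_abs, abs_of_pos (Wg_pos H T u)]

lemma log_close {T u : ℝ} (hT : 0 < T) (hu : T / 2 ≤ u) : |Real.log u - Real.log T| ≤ 2 * |u - T| / T := by
  have hu0 : 0 < u := by linarith
  rw [abs_le]
  constructor
  · have h1 := Real.log_le_sub_one_of_pos (div_pos hT hu0)
    rw [Real.log_div hT.ne' hu0.ne'] at h1
    have h2 : T / u - 1 ≤ 2 * |u - T| / T := by
      have h3 : T / u - 1 = (T - u) / u := by field_simp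
      rw [h3, div_le_div_iff₀ hu0 hT]
      have h4 : T - u ≤ |u - T| := by rw [abs_sub_comm]; exact le_abs_self _
      have h5 : 0 ≤ |u - T| := abs_nonneg _
      nlinarith
    linarith
  · have h1 := Real.log_le_sub_one_of_pos (div_pos hu0 hT)
    rw [Real.log_div hu0.ne' hT.ne'] at h1
    have h2 : u / T - 1 ≤ 2 * |u - T| / T := by
      have h3 : u / T - 1 = (u - T) / T := by field_simp
      rw [h3]
      have h4 : u - T ≤ |u - T| := le_abs_self _
      have h5 : 0 ≤ |u - T| := abs_nonneg _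
      gcongr
      linarith
    linarith

lemma ff_cont : Continuous ff := by
  unfold ff
  have h1 : Continuous fun u : ℝ => riemannZeta (1 / 2 + Complex.I * u) := by
    rw [continuous_iff_continuousAt]
    intro u
    have h2 : (1 / 2 + Complex.I * (u:ℂ)) ≠ 1 := by
      intro h
      have := congrArg Complex.re h
      simp at this
    have h3 : ContinuousAt (fun u : ℝ => (1 / 2 + Complex.I * (u:ℂ))) u := by fun_prop
    exact ContinuousAt.comp (f := fun u : ℝ => (1 / 2 + Complex.I * (u:ℂ)))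
      (differentiableAt_riemannZeta h2).continuousAt h3
  exact (h1.norm).pow 2

theorem tw_expl {ε C0 : ℝ} (hε : 0 < ε) (hε1 : ε ≤ 1 / 2) (hC0 : 0 < C0)
    (hA : ∀ (u : ℝ) (X : ℕ), 1 ≤ u → u ^ (1 + ε) ≤ X → ‖(ff u : ℂ) - PX X u‖ ≤ C0 * u ^ (-(1 / 2) + ε))
    {C1 : ℝ} (hC1 : 0 < C1)
    (hV : ∀ x y : ℝ, 0 < x → 0 < y → |V x - V y| ≤ C1 * |Real.log x - Real.log y|)
    {T H : ℝ} (hT : 2 ≤ T) (hH : 0 < H) {X : ℕ} (hX : (2 * T) ^ (1 + ε) ≤ X) (h k : ℕ) :
    ‖(∫ u in Set.Ioc (T / 2) (3 * T / 2), ((Wg H T u : ℝ) : ℂ) * ((ff u : ℂ) *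
        tw (Real.log k - Real.log h) u)) - ((√Real.pi * H : ℝ) : ℂ) * ∑ p ∈ PS X, FF H T h k p‖ ≤
      √Real.pi * H * (C0 * (T / 2) ^ (-(1 / 2) + ε)) + 24 * C1 * √(X:ℝ) * (1 + Real.log X) * H ^ 2 / T +
        6 * (X:ℝ) ^ 2 * H * Real.exp (-(T ^ 2 / (8 * H ^ 2))) := by
  have hT0 : 0 < T := by linarith
  have hX1 : (1:ℝ) ≤ X := by
    refine le_trans ?_ hX
    exact Real.one_le_rpow (by linarith) (by linarith)
  set θ : ℝ := Real.log k - Real.log h with hθ
  set S : Set ℝ := Set.Ioc (T / 2) (3 * T / 2) with hS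
  have hSm : MeasurableSet S := measurableSet_Ioc
  -- pointwise bounds
  have k1 : ∀ u ∈ S, ‖(ff u : ℂ) - PX X u‖ ≤ C0 * (T / 2) ^ (-(1 / 2) + ε) := by
    intro u hu
    have hu1 : 1 ≤ u := by have := hu.1; linarith
    refine (hA u X hu1 ?_).trans ?_
    · refine le_trans ?_ hX
      exact Real.rpow_le_rpow (by linarith) (by have := hu.2; linarith) (by linarith)
    · refine mul_le_mul_of_nonneg_left ?_ hC0.le
      exact Real.rpow_le_rpow_of_nonpos (by linarith) hu.1.le (by linarith)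
  have k2 : ∀ u ∈ S, ‖PX X u - PT X T u‖ ≤ 8 * C1 * √(X:ℝ) * (1 + Real.log X) / T * |u - T| := by
    intro u hu
    have hu0 : 0 < u := by have := hu.1; linarith
    unfold PX PT
    rw [← sum_sub_distrib]
    have h1 : ∀ p ∈ PS X, ‖(co p u : ℂ) * Complex.exp (Complex.I * ((u * Pool.Agent.Y969.GP.lam p : ℝ) : ℂ)) -
        (co p T : ℂ) * Complex.exp (Complex.I * ((u * Pool.Agent.Y969.GP.lam p : ℝ) : ℂ))‖ ≤
        (4 * C1 * |u - T| / T) * (√(ht p))⁻¹ := by
      intro p hp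
      have h2 : ‖Complex.exp (Complex.I * ((u * Pool.Agent.Y969.GP.lam p : ℝ) : ℂ))‖ = 1 := by
        rw [mul_comm]; exact Complex.norm_exp_ofReal_mul_I _
      rw [← sub_mul, norm_mul, h2, mul_one, ← Complex.ofReal_sub, Complex.norm_real, Real.norm_eq_abs]
      have hp1 := ht_one hp
      have hp0 : 0 < ht p := by linarith
      unfold co
      rw [← mul_sub, abs_mul, abs_of_nonneg (show (0:ℝ) ≤ 2 * (√(ht p))⁻¹ by positivity)]
      have h3 := hV (2 * Real.pi * ht p / u) (2 * Real.pi * ht p / T) (by positivity) (by positivity)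
      have h4 : Real.log (2 * Real.pi * ht p / u) - Real.log (2 * Real.pi * ht p / T) =
          -(Real.log u - Real.log T) := by
        have := Real.pi_pos
        rw [Real.log_div (by positivity) hu0.ne', Real.log_div (by positivity) hT0.ne']
        ring
      rw [h4, abs_neg] at h3
      have h5 := log_close hT0 hu.1.le
      have h6 : |V (2 * Real.pi * ht p / u) - V (2 * Real.pi * ht p / T)| ≤ C1 * (2 * |u - T| / T) :=
        h3.trans (mul_le_mul_of_nonneg_left h5 hC1.le)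
      calc _ ≤ 2 * (√(ht p))⁻¹ * (C1 * (2 * |u - T| / T)) := mul_le_mul_of_nonneg_left h6 (by positivity)
        _ = _ := by ring
    refine (norm_sum_le _ _).trans ((sum_le_sum h1).trans ?_)
    rw [← mul_sum]
    have h3 := ht_sum X
    calc (4 * C1 * |u - T| / T) * ∑ p ∈ PS X, (√(ht p))⁻¹ ≤
        (4 * C1 * |u - T| / T) * (2 * √(X:ℝ) * (1 + Real.log X)) :=
          mul_le_mul_of_nonneg_left h3 (by positivity)
      _ = _ := by ring
  have hff : IntegrableOn (fun u => ((Wg H T u : ℝ) : ℂ) * ((ff u : ℂ) * tw θ u)) S := by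
    have hc : Continuous fun u => ((Wg H T u : ℝ) : ℂ) * ((ff u : ℂ) * tw θ u) :=
      (Complex.continuous_ofReal.comp (Wg_cont H T)).mul
        ((Complex.continuous_ofReal.comp ff_cont).mul (tw_cont θ))
    exact (hc.integrableOn_Icc (a := T / 2) (b := 3 * T / 2)).mono_set Set.Ioc_subset_Icc_self
  have hpt : Integrable (fun u => ((Wg H T u : ℝ) : ℂ) * (PT X T u * tw θ u)) := by
    refine Integrable.mono' ((Wg_int hH T).mul_const (2 * (X:ℝ) ^ 2)) ?_ (Filter.Eventually.of_forall fun u => ?_)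
    · exact ((Complex.continuous_ofReal.comp (Wg_cont H T)).mul
        ((PT_cont X T).mul (tw_cont θ))).aestronglyMeasurable
    · rw [norm_mul, norm_mul, tw_norm, mul_one, Complex.norm_real, Real.norm_eq_abs, abs_of_pos (Wg_pos H T u)]
      exact mul_le_mul_of_nonneg_left (PT_norm X hT0 u) (Wg_pos H T u).le
  have hsplit : ((√Real.pi * H : ℝ) : ℂ) * ∑ p ∈ PS X, FF H T h k p =
      (∫ u in S, ((Wg H T u : ℝ) : ℂ) * (PT X T u * tw θ u)) +
        ∫ u in Sᶜ, ((Wg H T u : ℝ) : ℂ) * (PT X T u * tw θ u) := by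
    rw [integral_add_compl hSm hpt, hθ, pt_int hH]
  rw [hsplit, ← sub_sub, ← integral_sub hff hpt.integrableOn]
  have hT1 : ‖∫ u in Sᶜ, ((Wg H T u : ℝ) : ℂ) * (PT X T u * tw θ u)‖ ≤
      6 * (X:ℝ) ^ 2 * H * Real.exp (-(T ^ 2 / (8 * H ^ 2))) := by
    have h1 : ∀ u ∈ Sᶜ, ‖((Wg H T u : ℝ) : ℂ) * (PT X T u * tw θ u)‖ ≤
        2 * (X:ℝ) ^ 2 * Real.exp (-(T ^ 2 / (8 * H ^ 2))) * Wh H T u := by
      intro u hu
      have h2 : T / 2 ≤ |u - T| := by
        rw [hS, Set.mem_compl_iff, Set.mem_Ioc, not_and_or, not_lt, not_le] at hu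
        rcases hu with hu | hu
        · rw [abs_sub_comm]
          exact le_trans (by linarith) (le_abs_self _)
        · exact le_trans (by linarith) (le_abs_self _)
      have h3 := Wg_far hH (T := T) (u := u) (D := T / 2) (by positivity) h2
      rw [norm_mul, norm_mul, tw_norm, mul_one, Complex.norm_real, Real.norm_eq_abs, abs_of_pos (Wg_pos H T u)]
      have h4 := PT_norm X hT0 u
      have e1 : (T / 2) ^ 2 / (2 * H ^ 2) = T ^ 2 / (8 * H ^ 2) := by field_simp; norm_num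
      rw [e1] at h3
      calc Wg H T u * ‖PT X T u‖ ≤ (Real.exp (-(T ^ 2 / (8 * H ^ 2))) * Wh H T u) * (2 * (X:ℝ) ^ 2) :=
            mul_le_mul h3 h4 (norm_nonneg _) (mul_nonneg (Real.exp_pos _).le (Wh_pos H T u).le)
        _ = _ := by ring
    have h2 : ‖∫ u in Sᶜ, ((Wg H T u : ℝ) : ℂ) * (PT X T u * tw θ u)‖ ≤
        ∫ u in Sᶜ, 2 * (X:ℝ) ^ 2 * Real.exp (-(T ^ 2 / (8 * H ^ 2))) * Wh H T u :=
      norm_integral_le_of_norm_le (((Wh_int hH T).const_mul _).integrableOn)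
        ((ae_restrict_iff' hSm.compl).mpr (Filter.Eventually.of_forall h1))
    refine h2.trans ?_
    have h3 : ∫ u in Sᶜ, 2 * (X:ℝ) ^ 2 * Real.exp (-(T ^ 2 / (8 * H ^ 2))) * Wh H T u ≤
        ∫ u, 2 * (X:ℝ) ^ 2 * Real.exp (-(T ^ 2 / (8 * H ^ 2))) * Wh H T u :=
      setIntegral_le_integral ((Wh_int hH T).const_mul _)
        (Filter.Eventually.of_forall fun u => by have := Wh_pos H T u; positivity)
    refine h3.trans ?_
    rw [integral_const_mul]
    have h4 := Wh_val hH T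
    calc 2 * (X:ℝ) ^ 2 * Real.exp (-(T ^ 2 / (8 * H ^ 2))) * ∫ u, Wh H T u ≤
        2 * (X:ℝ) ^ 2 * Real.exp (-(T ^ 2 / (8 * H ^ 2))) * (3 * H) := mul_le_mul_of_nonneg_left h4 (by positivity)
      _ = _ := by ring
  have hM1 : ‖∫ u in S, (((Wg H T u : ℝ) : ℂ) * ((ff u : ℂ) * tw θ u) -
      ((Wg H T u : ℝ) : ℂ) * (PT X T u * tw θ u))‖ ≤
      √Real.pi * H * (C0 * (T / 2) ^ (-(1 / 2) + ε)) +
        24 * C1 * √(X:ℝ) * (1 + Real.log X) * H ^ 2 / T := by
    set A1 : ℝ := C0 * (T / 2) ^ (-(1 / 2) + ε) with hA1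
    set A2 : ℝ := 8 * C1 * √(X:ℝ) * (1 + Real.log X) / T with hA2
    have hlX : 0 ≤ Real.log X := Real.log_nonneg hX1
    have hA10 : 0 ≤ A1 := by positivity
    have hA20 : 0 ≤ A2 := by positivity
    have h1 : ∀ u ∈ S, ‖((Wg H T u : ℝ) : ℂ) * ((ff u : ℂ) * tw θ u) -
      ((Wg H T u : ℝ) : ℂ) * (PT X T u * tw θ u)‖ ≤ A1 * Wg H T u + A2 * (H * Wh H T u) := by
      intro u hu
      have e1 : ((Wg H T u : ℝ) : ℂ) * ((ff u : ℂ) * tw θ u) -
        ((Wg H T u : ℝ) : ℂ) * (PT X T u * tw θ u) = ((Wg H T u : ℝ) : ℂ) *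
          ((((ff u : ℂ) - PX X u) + (PX X u - PT X T u)) * tw θ u) := by ring
      rw [e1, norm_mul, norm_mul, tw_norm, mul_one, Complex.norm_real, Real.norm_eq_abs,
        abs_of_pos (Wg_pos H T u)]
      have h2 := norm_add_le ((ff u : ℂ) - PX X u) (PX X u - PT X T u)
      have h3 := k1 u hu
      have h4 := k2 u hu
      have h5 := Wg_abs hH T u
      have h6 := Wg_pos H T u
      calc Wg H T u * ‖((ff u : ℂ) - PX X u) + (PX X u - PT X T u)‖ ≤ Wg H T u * (A1 + A2 * |u - T|) :=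
            mul_le_mul_of_nonneg_left (by linarith) h6.le
        _ = A1 * Wg H T u + A2 * (Wg H T u * |u - T|) := by ring
        _ ≤ _ := by
          have := mul_le_mul_of_nonneg_left h5 hA20
          linarith
    have hi : Integrable fun u => A1 * Wg H T u + A2 * (H * Wh H T u) :=
      ((Wg_int hH T).const_mul _).add (((Wh_int hH T).const_mul _).const_mul _)
    refine (norm_integral_le_of_norm_le hi.integrableOn
      ((ae_restrict_iff' hSm).mpr (Filter.Eventually.of_forall h1))).trans ?_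
    refine (setIntegral_le_integral hi (Filter.Eventually.of_forall fun u => by
      have := Wh_pos H T u
      have := Wg_pos H T u
      positivity)).trans ?_
    rw [integral_add ((Wg_int hH T).const_mul _) (((Wh_int hH T).const_mul _).const_mul _),
      integral_const_mul, integral_const_mul, integral_const_mul, Wg_val hH]
    have h4 := Wh_val hH T
    have h5 : A2 * (H * ∫ u, Wh H T u) ≤ A2 * (H * (3 * H)) := by gcongr
    have e2 : A2 * (H * (3 * H)) = 24 * C1 * √(X:ℝ) * (1 + Real.log X) * H ^ 2 / T := by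
      rw [hA2]; ring
    rw [e2] at h5
    linarith
  calc _ ≤ ‖∫ u in S, (((Wg H T u : ℝ) : ℂ) * ((ff u : ℂ) * tw θ u) -
      ((Wg H T u : ℝ) : ℂ) * (PT X T u * tw θ u))‖ +
      ‖∫ u in Sᶜ, ((Wg H T u : ℝ) : ℂ) * (PT X T u * tw θ u)‖ := norm_sub_le _ _
    _ ≤ _ := add_le_add hM1 hT1

end Pool.Agent.Zk6
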