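import Pool.Agent.Zk6.K6
import Pool.Agent.Y620.SX.CRA
import Pool.Agent.W184.NZ.Avg0

set_option autoImplicit false

/-! The diagonal and the asymptotics of the twisted second moment on a short window. -/

namespace Pool.Agent.Zk6

open Finset MeasureTheory Filter
open Pool.Agent.Y969.GP (V V1 ht co PS S_V ff PX cr FR)
open Pool.Agent.Y545.GP (mem_PS mem_FR red fiber red_spec red_mul)
open Pool.Agent.W184.NZ (mh mh_re w1 wl)
open Pool.Agent.H306R2.SM (cl)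

lemma red_iff {h k : ℕ} (hh : 1 ≤ h) (hk : 1 ≤ k) {p : ℕ × ℕ} (hp1 : 1 ≤ p.1) (hp2 : 1 ≤ p.2) :
    p.1 * h = p.2 * k ↔ red p = (k / Nat.gcd h k, h / Nat.gcd h k) := by
  set d := Nat.gcd h k with hd
  have hd0 : 0 < d := Nat.gcd_pos_of_pos_left _ hh
  set g := Nat.gcd p.1 p.2 with hg
  have hg0 : 0 < g := Nat.gcd_pos_of_pos_left _ hp1
  obtain ⟨h', hh'⟩ : d ∣ h := Nat.gcd_dvd_left _ _
  obtain ⟨k', hk'⟩ : d ∣ k := Nat.gcd_dvd_right _ _
  obtain ⟨a, ha⟩ : g ∣ p.1 := Nat.gcd_dvd_left _ _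
  obtain ⟨b, hb⟩ : g ∣ p.2 := Nat.gcd_dvd_right _ _
  have e1 : h / d = h' := by rw [hh']; exact Nat.mul_div_cancel_left _ hd0
  have e2 : k / d = k' := by rw [hk']; exact Nat.mul_div_cancel_left _ hd0
  have e3 : red p = (a, b) := by
    unfold red
    rw [← hg]
    nth_rewrite 1 [ha]
    nth_rewrite 1 [hb]
    rw [Nat.mul_div_cancel_left _ hg0, Nat.mul_div_cancel_left _ hg0]
  have c1 : Nat.Coprime h' k' := by
    have := Nat.coprime_div_gcd_div_gcd (m := h) (n := k) hd0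
    rw [← hd, e1, e2] at this
    exact this
  have c2 : Nat.Coprime a b := by
    have := Nat.coprime_div_gcd_div_gcd (m := p.1) (n := p.2) hg0
    rw [← hg] at this
    have e4 : p.1 / g = a := by
      nth_rewrite 1 [ha]; exact Nat.mul_div_cancel_left _ hg0
    have e5 : p.2 / g = b := by
      nth_rewrite 1 [hb]; exact Nat.mul_div_cancel_left _ hg0
    rw [e4, e5] at this
    exact this
  rw [e1, e2, e3, Prod.mk.injEq]
  constructor
  · intro h1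
    have h2 : a * h' = b * k' := by
      have h3 : (g * d) * (a * h') = (g * d) * (b * k') := by
        calc (g * d) * (a * h') = (g * a) * (d * h') := by ring
          _ = p.1 * h := by rw [← ha, ← hh']
          _ = p.2 * k := h1
          _ = (g * b) * (d * k') := by rw [← hb, ← hk']
          _ = _ := by ring
      exact Nat.eq_of_mul_eq_mul_left (Nat.mul_pos hg0 hd0) h3
    have h4 : a ∣ k' := c2.dvd_of_dvd_mul_left ⟨h', h2.symm⟩
    have h5 : k' ∣ a := c1.symm.dvd_of_dvd_mul_right ⟨b, by rw [h2]; ring⟩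
    have h6 : a = k' := Nat.dvd_antisymm h4 h5
    have h7 : b ∣ h' := c2.symm.dvd_of_dvd_mul_left ⟨k', h2⟩
    have h8 : h' ∣ b := c1.dvd_of_dvd_mul_right ⟨a, by rw [← h2]; ring⟩
    exact ⟨h6, Nat.dvd_antisymm h7 h8⟩
  · rintro ⟨rfl, rfl⟩
    rw [ha, hb, hh', hk']; ring

lemma diag {h k X : ℕ} (hh : 1 ≤ h) (hk : 1 ≤ k) (hX : h * k ≤ X) (H T : ℝ) :
    ∑ p ∈ (PS X).filter (fun p => p.1 * h = p.2 * k), FF H T h k p =
      ((cr X (k / Nat.gcd h k, h / Nat.gcd h k) T : ℝ) : ℂ) := by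
  set d := Nat.gcd h k with hd
  have hd0 : 0 < d := Nat.gcd_pos_of_pos_left _ hh
  have h1 : (PS X).filter (fun p => p.1 * h = p.2 * k) =
      (PS X).filter (fun p => red p = (k / d, h / d)) := by
    ext p
    rw [mem_filter, mem_filter]
    constructor
    · rintro ⟨a, b⟩
      exact ⟨a, (red_iff hh hk (mem_PS.mp a).1 (mem_PS.mp a).2.1).mp b⟩
    · rintro ⟨a, b⟩
      exact ⟨a, (red_iff hh hk (mem_PS.mp a).1 (mem_PS.mp a).2.1).mpr b⟩
  have h2 : ∀ p ∈ (PS X).filter (fun p => p.1 * h = p.2 * k), FF H T h k p = ((co p T : ℝ) : ℂ) := by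
    intro p hp
    rw [mem_filter, mem_PS] at hp
    obtain ⟨⟨a, b, _⟩, c⟩ := hp
    have hL : LL h k p = 0 := by
      unfold LL
      have a' : (0:ℝ) < p.1 := by exact_mod_cast a
      have b' : (0:ℝ) < p.2 := by exact_mod_cast b
      have h' : (0:ℝ) < h := by exact_mod_cast hh
      have k' : (0:ℝ) < k := by exact_mod_cast hk
      have e : (p.1:ℝ) * h = p.2 * k := by exact_mod_cast c
      have := congrArg Real.log e
      rw [Real.log_mul a'.ne' h'.ne', Real.log_mul b'.ne' k'.ne'] at this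
      linarith
    unfold FF
    rw [hL]
    simp
  rw [sum_congr rfl h2, h1]
  have hFR : (k / d, h / d) ∈ FR X := by
    rw [mem_FR]
    have a1 : 1 ≤ k / d := Nat.div_pos (Nat.gcd_le_right _ hk) hd0
    have a2 : 1 ≤ h / d := Nat.div_pos (Nat.gcd_le_left _ hh) hd0
    refine ⟨a1, a2, ?_, (Nat.coprime_div_gcd_div_gcd hd0).symm⟩
    calc k / d * (h / d) ≤ k * h := Nat.mul_le_mul (Nat.div_le_self _ _) (Nat.div_le_self _ _)
      _ = h * k := by ring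
      _ ≤ X := hX
  rw [fiber hFR, sum_image (by
    intro g _ g' _ hgg
    have h5 := congrArg Prod.fst hgg
    exact Nat.eq_of_mul_eq_mul_right (mem_FR.mp hFR).1 h5)]
  unfold cr
  push_cast
  rfl

/-- the full sum -/
lemma full_sum {h k X : ℕ} (hh : 1 ≤ h) (hk : 1 ≤ k) (hX : h * k ≤ X) {T H Δ Y : ℝ} (hT : 0 < T) (hH : 0 < H)
    (hΔ : 0 < Δ) (hhY : (h:ℝ) ≤ Y) (hkY : (k:ℝ) ≤ Y) (h1 : 4 * Y * Y * Δ < H) :
    ‖∑ p ∈ PS X, FF H T h k p - ((cr X (k / Nat.gcd h k, h / Nat.gcd h k) T : ℝ) : ℂ)‖ ≤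
      2 * OB X T H Δ Y := by
  have e1 : ∑ p ∈ PS X, FF H T h k p =
      ∑ p ∈ (PS X).filter (fun p => p.1 * h < p.2 * k), FF H T h k p +
      (∑ p ∈ (PS X).filter (fun p => p.2 * k < p.1 * h), FF H T h k p +
        ∑ p ∈ (PS X).filter (fun p => p.1 * h = p.2 * k), FF H T h k p) := by
    rw [← sum_filter_add_sum_filter_not (PS X) (fun p => p.1 * h < p.2 * k)]
    congr 1
    rw [← sum_filter_add_sum_filter_not ((PS X).filter (fun p => ¬ p.1 * h < p.2 * k))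
      (fun p => p.2 * k < p.1 * h), filter_filter, filter_filter]
    congr 1
    · refine sum_congr (filter_congr fun p _ => ?_) fun _ _ => rfl
      constructor
      · rintro ⟨_, b⟩; exact b
      · intro b; exact ⟨by omega, b⟩
    · refine sum_congr (filter_congr fun p _ => ?_) fun _ _ => rfl
      constructor
      · rintro ⟨a, b⟩; omega
      · intro b; exact ⟨by omega, by omega⟩
  rw [e1, diag hh hk hX]
  have a1 := off_plus (X := X) hh hk hT hH hΔ hhY hkY h1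
  have a2 := off_minus (X := X) hh hk hT hH hΔ hhY hkY h1
  have e2 : ∀ a b c : ℂ, a + (b + c) - c = a + b := by intro a b c; ring
  rw [e2]
  refine (norm_add_le _ _).trans ?_
  linarith

lemma w1_eq {h k : ℕ} (hh : 1 ≤ h) (hk : 1 ≤ k) :
    ((h:ℝ) * k) ^ (-(1 / 2 : ℝ)) = w1 (h, k) * √(ht (k / Nat.gcd h k, h / Nat.gcd h k)) := by
  set d := Nat.gcd h k with hd
  have hd0 : 0 < d := Nat.gcd_pos_of_pos_left _ hh
  have hh0 : (0:ℝ) < h := by exact_mod_cast hh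
  have hk0 : (0:ℝ) < k := by exact_mod_cast hk
  have hd0' : (0:ℝ) < d := by exact_mod_cast hd0
  have e1 : ((h / d : ℕ) : ℝ) = h / d := Nat.cast_div (Nat.gcd_dvd_left _ _) hd0'.ne'
  have e2 : ((k / d : ℕ) : ℝ) = k / d := Nat.cast_div (Nat.gcd_dvd_right _ _) hd0'.ne'
  unfold ht w1
  simp only
  rw [e1, e2, ← hd]
  have e3 : (k:ℝ) / d * (h / d) = (h * k) / d ^ 2 := by field_simp
  rw [e3, Real.sqrt_div (by positivity), Real.sqrt_sq hd0'.le, Real.rpow_neg (by positivity),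
    ← Real.sqrt_eq_rpow]
  have h5 : √((h:ℝ) * k) * √((h:ℝ) * k) = h * k := Real.mul_self_sqrt (by positivity)
  have h6 : 0 < √((h:ℝ) * k) := Real.sqrt_pos.mpr (by positivity)
  have : (d:ℝ) / (h * k) * (√((h:ℝ) * k) / d) = √((h:ℝ) * k) / (h * k) := by field_simp
  rw [this]
  nth_rewrite 3 [← h5]
  field_simp

/-- the explicit twisted moment -/
theorem tw_full {ε C0 : ℝ} (hε : 0 < ε) (hε1 : ε ≤ 1 / 2) (hC0 : 0 < C0)
    (hA : ∀ (u : ℝ) (X : ℕ), 1 ≤ u → u ^ (1 + ε) ≤ X → ‖(ff u : ℂ) - PX X u‖ ≤ C0 * u ^ (-(1 / 2) + ε))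
    {C1 : ℝ} (hC1 : 0 < C1)
    (hV : ∀ x y : ℝ, 0 < x → 0 < y → |V x - V y| ≤ C1 * |Real.log x - Real.log y|)
    {C2 : ℝ} (hC2 : 0 < C2)
    (hCR : ∀ (X : ℕ) (p : ℕ × ℕ) (u : ℝ), 1 ≤ p.1 → 1 ≤ p.2 → 1 ≤ u → u ^ (1 + ε) ≤ (X : ℝ) →
      ht p ≤ u ^ (1 / 2 : ℝ) → |√(ht p) * cr X p u -
      (Real.log (u / (2 * Real.pi * ht p)) + 2 * Real.eulerMascheroniConstant)| ≤ C2 * u ^ (-(1 / 4) : ℝ))
    {T H Δ Y : ℝ} (hT : 2 ≤ T) (hH : 0 < H) (hΔ : 0 < Δ) {X : ℕ} (hX : (2 * T) ^ (1 + ε) ≤ X) {x : ℕ × ℕ}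
    (hx1 : x.1 ≠ 0) (hx2 : x.2 ≠ 0) (hx1Y : (x.1:ℝ) ≤ Y) (hx2Y : (x.2:ℝ) ≤ Y) (h1 : 4 * Y * Y * Δ < H)
    (hYT : Y * Y ≤ T ^ (1 / 2 : ℝ)) :
    |(∫ u in Set.Ioc (T / 2) (3 * T / 2), Wg H T u * (ff u * (mh u x).re)) -
      √Real.pi * H * ((Real.log (T / (2 * Real.pi)) + 2 * Real.eulerMascheroniConstant) * w1 x - wl x)| ≤
      √Real.pi * H * (C0 * (T / 2) ^ (-(1 / 2) + ε)) + 24 * C1 * √(X:ℝ) * (1 + Real.log X) * H ^ 2 / T +
        6 * (X:ℝ) ^ 2 * H * Real.exp (-(T ^ 2 / (8 * H ^ 2))) + √Real.pi * H * (2 * OB X T H Δ Y) +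
        √Real.pi * H * (C2 * T ^ (-(1 / 4) : ℝ)) := by
  obtain ⟨h, k⟩ := x
  simp only at hx1 hx2 hx1Y hx2Y
  have hh : 1 ≤ h := Nat.one_le_iff_ne_zero.mpr hx1
  have hk : 1 ≤ k := Nat.one_le_iff_ne_zero.mpr hx2
  have hh0 : (0:ℝ) < h := by exact_mod_cast hh
  have hk0 : (0:ℝ) < k := by exact_mod_cast hk
  have hh1 : (1:ℝ) ≤ h := by exact_mod_cast hh
  have hk1 : (1:ℝ) ≤ k := by exact_mod_cast hk
  have hT0 : 0 < T := by linarith
  have hT1 : 1 ≤ T := by linarith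
  have hpi := Real.pi_pos
  have hhk : (h:ℝ) * k ≤ T ^ (1 / 2 : ℝ) := by
    refine le_trans ?_ hYT
    exact mul_le_mul hx1Y hx2Y hk0.le (by linarith)
  have hTX : T ^ (1 + ε) ≤ X := by
    refine le_trans ?_ hX
    exact Real.rpow_le_rpow hT0.le (by linarith) (by linarith)
  have hhkX : h * k ≤ X := by
    have h2 : (h:ℝ) * k ≤ X := by
      refine hhk.trans (le_trans ?_ hTX)
      exact Real.rpow_le_rpow_of_exponent_le hT1 (by linarith)
    exact_mod_cast h2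
  have m1 := tw_expl hε hε1 hC0 hA hC1 hV hT hH hX h k
  have m2 := full_sum hh hk hhkX hT0 hH hΔ hx1Y hx2Y h1
  set d := Nat.gcd h k with hd
  have hd0 : 0 < d := Nat.gcd_pos_of_pos_left _ hh
  have hd0' : (0:ℝ) < d := by exact_mod_cast hd0
  have e1 : ((h / d : ℕ) : ℝ) = h / d := Nat.cast_div (Nat.gcd_dvd_left _ _) hd0'.ne'
  have e2 : ((k / d : ℕ) : ℝ) = k / d := Nat.cast_div (Nat.gcd_dvd_right _ _) hd0'.ne'
  set p : ℕ × ℕ := (k / d, h / d) with hp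
  have hp1 : 1 ≤ p.1 := Nat.div_pos (Nat.gcd_le_right _ hk) hd0
  have hp2 : 1 ≤ p.2 := Nat.div_pos (Nat.gcd_le_left _ hh) hd0
  have hht : ht p = (h * k) / d ^ 2 := by
    rw [hp]; unfold ht; simp only; rw [e1, e2]; field_simp
  have hht0 : 0 < ht p := by rw [hht]; positivity
  have hht1 : ht p ≤ T ^ (1 / 2 : ℝ) := by
    rw [hht]
    refine le_trans (div_le_self (by positivity) ?_) hhk
    have : (1:ℝ) ≤ d := by exact_mod_cast hd0
    nlinarith
  have m3 := hCR X p T hp1 hp2 hT1 hTX hht1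
  set θ : ℝ := Real.log k - Real.log h with hθ
  set s : ℝ := ((h:ℝ) * k) ^ (-(1 / 2 : ℝ)) with hs
  have hs0 : 0 ≤ s := by positivity
  have hs1 : s ≤ 1 := Real.rpow_le_one_of_one_le_of_nonpos (by nlinarith) (by norm_num)
  have hsw : s = w1 (h, k) * √(ht p) := w1_eq hh hk
  have hw0 : 0 ≤ w1 (h, k) := Pool.Agent.W184.NZ.w1_nonneg _
  have hw1 : w1 (h, k) ≤ 1 := by
    have h2 : 1 ≤ √(ht p) := by
      refine Real.one_le_sqrt.mpr ?_
      unfold ht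
      have a1 : (1:ℝ) ≤ p.1 := by exact_mod_cast hp1
      have a2 : (1:ℝ) ≤ p.2 := by exact_mod_cast hp2
      nlinarith
    nlinarith
  -- the integral is the real part
  have hint : (∫ u in Set.Ioc (T / 2) (3 * T / 2), Wg H T u * (ff u * (mh u (h, k)).re)) =
      s * (∫ u in Set.Ioc (T / 2) (3 * T / 2), ((Wg H T u : ℝ) : ℂ) * ((ff u : ℂ) * tw θ u)).re := by
    have hc : Continuous fun u => ((Wg H T u : ℝ) : ℂ) * ((ff u : ℂ) * tw θ u) :=
      (Complex.continuous_ofReal.comp (Wg_cont H T)).mul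
        ((Complex.continuous_ofReal.comp ff_cont).mul (tw_cont θ))
    have hI : IntegrableOn (fun u => ((Wg H T u : ℝ) : ℂ) * ((ff u : ℂ) * tw θ u))
        (Set.Ioc (T / 2) (3 * T / 2)) :=
      (hc.integrableOn_Icc (a := T / 2) (b := 3 * T / 2)).mono_set Set.Ioc_subset_Icc_self
    have h2 := integral_re (μ := volume.restrict (Set.Ioc (T / 2) (3 * T / 2))) hI
    have h3 : (∫ u in Set.Ioc (T / 2) (3 * T / 2), ((Wg H T u : ℝ) : ℂ) * ((ff u : ℂ) * tw θ u)).re =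
        ∫ u in Set.Ioc (T / 2) (3 * T / 2), (((Wg H T u : ℝ) : ℂ) * ((ff u : ℂ) * tw θ u)).re := h2.symm
    rw [h3, ← integral_const_mul]
    refine integral_congr_ae (Eventually.of_forall fun u => ?_)
    simp only
    rw [mh_re u hx1 hx2, Complex.re_ofReal_mul, Complex.re_ofReal_mul]
    have h4 : (tw θ u).re = Real.cos (u * θ) := by
      unfold tw
      rw [mul_comm, Complex.exp_ofReal_mul_I_re]
    rw [h4, ← hs, ← hθ]
    ring
  -- main term
  have hmain : s * (√Real.pi * H * cr X p T) = √Real.pi * H * (w1 (h, k) * (√(ht p) * cr X p T)) := by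
    rw [hsw]; ring
  have hlog : w1 (h, k) * (Real.log (T / (2 * Real.pi * ht p)) + 2 * Real.eulerMascheroniConstant) =
      (Real.log (T / (2 * Real.pi)) + 2 * Real.eulerMascheroniConstant) * w1 (h, k) - wl (h, k) := by
    unfold wl
    simp only
    rw [← hd, ← hht, show T / (2 * Real.pi * ht p) = T / (2 * Real.pi) / ht p by field_simp,
      Real.log_div (by positivity) hht0.ne']
    ring
  have m4 : ‖(∫ u in Set.Ioc (T / 2) (3 * T / 2), ((Wg H T u : ℝ) : ℂ) * ((ff u : ℂ) * tw θ u)) -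
      ((√Real.pi * H : ℝ) : ℂ) * ((cr X p T : ℝ) : ℂ)‖ ≤
      √Real.pi * H * (C0 * (T / 2) ^ (-(1 / 2) + ε)) + 24 * C1 * √(X:ℝ) * (1 + Real.log X) * H ^ 2 / T +
        6 * (X:ℝ) ^ 2 * H * Real.exp (-(T ^ 2 / (8 * H ^ 2))) + √Real.pi * H * (2 * OB X T H Δ Y) := by
    have e3 : (∫ u in Set.Ioc (T / 2) (3 * T / 2), ((Wg H T u : ℝ) : ℂ) * ((ff u : ℂ) * tw θ u)) -
        ((√Real.pi * H : ℝ) : ℂ) * ((cr X p T : ℝ) : ℂ) =
        ((∫ u in Set.Ioc (T / 2) (3 * T / 2), ((Wg H T u : ℝ) : ℂ) * ((ff u : ℂ) * tw θ u)) -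
          ((√Real.pi * H : ℝ) : ℂ) * ∑ p ∈ PS X, FF H T h k p) +
        ((√Real.pi * H : ℝ) : ℂ) * (∑ p ∈ PS X, FF H T h k p - ((cr X p T : ℝ) : ℂ)) := by ring
    rw [e3]
    refine (norm_add_le _ _).trans (add_le_add m1 ?_)
    rw [norm_mul, Complex.norm_real, Real.norm_eq_abs, abs_of_nonneg (by positivity)]
    exact mul_le_mul_of_nonneg_left m2 (by positivity)
  have m5 : |(∫ u in Set.Ioc (T / 2) (3 * T / 2), ((Wg H T u : ℝ) : ℂ) * ((ff u : ℂ) * tw θ u)).re -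
      √Real.pi * H * cr X p T| ≤ √Real.pi * H * (C0 * (T / 2) ^ (-(1 / 2) + ε)) +
        24 * C1 * √(X:ℝ) * (1 + Real.log X) * H ^ 2 / T +
        6 * (X:ℝ) ^ 2 * H * Real.exp (-(T ^ 2 / (8 * H ^ 2))) + √Real.pi * H * (2 * OB X T H Δ Y) := by
    have h2 := (Complex.abs_re_le_norm _).trans m4
    rw [Complex.sub_re, ← Complex.ofReal_mul, Complex.ofReal_re] at h2
    exact h2
  rw [hint]
  have e4 : s * (∫ u in Set.Ioc (T / 2) (3 * T / 2), ((Wg H T u : ℝ) : ℂ) * ((ff u : ℂ) * tw θ u)).re -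
      √Real.pi * H * ((Real.log (T / (2 * Real.pi)) + 2 * Real.eulerMascheroniConstant) * w1 (h, k) - wl (h, k)) =
      s * ((∫ u in Set.Ioc (T / 2) (3 * T / 2), ((Wg H T u : ℝ) : ℂ) * ((ff u : ℂ) * tw θ u)).re -
        √Real.pi * H * cr X p T) + √Real.pi * H * (w1 (h, k) * (√(ht p) * cr X p T -
        (Real.log (T / (2 * Real.pi * ht p)) + 2 * Real.eulerMascheroniConstant))) := by
    rw [mul_sub s, hmain, ← hlog]; ring
  rw [e4]
  refine (abs_add_le _ _).trans (add_le_add ?_ ?_)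
  · rw [abs_mul, abs_of_nonneg hs0]
    calc s * _ ≤ 1 * _ := mul_le_mul_of_nonneg_right hs1 (abs_nonneg _)
      _ ≤ _ := by rw [one_mul]; exact m5
  · rw [abs_mul, abs_of_nonneg (show 0 ≤ √Real.pi * H by positivity), abs_mul, abs_of_nonneg hw0]
    refine mul_le_mul_of_nonneg_left ?_ (by positivity)
    calc w1 (h, k) * _ ≤ 1 * _ := mul_le_mul_of_nonneg_right hw1 (abs_nonneg _)
      _ ≤ _ := by rw [one_mul]; exact m3

end Pool.Agent.Zk6
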