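import Pool.Agent.Zk6.K7

set_option autoImplicit false

/-! Asymptotics of the twisted second moment on the window of length `T^h1`, `1/3 < h1 < 1/2`. -/

namespace Pool.Agent.Zk6

open Finset MeasureTheory Filter Topology
open Pool.Agent.Y969.GP (V V1 ht co PS S_V ff PX cr FR)
open Pool.Agent.W184.NZ (mh mh_re w1 wl)
open Pool.Agent.H306R2.SM (cl)

lemma ev_pow (C : ℝ) {a b : ℝ} (h : a < b) : ∀ᶠ T : ℝ in atTop, C * (T ^ a * Real.log T) ≤ T ^ b := by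
  have h1 := (isLittleO_log_rpow_atTop (sub_pos.mpr h)).def (show 0 < 1 / (|C| + 1) by positivity)
  filter_upwards [h1, eventually_gt_atTop 1] with T hT hT1
  have hT0 : 0 < T := by linarith
  have hl : 0 ≤ Real.log T := Real.log_nonneg hT1.le
  rw [Real.norm_eq_abs, Real.norm_eq_abs, abs_of_nonneg hl,
    abs_of_nonneg (show 0 ≤ T ^ (b - a) by positivity)] at hT
  have e1 : T ^ b = T ^ a * T ^ (b - a) := by rw [← Real.rpow_add hT0]; congr 1; ring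
  have hC : C ≤ |C| + 1 := by have := le_abs_self C; linarith
  calc C * (T ^ a * Real.log T) ≤ (|C| + 1) * (T ^ a * Real.log T) := by gcongr
    _ ≤ (|C| + 1) * (T ^ a * (1 / (|C| + 1) * T ^ (b - a))) := by gcongr
    _ = T ^ b := by rw [e1]; field_simp

lemma ev_pow' (C : ℝ) {a b : ℝ} (h : a < b) : ∀ᶠ T : ℝ in atTop, C * T ^ a ≤ T ^ b := by
  filter_upwards [ev_pow |C| h, Real.tendsto_log_atTop.eventually_ge_atTop 1, eventually_gt_atTop 0]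
    with T h1 h2 h3
  have h4 : 0 ≤ T ^ a := by positivity
  calc C * T ^ a ≤ |C| * T ^ a := mul_le_mul_of_nonneg_right (le_abs_self C) h4
    _ ≤ |C| * (T ^ a * Real.log T) := by
      refine mul_le_mul_of_nonneg_left ?_ (abs_nonneg _)
      nlinarith
    _ ≤ _ := h1

lemma ev_exp (C A b : ℝ) {k c : ℝ} (hk : 0 < k) (hc : 0 < c) :
    ∀ᶠ T : ℝ in atTop, C * (T ^ A * Real.exp (-k * T ^ c)) ≤ T ^ b := by
  have h1 := tendsto_rpow_mul_exp_neg_mul_atTop_nhds_zero ((A - b) / c) k hk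
  have h2 := h1.comp (tendsto_rpow_atTop hc)
  have h3 := h2.eventually (gt_mem_nhds (show (0:ℝ) < 1 / (|C| + 1) by positivity))
  filter_upwards [h3, eventually_gt_atTop 0] with T hT hT0
  simp only [Function.comp] at hT
  have e1 : (T ^ c) ^ ((A - b) / c) = T ^ (A - b) := by
    rw [← Real.rpow_mul hT0.le]; congr 1; field_simp
  rw [e1] at hT
  have e2 : T ^ A = T ^ b * T ^ (A - b) := by rw [← Real.rpow_add hT0]; congr 1; ring
  have hC : C ≤ |C| + 1 := by have := le_abs_self C; linarith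
  have hb : 0 < T ^ b := by positivity
  calc C * (T ^ A * Real.exp (-k * T ^ c)) ≤ (|C| + 1) * (T ^ A * Real.exp (-k * T ^ c)) := by gcongr
    _ = (|C| + 1) * (T ^ b * (T ^ (A - b) * Real.exp (-k * T ^ c))) := by rw [e2]; ring
    _ ≤ (|C| + 1) * (T ^ b * (1 / (|C| + 1))) := by gcongr
    _ = T ^ b := by field_simp

lemma sq_rp {T : ℝ} (hT : 0 < T) (a : ℝ) : √(T ^ a) = T ^ (a / 2) := by
  rw [Real.sqrt_eq_rpow, ← Real.rpow_mul hT.le]
  congr 1; ring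

/-- the bound for `OB` in powers of `T` -/
lemma OB_le {T δ h1 : ℝ} (hT : 1 < T) (hl : 1 ≤ Real.log T) {X : ℕ} (hX1 : 1 ≤ X) (hX : (X:ℝ) ≤ T ^ (1 + 2 * δ))
    (hδ : 0 < δ) (hδ1 : δ ≤ 1 / 2) :
    OB X T (T ^ h1) (T ^ δ) (T ^ δ) ≤ 6080 * (T ^ (4 * δ + 1 / 2 - 3 / 2 * h1) * Real.log T) +
      6880 * (T ^ (1 / 4 - h1 + 25 / 4 * δ) * Real.log T) +
        2 * (T ^ (2 + 4 * δ) * Real.exp (-(1 / 4) * T ^ (2 * δ))) := by
  have hT0 : 0 < T := by linarith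
  have hX0 : (1:ℝ) ≤ X := by exact_mod_cast hX1
  have hlX : Real.log X ≤ 2 * Real.log T := by
    have h2 := Real.log_le_log (by linarith) hX
    rw [Real.log_rpow hT0] at h2
    nlinarith
  have hN : (Nat.log 2 X : ℝ) + 1 ≤ 5 * Real.log T := by
    have h2 : (Nat.log 2 X : ℝ) * Real.log 2 ≤ Real.log X := by
      have h3 : ((2 ^ Nat.log 2 X : ℕ) : ℝ) ≤ X := by
        exact_mod_cast Nat.pow_log_le_self 2 (by omega)
      push_cast at h3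
      have h4 := Real.log_le_log (by positivity) h3
      rw [Real.log_pow] at h4
      exact h4
    have h5 := Real.log_two_gt_d9
    have h6 : (0:ℝ) ≤ Nat.log 2 X := Nat.cast_nonneg _
    nlinarith
  unfold OB
  have e1 : √(T ^ δ) = T ^ (δ / 2) := sq_rp hT0 δ
  have e2 : √(T * T ^ δ / T ^ h1) = T ^ ((1 + δ - h1) / 2) := by
    rw [← sq_rp hT0]
    congr 1
    rw [Real.rpow_sub hT0, Real.rpow_add hT0, Real.rpow_one]
  have e3 : √((X * T ^ δ) * √(X * T ^ δ) * T ^ δ / T) ≤ T ^ ((1 / 2 + 11 / 2 * δ) / 2) := by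
    rw [← sq_rp hT0]
    refine Real.sqrt_le_sqrt ?_
    have g1 : (X:ℝ) * T ^ δ ≤ T ^ (1 + 3 * δ) := by
      calc (X:ℝ) * T ^ δ ≤ T ^ (1 + 2 * δ) * T ^ δ := by gcongr
        _ = _ := by rw [← Real.rpow_add hT0]; congr 1; ring
    have g2 : √((X:ℝ) * T ^ δ) ≤ T ^ ((1 + 3 * δ) / 2) := by
      rw [← sq_rp hT0]; exact Real.sqrt_le_sqrt g1
    calc (X * T ^ δ) * √(X * T ^ δ) * T ^ δ / T ≤ T ^ (1 + 3 * δ) * T ^ ((1 + 3 * δ) / 2) * T ^ δ / T := by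
          gcongr
      _ = T ^ (1 / 2 + 11 / 2 * δ) := by
          rw [← Real.rpow_add hT0, ← Real.rpow_add hT0]
          nth_rewrite 2 [← Real.rpow_one T]
          rw [← Real.rpow_sub hT0]
          congr 1; ring
  rw [e1, e2]
  have e4 : 16 * T ^ δ * T ^ δ * T ^ (δ / 2) * T ^ δ / T ^ h1 = 16 * T ^ (7 / 2 * δ - h1) := by
    have : T ^ (7 / 2 * δ - h1) = T ^ δ * T ^ δ * T ^ (δ / 2) * T ^ δ / T ^ h1 := by
      rw [Real.rpow_sub hT0]
      congr 1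
      rw [← Real.rpow_add hT0, ← Real.rpow_add hT0, ← Real.rpow_add hT0]
      congr 1; ring
    rw [this]; ring
  rw [e4]
  have f1 : (Nat.log 2 X + 1 : ℝ) * (16 * T ^ (7 / 2 * δ - h1) * (76 * T ^ ((1 + δ - h1) / 2) +
      86 * √((X * T ^ δ) * √(X * T ^ δ) * T ^ δ / T))) ≤
      5 * Real.log T * (16 * T ^ (7 / 2 * δ - h1) * (76 * T ^ ((1 + δ - h1) / 2) +
      86 * T ^ ((1 / 2 + 11 / 2 * δ) / 2))) := by
    gcongr
  have f2 : 5 * Real.log T * (16 * T ^ (7 / 2 * δ - h1) * (76 * T ^ ((1 + δ - h1) / 2) +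
      86 * T ^ ((1 / 2 + 11 / 2 * δ) / 2))) = 6080 * (T ^ (4 * δ + 1 / 2 - 3 / 2 * h1) * Real.log T) +
      6880 * (T ^ (1 / 4 - h1 + 25 / 4 * δ) * Real.log T) := by
    have g1 : T ^ (4 * δ + 1 / 2 - 3 / 2 * h1) = T ^ (7 / 2 * δ - h1) * T ^ ((1 + δ - h1) / 2) := by
      rw [← Real.rpow_add hT0]; congr 1; ring
    have g2 : T ^ (1 / 4 - h1 + 25 / 4 * δ) = T ^ (7 / 2 * δ - h1) * T ^ ((1 / 2 + 11 / 2 * δ) / 2) := by
      rw [← Real.rpow_add hT0]; congr 1; ring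
    rw [g1, g2]; ring
  have f3 : 2 * (X:ℝ) ^ 2 * Real.exp (-(T ^ δ) ^ 2 / 4) ≤
      2 * (T ^ (2 + 4 * δ) * Real.exp (-(1 / 4) * T ^ (2 * δ))) := by
    have g1 : (X:ℝ) ^ 2 ≤ T ^ (2 + 4 * δ) := by
      calc (X:ℝ) ^ 2 ≤ (T ^ (1 + 2 * δ)) ^ 2 := by gcongr
        _ = _ := by rw [← Real.rpow_natCast, ← Real.rpow_mul hT0.le]; congr 1; push_cast; ring
    have g2 : -(T ^ δ) ^ 2 / 4 = -(1 / 4) * T ^ (2 * δ) := by
      have : T ^ (2 * δ) = (T ^ δ) ^ 2 := by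
        rw [← Real.rpow_natCast, ← Real.rpow_mul hT0.le]; congr 1; push_cast; ring
      rw [this]; ring
    rw [g2]
    have := Real.exp_pos (-(1 / 4) * T ^ (2 * δ))
    nlinarith
  linarith

lemma X_ev {δ : ℝ} (hδ : 0 < δ) (hδ1 : δ ≤ 1) : ∀ᶠ T : ℝ in atTop,
    ((⌈(2 * T) ^ (1 + δ)⌉₊ : ℕ) : ℝ) ≤ T ^ (1 + 2 * δ) := by
  filter_upwards [ev_pow' 5 (show 1 + δ < 1 + 2 * δ by linarith), eventually_ge_atTop 1] with T h1 h2
  have hT0 : 0 < T := by linarith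
  have h3 := (Nat.ceil_lt_add_one (show 0 ≤ (2 * T) ^ (1 + δ) by positivity)).le
  refine h3.trans (le_trans ?_ h1)
  rw [Real.mul_rpow (by norm_num) hT0.le]
  have h4 : (2:ℝ) ^ (1 + δ) ≤ 4 := by
    calc (2:ℝ) ^ (1 + δ) ≤ 2 ^ (2:ℝ) := Real.rpow_le_rpow_of_exponent_le (by norm_num) (by linarith)
      _ = 4 := by norm_num
  have h5 : 1 ≤ T ^ (1 + δ) := Real.one_le_rpow h2 (by linarith)
  nlinarith

/-- the twisted second moment on the window -/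
theorem tw_asymp {h1 : ℝ} (hlo : 1 / 3 < h1) (hhi : h1 < 1 / 2) :
    ∃ δ ε1 : ℝ, 0 < δ ∧ 0 < ε1 ∧ ∀ᶠ T : ℝ in atTop, ∀ x : ℕ × ℕ, x.1 ≠ 0 → x.2 ≠ 0 →
      (x.1 : ℝ) ≤ T ^ δ → (x.2 : ℝ) ≤ T ^ δ →
      |(∫ u in Set.Ioc (T / 2) (3 * T / 2), Wg (T ^ h1) T u * (ff u * (mh u x).re)) -
        √Real.pi * T ^ h1 * ((Real.log (T / (2 * Real.pi)) + 2 * Real.eulerMascheroniConstant) * w1 x - wl x)| ≤
        T ^ (h1 - ε1) := by
  set κ : ℝ := min (h1 - 1 / 3) (1 / 2 - h1) with hκ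
  have hκ0 : 0 < κ := lt_min (by linarith) (by linarith)
  have hκ1 : κ ≤ h1 - 1 / 3 := min_le_left _ _
  have hκ2 : κ ≤ 1 / 2 - h1 := min_le_right _ _
  have hκ3 : κ ≤ 1 / 12 := by linarith
  obtain ⟨C0, hC0, hA⟩ := Pool.Agent.Y891.GP.t_AFE Pool.Agent.Y587.GP.t_V Pool.Agent.Y587.GP.Chi.t_CHI
    (κ / 100) (by positivity)
  obtain ⟨C1, hC1, hV⟩ := V_lip
  obtain ⟨C2, hC2, hCR⟩ := Pool.Agent.Y620.SX.t_CRA' (κ / 100) (by positivity)
  refine ⟨κ / 100, κ / 4, by positivity, by positivity, ?_⟩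
  set δ : ℝ := κ / 100 with hδ
  have hδ0 : 0 < δ := by positivity
  have hpi := Real.pi_pos
  have hsp : √Real.pi ≤ 2 := by
    rw [show (2:ℝ) = √(2 ^ 2) by rw [Real.sqrt_sq (by norm_num)]]
    exact Real.sqrt_le_sqrt (by have := Real.pi_lt_four; linarith)
  have hb : h1 - κ / 4 = h1 - κ / 4 := rfl
  filter_upwards [X_ev hδ0 (by linarith), eventually_ge_atTop 3,
    Real.tendsto_log_atTop.eventually_ge_atTop 1,
    ev_pow' 5 (show 3 * δ < h1 by linarith),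
    ev_pow' (8 * (4 * C0)) (show h1 - 1 / 2 + δ < h1 - κ / 4 by linarith),
    ev_pow (8 * (72 * C1)) (show 2 * h1 - 1 / 2 + δ < h1 - κ / 4 by linarith),
    ev_exp (8 * 6) (2 + 4 * δ + h1) (h1 - κ / 4) (show (0:ℝ) < 1 / 8 by norm_num) (show 0 < 2 - 2 * h1 by linarith),
    ev_pow (8 * (4 * 6080)) (show h1 + (4 * δ + 1 / 2 - 3 / 2 * h1) < h1 - κ / 4 by linarith),
    ev_pow (8 * (4 * 6880)) (show h1 + (1 / 4 - h1 + 25 / 4 * δ) < h1 - κ / 4 by linarith),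
    ev_exp (8 * (4 * 2)) (h1 + (2 + 4 * δ)) (h1 - κ / 4) (show (0:ℝ) < 1 / 4 by norm_num)
      (show 0 < 2 * δ by linarith),
    ev_pow' (8 * (2 * C2)) (show h1 - 1 / 4 < h1 - κ / 4 by linarith)] with T hX hT3 hl t0 t1 t2 t3 t4 t5 t6 t7
  intro x hx1 hx2 hx1Y hx2Y
  have hT0 : 0 < T := by linarith
  have hT1 : 1 < T := by linarith
  set X : ℕ := ⌈(2 * T) ^ (1 + δ)⌉₊ with hXd
  have hXl : (2 * T) ^ (1 + δ) ≤ X := Nat.le_ceil _
  have hX1 : (1:ℝ) ≤ X := le_trans (Real.one_le_rpow (by linarith) (by linarith)) hXl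
  have hX1' : 1 ≤ X := by exact_mod_cast hX1
  set H : ℝ := T ^ h1 with hH
  have hH0 : 0 < H := by positivity
  have hYY : T ^ δ * T ^ δ = T ^ (2 * δ) := by rw [← Real.rpow_add hT0]; congr 1; ring
  have hmain := tw_full hδ0 (by linarith) hC0 hA hC1 hV hC2 hCR (T := T) (H := H) (Δ := T ^ δ) (Y := T ^ δ)
    (by linarith) hH0 (by positivity) hXl hx1 hx2 hx1Y hx2Y (by
      have e : T ^ (3 * δ) = T ^ δ * T ^ δ * T ^ δ := by
        rw [hYY, ← Real.rpow_add hT0]; congr 1; ring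
      have : 4 * T ^ δ * T ^ δ * T ^ δ = 4 * T ^ (3 * δ) := by rw [e]; ring
      rw [this]
      have h5 : 0 < T ^ (3 * δ) := by positivity
      linarith) (by
      rw [hYY]; exact Real.rpow_le_rpow_of_exponent_le hT1.le (by linarith))
  refine hmain.trans ?_
  have hlX : Real.log X ≤ 2 * Real.log T := by
    have h2 := Real.log_le_log (by linarith) hX
    rw [Real.log_rpow hT0] at h2
    nlinarith
  set R : ℝ := T ^ (h1 - κ / 4) with hR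
  have hR0 : 0 < R := by positivity
  -- the five terms
  have b1 : √Real.pi * H * (C0 * (T / 2) ^ (-(1 / 2) + δ)) ≤ R / 8 := by
    have g1 : (T / 2) ^ (-(1 / 2) + δ) ≤ 2 * T ^ (-(1 / 2) + δ) := by
      rw [Real.div_rpow hT0.le (by norm_num), div_le_iff₀ (by positivity)]
      have g2 : (1:ℝ) / 2 ≤ 2 ^ (-(1 / 2) + δ) := by
        calc (1:ℝ) / 2 = 2 ^ (-1 : ℝ) := by rw [Real.rpow_neg_one]; norm_num
          _ ≤ _ := Real.rpow_le_rpow_of_exponent_le (by norm_num) (by linarith)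
      have g3 : 0 < T ^ (-(1 / 2) + δ) := by positivity
      nlinarith
    have g4 : T ^ (h1 - 1 / 2 + δ) = H * T ^ (-(1 / 2) + δ) := by
      rw [hH, ← Real.rpow_add hT0]; congr 1; ring
    rw [g4] at t1
    calc √Real.pi * H * (C0 * (T / 2) ^ (-(1 / 2) + δ)) ≤ 2 * H * (C0 * (2 * T ^ (-(1 / 2) + δ))) := by
          gcongr
      _ = (8 * (4 * C0) * (H * T ^ (-(1 / 2) + δ))) / 8 := by ring
      _ ≤ R / 8 := by linarith
  have b2 : 24 * C1 * √(X:ℝ) * (1 + Real.log X) * H ^ 2 / T ≤ R / 8 := by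
    have g1 : √(X:ℝ) ≤ T ^ (1 / 2 + δ) := by
      calc √(X:ℝ) ≤ √(T ^ (1 + 2 * δ)) := Real.sqrt_le_sqrt hX
        _ = _ := by rw [sq_rp hT0]; congr 1; ring
    have g2 : 1 + Real.log X ≤ 3 * Real.log T := by linarith
    have g3 : 0 ≤ Real.log X := Real.log_nonneg hX1
    have g4 : T ^ (2 * h1 - 1 / 2 + δ) = T ^ (1 / 2 + δ) * H ^ 2 / T := by
      rw [hH, ← Real.rpow_natCast, ← Real.rpow_mul hT0.le, ← Real.rpow_add hT0]
      nth_rewrite 3 [← Real.rpow_one T]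
      rw [← Real.rpow_sub hT0]
      congr 1; push_cast; ring
    rw [g4] at t2
    calc 24 * C1 * √(X:ℝ) * (1 + Real.log X) * H ^ 2 / T ≤
          24 * C1 * T ^ (1 / 2 + δ) * (3 * Real.log T) * H ^ 2 / T := by gcongr
      _ = (8 * (72 * C1) * (T ^ (1 / 2 + δ) * H ^ 2 / T * Real.log T)) / 8 := by ring
      _ ≤ R / 8 := by linarith
  have b3 : 6 * (X:ℝ) ^ 2 * H * Real.exp (-(T ^ 2 / (8 * H ^ 2))) ≤ R / 8 := by
    have g1 : (X:ℝ) ^ 2 ≤ T ^ (2 + 4 * δ) := by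
      calc (X:ℝ) ^ 2 ≤ (T ^ (1 + 2 * δ)) ^ 2 := by gcongr
        _ = _ := by rw [← Real.rpow_natCast, ← Real.rpow_mul hT0.le]; congr 1; push_cast; ring
    have g2 : -(T ^ 2 / (8 * H ^ 2)) = -(1 / 8) * T ^ (2 - 2 * h1) := by
      rw [Real.rpow_sub hT0, hH]
      have e1 : (T ^ h1) ^ 2 = T ^ (2 * h1) := by
        rw [← Real.rpow_natCast, ← Real.rpow_mul hT0.le]; congr 1; push_cast; ring
      have e2 : T ^ (2:ℝ) = T ^ 2 := by rw [← Real.rpow_natCast]; norm_num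
      rw [e1, e2]; field_simp
    have g3 : T ^ (2 + 4 * δ + h1) = T ^ (2 + 4 * δ) * H := by rw [hH, ← Real.rpow_add hT0]
    rw [g3] at t3
    rw [g2]
    calc 6 * (X:ℝ) ^ 2 * H * Real.exp (-(1 / 8) * T ^ (2 - 2 * h1)) ≤
          6 * T ^ (2 + 4 * δ) * H * Real.exp (-(1 / 8) * T ^ (2 - 2 * h1)) := by gcongr
      _ = (8 * 6 * (T ^ (2 + 4 * δ) * H * Real.exp (-(1 / 8) * T ^ (2 - 2 * h1)))) / 8 := by ring
      _ ≤ R / 8 := by linarith
  have b4 : √Real.pi * H * (2 * OB X T H (T ^ δ) (T ^ δ)) ≤ 3 * (R / 8) := by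
    have g1 := OB_le (h1 := h1) hT1 hl hX1' hX hδ0 (by linarith)
    rw [← hH] at g1
    have g0 : 0 ≤ OB X T H (T ^ δ) (T ^ δ) := by unfold OB; positivity
    rw [Real.rpow_add hT0, ← hH] at t4 t5 t6
    calc √Real.pi * H * (2 * OB X T H (T ^ δ) (T ^ δ)) ≤ 2 * H * (2 * (6080 * (T ^ (4 * δ + 1 / 2 - 3 / 2 * h1) * Real.log T) +
      6880 * (T ^ (1 / 4 - h1 + 25 / 4 * δ) * Real.log T) +
        2 * (T ^ (2 + 4 * δ) * Real.exp (-(1 / 4) * T ^ (2 * δ))))) := by gcongr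
      _ = (8 * (4 * 6080) * (H * T ^ (4 * δ + 1 / 2 - 3 / 2 * h1) * Real.log T)) / 8 +
        (8 * (4 * 6880) * (H * T ^ (1 / 4 - h1 + 25 / 4 * δ) * Real.log T)) / 8 +
        (8 * (4 * 2) * (H * T ^ (2 + 4 * δ) * Real.exp (-(1 / 4) * T ^ (2 * δ)))) / 8 := by ring
      _ ≤ R / 8 + R / 8 + R / 8 := by linarith
      _ = _ := by ring
  have b5 : √Real.pi * H * (C2 * T ^ (-(1 / 4) : ℝ)) ≤ R / 8 := by
    have g4 : T ^ (h1 - 1 / 4) = H * T ^ (-(1 / 4) : ℝ) := by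
      rw [hH, ← Real.rpow_add hT0]; congr 1
    rw [g4] at t7
    calc √Real.pi * H * (C2 * T ^ (-(1 / 4) : ℝ)) ≤ 2 * H * (C2 * T ^ (-(1 / 4) : ℝ)) := by gcongr
      _ = (8 * (2 * C2) * (H * T ^ (-(1 / 4) : ℝ))) / 8 := by ring
      _ ≤ R / 8 := by linarith
  linarith

end Pool.Agent.Zk6
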