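import Pool.Agent.Zk6.Q12
import Pool.Agent.Zk6.C1

set_option autoImplicit false

/-! The twisted second moment against the short product, on short windows. -/

namespace Pool.Agent.Zk6

open Finset Filter MeasureTheory
open Pool.Agent.W184.NZ
open Pool.Agent.Y969.GP (ff)
open Pool.Agent.Y755 (GP_Bdz GP_l1z GP_logqz)
open Pool.Agent.H306R2.SM (cl)

lemma ff_cl (t : ℝ) : ff t = ‖riemannZeta (cl t)‖ ^ 2 := by
  unfold ff
  rw [cl_half, mul_comm Complex.I]

lemma zc : Continuous fun t : ℝ => ‖riemannZeta (cl t)‖ ^ 2 :=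
  (Pool.Agent.H262R4.TM.TTW.zeta_cont.norm.pow 2)

/-- the twisted average of an element of the algebra -/
lemma avg1g {H U A e N : ℝ} {S : Set ℝ} (hS : S ⊆ Set.Icc (U / 2) (3 * U / 2)) (hSm : MeasurableSet S)
    (hm : ∀ x : ℕ × ℕ, x.1 ≠ 0 → x.2 ≠ 0 → (x.1 : ℝ) ≤ N → (x.2 : ℝ) ≤ N →
      |(∫ u in S, Wg H U u * (ff u * (mh u x).re)) - √Real.pi * H * (A * w1 x - wl x)| ≤ e)
    {f : DA} (hf : Bd N f) :
    ∫ t in S, Wg H U t * (ff t * (ev t f).re) ≤
      √Real.pi * H * (A * lam w1 f - lam wl f) + e * l1 f := by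
  have h1 : ∫ t in S, Wg H U t * (ff t * (ev t f).re) =
      lam (fun x => ∫ u in S, Wg H U u * (ff u * (mh u x).re)) f := by
    simp_rw [ev_re, mul_sum]
    rw [integral_finsetSum]
    · rw [lam_apply, Finsupp.sum]
      refine sum_congr rfl fun x _ => ?_
      rw [← integral_const_mul]
      refine integral_congr_ae (Eventually.of_forall fun t => ?_)
      simp only
      ring
    · intro x hx
      have hc : Continuous fun t => Wg H U t * (ff t * (f.coeff x * (mh t x).re)) :=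
        (Wg_cont H U).mul (ff_cont.mul (continuous_const.mul
          (Complex.continuous_re.comp (mh_cont (hf x hx).1.1 (hf x hx).1.2))))
      exact (hc.integrableOn_Icc (a := U / 2) (b := 3 * U / 2)).mono_set hS
  have h2 : lam (fun x => √Real.pi * H * (A * w1 x - wl x)) f =
      √Real.pi * H * (A * lam w1 f - lam wl f) := by
    rw [lam_apply, lam_apply, lam_apply, Finsupp.sum, Finsupp.sum, Finsupp.sum, mul_sum, ← sum_sub_distrib,
      mul_sum]
    refine sum_congr rfl fun x _ => ?_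
    ring
  rw [h1, ← h2]
  have h3 := lam_sub_le (w := fun x => ∫ u in S, Wg H U u * (ff u * (mh u x).re))
    (v := fun x => √Real.pi * H * (A * w1 x - wl x)) (f := f) (e := e) fun x hx =>
    hm x (hf x hx).1.1 (hf x hx).1.2 (hf x hx).2.1 (hf x hx).2.2
  linarith [(abs_le.mp h3).2]

/-- the Gaussian window -/
theorem onl_g {h1 : ℝ} (hlo : 27 / 82 < h1) (hhi : h1 < 1 / 2) : ∃ η0 : ℝ, 0 < η0 ∧
    ∀ (c d : ℝ) (Rs : ℕ), 0 ≤ c → 0 ≤ d → Rok c Rs → ∀ η : ℝ, 0 < η → η * ((Rs:ℝ) + 1) ≤ η0 →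
    ∃ C : ℝ, 0 < C ∧ ∀ᶠ T : ℝ in atTop, ∀ U : ℝ, T / 4 ≤ U → U ≤ 4 * T → ∀ y : ℝ, 1 ≤ y →
      Real.log y ≤ η * Real.log T → ∀ (J : ℕ) (I : ℕ → Finset ℕ),
      Rg c J I (bb y) → |∑ i ∈ range J, vI (I i) - Real.log (Real.log T)| ≤ d →
      ∀ a : ℝ, |a| ≤ 1 →
      ∫ t in Set.Ioc (U / 2) (3 * U / 2), Wg (U ^ h1) U t * (‖riemannZeta (cl t)‖ ^ 2 * gp J a (RR Rs) I t) ≤
        C * (T ^ h1 * Real.log T ^ ((1 + a) ^ 2)) := by
  obtain ⟨δ, ε1, hδ, hε1, hmain⟩ := QQ.tw_asymp2 hlo hhi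
  set q : ℝ := min δ ε1 with hq
  have hq0 : 0 < q := lt_min hδ hε1
  refine ⟨q / 1000, by positivity, fun c d Rs hc hd hRs η hη hηR => ?_⟩
  have hB0 := Bc_pos c
  have hCl := Cl2_pos c
  have hRs0 : (0:ℝ) < (Rs:ℝ) + 1 := by positivity
  set C6 : ℝ := (8 + 320 * ((Rs:ℝ) + 1) * Cl2 c * η) * Real.exp (3 * d + 12 * c + 2 * Bc c) with hC6
  have hC60 : 0 < C6 := by positivity
  refine ⟨16 * (C6 + 1), by positivity, ?_⟩
  have hcomp : ∀ᶠ T : ℝ in atTop, ∀ U : ℝ, T / 4 ≤ U → ∀ x : ℕ × ℕ, x.1 ≠ 0 → x.2 ≠ 0 →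
      (x.1 : ℝ) ≤ U ^ δ → (x.2 : ℝ) ≤ U ^ δ →
      |(∫ u in Set.Ioc (U / 2) (3 * U / 2), Wg (U ^ h1) U u * (ff u * (mh u x).re)) -
        √Real.pi * U ^ h1 * ((Real.log (U / (2 * Real.pi)) + 2 * Real.eulerMascheroniConstant) * w1 x - wl x)| ≤
        U ^ (h1 - ε1) := by
    obtain ⟨T0, hT0⟩ := eventually_atTop.mp hmain
    filter_upwards [eventually_ge_atTop (4 * T0)] with T hT U hU
    exact hT0 U (by linarith)
  filter_upwards [hcomp, Real.tendsto_log_atTop.eventually_ge_atTop 20, eventually_ge_atTop 4]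
    with T hm hL10 hT4 U hU1 hU2 y hy1 hyη J I hJ hV a ha
  have hT0 : 0 < T := by linarith
  have hU0 : 0 < U := by linarith
  set L := Real.log T with hL
  have hL0 : 0 < L := by linarith
  set V := ∑ i ∈ range J, vI (I i) with hVd
  have hLL : 0 ≤ Real.log L := Real.log_nonneg (by linarith)
  obtain ⟨ha1, ha2⟩ := abs_le.mp ha
  set P := L ^ ((1 + a) ^ 2) with hP
  have hLp1 : 1 ≤ P := Real.one_le_rpow (by linarith) (by positivity)
  have hPr : ∀ i, ∀ p ∈ I i, p.Prime := fun i p hp => (hJ.pr i p hp).1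
  have hgB := GP_Bdz (Rs := Rs) hy1 hJ a
  have hlogU : Real.log U ≤ L + 2 ∧ L - 2 ≤ Real.log U := by
    constructor
    · have h2 := Real.log_le_log hU0 hU2
      rw [Real.log_mul (by norm_num) hT0.ne'] at h2
      have h3 : Real.log 4 ≤ 2 := by
        rw [show (4:ℝ) = 2 ^ 2 by norm_num, Real.log_pow]
        have := Real.log_two_lt_d9
        push_cast; linarith
      linarith
    · have h2 := Real.log_le_log (by positivity) hU1
      rw [Real.log_div hT0.ne' (by norm_num)] at h2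
      have h3 : Real.log 4 ≤ 2 := by
        rw [show (4:ℝ) = 2 ^ 2 by norm_num, Real.log_pow]
        have := Real.log_two_lt_d9
        push_cast; linarith
      linarith
  have hlogy0 : 0 ≤ Real.log y := Real.log_nonneg hy1
  have hNU : Real.exp (Real.log y * (160 * ((Rs:ℝ) + 1))) ≤ U ^ δ := by
    rw [Real.rpow_def_of_pos hU0]
    refine Real.exp_le_exp.mpr ?_
    have h2 : Real.log y * (160 * ((Rs:ℝ) + 1)) ≤ η * L * (160 * ((Rs:ℝ) + 1)) := by gcongr
    have h3 : η * L * (160 * ((Rs:ℝ) + 1)) = 160 * (η * ((Rs:ℝ) + 1)) * L := by ring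
    have h4 : 160 * (η * ((Rs:ℝ) + 1)) * L ≤ 160 * (q / 1000) * L := by gcongr
    have h5 : q ≤ δ := min_le_left _ _
    have h6 : L * (1 / 2) ≤ Real.log U := by linarith [hlogU.2]
    have h7 : 160 * (q / 1000) * L ≤ δ * (L * (1 / 2)) := by nlinarith
    have h8 : δ * (L * (1 / 2)) ≤ Real.log U * δ := by
      rw [mul_comm (Real.log U)]; exact mul_le_mul_of_nonneg_left h6 hδ.le
    linarith
  have havg := avg1g (H := U ^ h1) (U := U) (A := Real.log (U / (2 * Real.pi)) + 2 * Real.eulerMascheroniConstant)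
    (e := U ^ (h1 - ε1)) (S := Set.Ioc (U / 2) (3 * U / 2)) Set.Ioc_subset_Icc_self measurableSet_Ioc
    (fun x h1' h2' h3' h4' => hm U hU1 x h1' h2' (h3'.trans hNU) (h4'.trans hNU)) hgB
  have e1 : ∀ t, (ev t (GP J a (RR Rs) I)).re = gp J a (RR Rs) I t := by
    intro t; rw [ev_GP t J a _ hPr, Complex.ofReal_re]
  simp_rw [e1, ff_cl] at havg
  refine havg.trans ?_
  have g2 := GP_up goodW1 hJ hRs (RR_ge Rs) ha
  have g3 := GP_l1z hy1 hJ hRs.1 ha
  have g4 := GP_logqz hc hy1 hJ hRs ha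
  have g0 := GP_nonneg goodW1 hJ hRs (RR_ge Rs) ha
  have g5 : Real.exp ((2 * 1 * a + a ^ 2) * V + 12 * a ^ 2 * c + 2 * Bc c * Real.exp (-(Rs:ℝ))) ≤
      P / L * Real.exp (3 * d + 12 * c + 2 * Bc c) := by
    have e3 : P / L = Real.exp ((2 * a + a ^ 2) * Real.log L) := by
      rw [hP, Real.rpow_def_of_pos hL0]
      nth_rewrite 2 [← Real.exp_log hL0]
      rw [← Real.exp_sub]
      congr 1; ring
    rw [e3, ← Real.exp_add]
    refine Real.exp_le_exp.mpr ?_
    have x1 : Real.exp (-(Rs:ℝ)) ≤ 1 := Real.exp_le_one_iff.mpr (by simp)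
    have a2 : a ^ 2 ≤ 1 := by nlinarith
    have e4 : 12 * a ^ 2 * c ≤ 12 * 1 * c := by gcongr
    have e5 : 2 * Bc c * Real.exp (-(Rs:ℝ)) ≤ 2 * Bc c * 1 := by gcongr
    have h7 : (2 * a + a ^ 2) * (V - Real.log L) ≤ 3 * d := by
      calc (2 * a + a ^ 2) * (V - Real.log L) ≤ |(2 * a + a ^ 2) * (V - Real.log L)| := le_abs_self _
        _ = |2 * a + a ^ 2| * |V - Real.log L| := abs_mul _ _
        _ ≤ 3 * d := by
          refine mul_le_mul ?_ hV (abs_nonneg _) (by norm_num)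
          rw [abs_le]
          constructor <;> nlinarith
    rw [show (2 * 1 * a + a ^ 2) = (2 * a + a ^ 2) by ring]
    linarith
  set W1 := lam w1 (GP J a (RR Rs) I) with hW1
  have hW1le : W1 ≤ P / L * Real.exp (3 * d + 12 * c + 2 * Bc c) := g2.trans g5
  set A : ℝ := Real.log (U / (2 * Real.pi)) + 2 * Real.eulerMascheroniConstant with hA
  have hpi := Real.pi_pos
  have hAle : A ≤ 8 * L - 0 := by
    have h2 : Real.log (U / (2 * Real.pi)) ≤ Real.log U := by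
      refine Real.log_le_log (by positivity) (div_le_self hU0.le ?_)
      have := Real.pi_gt_three
      linarith
    have h3 := Real.eulerMascheroniConstant_lt_two_thirds
    linarith [hlogU.1]
  have hy2 : 320 * ((Rs:ℝ) + 1) * Cl2 c * Real.log y ≤ 320 * ((Rs:ℝ) + 1) * Cl2 c * η * L := by
    have : 320 * ((Rs:ℝ) + 1) * Cl2 c * Real.log y ≤ 320 * ((Rs:ℝ) + 1) * Cl2 c * (η * L) :=
      mul_le_mul_of_nonneg_left hyη (by positivity)
    linarith
  have hin : A * W1 - lam wl (GP J a (RR Rs) I) ≤ C6 * P := by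
    have h2 : - lam wl (GP J a (RR Rs) I) ≤ (320 * ((Rs:ℝ) + 1) * Cl2 c * Real.log y) * W1 :=
      (neg_le_abs _).trans g4
    have h3 : A * W1 ≤ 8 * L * W1 := mul_le_mul_of_nonneg_right (by linarith) g0
    have h4 : (320 * ((Rs:ℝ) + 1) * Cl2 c * Real.log y) * W1 ≤ (320 * ((Rs:ℝ) + 1) * Cl2 c * η * L) * W1 :=
      mul_le_mul_of_nonneg_right hy2 g0
    have h5 : ((8 + 320 * ((Rs:ℝ) + 1) * Cl2 c * η) * L) * W1 ≤
        ((8 + 320 * ((Rs:ℝ) + 1) * Cl2 c * η) * L) * (P / L * Real.exp (3 * d + 12 * c + 2 * Bc c)) :=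
      mul_le_mul_of_nonneg_left hW1le (by positivity)
    have h6 : ((8 + 320 * ((Rs:ℝ) + 1) * Cl2 c * η) * L) * (P / L * Real.exp (3 * d + 12 * c + 2 * Bc c)) =
        C6 * P := by rw [hC6]; field_simp
    linarith
  have hU4 : U ^ h1 ≤ 4 * T ^ h1 := by
    calc U ^ h1 ≤ (4 * T) ^ h1 := Real.rpow_le_rpow hU0.le hU2 (by linarith)
      _ = 4 ^ h1 * T ^ h1 := Real.mul_rpow (by norm_num) hT0.le
      _ ≤ 4 ^ (1:ℝ) * T ^ h1 := by
          gcongr
          · norm_num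
          · linarith
      _ = 4 * T ^ h1 := by rw [Real.rpow_one]
  have hsp : √Real.pi ≤ 2 := by
    rw [show (2:ℝ) = √(2 ^ 2) by rw [Real.sqrt_sq (by norm_num)]]
    exact Real.sqrt_le_sqrt (by have := Real.pi_lt_four; linarith)
  have ht1 : √Real.pi * U ^ h1 * (A * W1 - lam wl (GP J a (RR Rs) I)) ≤ 8 * T ^ h1 * (C6 * P) := by
    calc √Real.pi * U ^ h1 * (A * W1 - lam wl (GP J a (RR Rs) I)) ≤ √Real.pi * U ^ h1 * (C6 * P) :=
          mul_le_mul_of_nonneg_left hin (by positivity)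
      _ ≤ 2 * (4 * T ^ h1) * (C6 * P) := by gcongr
      _ = _ := by ring
  have ht2 : U ^ (h1 - ε1) * l1 (GP J a (RR Rs) I) ≤ 4 * T ^ h1 := by
    have h2 : U ^ (h1 - ε1) * l1 (GP J a (RR Rs) I) ≤
        U ^ (h1 - ε1) * Real.exp (Real.log y * (240 * ((Rs:ℝ) + 1))) := by gcongr
    refine h2.trans (le_trans ?_ hU4)
    rw [Real.rpow_def_of_pos hU0, Real.rpow_def_of_pos hU0, ← Real.exp_add]
    refine Real.exp_le_exp.mpr ?_
    have h3 : Real.log y * (240 * ((Rs:ℝ) + 1)) ≤ η * L * (240 * ((Rs:ℝ) + 1)) := by gcongr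
    have h4 : η * L * (240 * ((Rs:ℝ) + 1)) = 240 * (η * ((Rs:ℝ) + 1)) * L := by ring
    have h5 : 240 * (η * ((Rs:ℝ) + 1)) * L ≤ 240 * (q / 1000) * L := by gcongr
    have h6 : q ≤ ε1 := min_le_right _ _
    have h7 : L * (1 / 2) ≤ Real.log U := by linarith [hlogU.2]
    have h8 : 240 * (q / 1000) * L ≤ ε1 * (L * (1 / 2)) := by nlinarith
    have h9 : ε1 * (L * (1 / 2)) ≤ Real.log U * ε1 := by
      rw [mul_comm (Real.log U)]; exact mul_le_mul_of_nonneg_left h7 hε1.le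
    have h10 : Real.log U * (h1 - ε1) = Real.log U * h1 - Real.log U * ε1 := by ring
    linarith
  have hTh : 0 < T ^ h1 := by positivity
  calc √Real.pi * U ^ h1 * (A * W1 - lam wl (GP J a (RR Rs) I)) + U ^ (h1 - ε1) * l1 (GP J a (RR Rs) I) ≤
      8 * T ^ h1 * (C6 * P) + 4 * T ^ h1 := add_le_add ht1 ht2
    _ ≤ 16 * (C6 + 1) * (T ^ h1 * P) := by
        have : T ^ h1 * 1 ≤ T ^ h1 * P := mul_le_mul_of_nonneg_left hLp1 hTh.le
        nlinarith [mul_pos hC60 hTh, mul_pos hTh (lt_of_lt_of_le one_pos hLp1),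
          mul_pos hC60 (mul_pos hTh (lt_of_lt_of_le one_pos hLp1))]

/-- covering by windows -/
lemma cover {f : ℝ → ℝ} (hf : Continuous f) (hf0 : ∀ t, 0 ≤ f t) {h1 T S : ℝ} (hT : 16 ≤ T) (h10 : 0 < h1)
    (h11 : h1 ≤ 1 / 2) (hS : ∀ U : ℝ, T / 4 ≤ U → U ≤ 4 * T →
      ∫ t in Set.Ioc (U / 2) (3 * U / 2), Wg (U ^ h1) U t * f t ≤ S)
    {V H : ℝ} (hV1 : T / 4 ≤ V) (hV2 : V + 2 * H ≤ 4 * T) (hH1 : T ^ h1 ≤ H) :
    ∫ t in V..(V + H), f t ≤ 16 * S * (H / T ^ h1) := by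
  have hT0 : 0 < T := by linarith
  have hT1 : (1:ℝ) ≤ T := by linarith
  set K : ℝ := T ^ h1 / 2 with hK
  have hTh : 0 < T ^ h1 := by positivity
  have hK0 : 0 < K := by positivity
  have hH0 : 0 < H := by linarith
  have hK1 : K ≤ T / 8 := by
    have h2 : T ^ h1 ≤ T ^ (1 / 2 : ℝ) := Real.rpow_le_rpow_of_exponent_le hT1 h11
    have h3 : T ^ (1 / 2 : ℝ) = √T := (Real.sqrt_eq_rpow T).symm
    have h4 : √T * √T = T := Real.mul_self_sqrt hT0.le
    have h5 : 4 ≤ √T := by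
      rw [show (4:ℝ) = √(4 ^ 2) by rw [Real.sqrt_sq (by norm_num)]]
      exact Real.sqrt_le_sqrt (by linarith)
    have h6 : √T ≤ T / 4 := by nlinarith
    have h7 : T ^ h1 ≤ T / 4 := by rw [h3] at h2; linarith
    rw [hK]; linarith
  have hone : ∀ U : ℝ, T / 4 ≤ U → U ≤ 4 * T → ∫ t in U..(U + K), f t ≤ 3 * S := by
    intro U hU1 hU2
    have hU0 : 0 < U := by linarith
    have hKU : K ≤ U ^ h1 := by
      have h2 : (T / 4) ^ h1 ≤ U ^ h1 := Real.rpow_le_rpow (by linarith) hU1 h10.le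
      refine le_trans ?_ h2
      rw [Real.div_rpow hT0.le (by norm_num), hK]
      have h3 : (4:ℝ) ^ h1 ≤ 2 := by
        calc (4:ℝ) ^ h1 ≤ 4 ^ (1 / 2 : ℝ) := Real.rpow_le_rpow_of_exponent_le (by norm_num) h11
          _ = 2 := by
            rw [← Real.sqrt_eq_rpow, show (4:ℝ) = 2 ^ 2 by norm_num, Real.sqrt_sq (by norm_num)]
      exact div_le_div_of_nonneg_left hTh.le (by positivity) h3
    have hUh : 0 < U ^ h1 := by positivity
    have hI : IntegrableOn (fun t => Wg (U ^ h1) U t * f t) (Set.Ioc (U / 2) (3 * U / 2)) :=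
      (((Wg_cont _ _).mul hf).integrableOn_Icc (a := U / 2) (b := 3 * U / 2)).mono_set Set.Ioc_subset_Icc_self
    have h2 : ∫ t in U..(U + K), f t ≤ ∫ t in Set.Ioc U (U + K), 3 * (Wg (U ^ h1) U t * f t) := by
      rw [intervalIntegral.integral_of_le (by linarith)]
      refine setIntegral_mono_on ((hf.integrableOn_Icc (a := U) (b := U + K)).mono_set Set.Ioc_subset_Icc_self)
        (((((Wg_cont _ _).mul hf).const_mul 3).integrableOn_Icc (a := U) (b := U + K)).mono_set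
          Set.Ioc_subset_Icc_self) measurableSet_Ioc fun t ht => ?_
      have h3 : 1 / 3 ≤ Wg (U ^ h1) U t := by
        unfold Wg
        have h4 : ((t - U) / U ^ h1) ^ 2 ≤ 1 := by
          have h5 : 0 ≤ (t - U) / U ^ h1 := div_nonneg (by linarith [ht.1]) hUh.le
          have h6 : (t - U) / U ^ h1 ≤ 1 := by
            rw [div_le_one hUh]; linarith [ht.2]
          exact pow_le_one₀ h5 h6
        have h7 : Real.exp (-1) ≤ Real.exp (-((t - U) / U ^ h1) ^ 2) := by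
          refine Real.exp_le_exp.mpr ?_
          linarith
        refine le_trans ?_ h7
        rw [Real.exp_neg, one_div]
        refine inv_anti₀ (Real.exp_pos _) ?_
        have := Real.exp_one_lt_d9
        linarith
      have := hf0 t
      nlinarith
    refine h2.trans ?_
    rw [integral_const_mul]
    refine mul_le_mul_of_nonneg_left (le_trans ?_ (hS U hU1 hU2)) (by norm_num)
    refine setIntegral_mono_set hI (Eventually.of_forall fun t => mul_nonneg (Wg_pos _ _ _).le (hf0 t)) ?_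
    refine (Set.Ioc_subset_Ioc (by linarith) ?_).eventuallyLE
    linarith
  have hS0 : 0 ≤ S := by
    refine le_trans ?_ (hS T (by linarith) (by linarith))
    exact integral_nonneg fun t => mul_nonneg (Wg_pos _ _ _).le (hf0 t)
  have hint : ∀ a b : ℝ, IntervalIntegrable f volume a b := fun a b => hf.intervalIntegrable a b
  have hsum : ∀ n : ℕ, V + n * K ≤ 4 * T → ∫ t in V..(V + n * K), f t ≤ n * (3 * S) := by
    intro n
    induction n with
    | zero => intro _; simp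
    | succ n ih =>
      intro h
      push_cast at h ⊢
      have hn0 : (0:ℝ) ≤ n * K := by positivity
      have h2 := ih (by linarith)
      have h3 := hone (V + n * K) (by linarith) (by linarith)
      rw [show V + (↑n + 1) * K = V + n * K + K by ring,
        ← intervalIntegral.integral_add_adjacent_intervals (hint V (V + n * K)) (hint _ _)]
      linarith
  set n : ℕ := ⌈H / K⌉₊ with hn
  have hn1 : H / K ≤ n := Nat.le_ceil _
  have hn2 : (n:ℝ) < H / K + 1 := Nat.ceil_lt_add_one (by positivity)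
  have hHK : 2 ≤ H / K := by
    rw [le_div_iff₀ hK0, hK]; linarith
  have hnK : H ≤ n * K := by
    rw [div_le_iff₀ hK0] at hn1; exact hn1
  have hnK2 : n * K ≤ 2 * H := by
    have h2 : (n:ℝ) * K ≤ (H / K + 1) * K := by gcongr
    have h3 : (H / K + 1) * K = H + K := by field_simp
    have h4 : K ≤ H := by rw [hK]; linarith
    linarith
  have h5 := hsum n (by linarith)
  have h6 : ∫ t in V..(V + H), f t ≤ ∫ t in V..(V + n * K), f t := by
    refine intervalIntegral.integral_mono_interval le_rfl (by linarith) (by linarith)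
      (Eventually.of_forall fun t => hf0 t) (hint _ _)
  refine h6.trans (h5.trans ?_)
  have h7 : (n:ℝ) ≤ 3 / 2 * (H / K) := by linarith
  have h8 : H / K = 2 * (H / T ^ h1) := by rw [hK]; field_simp
  rw [h8] at h7
  have h9 : 0 ≤ H / T ^ h1 := by positivity
  calc (n:ℝ) * (3 * S) ≤ (3 / 2 * (2 * (H / T ^ h1))) * (3 * S) := by gcongr
    _ = 9 * S * (H / T ^ h1) := by ring
    _ ≤ _ := by
      have : 0 ≤ S * (H / T ^ h1) := by positivity
      nlinarith

/-- the twisted second moment on every interval of length at least `T ^ h1` -/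
theorem onl_s {h1 : ℝ} (hlo : 27 / 82 < h1) (hhi : h1 < 1 / 2) : ∃ η0 : ℝ, 0 < η0 ∧
    ∀ (c d : ℝ) (Rs : ℕ), 0 ≤ c → 0 ≤ d → Rok c Rs → ∀ η : ℝ, 0 < η → η * ((Rs:ℝ) + 1) ≤ η0 →
    ∃ C : ℝ, 0 < C ∧ ∀ᶠ T : ℝ in atTop, ∀ y : ℝ, 1 ≤ y →
      Real.log y ≤ η * Real.log T → ∀ (J : ℕ) (I : ℕ → Finset ℕ),
      Rg c J I (bb y) → |∑ i ∈ range J, vI (I i) - Real.log (Real.log T)| ≤ d →
      ∀ a : ℝ, |a| ≤ 1 → ∀ V H : ℝ, T / 4 ≤ V → V + 2 * H ≤ 4 * T → T ^ h1 ≤ H →
      ∫ t in V..(V + H), ‖riemannZeta (cl t)‖ ^ 2 * gp J a (RR Rs) I t ≤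
        C * (H * Real.log T ^ ((1 + a) ^ 2)) := by
  obtain ⟨η0, hη0, h⟩ := onl_g hlo hhi
  refine ⟨η0, hη0, fun c d Rs hc hd hRs η hη hηR => ?_⟩
  obtain ⟨C, hC, h⟩ := h c d Rs hc hd hRs η hη hηR
  refine ⟨16 * C, by positivity, ?_⟩
  filter_upwards [h, eventually_ge_atTop 16] with T hT hT16 y hy1 hy2 J I hJ hV a ha V H hV1 hV2 hH
  have hT0 : 0 < T := by linarith
  have hPr : ∀ i, ∀ p ∈ I i, p.Prime := fun i p hp => (hJ.pr i p hp).1
  have hgc : Continuous fun t => gp J a (RR Rs) I t := by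
    have := ev_re_cont (GP_Bdz (Rs := Rs) hy1 hJ a)
    refine this.congr fun t => ?_
    rw [ev_GP t J _ _ hPr, Complex.ofReal_re]
  have h2 := cover (f := fun t => ‖riemannZeta (cl t)‖ ^ 2 * gp J a (RR Rs) I t) (zc.mul hgc)
    (fun t => mul_nonneg (by positivity) (gp_nonneg _ _ _ _ _)) hT16 (by linarith) hhi.le
    (fun U hU1 hU2 => hT U hU1 hU2 y hy1 hy2 J I hJ hV a ha) hV1 hV2 hH
  refine h2.trans (le_of_eq ?_)
  have : 0 < T ^ h1 := by positivity
  field_simp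

end Pool.Agent.Zk6
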