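import Pool.Agent.Zk6.K5
import Pool.Agent.H469R2.NK.Vdc

set_option autoImplicit false

/-! The derivative test of order five of van der Corput, discrete form. -/

namespace Pool.Agent.Zk6.QQ

open Finset
open Pool.Agent.H469R2.NK (e norm_e)

/-- iterated differences -/
noncomputable def df : ℕ → (ℕ → ℝ) → ℕ → ℝ
  | 0, x, n => x n
  | j + 1, x, n => df j x (n + 1) - df j x n

lemma df_zero (x : ℕ → ℝ) (n : ℕ) : df 0 x n = x n := rfl
lemma df_succ (j : ℕ) (x : ℕ → ℝ) (n : ℕ) : df (j + 1) x n = df j x (n + 1) - df j x n := rfl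

lemma df_shift (j : ℕ) : ∀ (x : ℕ → ℝ) (q n : ℕ), df j (fun m => x (m + q) - x m) n = df j x (n + q) - df j x n := by
  induction j with
  | zero => intro x q n; rfl
  | succ j ih =>
    intro x q n
    rw [df_succ, ih, ih, df_succ, df_succ, show n + 1 + q = n + q + 1 by ring]
    ring

lemma df_tele (j : ℕ) (x : ℕ → ℝ) (n q : ℕ) : df j x (n + q) - df j x n = ∑ i ∈ range q, df (j + 1) x (n + i) := by
  induction q with
  | zero => simp
  | succ q ih =>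
    rw [sum_range_succ, ← ih, df_succ, show n + (q + 1) = n + q + 1 by ring]
    ring

/-- the bounds of the differences of order `j` -/
def DB (j : ℕ) (x : ℕ → ℝ) (L : ℕ) (a b : ℝ) : Prop := ∀ n, n + j ≤ L → a ≤ df j x n ∧ df j x n ≤ b

lemma DB_shift {j : ℕ} {x : ℕ → ℝ} {L q : ℕ} {a b : ℝ} (h : DB (j + 1) x L a b) (hq : q ≤ L) :
    DB j (fun m => x (m + q) - x m) (L - q) (q * a) (q * b) := by
  intro n hn
  rw [df_shift, df_tele]
  have h1 : ∀ i ∈ range q, a ≤ df (j + 1) x (n + i) ∧ df (j + 1) x (n + i) ≤ b := by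
    intro i hi
    rw [mem_range] at hi
    exact h (n + i) (by omega)
  constructor
  · calc (q:ℝ) * a = ∑ i ∈ range q, a := by rw [sum_const, card_range, nsmul_eq_mul]
      _ ≤ _ := sum_le_sum fun i hi => (h1 i hi).1
  · calc _ ≤ ∑ i ∈ range q, b := sum_le_sum fun i hi => (h1 i hi).2
      _ = (q:ℝ) * b := by rw [sum_const, card_range, nsmul_eq_mul]

/-- the statement of the test of order `j` -/
def DT (j : ℕ) (ρ s t A : ℝ) : Prop := ∀ (L : ℕ) (x : ℕ → ℝ) (l : ℝ), 0 < l → DB j x L l (ρ * l) →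
  ‖∑ n ∈ range L, e (x n)‖ ≤ A * (L * l ^ s + (L:ℝ) ^ t * l ^ (-s))

lemma e_sub' (x y : ℝ) : e (x - y) = e x * (starRingEnd ℂ) (e y) := by
  rw [Pool.Agent.H469R2.NK.conj_e, ← Pool.Agent.H469R2.NK.e_add]; rfl

lemma sum_e_le (x : ℕ → ℝ) (L : ℕ) : ‖∑ n ∈ range L, e (x n)‖ ≤ L := by
  refine (norm_sum_le _ _).trans ((sum_le_sum fun n _ => (norm_e _).le).trans ?_)
  simp

lemma DT_two {ρ : ℝ} (hρ : 1 ≤ ρ) : DT 2 ρ (1 / 2) 0 (12 * ρ) := by
  intro L x l hl h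
  have h1 := sdt (L := L) (x := x) hl (La := ρ * l) (fun n hn => (h n (by omega)).1)
    (fun n hn => (h n (by omega)).2) (by nlinarith)
  refine h1.trans ?_
  have hs : 0 < √l := Real.sqrt_pos.mpr hl
  have hss : √l * √l = l := Real.mul_self_sqrt hl.le
  have e1 : l ^ (1 / 2 : ℝ) = √l := (Real.sqrt_eq_rpow l).symm
  have e2 : l ^ (-(1 / 2) : ℝ) = (√l)⁻¹ := by rw [Real.rpow_neg hl.le, e1]
  rw [e1, e2, Real.rpow_zero, one_mul, div_le_iff₀ hs]
  have e3 : 12 * ρ * (L * √l + (√l)⁻¹) * √l = 12 * ρ * (L * (√l * √l) + 1) := by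
    field_simp
  rw [e3, hss]
  have hL : (0:ℝ) ≤ L := Nat.cast_nonneg _
  nlinarith [mul_nonneg (mul_nonneg (by linarith : (0:ℝ) ≤ ρ) hl.le) hL]

/-- the step -/
lemma DT_step {j : ℕ} {ρ s t A : ℝ} (hρ : 1 ≤ ρ) (hs : 0 < s) (hs1 : s ≤ 1 / 2) (ht : 0 ≤ t) (hA : 0 ≤ A)
    (h : DT j ρ s t A) : DT (j + 1) ρ (s / (2 * (1 + s))) ((1 + t) / 2) (√(4 + 16 * A) + 2) := by
  intro L x l hl hD
  set s' : ℝ := s / (2 * (1 + s)) with hs'
  set t' : ℝ := (1 + t) / 2 with ht'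
  have hs'0 : 0 < s' := by positivity
  have hs'1 : 2 * s' ≤ 1 / 3 := by
    rw [hs', mul_div_assoc', div_le_div_iff₀ (by positivity) (by norm_num)]
    nlinarith
  have hkey : s * (1 - 2 * s') = 2 * s' := by rw [hs']; field_simp; ring
  have hsq0 : 0 ≤ √(4 + 16 * A) := Real.sqrt_nonneg _
  rcases Nat.eq_zero_or_pos L with rfl | hL
  · simp only [range_zero, sum_empty, norm_zero]; positivity
  have hL0 : (1:ℝ) ≤ L := by exact_mod_cast hL
  have hLp : (0:ℝ) < L := by linarith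
  have ltriv := sum_e_le x L
  rcases le_or_gt 1 l with h1 | h1
  · have h2 : 1 ≤ l ^ s' := Real.one_le_rpow h1 hs'0.le
    have h3 : 0 ≤ (L:ℝ) ^ t' * l ^ (-s') := by positivity
    have h4 : (L:ℝ) ≤ L * l ^ s' := le_mul_of_one_le_right hLp.le h2
    have h5 : 0 ≤ (L:ℝ) * l ^ s' + (L:ℝ) ^ t' * l ^ (-s') := by linarith
    have h6 := mul_le_mul_of_nonneg_right (show (1:ℝ) ≤ √(4 + 16 * A) + 2 by linarith) h5
    linarith
  set W : ℝ := l ^ (-(2 * s')) with hW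
  have hW1 : 1 ≤ W := Real.one_le_rpow_of_pos_of_le_one_of_nonpos hl h1.le (by linarith)
  set H : ℕ := ⌈W⌉₊ with hH
  have hHW : W ≤ H := Nat.le_ceil _
  have hH2 : (H:ℝ) ≤ 2 * W := by
    have := (Nat.ceil_lt_add_one (show 0 ≤ W by linarith)).le
    linarith
  have hH1 : 1 ≤ H := by
    have : (0:ℝ) < H := by linarith
    exact_mod_cast this
  have hHp : (0:ℝ) < H := by linarith
  rcases lt_or_ge L H with hLH | hLH
  · -- trivial
    have hLH' : (L:ℝ) ≤ 2 * W := le_trans (by exact_mod_cast hLH.le) hH2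
    have h2 : (L:ℝ) ≤ 2 * ((L:ℝ) ^ t' * l ^ (-s')) := by
      have e1 : (L:ℝ) = (L:ℝ) ^ (1 / 2 : ℝ) * (L:ℝ) ^ (1 / 2 : ℝ) := by
        rw [← Real.rpow_add hLp]; norm_num
      have e2 : (L:ℝ) ^ (1 / 2 : ℝ) ≤ (L:ℝ) ^ t' := Real.rpow_le_rpow_of_exponent_le hL0 (by rw [ht']; linarith)
      have e3 : (L:ℝ) ^ (1 / 2 : ℝ) ≤ 2 * l ^ (-s') := by
        calc (L:ℝ) ^ (1 / 2 : ℝ) ≤ (2 * W) ^ (1 / 2 : ℝ) := Real.rpow_le_rpow hLp.le hLH' (by norm_num)
          _ = 2 ^ (1 / 2 : ℝ) * l ^ (-s') := by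
            rw [Real.mul_rpow (by norm_num) (by linarith), hW, ← Real.rpow_mul hl.le]
            congr 2; ring
          _ ≤ 2 * l ^ (-s') := by
            have : (2:ℝ) ^ (1 / 2 : ℝ) ≤ 2 := by
              calc (2:ℝ) ^ (1 / 2 : ℝ) ≤ 2 ^ (1:ℝ) := Real.rpow_le_rpow_of_exponent_le (by norm_num) (by norm_num)
                _ = 2 := Real.rpow_one 2
            gcongr
      calc (L:ℝ) = (L:ℝ) ^ (1 / 2 : ℝ) * (L:ℝ) ^ (1 / 2 : ℝ) := e1
        _ ≤ (L:ℝ) ^ t' * (2 * l ^ (-s')) := mul_le_mul e2 e3 (by positivity) (by positivity)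
        _ = _ := by ring
    have h3 : 0 ≤ (L:ℝ) * l ^ s' := by positivity
    have h4 : 0 ≤ (L:ℝ) ^ t' * l ^ (-s') := by positivity
    nlinarith
  -- main case
  have hv := Pool.Agent.H469R2.NK.vdcH (fun n => e (x n)) (fun n => (norm_e _).le) L H
  set S : ℝ := ‖∑ n ∈ range L, e (x n)‖ with hS
  have hS0 : 0 ≤ S := norm_nonneg _
  have hLH' : (H:ℝ) ≤ L := by exact_mod_cast hLH
  -- the inner sums
  have hin : ∀ q ∈ Ico 1 H, ‖∑ n ∈ range (L - q), e (x (n + q)) * (starRingEnd ℂ) (e (x n))‖ ≤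
      A * (L * ((2 * W) * l) ^ s + (L:ℝ) ^ t * l ^ (-s) * (q:ℝ) ^ (-s)) := by
    intro q hq
    rw [mem_Ico] at hq
    have hq0 : (1:ℝ) ≤ q := by exact_mod_cast hq.1
    have hqp : (0:ℝ) < q := by linarith
    have h2 := h (L - q) (fun m => x (m + q) - x m) (q * l) (by positivity)
      (by
        have := DB_shift hD (show q ≤ L by omega)
        rwa [show (q:ℝ) * (ρ * l) = ρ * (q * l) by ring] at this)
    have e0 : ∑ n ∈ range (L - q), e (x (n + q)) * (starRingEnd ℂ) (e (x n)) =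
        ∑ n ∈ range (L - q), e (x (n + q) - x n) := by
      refine sum_congr rfl fun n _ => ?_
      rw [e_sub']
    rw [e0]
    refine h2.trans (mul_le_mul_of_nonneg_left ?_ hA)
    have hLq : ((L - q : ℕ) : ℝ) ≤ L := by exact_mod_cast Nat.sub_le _ _
    have hLq0 : (0:ℝ) ≤ ((L - q : ℕ) : ℝ) := Nat.cast_nonneg _
    have hqW : (q:ℝ) ≤ 2 * W := le_trans (by exact_mod_cast hq.2.le) hH2
    refine add_le_add ?_ ?_
    · refine mul_le_mul hLq ?_ (by positivity) hLp.le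
      exact Real.rpow_le_rpow (by positivity) (by gcongr) hs.le
    · rw [Real.mul_rpow hqp.le hl.le]
      have : ((L - q : ℕ) : ℝ) ^ t ≤ (L:ℝ) ^ t := Real.rpow_le_rpow hLq0 hLq ht
      calc ((L - q : ℕ) : ℝ) ^ t * ((q:ℝ) ^ (-s) * l ^ (-s)) ≤ (L:ℝ) ^ t * ((q:ℝ) ^ (-s) * l ^ (-s)) := by
            gcongr
        _ = _ := by ring
  have hqs : ∑ q ∈ Ico 1 H, (q:ℝ) ^ (-s) ≤ 2 * (H:ℝ) ^ (1 - s) := by
    have h2 : ∀ q ∈ Ico 1 H, (q:ℝ) ^ (-s) ≤ (H:ℝ) ^ (1 / 2 - s) * (√(q:ℝ))⁻¹ := by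
      intro q hq
      rw [mem_Ico] at hq
      have hq0 : (1:ℝ) ≤ q := by exact_mod_cast hq.1
      have hqp : (0:ℝ) < q := by linarith
      have e1 : (√(q:ℝ))⁻¹ = (q:ℝ) ^ (-(1 / 2) : ℝ) := by rw [Real.rpow_neg hqp.le, Real.sqrt_eq_rpow]
      have e2 : (q:ℝ) ^ (-s) = (q:ℝ) ^ (1 / 2 - s) * (q:ℝ) ^ (-(1 / 2) : ℝ) := by
        rw [← Real.rpow_add hqp]; congr 1; ring
      rw [e1, e2]
      refine mul_le_mul_of_nonneg_right ?_ (by positivity)
      exact Real.rpow_le_rpow hqp.le (by exact_mod_cast hq.2.le) (by linarith)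
    refine (sum_le_sum h2).trans ?_
    rw [← mul_sum]
    have h3 : ∑ q ∈ Ico 1 H, (√(q:ℝ))⁻¹ ≤ 2 * √(H:ℝ) := by
      refine le_trans ?_ (sqrt_sum H)
      refine sum_le_sum_of_subset_of_nonneg (fun q hq => ?_) fun q _ _ => by positivity
      rw [mem_Ico] at hq
      rw [mem_Icc]
      omega
    calc (H:ℝ) ^ (1 / 2 - s) * ∑ q ∈ Ico 1 H, (√(q:ℝ))⁻¹ ≤ (H:ℝ) ^ (1 / 2 - s) * (2 * √(H:ℝ)) := by gcongr
      _ = 2 * (H:ℝ) ^ (1 - s) := by
        rw [Real.sqrt_eq_rpow, show (1 - s) = (1 / 2 - s) + 1 / 2 by ring, Real.rpow_add hHp]; ring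
  have hsum : ∑ q ∈ Ico 1 H, ‖∑ n ∈ range (L - q), e (x (n + q)) * (starRingEnd ℂ) (e (x n))‖ ≤
      A * (H * (L * ((2 * W) * l) ^ s) + (L:ℝ) ^ t * l ^ (-s) * (2 * (H:ℝ) ^ (1 - s))) := by
    refine (sum_le_sum hin).trans ?_
    rw [← mul_sum]
    refine mul_le_mul_of_nonneg_left ?_ hA
    rw [sum_add_distrib, sum_const, ← mul_sum, Nat.card_Ico, nsmul_eq_mul]
    refine add_le_add ?_ ?_
    · refine mul_le_mul_of_nonneg_right ?_ (by positivity)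
      exact_mod_cast Nat.sub_le _ _
    · exact mul_le_mul_of_nonneg_left hqs (by positivity)
  -- powers
  have p1 : ((2 * W) * l) ^ s ≤ 2 * l ^ (2 * s') := by
    have e1 : W * l = l ^ (1 - 2 * s') := by
      rw [hW]; nth_rewrite 2 [← Real.rpow_one l]; rw [← Real.rpow_add hl]; congr 1; ring
    rw [mul_assoc, e1, Real.mul_rpow (by norm_num) (by positivity), ← Real.rpow_mul hl.le, mul_comm (1 - 2 * s') s, hkey]
    have : (2:ℝ) ^ s ≤ 2 := by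
      calc (2:ℝ) ^ s ≤ 2 ^ (1:ℝ) := Real.rpow_le_rpow_of_exponent_le (by norm_num) (by linarith)
        _ = 2 := Real.rpow_one 2
    gcongr
  have p2 : (H:ℝ) ^ (1 - s) * l ^ (-s) ≤ H * l ^ (-(2 * s')) := by
    have e1 : (H:ℝ) ^ (1 - s) = H * (H:ℝ) ^ (-s) := by
      rw [sub_eq_add_neg, Real.rpow_add hHp, Real.rpow_one]
    have e2 : (H:ℝ) ^ (-s) ≤ W ^ (-s) := Real.rpow_le_rpow_of_nonpos (by linarith) hHW (by linarith)
    have e3 : W ^ (-s) * l ^ (-s) = l ^ (-(2 * s')) := by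
      rw [hW, ← Real.rpow_mul hl.le, ← Real.rpow_add hl]
      congr 1
      have := hkey
      linarith
    rw [e1]
    calc H * (H:ℝ) ^ (-s) * l ^ (-s) ≤ H * W ^ (-s) * l ^ (-s) := by gcongr
      _ = _ := by rw [mul_assoc, e3]
  have p3 : 1 / (H:ℝ) ≤ l ^ (2 * s') := by
    have e1 : W⁻¹ = l ^ (2 * s') := by rw [hW, Real.rpow_neg hl.le, inv_inv]
    rw [← e1, one_div]
    exact inv_anti₀ (by linarith) hHW
  -- conclusion
  have hfin : S ^ 2 ≤ (4 + 16 * A) * ((L:ℝ) ^ 2 * l ^ (2 * s') + (L:ℝ) ^ (1 + t) * l ^ (-(2 * s'))) := by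
    have h2 : (H:ℝ) * S ^ 2 ≤ (2 * L) * (L + 2 * (A * (H * (L * (2 * l ^ (2 * s'))) + (L:ℝ) ^ t * (2 * (H * l ^ (-(2 * s'))))))) := by
      refine hv.trans ?_
      have h3 : ∑ q ∈ Ico 1 H, ‖∑ n ∈ range (L - q), e (x (n + q)) * (starRingEnd ℂ) (e (x n))‖ ≤
          A * (H * (L * (2 * l ^ (2 * s'))) + (L:ℝ) ^ t * (2 * (H * l ^ (-(2 * s'))))) := by
        refine hsum.trans (mul_le_mul_of_nonneg_left ?_ hA)
        refine add_le_add ?_ ?_
        · gcongr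
        · calc (L:ℝ) ^ t * l ^ (-s) * (2 * (H:ℝ) ^ (1 - s)) = (L:ℝ) ^ t * (2 * ((H:ℝ) ^ (1 - s) * l ^ (-s))) := by ring
            _ ≤ _ := by gcongr
      have h4 : (0:ℝ) ≤ ∑ q ∈ Ico 1 H, ‖∑ n ∈ range (L - q), e (x (n + q)) * (starRingEnd ℂ) (e (x n))‖ :=
        sum_nonneg fun _ _ => norm_nonneg _
      have h5 : (L:ℝ) + H ≤ 2 * L := by linarith
      refine mul_le_mul h5 ?_ (by positivity) (by positivity)
      linarith
    have h3 : S ^ 2 ≤ (2 * L) * (L * (1 / H) + 2 * (A * ((L * (2 * l ^ (2 * s'))) + (L:ℝ) ^ t * (2 * (l ^ (-(2 * s'))))))) := by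
      have e1 : (H:ℝ) * ((2 * L) * (L * (1 / H) + 2 * (A * ((L * (2 * l ^ (2 * s'))) + (L:ℝ) ^ t * (2 * (l ^ (-(2 * s')))))))) =
          (2 * L) * (L + 2 * (A * (H * (L * (2 * l ^ (2 * s'))) + (L:ℝ) ^ t * (2 * (H * l ^ (-(2 * s'))))))) := by
        field_simp
      rw [← e1] at h2
      exact le_of_mul_le_mul_left h2 hHp
    refine h3.trans ?_
    have e2 : (L:ℝ) ^ (1 + t) = L * (L:ℝ) ^ t := by rw [Real.rpow_add hLp, Real.rpow_one]
    rw [e2]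
    have p3' : (L:ℝ) * (L * (1 / H)) ≤ L * (L * l ^ (2 * s')) := by gcongr
    have q1 : 0 ≤ (L:ℝ) * (L * l ^ (2 * s')) := by positivity
    have q2 : 0 ≤ (L:ℝ) * ((L:ℝ) ^ t * l ^ (-(2 * s'))) := by positivity
    nlinarith [mul_nonneg hA q1, mul_nonneg hA q2]
  have hR : (L:ℝ) ^ 2 * l ^ (2 * s') + (L:ℝ) ^ (1 + t) * l ^ (-(2 * s')) ≤
      (L * l ^ s' + (L:ℝ) ^ t' * l ^ (-s')) ^ 2 := by
    have e1 : l ^ (2 * s') = (l ^ s') ^ 2 := by
      rw [← Real.rpow_natCast, ← Real.rpow_mul hl.le]; congr 1; push_cast; ring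
    have e2 : l ^ (-(2 * s')) = (l ^ (-s')) ^ 2 := by
      rw [← Real.rpow_natCast, ← Real.rpow_mul hl.le]; congr 1; push_cast; ring
    have e3 : (L:ℝ) ^ (1 + t) = ((L:ℝ) ^ t') ^ 2 := by
      rw [← Real.rpow_natCast, ← Real.rpow_mul hLp.le]; congr 1; rw [ht']; push_cast; ring
    rw [e1, e2, e3]
    have q1 : 0 ≤ (L:ℝ) * l ^ s' := by positivity
    have q2 : 0 ≤ (L:ℝ) ^ t' * l ^ (-s') := by positivity
    nlinarith [mul_nonneg q1 q2]
  have q3 : 0 ≤ (L:ℝ) * l ^ s' + (L:ℝ) ^ t' * l ^ (-s') := by positivity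
  have h6 : S ≤ √(4 + 16 * A) * (L * l ^ s' + (L:ℝ) ^ t' * l ^ (-s')) := by
    refine le_of_sq_le_sq ?_ (by positivity)
    rw [mul_pow, Real.sq_sqrt (by positivity)]
    exact hfin.trans (mul_le_mul_of_nonneg_left hR (by positivity))
  nlinarith

/-- the test of order five -/
theorem dt5 {ρ : ℝ} (hρ : 1 ≤ ρ) : ∃ A : ℝ, 0 < A ∧ DT 5 ρ (1 / 30) (7 / 8) A := by
  have h2 := DT_two hρ
  have h3 := DT_step hρ (by norm_num) (by norm_num) (by norm_num) (by positivity) h2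
  have h4 := DT_step hρ (by norm_num) (by norm_num) (by norm_num) (by positivity) h3
  have h5 := DT_step hρ (by norm_num) (by norm_num) (by norm_num) (by positivity) h4
  norm_num at h5
  exact ⟨_, by positivity, h5⟩

end Pool.Agent.Zk6.QQ
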