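import Pool.Agent.Zk6.Q9

set_option autoImplicit false

/-! The explicit bound of one fibre. -/

namespace Pool.Agent.Zk6.QQ

open Finset
open Pool.Agent.Y969.GP (V V1 ht co PS S_V)
open Pool.Agent.Y545.GP (mem_PS)

lemma near_R {h k X : ℕ} (hh : 1 ≤ h) (hk : 1 ≤ k) {H Δ Y : ℝ} (hH : 0 < H) (hΔ : 0 < Δ) (hhY : (h:ℝ) ≤ Y)
    (hkY : (k:ℝ) ≤ Y) (p : ℕ × ℕ) (hp : p ∈ PS X) (h1 : p.1 * h < p.2 * k)
    (h2 : cutA H Δ h k (p.2 * k - p.1 * h) ≤ p.1 / k) : p.2 * k - p.1 * h ≤ ⌊2 * Δ * √X * Y / H⌋₊ := by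
  obtain ⟨p1, p2, p3⟩ := mem_PS.mp hp
  have hh0 : (0:ℝ) < h := by exact_mod_cast hh
  have hk0 : (0:ℝ) < k := by exact_mod_cast hk
  have hm0 : (0:ℝ) < p.1 := by exact_mod_cast p1
  have hY0 : 0 < Y := by linarith
  set r : ℕ := p.2 * k - p.1 * h with hr
  apply Nat.le_floor
  have k1 : (r:ℝ) * H / (2 * Δ * h * k) ≤ ((p.1 / k : ℕ) : ℝ) := by
    unfold cutA at h2
    exact Nat.ceil_le.mp h2
  have k2 : (k:ℝ) * ((p.1 / k : ℕ) : ℝ) ≤ p.1 := by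
    have : k * (p.1 / k) ≤ p.1 := Nat.mul_div_le _ _
    exact_mod_cast this
  have k3 : (r:ℝ) * H ≤ 2 * Δ * h * p.1 := by
    rw [div_le_iff₀ (by positivity)] at k1
    calc (r:ℝ) * H ≤ ((p.1 / k : ℕ) : ℝ) * (2 * Δ * h * k) := k1
      _ = 2 * Δ * h * (k * ((p.1 / k : ℕ) : ℝ)) := by ring
      _ ≤ _ := by gcongr
  have k4 : ((p.1:ℝ) * h) ^ 2 ≤ X * (h * k) := by
    have k5 : (p.1:ℝ) * h ≤ p.2 * k := by exact_mod_cast h1.le
    have k6 : (p.1:ℝ) * p.2 ≤ X := by exact_mod_cast p3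
    calc ((p.1:ℝ) * h) ^ 2 = (p.1 * h) * (p.1 * h) := by ring
      _ ≤ (p.1 * h) * (p.2 * k) := by gcongr
      _ = (p.1 * p.2) * (h * k) := by ring
      _ ≤ _ := by gcongr
  have k7 : (p.1:ℝ) * h ≤ √X * Y := by
    have k8 : ((p.1:ℝ) * h) ^ 2 ≤ (√X * Y) ^ 2 := by
      rw [mul_pow (√(X:ℝ)) Y, Real.sq_sqrt (Nat.cast_nonneg X)]
      refine k4.trans ?_
      gcongr
      rw [sq]
      gcongr
    exact le_of_sq_le_sq k8 (by positivity)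
  rw [le_div_iff₀ hH]
  calc (r:ℝ) * H ≤ 2 * Δ * h * p.1 := k3
    _ = 2 * Δ * (p.1 * h) := by ring
    _ ≤ 2 * Δ * (√X * Y) := by gcongr
    _ = _ := by ring

/-- the bound for a fibre -/
noncomputable def BdF (C T H Δ Y : ℝ) (X K r : ℕ) : ℝ :=
  128 * √X * Y / (r * T) + 88 * Y ^ 2 * Δ * (1 + Real.log K) / (r * H) +
    C * Real.log T * Δ ^ 2 * ((T * r / Y ^ 2) ^ (-(7 / 30) : ℝ) * (12 * T * Δ ^ 2 * Y ^ 2 / (r * H ^ 2)) ^ (3 / 5 : ℝ) +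
      (T * r / Y ^ 2) ^ (-(4 / 15) : ℝ) * (12 * T * Δ ^ 2 * Y ^ 2 / (r * H ^ 2)) ^ (31 / 40 : ℝ)) +
    2 * X * Y ^ 3 * (T + 261 + 64 * Δ ^ 2) / √K

lemma Jsel {T c ya H Δ Y r : ℝ} (hT : 0 < T) (hH : 0 < H) (hΔ : 0 < Δ) (hY : 0 < Y) (hr : 0 < r) (hc : 6 * r / Y ^ 2 ≤ c)
    (hcT : c ≤ T) (h1 : r * H ^ 2 ≤ 12 * T * Δ ^ 2 * Y ^ 2) (h2 : 3 * H / (8 * Δ) ≤ ya) (h3 : 3 ≤ ya) :
    ∃ J : ℕ, 2 * T ≤ c * 2 ^ J * ya ^ 2 ∧ (2:ℝ) ^ J ≤ 12 * T * Δ ^ 2 * Y ^ 2 / (r * H ^ 2) ∧ c * 2 ^ J ≤ T := by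
  have hc0 : 0 < c := lt_of_lt_of_le (by positivity) hc
  have hya0 : 0 < ya := by linarith
  have hex : ∃ J : ℕ, 2 * T ≤ c * 2 ^ J * ya ^ 2 := by
    obtain ⟨J, hJ⟩ := pow_unbounded_of_one_lt (2 * T / (c * ya ^ 2)) (show (1:ℝ) < 2 by norm_num)
    refine ⟨J, ?_⟩
    rw [div_lt_iff₀ (by positivity)] at hJ
    linarith
  classical
  set J := Nat.find hex with hJd
  have hJ1 : 2 * T ≤ c * 2 ^ J * ya ^ 2 := Nat.find_spec hex
  refine ⟨J, hJ1, ?_⟩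
  rcases Nat.eq_zero_or_pos J with h5 | h5
  · rw [h5, pow_zero, mul_one]
    refine ⟨?_, hcT⟩
    rw [le_div_iff₀ (by positivity), one_mul]
    exact h1
  · have h6 : ¬ 2 * T ≤ c * 2 ^ (J - 1) * ya ^ 2 := Nat.find_min hex (by omega)
    push Not at h6
    have h7 : (2:ℝ) ^ J = 2 * 2 ^ (J - 1) := by
      rw [← pow_succ', show J - 1 + 1 = J by omega]
    have h8 : c * 2 ^ J * ya ^ 2 ≤ 4 * T := by rw [h7]; linarith
    have hya4 : 9 * H ^ 2 / (64 * Δ ^ 2) ≤ ya ^ 2 := by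
      calc 9 * H ^ 2 / (64 * Δ ^ 2) = (3 * H / (8 * Δ)) ^ 2 := by field_simp; norm_num
        _ ≤ ya ^ 2 := by gcongr
    constructor
    · rw [le_div_iff₀ (by positivity)]
      have h12 : (6 * r / Y ^ 2) * 2 ^ J * (9 * H ^ 2 / (64 * Δ ^ 2)) ≤ 4 * T := by
        refine le_trans ?_ h8
        gcongr
      have h13 : (6 * r / Y ^ 2) * 2 ^ J * (9 * H ^ 2 / (64 * Δ ^ 2)) =
          (2 ^ J * (r * H ^ 2)) * 54 / (64 * (Δ ^ 2 * Y ^ 2)) := by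
        field_simp; norm_num
      rw [h13, div_le_iff₀ (by positivity)] at h12
      have h14 : 0 ≤ (2:ℝ) ^ J * (r * H ^ 2) := by positivity
      have h15 : 0 < T * (Δ ^ 2 * Y ^ 2) := by positivity
      linarith
    · have h9 : 9 ≤ ya ^ 2 := by nlinarith
      have h10 : 0 < c * 2 ^ J := by positivity
      have h11 : c * 2 ^ J * 9 ≤ c * 2 ^ J * ya ^ 2 := mul_le_mul_of_nonneg_left h9 h10.le
      linarith

lemma ya_low {h k r a0 A : ℕ} {H Δ : ℝ} (hh : 1 ≤ h) (hk : 1 ≤ k) (hr : 1 ≤ r) (hH : 0 < H) (hΔ : 0 < Δ)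
    (hq : 4 * ((h:ℝ) * k) * Δ ≤ H) (hA : A = cutA H Δ h k r) : 3 * H / (8 * Δ) ≤ yv h k r a0 (A - 1 / 2) := by
  have hh0 : (0:ℝ) < h := by exact_mod_cast hh
  have hk0 : (0:ℝ) < k := by exact_mod_cast hk
  have hr0 : (0:ℝ) < r := by exact_mod_cast hr
  have hr1 : (1:ℝ) ≤ r := by exact_mod_cast hr
  have ha00 : (0:ℝ) ≤ a0 := Nat.cast_nonneg _
  have hAlow : (r:ℝ) * H / (2 * Δ * h * k) ≤ A := by rw [hA]; unfold cutA; exact Nat.le_ceil _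
  unfold yv
  rw [div_le_div_iff₀ (by positivity) hr0]
  have h5 : (r:ℝ) * H ≤ 2 * Δ * h * k * A := by
    rw [div_le_iff₀ (by positivity)] at hAlow; linarith
  have h6 : (h:ℝ) * (k * (A - 1 / 2)) ≤ h * (a0 + k * (A - 1 / 2)) := by
    apply mul_le_mul_of_nonneg_left _ hh0.le; linarith
  have h8' : 4 * (h * k) * Δ ≤ H * r := le_trans hq (le_mul_of_one_le_right hH.le hr1)
  have h9 := mul_le_mul_of_nonneg_right h6 (show 0 ≤ 8 * Δ by positivity)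
  linarith

lemma ya_up {h k r a0 A : ℕ} {H Δ : ℝ} (hh : 1 ≤ h) (hk : 1 ≤ k) (hr : 1 ≤ r) (hH : 0 < H) (hΔ : 0 < Δ)
    (hq : 4 * ((h:ℝ) * k) * Δ ≤ H) (ha0 : a0 < k) (hA : A = cutA H Δ h k r) : yv h k r a0 (A - 1 / 2) ≤ H / Δ := by
  have hh0 : (0:ℝ) < h := by exact_mod_cast hh
  have hk0 : (0:ℝ) < k := by exact_mod_cast hk
  have hr0 : (0:ℝ) < r := by exact_mod_cast hr
  have hr1 : (1:ℝ) ≤ r := by exact_mod_cast hr
  have ha0r : (a0:ℝ) ≤ k := by exact_mod_cast ha0.le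
  have hAup : (A:ℝ) ≤ (r:ℝ) * H / (2 * Δ * h * k) + 1 := by
    rw [hA]; unfold cutA; exact (Nat.ceil_lt_add_one (by positivity)).le
  unfold yv
  rw [div_le_div_iff₀ hr0 hΔ]
  have h5 : 2 * Δ * h * k * A ≤ r * H + 2 * Δ * h * k := by
    have h6 : 2 * Δ * h * k * A ≤ 2 * Δ * h * k * ((r:ℝ) * H / (2 * Δ * h * k) + 1) := by gcongr
    have h7 : 2 * Δ * h * k * ((r:ℝ) * H / (2 * Δ * h * k) + 1) = r * H + 2 * Δ * h * k := by field_simp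
    linarith
  have h8' : 4 * (h * k) * Δ ≤ H * r := le_trans hq (le_mul_of_one_le_right hH.le hr1)
  have h9 : (h:ℝ) * a0 * Δ ≤ h * k * Δ := by gcongr
  have h10 : 0 < H * r := by positivity
  linarith

lemma GGa_le {H Δ γ ya B : ℝ} (hH : 0 < H) (hΔ : 0 < Δ) (hΔH : Δ ≤ H) (hya : 0 < ya) (h1 : ya ≤ H / Δ)
    (hexp : Real.exp (-Δ ^ 2 / 16) ≤ B) : GG H γ (Real.log ya) ≤ B := by
  refine (GG_le2 H γ _).trans (le_trans ?_ hexp)
  unfold pp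
  rw [Real.exp_le_exp]
  have h5 : ell (Real.log ya) = Real.log (1 + 1 / ya) := by
    unfold ell; rw [Real.exp_neg, Real.exp_log hya, one_div]
  have h6 : Δ / (2 * H) ≤ ell (Real.log ya) := by
    rw [h5]
    have h7 : Δ / H ≤ 1 / ya := by
      rw [div_le_div_iff₀ hH hya]
      rw [le_div_iff₀ hΔ] at h1
      linarith
    have h8' := Real.log_le_log (show 0 < 1 + Δ / H by positivity) (show 1 + Δ / H ≤ 1 + 1 / ya by linarith)
    refine le_trans ?_ h8'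
    have h3 := Real.one_sub_inv_le_log_of_pos (show 0 < 1 + Δ / H by positivity)
    refine le_trans ?_ h3
    have h9 : 1 - (1 + Δ / H)⁻¹ = Δ / (H + Δ) := by field_simp; ring
    rw [h9, div_le_div_iff₀ (by positivity) (by linarith)]
    nlinarith
  have h7 : Δ / 2 ≤ H * ell (Real.log ya) := by
    rw [div_le_iff₀ (by positivity)] at h6; linarith
  have h8' : (Δ / 2) ^ 2 ≤ (H * ell (Real.log ya)) ^ 2 := by gcongr
  have h9 := ell_nn (Real.log ya)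
  nlinarith

lemma GGb_le {h k r a0 n0 B X : ℕ} {H T B0 : ℝ} (hh : 1 ≤ h) (hk : 1 ≤ k) (hr : 1 ≤ r) (hB : 1 ≤ B) (hT : 0 < T)
    (hX : 0 < X) (hrel : n0 * k = a0 * h + r) (hB2 : X < (a0 + k * B) * (n0 + h * B)) (hV : V (X / T) ≤ B0) :
    GG H (Real.log (2 * Real.pi * r ^ 2 / (h * k * T))) (Real.log (yv h k r a0 (B - 1 / 2))) ≤ B0 := by
  have hh0 : (0:ℝ) < h := by exact_mod_cast hh
  have hk0 : (0:ℝ) < k := by exact_mod_cast hk
  have hr0 : (0:ℝ) < r := by exact_mod_cast hr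
  have hX0 : (0:ℝ) < X := by exact_mod_cast hX
  have hBr : (1:ℝ) ≤ B := by exact_mod_cast hB
  have ha00 : (0:ℝ) ≤ a0 := Nat.cast_nonneg _
  have hn0r : (0:ℝ) ≤ n0 := Nat.cast_nonneg _
  have hpi := Real.pi_pos
  have hp3 := Real.pi_gt_three
  have hrelr : (n0:ℝ) * k = a0 * h + r := by exact_mod_cast hrel
  have hB2r : (X:ℝ) < ((a0:ℝ) + k * B) * (n0 + h * B) := by
    have h5 : (X:ℝ) < ((((a0 + k * B) * (n0 + h * B) : ℕ)) : ℝ) := by exact_mod_cast hB2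
    push_cast at h5
    exact h5
  have hkB : 0 < (k:ℝ) * (B - 1 / 2) := mul_pos hk0 (by linarith)
  have hhB : 0 < (h:ℝ) * (B - 1 / 2) := mul_pos hh0 (by linarith)
  set yb : ℝ := yv h k r a0 (B - 1 / 2) with hyb
  have hyb0 : 0 < yb := by rw [hyb]; unfold yv; positivity
  refine (GG_le1 H _ _).trans (le_trans ?_ hV)
  unfold g2
  apply V_anti (by positivity)
  have h5 : Real.exp (Lc (Real.log (2 * Real.pi * r ^ 2 / (h * k * T))) (Real.log yb)) = 2 * Real.pi * r ^ 2 / (h * k * T) * (yb * (yb + 1)) := by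
    unfold Lc
    have hell : ell (Real.log yb) = Real.log (1 + yb⁻¹) := by
      unfold ell; rw [Real.exp_neg, Real.exp_log hyb0]
    rw [Real.exp_add, Real.exp_add, Real.exp_log (by positivity), hell, Real.exp_log (by positivity)]
    have : Real.exp (2 * Real.log yb) = yb ^ 2 := by
      rw [two_mul, Real.exp_add, Real.exp_log hyb0]; ring
    rw [this]
    field_simp
  rw [h5]
  have h6 : (a0:ℝ) + k * B ≤ 2 * (a0 + k * (B - 1 / 2)) := by nlinarith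
  have h7 : (n0:ℝ) + h * B ≤ 2 * (n0 + h * (B - 1 / 2)) := by nlinarith
  have h8' : (a0:ℝ) + k * (B - 1 / 2) = r * yb / h := by rw [hyb]; unfold yv; field_simp
  have h9 : (n0:ℝ) + h * (B - 1 / 2) = r * (yb + 1) / k := by
    rw [hyb]; unfold yv; field_simp; linarith
  have h10 : (X:ℝ) ≤ 4 * (r * yb / h * (r * (yb + 1) / k)) := by
    have h11 : 0 ≤ (n0:ℝ) + h * B := by positivity
    have h12 : 0 ≤ (a0:ℝ) + k * (B - 1 / 2) := by linarith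
    calc (X:ℝ) ≤ ((a0:ℝ) + k * B) * (n0 + h * B) := hB2r.le
      _ ≤ (2 * (a0 + k * (B - 1 / 2))) * (2 * (n0 + h * (B - 1 / 2))) := mul_le_mul h6 h7 h11 (by linarith)
      _ = _ := by rw [h8', h9]; ring
  rw [div_le_iff₀ hT]
  calc (X:ℝ) ≤ 4 * (r * yb / h * (r * (yb + 1) / k)) := h10
    _ = (4:ℝ) * (r ^ 2 / (h * k) * (yb * (yb + 1))) := by field_simp
    _ ≤ (2 * Real.pi) * (r ^ 2 / (h * k) * (yb * (yb + 1))) := by
      apply mul_le_mul_of_nonneg_right _ (by positivity); linarith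
    _ = _ := by field_simp

lemma yb_up {h k r a0 n0 B X : ℕ} {Y : ℝ} (hh : 1 ≤ h) (hk : 1 ≤ k) (hr : 1 ≤ r) (hB : 1 ≤ B) (hhY : (h:ℝ) ≤ Y)
    (hkY : (k:ℝ) ≤ Y) (hYX : Y ^ 2 ≤ X) (hrel : n0 * k = a0 * h + r)
    (hB1 : (a0 + k * (B - 1)) * (n0 + h * (B - 1)) ≤ X) :
    yv h k r a0 (B - 1 / 2) ≤ 2 * (√X * Y) / r ∧ (B:ℝ) ≤ 1 + X := by
  have hh0 : (0:ℝ) < h := by exact_mod_cast hh
  have hk0 : (0:ℝ) < k := by exact_mod_cast hk
  have hh1 : (1:ℝ) ≤ h := by exact_mod_cast hh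
  have hk1 : (1:ℝ) ≤ k := by exact_mod_cast hk
  have hr0 : (0:ℝ) < r := by exact_mod_cast hr
  have hBr : (1:ℝ) ≤ B := by exact_mod_cast hB
  have ha00 : (0:ℝ) ≤ a0 := Nat.cast_nonneg _
  have hn0r : (0:ℝ) ≤ n0 := Nat.cast_nonneg _
  have hX0 : (0:ℝ) ≤ X := Nat.cast_nonneg _
  have hY0 : 0 < Y := by linarith
  have hrelr : (n0:ℝ) * k = a0 * h + r := by exact_mod_cast hrel
  have hB1r : ((a0:ℝ) + k * (B - 1)) * (n0 + h * (B - 1)) ≤ X := by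
    have h5 : ((((a0 + k * (B - 1)) * (n0 + h * (B - 1)) : ℕ)) : ℝ) ≤ X := by exact_mod_cast hB1
    rw [Nat.cast_mul, Nat.cast_add, Nat.cast_add, Nat.cast_mul, Nat.cast_mul, Nat.cast_sub (by omega)] at h5
    push_cast at h5
    exact h5
  have hkB : 0 ≤ (k:ℝ) * (B - 1) := mul_nonneg hk0.le (by linarith)
  have hhB : 0 ≤ (h:ℝ) * (B - 1) := mul_nonneg hh0.le (by linarith)
  have hn01 : (1:ℝ) ≤ n0 := by
    have : 1 ≤ n0 := by
      rcases Nat.eq_zero_or_pos n0 with h1 | h1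
      · rw [h1] at hrel; omega
      · exact h1
    exact_mod_cast this
  have hm : 0 ≤ (a0:ℝ) + k * (B - 1) := by linarith
  constructor
  · unfold yv
    refine div_le_div_of_nonneg_right ?_ hr0.le
    have h5 : ((h:ℝ) * (a0 + k * (B - 1))) ^ 2 ≤ (√X * Y) ^ 2 := by
      rw [mul_pow (√(X:ℝ)) Y, Real.sq_sqrt hX0]
      have h6 : (h:ℝ) * (a0 + k * (B - 1)) ≤ k * (n0 + h * (B - 1)) := by nlinarith
      calc ((h:ℝ) * (a0 + k * (B - 1))) ^ 2 = (h * (a0 + k * (B - 1))) * (h * (a0 + k * (B - 1))) := by ring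
        _ ≤ (h * (a0 + k * (B - 1))) * (k * (n0 + h * (B - 1))) := by
          apply mul_le_mul_of_nonneg_left h6; positivity
        _ = (((a0:ℝ) + k * (B - 1)) * (n0 + h * (B - 1))) * (h * k) := by ring
        _ ≤ X * Y ^ 2 := by
          refine mul_le_mul hB1r ?_ (by positivity) hX0
          rw [sq]; gcongr
    have h8' : (h:ℝ) * (a0 + k * (B - 1)) ≤ √X * Y := le_of_sq_le_sq h5 (by positivity)
    have h9 : (h:ℝ) * k ≤ √X * Y := by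
      have h10 : Y ≤ √X := Real.le_sqrt_of_sq_le hYX
      calc (h:ℝ) * k ≤ Y * Y := by gcongr
        _ ≤ √X * Y := by gcongr
    have h11 : 0 < (h:ℝ) * k := by positivity
    have e1 : (h:ℝ) * (a0 + k * (B - 1 / 2)) = h * (a0 + k * (B - 1)) + h * k / 2 := by ring
    rw [e1]
    linarith
  · have h6 : (B:ℝ) - 1 ≤ a0 + k * (B - 1) := by nlinarith
    have h7 : 1 ≤ (n0:ℝ) + h * (B - 1) := by linarith
    nlinarith

/-- the final comparison of the bounds -/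
lemma cmp_bd {C T H Δ Y c ya yb q : ℝ} {X K r J A B : ℕ} (hC : 0 < C) (hT : 1 < T) (hΔ : 0 < Δ) (hH : 0 < H) (hY : 1 ≤ Y)
    (hr : 1 ≤ r) (hK : 1 ≤ K) (hX : (1:ℝ) ≤ X) (hq0 : 0 < q) (hq : q ≤ Y ^ 2) (hc : c = 2 * Real.pi * r / q) (hya : 3 * H / (8 * Δ) ≤ ya)
    (hyb : yb ≤ 2 * (√X * Y) / r) (hBA : (B:ℝ) - A ≤ 2 * X) (hJ1 : (2:ℝ) ^ J ≤ 12 * T * Δ ^ 2 * Y ^ 2 / (r * H ^ 2))
    (hJ2 : (J:ℝ) ≤ 2 * Real.log T) :
    2 * (32 * yb / T + 44 / (c * ya) * (1 + Real.log K) +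
        C * J * (4 * Δ) ^ 2 * ((T * c) ^ (-(7 / 30) : ℝ) * ((2:ℝ) ^ J) ^ (3 / 5 : ℝ) +
          (T * c) ^ (-(4 / 15) : ℝ) * ((2:ℝ) ^ J) ^ (31 / 40 : ℝ))) +
      ((B:ℝ) - A) * (2 * √q / r * (T + 261 + 4 * (4 * Δ) ^ 2) * (q / r) * (1 / (2 * √K))) ≤ BdF (64 * C) T H Δ Y X K r := by
  have hT0 : 0 < T := by linarith
  have hr0 : (0:ℝ) < r := by exact_mod_cast hr
  have hr1 : (1:ℝ) ≤ r := by exact_mod_cast hr
  have hK1 : (1:ℝ) ≤ K := by exact_mod_cast hK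
  have hpi := Real.pi_pos
  have hp3 := Real.pi_gt_three
  have hlT : 0 < Real.log T := Real.log_pos hT
  have hlK : 0 ≤ Real.log K := Real.log_nonneg hK1
  have hya0 : 0 < ya := lt_of_lt_of_le (by positivity) hya
  have hY0 : 0 < Y := by linarith
  have hc0 : 0 < c := by rw [hc]; positivity
  have h11 : (2 * Real.pi) * (r / Y ^ 2) ≤ c := by
    rw [hc, mul_div_assoc']
    exact div_le_div_of_nonneg_left (by positivity) hq0 hq
  have hcr : (r:ℝ) / Y ^ 2 ≤ c := by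
    refine le_trans ?_ h11
    exact le_mul_of_one_le_left (by positivity) (by linarith)
  have t1 : 2 * (32 * yb / T) ≤ 128 * √X * Y / (r * T) := by
    calc 2 * (32 * yb / T) ≤ 2 * (32 * (2 * (√X * Y) / r) / T) := by gcongr
      _ = _ := by field_simp; norm_num
  have t2 : 2 * (44 / (c * ya) * (1 + Real.log K)) ≤ 88 * Y ^ 2 * Δ * (1 + Real.log K) / (r * H) := by
    have h5 : 1 / (c * ya) ≤ Y ^ 2 * Δ / (r * H) := by
      rw [div_le_div_iff₀ (by positivity) (by positivity), one_mul]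
      calc (r:ℝ) * H ≤ (r * H) * (6 * Real.pi / 8) := by
            apply le_mul_of_one_le_right (by positivity); linarith
        _ = Y ^ 2 * Δ * (((2 * Real.pi) * (r / Y ^ 2)) * (3 * H / (8 * Δ))) := by field_simp; norm_num
        _ ≤ Y ^ 2 * Δ * (c * ya) := by gcongr
    calc 2 * (44 / (c * ya) * (1 + Real.log K)) = 88 * (1 / (c * ya)) * (1 + Real.log K) := by ring
      _ ≤ 88 * (Y ^ 2 * Δ / (r * H)) * (1 + Real.log K) := by gcongr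
      _ = _ := by ring
  have t3 : 2 * (C * J * (4 * Δ) ^ 2 * ((T * c) ^ (-(7 / 30) : ℝ) * ((2:ℝ) ^ J) ^ (3 / 5 : ℝ) +
      (T * c) ^ (-(4 / 15) : ℝ) * ((2:ℝ) ^ J) ^ (31 / 40 : ℝ))) ≤
      64 * C * Real.log T * Δ ^ 2 * ((T * r / Y ^ 2) ^ (-(7 / 30) : ℝ) * (12 * T * Δ ^ 2 * Y ^ 2 / (r * H ^ 2)) ^ (3 / 5 : ℝ) +
      (T * r / Y ^ 2) ^ (-(4 / 15) : ℝ) * (12 * T * Δ ^ 2 * Y ^ 2 / (r * H ^ 2)) ^ (31 / 40 : ℝ)) := by
    have h5 : T * r / Y ^ 2 ≤ T * c := by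
      calc T * r / Y ^ 2 = T * (r / Y ^ 2) := by ring
        _ ≤ T * c := by gcongr
    have h6 : (T * c) ^ (-(7 / 30) : ℝ) ≤ (T * r / Y ^ 2) ^ (-(7 / 30) : ℝ) :=
      Real.rpow_le_rpow_of_nonpos (by positivity) h5 (by norm_num)
    have h7 : (T * c) ^ (-(4 / 15) : ℝ) ≤ (T * r / Y ^ 2) ^ (-(4 / 15) : ℝ) :=
      Real.rpow_le_rpow_of_nonpos (by positivity) h5 (by norm_num)
    have h8' : ((2:ℝ) ^ J) ^ (3 / 5 : ℝ) ≤ (12 * T * Δ ^ 2 * Y ^ 2 / (r * H ^ 2)) ^ (3 / 5 : ℝ) :=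
      Real.rpow_le_rpow (by positivity) hJ1 (by norm_num)
    have h9 : ((2:ℝ) ^ J) ^ (31 / 40 : ℝ) ≤ (12 * T * Δ ^ 2 * Y ^ 2 / (r * H ^ 2)) ^ (31 / 40 : ℝ) :=
      Real.rpow_le_rpow (by positivity) hJ1 (by norm_num)
    calc _ ≤ 2 * (C * (2 * Real.log T) * (4 * Δ) ^ 2 * ((T * r / Y ^ 2) ^ (-(7 / 30) : ℝ) * (12 * T * Δ ^ 2 * Y ^ 2 / (r * H ^ 2)) ^ (3 / 5 : ℝ) +
      (T * r / Y ^ 2) ^ (-(4 / 15) : ℝ) * (12 * T * Δ ^ 2 * Y ^ 2 / (r * H ^ 2)) ^ (31 / 40 : ℝ))) := by gcongr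
      _ = _ := by ring
  have t4 : ((B:ℝ) - A) * (2 * √q / r * (T + 261 + 4 * (4 * Δ) ^ 2) * (q / r) * (1 / (2 * √K))) ≤
      2 * X * Y ^ 3 * (T + 261 + 64 * Δ ^ 2) / √K := by
    have h5 : √q ≤ Y := by
      rw [Real.sqrt_le_left hY0.le]; exact hq
    have h6 : 2 * √q / r ≤ 2 * Y := by
      rw [div_le_iff₀ hr0]
      nlinarith
    have h7 : q / r ≤ Y ^ 2 := by
      rw [div_le_iff₀ hr0]
      have : 0 < Y ^ 2 := by positivity
      nlinarith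
    calc _ ≤ (2 * X) * (2 * Y * (T + 261 + 4 * (4 * Δ) ^ 2) * (Y ^ 2) * (1 / (2 * √K))) := by gcongr
      _ = _ := by field_simp; ring
  unfold BdF
  rw [mul_add, mul_add]
  linarith

theorem fib_bd : ∃ C : ℝ, 0 < C ∧ ∀ (h k r a0 X K : ℕ) (T H Δ Y : ℝ), 1 ≤ h → 1 ≤ k → 1 ≤ r → (h:ℝ) ≤ Y → (k:ℝ) ≤ Y →
    2 ≤ T → 1 ≤ Δ → 8 * Δ ≤ H → 4 * Y * Y * Δ < H → T ≤ X → Y ^ 2 ≤ X → √X * H ≤ T * Δ → 14 * Δ * √X * Y ≤ T * H →
    Real.exp (-Δ ^ 2 / 16) ≤ 1 / (2 * T) → V (X / T) ≤ 1 / (2 * T) → T * Y ^ 2 ≤ K →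
    (r:ℝ) ≤ 2 * Δ * √X * Y / H →
    ‖∑ p ∈ (PS X).filter (fun p => p.2 * k = p.1 * h + r ∧ p.1 % k = a0 ∧ cutA H Δ h k r ≤ p.1 / k), FF H T h k p‖ ≤
      BdF C T H Δ Y X K r := by
  obtain ⟨C, hC, hfib⟩ := fiber
  refine ⟨64 * C, by positivity, ?_⟩
  intro h k r a0 X K T H Δ Y hh hk hr hhY hkY hT2 hΔ1 h8 h4 hTX hYX hXH h14 hexp hV hK hrR
  have hT0 : 0 < T := by linarith
  have hH0 : 0 < H := by linarith
  have hΔ0 : 0 < Δ := by linarith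
  have hh0 : (0:ℝ) < h := by exact_mod_cast hh
  have hk0 : (0:ℝ) < k := by exact_mod_cast hk
  have hr0 : (0:ℝ) < r := by exact_mod_cast hr
  have hr1 : (1:ℝ) ≤ r := by exact_mod_cast hr
  have hh1 : (1:ℝ) ≤ h := by exact_mod_cast hh
  have hk1 : (1:ℝ) ≤ k := by exact_mod_cast hk
  have hY1 : 1 ≤ Y := by linarith
  have hX1 : (1:ℝ) ≤ X := by linarith
  have hX0' : 0 < X := by exact_mod_cast (show (0:ℝ) < X by linarith)
  have hY2 : 1 ≤ Y ^ 2 := by nlinarith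
  have hK1 : (1:ℝ) ≤ K := by nlinarith
  have hK1' : 1 ≤ K := by exact_mod_cast hK1
  have hpi := Real.pi_pos
  have hp3 := Real.pi_gt_three
  have hlT : 0 < Real.log T := Real.log_pos (by linarith)
  have hlK : 0 ≤ Real.log K := Real.log_nonneg hK1
  have hq1 : 1 ≤ (h:ℝ) * k := by nlinarith
  have hqY : (h:ℝ) * k ≤ Y ^ 2 := by rw [sq]; gcongr
  have hqΔ : 4 * (h * k) * Δ ≤ H := by
    have : 4 * (h * k) * Δ ≤ 4 * Y ^ 2 * Δ := by gcongr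
    linarith
  have hBd0 : 0 ≤ BdF (64 * C) T H Δ Y X K r := by unfold BdF; positivity
  have hA1 : 1 ≤ cutA H Δ h k r := by
    unfold cutA
    exact Nat.one_le_ceil_iff.mpr (by positivity)
  rcases fib2 (X := X) (a0 := a0) hh hk hr hA1 (FF H T h k) with h0 | ⟨n0, B, hrel, ha0, hAB, hB1, hB2, hsum⟩
  · rw [h0, norm_zero]; exact hBd0
  rw [hsum]
  obtain ⟨A, hA⟩ : ∃ A, A = cutA H Δ h k r := ⟨_, rfl⟩
  rw [← hA] at hA1 hAB ⊢
  have hAB' : A ≤ B := hAB.le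
  have hB1' : 1 ≤ B := by omega
  have hABr : (A:ℝ) ≤ B := by exact_mod_cast hAB'
  have hAr : (1:ℝ) ≤ A := by exact_mod_cast hA1
  have hya1 := ya_low (a0 := a0) hh hk hr hH0 hΔ0 hqΔ hA
  have hya2 := ya_up hh hk hr hH0 hΔ0 hqΔ ha0 hA
  obtain ⟨hyb1, hBX⟩ := yb_up hh hk hr hB1' hhY hkY hYX hrel hB1
  have hyab : yv h k r a0 (A - 1 / 2) ≤ yv h k r a0 (B - 1 / 2) := by unfold yv; gcongr
  have hGb := GGb_le (H := H) hh hk hr hB1' hT0 hX0' hrel hB2 hV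
  have hya3 : 3 ≤ yv h k r a0 (A - 1 / 2) := by
    refine le_trans ?_ hya1
    rw [le_div_iff₀ (by positivity)]
    linarith
  have hya0 : 0 < yv h k r a0 (A - 1 / 2) := by linarith
  have hGa := GGa_le (γ := Real.log (2 * Real.pi * r ^ 2 / (h * k * T))) hH0 hΔ0 (by linarith) hya0 hya2 hexp
  have hG : GG H (Real.log (2 * Real.pi * r ^ 2 / (h * k * T))) (Real.log (yv h k r a0 (B - 1 / 2))) +
      GG H (Real.log (2 * Real.pi * r ^ 2 / (h * k * T))) (Real.log (yv h k r a0 (A - 1 / 2))) ≤ 1 / T := by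
    have : 1 / (2 * T) + 1 / (2 * T) = 1 / T := by field_simp; norm_num
    linarith
  have hHya : H / yv h k r a0 (A - 1 / 2) ≤ 4 * Δ := by
    rw [div_le_iff₀ hya0]
    rw [div_le_iff₀ (by positivity)] at hya1
    nlinarith
  have hc6 : 6 * r / Y ^ 2 ≤ 2 * Real.pi * r / (h * k) := by
    rw [div_le_div_iff₀ (by positivity) (by positivity)]
    calc 6 * (r:ℝ) * (h * k) ≤ 6 * r * Y ^ 2 := by gcongr
      _ ≤ 2 * Real.pi * r * Y ^ 2 := by gcongr; linarith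
  have hrH : (r:ℝ) * H ≤ 2 * Δ * √X * Y := by rwa [le_div_iff₀ hH0] at hrR
  have hcT : 2 * Real.pi * r / (h * k) ≤ T := by
    have h6 : (r:ℝ) * 7 ≤ T := by
      have : (r * 7) * H ≤ T * H := by linarith
      exact le_of_mul_le_mul_right this hH0
    have h9 : 2 * Real.pi * r ≤ T := by
      have : Real.pi < 3.15 := Real.pi_lt_d2
      nlinarith
    refine (div_le_self (by positivity) hq1).trans h9
  have hrH2 : (r:ℝ) * H ^ 2 ≤ 12 * T * Δ ^ 2 * Y ^ 2 := by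
    calc (r:ℝ) * H ^ 2 = (r * H) * H := by ring
      _ ≤ (2 * Δ * √X * Y) * H := by gcongr
      _ = 2 * Δ * Y * (√X * H) := by ring
      _ ≤ 2 * Δ * Y * (T * Δ) := by gcongr
      _ = 2 * (T * Δ ^ 2 * Y) := by ring
      _ ≤ 2 * (T * Δ ^ 2 * Y ^ 2) := by
        have : T * Δ ^ 2 * Y ≤ T * Δ ^ 2 * Y ^ 2 := by
          apply mul_le_mul_of_nonneg_left _ (by positivity)
          nlinarith
        linarith
      _ ≤ 12 * T * Δ ^ 2 * Y ^ 2 := by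
        have : 0 < T * Δ ^ 2 * Y ^ 2 := by positivity
        linarith
  obtain ⟨J, hJ1, hJ3, hJ4⟩ := Jsel hT0 hH0 hΔ0 (by linarith) hr0 hc6 hcT hrH2 hya1 hya3
  have hJK : 2 ^ J ≤ K := by
    have h5 : (2:ℝ) ^ J ≤ K := by
      refine le_trans ?_ hK
      have h8' : (1 / Y ^ 2) * 2 ^ J ≤ T := by
        refine le_trans ?_ hJ4
        refine mul_le_mul_of_nonneg_right (le_trans ?_ hc6) (by positivity)
        exact div_le_div_of_nonneg_right (by linarith) (by positivity)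
      rw [one_div, inv_mul_le_iff₀ (by positivity)] at h8'
      linarith
    exact_mod_cast h5
  have hJl : (J:ℝ) ≤ 2 * Real.log T := by
    have h5 : (2:ℝ) ^ J ≤ T := by
      refine hJ3.trans ?_
      rw [div_le_iff₀ (by positivity)]
      have h6 : 12 * Δ ^ 2 * Y ^ 2 ≤ H ^ 2 := by
        have h7 : (4 * Y * Y * Δ) ^ 2 ≤ H ^ 2 := by gcongr
        have h8' : Y ^ 2 ≤ Y ^ 2 * Y ^ 2 := le_mul_of_one_le_left (by positivity) hY2
        have h9 : Δ ^ 2 * Y ^ 2 ≤ Δ ^ 2 * (Y ^ 2 * Y ^ 2) := by gcongr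
        have h10 : (4 * Y * Y * Δ) ^ 2 = 16 * (Δ ^ 2 * (Y ^ 2 * Y ^ 2)) := by ring
        have h11 : 0 ≤ Δ ^ 2 * Y ^ 2 := by positivity
        linarith
      calc 12 * T * Δ ^ 2 * Y ^ 2 = T * (12 * Δ ^ 2 * Y ^ 2) := by ring
        _ ≤ T * H ^ 2 := by gcongr
        _ ≤ T * (r * H ^ 2) := by
          apply mul_le_mul_of_nonneg_left _ hT0.le
          exact le_mul_of_one_le_left (by positivity) hr1
    have h6 := Real.log_le_log (by positivity) h5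
    rw [Real.log_pow] at h6
    have h7 := Real.log_two_gt_d9
    have h8' : (0:ℝ) ≤ J := Nat.cast_nonneg _
    nlinarith
  have hmain := hfib h k r a0 n0 A B T H (4 * Δ) J K hh hk hr hrel hA1 hAB' (by linarith) hH0.le (by linarith)
    (by linarith) hHya hG hJ1 hJ4 hJK
  refine hmain.trans ?_
  exact cmp_bd hC (by linarith) hΔ0 hH0 hY1 hr hK1' hX1 (by positivity) hqY rfl hya1 hyb1 (by linarith) hJ3 hJl

end Pool.Agent.Zk6.QQ
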