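import Pool.Agent.Zk6.Q10
import Pool.Agent.Zk6.K7

set_option autoImplicit false

/-! The twisted second moment with a general bound for the off-diagonal sum. -/

namespace Pool.Agent.Zk6.QQ

open Finset MeasureTheory Filter
open Pool.Agent.Y969.GP (V V1 ht co PS S_V ff PX cr FR)
open Pool.Agent.Y545.GP (mem_PS mem_FR red fiber red_spec red_mul)
open Pool.Agent.W184.NZ (mh mh_re w1 wl)
open Pool.Agent.H306R2.SM (cl)

/-- the bound of the off-diagonal sums -/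
def HOB (X : ℕ) (T H Y Ob : ℝ) : Prop := ∀ h k : ℕ, 1 ≤ h → 1 ≤ k → (h:ℝ) ≤ Y → (k:ℝ) ≤ Y →
  ‖∑ p ∈ (PS X).filter (fun p => p.1 * h < p.2 * k), FF H T h k p‖ ≤ Ob

lemma off_minus2 {h k X : ℕ} (hh : 1 ≤ h) (hk : 1 ≤ k) {T H Y Ob : ℝ}
    (hhY : (h:ℝ) ≤ Y) (hkY : (k:ℝ) ≤ Y) (hob : HOB X T H Y Ob) :
    ‖∑ p ∈ (PS X).filter (fun p => p.2 * k < p.1 * h), FF H T h k p‖ ≤ Ob := by
  have h2 := hob k h hk hh hkY hhY
  refine le_trans (le_of_eq ?_) h2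
  rw [← RCLike.norm_conj (∑ p ∈ (PS X).filter (fun p => p.1 * k < p.2 * h), FF H T k h p), map_sum]
  congr 1
  refine sum_nbij' (fun p => (p.2, p.1)) (fun p => (p.2, p.1)) ?_ ?_ ?_ ?_ ?_
  · intro p hp
    rw [mem_filter, mem_PS] at hp ⊢
    exact ⟨⟨hp.1.2.1, hp.1.1, by rw [mul_comm]; exact hp.1.2.2⟩, hp.2⟩
  · intro p hp
    rw [mem_filter, mem_PS] at hp ⊢
    exact ⟨⟨hp.1.2.1, hp.1.1, by rw [mul_comm]; exact hp.1.2.2⟩, hp.2⟩
  · intro p _; rfl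
  · intro p _; rfl
  · intro p _
    exact FF_symm H T h k p


/-- the full sum -/
lemma full_sum2 {h k X : ℕ} (hh : 1 ≤ h) (hk : 1 ≤ k) (hX : h * k ≤ X) {T H Y Ob : ℝ}
    (hhY : (h:ℝ) ≤ Y) (hkY : (k:ℝ) ≤ Y) (hob : HOB X T H Y Ob) :
    ‖∑ p ∈ PS X, FF H T h k p - ((cr X (k / Nat.gcd h k, h / Nat.gcd h k) T : ℝ) : ℂ)‖ ≤
      2 * Ob := by
  have e1 : ∑ p ∈ PS X, FF H T h k p =
      ∑ p ∈ (PS X).filter (fun p => p.1 * h < p.2 * k), FF H T h k p +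
      (∑ p ∈ (PS X).filter (fun p => p.2 * k < p.1 * h), FF H T h k p +
        ∑ p ∈ (PS X).filter (fun p => p.1 * h = p.2 * k), FF H T h k p) := by
    rw [← sum_filter_add_sum_filter_not (PS X) (fun p => p.1 * h < p.2 * k)]
    congr 1
    rw [← sum_filter_add_sum_filter_not ((PS X).filter (fun p => ¬ p.1 * h < p.2 * k))
      (fun p => p.2 * k < p.1 * h), filter_filter, filter_filter]
    congr 1
    · refine sum_congr (filter_congr fun p _ => ?_) fun _ _ => rfl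
      constructor
      · rintro ⟨_, b⟩; exact b
      · intro b; exact ⟨by omega, b⟩
    · refine sum_congr (filter_congr fun p _ => ?_) fun _ _ => rfl
      constructor
      · rintro ⟨a, b⟩; omega
      · intro b; exact ⟨by omega, by omega⟩
  rw [e1, diag hh hk hX]
  have a1 := hob h k hh hk hhY hkY
  have a2 := off_minus2 (X := X) hh hk hhY hkY hob
  have e2 : ∀ a b c : ℂ, a + (b + c) - c = a + b := by intro a b c; ring
  rw [e2]
  refine (norm_add_le _ _).trans ?_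
  linarith


/-- the explicit twisted moment -/
theorem tw_full2 {ε C0 : ℝ} (hε : 0 < ε) (hε1 : ε ≤ 1 / 2) (hC0 : 0 < C0)
    (hA : ∀ (u : ℝ) (X : ℕ), 1 ≤ u → u ^ (1 + ε) ≤ X → ‖(ff u : ℂ) - PX X u‖ ≤ C0 * u ^ (-(1 / 2) + ε))
    {C1 : ℝ} (hC1 : 0 < C1)
    (hV : ∀ x y : ℝ, 0 < x → 0 < y → |V x - V y| ≤ C1 * |Real.log x - Real.log y|)
    {C2 : ℝ} (hC2 : 0 < C2)
    (hCR : ∀ (X : ℕ) (p : ℕ × ℕ) (u : ℝ), 1 ≤ p.1 → 1 ≤ p.2 → 1 ≤ u → u ^ (1 + ε) ≤ (X : ℝ) →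
      ht p ≤ u ^ (1 / 2 : ℝ) → |√(ht p) * cr X p u -
      (Real.log (u / (2 * Real.pi * ht p)) + 2 * Real.eulerMascheroniConstant)| ≤ C2 * u ^ (-(1 / 4) : ℝ))
    {T H Y Ob : ℝ} (hT : 2 ≤ T) (hH : 0 < H) {X : ℕ} (hX : (2 * T) ^ (1 + ε) ≤ X) {x : ℕ × ℕ}
    (hx1 : x.1 ≠ 0) (hx2 : x.2 ≠ 0) (hx1Y : (x.1:ℝ) ≤ Y) (hx2Y : (x.2:ℝ) ≤ Y) (hob : HOB X T H Y Ob)
    (hYT : Y * Y ≤ T ^ (1 / 2 : ℝ)) :
    |(∫ u in Set.Ioc (T / 2) (3 * T / 2), Wg H T u * (ff u * (mh u x).re)) -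
      √Real.pi * H * ((Real.log (T / (2 * Real.pi)) + 2 * Real.eulerMascheroniConstant) * w1 x - wl x)| ≤
      √Real.pi * H * (C0 * (T / 2) ^ (-(1 / 2) + ε)) + 24 * C1 * √(X:ℝ) * (1 + Real.log X) * H ^ 2 / T +
        6 * (X:ℝ) ^ 2 * H * Real.exp (-(T ^ 2 / (8 * H ^ 2))) + √Real.pi * H * (2 * Ob) +
        √Real.pi * H * (C2 * T ^ (-(1 / 4) : ℝ)) := by
  obtain ⟨h, k⟩ := x
  simp only at hx1 hx2 hx1Y hx2Y
  have hh : 1 ≤ h := Nat.one_le_iff_ne_zero.mpr hx1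
  have hk : 1 ≤ k := Nat.one_le_iff_ne_zero.mpr hx2
  have hh0 : (0:ℝ) < h := by exact_mod_cast hh
  have hk0 : (0:ℝ) < k := by exact_mod_cast hk
  have hh1 : (1:ℝ) ≤ h := by exact_mod_cast hh
  have hk1 : (1:ℝ) ≤ k := by exact_mod_cast hk
  have hT0 : 0 < T := by linarith
  have hT1 : 1 ≤ T := by linarith
  have hpi := Real.pi_pos
  have hhk : (h:ℝ) * k ≤ T ^ (1 / 2 : ℝ) := by
    refine le_trans ?_ hYT
    exact mul_le_mul hx1Y hx2Y hk0.le (by linarith)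
  have hTX : T ^ (1 + ε) ≤ X := by
    refine le_trans ?_ hX
    exact Real.rpow_le_rpow hT0.le (by linarith) (by linarith)
  have hhkX : h * k ≤ X := by
    have h2 : (h:ℝ) * k ≤ X := by
      refine hhk.trans (le_trans ?_ hTX)
      exact Real.rpow_le_rpow_of_exponent_le hT1 (by linarith)
    exact_mod_cast h2
  have m1 := tw_expl hε hε1 hC0 hA hC1 hV hT hH hX h k
  have m2 := full_sum2 hh hk hhkX hx1Y hx2Y hob
  set d := Nat.gcd h k with hd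
  have hd0 : 0 < d := Nat.gcd_pos_of_pos_left _ hh
  have hd0' : (0:ℝ) < d := by exact_mod_cast hd0
  have e1 : ((h / d : ℕ) : ℝ) = h / d := Nat.cast_div (Nat.gcd_dvd_left _ _) hd0'.ne'
  have e2 : ((k / d : ℕ) : ℝ) = k / d := Nat.cast_div (Nat.gcd_dvd_right _ _) hd0'.ne'
  set p : ℕ × ℕ := (k / d, h / d) with hp
  have hp1 : 1 ≤ p.1 := Nat.div_pos (Nat.gcd_le_right _ hk) hd0
  have hp2 : 1 ≤ p.2 := Nat.div_pos (Nat.gcd_le_left _ hh) hd0
  have hht : ht p = (h * k) / d ^ 2 := by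
    rw [hp]; unfold ht; simp only; rw [e1, e2]; field_simp
  have hht0 : 0 < ht p := by rw [hht]; positivity
  have hht1 : ht p ≤ T ^ (1 / 2 : ℝ) := by
    rw [hht]
    refine le_trans (div_le_self (by positivity) ?_) hhk
    have : (1:ℝ) ≤ d := by exact_mod_cast hd0
    nlinarith
  have m3 := hCR X p T hp1 hp2 hT1 hTX hht1
  set θ : ℝ := Real.log k - Real.log h with hθ
  set s : ℝ := ((h:ℝ) * k) ^ (-(1 / 2 : ℝ)) with hs
  have hs0 : 0 ≤ s := by positivity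
  have hs1 : s ≤ 1 := Real.rpow_le_one_of_one_le_of_nonpos (by nlinarith) (by norm_num)
  have hsw : s = w1 (h, k) * √(ht p) := w1_eq hh hk
  have hw0 : 0 ≤ w1 (h, k) := Pool.Agent.W184.NZ.w1_nonneg _
  have hw1 : w1 (h, k) ≤ 1 := by
    have h2 : 1 ≤ √(ht p) := by
      refine Real.one_le_sqrt.mpr ?_
      unfold ht
      have a1 : (1:ℝ) ≤ p.1 := by exact_mod_cast hp1
      have a2 : (1:ℝ) ≤ p.2 := by exact_mod_cast hp2
      nlinarith
    nlinarith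
  -- the integral is the real part
  have hint : (∫ u in Set.Ioc (T / 2) (3 * T / 2), Wg H T u * (ff u * (mh u (h, k)).re)) =
      s * (∫ u in Set.Ioc (T / 2) (3 * T / 2), ((Wg H T u : ℝ) : ℂ) * ((ff u : ℂ) * tw θ u)).re := by
    have hc : Continuous fun u => ((Wg H T u : ℝ) : ℂ) * ((ff u : ℂ) * tw θ u) :=
      (Complex.continuous_ofReal.comp (Wg_cont H T)).mul
        ((Complex.continuous_ofReal.comp ff_cont).mul (tw_cont θ))
    have hI : IntegrableOn (fun u => ((Wg H T u : ℝ) : ℂ) * ((ff u : ℂ) * tw θ u))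
        (Set.Ioc (T / 2) (3 * T / 2)) :=
      (hc.integrableOn_Icc (a := T / 2) (b := 3 * T / 2)).mono_set Set.Ioc_subset_Icc_self
    have h2 := integral_re (μ := volume.restrict (Set.Ioc (T / 2) (3 * T / 2))) hI
    have h3 : (∫ u in Set.Ioc (T / 2) (3 * T / 2), ((Wg H T u : ℝ) : ℂ) * ((ff u : ℂ) * tw θ u)).re =
        ∫ u in Set.Ioc (T / 2) (3 * T / 2), (((Wg H T u : ℝ) : ℂ) * ((ff u : ℂ) * tw θ u)).re := h2.symm
    rw [h3, ← integral_const_mul]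
    refine integral_congr_ae (Eventually.of_forall fun u => ?_)
    simp only
    rw [mh_re u hx1 hx2, Complex.re_ofReal_mul, Complex.re_ofReal_mul]
    have h4 : (tw θ u).re = Real.cos (u * θ) := by
      unfold tw
      rw [mul_comm, Complex.exp_ofReal_mul_I_re]
    rw [h4, ← hs, ← hθ]
    ring
  -- main term
  have hmain : s * (√Real.pi * H * cr X p T) = √Real.pi * H * (w1 (h, k) * (√(ht p) * cr X p T)) := by
    rw [hsw]; ring
  have hlog : w1 (h, k) * (Real.log (T / (2 * Real.pi * ht p)) + 2 * Real.eulerMascheroniConstant) =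
      (Real.log (T / (2 * Real.pi)) + 2 * Real.eulerMascheroniConstant) * w1 (h, k) - wl (h, k) := by
    unfold wl
    simp only
    rw [← hd, ← hht, show T / (2 * Real.pi * ht p) = T / (2 * Real.pi) / ht p by field_simp,
      Real.log_div (by positivity) hht0.ne']
    ring
  have m4 : ‖(∫ u in Set.Ioc (T / 2) (3 * T / 2), ((Wg H T u : ℝ) : ℂ) * ((ff u : ℂ) * tw θ u)) -
      ((√Real.pi * H : ℝ) : ℂ) * ((cr X p T : ℝ) : ℂ)‖ ≤
      √Real.pi * H * (C0 * (T / 2) ^ (-(1 / 2) + ε)) + 24 * C1 * √(X:ℝ) * (1 + Real.log X) * H ^ 2 / T +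
        6 * (X:ℝ) ^ 2 * H * Real.exp (-(T ^ 2 / (8 * H ^ 2))) + √Real.pi * H * (2 * Ob) := by
    have e3 : (∫ u in Set.Ioc (T / 2) (3 * T / 2), ((Wg H T u : ℝ) : ℂ) * ((ff u : ℂ) * tw θ u)) -
        ((√Real.pi * H : ℝ) : ℂ) * ((cr X p T : ℝ) : ℂ) =
        ((∫ u in Set.Ioc (T / 2) (3 * T / 2), ((Wg H T u : ℝ) : ℂ) * ((ff u : ℂ) * tw θ u)) -
          ((√Real.pi * H : ℝ) : ℂ) * ∑ p ∈ PS X, FF H T h k p) +
        ((√Real.pi * H : ℝ) : ℂ) * (∑ p ∈ PS X, FF H T h k p - ((cr X p T : ℝ) : ℂ)) := by ring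
    rw [e3]
    refine (norm_add_le _ _).trans (add_le_add m1 ?_)
    rw [norm_mul, Complex.norm_real, Real.norm_eq_abs, abs_of_nonneg (by positivity)]
    exact mul_le_mul_of_nonneg_left m2 (by positivity)
  have m5 : |(∫ u in Set.Ioc (T / 2) (3 * T / 2), ((Wg H T u : ℝ) : ℂ) * ((ff u : ℂ) * tw θ u)).re -
      √Real.pi * H * cr X p T| ≤ √Real.pi * H * (C0 * (T / 2) ^ (-(1 / 2) + ε)) +
        24 * C1 * √(X:ℝ) * (1 + Real.log X) * H ^ 2 / T +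
        6 * (X:ℝ) ^ 2 * H * Real.exp (-(T ^ 2 / (8 * H ^ 2))) + √Real.pi * H * (2 * Ob) := by
    have h2 := (Complex.abs_re_le_norm _).trans m4
    rw [Complex.sub_re, ← Complex.ofReal_mul, Complex.ofReal_re] at h2
    exact h2
  rw [hint]
  have e4 : s * (∫ u in Set.Ioc (T / 2) (3 * T / 2), ((Wg H T u : ℝ) : ℂ) * ((ff u : ℂ) * tw θ u)).re -
      √Real.pi * H * ((Real.log (T / (2 * Real.pi)) + 2 * Real.eulerMascheroniConstant) * w1 (h, k) - wl (h, k)) =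
      s * ((∫ u in Set.Ioc (T / 2) (3 * T / 2), ((Wg H T u : ℝ) : ℂ) * ((ff u : ℂ) * tw θ u)).re -
        √Real.pi * H * cr X p T) + √Real.pi * H * (w1 (h, k) * (√(ht p) * cr X p T -
        (Real.log (T / (2 * Real.pi * ht p)) + 2 * Real.eulerMascheroniConstant))) := by
    rw [mul_sub s, hmain, ← hlog]; ring
  rw [e4]
  refine (abs_add_le _ _).trans (add_le_add ?_ ?_)
  · rw [abs_mul, abs_of_nonneg hs0]
    calc s * _ ≤ 1 * _ := mul_le_mul_of_nonneg_right hs1 (abs_nonneg _)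
      _ ≤ _ := by rw [one_mul]; exact m5
  · rw [abs_mul, abs_of_nonneg (show 0 ≤ √Real.pi * H by positivity), abs_mul, abs_of_nonneg hw0]
    refine mul_le_mul_of_nonneg_left ?_ (by positivity)
    calc w1 (h, k) * _ ≤ 1 * _ := mul_le_mul_of_nonneg_right hw1 (abs_nonneg _)
      _ ≤ _ := by rw [one_mul]; exact m3


end Pool.Agent.Zk6.QQ
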