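import Pool.Agent.Zk6.Q11
import Pool.Agent.Zk6.K8

set_option autoImplicit false

/-! The off-diagonal sum on windows of length `T^h1`, `h1 > 27 / 82`. -/

namespace Pool.Agent.Zk6.QQ

open Finset MeasureTheory Filter Topology
open Pool.Agent.Y969.GP (V V1 ht co PS S_V ff PX cr FR)
open Pool.Agent.W184.NZ (mh mh_re w1 wl)
open Pool.Agent.H306R2.SM (cl)

lemma ev_pow2 (C : ℝ) {a b : ℝ} (h : a < b) : ∀ᶠ T : ℝ in atTop, C * (T ^ a * Real.log T ^ 2) ≤ T ^ b := by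
  filter_upwards [ev_pow 1 (show a < (a + b) / 2 by linarith), ev_pow |C| (show (a + b) / 2 < b by linarith),
    eventually_ge_atTop 1] with T h1 h2 hT
  have hl : 0 ≤ Real.log T := Real.log_nonneg hT
  have hT0 : 0 < T := by linarith
  calc C * (T ^ a * Real.log T ^ 2) ≤ |C| * (T ^ a * Real.log T ^ 2) :=
        mul_le_mul_of_nonneg_right (le_abs_self C) (by positivity)
    _ = |C| * ((1 * (T ^ a * Real.log T)) * Real.log T) := by ring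
    _ ≤ |C| * (T ^ ((a + b) / 2) * Real.log T) := by gcongr
    _ ≤ T ^ b := h2

lemma harm2 (N : ℕ) {T : ℝ} (hT : 1 ≤ Real.log T) (hT0 : 0 < T) (hN : (N:ℝ) ≤ T) : ∑ r ∈ Icc 1 N, ((r:ℝ))⁻¹ ≤ 2 * Real.log T := by
  refine (harm N).trans ?_
  rcases Nat.eq_zero_or_pos N with rfl | h
  · simp; linarith
  have : Real.log N ≤ Real.log T := Real.log_le_log (by exact_mod_cast h) hN
  linarith

/-- the bound of a fibre in powers of `T` -/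
lemma BdF_le {C T δ h1 : ℝ} (hC : 0 < C) (hT : 2 ≤ T) (hl : 1 ≤ Real.log T) (hδ : 0 < δ) (hδ1 : δ ≤ 1 / 10) {X r : ℕ}
    (hr : 1 ≤ r) (hX : (X:ℝ) ≤ T ^ (1 + 2 * δ)) :
    BdF C T (T ^ h1) (T ^ δ) (T ^ δ) X ⌈T ^ (20:ℝ)⌉₊ r ≤
      128 * T ^ (-(1 / 2) + 2 * δ) * ((r:ℝ))⁻¹ + 1936 * (T ^ (3 * δ - h1) * Real.log T) * ((r:ℝ))⁻¹ +
      12 * C * (T ^ (11 / 30 - 6 / 5 * h1 + 5 * δ) * Real.log T) * (r:ℝ) ^ (-(5 / 6) : ℝ) +
      12 * C * (T ^ (61 / 120 - 31 / 20 * h1 + 6 * δ) * Real.log T) * ((r:ℝ))⁻¹ + 652 * T ^ (-(6:ℝ)) := by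
  have hT0 : 0 < T := by linarith
  have hT1 : 1 ≤ T := by linarith
  have hr1 : (1:ℝ) ≤ r := by exact_mod_cast hr
  have hr0 : (0:ℝ) < r := by linarith
  set K : ℕ := ⌈T ^ (20:ℝ)⌉₊ with hK
  have hKl : T ^ (20:ℝ) ≤ K := Nat.le_ceil _
  have hT20 : 1 ≤ T ^ (20:ℝ) := Real.one_le_rpow hT1 (by norm_num)
  have hKu : (K:ℝ) ≤ T ^ (21:ℝ) := by
    have h2 := (Nat.ceil_lt_add_one (show 0 ≤ T ^ (20:ℝ) by positivity)).le
    have h3 : T ^ (21:ℝ) = T ^ (20:ℝ) * T := by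
      rw [show (21:ℝ) = 20 + 1 by norm_num, Real.rpow_add hT0, Real.rpow_one]
    rw [h3]
    nlinarith
  have hK0 : (0:ℝ) < K := by linarith
  have hlK : 1 + Real.log K ≤ 22 * Real.log T := by
    have h2 := Real.log_le_log hK0 hKu
    rw [Real.log_rpow hT0] at h2
    linarith
  have hsK : T ^ (10:ℝ) ≤ √(K:ℝ) := by
    apply Real.le_sqrt_of_sq_le
    have : (T ^ (10:ℝ)) ^ 2 = T ^ (20:ℝ) := by
      rw [← Real.rpow_natCast, ← Real.rpow_mul hT0.le]; norm_num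
    rw [this]; exact hKl
  have hsX : √(X:ℝ) ≤ T ^ (1 / 2 + δ) := by
    calc √(X:ℝ) ≤ √(T ^ (1 + 2 * δ)) := Real.sqrt_le_sqrt hX
      _ = _ := by rw [sq_rp hT0]; congr 1; ring
  unfold BdF
  rw [show 128 * T ^ (-(1 / 2) + 2 * δ) * ((r:ℝ))⁻¹ + 1936 * (T ^ (3 * δ - h1) * Real.log T) * ((r:ℝ))⁻¹ +
      12 * C * (T ^ (11 / 30 - 6 / 5 * h1 + 5 * δ) * Real.log T) * (r:ℝ) ^ (-(5 / 6) : ℝ) +
      12 * C * (T ^ (61 / 120 - 31 / 20 * h1 + 6 * δ) * Real.log T) * ((r:ℝ))⁻¹ + 652 * T ^ (-(6:ℝ)) =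
      (128 * T ^ (-(1 / 2) + 2 * δ) * ((r:ℝ))⁻¹ + 1936 * (T ^ (3 * δ - h1) * Real.log T) * ((r:ℝ))⁻¹) +
      (12 * C * (T ^ (11 / 30 - 6 / 5 * h1 + 5 * δ) * Real.log T) * (r:ℝ) ^ (-(5 / 6) : ℝ) +
      12 * C * (T ^ (61 / 120 - 31 / 20 * h1 + 6 * δ) * Real.log T) * ((r:ℝ))⁻¹) + 652 * T ^ (-(6:ℝ)) by ring]
  refine add_le_add (add_le_add ?_ ?_) ?_
  · refine add_le_add ?_ ?_
    · have e1 : 128 * T ^ (-(1 / 2) + 2 * δ) * ((r:ℝ))⁻¹ = 128 * T ^ (1 / 2 + δ) * T ^ δ / (r * T) := by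
        rw [show (-(1 / 2) + 2 * δ : ℝ) = (1 / 2 + δ) + δ - 1 by ring, Real.rpow_sub hT0, Real.rpow_add hT0, Real.rpow_one]
        field_simp
      rw [e1]
      gcongr
    · have e1 : 1936 * (T ^ (3 * δ - h1) * Real.log T) * ((r:ℝ))⁻¹ = 88 * (T ^ δ) ^ 2 * T ^ δ * (22 * Real.log T) / (r * T ^ h1) := by
        have : T ^ (3 * δ - h1) = (T ^ δ) ^ 2 * T ^ δ / T ^ h1 := by
          rw [Real.rpow_sub hT0]
          congr 1
          rw [← pow_succ, ← Real.rpow_natCast, ← Real.rpow_mul hT0.le]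
          congr 1; push_cast; ring
        rw [this]
        field_simp
        ring
      rw [e1]
      gcongr
  · have b1 : T * r / (T ^ δ) ^ 2 = T ^ (1 - 2 * δ) * r := by
      rw [Real.rpow_sub hT0, Real.rpow_one]
      have : (T ^ δ) ^ 2 = T ^ (2 * δ) := by
        rw [← Real.rpow_natCast, ← Real.rpow_mul hT0.le]; congr 1; push_cast; ring
      rw [this]; field_simp
    have b2 : 12 * T * (T ^ δ) ^ 2 * (T ^ δ) ^ 2 / (r * (T ^ h1) ^ 2) = 12 * (T ^ (1 + 4 * δ - 2 * h1) * ((r:ℝ))⁻¹) := by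
      have e1 : (T ^ δ) ^ 2 = T ^ (2 * δ) := by
        rw [← Real.rpow_natCast, ← Real.rpow_mul hT0.le]; congr 1; push_cast; ring
      have e2 : (T ^ h1) ^ 2 = T ^ (2 * h1) := by
        rw [← Real.rpow_natCast, ← Real.rpow_mul hT0.le]; congr 1; push_cast; ring
      have e3 : T ^ (1 + 4 * δ - 2 * h1) = T * T ^ (2 * δ) * T ^ (2 * δ) / T ^ (2 * h1) := by
        rw [Real.rpow_sub hT0, show (1 + 4 * δ : ℝ) = 1 + 2 * δ + 2 * δ by ring, Real.rpow_add hT0, Real.rpow_add hT0, Real.rpow_one]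
      rw [e1, e2, e3]; field_simp
    rw [b1, b2]
    have c12 : ∀ s : ℝ, 0 ≤ s → s ≤ 1 → (12:ℝ) ^ s ≤ 12 := by
      intro s h0 h1
      calc (12:ℝ) ^ s ≤ 12 ^ (1:ℝ) := Real.rpow_le_rpow_of_exponent_le (by norm_num) h1
        _ = 12 := Real.rpow_one 12
    have hrinv : ∀ s : ℝ, (((r:ℝ))⁻¹) ^ s = (r:ℝ) ^ (-s) := fun s => by rw [Real.inv_rpow hr0.le, Real.rpow_neg hr0.le]
    have d1 : (T ^ (1 - 2 * δ) * (r:ℝ)) ^ (-(7 / 30) : ℝ) * (12 * (T ^ (1 + 4 * δ - 2 * h1) * ((r:ℝ))⁻¹)) ^ (3 / 5 : ℝ) ≤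
        12 * (T ^ (11 / 30 - 6 / 5 * h1 + 3 * δ) * (r:ℝ) ^ (-(5 / 6) : ℝ)) := by
      rw [Real.mul_rpow (by positivity) hr0.le, Real.mul_rpow (by norm_num) (by positivity),
        Real.mul_rpow (by positivity) (by positivity), ← Real.rpow_mul hT0.le, ← Real.rpow_mul hT0.le, hrinv]
      have e1 : T ^ ((1 - 2 * δ) * -(7 / 30)) * (r:ℝ) ^ (-(7 / 30) : ℝ) * ((12:ℝ) ^ (3 / 5 : ℝ) * (T ^ ((1 + 4 * δ - 2 * h1) * (3 / 5)) *
          (r:ℝ) ^ (-(3 / 5) : ℝ))) = (12:ℝ) ^ (3 / 5 : ℝ) * ((T ^ ((1 - 2 * δ) * -(7 / 30)) * T ^ ((1 + 4 * δ - 2 * h1) * (3 / 5))) *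
            ((r:ℝ) ^ (-(7 / 30) : ℝ) * (r:ℝ) ^ (-(3 / 5) : ℝ))) := by ring
      rw [e1, ← Real.rpow_add hT0, ← Real.rpow_add hr0]
      have e2 : (-(7 / 30) + -(3 / 5) : ℝ) = -(5 / 6) := by norm_num
      rw [e2]
      have e3 : T ^ ((1 - 2 * δ) * -(7 / 30) + (1 + 4 * δ - 2 * h1) * (3 / 5)) ≤ T ^ (11 / 30 - 6 / 5 * h1 + 3 * δ) :=
        Real.rpow_le_rpow_of_exponent_le hT1 (by linarith)
      have e4 := c12 (3 / 5) (by norm_num) (by norm_num)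
      gcongr
    have d2 : (T ^ (1 - 2 * δ) * (r:ℝ)) ^ (-(4 / 15) : ℝ) * (12 * (T ^ (1 + 4 * δ - 2 * h1) * ((r:ℝ))⁻¹)) ^ (31 / 40 : ℝ) ≤
        12 * (T ^ (61 / 120 - 31 / 20 * h1 + 4 * δ) * ((r:ℝ))⁻¹) := by
      rw [Real.mul_rpow (by positivity) hr0.le, Real.mul_rpow (by norm_num) (by positivity),
        Real.mul_rpow (by positivity) (by positivity), ← Real.rpow_mul hT0.le, ← Real.rpow_mul hT0.le, hrinv]
      have e1 : T ^ ((1 - 2 * δ) * -(4 / 15)) * (r:ℝ) ^ (-(4 / 15) : ℝ) * ((12:ℝ) ^ (31 / 40 : ℝ) * (T ^ ((1 + 4 * δ - 2 * h1) * (31 / 40)) *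
          (r:ℝ) ^ (-(31 / 40) : ℝ))) = (12:ℝ) ^ (31 / 40 : ℝ) * ((T ^ ((1 - 2 * δ) * -(4 / 15)) * T ^ ((1 + 4 * δ - 2 * h1) * (31 / 40))) *
            ((r:ℝ) ^ (-(4 / 15) : ℝ) * (r:ℝ) ^ (-(31 / 40) : ℝ))) := by ring
      rw [e1, ← Real.rpow_add hT0, ← Real.rpow_add hr0]
      have e3 : T ^ ((1 - 2 * δ) * -(4 / 15) + (1 + 4 * δ - 2 * h1) * (31 / 40)) ≤ T ^ (61 / 120 - 31 / 20 * h1 + 4 * δ) :=
        Real.rpow_le_rpow_of_exponent_le hT1 (by linarith)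
      have e4 := c12 (31 / 40) (by norm_num) (by norm_num)
      have e5 : (r:ℝ) ^ (-(4 / 15) + -(31 / 40) : ℝ) ≤ ((r:ℝ))⁻¹ := by
        rw [← Real.rpow_neg_one]
        exact Real.rpow_le_rpow_of_exponent_le hr1 (by norm_num)
      gcongr
    have e1 : (T ^ δ) ^ 2 = T ^ (2 * δ) := by
      rw [← Real.rpow_natCast, ← Real.rpow_mul hT0.le]; congr 1; push_cast; ring
    rw [e1]
    have f1 : T ^ (11 / 30 - 6 / 5 * h1 + 5 * δ) = T ^ (2 * δ) * T ^ (11 / 30 - 6 / 5 * h1 + 3 * δ) := by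
      rw [← Real.rpow_add hT0]; congr 1; ring
    have f2 : T ^ (61 / 120 - 31 / 20 * h1 + 6 * δ) = T ^ (2 * δ) * T ^ (61 / 120 - 31 / 20 * h1 + 4 * δ) := by
      rw [← Real.rpow_add hT0]; congr 1; ring
    rw [f1, f2]
    calc C * Real.log T * T ^ (2 * δ) * ((T ^ (1 - 2 * δ) * (r:ℝ)) ^ (-(7 / 30) : ℝ) * (12 * (T ^ (1 + 4 * δ - 2 * h1) * ((r:ℝ))⁻¹)) ^ (3 / 5 : ℝ) +
        (T ^ (1 - 2 * δ) * (r:ℝ)) ^ (-(4 / 15) : ℝ) * (12 * (T ^ (1 + 4 * δ - 2 * h1) * ((r:ℝ))⁻¹)) ^ (31 / 40 : ℝ)) ≤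
        C * Real.log T * T ^ (2 * δ) * (12 * (T ^ (11 / 30 - 6 / 5 * h1 + 3 * δ) * (r:ℝ) ^ (-(5 / 6) : ℝ)) +
          12 * (T ^ (61 / 120 - 31 / 20 * h1 + 4 * δ) * ((r:ℝ))⁻¹)) :=
          mul_le_mul_of_nonneg_left (add_le_add d1 d2) (by positivity)
      _ = _ := by ring
  · have e1 : (T ^ δ) ^ 3 ≤ T := by
      rw [← Real.rpow_natCast, ← Real.rpow_mul hT0.le]
      calc T ^ (δ * (3:ℕ)) ≤ T ^ (1:ℝ) := Real.rpow_le_rpow_of_exponent_le hT1 (by push_cast; linarith)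
        _ = T := Real.rpow_one T
    have e2 : (T ^ δ) ^ 2 ≤ T := by
      rw [← Real.rpow_natCast, ← Real.rpow_mul hT0.le]
      calc T ^ (δ * (2:ℕ)) ≤ T ^ (1:ℝ) := Real.rpow_le_rpow_of_exponent_le hT1 (by push_cast; linarith)
        _ = T := Real.rpow_one T
    have e3 : (X:ℝ) ≤ T ^ (2:ℝ) := hX.trans (Real.rpow_le_rpow_of_exponent_le hT1 (by linarith))
    have e4 : T + 261 + 64 * (T ^ δ) ^ 2 ≤ 326 * T := by linarith
    have hT10 : 0 < T ^ (10:ℝ) := by positivity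
    calc 2 * (X:ℝ) * (T ^ δ) ^ 3 * (T + 261 + 64 * (T ^ δ) ^ 2) / √(K:ℝ) ≤ 2 * T ^ (2:ℝ) * T * (326 * T) / T ^ (10:ℝ) := by
          gcongr
      _ = 652 * (T ^ (4:ℝ) / T ^ (10:ℝ)) := by
        have : T ^ (4:ℝ) = T ^ (2:ℝ) * T * T := by
          rw [show (4:ℝ) = 2 + 1 + 1 by norm_num, Real.rpow_add hT0, Real.rpow_add hT0, Real.rpow_one]
        rw [this]; ring
      _ ≤ 652 * T ^ (-(6:ℝ)) := by
        rw [← Real.rpow_sub hT0]; norm_num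

/-- the off-diagonal sum -/
theorem hob_ev {h1 : ℝ} (hlo : 27 / 82 < h1) (hhi : h1 < 1 / 2) {κ δ : ℝ} (hκ : κ = min (h1 - 27 / 82) (1 / 2 - h1))
    (hδ : δ = κ / 100) : ∀ᶠ T : ℝ in atTop, ∀ X : ℕ, T ^ (1 + δ) ≤ X → (X:ℝ) ≤ T ^ (1 + 2 * δ) →
      HOB X T (T ^ h1) (T ^ δ) (T ^ (-(κ / 4)) / 16) := by
  have hκ0 : 0 < κ := by rw [hκ]; exact lt_min (by linarith) (by linarith)
  have hκ1 : κ ≤ h1 - 27 / 82 := by rw [hκ]; exact min_le_left _ _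
  have hκ2 : κ ≤ 1 / 2 - h1 := by rw [hκ]; exact min_le_right _ _
  have hκ3 : κ ≤ 1 / 10 := by linarith
  have hδ0 : 0 < δ := by rw [hδ]; positivity
  have hδ1 : δ ≤ 1 / 1000 := by rw [hδ]; linarith
  obtain ⟨C, hC, hfb⟩ := fib_bd
  obtain ⟨C2, hC2, hV⟩ := Pool.Agent.Y587.GP.t_V.2.2.2.2.2.1 (2 / δ) (by positivity)
  filter_upwards [eventually_ge_atTop 2, Real.tendsto_log_atTop.eventually_ge_atTop 1,
    ev_pow' 8 (show δ < h1 by linarith), ev_pow' 5 (show 3 * δ < h1 by linarith),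
    ev_pow' 14 (show 1 / 2 + 3 * δ < 1 + h1 by linarith),
    ev_exp 2 1 0 (show (0:ℝ) < 1 / 16 by norm_num) (show 0 < 2 * δ by linarith),
    ev_pow' (2 * C2) (show (-1:ℝ) < 0 by norm_num),
    ev_pow (6 * 16 * (128 * 2)) (show δ + (-(1 / 2) + 2 * δ) < -(κ / 4) by linarith),
    ev_pow2 (6 * 16 * (1936 * 2)) (show δ + (3 * δ - h1) < -(κ / 4) by linarith),
    ev_pow2 (6 * 16 * (12 * C * 4)) (show δ + (11 / 30 - 6 / 5 * h1 + 5 * δ) + (1 / 12 + δ / 2 - h1 / 6) < -(κ / 4) by linarith),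
    ev_pow2 (6 * 16 * (12 * C * 2)) (show δ + (61 / 120 - 31 / 20 * h1 + 6 * δ) < -(κ / 4) by linarith),
    ev_pow' (6 * 16 * 652) (show δ + 1 + (-(6:ℝ)) < -(κ / 4) by linarith),
    ev_exp (6 * 16 * 2) (2 + 4 * δ) (-(κ / 4)) (show (0:ℝ) < 1 / 16 by norm_num) (show 0 < 2 * δ by linarith),
    ev_pow' 2 (show 1 / 2 + 3 * δ - h1 < 1 by linarith)]
    with T hT2 hl t1 t2 t3 t4 t5 s1 s2 s3 s4 s5 s6 t6
  intro X hX1 hX2 h k hh hk hhY hkY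
  have hT0 : 0 < T := by linarith
  have hT1 : 1 ≤ T := by linarith
  have hX0 : (1:ℝ) ≤ X := le_trans (Real.one_le_rpow hT1 (by linarith)) hX1
  set H : ℝ := T ^ h1 with hH
  have hH0 : 0 < H := by positivity
  set Y : ℝ := T ^ δ with hY
  have hY0 : 0 < Y := by positivity
  have hY1 : 1 ≤ Y := Real.one_le_rpow hT1 hδ0.le
  have hsX : √(X:ℝ) ≤ T ^ (1 / 2 + δ) := by
    calc √(X:ℝ) ≤ √(T ^ (1 + 2 * δ)) := Real.sqrt_le_sqrt hX2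
      _ = _ := by rw [sq_rp hT0]; congr 1; ring
  have hYY : Y * Y = T ^ (2 * δ) := by rw [hY, ← Real.rpow_add hT0]; congr 1; ring
  have hY3 : T ^ (3 * δ) = Y * Y * Y := by rw [hYY, hY, ← Real.rpow_add hT0]; congr 1; ring
  have c3 : 4 * Y * Y * Y < H := by
    have e : 4 * Y * Y * Y = 4 * T ^ (3 * δ) := by rw [hY3]; ring
    rw [e]
    have h5 : 0 < T ^ (3 * δ) := by positivity
    linarith
  have c4 : T ≤ X := by
    refine le_trans ?_ hX1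
    calc T = T ^ (1:ℝ) := (Real.rpow_one T).symm
      _ ≤ _ := Real.rpow_le_rpow_of_exponent_le hT1 (by linarith)
  have c5 : Y ^ 2 ≤ X := by
    refine le_trans ?_ c4
    rw [sq, hYY]
    calc T ^ (2 * δ) ≤ T ^ (1:ℝ) := Real.rpow_le_rpow_of_exponent_le hT1 (by linarith)
      _ = T := Real.rpow_one T
  have c6 : √X * H ≤ T * Y := by
    calc √X * H ≤ T ^ (1 / 2 + δ) * H := by gcongr
      _ = T ^ (1 / 2 + δ + h1) := by rw [hH, ← Real.rpow_add hT0]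
      _ ≤ T ^ (1 + δ) := Real.rpow_le_rpow_of_exponent_le hT1 (by linarith)
      _ = T * Y := by rw [Real.rpow_add hT0, Real.rpow_one]
  have hsYY : Y * √X * Y ≤ T ^ (1 / 2 + 3 * δ) := by
    calc Y * √X * Y ≤ Y * T ^ (1 / 2 + δ) * Y := by gcongr
      _ = T ^ (1 / 2 + 3 * δ) := by
        rw [show (1 / 2 + 3 * δ : ℝ) = δ + (1 / 2 + δ) + δ by ring, Real.rpow_add hT0 (δ + (1 / 2 + δ)) δ,
          Real.rpow_add hT0 δ (1 / 2 + δ)]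
  have c7 : 14 * Y * √X * Y ≤ T * H := by
    calc 14 * Y * √X * Y = 14 * (Y * √X * Y) := by ring
      _ ≤ 14 * T ^ (1 / 2 + 3 * δ) := by gcongr
      _ ≤ T ^ (1 + h1) := t3
      _ = T * H := by rw [Real.rpow_add hT0, Real.rpow_one]
  have eΔ : -Y ^ 2 / 16 = -(1 / 16) * T ^ (2 * δ) := by
    rw [← hYY]; ring
  have c8 : Real.exp (-Y ^ 2 / 16) ≤ 1 / (2 * T) := by
    rw [eΔ, le_div_iff₀ (by positivity)]
    rw [Real.rpow_zero, Real.rpow_one] at t4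
    linarith
  have c9 : V (X / T) ≤ 1 / (2 * T) := by
    have hXT : T ^ δ ≤ X / T := by
      rw [le_div_iff₀ hT0]
      calc T ^ δ * T = T ^ (1 + δ) := by rw [add_comm, Real.rpow_add hT0, Real.rpow_one]
        _ ≤ X := hX1
    have h2 := hV (X / T) (by positivity)
    refine h2.trans ?_
    have h3 : ((X:ℝ) / T) ^ (-(2 / δ)) ≤ (T ^ δ) ^ (-(2 / δ)) :=
      Real.rpow_le_rpow_of_nonpos (by positivity) hXT (by
        have : 0 < 2 / δ := by positivity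
        linarith)
    have h4 : (T ^ δ) ^ (-(2 / δ)) = T⁻¹ * T⁻¹ := by
      rw [← Real.rpow_mul hT0.le, show δ * -(2 / δ) = -1 + -1 by field_simp; norm_num, Real.rpow_add hT0, Real.rpow_neg_one]
    rw [Real.rpow_zero, Real.rpow_neg_one] at t5
    rw [le_div_iff₀ (by positivity)]
    calc C2 * ((X:ℝ) / T) ^ (-(2 / δ)) * (2 * T) ≤ C2 * (T⁻¹ * T⁻¹) * (2 * T) := by rw [← h4]; gcongr
      _ = 2 * C2 * T⁻¹ := by field_simp
      _ ≤ 1 := t5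
  have c10 : T * Y ^ 2 ≤ (⌈T ^ (20:ℝ)⌉₊ : ℝ) := by
    refine le_trans ?_ (Nat.le_ceil _)
    rw [sq, hYY]
    calc T * T ^ (2 * δ) = T ^ (1 + 2 * δ) := by rw [Real.rpow_add hT0, Real.rpow_one]
      _ ≤ T ^ (20:ℝ) := Real.rpow_le_rpow_of_exponent_le hT1 (by linarith)
  have h8' : 8 * Y ≤ H := t1
  set R : ℕ := ⌊2 * Y * √X * Y / H⌋₊ with hR
  have hRle : (R:ℝ) ≤ 2 * Y * √X * Y / H := Nat.floor_le (by positivity)
  have hRT : (R:ℝ) ≤ 2 * T ^ (1 / 2 + 3 * δ - h1) := by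
    refine hRle.trans ?_
    rw [Real.rpow_sub hT0, mul_div_assoc']
    refine div_le_div_of_nonneg_right ?_ hH0.le
    linarith
  have hRT1 : (R:ℝ) ≤ T := by
    refine hRT.trans (t6.trans (le_of_eq ?_))
    rw [Real.rpow_one]
  -- the near part
  set Bd : ℕ → ℝ := fun r => BdF C T H Y Y X ⌈T ^ (20:ℝ)⌉₊ r with hBd
  have hn := near2 (h := h) (k := k) (X := X) (R := R) hk (T := T) (H := H) (Δ := Y) Bd
    (fun p hp h1 h2 => near_R hh hk hH0 hY0 hhY hkY p hp h1 h2)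
    (fun r hr a0 _ => by
      rw [mem_Icc] at hr
      refine hfb h k r a0 X ⌈T ^ (20:ℝ)⌉₊ T H Y Y hh hk hr.1 hhY hkY hT2 hY1 h8' c3 c4 c5 c6 c7 c8 c9 c10 ?_
      exact le_trans (by exact_mod_cast hr.2) hRle)
  have hf := far2 (h := h) (k := k) (X := X) (T := T) (H := H) (Δ := Y) hh hk hT0 hH0 hY0 (by
    refine lt_of_le_of_lt ?_ c3
    gcongr)
  rw [← sum_filter_add_sum_filter_not _ (fun p => cutA H Y h k (p.2 * k - p.1 * h) ≤ p.1 / k), filter_filter, filter_filter]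
  refine (norm_add_le _ _).trans ((add_le_add hn hf).trans ?_)
  -- summation over r
  have hsum : ∑ r ∈ Icc 1 R, Bd r ≤ 128 * T ^ (-(1 / 2) + 2 * δ) * (2 * Real.log T) +
      1936 * (T ^ (3 * δ - h1) * Real.log T) * (2 * Real.log T) +
      12 * C * (T ^ (11 / 30 - 6 / 5 * h1 + 5 * δ) * Real.log T) * (4 * T ^ (1 / 12 + δ / 2 - h1 / 6) * Real.log T) +
      12 * C * (T ^ (61 / 120 - 31 / 20 * h1 + 6 * δ) * Real.log T) * (2 * Real.log T) + T * (652 * T ^ (-(6:ℝ))) := by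
    have h2 : ∀ r ∈ Icc 1 R, Bd r ≤ 128 * T ^ (-(1 / 2) + 2 * δ) * ((r:ℝ))⁻¹ + 1936 * (T ^ (3 * δ - h1) * Real.log T) * ((r:ℝ))⁻¹ +
      12 * C * (T ^ (11 / 30 - 6 / 5 * h1 + 5 * δ) * Real.log T) * (r:ℝ) ^ (-(5 / 6) : ℝ) +
      12 * C * (T ^ (61 / 120 - 31 / 20 * h1 + 6 * δ) * Real.log T) * ((r:ℝ))⁻¹ + 652 * T ^ (-(6:ℝ)) := by
      intro r hr
      exact BdF_le hC hT2 hl hδ0 (by linarith) (mem_Icc.mp hr).1 hX2
    refine (sum_le_sum h2).trans ?_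
    rw [sum_add_distrib, sum_add_distrib, sum_add_distrib, sum_add_distrib, ← mul_sum, ← mul_sum, ← mul_sum, ← mul_sum]
    have k1 := harm2 R hl hT0 hRT1
    have k2 : ∑ r ∈ Icc 1 R, (r:ℝ) ^ (-(5 / 6) : ℝ) ≤ 4 * T ^ (1 / 12 + δ / 2 - h1 / 6) * Real.log T := by
      have k3 : ∀ r ∈ Icc 1 R, (r:ℝ) ^ (-(5 / 6) : ℝ) ≤ (2 * T ^ (1 / 12 + δ / 2 - h1 / 6)) * ((r:ℝ))⁻¹ := by
        intro r hr
        rw [mem_Icc] at hr
        have hr1 : (1:ℝ) ≤ r := by exact_mod_cast hr.1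
        have hr0 : (0:ℝ) < r := by linarith
        have e1 : (r:ℝ) ^ (-(5 / 6) : ℝ) = (r:ℝ) ^ (1 / 6 : ℝ) * ((r:ℝ))⁻¹ := by
          rw [← Real.rpow_neg_one, ← Real.rpow_add hr0]; norm_num
        rw [e1]
        refine mul_le_mul_of_nonneg_right ?_ (by positivity)
        have hrR : (r:ℝ) ≤ 2 * T ^ (1 / 2 + 3 * δ - h1) := le_trans (by exact_mod_cast hr.2) hRT
        calc (r:ℝ) ^ (1 / 6 : ℝ) ≤ (2 * T ^ (1 / 2 + 3 * δ - h1)) ^ (1 / 6 : ℝ) := Real.rpow_le_rpow hr0.le hrR (by norm_num)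
          _ = 2 ^ (1 / 6 : ℝ) * T ^ (1 / 12 + δ / 2 - h1 / 6) := by
            rw [Real.mul_rpow (by norm_num) (by positivity), ← Real.rpow_mul hT0.le]
            congr 2; ring
          _ ≤ 2 * T ^ (1 / 12 + δ / 2 - h1 / 6) := by
            have : (2:ℝ) ^ (1 / 6 : ℝ) ≤ 2 := by
              calc (2:ℝ) ^ (1 / 6 : ℝ) ≤ 2 ^ (1:ℝ) := Real.rpow_le_rpow_of_exponent_le (by norm_num) (by norm_num)
                _ = 2 := Real.rpow_one 2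
            gcongr
      refine (sum_le_sum k3).trans ?_
      rw [← mul_sum]
      calc 2 * T ^ (1 / 12 + δ / 2 - h1 / 6) * ∑ r ∈ Icc 1 R, ((r:ℝ))⁻¹ ≤ 2 * T ^ (1 / 12 + δ / 2 - h1 / 6) * (2 * Real.log T) := by
            gcongr
        _ = _ := by ring
    have k4 : ∑ _r ∈ Icc 1 R, 652 * T ^ (-(6:ℝ)) ≤ T * (652 * T ^ (-(6:ℝ))) := by
      rw [sum_const, Nat.card_Icc, nsmul_eq_mul, Nat.add_sub_cancel]
      gcongr
    gcongr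
  have hkT : (k:ℝ) * ∑ r ∈ Icc 1 R, Bd r ≤ Y * (128 * T ^ (-(1 / 2) + 2 * δ) * (2 * Real.log T) +
      1936 * (T ^ (3 * δ - h1) * Real.log T) * (2 * Real.log T) +
      12 * C * (T ^ (11 / 30 - 6 / 5 * h1 + 5 * δ) * Real.log T) * (4 * T ^ (1 / 12 + δ / 2 - h1 / 6) * Real.log T) +
      12 * C * (T ^ (61 / 120 - 31 / 20 * h1 + 6 * δ) * Real.log T) * (2 * Real.log T) + T * (652 * T ^ (-(6:ℝ)))) := by
    refine (mul_le_mul_of_nonneg_left hsum (Nat.cast_nonneg k)).trans ?_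
    exact mul_le_mul_of_nonneg_right hkY (by positivity)
  have hfar : 2 * (X:ℝ) ^ 2 * Real.exp (-Y ^ 2 / 16) ≤ 2 * (T ^ (2 + 4 * δ) * Real.exp (-(1 / 16) * T ^ (2 * δ))) := by
    rw [eΔ, mul_assoc]
    have g1 : (X:ℝ) ^ 2 ≤ T ^ (2 + 4 * δ) := by
      calc (X:ℝ) ^ 2 ≤ (T ^ (1 + 2 * δ)) ^ 2 := by gcongr
        _ = _ := by rw [← Real.rpow_natCast, ← Real.rpow_mul hT0.le]; congr 1; push_cast; ring
    gcongr
  refine (add_le_add hkT hfar).trans ?_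
  set Q : ℝ := T ^ (-(κ / 4)) with hQ
  have a1 : Y * (128 * T ^ (-(1 / 2) + 2 * δ) * (2 * Real.log T)) = (6 * 16 * (128 * 2) * (T ^ (δ + (-(1 / 2) + 2 * δ)) * Real.log T)) / 96 := by
    rw [Real.rpow_add hT0 δ (-(1 / 2) + 2 * δ)]; ring
  have a2 : Y * (1936 * (T ^ (3 * δ - h1) * Real.log T) * (2 * Real.log T)) =
      (6 * 16 * (1936 * 2) * (T ^ (δ + (3 * δ - h1)) * Real.log T ^ 2)) / 96 := by
    rw [Real.rpow_add hT0 δ]; ring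
  have a3 : Y * (12 * C * (T ^ (11 / 30 - 6 / 5 * h1 + 5 * δ) * Real.log T) * (4 * T ^ (1 / 12 + δ / 2 - h1 / 6) * Real.log T)) =
      (6 * 16 * (12 * C * 4) * (T ^ (δ + (11 / 30 - 6 / 5 * h1 + 5 * δ) + (1 / 12 + δ / 2 - h1 / 6)) * Real.log T ^ 2)) / 96 := by
    rw [Real.rpow_add hT0 (δ + (11 / 30 - 6 / 5 * h1 + 5 * δ)), Real.rpow_add hT0 δ]; ring
  have a4 : Y * (12 * C * (T ^ (61 / 120 - 31 / 20 * h1 + 6 * δ) * Real.log T) * (2 * Real.log T)) =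
      (6 * 16 * (12 * C * 2) * (T ^ (δ + (61 / 120 - 31 / 20 * h1 + 6 * δ)) * Real.log T ^ 2)) / 96 := by
    rw [Real.rpow_add hT0 δ]; ring
  have a5 : Y * (T * (652 * T ^ (-(6:ℝ)))) = (6 * 16 * 652 * T ^ (δ + 1 + (-(6:ℝ)))) / 96 := by
    rw [Real.rpow_add hT0 (δ + 1), Real.rpow_add hT0 δ, Real.rpow_one]; ring
  have a6 : 2 * (T ^ (2 + 4 * δ) * Real.exp (-(1 / 16) * T ^ (2 * δ))) =
      (6 * 16 * 2 * (T ^ (2 + 4 * δ) * Real.exp (-(1 / 16) * T ^ (2 * δ)))) / 96 := by ring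
  rw [mul_add, mul_add, mul_add, mul_add, a1, a2, a3, a4, a5, a6]
  linarith

/-- the twisted second moment on the window, `27 / 82 < h1` -/
theorem tw_asymp2 {h1 : ℝ} (hlo : 27 / 82 < h1) (hhi : h1 < 1 / 2) :
    ∃ δ ε1 : ℝ, 0 < δ ∧ 0 < ε1 ∧ ∀ᶠ T : ℝ in atTop, ∀ x : ℕ × ℕ, x.1 ≠ 0 → x.2 ≠ 0 →
      (x.1 : ℝ) ≤ T ^ δ → (x.2 : ℝ) ≤ T ^ δ →
      |(∫ u in Set.Ioc (T / 2) (3 * T / 2), Wg (T ^ h1) T u * (ff u * (mh u x).re)) -
        √Real.pi * T ^ h1 * ((Real.log (T / (2 * Real.pi)) + 2 * Real.eulerMascheroniConstant) * w1 x - wl x)| ≤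
        T ^ (h1 - ε1) := by
  obtain ⟨κ, hκ⟩ : ∃ κ, κ = min (h1 - 27 / 82) (1 / 2 - h1) := ⟨_, rfl⟩
  have hκ0 : 0 < κ := by rw [hκ]; exact lt_min (by linarith) (by linarith)
  have hκ1 : κ ≤ h1 - 27 / 82 := by rw [hκ]; exact min_le_left _ _
  have hκ2 : κ ≤ 1 / 2 - h1 := by rw [hκ]; exact min_le_right _ _
  have hκ3 : κ ≤ 1 / 10 := by linarith
  obtain ⟨C0, hC0, hA⟩ := Pool.Agent.Y891.GP.t_AFE Pool.Agent.Y587.GP.t_V Pool.Agent.Y587.GP.Chi.t_CHI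
    (κ / 100) (by positivity)
  obtain ⟨C1, hC1, hV⟩ := V_lip
  obtain ⟨C2, hC2, hCR⟩ := Pool.Agent.Y620.SX.t_CRA' (κ / 100) (by positivity)
  refine ⟨κ / 100, κ / 4, by positivity, by positivity, ?_⟩
  obtain ⟨δ, hδ⟩ : ∃ δ, δ = κ / 100 := ⟨_, rfl⟩
  rw [← hδ] at hA hCR ⊢
  have hδ0 : 0 < δ := by rw [hδ]; positivity
  have hpi := Real.pi_pos
  have hsp : √Real.pi ≤ 2 := by
    rw [show (2:ℝ) = √(2 ^ 2) by rw [Real.sqrt_sq (by norm_num)]]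
    exact Real.sqrt_le_sqrt (by have := Real.pi_lt_four; linarith)
  filter_upwards [X_ev hδ0 (by linarith), eventually_ge_atTop 3,
    Real.tendsto_log_atTop.eventually_ge_atTop 1,
    ev_pow' (8 * (4 * C0)) (show h1 - 1 / 2 + δ < h1 - κ / 4 by linarith),
    ev_pow (8 * (72 * C1)) (show 2 * h1 - 1 / 2 + δ < h1 - κ / 4 by linarith),
    ev_exp (8 * 6) (2 + 4 * δ + h1) (h1 - κ / 4) (show (0:ℝ) < 1 / 8 by norm_num) (show 0 < 2 - 2 * h1 by linarith),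
    hob_ev hlo hhi hκ hδ,
    ev_pow' (8 * (2 * C2)) (show h1 - 1 / 4 < h1 - κ / 4 by linarith)] with T hX hT3 hl t1 t2 t3 hob t7
  intro x hx1 hx2 hx1Y hx2Y
  have hT0 : 0 < T := by linarith
  have hT1 : 1 < T := by linarith
  set X : ℕ := ⌈(2 * T) ^ (1 + δ)⌉₊ with hXd
  have hXl : (2 * T) ^ (1 + δ) ≤ X := Nat.le_ceil _
  have hX1 : (1:ℝ) ≤ X := le_trans (Real.one_le_rpow (by linarith) (by linarith)) hXl
  have hX1' : 1 ≤ X := by exact_mod_cast hX1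
  have hXT : T ^ (1 + δ) ≤ X := le_trans (Real.rpow_le_rpow hT0.le (by linarith) (by linarith)) hXl
  set H : ℝ := T ^ h1 with hH
  have hH0 : 0 < H := by positivity
  have hYY : T ^ δ * T ^ δ = T ^ (2 * δ) := by rw [← Real.rpow_add hT0]; congr 1; ring
  have hmain := tw_full2 hδ0 (by linarith) hC0 hA hC1 hV hC2 hCR (T := T) (H := H) (Y := T ^ δ)
    (by linarith) hH0 hXl hx1 hx2 hx1Y hx2Y (hob X hXT hX) (by
      rw [hYY]; exact Real.rpow_le_rpow_of_exponent_le hT1.le (by linarith))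
  refine hmain.trans ?_
  have hlX : Real.log X ≤ 2 * Real.log T := by
    have h2 := Real.log_le_log (by linarith) hX
    rw [Real.log_rpow hT0] at h2
    nlinarith
  set R : ℝ := T ^ (h1 - κ / 4) with hR
  have hR0 : 0 < R := by positivity
  -- the five terms
  have b1 : √Real.pi * H * (C0 * (T / 2) ^ (-(1 / 2) + δ)) ≤ R / 8 := by
    have g1 : (T / 2) ^ (-(1 / 2) + δ) ≤ 2 * T ^ (-(1 / 2) + δ) := by
      rw [Real.div_rpow hT0.le (by norm_num), div_le_iff₀ (by positivity)]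
      have g2 : (1:ℝ) / 2 ≤ 2 ^ (-(1 / 2) + δ) := by
        calc (1:ℝ) / 2 = 2 ^ (-1 : ℝ) := by rw [Real.rpow_neg_one]; norm_num
          _ ≤ _ := Real.rpow_le_rpow_of_exponent_le (by norm_num) (by linarith)
      have g3 : 0 < T ^ (-(1 / 2) + δ) := by positivity
      nlinarith
    have g4 : T ^ (h1 - 1 / 2 + δ) = H * T ^ (-(1 / 2) + δ) := by
      rw [hH, ← Real.rpow_add hT0]; congr 1; ring
    rw [g4] at t1
    calc √Real.pi * H * (C0 * (T / 2) ^ (-(1 / 2) + δ)) ≤ 2 * H * (C0 * (2 * T ^ (-(1 / 2) + δ))) := by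
          gcongr
      _ = (8 * (4 * C0) * (H * T ^ (-(1 / 2) + δ))) / 8 := by ring
      _ ≤ R / 8 := by linarith
  have b2 : 24 * C1 * √(X:ℝ) * (1 + Real.log X) * H ^ 2 / T ≤ R / 8 := by
    have g1 : √(X:ℝ) ≤ T ^ (1 / 2 + δ) := by
      calc √(X:ℝ) ≤ √(T ^ (1 + 2 * δ)) := Real.sqrt_le_sqrt hX
        _ = _ := by rw [sq_rp hT0]; congr 1; ring
    have g2 : 1 + Real.log X ≤ 3 * Real.log T := by linarith
    have g3 : 0 ≤ Real.log X := Real.log_nonneg hX1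
    have g4 : T ^ (2 * h1 - 1 / 2 + δ) = T ^ (1 / 2 + δ) * H ^ 2 / T := by
      rw [hH, ← Real.rpow_natCast, ← Real.rpow_mul hT0.le, ← Real.rpow_add hT0]
      nth_rewrite 3 [← Real.rpow_one T]
      rw [← Real.rpow_sub hT0]
      congr 1; push_cast; ring
    rw [g4] at t2
    calc 24 * C1 * √(X:ℝ) * (1 + Real.log X) * H ^ 2 / T ≤
          24 * C1 * T ^ (1 / 2 + δ) * (3 * Real.log T) * H ^ 2 / T := by gcongr
      _ = (8 * (72 * C1) * (T ^ (1 / 2 + δ) * H ^ 2 / T * Real.log T)) / 8 := by ring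
      _ ≤ R / 8 := by linarith
  have b3 : 6 * (X:ℝ) ^ 2 * H * Real.exp (-(T ^ 2 / (8 * H ^ 2))) ≤ R / 8 := by
    have g1 : (X:ℝ) ^ 2 ≤ T ^ (2 + 4 * δ) := by
      calc (X:ℝ) ^ 2 ≤ (T ^ (1 + 2 * δ)) ^ 2 := by gcongr
        _ = _ := by rw [← Real.rpow_natCast, ← Real.rpow_mul hT0.le]; congr 1; push_cast; ring
    have g2 : -(T ^ 2 / (8 * H ^ 2)) = -(1 / 8) * T ^ (2 - 2 * h1) := by
      rw [Real.rpow_sub hT0, hH]
      have e1 : (T ^ h1) ^ 2 = T ^ (2 * h1) := by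
        rw [← Real.rpow_natCast, ← Real.rpow_mul hT0.le]; congr 1; push_cast; ring
      have e2 : T ^ (2:ℝ) = T ^ 2 := by rw [← Real.rpow_natCast]; norm_num
      rw [e1, e2]; field_simp
    have g3 : T ^ (2 + 4 * δ + h1) = T ^ (2 + 4 * δ) * H := by rw [hH, ← Real.rpow_add hT0]
    rw [g3] at t3
    rw [g2]
    calc 6 * (X:ℝ) ^ 2 * H * Real.exp (-(1 / 8) * T ^ (2 - 2 * h1)) ≤
          6 * T ^ (2 + 4 * δ) * H * Real.exp (-(1 / 8) * T ^ (2 - 2 * h1)) := by gcongr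
      _ = (8 * 6 * (T ^ (2 + 4 * δ) * H * Real.exp (-(1 / 8) * T ^ (2 - 2 * h1)))) / 8 := by ring
      _ ≤ R / 8 := by linarith
  have b4 : √Real.pi * H * (2 * (T ^ (-(κ / 4)) / 16)) ≤ 3 * (R / 8) := by
    have g4 : R = H * T ^ (-(κ / 4)) := by rw [hR, hH, ← Real.rpow_add hT0]; congr 1
    have g5 : 0 < H * T ^ (-(κ / 4)) := by positivity
    calc √Real.pi * H * (2 * (T ^ (-(κ / 4)) / 16)) ≤ 2 * H * (2 * (T ^ (-(κ / 4)) / 16)) := by gcongr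
      _ = (H * T ^ (-(κ / 4))) / 4 := by ring
      _ ≤ 3 * (R / 8) := by rw [g4]; linarith
  have b5 : √Real.pi * H * (C2 * T ^ (-(1 / 4) : ℝ)) ≤ R / 8 := by
    have g4 : T ^ (h1 - 1 / 4) = H * T ^ (-(1 / 4) : ℝ) := by
      rw [hH, ← Real.rpow_add hT0]; congr 1
    rw [g4] at t7
    calc √Real.pi * H * (C2 * T ^ (-(1 / 4) : ℝ)) ≤ 2 * H * (C2 * T ^ (-(1 / 4) : ℝ)) := by gcongr
      _ = (8 * (2 * C2) * (H * T ^ (-(1 / 4) : ℝ))) / 8 := by ring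
      _ ≤ R / 8 := by linarith
  linarith

end Pool.Agent.Zk6.QQ
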