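import Pool.Agent.Zk6.Q1

set_option autoImplicit false

/-! A finite form of Poisson's summation formula, with Fejer's kernel. -/

namespace Pool.Agent.Zk6.QQ

open Finset MeasureTheory
open Pool.Agent.H469R2.NK (e norm_e e_add conj_e e_zero)

lemma e_cont : Continuous e := by unfold e; fun_prop

lemma e_int (l : ℤ) : e (l : ℝ) = 1 := by
  unfold e
  have : (((2 * Real.pi * (l:ℝ) : ℝ) : ℂ) * Complex.I) = (l : ℂ) * (2 * Real.pi * Complex.I) := by
    push_cast; ring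
  rw [this]
  exact Complex.exp_int_mul_two_pi_mul_I l

lemma e_nat (l : ℕ) : e (l : ℝ) = 1 := by
  have := e_int (l : ℤ)
  push_cast at this
  exact this

lemma e_hasDeriv (c x : ℝ) : HasDerivAt (fun x => e (c * x)) (((2 * Real.pi * c : ℝ) : ℂ) * Complex.I * e (c * x)) x := by
  unfold e
  have h1 : HasDerivAt (fun x : ℝ => ((2 * Real.pi * (c * x) : ℝ) : ℂ) * Complex.I)
      (((2 * Real.pi * c : ℝ) : ℂ) * Complex.I) x := by
    have h2 : HasDerivAt (fun x : ℝ => 2 * Real.pi * (c * x)) (2 * Real.pi * c) x := by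
      have := (hasDerivAt_id x).const_mul c
      simpa [mul_assoc] using this.const_mul (2 * Real.pi)
    exact (h2.ofReal_comp).mul_const Complex.I
  have := h1.cexp
  convert this using 1
  ring

/-- the kernel as a trigonometric polynomial -/
noncomputable def KF (K : ℕ) (x : ℝ) : ℂ :=
  1 + ∑ l ∈ Ico 1 K, ((1 - (l:ℝ) / K : ℝ) : ℂ) * (e (l * x) + e (-(l * x)))

/-- the kernel as a square -/
noncomputable def KR (K : ℕ) (x : ℝ) : ℝ := ‖∑ j ∈ range K, e (j * x)‖ ^ 2 / K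

lemma KF_eq {K : ℕ} (hK : 1 ≤ K) (x : ℝ) : KF K x = ((KR K x : ℝ) : ℂ) := by
  have hK0 : (K:ℂ) ≠ 0 := by exact_mod_cast (by omega : K ≠ 0)
  unfold KR
  push_cast
  rw [← Complex.mul_conj', map_sum, sum_mul_sum]
  have h1 : ∑ i ∈ range K, ∑ j ∈ range K, e (i * x) * (starRingEnd ℂ) (e (j * x)) =
      ∑ i ∈ range K, ∑ j ∈ range K, e (((i:ℝ) - j) * x) := by
    refine sum_congr rfl fun i _ => sum_congr rfl fun j _ => ?_
    rw [conj_e, ← e_add]; congr 1; ring
  rw [h1, Helper170.Weyl.double_sum (fun i j => e (((i:ℝ) - j) * x)) K]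
  have h2 : ∑ n ∈ range K, e (((n:ℝ) - n) * x) = K := by
    simp [e_zero]
  have h3 : ∀ l ∈ Ico 1 K, ∑ n ∈ range (K - l), (e ((((n + l : ℕ):ℝ) - n) * x) + e (((n:ℝ) - ((n + l : ℕ):ℝ)) * x)) =
      ((K:ℂ) - l) * (e (l * x) + e (-(l * x))) := by
    intro l hl
    rw [mem_Ico] at hl
    have h4 : ∀ n ∈ range (K - l), (e ((((n + l : ℕ):ℝ) - n) * x) + e (((n:ℝ) - ((n + l : ℕ):ℝ)) * x)) =
        (e (l * x) + e (-(l * x))) := by
      intro n _
      push_cast
      congr 2 <;> ring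
    rw [sum_congr rfl h4, sum_const, card_range, nsmul_eq_mul, Nat.cast_sub hl.2.le]
  rw [h2, sum_congr rfl h3]
  unfold KF
  rw [add_div, div_self hK0, sum_div]
  congr 1
  refine sum_congr rfl fun l _ => ?_
  push_cast
  field_simp

lemma KR_nn (K : ℕ) (x : ℝ) : 0 ≤ KR K x := by unfold KR; positivity

lemma KR_cont (K : ℕ) : Continuous (KR K) := by
  unfold KR
  have : Continuous fun x : ℝ => ∑ j ∈ range K, e (j * x) :=
    continuous_finset_sum _ fun j _ => e_cont.comp (by fun_prop)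
  exact (this.norm.pow 2).div_const _

lemma int_e {c : ℤ} (hc : c ≠ 0) (a : ℝ) : ∫ x in (a - 1 / 2)..(a + 1 / 2), e (c * x) = 0 := by
  have hc' : (((2 * Real.pi * c : ℝ) : ℂ) * Complex.I) ≠ 0 := by
    have h1 : (2 * Real.pi * c : ℝ) ≠ 0 := by
      have : (c:ℝ) ≠ 0 := by exact_mod_cast hc
      have := Real.pi_pos
      positivity
    exact mul_ne_zero (by exact_mod_cast h1) Complex.I_ne_zero
  have h1 : ∀ x ∈ Set.uIcc (a - 1 / 2) (a + 1 / 2), HasDerivAt (fun x => e (c * x) / (((2 * Real.pi * c : ℝ) : ℂ) * Complex.I))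
      (e (c * x)) x := by
    intro x _
    have := (e_hasDeriv (c:ℝ) x).div_const (((2 * Real.pi * c : ℝ) : ℂ) * Complex.I)
    exact this.congr_deriv (mul_div_cancel_left₀ _ hc')
  rw [intervalIntegral.integral_eq_sub_of_hasDerivAt h1 (Continuous.intervalIntegrable (by
    exact e_cont.comp (by fun_prop)) _ _), ← sub_div]
  have h2 : e (c * (a + 1 / 2)) = e (c * (a - 1 / 2)) := by
    rw [show (c:ℝ) * (a + 1 / 2) = c * (a - 1 / 2) + (c:ℝ) by ring, e_add, e_int, mul_one]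
  rw [h2, sub_self, zero_div]

lemma KF_int {K : ℕ} (a : ℝ) : ∫ x in (a - 1 / 2)..(a + 1 / 2), KF K x = 1 := by
  have hi : ∀ c : ℝ, IntervalIntegrable (fun x => e (c * x)) volume (a - 1 / 2) (a + 1 / 2) := fun c =>
    Continuous.intervalIntegrable (e_cont.comp (by fun_prop)) _ _
  have hi' : ∀ c : ℝ, IntervalIntegrable (fun x => e (-(c * x))) volume (a - 1 / 2) (a + 1 / 2) := fun c =>
    Continuous.intervalIntegrable (e_cont.comp (by fun_prop)) _ _
  unfold KF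
  have hcs : Continuous fun x : ℝ => ∑ l ∈ Ico 1 K, ((1 - (l:ℝ) / K : ℝ) : ℂ) * (e (l * x) + e (-(l * x))) :=
    continuous_finset_sum _ fun l _ => continuous_const.mul
      ((e_cont.comp (by fun_prop)).add (e_cont.comp (by fun_prop)))
  rw [intervalIntegral.integral_add (by simp) (hcs.intervalIntegrable _ _)]
  rw [intervalIntegral.integral_finsetSum (fun (l : ℕ) _ => ((hi (l:ℝ)).add (hi' (l:ℝ))).const_mul ((1 - (l:ℝ) / K : ℝ) : ℂ))]
  have h1 : ∀ l ∈ Ico 1 K, ∫ x in (a - 1 / 2)..(a + 1 / 2), ((1 - (l:ℝ) / K : ℝ) : ℂ) * (e (l * x) + e (-(l * x))) = 0 := by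
    intro l hl
    rw [mem_Ico] at hl
    rw [intervalIntegral.integral_const_mul, intervalIntegral.integral_add (hi l) (hi' l)]
    have h2 := int_e (c := (l : ℤ)) (by omega) a
    have h3 := int_e (c := -(l : ℤ)) (by omega) a
    push_cast at h2 h3
    rw [h2]
    have h4 : ∀ x : ℝ, e (-(l * x)) = e (-(l:ℝ) * x) := fun x => by congr 1; ring
    simp_rw [h4]
    rw [h3]; simp
  rw [sum_congr rfl h1]
  simp
  norm_num

lemma KR_int {K : ℕ} (hK : 1 ≤ K) (a : ℝ) : ∫ x in (a - 1 / 2)..(a + 1 / 2), KR K x = 1 := by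
  have h1 := KF_int (K := K) a
  simp_rw [KF_eq hK] at h1
  rw [intervalIntegral.integral_ofReal] at h1
  exact_mod_cast h1

lemma KR_per (K : ℕ) (l : ℕ) (t : ℝ) : KR K (l + t) = KR K t := by
  unfold KR
  congr 3
  refine sum_congr rfl fun j _ => ?_
  rw [mul_add, e_add]
  have h1 : e ((j:ℝ) * l) = 1 := by
    have := e_nat (j * l)
    push_cast at this
    exact this
  rw [h1, one_mul]

lemma abs_one_sub_e {x : ℝ} (hx : |x| ≤ 1 / 2) : 4 * |x| ≤ ‖1 - e x‖ := by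
  have h1 : 1 - e x = -(2 * Complex.I * ((Real.sin (Real.pi * x) : ℝ) : ℂ)) * Complex.exp (((Real.pi * x : ℝ) : ℂ) * Complex.I) := by
    unfold e
    push_cast
    rw [Complex.sin]
    have e1 : Complex.exp ((2 * Real.pi * x : ℂ) * Complex.I) = Complex.exp ((Real.pi * x : ℂ) * Complex.I) * Complex.exp ((Real.pi * x : ℂ) * Complex.I) := by
      rw [← Complex.exp_add]; congr 1; ring
    have e2 : Complex.exp (-(Real.pi * x : ℂ) * Complex.I) * Complex.exp ((Real.pi * x : ℂ) * Complex.I) = 1 := by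
      rw [← Complex.exp_add]; simp
    rw [e1]
    have e3 : -(2 * Complex.I * ((Complex.exp (-(Real.pi * x : ℂ) * Complex.I) - Complex.exp ((Real.pi * x : ℂ) * Complex.I)) * Complex.I / 2)) *
        Complex.exp ((Real.pi * x : ℂ) * Complex.I) = -(Complex.I * Complex.I) * (Complex.exp (-(Real.pi * x : ℂ) * Complex.I) * Complex.exp ((Real.pi * x : ℂ) * Complex.I) -
          Complex.exp ((Real.pi * x : ℂ) * Complex.I) * Complex.exp ((Real.pi * x : ℂ) * Complex.I)) := by ring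
    rw [e3, e2, Complex.I_mul_I]
    ring
  rw [h1, norm_mul, Complex.norm_exp_ofReal_mul_I, mul_one, norm_neg, norm_mul, norm_mul, Complex.norm_I, Complex.norm_real]
  simp only [Complex.norm_ofNat, mul_one, Real.norm_eq_abs]
  have hpi := Real.pi_pos
  have key : ∀ y : ℝ, 0 ≤ y → y ≤ 1 / 2 → 2 * y ≤ Real.sin (Real.pi * y) := by
    intro y h0 h1
    have := Real.mul_le_sin (x := Real.pi * y) (by positivity) (by nlinarith)
    have e1 : 2 / Real.pi * (Real.pi * y) = 2 * y := by field_simp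
    rwa [e1] at this
  rcases le_total 0 x with h | h
  · rw [abs_of_nonneg h] at hx ⊢
    have := key x h hx
    have := le_abs_self (Real.sin (Real.pi * x))
    linarith
  · rw [abs_of_nonpos h] at hx ⊢
    have h2 := key (-x) (by linarith) hx
    rw [show Real.pi * -x = -(Real.pi * x) by ring, Real.sin_neg] at h2
    have := neg_le_abs (Real.sin (Real.pi * x))
    linarith

lemma KR_sq {K : ℕ} (hK : 1 ≤ K) {x : ℝ} (hx : |x| ≤ 1 / 2) : x ^ 2 * KR K x ≤ 1 / (4 * K) := by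
  have hK0 : (0:ℝ) < K := by exact_mod_cast hK
  have h1 : ‖∑ j ∈ range K, e (j * x)‖ * ‖1 - e x‖ ≤ 2 := by
    rw [← norm_mul, sum_mul]
    have h2 : ∀ j ∈ range K, e (j * x) * (1 - e x) = e (j * x) - e (((j + 1 : ℕ) : ℝ) * x) := by
      intro j _
      push_cast
      rw [mul_sub, mul_one, ← e_add]
      congr 2; ring
    rw [sum_congr rfl h2, sum_range_sub']
    refine (norm_sub_le _ _).trans ?_
    rw [norm_e, norm_e]; norm_num
  have h3 := abs_one_sub_e hx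
  have h4 : ‖∑ j ∈ range K, e (j * x)‖ * (4 * |x|) ≤ 2 :=
    le_trans (mul_le_mul_of_nonneg_left h3 (norm_nonneg _)) h1
  unfold KR
  rw [mul_div_assoc', div_le_div_iff₀ hK0 (by positivity)]
  have h5 : (‖∑ j ∈ range K, e (j * x)‖ * (4 * |x|)) ^ 2 ≤ 2 ^ 2 := by
    have : 0 ≤ ‖∑ j ∈ range K, e (j * x)‖ * (4 * |x|) := by positivity
    gcongr
  rw [mul_pow, mul_pow, sq_abs] at h5
  nlinarith

lemma KR_mom {K : ℕ} (hK : 1 ≤ K) : ∫ x in (-(1 / 2) : ℝ)..(1 / 2), KR K x * |x| ≤ 1 / (2 * √K) := by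
  have hK0 : (0:ℝ) < K := by exact_mod_cast hK
  have hs : 0 < √(K:ℝ) := Real.sqrt_pos.mpr hK0
  have hss : √(K:ℝ) * √K = K := Real.mul_self_sqrt hK0.le
  have h1 : ∀ x ∈ Set.Icc (-(1 / 2) : ℝ) (1 / 2), KR K x * |x| ≤ 1 / (4 * √K) * KR K x + √K * (1 / (4 * K)) := by
    intro x hx
    have hx' : |x| ≤ 1 / 2 := abs_le.mpr ⟨hx.1, hx.2⟩
    have h2 := KR_sq hK hx'
    have h3 : |x| ≤ 1 / (4 * √K) + √K * x ^ 2 := by
      have h4 : 0 ≤ (2 * √K * |x| - 1) ^ 2 := sq_nonneg _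
      have h5 : x ^ 2 = |x| ^ 2 := (sq_abs x).symm
      rw [h5, ← sub_nonneg]
      have e1 : 1 / (4 * √K) + √K * |x| ^ 2 - |x| = (2 * √K * |x| - 1) ^ 2 / (4 * √K) := by
        field_simp; ring
      rw [e1]; positivity
    have h6 := KR_nn K x
    calc KR K x * |x| ≤ KR K x * (1 / (4 * √K) + √K * x ^ 2) := mul_le_mul_of_nonneg_left h3 h6
      _ = 1 / (4 * √K) * KR K x + √K * (x ^ 2 * KR K x) := by ring
      _ ≤ _ := by gcongr
  have hi : IntervalIntegrable (KR K) volume (-(1 / 2)) (1 / 2) := (KR_cont K).intervalIntegrable _ _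
  have h2 := intervalIntegral.integral_mono_on (a := (-(1 / 2) : ℝ)) (b := 1 / 2) (by norm_num)
    (((KR_cont K).mul continuous_abs).intervalIntegrable _ _)
    ((hi.const_mul (1 / (4 * √K))).add (by simp)) h1
  refine h2.trans ?_
  rw [intervalIntegral.integral_add (hi.const_mul _) (by simp), intervalIntegral.integral_const_mul]
  have h3 := KR_int hK 0
  rw [zero_sub, zero_add] at h3
  rw [h3, intervalIntegral.integral_const]
  have e1 : √(K:ℝ) * (1 / (4 * K)) = 1 / (4 * √K) := by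
    nth_rewrite 2 [← hss]; field_simp
  rw [e1]
  have e2 : 1 / (4 * √(K:ℝ)) * 1 + (1 / 2 - -(1 / 2) : ℝ) • (1 / (4 * √(K:ℝ))) = 1 / (2 * √K) := by
    rw [smul_eq_mul]; field_simp; norm_num
  rw [e2]

/-- one cell -/
lemma cell {K : ℕ} (hK : 1 ≤ K) {g : ℝ → ℂ} {D : ℝ} (hD : 0 ≤ D) (l : ℕ)
    (hg : ∀ x ∈ Set.Icc ((l:ℝ) - 1 / 2) (l + 1 / 2), ‖g x - g l‖ ≤ D * |x - l|)
    (hc : ContinuousOn g (Set.Icc ((l:ℝ) - 1 / 2) (l + 1 / 2))) :
    ‖(∫ x in ((l:ℝ) - 1 / 2)..(l + 1 / 2), KF K x * g x) - g l‖ ≤ D * (1 / (2 * √K)) := by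
  have hle : ((l:ℝ) - 1 / 2) ≤ l + 1 / 2 := by linarith
  have hKFc : Continuous (KF K) := by
    have : KF K = fun x => ((KR K x : ℝ) : ℂ) := funext (KF_eq hK)
    rw [this]
    exact Complex.continuous_ofReal.comp (KR_cont K)
  have h0 : g l = ∫ x in ((l:ℝ) - 1 / 2)..(l + 1 / 2), KF K x * g l := by
    rw [intervalIntegral.integral_mul_const, KF_int, one_mul]
  have hi1 : IntervalIntegrable (fun x => KF K x * g x) volume ((l:ℝ) - 1 / 2) (l + 1 / 2) := by
    refine ContinuousOn.intervalIntegrable ?_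
    rw [Set.uIcc_of_le hle]
    exact hKFc.continuousOn.mul hc
  have hi2 : IntervalIntegrable (fun x => KF K x * g l) volume ((l:ℝ) - 1 / 2) (l + 1 / 2) :=
    (hKFc.mul continuous_const).intervalIntegrable _ _
  rw [h0]
  rw [← intervalIntegral.integral_sub hi1 hi2]
  have h1 : ∀ x ∈ Set.Ioc ((l:ℝ) - 1 / 2) (l + 1 / 2), ‖KF K x * g x - KF K x * g l‖ ≤ D * (KR K x * |x - l|) := by
    intro x hx
    rw [← mul_sub, norm_mul, KF_eq hK, Complex.norm_real, Real.norm_eq_abs, abs_of_nonneg (KR_nn K x)]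
    have := hg x ⟨hx.1.le, hx.2⟩
    calc KR K x * ‖g x - g l‖ ≤ KR K x * (D * |x - l|) := mul_le_mul_of_nonneg_left this (KR_nn K x)
      _ = _ := by ring
  have hi3 : IntervalIntegrable (fun x => D * (KR K x * |x - l|)) volume ((l:ℝ) - 1 / 2) (l + 1 / 2) := by
    refine Continuous.intervalIntegrable ?_ _ _
    exact continuous_const.mul ((KR_cont K).mul (by fun_prop))
  refine (intervalIntegral.norm_integral_le_of_norm_le hle (Filter.Eventually.of_forall h1) hi3).trans ?_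
  rw [intervalIntegral.integral_const_mul]
  refine mul_le_mul_of_nonneg_left ?_ hD
  refine le_trans (le_of_eq ?_) (KR_mom hK)
  have h4 : ∀ x : ℝ, KR K x * |x - l| = (fun t => KR K t * |t|) (x - l) := by
    intro x
    simp only
    congr 1
    have := KR_per K l (x - l)
    rw [← this]; congr 1; ring
  rw [intervalIntegral.integral_congr (g := fun x => (fun t => KR K t * |t|) (x - l)) (fun x _ => h4 x),
    intervalIntegral.integral_comp_sub_right (fun t => KR K t * |t|)]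
  congr 1 <;> ring

/-- the finite Poisson formula -/
theorem fejer_sum {K : ℕ} (hK : 1 ≤ K) {A B : ℕ} (hAB : A ≤ B) {g : ℝ → ℂ} {D : ℝ} (hD : 0 ≤ D)
    (hg : ∀ x ∈ Set.Icc ((A:ℝ) - 1 / 2) (B - 1 / 2), ∀ y ∈ Set.Icc ((A:ℝ) - 1 / 2) (B - 1 / 2), ‖g x - g y‖ ≤ D * |x - y|) :
    ‖∑ l ∈ Ico A B, g l - ((∫ x in ((A:ℝ) - 1 / 2)..(B - 1 / 2), g x) +
      ∑ l ∈ Ico 1 K, ((1 - (l:ℝ) / K : ℝ) : ℂ) * ((∫ x in ((A:ℝ) - 1 / 2)..(B - 1 / 2), e (l * x) * g x) +
        ∫ x in ((A:ℝ) - 1 / 2)..(B - 1 / 2), e (-(l * x)) * g x))‖ ≤ ((B:ℝ) - A) * (D * (1 / (2 * √K))) := by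
  have hABr : (A:ℝ) ≤ B := by exact_mod_cast hAB
  have hle : ((A:ℝ) - 1 / 2) ≤ B - 1 / 2 := by linarith
  have hgc : ContinuousOn g (Set.Icc ((A:ℝ) - 1 / 2) (B - 1 / 2)) := by
    refine LipschitzOnWith.continuousOn (K := ⟨D, hD⟩) ?_
    refine LipschitzOnWith.of_dist_le_mul fun x hx y hy => ?_
    rw [dist_eq_norm, dist_eq_norm]
    exact hg x hx y hy
  have hKFc : Continuous (KF K) := by
    have : KF K = fun x => ((KR K x : ℝ) : ℂ) := funext (KF_eq hK)
    rw [this]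
    exact Complex.continuous_ofReal.comp (KR_cont K)
  have hic : ∀ {c : ℝ → ℂ}, Continuous c → ContinuousOn (fun x => c x * g x) (Set.Icc ((A:ℝ) - 1 / 2) (B - 1 / 2)) :=
    fun hc => hc.continuousOn.mul hgc
  have hii : ∀ {c : ℝ → ℂ}, Continuous c → IntervalIntegrable (fun x => c x * g x) volume ((A:ℝ) - 1 / 2) (B - 1 / 2) := by
    intro c hc
    refine ContinuousOn.intervalIntegrable ?_
    rw [Set.uIcc_of_le hle]
    exact hic hc
  -- the expansion
  have hexp : (∫ x in ((A:ℝ) - 1 / 2)..(B - 1 / 2), g x) +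
      ∑ l ∈ Ico 1 K, ((1 - (l:ℝ) / K : ℝ) : ℂ) * ((∫ x in ((A:ℝ) - 1 / 2)..(B - 1 / 2), e (l * x) * g x) +
        ∫ x in ((A:ℝ) - 1 / 2)..(B - 1 / 2), e (-(l * x)) * g x) = ∫ x in ((A:ℝ) - 1 / 2)..(B - 1 / 2), KF K x * g x := by
    have hc1 : ∀ l : ℕ, Continuous fun x : ℝ => e (l * x) := fun l => e_cont.comp (by fun_prop)
    have hc2 : ∀ l : ℕ, Continuous fun x : ℝ => e (-(l * x)) := fun l => e_cont.comp (by fun_prop)
    have h1 : ∀ x : ℝ, KF K x * g x = 1 * g x + ∑ l ∈ Ico 1 K, ((1 - (l:ℝ) / K : ℝ) : ℂ) * (e (l * x) * g x + e (-(l * x)) * g x) := by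
      intro x
      unfold KF
      rw [add_mul, sum_mul]
      congr 1
      refine sum_congr rfl fun l _ => ?_
      ring
    simp_rw [h1]
    rw [intervalIntegral.integral_add (hii continuous_const) (by
      refine ContinuousOn.intervalIntegrable ?_
      rw [Set.uIcc_of_le hle]
      exact continuousOn_finset_sum _ fun l _ => continuousOn_const.mul ((hic (hc1 l)).add (hic (hc2 l))))]
    rw [intervalIntegral.integral_finsetSum (fun l _ => ((hii (hc1 l)).add (hii (hc2 l))).const_mul _)]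
    simp only [one_mul]
    congr 1
    refine sum_congr rfl fun l _ => ?_
    rw [intervalIntegral.integral_const_mul, intervalIntegral.integral_add (hii (hc1 l)) (hii (hc2 l))]
  rw [hexp]
  have hsplit : ∫ x in ((A:ℝ) - 1 / 2)..(B - 1 / 2), KF K x * g x =
      ∑ l ∈ Ico A B, ∫ x in ((l:ℝ) - 1 / 2)..(((l + 1 : ℕ) : ℝ) - 1 / 2), KF K x * g x := by
    rw [intervalIntegral.sum_integral_adjacent_intervals_Ico (a := fun n : ℕ => (n:ℝ) - 1 / 2) hAB]
    intro l hl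
    rw [Set.mem_Ico] at hl
    have h1 : (A:ℝ) ≤ l := by exact_mod_cast hl.1
    have h2 : (l:ℝ) + 1 ≤ B := by exact_mod_cast hl.2
    refine ContinuousOn.intervalIntegrable ?_
    rw [Set.uIcc_of_le (by push_cast; linarith)]
    refine (hic hKFc).mono (Set.Icc_subset_Icc (by linarith) (by push_cast; linarith))
  rw [hsplit, ← sum_sub_distrib]
  refine (norm_sum_le _ _).trans ?_
  have h1 : ∀ l ∈ Ico A B, ‖g l - ∫ x in ((l:ℝ) - 1 / 2)..(((l + 1 : ℕ) : ℝ) - 1 / 2), KF K x * g x‖ ≤ D * (1 / (2 * √K)) := by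
    intro l hl
    rw [mem_Ico] at hl
    have h1 : (A:ℝ) ≤ l := by exact_mod_cast hl.1
    have h2 : (l:ℝ) + 1 ≤ B := by exact_mod_cast hl.2
    rw [norm_sub_rev]
    have e1 : (((l + 1 : ℕ) : ℝ) - 1 / 2) = (l:ℝ) + 1 / 2 := by push_cast; ring
    rw [e1]
    refine cell hK hD l (fun x hx => ?_) (hgc.mono (Set.Icc_subset_Icc (by linarith) (by linarith)))
    exact hg x ⟨by linarith [hx.1], by linarith [hx.2]⟩ l ⟨by linarith, by linarith⟩
  refine (sum_le_sum h1).trans ?_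
  rw [sum_const, Nat.card_Ico, nsmul_eq_mul, Nat.cast_sub hAB]

end Pool.Agent.Zk6.QQ
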