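import Pool.Agent.Helper276.VdC

set_option autoImplicit false

/-! Weights of bounded variation and oscillatory integrals. -/

namespace Pool.Agent.Zk6.QQ

open MeasureTheory Set

/-- a smooth function, bounded by `B` and of variation at most `B` on `[a, b]` -/
structure BV (f f1 : ℝ → ℝ) (a b B : ℝ) : Prop where
  d : ∀ x, HasDerivAt f (f1 x) x
  c : Continuous f1
  s : ∀ x ∈ Icc a b, |f x| ≤ B
  v : ∫ x in a..b, |f1 x| ≤ B

namespace BV

variable {f f1 g g1 : ℝ → ℝ} {a b B C : ℝ}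

lemma cont (h : BV f f1 a b B) : Continuous f :=
  continuous_iff_continuousAt.mpr fun x => (h.d x).continuousAt

lemma nn (hab : a ≤ b) (h : BV f f1 a b B) : 0 ≤ B := (abs_nonneg _).trans (h.s a ⟨le_rfl, hab⟩)

lemma le (h : BV f f1 a b B) (hBC : B ≤ C) : BV f f1 a b C :=
  ⟨h.d, h.c, fun x hx => (h.s x hx).trans hBC, h.v.trans hBC⟩

lemma congr {g g1 : ℝ → ℝ} (h : BV f f1 a b B) (h1 : ∀ x, f x = g x) (h2 : ∀ x, f1 x = g1 x) : BV g g1 a b B := by
  have e1 : f = g := funext h1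
  have e2 : f1 = g1 := funext h2
  rw [← e1, ← e2]; exact h

lemma add (hab : a ≤ b) (h : BV f f1 a b B) (k : BV g g1 a b C) :
    BV (fun x => f x + g x) (fun x => f1 x + g1 x) a b (B + C) where
  d x := (h.d x).add (k.d x)
  c := h.c.add k.c
  s x hx := (abs_add_le _ _).trans (add_le_add (h.s x hx) (k.s x hx))
  v := by
    calc ∫ x in a..b, |f1 x + g1 x| ≤ ∫ x in a..b, (|f1 x| + |g1 x|) :=
          intervalIntegral.integral_mono_on hab ((h.c.add k.c).abs.intervalIntegrable _ _)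
            ((h.c.abs.add k.c.abs).intervalIntegrable _ _) fun x _ => abs_add_le _ _
      _ = (∫ x in a..b, |f1 x|) + ∫ x in a..b, |g1 x| :=
          intervalIntegral.integral_add (h.c.abs.intervalIntegrable _ _) (k.c.abs.intervalIntegrable _ _)
      _ ≤ _ := add_le_add h.v k.v

lemma mul (hab : a ≤ b) (h : BV f f1 a b B) (k : BV g g1 a b C) :
    BV (fun x => f x * g x) (fun x => f1 x * g x + f x * g1 x) a b (2 * (B * C)) where
  d x := (h.d x).mul (k.d x)
  c := (h.c.mul k.cont).add (h.cont.mul k.c)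
  s x hx := by
    have hB := h.nn hab
    have hC := k.nn hab
    rw [abs_mul]
    have := mul_le_mul (h.s x hx) (k.s x hx) (abs_nonneg _) hB
    nlinarith [mul_nonneg hB hC]
  v := by
    have hB := h.nn hab
    have hC := k.nn hab
    calc ∫ x in a..b, |f1 x * g x + f x * g1 x| ≤ ∫ x in a..b, (|f1 x| * C + B * |g1 x|) := by
          refine intervalIntegral.integral_mono_on hab (((h.c.mul k.cont).add (h.cont.mul k.c)).abs.intervalIntegrable _ _)
            (((h.c.abs.mul continuous_const).add (continuous_const.mul k.c.abs)).intervalIntegrable _ _) fun x hx => ?_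
          refine (abs_add_le _ _).trans ?_
          rw [abs_mul, abs_mul]
          exact add_le_add (mul_le_mul_of_nonneg_left (k.s x hx) (abs_nonneg _))
            (mul_le_mul_of_nonneg_right (h.s x hx) (abs_nonneg _))
      _ = (∫ x in a..b, |f1 x|) * C + B * ∫ x in a..b, |g1 x| := by
          have i1 : IntervalIntegrable (fun x => |f1 x| * C) volume a b :=
            (h.c.abs.mul continuous_const).intervalIntegrable _ _
          have i2 : IntervalIntegrable (fun x => B * |g1 x|) volume a b :=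
            (continuous_const.mul k.c.abs).intervalIntegrable _ _
          rw [intervalIntegral.integral_add i1 i2, intervalIntegral.integral_mul_const,
            intervalIntegral.integral_const_mul]
      _ ≤ B * C + B * C := add_le_add (mul_le_mul_of_nonneg_right h.v hC) (mul_le_mul_of_nonneg_left k.v hB)
      _ = _ := by ring

lemma const_mul (hab : a ≤ b) (c : ℝ) (h : BV f f1 a b B) :
    BV (fun x => c * f x) (fun x => c * f1 x) a b (|c| * B) where
  d x := (h.d x).const_mul c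
  c := continuous_const.mul h.c
  s x hx := by
    rw [abs_mul]; exact mul_le_mul_of_nonneg_left (h.s x hx) (abs_nonneg _)
  v := by
    have : ∀ x, |c * f1 x| = |c| * |f1 x| := fun x => abs_mul _ _
    simp_rw [this]
    rw [intervalIntegral.integral_const_mul]
    exact mul_le_mul_of_nonneg_left h.v (abs_nonneg _)

lemma const (hab : a ≤ b) (c : ℝ) : BV (fun _ => c) (fun _ => 0) a b |c| where
  d x := hasDerivAt_const x c
  c := continuous_const
  s x _ := le_rfl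
  v := by simp

/-- a function with derivative of constant sign -/
lemma of_nonneg (hab : a ≤ b) (d : ∀ x, HasDerivAt f (f1 x) x) (c : Continuous f1)
    (h1 : ∀ x ∈ Icc a b, 0 ≤ f1 x) (h0 : ∀ x ∈ Icc a b, 0 ≤ f x ∧ f x ≤ B) : BV f f1 a b B where
  d := d
  c := c
  s x hx := by rw [abs_of_nonneg (h0 x hx).1]; exact (h0 x hx).2
  v := by
    have e1 : ∫ x in a..b, |f1 x| = ∫ x in a..b, f1 x := by
      refine intervalIntegral.integral_congr fun x hx => ?_
      rw [uIcc_of_le hab] at hx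
      exact abs_of_nonneg (h1 x hx)
    rw [e1, intervalIntegral.integral_eq_sub_of_hasDerivAt (fun x _ => d x) (c.intervalIntegrable _ _)]
    have := h0 a ⟨le_rfl, hab⟩
    have := h0 b ⟨hab, le_rfl⟩
    linarith

lemma of_nonpos (hab : a ≤ b) (d : ∀ x, HasDerivAt f (f1 x) x) (c : Continuous f1)
    (h1 : ∀ x ∈ Icc a b, f1 x ≤ 0) (h0 : ∀ x ∈ Icc a b, 0 ≤ f x ∧ f x ≤ B) : BV f f1 a b B where
  d := d
  c := c
  s x hx := by rw [abs_of_nonneg (h0 x hx).1]; exact (h0 x hx).2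
  v := by
    have e1 : ∫ x in a..b, |f1 x| = ∫ x in a..b, -f1 x := by
      refine intervalIntegral.integral_congr fun x hx => ?_
      rw [uIcc_of_le hab] at hx
      exact abs_of_nonpos (h1 x hx)
    rw [e1, intervalIntegral.integral_neg, intervalIntegral.integral_eq_sub_of_hasDerivAt (fun x _ => d x)
      (c.intervalIntegrable _ _)]
    have := h0 a ⟨le_rfl, hab⟩
    have := h0 b ⟨hab, le_rfl⟩
    linarith

/-- a function whose derivative is dominated by the derivative of a bounded monotone function -/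
lemma of_dom {w w1 : ℝ → ℝ} (hab : a ≤ b) (d : ∀ x, HasDerivAt f (f1 x) x) (c : Continuous f1)
    (dw : ∀ x, HasDerivAt w (w1 x) x) (cw : Continuous w1) (h1 : ∀ x ∈ Icc a b, |f1 x| ≤ w1 x)
    (hw : w b - w a ≤ B) (h0 : ∀ x ∈ Icc a b, |f x| ≤ B) : BV f f1 a b B where
  d := d
  c := c
  s := h0
  v := by
    calc ∫ x in a..b, |f1 x| ≤ ∫ x in a..b, w1 x :=
          intervalIntegral.integral_mono_on hab (c.abs.intervalIntegrable _ _) (cw.intervalIntegrable _ _) h1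
      _ = w b - w a := intervalIntegral.integral_eq_sub_of_hasDerivAt (fun x _ => dw x) (cw.intervalIntegrable _ _)
      _ ≤ B := hw

end BV

/-- the weighted integral -/
lemma wt_int {f f1 : ℝ → ℝ} {a b B M : ℝ} (hab : a ≤ b) (h : BV f f1 a b B) {E : ℝ → ℂ} (hE : Continuous E)
    (hM : ∀ t ∈ Icc a b, ‖∫ x in a..t, E x‖ ≤ M) : ‖∫ x in a..b, (f x : ℂ) * E x‖ ≤ 2 * (B * M) := by
  have hB := h.nn hab
  have hM0 : 0 ≤ M := (norm_nonneg _).trans (hM a ⟨le_rfl, hab⟩)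
  have hv : ∀ x ∈ uIcc a b, HasDerivAt (fun t => ∫ x in a..t, E x) (E x) x := fun x _ =>
    intervalIntegral.integral_hasDerivAt_right (hE.intervalIntegrable _ _) (hE.stronglyMeasurableAtFilter _ _) hE.continuousAt
  have hu : ∀ x ∈ uIcc a b, HasDerivAt (fun t => ((f t : ℝ) : ℂ)) ((f1 x : ℝ) : ℂ) x := fun x _ => (h.d x).ofReal_comp
  rw [intervalIntegral.integral_mul_deriv_eq_deriv_mul hu hv
    ((Complex.continuous_ofReal.comp h.c).intervalIntegrable _ _) (hE.intervalIntegrable _ _)]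
  rw [intervalIntegral.integral_same, mul_zero, sub_zero]
  have h1 : ‖((f b : ℝ) : ℂ) * ∫ x in a..b, E x‖ ≤ B * M := by
    rw [norm_mul, Complex.norm_real, Real.norm_eq_abs]
    exact mul_le_mul (h.s b ⟨hab, le_rfl⟩) (hM b ⟨hab, le_rfl⟩) (norm_nonneg _) hB
  have h2 : ‖∫ x in a..b, ((f1 x : ℝ) : ℂ) * ∫ y in a..x, E y‖ ≤ B * M := by
    have h3 : ‖∫ x in a..b, ((f1 x : ℝ) : ℂ) * ∫ y in a..x, E y‖ ≤ ∫ x in a..b, |f1 x| * M := by
      refine intervalIntegral.norm_integral_le_of_norm_le hab (Filter.Eventually.of_forall fun x hx => ?_)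
        ((h.c.abs.mul continuous_const).intervalIntegrable _ _)
      rw [norm_mul, Complex.norm_real, Real.norm_eq_abs]
      exact mul_le_mul_of_nonneg_left (hM x ⟨hx.1.le, hx.2⟩) (abs_nonneg _)
    refine h3.trans ?_
    rw [intervalIntegral.integral_mul_const]
    exact mul_le_mul_of_nonneg_right h.v hM0
  refine (norm_sub_le _ _).trans ?_
  linarith

/-- the oscillating factor -/
noncomputable def E (Φ : ℝ → ℝ) (x : ℝ) : ℂ := Complex.exp (Complex.I * (Φ x : ℂ))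

lemma E_norm (Φ : ℝ → ℝ) (x : ℝ) : ‖E Φ x‖ = 1 := by unfold E; rw [mul_comm]; exact Complex.norm_exp_ofReal_mul_I _

lemma E_cont {Φ : ℝ → ℝ} (h : Continuous Φ) : Continuous (E Φ) := by unfold E; fun_prop

lemma E_deriv {Φ Φ1 : ℝ → ℝ} {x : ℝ} (h : HasDerivAt Φ (Φ1 x) x) :
    HasDerivAt (E Φ) (Complex.I * (Φ1 x : ℂ) * E Φ x) x := by
  have h1 := (h.ofReal_comp.const_mul Complex.I).cexp
  unfold E
  exact h1.congr_deriv (by ring)

/-- integration by parts against the derivative of the phase -/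
lemma parts0 {f f1 Φ Φ1 : ℝ → ℝ} {a b : ℝ} (hf : ∀ x, HasDerivAt f (f1 x) x) (hf1 : Continuous f1)
    (hΦ : ∀ x, HasDerivAt Φ (Φ1 x) x) (hΦ1 : Continuous Φ1) :
    Complex.I * ∫ x in a..b, ((f x * Φ1 x : ℝ) : ℂ) * E Φ x =
      (f b : ℂ) * E Φ b - (f a : ℂ) * E Φ a - ∫ x in a..b, (f1 x : ℂ) * E Φ x := by
  have hΦc : Continuous Φ := continuous_iff_continuousAt.mpr fun x => (hΦ x).continuousAt
  have h1 := intervalIntegral.integral_mul_deriv_eq_deriv_mul (a := a) (b := b)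
    (u := fun t => ((f t : ℝ) : ℂ)) (u' := fun x => ((f1 x : ℝ) : ℂ)) (v := E Φ)
    (v' := fun x => Complex.I * (Φ1 x : ℂ) * E Φ x) (fun x _ => (hf x).ofReal_comp) (fun x _ => E_deriv (hΦ x))
    ((Complex.continuous_ofReal.comp hf1).intervalIntegrable _ _)
    (Continuous.intervalIntegrable ((continuous_const.mul (Complex.continuous_ofReal.comp hΦ1)).mul (E_cont hΦc)) _ _)
  rw [← h1, ← intervalIntegral.integral_const_mul]
  refine intervalIntegral.integral_congr fun x _ => ?_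
  push_cast; ring

lemma parts1 {f f1 Φ Φ1 : ℝ → ℝ} {a b B : ℝ} (hab : a ≤ b) (h : BV f f1 a b B)
    (hΦ : ∀ x, HasDerivAt Φ (Φ1 x) x) (hΦ1 : Continuous Φ1) :
    ‖∫ x in a..b, ((f x * Φ1 x : ℝ) : ℂ) * E Φ x‖ ≤ 3 * B := by
  have hΦc : Continuous Φ := continuous_iff_continuousAt.mpr fun x => (hΦ x).continuousAt
  have h1 := parts0 (a := a) (b := b) h.d h.c hΦ hΦ1
  have h2 : ‖∫ x in a..b, ((f x * Φ1 x : ℝ) : ℂ) * E Φ x‖ = ‖Complex.I * ∫ x in a..b, ((f x * Φ1 x : ℝ) : ℂ) * E Φ x‖ := by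
    rw [norm_mul, Complex.norm_I, one_mul]
  rw [h2, h1]
  have k1 : ‖(f b : ℂ) * E Φ b‖ ≤ B := by
    rw [norm_mul, E_norm, mul_one, Complex.norm_real, Real.norm_eq_abs]; exact h.s b ⟨hab, le_rfl⟩
  have k2 : ‖(f a : ℂ) * E Φ a‖ ≤ B := by
    rw [norm_mul, E_norm, mul_one, Complex.norm_real, Real.norm_eq_abs]; exact h.s a ⟨le_rfl, hab⟩
  have k3 : ‖∫ x in a..b, (f1 x : ℂ) * E Φ x‖ ≤ B := by
    refine le_trans ?_ h.v
    refine intervalIntegral.norm_integral_le_of_norm_le hab (Filter.Eventually.of_forall fun x _ => ?_)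
      (h.c.abs.intervalIntegrable _ _)
    rw [norm_mul, E_norm, mul_one, Complex.norm_real, Real.norm_eq_abs]
  have k4 := norm_sub_le ((f b : ℂ) * E Φ b) ((f a : ℂ) * E Φ a)
  have k5 := norm_sub_le ((f b : ℂ) * E Φ b - (f a : ℂ) * E Φ a) (∫ x in a..b, (f1 x : ℂ) * E Φ x)
  linarith

lemma parts2 {f f1 f2 Φ Φ1 : ℝ → ℝ} {a b B M : ℝ} (hab : a ≤ b) (hf : ∀ x, HasDerivAt f (f1 x) x)
    (h : BV f1 f2 a b B) (hΦ : ∀ x, HasDerivAt Φ (Φ1 x) x) (hΦ1 : Continuous Φ1)
    (hM : ∀ t ∈ Icc a b, ‖∫ x in a..t, E Φ x‖ ≤ M) :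
    ‖∫ x in a..b, ((f x * Φ1 x : ℝ) : ℂ) * E Φ x‖ ≤ |f b| + |f a| + 2 * (B * M) := by
  have hΦc : Continuous Φ := continuous_iff_continuousAt.mpr fun x => (hΦ x).continuousAt
  have h1 := parts0 (a := a) (b := b) hf h.cont hΦ hΦ1
  have h2 : ‖∫ x in a..b, ((f x * Φ1 x : ℝ) : ℂ) * E Φ x‖ = ‖Complex.I * ∫ x in a..b, ((f x * Φ1 x : ℝ) : ℂ) * E Φ x‖ := by
    rw [norm_mul, Complex.norm_I, one_mul]
  rw [h2, h1]
  have k1 : ‖(f b : ℂ) * E Φ b‖ = |f b| := by
    rw [norm_mul, E_norm, mul_one, Complex.norm_real, Real.norm_eq_abs]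
  have k2 : ‖(f a : ℂ) * E Φ a‖ = |f a| := by
    rw [norm_mul, E_norm, mul_one, Complex.norm_real, Real.norm_eq_abs]
  have k3 := wt_int hab h (E_cont hΦc) hM
  have k4 := norm_sub_le ((f b : ℂ) * E Φ b) ((f a : ℂ) * E Φ a)
  have k5 := norm_sub_le ((f b : ℂ) * E Φ b - (f a : ℂ) * E Φ a) (∫ x in a..b, (f1 x : ℂ) * E Φ x)
  linarith

/-- first derivative test for every initial interval -/
lemma first_all {Φ Φ1 Φ2 : ℝ → ℝ} {a b l : ℝ} (hl : 0 < l) (h1 : ∀ x, HasDerivAt Φ (Φ1 x) x)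
    (h2 : ∀ x, HasDerivAt Φ1 (Φ2 x) x) (h2c : Continuous Φ2) (hpos : ∀ x ∈ Icc a b, 0 ≤ Φ2 x)
    (hlow : ∀ x ∈ Icc a b, l ≤ |Φ1 x|) : ∀ t ∈ Icc a b, ‖∫ x in a..t, E Φ x‖ ≤ 4 / l := by
  intro t ht
  exact Pool.Agent.Helper276.VdC.first_test ht.1 hl (fun x _ => h1 x) (fun x _ => h2 x) h2c.continuousOn
    (fun x hx => hpos x ⟨hx.1, hx.2.trans ht.2⟩) (fun x hx => hlow x ⟨hx.1, hx.2.trans ht.2⟩)

lemma second_all {Φ Φ1 Φ2 : ℝ → ℝ} {a b m : ℝ} (hm : 0 < m) (h1 : ∀ x, HasDerivAt Φ (Φ1 x) x)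
    (h2 : ∀ x, HasDerivAt Φ1 (Φ2 x) x) (h2c : Continuous Φ2)
    (hlow : ∀ x ∈ Icc a b, m ≤ Φ2 x) : ∀ t ∈ Icc a b, ‖∫ x in a..t, E Φ x‖ ≤ 8 / √m := by
  intro t ht
  exact Pool.Agent.Helper276.VdC.second_test_pos ht.1 hm (fun x _ => h1 x) (fun x _ => h2 x) h2c.continuousOn
    (fun x hx => hlow x ⟨hx.1, hx.2.trans ht.2⟩)

end Pool.Agent.Zk6.QQ
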