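import Pool.Agent.Zk6.Q3
import Pool.Agent.Zk6.Q2

set_option autoImplicit false

/-! The amplitude and the phase of the transformed sum. -/

namespace Pool.Agent.Zk6.QQ

open MeasureTheory Set
open Pool.Agent.Y969.GP (V V1)

noncomputable def ell (u : ℝ) : ℝ := Real.log (1 + Real.exp (-u))
noncomputable def ww (u : ℝ) : ℝ := 1 / (1 + Real.exp u)

lemma ww_pos (u : ℝ) : 0 < ww u := by unfold ww; positivity
lemma ww_lt (u : ℝ) : ww u < 1 := by
  unfold ww
  rw [div_lt_one (by positivity)]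
  have := Real.exp_pos u
  linarith
lemma ww_le (u : ℝ) : ww u ≤ Real.exp (-u) := by
  unfold ww
  rw [Real.exp_neg, ← one_div]
  have := Real.exp_pos u
  exact one_div_le_one_div_of_le this (by linarith)

lemma ww_cont : Continuous ww := by
  unfold ww
  refine continuous_const.div (by fun_prop) fun u => ?_
  have := Real.exp_pos u
  positivity

lemma ell_cont : Continuous ell := by
  unfold ell
  refine Continuous.log (by fun_prop) fun u => ?_
  have := Real.exp_pos (-u)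
  positivity

lemma ell_nn (u : ℝ) : 0 ≤ ell u := by
  unfold ell
  refine Real.log_nonneg ?_
  have := Real.exp_pos (-u)
  linarith

lemma ell_le (u : ℝ) : ell u ≤ Real.exp (-u) := by
  unfold ell
  have h1 := Real.exp_pos (-u)
  have := Real.log_le_sub_one_of_pos (show 0 < 1 + Real.exp (-u) by linarith)
  linarith

lemma ell_d (u : ℝ) : HasDerivAt ell (-ww u) u := by
  unfold ell
  have h1 : HasDerivAt (fun u : ℝ => 1 + Real.exp (-u)) (-Real.exp (-u)) u := by
    have := ((hasDerivAt_id u).neg.exp).const_add 1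
    simpa using this
  have h2 := h1.log (by have := Real.exp_pos (-u); positivity)
  refine h2.congr_deriv ?_
  unfold ww
  have e1 : Real.exp (-u) = 1 / Real.exp u := by rw [Real.exp_neg, one_div]
  rw [e1]
  have := Real.exp_pos u
  field_simp
  ring

lemma ww_d (u : ℝ) : HasDerivAt ww (-(ww u * (1 - ww u))) u := by
  unfold ww
  have h1 : HasDerivAt (fun u : ℝ => 1 + Real.exp u) (Real.exp u) u := (Real.hasDerivAt_exp u).const_add 1
  have h2 := (hasDerivAt_const u (1:ℝ)).div h1 (by have := Real.exp_pos u; positivity)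
  refine h2.congr_deriv ?_
  have := Real.exp_pos u
  field_simp
  ring

/-- the first factor -/
noncomputable def pp (H u : ℝ) : ℝ := Real.exp (-(ell u) / 2 - H ^ 2 / 4 * ell u ^ 2)

lemma pp_d (H u : ℝ) : HasDerivAt (pp H) (pp H u * (ww u * (1 / 2 + H ^ 2 / 2 * ell u))) u := by
  unfold pp
  have h1 : HasDerivAt (fun u : ℝ => -(ell u) / 2 - H ^ 2 / 4 * ell u ^ 2)
      (-(-ww u) / 2 - H ^ 2 / 4 * (2 * ell u ^ 1 * (-ww u))) u := by
    have h2 := ((ell_d u).neg.div_const 2)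
    have h3 := ((ell_d u).pow 2).const_mul (H ^ 2 / 4)
    exact (h2.sub h3).congr_deriv (by simp)
  exact h1.exp.congr_deriv (by ring)

lemma pp_pos (H u : ℝ) : 0 < pp H u := Real.exp_pos _
lemma pp_le (H u : ℝ) : pp H u ≤ 1 := by
  unfold pp
  rw [Real.exp_le_one_iff]
  have h1 := ell_nn u
  nlinarith [mul_nonneg (sq_nonneg H) (sq_nonneg (ell u))]

lemma pp_cont (H : ℝ) : Continuous (pp H) := by
  unfold pp; have := ell_cont; fun_prop

/-- the logarithm of the argument of the smooth cut-off -/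
noncomputable def Lc (c u : ℝ) : ℝ := c + 2 * u + ell u

lemma Lc_d (c u : ℝ) : HasDerivAt (Lc c) (2 - ww u) u := by
  unfold Lc
  have h1 := (((hasDerivAt_id u).const_mul 2).const_add c).add (ell_d u)
  refine h1.congr_deriv ?_
  ring

noncomputable def E2 (c u : ℝ) : ℝ := Real.exp (-(Lc c u) ^ 2 / 4)

lemma E2_d (c u : ℝ) : HasDerivAt (E2 c) (-(Lc c u / 2) * (2 - ww u) * E2 c u) u := by
  unfold E2
  have h1 : HasDerivAt (fun u => -(Lc c u) ^ 2 / 4) (-(2 * Lc c u ^ 1 * (2 - ww u)) / 4) u := by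
    simpa using (((Lc_d c u).pow 2).neg.div_const 4)
  exact h1.exp.congr_deriv (by ring)

lemma E2_pos (c u : ℝ) : 0 < E2 c u := Real.exp_pos _
lemma E2_le (c u : ℝ) : E2 c u ≤ 1 := by
  unfold E2; rw [Real.exp_le_one_iff]; nlinarith [sq_nonneg (Lc c u)]

lemma Lc_cont (c : ℝ) : Continuous (Lc c) := by unfold Lc; have := ell_cont; fun_prop
lemma E2_cont (c : ℝ) : Continuous (E2 c) := by unfold E2; have := Lc_cont c; fun_prop

noncomputable def g2 (c u : ℝ) : ℝ := V (Real.exp (Lc c u))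

lemma g2_d (c u : ℝ) : HasDerivAt (g2 c) (-((2 * √Real.pi)⁻¹ * (E2 c u * (2 - ww u)))) u := by
  unfold g2
  have h1 := Pool.Agent.Y587.GP.t_V.2.1 (Real.exp (Lc c u)) (Real.exp_pos _)
  have h2 := HasDerivAt.comp u h1 (Lc_d c u).exp
  refine h2.congr_deriv ?_
  unfold V1 E2
  rw [Real.log_exp]
  have := Real.exp_pos (Lc c u)
  field_simp

lemma g2_nn (c u : ℝ) : 0 ≤ g2 c u := V_nn (Real.exp_pos _)
lemma g2_le (c u : ℝ) : g2 c u ≤ 1 := V_le (Real.exp_pos _)

section bv

variable {a b : ℝ}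

lemma bv_w (hab : a ≤ b) : BV ww (fun u => -(ww u * (1 - ww u))) a b (Real.exp (-a)) :=
  BV.of_nonpos hab ww_d ((ww_cont.mul (continuous_const.sub ww_cont)).neg)
    (fun x _ => by have := ww_pos x; have := ww_lt x; nlinarith)
    (fun x hx => ⟨(ww_pos x).le, (ww_le x).trans (Real.exp_le_exp.mpr (by linarith [hx.1]))⟩)

lemma bv_ell (hab : a ≤ b) : BV ell (fun u => -ww u) a b (Real.exp (-a)) :=
  BV.of_nonpos hab ell_d ww_cont.neg (fun x _ => by have := ww_pos x; linarith)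
    (fun x hx => ⟨ell_nn x, (ell_le x).trans (Real.exp_le_exp.mpr (by linarith [hx.1]))⟩)

lemma bv_pp (hab : a ≤ b) (H : ℝ) : BV (pp H) (fun u => pp H u * (ww u * (1 / 2 + H ^ 2 / 2 * ell u))) a b 1 :=
  BV.of_nonneg hab (pp_d H) (by have := pp_cont H; have := ww_cont; have := ell_cont; fun_prop)
    (fun x _ => by
      have := pp_pos H x; have := ww_pos x; have := ell_nn x; positivity)
    (fun x _ => ⟨(pp_pos H x).le, pp_le H x⟩)

lemma pi_inv : (2 * √Real.pi)⁻¹ ≤ 1 := by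
  have h1 : 1 ≤ √Real.pi := Real.one_le_sqrt.mpr (by have := Real.pi_gt_three; linarith)
  exact inv_le_one_of_one_le₀ (by linarith)

lemma bv_g2 (hab : a ≤ b) (c : ℝ) : BV (g2 c) (fun u => -((2 * √Real.pi)⁻¹ * (E2 c u * (2 - ww u)))) a b 1 :=
  BV.of_nonpos hab (g2_d c) (by have := E2_cont c; have := ww_cont; fun_prop)
    (fun x _ => by
      have := E2_pos c x; have := ww_lt x
      have h2 : 0 ≤ (2 * √Real.pi)⁻¹ * (E2 c x * (2 - ww x)) := by
        have : 0 < 2 - ww x := by linarith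
        positivity
      linarith)
    (fun x _ => ⟨g2_nn c x, g2_le c x⟩)

lemma bv_2w (hab : a ≤ b) : BV (fun u => 2 - ww u) (fun u => ww u * (1 - ww u)) a b 2 :=
  BV.of_nonneg hab (fun x => ((ww_d x).const_sub 2).congr_deriv (by ring)) (ww_cont.mul (continuous_const.sub ww_cont))
    (fun x _ => by have := ww_pos x; have := ww_lt x; nlinarith)
    (fun x _ => ⟨by have := ww_lt x; linarith, by have := ww_pos x; linarith⟩)

lemma poly_exp (L : ℝ) : |L| * (1 + L ^ 2) * Real.exp (-L ^ 2 / 4) ≤ 16 := by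
  have h1 := Real.quadratic_le_exp_of_nonneg (show 0 ≤ L ^ 2 / 4 by positivity)
  have h2 : Real.exp (-L ^ 2 / 4) = (Real.exp (L ^ 2 / 4))⁻¹ := by rw [← Real.exp_neg]; congr 1; ring
  rw [h2, ← div_eq_mul_inv, div_le_iff₀ (Real.exp_pos _)]
  have h3 : |L| ≤ (1 + L ^ 2) / 2 := by
    have := sq_nonneg (|L| - 1)
    have h4 := sq_abs L
    nlinarith
  have h5 : |L| * (1 + L ^ 2) ≤ (1 + L ^ 2) / 2 * (1 + L ^ 2) := mul_le_mul_of_nonneg_right h3 (by positivity)
  nlinarith [sq_nonneg (L ^ 2), sq_nonneg L]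

lemma bv_E2 (hab : a ≤ b) (c : ℝ) : BV (E2 c) (fun u => -(Lc c u / 2) * (2 - ww u) * E2 c u) a b 32 := by
  refine BV.of_dom (w := fun u => 8 * Real.arctan (Lc c u)) (w1 := fun u => 8 * (1 / (1 + Lc c u ^ 2) * (2 - ww u))) hab
    (E2_d c) (by have := E2_cont c; have := ww_cont; have := Lc_cont c; fun_prop) ?_ ?_ ?_ ?_ ?_
  · intro x
    exact ((Lc_d c x).arctan).const_mul 8
  · have := ww_cont
    have := Lc_cont c
    refine continuous_const.mul (Continuous.mul ?_ (by fun_prop))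
    refine continuous_const.div (by fun_prop) fun x => ?_
    positivity
  · intro x _
    have h1 := poly_exp (Lc c x)
    have h2 : 0 < 2 - ww x := by have := ww_lt x; linarith
    have h3 := E2_pos c x
    rw [abs_mul, abs_mul, abs_of_pos h2, abs_of_pos h3, abs_neg, abs_div, abs_of_pos (show (0:ℝ) < 2 by norm_num)]
    have h4 : |Lc c x| * E2 c x ≤ 16 * (1 / (1 + Lc c x ^ 2)) := by
      rw [mul_one_div, le_div_iff₀ (by positivity)]
      unfold E2
      calc _ = |Lc c x| * (1 + Lc c x ^ 2) * Real.exp (-Lc c x ^ 2 / 4) := by ring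
        _ ≤ 16 := h1
    calc |Lc c x| / 2 * (2 - ww x) * E2 c x = (|Lc c x| * E2 c x) * ((2 - ww x) / 2) := by ring
      _ ≤ (16 * (1 / (1 + Lc c x ^ 2))) * ((2 - ww x) / 2) := mul_le_mul_of_nonneg_right h4 (by positivity)
      _ = _ := by ring
  · have h1 := Real.arctan_lt_pi_div_two (Lc c b)
    have h2 := Real.neg_pi_div_two_lt_arctan (Lc c a)
    have h3 := Real.pi_lt_four
    linarith
  · intro x _
    rw [abs_of_pos (E2_pos c x)]
    have := E2_le c x
    linarith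

/-- the amplitude -/
noncomputable def GG (H c u : ℝ) : ℝ := g2 c u * pp H u

/-- its derivative -/
noncomputable def GG1 (H c u : ℝ) : ℝ :=
  -((2 * √Real.pi)⁻¹ * (E2 c u * (2 - ww u))) * pp H u + g2 c u * (pp H u * (ww u * (1 / 2 + H ^ 2 / 2 * ell u)))

lemma bv_GG (hab : a ≤ b) (H c : ℝ) : BV (GG H c) (GG1 H c) a b 2 := by
  have := (bv_g2 hab c).mul hab (bv_pp hab H)
  refine (this.le (by norm_num)).congr (fun x => rfl) (fun x => rfl)

/-- second derivative of the amplitude: the variation of the derivative -/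
lemma bv_GG1 (hab : a ≤ b) (ha : 0 ≤ a) {H Δ : ℝ} (hH : 0 ≤ H) (hΔ : H * Real.exp (-a) ≤ Δ) (c : ℝ) :
    ∃ G2 : ℝ → ℝ, BV (GG1 H c) G2 a b (260 + 4 * Δ ^ 2) := by
  have hea : Real.exp (-a) ≤ 1 := by rw [Real.exp_le_one_iff]; linarith
  have hΔ0 : 0 ≤ Δ := le_trans (by positivity) hΔ
  -- the first part
  have k1 := (((bv_E2 hab c).mul hab (bv_2w hab)).const_mul hab (-(2 * √Real.pi)⁻¹)).mul hab (bv_pp hab H)
  -- the second part
  have k2 := (bv_w hab).const_mul hab H
  have k3 := (bv_ell hab).const_mul hab H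
  rw [abs_of_nonneg hH] at k2 k3
  have k4 := ((k2.le hΔ).mul hab (k3.le hΔ)).const_mul hab (1 / 2)
  have k5 := (bv_w hab).const_mul hab (1 / 2)
  have k6 := (bv_GG hab H c).mul hab (k5.add hab k4)
  have k7 := k1.add hab k6
  refine ⟨_, BV.congr (k7.le (C := 260 + 4 * Δ ^ 2) ?_) (fun x => ?_) (fun x => rfl)⟩
  · have h1 := pi_inv
    have h0 : 0 ≤ (2 * √Real.pi)⁻¹ := by positivity
    rw [abs_neg, abs_of_nonneg h0, abs_of_nonneg (show (0:ℝ) ≤ 1 / 2 by norm_num)]
    nlinarith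
  · simp only [GG, GG1]
    ring

end bv

/-- the auxiliary multiplier -/
noncomputable def hh (s u : ℝ) : ℝ := (1 + Real.exp u) / (Real.exp u + s)
noncomputable def hh1 (s u : ℝ) : ℝ := (s - 1) * Real.exp u / (Real.exp u + s) ^ 2
noncomputable def hh2 (s u : ℝ) : ℝ := (s - 1) * Real.exp u * (s - Real.exp u) / (Real.exp u + s) ^ 3

lemma hh_d {s : ℝ} (hs : 1 ≤ s) (u : ℝ) : HasDerivAt (hh s) (hh1 s u) u := by
  have hp : 0 < Real.exp u + s := by have := Real.exp_pos u; linarith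
  have h1 := ((Real.hasDerivAt_exp u).const_add 1).div ((Real.hasDerivAt_exp u).add_const s) hp.ne'
  refine h1.congr_deriv ?_
  unfold hh1
  congr 1
  ring

lemma hh1_d {s : ℝ} (hs : 1 ≤ s) (u : ℝ) : HasDerivAt (hh1 s) (hh2 s u) u := by
  have hp : 0 < Real.exp u + s := by have := Real.exp_pos u; linarith
  have h2 : HasDerivAt (fun u => (Real.exp u + s) ^ 2) (2 * (Real.exp u + s) * Real.exp u) u := by
    exact (((Real.hasDerivAt_exp u).add_const s).pow 2).congr_deriv (by simp)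
  have h1 := ((Real.hasDerivAt_exp u).const_mul (s - 1)).div h2 (by positivity)
  refine h1.congr_deriv ?_
  unfold hh2
  rw [div_eq_div_iff (by positivity) (by positivity)]
  ring

lemma hh1_cont {s : ℝ} (hs : 1 ≤ s) : Continuous (hh1 s) :=
  continuous_iff_continuousAt.mpr fun u => (hh1_d hs u).continuousAt

lemma hh2_cont {s : ℝ} (hs : 1 ≤ s) : Continuous (hh2 s) := by
  unfold hh2
  refine Continuous.div (by fun_prop) (by fun_prop) fun u => ?_
  have hp : 0 < Real.exp u + s := by have := Real.exp_pos u; linarith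
  positivity

lemma hh_mem {s : ℝ} (hs : 1 ≤ s) (u : ℝ) : 0 ≤ hh s u ∧ hh s u ≤ 1 := by
  have h0 := Real.exp_pos u
  have hp : 0 < Real.exp u + s := by linarith
  unfold hh
  exact ⟨by positivity, by rw [div_le_one hp]; linarith⟩

lemma hh1_mem {s : ℝ} (hs : 1 ≤ s) (u : ℝ) : 0 ≤ hh1 s u ∧ hh1 s u ≤ 1 := by
  have h0 := Real.exp_pos u
  have hp : 0 < Real.exp u + s := by linarith
  unfold hh1
  constructor
  · have : 0 ≤ s - 1 := by linarith
    positivity
  · rw [div_le_one (by positivity)]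
    nlinarith

lemma bv_hh {a b : ℝ} (hab : a ≤ b) {s : ℝ} (hs : 1 ≤ s) : BV (hh s) (hh1 s) a b 1 :=
  BV.of_nonneg hab (hh_d hs) (hh1_cont hs) (fun x _ => (hh1_mem hs x).1) (fun x _ => hh_mem hs x)

lemma bv_hh1 {a b : ℝ} (hab : a ≤ b) {s : ℝ} (hs : 1 ≤ s) : BV (hh1 s) (hh2 s) a b 1 := by
  refine BV.of_dom hab (hh1_d hs) (hh2_cont hs) (hh_d hs) (hh1_cont hs) ?_ ?_ ?_
  · intro x _
    have h0 := Real.exp_pos x
    have hp : 0 < Real.exp x + s := by linarith
    have h1 : hh2 s x = hh1 s x * ((s - Real.exp x) / (Real.exp x + s)) := by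
      unfold hh2 hh1; field_simp
    rw [h1, abs_mul, abs_of_nonneg (hh1_mem hs x).1]
    have h2 : |(s - Real.exp x) / (Real.exp x + s)| ≤ 1 := by
      rw [abs_div, abs_of_pos hp, div_le_one hp, abs_le]
      constructor <;> linarith
    calc _ ≤ hh1 s x * 1 := mul_le_mul_of_nonneg_left h2 (hh1_mem hs x).1
      _ = _ := mul_one _
  · have := (hh_mem hs b).2
    have := (hh_mem hs a).1
    linarith
  · intro x _
    rw [abs_of_nonneg (hh1_mem hs x).1]
    exact (hh1_mem hs x).2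

/-- the product with the multiplier -/
lemma bv_hG {a b : ℝ} (hab : a ≤ b) (ha : 0 ≤ a) {H Δ s : ℝ} (hs : 1 ≤ s) (hH : 0 ≤ H) (hΔ : H * Real.exp (-a) ≤ Δ) (c : ℝ) :
    ∃ F2 : ℝ → ℝ, (∀ u, HasDerivAt (fun u => hh s u * GG H c u) (hh1 s u * GG H c u + hh s u * GG1 H c u) u) ∧
      BV (fun u => hh1 s u * GG H c u + hh s u * GG1 H c u) F2 a b (524 + 8 * Δ ^ 2) := by
  obtain ⟨G2, hG2⟩ := bv_GG1 hab ha hH hΔ c
  have k1 := ((bv_hh1 hab hs).mul hab (bv_GG hab H c)).add hab ((bv_hh hab hs).mul hab hG2)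
  exact ⟨_, fun u => ((bv_hh hab hs).mul hab (bv_GG hab H c)).d u, k1.le (by nlinarith)⟩

end Pool.Agent.Zk6.QQ
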