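import Pool.Agent.Zk6.Q4

set_option autoImplicit false

/-! The transformed integrals. -/

namespace Pool.Agent.Zk6.QQ

open MeasureTheory Set Filter Topology
open Pool.Agent.Y969.GP (V V1)

/-- the phase -/
noncomputable def Ph (T η u : ℝ) : ℝ := T * ell u + η * Real.exp u
noncomputable def Ph1 (T η u : ℝ) : ℝ := -(T * ww u) + η * Real.exp u
noncomputable def Ph2 (T η u : ℝ) : ℝ := T * (ww u * (1 - ww u)) + η * Real.exp u

lemma Ph_d (T η u : ℝ) : HasDerivAt (Ph T η) (Ph1 T η u) u := by
  unfold Ph Ph1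
  exact (((ell_d u).const_mul T).add ((Real.hasDerivAt_exp u).const_mul η)).congr_deriv (by ring)

lemma Ph1_d (T η u : ℝ) : HasDerivAt (Ph1 T η) (Ph2 T η u) u := by
  unfold Ph1 Ph2
  exact ((((ww_d u).const_mul T).neg).add ((Real.hasDerivAt_exp u).const_mul η)).congr_deriv (by ring)

lemma Ph_cont (T η : ℝ) : Continuous (Ph T η) := by unfold Ph; have := ell_cont; fun_prop
lemma Ph1_cont (T η : ℝ) : Continuous (Ph1 T η) := by unfold Ph1; have := ww_cont; fun_prop
lemma Ph2_cont (T η : ℝ) : Continuous (Ph2 T η) := by unfold Ph2; have := ww_cont; fun_prop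

lemma GG_cont (H c : ℝ) : Continuous (GG H c) := (bv_GG (le_refl (0:ℝ)) H c).cont
lemma GG_nn (H c u : ℝ) : 0 ≤ GG H c u := mul_nonneg (g2_nn c u) (pp_pos H u).le
lemma GG_le1 (H c u : ℝ) : GG H c u ≤ g2 c u := by
  unfold GG
  have := g2_nn c u
  have := pp_le H u
  nlinarith
lemma GG_le2 (H c u : ℝ) : GG H c u ≤ pp H u := by
  unfold GG
  have := g2_le c u
  have := pp_pos H u
  nlinarith

/-- the integrals -/
noncomputable def TrI (T H c η a b : ℝ) : ℂ := ∫ u in a..b, (GG H c u : ℂ) * E (Ph T η) u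

lemma ww_lower {u : ℝ} (hu : 0 ≤ u) : Real.exp (-u) / 2 ≤ ww u := by
  unfold ww
  rw [Real.exp_neg, ← one_div, div_div]
  have h1 := Real.one_le_exp hu
  exact one_div_le_one_div_of_le (by positivity) (by linarith)

lemma Ph2_low {T η u : ℝ} (hT : 0 < T) (hη : 0 < η) (hu : 0 ≤ u) : √(T * η) ≤ Ph2 T η u := by
  unfold Ph2
  have h1 := ww_lower hu
  have h2 : 1 / 2 ≤ 1 - ww u := by
    unfold ww
    have h3 := Real.one_le_exp hu
    have : 1 / (1 + Real.exp u) ≤ 1 / 2 := one_div_le_one_div_of_le (by norm_num) (by linarith)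
    linarith
  have h3 : Real.exp (-u) / 4 ≤ ww u * (1 - ww u) := by
    have h0 := Real.exp_pos (-u)
    nlinarith
  have hx := Real.exp_pos u
  have hx' := Real.exp_pos (-u)
  have hxx : Real.exp u * Real.exp (-u) = 1 := by rw [← Real.exp_add]; simp
  have h4 : √(T * η) ≤ T * (Real.exp (-u) / 4) + η * Real.exp u := by
    apply Real.sqrt_le_iff.mpr
    refine ⟨by positivity, ?_⟩
    have : T * η = 4 * (T * (Real.exp (-u) / 4)) * (η * Real.exp u) := by
      have : 4 * (T * (Real.exp (-u) / 4)) * (η * Real.exp u) = T * η * (Real.exp u * Real.exp (-u)) := by ring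
      rw [this, hxx, mul_one]
    rw [this]
    nlinarith [sq_nonneg (T * (Real.exp (-u) / 4) - η * Real.exp u)]
  have := mul_le_mul_of_nonneg_left h3 hT.le
  linarith

/-- all initial integrals of the phase -/
lemma Ph_init {T η a b : ℝ} (hT : 0 < T) (hη : 0 < η) (ha : 0 ≤ a) :
    ∀ t ∈ Icc a b, ‖∫ x in a..t, E (Ph T η) x‖ ≤ 8 / √(√(T * η)) :=
  second_all (by positivity) (Ph_d T η) (Ph1_d T η) (Ph2_cont T η) fun x hx => Ph2_low hT hη (ha.trans hx.1)

lemma II_stat {T H c η a b : ℝ} (hT : 0 < T) (hη : 0 < η) (ha : 0 ≤ a) (hab : a ≤ b) :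
    ‖TrI T H c η a b‖ ≤ 32 / √(√(T * η)) := by
  have h1 := wt_int hab (bv_GG hab H c) (E_cont (Ph_cont T η)) (Ph_init hT hη ha)
  refine h1.trans (le_of_eq ?_)
  ring

lemma II_large {T H c η a b : ℝ} (hT : 0 < T) (hη : 0 < η) (hab : a ≤ b)
    (h : 2 * T * Real.exp (-a) ≤ η * Real.exp a) : ‖TrI T H c η a b‖ ≤ 32 / (η * Real.exp a) := by
  have hea := Real.exp_pos a
  have hl : 0 < η * Real.exp a / 2 := by positivity
  have hM := first_all (b := b) hl (Ph_d T η) (Ph1_d T η) (Ph2_cont T η) (fun x _ => by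
      unfold Ph2
      have := ww_pos x; have := ww_lt x
      have h1 : 0 ≤ 1 - ww x := by linarith
      have := Real.exp_pos x
      positivity) (fun x hx => by
      unfold Ph1
      refine le_trans ?_ (le_abs_self _)
      have h1 : Real.exp a ≤ Real.exp x := Real.exp_le_exp.mpr hx.1
      have h2 : ww x ≤ Real.exp (-a) := (ww_le x).trans (Real.exp_le_exp.mpr (by linarith [hx.1]))
      have h3 : η * Real.exp a ≤ η * Real.exp x := mul_le_mul_of_nonneg_left h1 hη.le
      have h4 : T * ww x ≤ T * Real.exp (-a) := mul_le_mul_of_nonneg_left h2 hT.le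
      linarith)
  have h1 := wt_int hab (bv_GG hab H c) (E_cont (Ph_cont T η)) hM
  refine h1.trans (le_of_eq ?_)
  field_simp
  norm_num

lemma II_zero {T H c a b : ℝ} (hT : 0 < T) (ha : 0 ≤ a) (hab : a ≤ b) :
    ‖TrI T H c 0 a b‖ ≤ 32 * Real.exp b / T := by
  have heb := Real.exp_pos b
  have hl : 0 < T * Real.exp (-b) / 2 := by positivity
  have hM := first_all (b := b) hl (Ph_d T 0) (Ph1_d T 0) (Ph2_cont T 0) (fun x _ => by
      unfold Ph2
      have := ww_pos x; have := ww_lt x
      have h1 : 0 ≤ 1 - ww x := by linarith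
      positivity) (fun x hx => by
      unfold Ph1
      rw [zero_mul, add_zero, abs_neg, abs_of_pos (mul_pos hT (ww_pos x))]
      have h1 := ww_lower (ha.trans hx.1)
      have h2 : Real.exp (-b) ≤ Real.exp (-x) := Real.exp_le_exp.mpr (by linarith [hx.2])
      have h3 : Real.exp (-b) / 2 ≤ ww x := by linarith
      calc T * Real.exp (-b) / 2 = T * (Real.exp (-b) / 2) := by ring
        _ ≤ _ := mul_le_mul_of_nonneg_left h3 hT.le)
  have h1 := wt_int hab (bv_GG hab H c) (E_cont (Ph_cont T 0)) hM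
  refine h1.trans (le_of_eq ?_)
  rw [Real.exp_neg]
  field_simp
  norm_num

lemma II_neg {T H c μ a b : ℝ} (hT : 0 < T) (hμ : 0 < μ) (hab : a ≤ b) :
    ‖TrI T H c (-μ) a b‖ ≤ 12 / (μ * Real.exp a) := by
  have hpos : ∀ u, 0 < T * ww u + μ * Real.exp u := fun u => by
    have := ww_pos u; have := Real.exp_pos u; positivity
  -- the reciprocal
  set q : ℝ → ℝ := fun u => (T * ww u + μ * Real.exp u)⁻¹ with hq
  set q1 : ℝ → ℝ := fun u => -(-(T * (ww u * (1 - ww u))) + μ * Real.exp u) / (T * ww u + μ * Real.exp u) ^ 2 with hq1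
  have hd : ∀ u, HasDerivAt q (q1 u) u := by
    intro u
    have h1 : HasDerivAt (fun u => T * ww u + μ * Real.exp u) (-(T * (ww u * (1 - ww u))) + μ * Real.exp u) u :=
      (((ww_d u).const_mul T).add ((Real.hasDerivAt_exp u).const_mul μ)).congr_deriv (by ring)
    exact h1.inv (hpos u).ne'
  have hq1c : Continuous q1 := by
    rw [hq1]
    have := ww_cont
    refine Continuous.div (by fun_prop) (by fun_prop) fun u => ?_
    have := hpos u
    positivity
  have hqle : ∀ u, q u ≤ Real.exp (-u) / μ := by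
    intro u
    rw [hq]
    simp only
    rw [Real.exp_neg, inv_eq_one_div, inv_eq_one_div, div_div]
    have := Real.exp_pos u
    have := ww_pos u
    exact one_div_le_one_div_of_le (by positivity) (by nlinarith)
  have hbv : BV q q1 a b (Real.exp (-a) / μ) := by
    refine BV.of_dom (w := fun u => -(Real.exp (-u) / μ)) (w1 := fun u => Real.exp (-u) / μ) hab hd hq1c ?_ (by fun_prop) ?_ ?_ ?_
    · intro u
      have h1 : HasDerivAt (fun u : ℝ => Real.exp (-u)) (-Real.exp (-u)) u := by
        have := (hasDerivAt_id u).neg.exp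
        simpa using this
      exact ((h1.div_const μ).neg).congr_deriv (by ring)
    · intro u _
      refine le_trans ?_ (hqle u)
      rw [hq1, hq]
      simp only
      have hp := hpos u
      rw [abs_div, abs_of_pos (show 0 < (T * ww u + μ * Real.exp u) ^ 2 by positivity), div_le_iff₀ (by positivity)]
      have e1 : (T * ww u + μ * Real.exp u)⁻¹ * (T * ww u + μ * Real.exp u) ^ 2 = T * ww u + μ * Real.exp u := by
        field_simp
      rw [e1, abs_neg, abs_le]
      have w0 := ww_pos u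
      have w1 := ww_lt u
      have e0 := Real.exp_pos u
      have h2 : T * (ww u * (1 - ww u)) ≤ T * ww u := by
        refine mul_le_mul_of_nonneg_left ?_ hT.le
        nlinarith
      have h3 : 0 ≤ T * (ww u * (1 - ww u)) := by
        have : 0 ≤ 1 - ww u := by linarith
        positivity
      have h4 : 0 < μ * Real.exp u := by positivity
      have h5 : 0 < T * ww u := by positivity
      constructor <;> linarith
    · have := Real.exp_pos (-b)
      have h1 : 0 < Real.exp (-b) / μ := by positivity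
      linarith
    · intro u hu
      rw [abs_of_pos (by rw [hq]; exact inv_pos.mpr (hpos u))]
      refine (hqle u).trans ?_
      exact div_le_div_of_nonneg_right (Real.exp_le_exp.mpr (by linarith [hu.1])) hμ.le
  have hbv2 := ((bv_GG hab H c).mul hab hbv).const_mul hab (-1)
  have h1 := parts1 hab hbv2 (Ph_d T (-μ)) (Ph1_cont T (-μ))
  have e1 : TrI T H c (-μ) a b = ∫ u in a..b, ((-1 * (GG H c u * q u) * Ph1 T (-μ) u : ℝ) : ℂ) * E (Ph T (-μ)) u := by
    unfold TrI
    refine intervalIntegral.integral_congr fun u _ => ?_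
    have h2 : -1 * (GG H c u * q u) * Ph1 T (-μ) u = GG H c u := by
      rw [hq]
      simp only
      have hp := (hpos u).ne'
      unfold Ph1
      field_simp
      ring
    rw [h2]
  rw [e1]
  refine h1.trans (le_of_eq ?_)
  rw [abs_neg, abs_one, Real.exp_neg]
  field_simp
  norm_num

/-- the stationary point -/
noncomputable def yy (T η : ℝ) : ℝ := -(1 / 2) + √(1 / 4 + T / η)

lemma yy_pos {T η : ℝ} (hT : 0 < T) (hη : 0 < η) : 0 < yy T η := by
  unfold yy
  have h1 : (1 / 2 : ℝ) < √(1 / 4 + T / η) := by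
    have : (1 / 2 : ℝ) = √(1 / 4) := by
      rw [show (1 / 4 : ℝ) = (1 / 2) ^ 2 by norm_num, Real.sqrt_sq (by norm_num)]
    rw [this]
    exact Real.sqrt_lt_sqrt (by norm_num) (by have : 0 < T / η := by positivity
                                              linarith)
  linarith

lemma yy_eq {T η : ℝ} (hT : 0 < T) (hη : 0 < η) : yy T η * (1 + yy T η) = T / η := by
  have h0 : 0 < T / η := by positivity
  have h1 : √(1 / 4 + T / η) * √(1 / 4 + T / η) = 1 / 4 + T / η := Real.mul_self_sqrt (by linarith)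
  unfold yy
  nlinarith

/-- the critical value of the phase -/
noncomputable def psi (T η : ℝ) : ℝ := T * Real.log (1 + 1 / yy T η) + η * yy T η

lemma yy_d {T η : ℝ} (hT : 0 < T) (hη : 0 < η) :
    HasDerivAt (yy T) (-(T / η ^ 2) / (2 * √(1 / 4 + T / η))) η := by
  unfold yy
  have h0 : 0 < T / η := by positivity
  have h1 : HasDerivAt (fun η : ℝ => 1 / 4 + T / η) (-(T / η ^ 2)) η := by
    have := ((hasDerivAt_inv hη.ne').const_mul T).const_add (1 / 4)
    refine (this.congr_deriv (by field_simp)).congr_of_eventuallyEq (Eventually.of_forall fun x => ?_)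
    simp [div_eq_mul_inv]
  exact (h1.sqrt (by linarith)).const_add _

lemma psi_d {T η : ℝ} (hT : 0 < T) (hη : 0 < η) : HasDerivAt (psi T) (yy T η) η := by
  have hy := yy_pos hT hη
  have hye := yy_eq hT hη
  have hd := yy_d hT hη
  set y1 : ℝ := -(T / η ^ 2) / (2 * √(1 / 4 + T / η)) with hy1
  unfold psi
  have h1 : HasDerivAt (fun η : ℝ => 1 + 1 / yy T η) (-(y1 / yy T η ^ 2)) η := by
    have := (hd.inv hy.ne').const_add 1
    refine (this.congr_deriv (by ring)).congr_of_eventuallyEq (Eventually.of_forall fun x => ?_)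
    simp [one_div]
  have h2 := (h1.log (by positivity)).const_mul T
  have h3 := (hasDerivAt_id η).mul hd
  refine (h2.add h3).congr_deriv ?_
  simp only [id]
  have e1 : T * (-(y1 / yy T η ^ 2) / (1 + 1 / yy T η)) = -(η * y1) := by
    have hT' : T = η * (yy T η * (1 + yy T η)) := by rw [hye]; field_simp
    have h1y : 1 + yy T η ≠ 0 := by positivity
    have : -(y1 / yy T η ^ 2) / (1 + 1 / yy T η) = -(y1 / (yy T η * (1 + yy T η))) := by
      field_simp
      ring
    rw [this, hye]
    field_simp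
  rw [e1]
  ring

/-- the factor of slow variation -/
noncomputable def AA (T H c a b η : ℝ) : ℂ := E (fun x => -psi T x) η * TrI T H c η a b

lemma AA_norm {T H c η a b : ℝ} (hT : 0 < T) (hη : 0 < η) (ha : 0 ≤ a) (hab : a ≤ b) :
    ‖AA T H c a b η‖ ≤ 32 / √(√(T * η)) := by
  unfold AA
  rw [norm_mul, E_norm, one_mul]
  exact II_stat hT hη ha hab

lemma II_eq (T H c a b η : ℝ) : TrI T H c η a b = E (psi T) η * AA T H c a b η := by
  unfold AA E
  rw [← mul_assoc, ← Complex.exp_add]
  have : Complex.I * ((psi T η : ℝ) : ℂ) + Complex.I * ((-psi T η : ℝ) : ℂ) = 0 := by push_cast; ring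
  rw [this, Complex.exp_zero, one_mul]

lemma II_d (T H c a b η : ℝ) : HasDerivAt (fun η => TrI T H c η a b)
    (∫ u in a..b, (GG H c u : ℂ) * (Complex.I * ((Real.exp u : ℝ) : ℂ) * E (Ph T η) u)) η := by
  unfold TrI
  have hcont : ∀ x : ℝ, Continuous fun u => (GG H c u : ℂ) * E (Ph T x) u := fun x =>
    (Complex.continuous_ofReal.comp (GG_cont H c)).mul (E_cont (Ph_cont T x))
  have hcont' : Continuous fun u => (GG H c u : ℂ) * (Complex.I * ((Real.exp u : ℝ) : ℂ) * E (Ph T η) u) :=
    (Complex.continuous_ofReal.comp (GG_cont H c)).mul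
      ((continuous_const.mul (Complex.continuous_ofReal.comp Real.continuous_exp)).mul (E_cont (Ph_cont T η)))
  refine (intervalIntegral.hasDerivAt_integral_of_dominated_loc_of_deriv_le (s := univ)
    (F := fun x u => (GG H c u : ℂ) * E (Ph T x) u)
    (F' := fun x u => (GG H c u : ℂ) * (Complex.I * ((Real.exp u : ℝ) : ℂ) * E (Ph T x) u))
    (bound := fun u => GG H c u * Real.exp u)
    univ_mem (Eventually.of_forall fun x => (hcont x).aestronglyMeasurable) ((hcont η).intervalIntegrable _ _)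
    hcont'.aestronglyMeasurable (Eventually.of_forall fun u _ x _ => ?_)
    (((GG_cont H c).mul Real.continuous_exp).intervalIntegrable _ _)
    (Eventually.of_forall fun u _ x _ => ?_)).2
  · rw [norm_mul, norm_mul, norm_mul, E_norm, Complex.norm_I, Complex.norm_real, Complex.norm_real, Real.norm_eq_abs,
      Real.norm_eq_abs, abs_of_nonneg (GG_nn H c u), abs_of_pos (Real.exp_pos u)]
    simp
  · have h1 : HasDerivAt (fun x : ℝ => Ph T x u) (Real.exp u) x := by
      unfold Ph
      have := ((hasDerivAt_id x).mul_const (Real.exp u)).const_add (T * ell u)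
      exact this.congr_deriv (by simp)
    have h2 : HasDerivAt (fun x : ℝ => E (Ph T x) u) (Complex.I * ((Real.exp u : ℝ) : ℂ) * E (Ph T x) u) x := by
      unfold E
      exact (h1.ofReal_comp.const_mul Complex.I).cexp.congr_deriv (by ring)
    exact h2.const_mul _

lemma AA_d {T H c a b η : ℝ} (hT : 0 < T) (hη : 0 < η) : HasDerivAt (AA T H c a b)
    (Complex.I * E (fun x => -psi T x) η *
      ∫ u in a..b, (((Real.exp u - yy T η) * GG H c u : ℝ) : ℂ) * E (Ph T η) u) η := by
  unfold AA
  have h1 : HasDerivAt (E fun x => -psi T x) (Complex.I * ((-yy T η : ℝ) : ℂ) * E (fun x => -psi T x) η) η :=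
    E_deriv (Φ := fun x => -psi T x) (Φ1 := fun x => -yy T x) (psi_d hT hη).neg
  refine (h1.mul (II_d T H c a b η)).congr_deriv ?_
  have hc1 : Continuous fun u => (GG H c u : ℂ) * E (Ph T η) u :=
    (Complex.continuous_ofReal.comp (GG_cont H c)).mul (E_cont (Ph_cont T η))
  have hc2 : Continuous fun u => (GG H c u : ℂ) * (Complex.I * ((Real.exp u : ℝ) : ℂ) * E (Ph T η) u) :=
    (Complex.continuous_ofReal.comp (GG_cont H c)).mul
      ((continuous_const.mul (Complex.continuous_ofReal.comp Real.continuous_exp)).mul (E_cont (Ph_cont T η)))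
  have h2 : ∫ u in a..b, (((Real.exp u - yy T η) * GG H c u : ℝ) : ℂ) * E (Ph T η) u =
      -Complex.I * (∫ u in a..b, (GG H c u : ℂ) * (Complex.I * ((Real.exp u : ℝ) : ℂ) * E (Ph T η) u)) -
        (yy T η : ℂ) * TrI T H c η a b := by
    unfold TrI
    have i1 : IntervalIntegrable (fun u => -Complex.I * ((GG H c u : ℂ) * (Complex.I * ((Real.exp u : ℝ) : ℂ) * E (Ph T η) u))) volume a b :=
      (continuous_const.mul hc2).intervalIntegrable _ _
    have i2 : IntervalIntegrable (fun u => (yy T η : ℂ) * ((GG H c u : ℂ) * E (Ph T η) u)) volume a b :=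
      (continuous_const.mul hc1).intervalIntegrable _ _
    rw [← intervalIntegral.integral_const_mul, ← intervalIntegral.integral_const_mul,
      ← intervalIntegral.integral_sub i1 i2]
    refine intervalIntegral.integral_congr fun u _ => ?_
    have hI := Complex.I_mul_I
    push_cast
    linear_combination ((GG H c u : ℂ) * Complex.exp (u:ℂ) * E (Ph T η) u) * hI
  rw [h2, Complex.ofReal_neg]
  have hI := Complex.I_mul_I
  linear_combination (E (fun x => -psi T x) η * (∫ u in a..b, (GG H c u : ℂ) * (Complex.I * ((Real.exp u : ℝ) : ℂ) * E (Ph T η) u))) * hI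

/-- the derivative of the factor -/
lemma AA_deriv_norm {T H c a b η Δ : ℝ} (hT : 0 < T) (hη : 0 < η) (hab : a ≤ b) (ha : 0 ≤ a) (hH : 0 ≤ H)
    (hΔ : H * Real.exp (-a) ≤ Δ) :
    ‖Complex.I * E (fun x => -psi T x) η *
      ∫ u in a..b, (((Real.exp u - yy T η) * GG H c u : ℝ) : ℂ) * E (Ph T η) u‖ ≤
      (1 / η) * (GG H c b + GG H c a + (8384 + 128 * Δ ^ 2) / √(√(T * η))) := by
  have hy := yy_pos hT hη
  have hye := yy_eq hT hη
  rw [norm_mul, norm_mul, Complex.norm_I, E_norm, one_mul, one_mul]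
  obtain ⟨F2, hF1, hF2⟩ := bv_hG hab ha (s := yy T η + 1) (by linarith) hH hΔ c
  have h1 := parts2 hab hF1 hF2 (Ph_d T η) (Ph1_cont T η) (Ph_init hT hη ha)
  have e1 : ∫ u in a..b, (((Real.exp u - yy T η) * GG H c u : ℝ) : ℂ) * E (Ph T η) u =
      ((1 / η : ℝ) : ℂ) * ∫ u in a..b, ((hh (yy T η + 1) u * GG H c u * Ph1 T η u : ℝ) : ℂ) * E (Ph T η) u := by
    rw [← intervalIntegral.integral_const_mul]
    refine intervalIntegral.integral_congr fun u _ => ?_
    rw [← mul_assoc, ← Complex.ofReal_mul]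
    congr 2
    have hx := Real.exp_pos u
    have hT' : T = η * (yy T η * (1 + yy T η)) := by rw [hye]; field_simp
    have h2 : Ph1 T η u = η * (Real.exp u - yy T η) * (Real.exp u + yy T η + 1) / (1 + Real.exp u) := by
      unfold Ph1 ww
      nth_rewrite 1 [hT']
      field_simp
      ring
    rw [h2]
    unfold hh
    have h3 : Real.exp u + (yy T η + 1) ≠ 0 := by positivity
    have h4 : 1 + Real.exp u ≠ 0 := by positivity
    field_simp
    ring
  rw [e1, norm_mul, Complex.norm_real, Real.norm_eq_abs, abs_of_pos (by positivity)]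
  refine mul_le_mul_of_nonneg_left (h1.trans ?_) (by positivity)
  have k1 : ∀ x, |hh (yy T η + 1) x * GG H c x| ≤ GG H c x := by
    intro x
    have h2 := hh_mem (s := yy T η + 1) (by linarith) x
    have h3 := GG_nn H c x
    rw [abs_mul, abs_of_nonneg h2.1, abs_of_nonneg h3]
    nlinarith
  have k2 := k1 a
  have k3 := k1 b
  have e2 : 2 * ((524 + 8 * Δ ^ 2) * (8 / √(√(T * η)))) = (8384 + 128 * Δ ^ 2) / √(√(T * η)) := by ring
  rw [e2]
  linarith

/-- Lipschitz bound -/
lemma AA_lip {T H c a b Δ η1 η2 : ℝ} (hT : 0 < T) (hη1 : 0 < η1) (h12 : η1 ≤ η2) (hab : a ≤ b) (ha : 0 ≤ a) (hH : 0 ≤ H)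
    (hΔ : H * Real.exp (-a) ≤ Δ) :
    ‖AA T H c a b η2 - AA T H c a b η1‖ ≤
      (1 / η1) * (GG H c b + GG H c a + (8384 + 128 * Δ ^ 2) / √(√(T * η1))) * (η2 - η1) := by
  have h1 := Convex.norm_image_sub_le_of_norm_hasDerivWithin_le (s := Icc η1 η2) (f := AA T H c a b)
    (C := (1 / η1) * (GG H c b + GG H c a + (8384 + 128 * Δ ^ 2) / √(√(T * η1))))
    (fun x hx => (AA_d hT (lt_of_lt_of_le hη1 hx.1)).hasDerivWithinAt)
    (fun x hx => by
      have hx0 : 0 < x := lt_of_lt_of_le hη1 hx.1
      refine (AA_deriv_norm hT hx0 hab ha hH hΔ).trans ?_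
      have g1 := GG_nn H c a
      have g2 := GG_nn H c b
      have g3 : 1 / x ≤ 1 / η1 := one_div_le_one_div_of_le hη1 hx.1
      have g4 : √(√(T * η1)) ≤ √(√(T * x)) := Real.sqrt_le_sqrt (Real.sqrt_le_sqrt (mul_le_mul_of_nonneg_left hx.1 hT.le))
      have g5 : 0 < √(√(T * η1)) := by positivity
      have g6 : (8384 + 128 * Δ ^ 2) / √(√(T * x)) ≤ (8384 + 128 * Δ ^ 2) / √(√(T * η1)) :=
        div_le_div_of_nonneg_left (by positivity) g5 g4
      refine mul_le_mul g3 (by linarith) (by positivity) (by positivity))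
    (convex_Icc η1 η2) (left_mem_Icc.mpr h12) (right_mem_Icc.mpr h12)
  rwa [Real.norm_eq_abs, abs_of_nonneg (by linarith)] at h1

end Pool.Agent.Zk6.QQ
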