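import Pool.Agent.Zk6.Q5

set_option autoImplicit false

/-! The exponential sums over the dual variable. -/

namespace Pool.Agent.Zk6.QQ

open Set Filter Topology
open Pool.Agent.H469R2.NK (e norm_e)

/-- differences of a function of a real variable -/
noncomputable def dr : ℕ → (ℝ → ℝ) → ℝ → ℝ
  | 0, g, x => g x
  | j + 1, g, x => dr j g (x + 1) - dr j g x

lemma dr_d (j : ℕ) : ∀ (g g1 : ℝ → ℝ) (a b : ℝ), (∀ x ∈ Icc a b, HasDerivAt g (g1 x) x) →
    ∀ x, a ≤ x → x + j ≤ b → HasDerivAt (dr j g) (dr j g1 x) x := by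
  induction j with
  | zero =>
    intro g g1 a b h x h1 h2
    exact h x ⟨h1, by simpa using h2⟩
  | succ j ih =>
    intro g g1 a b h x h1 h2
    push_cast at h2
    have k1 := ih g g1 a b h x h1 (by linarith)
    have k2 := ih g g1 a b h (x + 1) (by linarith) (by linarith)
    have k3 := HasDerivAt.comp_add_const x 1 k2
    exact k3.sub k1

lemma dr_bd (j : ℕ) : ∀ (F : ℕ → ℝ → ℝ) (a b l u : ℝ), (∀ i < j, ∀ x ∈ Icc a b, HasDerivAt (F i) (F (i + 1) x) x) →
    (∀ x ∈ Icc a b, l ≤ F j x ∧ F j x ≤ u) → ∀ x, a ≤ x → x + j ≤ b → l ≤ dr j (F 0) x ∧ dr j (F 0) x ≤ u := by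
  induction j with
  | zero =>
    intro F a b l u _ hb x h1 h2
    exact hb x ⟨h1, by simpa using h2⟩
  | succ j ih =>
    intro F a b l u hd hb x h1 h2
    push_cast at h2
    have k1 := ih (fun i => F (i + 1)) a b l u (fun i hi x hx => hd (i + 1) (by omega) x hx) hb
    have k2 : ∀ y, a ≤ y → y + j ≤ b → HasDerivAt (dr j (F 0)) (dr j (F 1) y) y :=
      dr_d j (F 0) (F 1) a b (fun x hx => hd 0 (by omega) x hx)
    obtain ⟨ξ, hξ, hξ2⟩ := exists_hasDerivAt_eq_slope (dr j (F 0)) (dr j (F 1)) (show x < x + 1 by linarith)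
      (fun y hy => (k2 y (by linarith [hy.1]) (by linarith [hy.2])).continuousAt.continuousWithinAt)
      (fun y hy => k2 y (by linarith [hy.1]) (by linarith [hy.2]))
    have e1 : dr (j + 1) (F 0) x = dr j (F 1) ξ := by
      rw [hξ2]
      show dr j (F 0) (x + 1) - dr j (F 0) x = _
      rw [show x + 1 - x = 1 by ring, div_one]
    rw [e1]
    exact k1 ξ (by linarith [hξ.1]) (by linarith [hξ.2])

lemma df_dr (j : ℕ) : ∀ (f : ℝ → ℝ) (V : ℝ) (n : ℕ), df j (fun n : ℕ => f (V + n)) n = dr j f (V + n) := by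
  induction j with
  | zero => intro f V n; rfl
  | succ j ih =>
    intro f V n
    rw [df_succ, ih, ih]
    show _ = dr j f (V + n + 1) - dr j f (V + n)
    push_cast
    rw [add_assoc]

/-- the square root and the reciprocal -/
noncomputable def SS (T η : ℝ) : ℝ := √(1 / 4 + T / η)
noncomputable def pr (T η : ℝ) : ℝ := (1 / 4 + T / η)⁻¹

section
variable {T η : ℝ}

lemma SS_d (hT : 0 < T) (hη : 0 < η) : HasDerivAt (SS T) (SS T η / η * (-(1 / 2) + pr T η / 8)) η := by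
  have h0 : 0 < T / η := by positivity
  have hq : 0 < 1 / 4 + T / η := by linarith
  have h1 : HasDerivAt (fun η : ℝ => 1 / 4 + T / η) (-(T / η ^ 2)) η := by
    have := ((hasDerivAt_inv hη.ne').const_mul T).const_add (1 / 4)
    refine (this.congr_deriv (by field_simp)).congr_of_eventuallyEq (Eventually.of_forall fun x => ?_)
    simp [div_eq_mul_inv]
  refine (h1.sqrt hq.ne').congr_deriv ?_
  unfold SS pr
  have hs : 0 < √(1 / 4 + T / η) := Real.sqrt_pos.mpr hq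
  have hss : √(1 / 4 + T / η) ^ 2 = 1 / 4 + T / η := Real.sq_sqrt hq.le
  rw [div_eq_iff (by positivity)]
  have e1 : √(1 / 4 + T / η) / η * (-(1 / 2) + (1 / 4 + T / η)⁻¹ / 8) * (2 * √(1 / 4 + T / η)) =
      √(1 / 4 + T / η) ^ 2 * (1 / η) * (-1 + (1 / 4 + T / η)⁻¹ / 4) := by ring
  rw [e1, hss]
  have : 1 / 4 + T / η ≠ 0 := hq.ne'
  have e2 : (1 / 4 + T / η) * (1 / η) * (-1 + (1 / 4 + T / η)⁻¹ / 4) =
      (1 / η) * (-(1 / 4 + T / η) + ((1 / 4 + T / η) * (1 / 4 + T / η)⁻¹) / 4) := by ring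
  rw [e2, mul_inv_cancel₀ this]
  field_simp
  ring

lemma pr_d (hT : 0 < T) (hη : 0 < η) : HasDerivAt (pr T) ((pr T η - pr T η ^ 2 / 4) / η) η := by
  have h0 : 0 < T / η := by positivity
  have hq : 0 < 1 / 4 + T / η := by linarith
  have h1 : HasDerivAt (fun η : ℝ => 1 / 4 + T / η) (-(T / η ^ 2)) η := by
    have := ((hasDerivAt_inv hη.ne').const_mul T).const_add (1 / 4)
    refine (this.congr_deriv (by field_simp)).congr_of_eventuallyEq (Eventually.of_forall fun x => ?_)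
    simp [div_eq_mul_inv]
  refine (h1.inv hq.ne').congr_deriv ?_
  unfold pr
  have h4 : (4 * T + η) ≠ 0 := by positivity
  field_simp
  ring

lemma chain (j : ℕ) {Q Q1 : ℝ → ℝ} (hQ : ∀ x, HasDerivAt Q (Q1 x) x) (hT : 0 < T) (hη : 0 < η) :
    HasDerivAt (fun η => SS T η * Q (pr T η) / η ^ j)
      (SS T η * ((-(j:ℝ) - 1 / 2 + pr T η / 8) * Q (pr T η) + (pr T η - pr T η ^ 2 / 4) * Q1 (pr T η)) / η ^ (j + 1)) η := by
  have h1 := (SS_d hT hη).mul (HasDerivAt.comp η (hQ (pr T η)) (pr_d hT hη))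
  have h2 : HasDerivAt (fun η : ℝ => η ^ j) (j * η ^ (j - 1)) η := hasDerivAt_pow j η
  have h3 := h1.div h2 (by positivity)
  refine h3.congr_deriv ?_
  rw [div_eq_div_iff (by positivity) (by positivity)]
  simp only [Function.comp, Pi.mul_apply]
  rcases Nat.eq_zero_or_pos j with rfl | hj
  · simp
    field_simp
  · obtain ⟨i, rfl⟩ : ∃ i, j = i + 1 := ⟨j - 1, by omega⟩
    rw [Nat.add_sub_cancel]
    push_cast
    field_simp
    ring

end

/-- the polynomials of the derivatives -/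
noncomputable def P1 (x : ℝ) : ℝ := -(1 / 2) + x / 8
noncomputable def P2 (x : ℝ) : ℝ := 3 / 4 - x / 8 - x ^ 2 / 64
noncomputable def P3 (x : ℝ) : ℝ := -(15 / 8) + 9 / 32 * x + 3 / 128 * x ^ 2 + 3 / 512 * x ^ 3
noncomputable def P4 (x : ℝ) : ℝ := 105 / 16 - 15 / 16 * x - 9 / 128 * x ^ 2 - 3 / 256 * x ^ 3 - 15 / 4096 * x ^ 4

lemma P1_d (x : ℝ) : HasDerivAt P1 (1 / 8) x := by
  unfold P1
  exact (((hasDerivAt_id x).div_const 8).const_add _)

lemma P2_d (x : ℝ) : HasDerivAt P2 (-(1 / 8) - x / 32) x := by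
  unfold P2
  have h2 : HasDerivAt (fun x : ℝ => x ^ 2) (2 * x) x := by simpa using hasDerivAt_pow 2 x
  exact ((((hasDerivAt_id x).div_const 8).const_sub (3 / 4)).sub (h2.div_const 64)).congr_deriv (by ring)

lemma P3_d (x : ℝ) : HasDerivAt P3 (9 / 32 + 3 / 64 * x + 9 / 512 * x ^ 2) x := by
  unfold P3
  have h2 : HasDerivAt (fun x : ℝ => x ^ 2) (2 * x) x := by simpa using hasDerivAt_pow 2 x
  have h3 : HasDerivAt (fun x : ℝ => x ^ 3) (3 * x ^ 2) x := by simpa using hasDerivAt_pow 3 x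
  exact (((((hasDerivAt_id x).const_mul (9 / 32)).const_add (-(15 / 8))).add (h2.const_mul (3 / 128))).add
    (h3.const_mul (3 / 512))).congr_deriv (by ring)

lemma P4_bd {x : ℝ} (h0 : 0 ≤ x) (h1 : x ≤ 4 / 5) : 5 ≤ P4 x ∧ P4 x ≤ 7 := by
  unfold P4
  have a2 : 0 ≤ x ^ 2 := by positivity
  have a3 : 0 ≤ x ^ 3 := by positivity
  have a4 : 0 ≤ x ^ 4 := by positivity
  have b2 : x ^ 2 ≤ 1 := by nlinarith
  have b3 : x ^ 3 ≤ 1 := by nlinarith
  have b4 : x ^ 4 ≤ 1 := by nlinarith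
  constructor <;> linarith

/-- the derivatives of the phase in the dual variable -/
noncomputable def FS (T c α : ℝ) : ℕ → ℝ → ℝ
  | 0, x => psi T (c * x) / (2 * Real.pi) - α * x
  | 1, x => c * yy T (c * x) / (2 * Real.pi) - α
  | 2, x => c ^ 2 / (2 * Real.pi) * (SS T (c * x) * P1 (pr T (c * x)) / (c * x) ^ 1)
  | 3, x => c ^ 3 / (2 * Real.pi) * (SS T (c * x) * P2 (pr T (c * x)) / (c * x) ^ 2)
  | 4, x => c ^ 4 / (2 * Real.pi) * (SS T (c * x) * P3 (pr T (c * x)) / (c * x) ^ 3)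
  | _, x => c ^ 5 / (2 * Real.pi) * (SS T (c * x) * P4 (pr T (c * x)) / (c * x) ^ 4)

lemma FS_d {T c α : ℝ} (hT : 0 < T) (hc : 0 < c) : ∀ i < 5, ∀ x : ℝ, 0 < x → HasDerivAt (FS T c α i) (FS T c α (i + 1) x) x := by
  intro i hi x hx
  have hcx : 0 < c * x := by positivity
  have hl : HasDerivAt (fun x : ℝ => c * x) c x := by simpa using (hasDerivAt_id x).const_mul c
  interval_cases i
  · show HasDerivAt (fun x => psi T (c * x) / (2 * Real.pi) - α * x) (c * yy T (c * x) / (2 * Real.pi) - α) x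
    have h1 := (HasDerivAt.comp x (psi_d hT hcx) hl).div_const (2 * Real.pi)
    have h2 := h1.sub ((hasDerivAt_id x).const_mul α)
    exact h2.congr_deriv (by ring)
  · show HasDerivAt (fun x => c * yy T (c * x) / (2 * Real.pi) - α)
      (c ^ 2 / (2 * Real.pi) * (SS T (c * x) * P1 (pr T (c * x)) / (c * x) ^ 1)) x
    have h0 : HasDerivAt (yy T) (SS T (c * x) / (c * x) * (-(1 / 2) + pr T (c * x) / 8)) (c * x) := by
      have := (SS_d hT hcx).const_add (-(1 / 2))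
      exact this
    have h1 := (((HasDerivAt.comp x h0 hl).const_mul c).div_const (2 * Real.pi)).sub_const α
    refine h1.congr_deriv ?_
    unfold P1
    ring
  · show HasDerivAt (fun x => c ^ 2 / (2 * Real.pi) * (SS T (c * x) * P1 (pr T (c * x)) / (c * x) ^ 1))
      (c ^ 3 / (2 * Real.pi) * (SS T (c * x) * P2 (pr T (c * x)) / (c * x) ^ 2)) x
    have h1 := (HasDerivAt.comp x (chain 1 P1_d hT hcx) hl).const_mul (c ^ 2 / (2 * Real.pi))
    refine h1.congr_deriv ?_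
    unfold P1 P2
    push_cast
    ring
  · show HasDerivAt (fun x => c ^ 3 / (2 * Real.pi) * (SS T (c * x) * P2 (pr T (c * x)) / (c * x) ^ 2))
      (c ^ 4 / (2 * Real.pi) * (SS T (c * x) * P3 (pr T (c * x)) / (c * x) ^ 3)) x
    have h1 := (HasDerivAt.comp x (chain 2 P2_d hT hcx) hl).const_mul (c ^ 3 / (2 * Real.pi))
    refine h1.congr_deriv ?_
    unfold P2 P3
    push_cast
    ring
  · show HasDerivAt (fun x => c ^ 4 / (2 * Real.pi) * (SS T (c * x) * P3 (pr T (c * x)) / (c * x) ^ 3))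
      (c ^ 5 / (2 * Real.pi) * (SS T (c * x) * P4 (pr T (c * x)) / (c * x) ^ 4)) x
    have h1 := (HasDerivAt.comp x (chain 3 P3_d hT hcx) hl).const_mul (c ^ 4 / (2 * Real.pi))
    refine h1.congr_deriv ?_
    unfold P3 P4
    push_cast
    ring

lemma F4_bd {T η E0 : ℝ} (hT : 0 < T) (hE : 0 < E0) (h1 : E0 ≤ η) (h2 : η ≤ 2 * E0) (h3 : 2 * E0 ≤ T) :
    5 / 24 * √(T / E0) / E0 ^ 4 ≤ SS T η * P4 (pr T η) / η ^ 4 ∧ SS T η * P4 (pr T η) / η ^ 4 ≤ 8 * √(T / E0) / E0 ^ 4 := by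
  have hη : 0 < η := by linarith
  have hq1 : 1 ≤ T / η := by rw [le_div_iff₀ hη]; linarith
  have hp0 : 0 ≤ pr T η := by unfold pr; positivity
  have hp1 : pr T η ≤ 4 / 5 := by
    unfold pr
    rw [inv_le_comm₀ (by linarith) (by norm_num)]
    norm_num
    linarith
  obtain ⟨b1, b2⟩ := P4_bd hp0 hp1
  have hs0 : 0 < √(T / E0) := by positivity
  -- bounds for the root
  have s1 : √(T / E0) / (3 / 2) ≤ SS T η := by
    unfold SS
    rw [div_le_iff₀ (by norm_num)]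
    have e1 : √(1 / 4 + T / η) * (3 / 2) = √((1 / 4 + T / η) * (9 / 4)) := by
      rw [Real.sqrt_mul (by linarith), show (9 / 4 : ℝ) = (3 / 2) ^ 2 by norm_num, Real.sqrt_sq (by norm_num)]
    rw [e1]
    apply Real.sqrt_le_sqrt
    have h4 : T / E0 ≤ 2 * (T / η) := by
      rw [mul_div_assoc', div_le_div_iff₀ hE hη]
      nlinarith
    linarith
  have s2 : SS T η ≤ √(T / E0) * (9 / 8) := by
    unfold SS
    have e1 : √(T / E0) * (9 / 8) = √(T / E0 * (81 / 64)) := by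
      rw [Real.sqrt_mul (by positivity), show (81 / 64 : ℝ) = (9 / 8) ^ 2 by norm_num, Real.sqrt_sq (by norm_num)]
    rw [e1]
    apply Real.sqrt_le_sqrt
    have h4 : T / η ≤ T / E0 := div_le_div_of_nonneg_left hT.le hE h1
    linarith
  have hS0 : 0 < SS T η := lt_of_lt_of_le (by positivity) s1
  have hη4 : η ^ 4 ≤ 16 * E0 ^ 4 := by
    calc η ^ 4 ≤ (2 * E0) ^ 4 := by gcongr
      _ = _ := by ring
  have hE4 : E0 ^ 4 ≤ η ^ 4 := by gcongr
  constructor
  · rw [div_le_div_iff₀ (by positivity) (by positivity)]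
    calc 5 / 24 * √(T / E0) * η ^ 4 ≤ 5 / 24 * √(T / E0) * (16 * E0 ^ 4) := by gcongr
      _ = (√(T / E0) / (3 / 2)) * 5 * E0 ^ 4 := by ring
      _ ≤ SS T η * P4 (pr T η) * E0 ^ 4 := by gcongr
  · rw [div_le_div_iff₀ (by positivity) (by positivity)]
    calc SS T η * P4 (pr T η) * E0 ^ 4 ≤ (√(T / E0) * (9 / 8)) * 7 * η ^ 4 := by gcongr
      _ ≤ 8 * √(T / E0) * η ^ 4 := by
        have : 0 ≤ √(T / E0) * η ^ 4 := by positivity
        nlinarith

/-- the size of the fifth derivative -/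
noncomputable def lam5 (T c V : ℝ) : ℝ := c * √(T / (c * V)) / (64 * V ^ 4)

lemma DB5 {T c α : ℝ} (hT : 0 < T) (hc : 0 < c) {V L : ℕ} (hV : 1 ≤ V) (hL : L ≤ V) (h : 2 * (c * V) ≤ T) :
    DB 5 (fun n : ℕ => FS T c α 0 ((V:ℝ) + n)) L (lam5 T c V) (82 * lam5 T c V) := by
  intro n hn
  have hV0 : (0:ℝ) < V := by exact_mod_cast hV
  have hE : 0 < c * V := by positivity
  rw [df_dr]
  have hLV : (L:ℝ) ≤ V := by exact_mod_cast hL
  have hpi := Real.pi_pos
  have hp3 := Real.pi_gt_three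
  have hp4 := Real.pi_lt_four
  refine dr_bd 5 (FS T c α) V (2 * V) _ _ (fun i hi x hx => FS_d hT hc i hi x (by linarith [hx.1])) ?_ _
    (by have : (0:ℝ) ≤ n := Nat.cast_nonneg n
        linarith) (by
      have : ((n + 5 : ℕ) : ℝ) ≤ L := by exact_mod_cast hn
      push_cast at this ⊢
      linarith)
  intro x hx
  have hx0 : 0 < x := by linarith [hx.1]
  obtain ⟨k1, k2⟩ := F4_bd (η := c * x) hT hE (mul_le_mul_of_nonneg_left hx.1 hc.le)
    (by have := mul_le_mul_of_nonneg_left hx.2 hc.le; linarith) h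
  show lam5 T c V ≤ c ^ 5 / (2 * Real.pi) * (SS T (c * x) * P4 (pr T (c * x)) / (c * x) ^ 4) ∧ _ ≤ _
  have hs0 : 0 < √(T / (c * V)) := by positivity
  constructor
  · refine le_trans ?_ (mul_le_mul_of_nonneg_left k1 (by positivity))
    unfold lam5
    rw [show c ^ 5 / (2 * Real.pi) * (5 / 24 * √(T / (c * V)) / (c * V) ^ 4) =
      c * √(T / (c * V)) / V ^ 4 * (5 / (48 * Real.pi)) by field_simp; norm_num]
    rw [show c * √(T / (c * V)) / (64 * V ^ 4) = c * √(T / (c * V)) / V ^ 4 * (1 / 64) by field_simp]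
    refine mul_le_mul_of_nonneg_left ?_ (by positivity)
    rw [div_le_div_iff₀ (by norm_num) (by positivity)]
    linarith
  · refine le_trans (mul_le_mul_of_nonneg_left k2 (by positivity)) ?_
    unfold lam5
    rw [show c ^ 5 / (2 * Real.pi) * (8 * √(T / (c * V)) / (c * V) ^ 4) =
      c * √(T / (c * V)) / V ^ 4 * (4 / Real.pi) by field_simp; norm_num]
    rw [show 82 * (c * √(T / (c * V)) / (64 * V ^ 4)) = c * √(T / (c * V)) / V ^ 4 * (82 / 64) by field_simp]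
    refine mul_le_mul_of_nonneg_left ?_ (by positivity)
    rw [div_le_div_iff₀ hpi (by norm_num)]
    have : (3.14 : ℝ) < Real.pi := Real.pi_gt_d2
    linarith

/-- Abel's summation with a complex weight -/
lemma abel_c (z a : ℕ → ℂ) (L : ℕ) {B A0 A1 : ℝ} (hB : ∀ l ≤ L, ‖∑ n ∈ Finset.range l, z n‖ ≤ B)
    (h0 : ∀ n < L, ‖a n‖ ≤ A0) (h1 : ∀ n, n + 1 < L → ‖a (n + 1) - a n‖ ≤ A1) (hA0 : 0 ≤ A0) (hA1 : 0 ≤ A1) :
    ‖∑ n ∈ Finset.range L, a n * z n‖ ≤ (A0 + L * A1) * B := by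
  have hB0 : 0 ≤ B := (norm_nonneg _).trans (hB 0 (Nat.zero_le _))
  rcases Nat.eq_zero_or_pos L with rfl | hL
  · simp only [Finset.range_zero, Finset.sum_empty, norm_zero]; positivity
  obtain ⟨k, rfl⟩ : ∃ k, L = k + 1 := ⟨L - 1, by omega⟩
  have key : ∀ m, m ≤ k → ∑ n ∈ Finset.range (m + 1), a n * z n =
      a m * ∑ n ∈ Finset.range (m + 1), z n +
        ∑ n ∈ Finset.range m, (a n - a (n + 1)) * ∑ i ∈ Finset.range (n + 1), z i := by
    intro m
    induction m with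
    | zero => intro _; simp
    | succ m ih =>
      intro h
      rw [Finset.sum_range_succ, ih (by omega), Finset.sum_range_succ (fun n => (a n - a (n + 1)) * _) m,
        Finset.sum_range_succ z (m + 1)]
      ring
  rw [key k le_rfl]
  have k1 : ‖a k * ∑ n ∈ Finset.range (k + 1), z n‖ ≤ A0 * B := by
    rw [norm_mul]
    exact mul_le_mul (h0 k (by omega)) (hB _ le_rfl) (norm_nonneg _) hA0
  have k2 : ‖∑ n ∈ Finset.range k, (a n - a (n + 1)) * ∑ i ∈ Finset.range (n + 1), z i‖ ≤ k * (A1 * B) := by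
    have : ∀ n ∈ Finset.range k, ‖(a n - a (n + 1)) * ∑ i ∈ Finset.range (n + 1), z i‖ ≤ A1 * B := by
      intro n hn
      rw [Finset.mem_range] at hn
      rw [norm_mul, norm_sub_rev]
      exact mul_le_mul (h1 n (by omega)) (hB _ (by omega)) (norm_nonneg _) hA1
    refine (norm_sum_le _ _).trans ((Finset.sum_le_sum this).trans (le_of_eq ?_))
    rw [Finset.sum_const, Finset.card_range, nsmul_eq_mul]
  refine (norm_add_le _ _).trans ?_
  push_cast
  nlinarith [mul_nonneg hA1 hB0]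

end Pool.Agent.Zk6.QQ
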