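import Pool.Agent.Zk6.Q6

set_option autoImplicit false

/-! The bound for the dual sum. -/

namespace Pool.Agent.Zk6.QQ

open Finset
open Pool.Agent.H469R2.NK (e norm_e e_add conj_e e_zero)

lemma ss_rp {x : ℝ} (hx : 0 ≤ x) : √(√x) = x ^ (1 / 4 : ℝ) := by
  rw [Real.sqrt_eq_rpow, Real.sqrt_eq_rpow, ← Real.rpow_mul hx]
  norm_num

lemma FS_zero (T c α x : ℝ) : e (FS T c α 0 x) = e (-(x * α)) * E (psi T) (c * x) := by
  unfold e E FS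
  rw [← Complex.exp_add]
  congr 1
  have : ((Real.pi : ℝ) : ℂ) ≠ 0 := by exact_mod_cast Real.pi_ne_zero
  push_cast
  field_simp
  ring

/-- the powers -/
lemma lam_pow {T c V : ℝ} (hT : 0 < T) (hc : 0 < c) (hV : 0 < V) :
    (T * (c * V)) ^ (-(1 / 4) : ℝ) * (V * lam5 T c V ^ (1 / 30 : ℝ)) ≤ (T * c) ^ (-(7 / 30) : ℝ) * V ^ (3 / 5 : ℝ) ∧
    (T * (c * V)) ^ (-(1 / 4) : ℝ) * (V ^ (7 / 8 : ℝ) * lam5 T c V ^ (-(1 / 30) : ℝ)) ≤
      2 * ((T * c) ^ (-(4 / 15) : ℝ) * V ^ (31 / 40 : ℝ)) := by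
  have hTc : 0 < T * c := by positivity
  have h1 : lam5 T c V = (T * c) ^ (1 / 2 : ℝ) * V ^ (-(9 / 2) : ℝ) * (64:ℝ)⁻¹ := by
    unfold lam5
    have e1 : √(T / (c * V)) = (T * c) ^ (1 / 2 : ℝ) / c * V ^ (-(1 / 2) : ℝ) := by
      have e2 : T / (c * V) = (T * c) * (1 / c ^ 2) * V⁻¹ := by field_simp
      rw [e2, Real.sqrt_mul (by positivity), Real.sqrt_mul (by positivity), Real.sqrt_div (by norm_num),
        Real.sqrt_one, Real.sqrt_sq hc.le, Real.sqrt_inv, Real.sqrt_eq_rpow, Real.sqrt_eq_rpow, ← Real.rpow_neg hV.le]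
      ring
    rw [e1]
    have e3 : V ^ (-(9 / 2) : ℝ) = V ^ (-(1 / 2) : ℝ) / V ^ 4 := by
      rw [show (-(9 / 2) : ℝ) = -(1 / 2) - (4 : ℕ) by norm_num, Real.rpow_sub hV, Real.rpow_natCast]
    rw [e3]
    field_simp
  have hVp := Real.rpow_pos_of_pos hV
  have hA : (0:ℝ) < (T * c) ^ (1 / 2 : ℝ) := by positivity
  have hB : (0:ℝ) < V ^ (-(9 / 2) : ℝ) := by positivity
  have e4 : (T * (c * V)) ^ (-(1 / 4) : ℝ) = (T * c) ^ (-(1 / 4) : ℝ) * V ^ (-(1 / 4) : ℝ) := by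
    rw [← mul_assoc, Real.mul_rpow hTc.le hV.le]
  have e5 : ∀ s : ℝ, lam5 T c V ^ s = (T * c) ^ (s / 2) * V ^ (-(9 / 2) * s) * ((64:ℝ)⁻¹) ^ s := by
    intro s
    rw [h1, Real.mul_rpow (by positivity) (by positivity), Real.mul_rpow hA.le hB.le, ← Real.rpow_mul hTc.le,
      ← Real.rpow_mul hV.le]
    congr 3
    ring
  have c1 : ((64:ℝ)⁻¹) ^ (1 / 30 : ℝ) ≤ 1 := Real.rpow_le_one (by norm_num) (by norm_num) (by norm_num)
  have c2 : ((64:ℝ)⁻¹) ^ (-(1 / 30) : ℝ) ≤ 2 := by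
    rw [Real.inv_rpow (by norm_num), ← Real.rpow_neg (by norm_num), neg_neg]
    calc (64:ℝ) ^ (1 / 30 : ℝ) ≤ 64 ^ (1 / 6 : ℝ) := Real.rpow_le_rpow_of_exponent_le (by norm_num) (by norm_num)
      _ = 2 := by
        rw [show (64:ℝ) = 2 ^ (6 : ℝ) by norm_num, ← Real.rpow_mul (by norm_num)]
        norm_num
  constructor
  · rw [e4, e5]
    have e6 : (T * c) ^ (-(1 / 4) : ℝ) * V ^ (-(1 / 4) : ℝ) * (V * ((T * c) ^ ((1 / 30 : ℝ) / 2) * V ^ (-(9 / 2) * (1 / 30 : ℝ)) *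
        ((64:ℝ)⁻¹) ^ (1 / 30 : ℝ))) = ((T * c) ^ (-(1 / 4) : ℝ) * (T * c) ^ ((1 / 30 : ℝ) / 2)) *
          (V ^ (-(1 / 4) : ℝ) * V ^ (1:ℝ) * V ^ (-(9 / 2) * (1 / 30 : ℝ))) * ((64:ℝ)⁻¹) ^ (1 / 30 : ℝ) := by
      rw [Real.rpow_one]; ring
    rw [e6, ← Real.rpow_add hTc, ← Real.rpow_add hV, ← Real.rpow_add hV]
    norm_num only
    exact mul_le_of_le_one_right (by positivity) (by norm_num at c1 ⊢; exact c1)
  · rw [e4, e5]
    have e6 : (T * c) ^ (-(1 / 4) : ℝ) * V ^ (-(1 / 4) : ℝ) * (V ^ (7 / 8 : ℝ) * ((T * c) ^ ((-(1 / 30) : ℝ) / 2) *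
        V ^ (-(9 / 2) * (-(1 / 30) : ℝ)) * ((64:ℝ)⁻¹) ^ (-(1 / 30) : ℝ))) =
        ((T * c) ^ (-(1 / 4) : ℝ) * (T * c) ^ ((-(1 / 30) : ℝ) / 2)) *
          (V ^ (-(1 / 4) : ℝ) * V ^ (7 / 8 : ℝ) * V ^ (-(9 / 2) * (-(1 / 30) : ℝ))) * ((64:ℝ)⁻¹) ^ (-(1 / 30) : ℝ) := by
      ring
    rw [e6, ← Real.rpow_add hTc, ← Real.rpow_add hV, ← Real.rpow_add hV]
    have e7 : (-(1 / 4) + -(1 / 30) / 2 : ℝ) = -(4 / 15) := by norm_num
    have e8 : (-(1 / 4) + 7 / 8 + -(9 / 2) * -(1 / 30) : ℝ) = 31 / 40 := by norm_num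
    rw [e7, e8]
    have h2 : 0 ≤ (T * c) ^ (-(4 / 15) : ℝ) * V ^ (31 / 40 : ℝ) := by positivity
    nlinarith

/-- one dyadic block -/
lemma block {A5 : ℝ} (hA5 : 0 < A5) (hDT : DT 5 82 (1 / 30) (7 / 8) A5) {T H γ Δ c α a b : ℝ} (hT : 1 ≤ T) (hc : 0 < c)
    (ha : 0 ≤ a) (hab : a ≤ b) (hH : 0 ≤ H) (hΔ : H * Real.exp (-a) ≤ Δ) (hΔ1 : 1 ≤ Δ)
    (hG : GG H γ b + GG H γ a ≤ 1 / T) {V K : ℕ} (hV : 1 ≤ V) (hVT : 2 * (c * V) ≤ T) (hK : 2 * V ≤ K) :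
    ‖∑ n ∈ range V, ((1 - (((V + n : ℕ) : ℝ)) / K : ℝ) : ℂ) * (e (-(((V + n : ℕ) : ℝ) * α)) * TrI T H γ (c * ((V + n : ℕ) : ℝ)) a b)‖ ≤
      20000 * A5 * Δ ^ 2 * ((T * c) ^ (-(7 / 30) : ℝ) * (V:ℝ) ^ (3 / 5 : ℝ) + (T * c) ^ (-(4 / 15) : ℝ) * (V:ℝ) ^ (31 / 40 : ℝ)) := by
  have hT0 : 0 < T := by linarith
  have hV0 : (0:ℝ) < V := by exact_mod_cast hV
  have hV1 : (1:ℝ) ≤ V := by exact_mod_cast hV
  have hK0 : (0:ℝ) < K := by exact_mod_cast (by omega : 0 < K)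
  set l : ℝ := lam5 T c V with hl
  have hl0 : 0 < l := by rw [hl]; unfold lam5; positivity
  set z : ℕ → ℂ := fun n => e (FS T c α 0 ((V:ℝ) + n)) with hz
  set w : ℕ → ℂ := fun n => AA T H γ a b (c * ((V + n : ℕ) : ℝ)) with hw
  set X : ℝ := A5 * (V * l ^ (1 / 30 : ℝ) + (V:ℝ) ^ (7 / 8 : ℝ) * l ^ (-(1 / 30) : ℝ)) with hX
  have hX0 : 0 ≤ X := by positivity
  have hcV : 0 < T * (c * V) := by positivity
  set Q : ℝ := √(√(T * (c * V))) with hQ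
  have hQ0 : 0 < Q := by positivity
  -- the exponential sums
  have h1 : ∀ m ≤ V, ‖∑ n ∈ range m, z n‖ ≤ X := by
    intro m hm
    have h2 := hDT m (fun n : ℕ => FS T c α 0 ((V:ℝ) + n)) l hl0 (DB5 hT0 hc hV hm hVT)
    refine h2.trans ?_
    rw [hX]
    have hmV : (m:ℝ) ≤ V := by exact_mod_cast hm
    gcongr
  -- the weights
  have hQT : 1 / T ≤ 1 / Q := by
    refine one_div_le_one_div_of_le hQ0 ?_
    rw [hQ, ss_rp hcV.le]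
    have h3 : T * (c * V) ≤ T ^ (2:ℕ) := by nlinarith
    calc (T * (c * V)) ^ (1 / 4 : ℝ) ≤ (T ^ (2:ℕ)) ^ (1 / 4 : ℝ) := Real.rpow_le_rpow hcV.le h3 (by norm_num)
      _ = T ^ (1 / 2 : ℝ) := by rw [← Real.rpow_natCast, ← Real.rpow_mul hT0.le]; norm_num
      _ ≤ T ^ (1:ℝ) := Real.rpow_le_rpow_of_exponent_le hT (by norm_num)
      _ = T := Real.rpow_one T
  have h2 : ∀ n < V, ‖w n‖ ≤ 32 / Q := by
    intro n _
    have hp : 0 < c * ((V + n : ℕ) : ℝ) := by push_cast; positivity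
    refine (AA_norm hT0 hp ha hab).trans ?_
    refine div_le_div_of_nonneg_left (by norm_num) hQ0 ?_
    refine Real.sqrt_le_sqrt (Real.sqrt_le_sqrt ?_)
    have : (V:ℝ) ≤ ((V + n : ℕ) : ℝ) := by push_cast; linarith [(Nat.cast_nonneg n : (0:ℝ) ≤ n)]
    gcongr
  have h3 : ∀ n, n + 1 < V → ‖w (n + 1) - w n‖ ≤ (1 / V) * ((8385 + 128 * Δ ^ 2) / Q) := by
    intro n _
    have hVn : (V:ℝ) ≤ ((V + n : ℕ) : ℝ) := by push_cast; linarith [(Nat.cast_nonneg n : (0:ℝ) ≤ n)]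
    have hp : 0 < c * ((V + n : ℕ) : ℝ) := by push_cast; positivity
    have h4 := AA_lip (T := T) (H := H) (c := γ) (a := a) (b := b) (Δ := Δ) (η1 := c * ((V + n : ℕ) : ℝ))
      (η2 := c * ((V + (n + 1) : ℕ) : ℝ)) hT0 hp (by push_cast; nlinarith) hab ha hH hΔ
    refine h4.trans ?_
    have e1 : c * ((V + (n + 1) : ℕ) : ℝ) - c * ((V + n : ℕ) : ℝ) = c := by push_cast; ring
    rw [e1]
    have g1 : 1 / (c * ((V + n : ℕ) : ℝ)) * c = 1 / ((V + n : ℕ) : ℝ) := by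
      have : (((V + n : ℕ) : ℝ)) ≠ 0 := by push_cast; positivity
      field_simp
    have g2 : Q ≤ √(√(T * (c * ((V + n : ℕ) : ℝ)))) := by
      rw [hQ]
      refine Real.sqrt_le_sqrt (Real.sqrt_le_sqrt ?_)
      gcongr
    have g3 : (8384 + 128 * Δ ^ 2) / √(√(T * (c * ((V + n : ℕ) : ℝ)))) ≤ (8384 + 128 * Δ ^ 2) / Q :=
      div_le_div_of_nonneg_left (by positivity) hQ0 g2
    have g4 : GG H γ b + GG H γ a + (8384 + 128 * Δ ^ 2) / √(√(T * (c * ((V + n : ℕ) : ℝ)))) ≤ (8385 + 128 * Δ ^ 2) / Q := by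
      have : (8385 + 128 * Δ ^ 2) / Q = 1 / Q + (8384 + 128 * Δ ^ 2) / Q := by ring
      linarith
    have g5 : 0 ≤ GG H γ b + GG H γ a + (8384 + 128 * Δ ^ 2) / √(√(T * (c * ((V + n : ℕ) : ℝ)))) := by
      have := GG_nn H γ a
      have := GG_nn H γ b
      positivity
    calc 1 / (c * ((V + n : ℕ) : ℝ)) * (GG H γ b + GG H γ a + (8384 + 128 * Δ ^ 2) / √(√(T * (c * ((V + n : ℕ) : ℝ))))) * c =
        (1 / (c * ((V + n : ℕ) : ℝ)) * c) * (GG H γ b + GG H γ a + (8384 + 128 * Δ ^ 2) / √(√(T * (c * ((V + n : ℕ) : ℝ))))) := by ring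
      _ ≤ _ := by
        rw [g1]
        refine mul_le_mul (one_div_le_one_div_of_le hV0 hVn) g4 g5 (by positivity)
  have h5 : ∀ m ≤ V, ‖∑ n ∈ range m, w n * z n‖ ≤ (8417 + 128 * Δ ^ 2) / Q * X := by
    intro m hm
    have h6 := abel_c z w m (fun l hl => h1 l (hl.trans hm)) (fun n hn => h2 n (by omega)) (fun n hn => h3 n (by omega))
      (by positivity) (by positivity)
    refine h6.trans (mul_le_mul_of_nonneg_right ?_ hX0)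
    have hmV : (m:ℝ) ≤ V := by exact_mod_cast hm
    have : (m:ℝ) * ((1 / V) * ((8385 + 128 * Δ ^ 2) / Q)) ≤ (8385 + 128 * Δ ^ 2) / Q := by
      calc (m:ℝ) * ((1 / V) * ((8385 + 128 * Δ ^ 2) / Q)) ≤ V * ((1 / V) * ((8385 + 128 * Δ ^ 2) / Q)) := by gcongr
        _ = _ := by field_simp
    calc 32 / Q + (m:ℝ) * ((1 / V) * ((8385 + 128 * Δ ^ 2) / Q)) ≤ 32 / Q + (8385 + 128 * Δ ^ 2) / Q := by linarith
      _ = _ := by ring
  have h6 := psum_anti (fun n => w n * z n) (fun n => 1 - ((V + n : ℕ) : ℝ) / K) V (B := (8417 + 128 * Δ ^ 2) / Q * X) (A := 1) h5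
    (fun n hn => by
      have : ((V + n : ℕ) : ℝ) ≤ K := by exact_mod_cast (by omega : V + n ≤ K)
      have : ((V + n : ℕ) : ℝ) / K ≤ 1 := (div_le_one hK0).mpr this
      linarith)
    (fun n _ => by
      have : ((V + n : ℕ) : ℝ) / K ≤ ((V + (n + 1) : ℕ) : ℝ) / K := by
        refine div_le_div_of_nonneg_right ?_ hK0.le
        push_cast; linarith
      linarith)
    (fun _ => by
      have : 0 ≤ ((V + 0 : ℕ) : ℝ) / K := by positivity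
      linarith) zero_le_one
  rw [one_mul] at h6
  have e0 : ∑ n ∈ range V, ((1 - (((V + n : ℕ) : ℝ)) / K : ℝ) : ℂ) * (e (-(((V + n : ℕ) : ℝ) * α)) * TrI T H γ (c * ((V + n : ℕ) : ℝ)) a b) =
      ∑ n ∈ range V, ((1 - ((V + n : ℕ) : ℝ) / K : ℝ) : ℂ) * (w n * z n) := by
    refine sum_congr rfl fun n _ => ?_
    rw [hw, hz]
    simp only
    rw [II_eq, FS_zero]
    push_cast
    ring
  rw [e0]
  refine h6.trans ?_
  obtain ⟨p1, p2⟩ := lam_pow hT0 hc hV0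
  have e1 : 1 / Q = (T * (c * V)) ^ (-(1 / 4) : ℝ) := by rw [hQ, ss_rp hcV.le, Real.rpow_neg hcV.le, one_div]
  have e2 : (8417 + 128 * Δ ^ 2) / Q * X = (8417 + 128 * Δ ^ 2) * A5 * ((T * (c * V)) ^ (-(1 / 4) : ℝ) * (V * l ^ (1 / 30 : ℝ)) +
      (T * (c * V)) ^ (-(1 / 4) : ℝ) * ((V:ℝ) ^ (7 / 8 : ℝ) * l ^ (-(1 / 30) : ℝ))) := by
    rw [← e1, hX]; ring
  rw [e2]
  have h7 : (8417 + 128 * Δ ^ 2) ≤ 10000 * Δ ^ 2 := by nlinarith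
  have q1 : 0 ≤ (T * c) ^ (-(7 / 30) : ℝ) * (V:ℝ) ^ (3 / 5 : ℝ) := by positivity
  have q2 : 0 ≤ (T * c) ^ (-(4 / 15) : ℝ) * (V:ℝ) ^ (31 / 40 : ℝ) := by positivity
  calc (8417 + 128 * Δ ^ 2) * A5 * ((T * (c * V)) ^ (-(1 / 4) : ℝ) * (V * l ^ (1 / 30 : ℝ)) +
      (T * (c * V)) ^ (-(1 / 4) : ℝ) * ((V:ℝ) ^ (7 / 8 : ℝ) * l ^ (-(1 / 30) : ℝ))) ≤
      (10000 * Δ ^ 2) * A5 * ((T * c) ^ (-(7 / 30) : ℝ) * (V:ℝ) ^ (3 / 5 : ℝ) + 2 * ((T * c) ^ (-(4 / 15) : ℝ) * (V:ℝ) ^ (31 / 40 : ℝ))) := by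
        refine mul_le_mul (mul_le_mul_of_nonneg_right h7 hA5.le) (add_le_add p1 p2) (by positivity) (by positivity)
    _ ≤ _ := by
      have : 0 ≤ Δ ^ 2 * A5 := by positivity
      nlinarith [mul_nonneg this q1, mul_nonneg this q2]

/-- the dual sum -/
theorem dual_bd : ∃ C : ℝ, 0 < C ∧ ∀ (T H γ Δ c α a b : ℝ) (J K : ℕ), 1 ≤ T → 0 < c → 0 ≤ a → a ≤ b → 0 ≤ H →
    H * Real.exp (-a) ≤ Δ → 1 ≤ Δ → GG H γ b + GG H γ a ≤ 1 / T →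
    2 * T * Real.exp (-a) ≤ c * 2 ^ J * Real.exp a → c * 2 ^ J ≤ T → 2 ^ J ≤ K →
    ‖TrI T H γ 0 a b + ∑ l ∈ Ico 1 K, ((1 - (l:ℝ) / K : ℝ) : ℂ) *
      (e (-(l * α)) * TrI T H γ (c * l) a b + e (l * α) * TrI T H γ (-(c * l)) a b)‖ ≤
      32 * Real.exp b / T + 44 / (c * Real.exp a) * (1 + Real.log K) +
        C * J * Δ ^ 2 * ((T * c) ^ (-(7 / 30) : ℝ) * ((2:ℝ) ^ J) ^ (3 / 5 : ℝ) + (T * c) ^ (-(4 / 15) : ℝ) * ((2:ℝ) ^ J) ^ (31 / 40 : ℝ)) := by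
  obtain ⟨A5, hA5, hDT⟩ := dt5 (ρ := 82) (by norm_num)
  refine ⟨20000 * A5, by positivity, ?_⟩
  intro T H γ Δ c α a b J K hT hc ha hab hH hΔ hΔ1 hG hlarge hJT hJK
  have hT0 : 0 < T := by linarith
  have hK1 : 1 ≤ K := le_trans Nat.one_le_two_pow hJK
  have hK0 : (0:ℝ) < K := by exact_mod_cast hK1
  have hea := Real.exp_pos a
  have hw : ∀ l ∈ Ico 1 K, |1 - (l:ℝ) / K| ≤ 1 := by
    intro l hl
    rw [mem_Ico] at hl
    have h1 : (l:ℝ) / K ≤ 1 := (div_le_one hK0).mpr (by exact_mod_cast hl.2.le)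
    have h2 : 0 ≤ (l:ℝ) / K := by positivity
    rw [abs_le]; constructor <;> linarith
  have hharm : ∑ l ∈ Ico 1 K, ((l:ℝ))⁻¹ ≤ 1 + Real.log K := by
    refine le_trans (sum_le_sum_of_subset_of_nonneg (fun l hl => ?_) fun l _ _ => by positivity) (harm K)
    rw [mem_Ico] at hl; rw [mem_Icc]; omega
  -- negative frequencies
  have hneg : ‖∑ l ∈ Ico 1 K, ((1 - (l:ℝ) / K : ℝ) : ℂ) * (e (l * α) * TrI T H γ (-(c * l)) a b)‖ ≤
      12 / (c * Real.exp a) * (1 + Real.log K) := by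
    have h1 : ∀ l ∈ Ico 1 K, ‖((1 - (l:ℝ) / K : ℝ) : ℂ) * (e (l * α) * TrI T H γ (-(c * l)) a b)‖ ≤
        12 / (c * Real.exp a) * ((l:ℝ))⁻¹ := by
      intro l hl
      have hl' := mem_Ico.mp hl
      have hl0 : (0:ℝ) < l := by exact_mod_cast hl'.1
      rw [norm_mul, norm_mul, norm_e, one_mul, Complex.norm_real, Real.norm_eq_abs]
      have h2 := II_neg (H := H) (c := γ) (a := a) (b := b) hT0 (show 0 < c * l by positivity) hab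
      calc |1 - (l:ℝ) / K| * ‖TrI T H γ (-(c * l)) a b‖ ≤ 1 * (12 / (c * l * Real.exp a)) :=
            mul_le_mul (hw l hl) h2 (norm_nonneg _) zero_le_one
        _ = _ := by field_simp
    refine (norm_sum_le _ _).trans ((sum_le_sum h1).trans ?_)
    rw [← mul_sum]
    exact mul_le_mul_of_nonneg_left hharm (by positivity)
  -- positive large frequencies
  have hbig : ‖∑ l ∈ Ico (2 ^ J) K, ((1 - (l:ℝ) / K : ℝ) : ℂ) * (e (-(l * α)) * TrI T H γ (c * l) a b)‖ ≤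
      32 / (c * Real.exp a) * (1 + Real.log K) := by
    have h1 : ∀ l ∈ Ico (2 ^ J) K, ‖((1 - (l:ℝ) / K : ℝ) : ℂ) * (e (-(l * α)) * TrI T H γ (c * l) a b)‖ ≤
        32 / (c * Real.exp a) * ((l:ℝ))⁻¹ := by
      intro l hl
      have hl' := mem_Ico.mp hl
      have hl1 : 1 ≤ l := le_trans Nat.one_le_two_pow hl'.1
      have hl0 : (0:ℝ) < l := by exact_mod_cast hl1
      have hlJ : (2:ℝ) ^ J ≤ l := by exact_mod_cast hl'.1
      rw [norm_mul, norm_mul, norm_e, one_mul, Complex.norm_real, Real.norm_eq_abs]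
      have h2 := II_large (H := H) (c := γ) (a := a) (b := b) hT0 (show 0 < c * l by positivity) hab (by
        refine hlarge.trans ?_
        gcongr)
      calc |1 - (l:ℝ) / K| * ‖TrI T H γ (c * l) a b‖ ≤ 1 * (32 / (c * l * Real.exp a)) :=
            mul_le_mul (hw l (mem_Ico.mpr ⟨hl1, hl'.2⟩)) h2 (norm_nonneg _) zero_le_one
        _ = _ := by field_simp
    refine (norm_sum_le _ _).trans ((sum_le_sum h1).trans ?_)
    rw [← mul_sum]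
    refine mul_le_mul_of_nonneg_left (le_trans ?_ hharm) (by positivity)
    refine sum_le_sum_of_subset_of_nonneg (fun l hl => ?_) fun l _ _ => by positivity
    rw [mem_Ico] at hl ⊢
    exact ⟨le_trans Nat.one_le_two_pow hl.1, hl.2⟩
  -- stationary frequencies
  set R : ℝ := (T * c) ^ (-(7 / 30) : ℝ) * ((2:ℝ) ^ J) ^ (3 / 5 : ℝ) + (T * c) ^ (-(4 / 15) : ℝ) * ((2:ℝ) ^ J) ^ (31 / 40 : ℝ) with hR
  have hstat : ∀ j ≤ J, ‖∑ l ∈ Ico (1:ℕ) (2 ^ j), ((1 - (l:ℝ) / K : ℝ) : ℂ) * (e (-(l * α)) * TrI T H γ (c * l) a b)‖ ≤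
      j * (20000 * A5 * Δ ^ 2 * R) := by
    intro j
    induction j with
    | zero => intro _; simp
    | succ j ih =>
      intro hj
      have hsp : Ico 1 (2 ^ (j + 1)) = Ico 1 (2 ^ j) ∪ Ico (2 ^ j) (2 ^ (j + 1)) := by
        rw [Ico_union_Ico_eq_Ico Nat.one_le_two_pow (Nat.pow_le_pow_right (by norm_num) (by omega))]
      have hdis : Disjoint (Ico 1 (2 ^ j)) (Ico (2 ^ j) (2 ^ (j + 1))) := Ico_disjoint_Ico_consecutive _ _ _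
      rw [hsp, sum_union hdis]
      refine (norm_add_le _ _).trans ?_
      rw [show ((j + 1 : ℕ) : ℝ) = (j:ℝ) + 1 by push_cast; ring, add_mul, one_mul]
      refine add_le_add (ih (by omega)) ?_
      rw [sum_Ico_eq_sum_range, show 2 ^ (j + 1) - 2 ^ j = 2 ^ j by rw [pow_succ]; omega]
      have hjJ : (2:ℝ) ^ (j + 1) ≤ 2 ^ J := pow_le_pow_right₀ (by norm_num) hj
      have h2 := block hA5 hDT (T := T) (H := H) (γ := γ) (Δ := Δ) (c := c) (α := α) (a := a) (b := b) hT hc ha hab hH hΔ hΔ1 hG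
        (V := 2 ^ j) (K := K) Nat.one_le_two_pow (by
          push_cast
          calc 2 * (c * 2 ^ j) = c * 2 ^ (j + 1) := by ring
            _ ≤ c * 2 ^ J := by gcongr
            _ ≤ T := hJT) (by
          calc 2 * 2 ^ j = 2 ^ (j + 1) := by ring
            _ ≤ 2 ^ J := Nat.pow_le_pow_right (by norm_num) hj
            _ ≤ K := hJK)
      refine h2.trans ?_
      push_cast
      have hjJ' : (2:ℝ) ^ j ≤ 2 ^ J := pow_le_pow_right₀ (by norm_num) (by omega)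
      rw [hR]
      gcongr
  have hsplit : Ico 1 K = Ico 1 (2 ^ J) ∪ Ico (2 ^ J) K := by
    rw [Ico_union_Ico_eq_Ico Nat.one_le_two_pow hJK]
  have hdis : Disjoint (Ico 1 (2 ^ J)) (Ico (2 ^ J) K) := Ico_disjoint_Ico_consecutive _ _ _
  have e1 : ∑ l ∈ Ico 1 K, ((1 - (l:ℝ) / K : ℝ) : ℂ) *
      (e (-(l * α)) * TrI T H γ (c * l) a b + e (l * α) * TrI T H γ (-(c * l)) a b) =
      (∑ l ∈ Ico (1:ℕ) (2 ^ J), ((1 - (l:ℝ) / K : ℝ) : ℂ) * (e (-(l * α)) * TrI T H γ (c * l) a b) +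
        ∑ l ∈ Ico (2 ^ J) K, ((1 - (l:ℝ) / K : ℝ) : ℂ) * (e (-(l * α)) * TrI T H γ (c * l) a b)) +
      ∑ l ∈ Ico 1 K, ((1 - (l:ℝ) / K : ℝ) : ℂ) * (e (l * α) * TrI T H γ (-(c * l)) a b) := by
    rw [← sum_union hdis, ← hsplit, ← sum_add_distrib]
    exact sum_congr rfl fun l _ => by rw [mul_add]
  rw [e1]
  have k0 := II_zero (H := H) (c := γ) (a := a) (b := b) hT0 ha hab
  have k1 := hstat J le_rfl
  have n1 := norm_add_le (TrI T H γ 0 a b) ((∑ l ∈ Ico (1:ℕ) (2 ^ J), ((1 - (l:ℝ) / K : ℝ) : ℂ) * (e (-(l * α)) * TrI T H γ (c * l) a b) +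
        ∑ l ∈ Ico (2 ^ J) K, ((1 - (l:ℝ) / K : ℝ) : ℂ) * (e (-(l * α)) * TrI T H γ (c * l) a b)) +
      ∑ l ∈ Ico 1 K, ((1 - (l:ℝ) / K : ℝ) : ℂ) * (e (l * α) * TrI T H γ (-(c * l)) a b))
  have n2 := norm_add_le (∑ l ∈ Ico (1:ℕ) (2 ^ J), ((1 - (l:ℝ) / K : ℝ) : ℂ) * (e (-(l * α)) * TrI T H γ (c * l) a b) +
        ∑ l ∈ Ico (2 ^ J) K, ((1 - (l:ℝ) / K : ℝ) : ℂ) * (e (-(l * α)) * TrI T H γ (c * l) a b))
      (∑ l ∈ Ico 1 K, ((1 - (l:ℝ) / K : ℝ) : ℂ) * (e (l * α) * TrI T H γ (-(c * l)) a b))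
  have n3 := norm_add_le (∑ l ∈ Ico (1:ℕ) (2 ^ J), ((1 - (l:ℝ) / K : ℝ) : ℂ) * (e (-(l * α)) * TrI T H γ (c * l) a b))
        (∑ l ∈ Ico (2 ^ J) K, ((1 - (l:ℝ) / K : ℝ) : ℂ) * (e (-(l * α)) * TrI T H γ (c * l) a b))
  have e2 : 44 / (c * Real.exp a) * (1 + Real.log K) = 12 / (c * Real.exp a) * (1 + Real.log K) +
      32 / (c * Real.exp a) * (1 + Real.log K) := by ring
  rw [e2]
  have e3 : 20000 * A5 * J * Δ ^ 2 * R = J * (20000 * A5 * Δ ^ 2 * R) := by ring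
  rw [e3]
  linarith

end Pool.Agent.Zk6.QQ
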