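import Pool.Agent.Zk6.Q7
import Pool.Agent.Zk6.K4

set_option autoImplicit false

/-! One fibre of the near-diagonal sum. -/

namespace Pool.Agent.Zk6.QQ

open Finset MeasureTheory
open Pool.Agent.H469R2.NK (e norm_e e_add conj_e e_zero)
open Pool.Agent.Y969.GP (V V1 ht co PS S_V)

section
variable {h k r a0 n0 : ℕ}

/-- the variable `y` -/
noncomputable def yv (h k r a0 : ℕ) (x : ℝ) : ℝ := h * (a0 + k * x) / r

/-- the summand as a function of the logarithmic variable -/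
noncomputable def gu (T H γ C0 u : ℝ) : ℂ :=
  ((C0 * Real.exp (-u) * GG H γ u : ℝ) : ℂ) * E (fun u => T * ell u) u

lemma gu_d (T H γ C0 u : ℝ) : HasDerivAt (gu T H γ C0)
    (((C0 * (-Real.exp (-u)) * GG H γ u + C0 * Real.exp (-u) * GG1 H γ u : ℝ) : ℂ) * E (fun u => T * ell u) u +
      ((C0 * Real.exp (-u) * GG H γ u : ℝ) : ℂ) * (Complex.I * ((T * (-ww u) : ℝ) : ℂ) * E (fun u => T * ell u) u)) u := by
  unfold gu
  have h1 : HasDerivAt (fun u : ℝ => Real.exp (-u)) (-Real.exp (-u)) u := by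
    have := (hasDerivAt_id u).neg.exp
    simpa using this
  have h2 := ((h1.const_mul C0).mul ((bv_GG (le_refl (0:ℝ)) H γ).d u)).ofReal_comp
  have h3 : HasDerivAt (E fun u => T * ell u) (Complex.I * ((T * (-ww u) : ℝ) : ℂ) * E (fun u => T * ell u) u) u :=
    E_deriv (Φ := fun u => T * ell u) (Φ1 := fun u => T * (-ww u)) ((ell_d u).const_mul T)
  exact h2.mul h3

lemma gu_d_norm {T H γ C0 u Δ : ℝ} (hT : 0 ≤ T) (hC0 : 0 ≤ C0) (hu : 0 ≤ u)
    (h1 : |GG1 H γ u| ≤ 260 + 4 * Δ ^ 2) :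
    ‖((C0 * (-Real.exp (-u)) * GG H γ u + C0 * Real.exp (-u) * GG1 H γ u : ℝ) : ℂ) * E (fun u => T * ell u) u +
      ((C0 * Real.exp (-u) * GG H γ u : ℝ) : ℂ) * (Complex.I * ((T * (-ww u) : ℝ) : ℂ) * E (fun u => T * ell u) u)‖ ≤
      C0 * (T + 261 + 4 * Δ ^ 2) := by
  have hE := Real.exp_pos (-u)
  have hE1 : Real.exp (-u) ≤ 1 := by rw [Real.exp_le_one_iff]; linarith
  have hG0 := GG_nn H γ u
  have hG1 : GG H γ u ≤ 1 := (GG_le1 H γ u).trans (g2_le γ u)
  have hw0 := ww_pos u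
  have hw1 := ww_lt u
  refine (norm_add_le _ _).trans ?_
  have k1 : ‖((C0 * (-Real.exp (-u)) * GG H γ u + C0 * Real.exp (-u) * GG1 H γ u : ℝ) : ℂ) * E (fun u => T * ell u) u‖ ≤
      C0 * (261 + 4 * Δ ^ 2) := by
    rw [norm_mul, E_norm, mul_one, Complex.norm_real, Real.norm_eq_abs]
    have e1 : C0 * (-Real.exp (-u)) * GG H γ u + C0 * Real.exp (-u) * GG1 H γ u =
        C0 * (Real.exp (-u) * (GG1 H γ u - GG H γ u)) := by ring
    rw [e1, abs_mul, abs_of_nonneg hC0, abs_mul, abs_of_pos hE]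
    refine mul_le_mul_of_nonneg_left ?_ hC0
    have h2 : |GG1 H γ u - GG H γ u| ≤ 261 + 4 * Δ ^ 2 := by
      rw [abs_le] at h1 ⊢
      constructor <;> linarith [h1.1, h1.2]
    calc Real.exp (-u) * |GG1 H γ u - GG H γ u| ≤ 1 * (261 + 4 * Δ ^ 2) :=
          mul_le_mul hE1 h2 (abs_nonneg _) zero_le_one
      _ = _ := one_mul _
  have k2 : ‖((C0 * Real.exp (-u) * GG H γ u : ℝ) : ℂ) * (Complex.I * ((T * (-ww u) : ℝ) : ℂ) * E (fun u => T * ell u) u)‖ ≤ C0 * T := by
    rw [norm_mul, norm_mul, norm_mul, E_norm, mul_one, Complex.norm_I, one_mul, Complex.norm_real, Complex.norm_real,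
      Real.norm_eq_abs, Real.norm_eq_abs, abs_of_nonneg (by positivity), abs_mul, abs_of_nonneg hT, abs_neg, abs_of_pos hw0]
    have h3 : Real.exp (-u) * GG H γ u ≤ 1 := by nlinarith
    calc C0 * Real.exp (-u) * GG H γ u * (T * ww u) = C0 * (Real.exp (-u) * GG H γ u) * (T * ww u) := by ring
      _ ≤ C0 * 1 * (T * 1) := by gcongr
      _ = _ := by ring
  linarith

/-- the summand in terms of the logarithmic variable -/
lemma FF_gu {T H : ℝ} (hT : 0 < T) (hh : 1 ≤ h) (hk : 1 ≤ k) (hr : 1 ≤ r) (hrel : n0 * k = a0 * h + r) {l : ℕ} (hl : 1 ≤ l) :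
    FF H T h k (a0 + k * l, n0 + h * l) =
      gu T H (Real.log (2 * Real.pi * r ^ 2 / (h * k * T))) (2 * √(h * k) / r) (Real.log (yv h k r a0 l)) := by
  have hh0 : (0:ℝ) < h := by exact_mod_cast hh
  have hk0 : (0:ℝ) < k := by exact_mod_cast hk
  have hr0 : (0:ℝ) < r := by exact_mod_cast hr
  have hl0 : (0:ℝ) < l := by exact_mod_cast hl
  have hm0 : (0:ℝ) < a0 + k * l := by positivity
  have hpi := Real.pi_pos
  set y : ℝ := yv h k r a0 l with hy
  have hy0 : 0 < y := by rw [hy]; unfold yv; positivity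
  have hrel' : (n0:ℝ) * k = a0 * h + r := by exact_mod_cast hrel
  have hm : ((a0 + k * l : ℕ) : ℝ) = r * y / h := by
    rw [hy]; unfold yv; push_cast; field_simp
  have hn : ((n0 + h * l : ℕ) : ℝ) = r * (y + 1) / k := by
    rw [hy]; unfold yv; push_cast; field_simp; linarith
  have hell : ell (Real.log y) = Real.log (1 + y⁻¹) := by
    unfold ell; rw [Real.exp_neg, Real.exp_log hy0]
  have hell' : Real.log (1 + y⁻¹) = Real.log (y + 1) - Real.log y := by
    rw [show 1 + y⁻¹ = (y + 1) / y by field_simp, Real.log_div (by positivity) hy0.ne']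
  have hLL : LL h k (a0 + k * l, n0 + h * l) = ell (Real.log y) := by
    unfold LL
    simp only
    rw [hm, hn, hell, hell', Real.log_div (by positivity) hk0.ne', Real.log_div (by positivity) hh0.ne',
      Real.log_mul hr0.ne' (by positivity), Real.log_mul hr0.ne' hy0.ne']
    ring
  have hht : ht (a0 + k * l, n0 + h * l) = r ^ 2 * (y * (y + 1)) / (h * k) := by
    unfold ht; simp only; rw [hm, hn]; field_simp
  have hLc : Real.exp (Lc (Real.log (2 * Real.pi * r ^ 2 / (h * k * T))) (Real.log y)) = 2 * Real.pi * ht (a0 + k * l, n0 + h * l) / T := by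
    unfold Lc
    rw [Real.exp_add, Real.exp_add, Real.exp_log (by positivity), hell, Real.exp_log (by positivity), hht]
    have : Real.exp (2 * Real.log y) = y ^ 2 := by
      rw [two_mul, Real.exp_add, Real.exp_log hy0]; ring
    rw [this]
    field_simp
  have hco : co (a0 + k * l, n0 + h * l) T = 2 * √(h * k) / r * Real.exp (-Real.log y) *
      (g2 (Real.log (2 * Real.pi * r ^ 2 / (h * k * T))) (Real.log y) * Real.exp (-(ell (Real.log y)) / 2)) := by
    unfold co g2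
    rw [hLc]
    have h1 : (√(ht (a0 + k * l, n0 + h * l)))⁻¹ = √(h * k) / r * Real.exp (-Real.log y) * Real.exp (-(ell (Real.log y)) / 2) := by
      rw [hht, Real.sqrt_div (by positivity), Real.sqrt_mul (by positivity), Real.sqrt_sq hr0.le]
      have h2 : √(y * (y + 1)) = y * Real.exp (ell (Real.log y) / 2) := by
        have h3 : Real.exp (ell (Real.log y) / 2) = √(1 + y⁻¹) := by
          rw [hell, Real.sqrt_eq_rpow, Real.rpow_def_of_pos (by positivity)]
          congr 1; ring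
        rw [h3, show y * (y + 1) = y ^ 2 * (1 + y⁻¹) by field_simp, Real.sqrt_mul (by positivity), Real.sqrt_sq hy0.le]
      rw [h2, Real.exp_neg, Real.exp_log hy0, show -(ell (Real.log y)) / 2 = -(ell (Real.log y) / 2) by ring, Real.exp_neg]
      field_simp
    rw [h1]
    ring
  unfold FF gu GG pp
  rw [hco, hLL]
  have e1 : Real.exp (-(ell (Real.log y)) / 2 - H ^ 2 / 4 * ell (Real.log y) ^ 2) =
      Real.exp (-(ell (Real.log y)) / 2) * Real.exp (-(H * ell (Real.log y)) ^ 2 / 4) := by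
    rw [← Real.exp_add]; congr 1; ring
  rw [e1]
  unfold E
  push_cast
  ring

/-- the change of variables in the Fourier integral -/
lemma four (T H γ C0 ν : ℝ) (hh : 1 ≤ h) (hk : 1 ≤ k) (hr : 1 ≤ r) {xa xb : ℝ} (hxa : 0 < xa) (hab : xa ≤ xb) :
    ∫ x in xa..xb, e (ν * x) * gu T H γ C0 (Real.log (yv h k r a0 x)) =
      ((C0 * (r / (h * k)) : ℝ) : ℂ) * (e (-(ν * (a0 / k))) *
        TrI T H γ (2 * Real.pi * r / (h * k) * ν) (Real.log (yv h k r a0 xa)) (Real.log (yv h k r a0 xb))) := by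
  have hh0 : (0:ℝ) < h := by exact_mod_cast hh
  have hk0 : (0:ℝ) < k := by exact_mod_cast hk
  have hr0 : (0:ℝ) < r := by exact_mod_cast hr
  have hyp : ∀ x, 0 < x → 0 < yv h k r a0 x := fun x hx => by unfold yv; positivity
  set a := Real.log (yv h k r a0 xa) with ha
  set b := Real.log (yv h k r a0 xb) with hb
  set f : ℝ → ℝ := fun u => (r * Real.exp u / h - a0) / k with hf
  have hfy : ∀ u, yv h k r a0 (f u) = Real.exp u := by
    intro u; rw [hf]; unfold yv; field_simp; ring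
  have hfa : f a = xa := by
    rw [hf]; simp only; rw [ha, Real.exp_log (hyp xa hxa)]; unfold yv; field_simp; ring
  have hfb : f b = xb := by
    rw [hf]; simp only; rw [hb, Real.exp_log (hyp xb (by linarith))]; unfold yv; field_simp; ring
  have hfd : ∀ u, HasDerivAt f (r * Real.exp u / (h * k)) u := by
    intro u
    have := ((((Real.hasDerivAt_exp u).const_mul (r:ℝ)).div_const (h:ℝ)).sub_const (a0:ℝ)).div_const (k:ℝ)
    exact this.congr_deriv (by field_simp)
  have hlog : Real.log (yv h k r a0 xa) ≤ Real.log (yv h k r a0 xb) := by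
    refine Real.log_le_log (hyp xa hxa) ?_
    unfold yv; gcongr
  have hguc : Continuous (gu T H γ C0) := continuous_iff_continuousAt.mpr fun u => (gu_d T H γ C0 u).continuousAt
  have hsub := intervalIntegral.integral_comp_smul_deriv' (a := a) (b := b) (f := f) (f' := fun u => r * Real.exp u / (h * k))
    (g := fun x => e (ν * x) * gu T H γ C0 (Real.log (yv h k r a0 x))) (fun u _ => hfd u)
    (by fun_prop) (by
      intro x hx
      obtain ⟨u, _, rfl⟩ := hx
      refine ContinuousAt.continuousWithinAt ?_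
      have h1 : ContinuousAt (fun x => Real.log (yv h k r a0 x)) (f u) := by
        refine ContinuousAt.log ?_ (by rw [hfy]; exact (Real.exp_pos u).ne')
        unfold yv; fun_prop
      exact (e_cont.continuousAt.comp (by fun_prop)).mul (hguc.continuousAt.comp h1))
  rw [hfa, hfb] at hsub
  rw [← hsub]
  unfold TrI
  rw [← intervalIntegral.integral_const_mul, ← intervalIntegral.integral_const_mul]
  refine intervalIntegral.integral_congr fun u _ => ?_
  simp only [Function.comp]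
  rw [hfy, Real.log_exp]
  unfold gu
  have h1 : E (Ph T (2 * Real.pi * r / (h * k) * ν)) u = e (ν * (r * Real.exp u / (h * k))) * E (fun u => T * ell u) u := by
    unfold E e Ph
    rw [← Complex.exp_add]
    congr 1
    push_cast
    ring
  have h2 : e (ν * f u) = e (-(ν * (a0 / k))) * e (ν * (r * Real.exp u / (h * k))) := by
    rw [← e_add]; congr 1; rw [hf]; field_simp; ring
  rw [h1, h2, Complex.real_smul]
  have h3 : ((C0 * (r / (h * k)) : ℝ) : ℂ) = ((C0 * Real.exp (-u) : ℝ) : ℂ) * ((r * Real.exp u / (h * k) : ℝ) : ℂ) := by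
    rw [← Complex.ofReal_mul]
    congr 1
    rw [Real.exp_neg]
    have := Real.exp_pos u
    field_simp
  rw [h3]
  push_cast
  ring

/-- the fibre -/
theorem fiber : ∃ C : ℝ, 0 < C ∧ ∀ (h k r a0 n0 A B : ℕ) (T H Δ : ℝ) (J K : ℕ), 1 ≤ h → 1 ≤ k → 1 ≤ r →
    n0 * k = a0 * h + r → 1 ≤ A → A ≤ B → 1 ≤ T → 0 ≤ H → 1 ≤ Δ →
    1 ≤ yv h k r a0 (A - 1 / 2) → H / yv h k r a0 (A - 1 / 2) ≤ Δ →
    GG H (Real.log (2 * Real.pi * r ^ 2 / (h * k * T))) (Real.log (yv h k r a0 (B - 1 / 2))) +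
      GG H (Real.log (2 * Real.pi * r ^ 2 / (h * k * T))) (Real.log (yv h k r a0 (A - 1 / 2))) ≤ 1 / T →
    2 * T ≤ 2 * Real.pi * r / (h * k) * 2 ^ J * yv h k r a0 (A - 1 / 2) ^ 2 → 2 * Real.pi * r / (h * k) * 2 ^ J ≤ T → 2 ^ J ≤ K →
    ‖∑ l ∈ Ico A B, FF H T h k (a0 + k * l, n0 + h * l)‖ ≤
      2 * (32 * yv h k r a0 (B - 1 / 2) / T + 44 / (2 * Real.pi * r / (h * k) * yv h k r a0 (A - 1 / 2)) * (1 + Real.log K) +
        C * J * Δ ^ 2 * ((T * (2 * Real.pi * r / (h * k))) ^ (-(7 / 30) : ℝ) * ((2:ℝ) ^ J) ^ (3 / 5 : ℝ) +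
          (T * (2 * Real.pi * r / (h * k))) ^ (-(4 / 15) : ℝ) * ((2:ℝ) ^ J) ^ (31 / 40 : ℝ))) +
      ((B:ℝ) - A) * (2 * √(h * k) / r * (T + 261 + 4 * Δ ^ 2) * (h * k / r) * (1 / (2 * √K))) := by
  obtain ⟨C, hC, hdual⟩ := dual_bd
  refine ⟨C, hC, ?_⟩
  intro h k r a0 n0 A B T H Δ J K hh hk hr hrel hA hAB hT hH hΔ1 hya hΔ hG hlarge hJT hJK
  have hT0 : 0 < T := by linarith
  have hh0 : (0:ℝ) < h := by exact_mod_cast hh
  have hk0 : (0:ℝ) < k := by exact_mod_cast hk
  have hr0 : (0:ℝ) < r := by exact_mod_cast hr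
  have hA1 : (1:ℝ) ≤ A := by exact_mod_cast hA
  have hABr : (A:ℝ) ≤ B := by exact_mod_cast hAB
  have hpi := Real.pi_pos
  set γ : ℝ := Real.log (2 * Real.pi * r ^ 2 / (h * k * T)) with hγ
  set C0 : ℝ := 2 * √(h * k) / r with hC0
  have hC00 : 0 ≤ C0 := by positivity
  set c : ℝ := 2 * Real.pi * r / (h * k) with hc
  have hc0 : 0 < c := by positivity
  set ya : ℝ := yv h k r a0 (A - 1 / 2) with hyad
  set yb : ℝ := yv h k r a0 (B - 1 / 2) with hybd
  have hya0 : 0 < ya := by linarith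
  have hmono : ∀ x y : ℝ, x ≤ y → yv h k r a0 x ≤ yv h k r a0 y := by
    intro x y hxy; unfold yv; gcongr
  have hyab : ya ≤ yb := hmono _ _ (by linarith)
  have hyb0 : 0 < yb := by linarith
  set a : ℝ := Real.log ya with ha
  set b : ℝ := Real.log yb with hb
  have hea : Real.exp a = ya := Real.exp_log hya0
  have heb : Real.exp b = yb := Real.exp_log hyb0
  have ha0 : 0 ≤ a := Real.log_nonneg hya
  have hab : a ≤ b := Real.log_le_log hya0 hyab
  have hena : Real.exp (-a) = 1 / ya := by rw [Real.exp_neg, hea, one_div]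
  have hHa : H * Real.exp (-a) ≤ Δ := by rw [hena, mul_one_div]; exact hΔ
  obtain ⟨G2, hG2⟩ := bv_GG1 hab ha0 hH hHa γ
  set g : ℝ → ℂ := fun x => gu T H γ C0 (Real.log (yv h k r a0 x)) with hg
  set D : ℝ := C0 * (T + 261 + 4 * Δ ^ 2) * (h * k / r) with hD
  have hD0 : 0 ≤ D := by positivity
  -- the Lipschitz bound
  have hlip : ∀ x ∈ Set.Icc ((A:ℝ) - 1 / 2) (B - 1 / 2), ∀ y ∈ Set.Icc ((A:ℝ) - 1 / 2) (B - 1 / 2), ‖g x - g y‖ ≤ D * |x - y| := by
    intro x hx y hy
    have h1 := Convex.norm_image_sub_le_of_norm_hasDerivWithin_le (s := Set.Icc ((A:ℝ) - 1 / 2) (B - 1 / 2)) (f := g)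
      (C := D) (f' := fun x => (k / (a0 + k * x) : ℝ) • (((C0 * (-Real.exp (-Real.log (yv h k r a0 x))) * GG H γ (Real.log (yv h k r a0 x)) + C0 * Real.exp (-Real.log (yv h k r a0 x)) * GG1 H γ (Real.log (yv h k r a0 x)) : ℝ) : ℂ) * E (fun u => T * ell u) (Real.log (yv h k r a0 x)) +
      ((C0 * Real.exp (-Real.log (yv h k r a0 x)) * GG H γ (Real.log (yv h k r a0 x)) : ℝ) : ℂ) * (Complex.I * ((T * (-ww (Real.log (yv h k r a0 x))) : ℝ) : ℂ) * E (fun u => T * ell u) (Real.log (yv h k r a0 x)))))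
      (fun x hx => by
        have hx0 : 0 < x := by linarith [hx.1]
        have hm : (0:ℝ) < a0 + k * x := by positivity
        have hy0 : 0 < yv h k r a0 x := by unfold yv; positivity
        have h2 : HasDerivAt (fun x => Real.log (yv h k r a0 x)) (k / (a0 + k * x)) x := by
          have h3 : HasDerivAt (yv h k r a0) (h * k / r) x := by
            unfold yv
            have := ((((hasDerivAt_id x).const_mul (k:ℝ)).const_add (a0:ℝ)).const_mul (h:ℝ)).div_const (r:ℝ)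
            exact this.congr_deriv (by simp)
          refine (h3.log hy0.ne').congr_deriv ?_
          unfold yv
          field_simp
        exact (HasDerivAt.scomp x (gu_d T H γ C0 _) h2).hasDerivWithinAt)
      (fun x hx => by
        have hx0 : 0 < x := by linarith [hx.1]
        have hm : (0:ℝ) < a0 + k * x := by positivity
        have hy1 : ya ≤ yv h k r a0 x := hmono _ _ hx.1
        have hy2 : yv h k r a0 x ≤ yb := hmono _ _ hx.2
        have hu0 : 0 ≤ Real.log (yv h k r a0 x) := Real.log_nonneg (by linarith)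
        have hmem : Real.log (yv h k r a0 x) ∈ Set.Icc a b :=
          ⟨Real.log_le_log hya0 hy1, Real.log_le_log (by linarith) hy2⟩
        have h4 := gu_d_norm (T := T) (H := H) (γ := γ) (C0 := C0) (Δ := Δ) hT0.le hC00 hu0 (hG2.s _ hmem)
        rw [norm_smul, Real.norm_eq_abs, abs_of_pos (by positivity)]
        have h5 : (k:ℝ) / (a0 + k * x) ≤ h * k / r := by
          have h6 : 1 ≤ yv h k r a0 x := by linarith
          unfold yv at h6
          rw [le_div_iff₀ hr0] at h6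
          rw [div_le_div_iff₀ hm hr0]
          nlinarith
        calc (k:ℝ) / (a0 + k * x) * _ ≤ (h * k / r) * (C0 * (T + 261 + 4 * Δ ^ 2)) :=
              mul_le_mul h5 h4 (norm_nonneg _) (by positivity)
          _ = D := by rw [hD]; ring)
      (convex_Icc _ _) hy hx
    rwa [Real.norm_eq_abs] at h1
  have hK1 : 1 ≤ K := le_trans Nat.one_le_two_pow hJK
  have hfs := fejer_sum hK1 hAB hD0 hlip
  have hxa : (0:ℝ) < A - 1 / 2 := by linarith
  have hxab : (A:ℝ) - 1 / 2 ≤ B - 1 / 2 := by linarith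
  -- the sum
  have hsum : ∑ l ∈ Ico A B, FF H T h k (a0 + k * l, n0 + h * l) = ∑ l ∈ Ico A B, g l := by
    refine sum_congr rfl fun l hl => ?_
    rw [mem_Ico] at hl
    rw [FF_gu hT0 hh hk hr hrel (by omega)]
  -- the integrals
  have hi0 : ∫ x in ((A:ℝ) - 1 / 2)..(B - 1 / 2), g x = ((C0 * (r / (h * k)) : ℝ) : ℂ) * TrI T H γ 0 a b := by
    have h1 := four (a0 := a0) T H γ C0 0 hh hk hr hxa hxab
    simp only [zero_mul, e_zero, neg_zero, one_mul, mul_zero] at h1
    exact h1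
  have hi1 : ∀ l : ℕ, ∫ x in ((A:ℝ) - 1 / 2)..(B - 1 / 2), e (l * x) * g x =
      ((C0 * (r / (h * k)) : ℝ) : ℂ) * (e (-(l * (a0 / k))) * TrI T H γ (c * l) a b) := fun l =>
    four (a0 := a0) T H γ C0 l hh hk hr hxa hxab
  have hi2 : ∀ l : ℕ, ∫ x in ((A:ℝ) - 1 / 2)..(B - 1 / 2), e (-(l * x)) * g x =
      ((C0 * (r / (h * k)) : ℝ) : ℂ) * (e (l * (a0 / k)) * TrI T H γ (-(c * l)) a b) := by
    intro l
    have h1 := four (a0 := a0) T H γ C0 (-(l:ℝ)) hh hk hr hxa hxab
    rw [neg_mul, neg_neg, mul_neg] at h1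
    rw [← h1]
    refine intervalIntegral.integral_congr fun x _ => ?_
    simp only [neg_mul]
    rfl
  simp_rw [hi0, hi1, hi2] at hfs
  have e1 : ((C0 * (r / (h * k)) : ℝ) : ℂ) * TrI T H γ 0 a b + ∑ l ∈ Ico 1 K, ((1 - (l:ℝ) / K : ℝ) : ℂ) *
      (((C0 * (r / (h * k)) : ℝ) : ℂ) * (e (-(l * (a0 / k))) * TrI T H γ (c * l) a b) +
        ((C0 * (r / (h * k)) : ℝ) : ℂ) * (e (l * (a0 / k)) * TrI T H γ (-(c * l)) a b)) =
      ((C0 * (r / (h * k)) : ℝ) : ℂ) * (TrI T H γ 0 a b + ∑ l ∈ Ico 1 K, ((1 - (l:ℝ) / K : ℝ) : ℂ) *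
        (e (-(l * (a0 / k))) * TrI T H γ (c * l) a b + e (l * (a0 / k)) * TrI T H γ (-(c * l)) a b)) := by
    rw [mul_add, mul_sum]
    congr 1
    refine sum_congr rfl fun l _ => ?_
    ring
  rw [e1] at hfs
  have hd := hdual T H γ Δ c (a0 / k) a b J K hT hc0 ha0 hab hH hHa hΔ1 hG (by
    rw [hena, hea]
    rw [mul_one_div, div_le_iff₀ hya0]
    calc 2 * T ≤ c * 2 ^ J * ya ^ 2 := hlarge
      _ = _ := by ring) hJT hJK
  rw [hea, heb] at hd
  have hC2 : C0 * (r / (h * k)) ≤ 2 := by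
    rw [hC0]
    have h1 : (1:ℝ) ≤ √(h * k) := Real.one_le_sqrt.mpr (by
      have : (1:ℝ) ≤ h := by exact_mod_cast hh
      have : (1:ℝ) ≤ k := by exact_mod_cast hk
      nlinarith)
    have h2 : √((h:ℝ) * k) * √(h * k) = h * k := Real.mul_self_sqrt (by positivity)
    have h3 : 2 * √((h:ℝ) * k) / r * (r / (h * k)) = 2 / √(h * k) := by
      nth_rewrite 2 [← h2]
      field_simp
    rw [h3]
    exact div_le_self (by norm_num) h1
  rw [hsum]
  have n1 : ‖∑ l ∈ Ico A B, g l‖ ≤ ‖((C0 * (r / (h * k)) : ℝ) : ℂ) * (TrI T H γ 0 a b + ∑ l ∈ Ico 1 K, ((1 - (l:ℝ) / K : ℝ) : ℂ) *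
        (e (-(l * (a0 / k))) * TrI T H γ (c * l) a b + e (l * (a0 / k)) * TrI T H γ (-(c * l)) a b))‖ +
      ((B:ℝ) - A) * (D * (1 / (2 * √K))) := by
    have := norm_le_norm_add_norm_sub' (∑ l ∈ Ico A B, g l) (((C0 * (r / (h * k)) : ℝ) : ℂ) * (TrI T H γ 0 a b + ∑ l ∈ Ico 1 K, ((1 - (l:ℝ) / K : ℝ) : ℂ) *
        (e (-(l * (a0 / k))) * TrI T H γ (c * l) a b + e (l * (a0 / k)) * TrI T H γ (-(c * l)) a b)))
    linarith
  refine n1.trans (add_le_add ?_ (le_of_eq rfl))
  rw [norm_mul, Complex.norm_real, Real.norm_eq_abs, abs_of_nonneg (by positivity)]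
  exact mul_le_mul hC2 hd (norm_nonneg _) (by norm_num)

end

end Pool.Agent.Zk6.QQ
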