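import Pool.Agent.Zk6.Q8

set_option autoImplicit false

/-! Splitting the off-diagonal sum into fibres. -/

namespace Pool.Agent.Zk6.QQ

open Finset
open Pool.Agent.Y969.GP (V V1 ht co PS S_V)
open Pool.Agent.Y545.GP (mem_PS)

/-- the structure of a fibre -/
lemma fib2 {h k r a0 X A : ℕ} (hh : 1 ≤ h) (hk : 1 ≤ k) (hr : 1 ≤ r) (hA : 1 ≤ A) (F : ℕ × ℕ → ℂ) :
    (∑ p ∈ (PS X).filter (fun p => p.2 * k = p.1 * h + r ∧ p.1 % k = a0 ∧ A ≤ p.1 / k), F p = 0) ∨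
    ∃ n0 B : ℕ, n0 * k = a0 * h + r ∧ a0 < k ∧ A < B ∧ (a0 + k * (B - 1)) * (n0 + h * (B - 1)) ≤ X ∧
      X < (a0 + k * B) * (n0 + h * B) ∧
      ∑ p ∈ (PS X).filter (fun p => p.2 * k = p.1 * h + r ∧ p.1 % k = a0 ∧ A ≤ p.1 / k), F p =
        ∑ l ∈ Ico A B, F (a0 + k * l, n0 + h * l) := by
  set S := (PS X).filter (fun p => p.2 * k = p.1 * h + r ∧ p.1 % k = a0 ∧ A ≤ p.1 / k) with hS
  rcases S.eq_empty_or_nonempty with h0 | ⟨q, hq⟩
  · left; rw [h0, sum_empty]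
  right
  rw [hS, mem_filter, mem_PS] at hq
  obtain ⟨⟨q1, q2, q3⟩, q4, q5, q6⟩ := hq
  set l0 := q.1 / k with hl0
  have ha0k : a0 < k := by rw [← q5]; exact Nat.mod_lt _ (by omega)
  have hq1 : q.1 = a0 + k * l0 := by rw [← q5, hl0]; exact (Nat.mod_add_div _ _).symm
  have hq2 : l0 * h ≤ q.2 := by
    have h1 : l0 * h * k ≤ q.2 * k := by
      rw [q4, hq1]
      nlinarith
    exact Nat.le_of_mul_le_mul_right h1 (by omega)
  obtain ⟨n0, hn0⟩ : ∃ n0, q.2 = n0 + l0 * h := ⟨q.2 - l0 * h, by omega⟩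
  have hrel : n0 * k = a0 * h + r := by
    have h1 : (n0 + l0 * h) * k = (a0 + k * l0) * h + r := by rw [← hn0, ← hq1]; exact q4
    nlinarith
  have hn01 : 1 ≤ n0 := by
    rcases Nat.eq_zero_or_pos n0 with h1 | h1
    · rw [h1] at hrel; omega
    · exact h1
  have hex : ∃ l, X < (a0 + k * l) * (n0 + h * l) := by
    refine ⟨X + 1, ?_⟩
    have h1 : X + 1 ≤ a0 + k * (X + 1) := by nlinarith
    have h2 : 1 ≤ n0 + h * (X + 1) := by omega
    calc X < X + 1 := by omega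
      _ = (X + 1) * 1 := by ring
      _ ≤ _ := Nat.mul_le_mul h1 h2
  classical
  set B := Nat.find hex with hB
  have hB1 : X < (a0 + k * B) * (n0 + h * B) := Nat.find_spec hex
  have hB2 : ∀ l < B, (a0 + k * l) * (n0 + h * l) ≤ X := fun l hl => not_lt.mp (Nat.find_min hex hl)
  have hB3 : ∀ l, (a0 + k * l) * (n0 + h * l) ≤ X → l < B := by
    intro l hl
    by_contra hc
    push Not at hc
    have h1 : (a0 + k * B) * (n0 + h * B) ≤ (a0 + k * l) * (n0 + h * l) :=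
      Nat.mul_le_mul (Nat.add_le_add_left (Nat.mul_le_mul_left _ hc) _) (Nat.add_le_add_left (Nat.mul_le_mul_left _ hc) _)
    omega
  have hl0B : l0 < B := by
    apply hB3
    have h1 : n0 + h * l0 = q.2 := by rw [hn0]; ring
    rw [← hq1, h1]; exact q3
  refine ⟨n0, B, hrel, ha0k, by omega, hB2 (B - 1) (by omega), hB1, ?_⟩
  symm
  refine sum_nbij' (fun l => (a0 + k * l, n0 + h * l)) (fun p => p.1 / k) ?_ ?_ ?_ ?_ ?_
  · intro l hl
    rw [mem_Ico] at hl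
    rw [hS, mem_filter, mem_PS]
    have hkl : 1 ≤ k * l := Nat.mul_pos hk (by omega)
    refine ⟨⟨by show 1 ≤ a0 + k * l; omega, by show 1 ≤ n0 + h * l; omega, hB2 l hl.2⟩, ?_, ?_, ?_⟩
    · show (n0 + h * l) * k = (a0 + k * l) * h + r
      nlinarith
    · show (a0 + k * l) % k = a0
      rw [Nat.add_mul_mod_self_left, Nat.mod_eq_of_lt ha0k]
    · show A ≤ (a0 + k * l) / k
      rw [Nat.add_mul_div_left _ _ (by omega), Nat.div_eq_of_lt ha0k]
      omega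
  · intro p hp
    rw [hS, mem_filter, mem_PS] at hp
    obtain ⟨⟨p1, p2, p3⟩, p4, p5, p6⟩ := hp
    rw [mem_Ico]
    refine ⟨p6, hB3 _ ?_⟩
    have hp1 : p.1 = a0 + k * (p.1 / k) := by
      nth_rewrite 1 [← Nat.mod_add_div p.1 k]; rw [p5]
    have hp2 : p.2 = n0 + h * (p.1 / k) := by
      have h1 : p.2 * k = (n0 + h * (p.1 / k)) * k := by
        rw [p4]
        nth_rewrite 1 [hp1]
        nlinarith
      exact Nat.eq_of_mul_eq_mul_right (by omega) h1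
    rw [← hp1, ← hp2]
    exact p3
  · intro l _
    show (a0 + k * l) / k = l
    rw [Nat.add_mul_div_left _ _ (by omega), Nat.div_eq_of_lt ha0k, zero_add]
  · intro p hp
    rw [hS, mem_filter, mem_PS] at hp
    obtain ⟨⟨p1, p2, p3⟩, p4, p5, p6⟩ := hp
    have hp1 : p.1 = a0 + k * (p.1 / k) := by
      nth_rewrite 1 [← Nat.mod_add_div p.1 k]; rw [p5]
    have hp2 : p.2 = n0 + h * (p.1 / k) := by
      have h1 : p.2 * k = (n0 + h * (p.1 / k)) * k := by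
        rw [p4]
        nth_rewrite 1 [hp1]
        nlinarith
      exact Nat.eq_of_mul_eq_mul_right (by omega) h1
    show (a0 + k * (p.1 / k), n0 + h * (p.1 / k)) = p
    rw [← hp1, ← hp2]
  · intro l _; rfl

/-- the lower cut -/
noncomputable def cutA (H Δ : ℝ) (h k r : ℕ) : ℕ := ⌈(r:ℝ) * H / (2 * Δ * h * k)⌉₊

/-- the far part -/
lemma far2 {h k X : ℕ} (hh : 1 ≤ h) (hk : 1 ≤ k) {T H Δ : ℝ} (hT : 0 < T) (hH : 0 < H) (hΔ : 0 < Δ)
    (h1 : 4 * h * k * Δ < H) :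
    ‖∑ p ∈ (PS X).filter (fun p => p.1 * h < p.2 * k ∧ ¬ cutA H Δ h k (p.2 * k - p.1 * h) ≤ p.1 / k),
        FF H T h k p‖ ≤ 2 * (X:ℝ) ^ 2 * Real.exp (-Δ ^ 2 / 16) := by
  have hh0 : (0:ℝ) < h := by exact_mod_cast hh
  have hk0 : (0:ℝ) < k := by exact_mod_cast hk
  have hh1 : (1:ℝ) ≤ h := by exact_mod_cast hh
  have hk1 : (1:ℝ) ≤ k := by exact_mod_cast hk
  have hΔH : Δ ≤ H := by nlinarith [mul_pos hΔ hh0, mul_le_mul hh1 hk1 zero_le_one hh0.le]
  refine (norm_sum_le _ _).trans ?_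
  have hb : ∀ p ∈ (PS X).filter (fun p => p.1 * h < p.2 * k ∧ ¬ cutA H Δ h k (p.2 * k - p.1 * h) ≤ p.1 / k),
      ‖FF H T h k p‖ ≤ 2 * Real.exp (-Δ ^ 2 / 16) := by
    intro p hp
    rw [mem_filter] at hp
    obtain ⟨p0, p4, p5⟩ := hp
    refine (FF_norm p0 hT).trans ?_
    obtain ⟨p1, p2, p3⟩ := mem_PS.mp p0
    refine mul_le_mul_of_nonneg_left (Real.exp_le_exp.mpr ?_) (by norm_num)
    set r : ℕ := p.2 * k - p.1 * h with hr
    have hr1 : 1 ≤ r := by omega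
    have hr0 : (0:ℝ) < r := by exact_mod_cast hr1
    have hr1' : (1:ℝ) ≤ r := by exact_mod_cast hr1
    have hrel : p.2 * k = p.1 * h + r := by omega
    have hL := LL_eq hh hk p1 hrel
    have hm0 : (0:ℝ) < p.1 := by exact_mod_cast p1
    push Not at p5
    have h2 : ((p.1 / k : ℕ) : ℝ) < (r:ℝ) * H / (2 * Δ * h * k) := by
      unfold cutA at p5
      exact Nat.lt_ceil.mp p5
    have h3 : (p.1:ℝ) ≤ k * ((p.1 / k : ℕ) : ℝ) + k := by
      have h4 : p.1 ≤ k * (p.1 / k) + k := by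
        have := Nat.mod_add_div p.1 k
        have := Nat.mod_lt p.1 (show 0 < k by omega)
        omega
      exact_mod_cast h4
    -- y ≤ H / Δ
    have h5 : (p.1:ℝ) * h / r ≤ H / Δ := by
      rw [div_le_div_iff₀ hr0 hΔ]
      have h6 : (p.1:ℝ) ≤ r * H / (2 * Δ * h) + k := by
        have : (k:ℝ) * ((p.1 / k : ℕ) : ℝ) ≤ k * ((r:ℝ) * H / (2 * Δ * h * k)) := by gcongr
        have e1 : (k:ℝ) * ((r:ℝ) * H / (2 * Δ * h * k)) = r * H / (2 * Δ * h) := by field_simp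
        linarith
      have h7 : (p.1:ℝ) * h * Δ ≤ (r * H / (2 * Δ * h) + k) * h * Δ := by gcongr
      have e2 : (r * H / (2 * Δ * h) + k) * h * Δ = r * H / 2 + h * k * Δ := by field_simp
      nlinarith
    have hy : Δ / H ≤ (r:ℝ) / h / p.1 := by
      rw [div_div, div_le_div_iff₀ hH (by positivity)]
      rw [div_le_div_iff₀ hr0 hΔ] at h5
      linarith
    have hlow : Δ / (2 * H) ≤ LL h k p := by
      have e0 : LL h k p = LL h k (p.1, p.2) := rfl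
      rw [e0, hL]
      have h2 : Real.log (1 + Δ / H) ≤ Real.log (1 + (r:ℝ) / h / p.1) :=
        Real.log_le_log (by positivity) (by linarith)
      refine le_trans ?_ h2
      have h3 := Real.one_sub_inv_le_log_of_pos (show 0 < 1 + Δ / H by positivity)
      refine le_trans ?_ h3
      have h5 : 1 - (1 + Δ / H)⁻¹ = Δ / (H + Δ) := by field_simp; ring
      rw [h5, div_le_div_iff₀ (by positivity) (by linarith)]
      nlinarith
    have h6 : Δ / 2 ≤ H * LL h k p := by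
      rw [div_le_iff₀ (by positivity)] at hlow
      linarith
    have h7 : (Δ / 2) ^ 2 ≤ (H * LL h k p) ^ 2 := by gcongr
    nlinarith
  refine (sum_le_sum hb).trans ?_
  rw [sum_const, nsmul_eq_mul]
  have h2 : (((PS X).filter (fun p => p.1 * h < p.2 * k ∧
      ¬ cutA H Δ h k (p.2 * k - p.1 * h) ≤ p.1 / k)).card : ℝ) ≤ (X:ℝ) ^ 2 :=
    le_trans (by exact_mod_cast card_filter_le _ _) (card_PS X)
  calc _ ≤ (X:ℝ) ^ 2 * (2 * Real.exp (-Δ ^ 2 / 16)) := by gcongr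
    _ = _ := by ring

/-- the near part as a sum over fibres -/
lemma near2 {h k X R : ℕ} (hk : 1 ≤ k) {T H Δ : ℝ} (Bd : ℕ → ℝ)
    (hR : ∀ p ∈ PS X, p.1 * h < p.2 * k → cutA H Δ h k (p.2 * k - p.1 * h) ≤ p.1 / k → p.2 * k - p.1 * h ≤ R)
    (hB : ∀ r ∈ Icc 1 R, ∀ a0 < k, ‖∑ p ∈ (PS X).filter (fun p => p.2 * k = p.1 * h + r ∧ p.1 % k = a0 ∧
      cutA H Δ h k r ≤ p.1 / k), FF H T h k p‖ ≤ Bd r) :
    ‖∑ p ∈ (PS X).filter (fun p => p.1 * h < p.2 * k ∧ cutA H Δ h k (p.2 * k - p.1 * h) ≤ p.1 / k), FF H T h k p‖ ≤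
      k * ∑ r ∈ Icc 1 R, Bd r := by
  set S := (PS X).filter (fun p => p.1 * h < p.2 * k ∧ cutA H Δ h k (p.2 * k - p.1 * h) ≤ p.1 / k) with hS
  have hmaps : ∀ p ∈ S, (p.2 * k - p.1 * h, p.1 % k) ∈ Icc 1 R ×ˢ range k := by
    intro p hp
    rw [hS, mem_filter] at hp
    rw [mem_product, mem_Icc, mem_range]
    exact ⟨⟨by have := hp.2.1; show 1 ≤ p.2 * k - p.1 * h; omega, hR p hp.1 hp.2.1 hp.2.2⟩, Nat.mod_lt _ (by omega)⟩
  rw [← sum_fiberwise_of_maps_to hmaps]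
  refine (norm_sum_le _ _).trans ?_
  have h1 : ∀ z ∈ Icc 1 R ×ˢ range k, ‖∑ p ∈ S.filter (fun p => (p.2 * k - p.1 * h, p.1 % k) = z), FF H T h k p‖ ≤ Bd z.1 := by
    rintro ⟨r, a0⟩ hz
    rw [mem_product, mem_range] at hz
    have hr1 := (mem_Icc.mp hz.1).1
    simp only at hr1
    have hset : S.filter (fun p => (p.2 * k - p.1 * h, p.1 % k) = (r, a0)) =
        (PS X).filter (fun p => p.2 * k = p.1 * h + r ∧ p.1 % k = a0 ∧ cutA H Δ h k r ≤ p.1 / k) := by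
      ext p
      rw [hS]
      simp only [mem_filter, Prod.mk.injEq]
      constructor
      · rintro ⟨⟨g1, g2, g3⟩, g4, g5⟩
        exact ⟨g1, by omega, g5, by rw [← g4]; exact g3⟩
      · rintro ⟨g1, g2, g3, g4⟩
        have g5 : p.2 * k - p.1 * h = r := by omega
        exact ⟨⟨g1, by omega, by rw [g5]; exact g4⟩, g5, g3⟩
    rw [hset]
    exact hB r hz.1 a0 hz.2
  refine (sum_le_sum h1).trans (le_of_eq ?_)
  rw [sum_product]
  simp only [sum_const, card_range, nsmul_eq_mul]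
  rw [mul_sum]

end Pool.Agent.Zk6.QQ
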